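import Pool.Agent.Lib.MP_bbe012_lc.PP.CodeDefs
import Pool.Agent.Lib.MP_bbe012_lc.Defs
import Pool.Agent.Lib.MP_bbe012_lc.Ratio

/-!
# Sums of products of integrals over cubes, and their reduction to one integral
-/

namespace Pool.Agent.Lib.MP_bbe012_lc.PP

open MvPolynomial MeasureTheory Set

/-- Code of an integral over a cube: `(n, (P, D))` stands for the integral of `P / D` over `[0,1]^n`. -/
abbrev CI := ℕ × (PCode × PCode)

/-- Code of a sum of products of integrals over cubes. -/
abbrev Ex := List (List CI)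

/-- The value of the integral. -/
noncomputable def ciVal (I : CI) : ℝ :=
  ∫ x in Icc (0 : Fin I.1 → ℝ) 1, pcEval I.1 I.2.1 x / pcEval I.1 I.2.2 x

/-- The value of the sum of products. -/
noncomputable def exVal (E : Ex) : ℝ := (E.map fun L => (L.map ciVal).prod).sum

/-- The `i`-th factor of the `j`-th product (`1` if there are fewer factors). -/
def item (E : Ex) (j i : ℕ) : CI := (E.getD j []).getD i (0, (pcNat 1, pcNat 1))

/-- Data of a reduction: `(((n, δ), k), ((Q, τ), W))`. -/
abbrev RC := ((ℕ × ℕ) × ℕ) × ((PCode × QCode) × List (List (PCode × PCode)))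

/-- The witnesses for the `i`-th factor of the `j`-th product. -/
def wit (c : RC) (j i : ℕ) : PCode × PCode := (c.2.2.getD j []).getD i ([], [])

/-- Rename the variables `x_1, ..., x_n` into `x_{in+1}, ..., x_{in+n}`, and keep `t = x_0`. -/
def blkC (n i : ℕ) (p : PCode) : PCode :=
  p.map fun t => (t.1, t.2.getD 0 0 :: (List.replicate (i * n) 0 ++ (t.2.drop 1).take n))

/-- The product of the `Q(t, x_{in+1}, ..., x_{in+n})`. -/
def QQ (n δ : ℕ) (Q : PCode) : PCode := pcProdRange δ fun i => blkC n i Q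

/-- The numerator of the integral which represents the sum of products. -/
def GG (E : Ex) (c : RC) : PCode :=
  pcSumRange E.length fun j => pcProdRange c.1.1.2 fun i =>
    pcShift (1 + i * c.1.1.1) c.1.1.1 (pcMul (pcTrunc (item E j i).1 (item E j i).2.1) (wit c j i).1)

/-- The denominator `D` of the factor satisfies `D W = Q(τ, x) ^ k`, written as
`D W = Q(t, x) ^ k + (t - τ) V` with `(W, V) = wit c j i`. -/
def rcItem (E : Ex) (c : RC) (j i : ℕ) : Prop :=
  (item E j i).1 ≤ c.1.1.1 ∧ pcIsZero (c.1.1.1 + 1)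
    (pcShift 1 c.1.1.1 (pcMul (pcTrunc (item E j i).1 (item E j i).2.2) (wit c j i).1) ++
      pcNeg (pcPow c.2.1.1 c.1.2 ++ pcMul (tC ++ pcNeg (constC c.2.1.2)) (wit c j i).2))

instance (E : Ex) (c : RC) (j i : ℕ) : Decidable (rcItem E c j i) := by unfold rcItem; infer_instance

/-- Verification of the data of a reduction. -/
def rcOK (E : Ex) (c : RC) : Prop :=
  (∀ L ∈ E, L.length ≤ c.1.1.2) ∧
    ∀ j ∈ List.range E.length, ∀ i ∈ List.range c.1.1.2, rcItem E c j i

instance (E : Ex) (c : RC) : Decidable (rcOK E c) := by unfold rcOK; infer_instance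

/-- The integral which represents the sum of products. -/
def toCore (E : Ex) (c : RC) : Core :=
  ((c.1.1.2 * c.1.1.1, c.1.2), ((QQ c.1.1.1 c.1.1.2 c.2.1.1, GG E c), c.2.1.2))

/-- The variables of the `i`-th block. -/
def bidx (n δ : ℕ) (i : Fin δ) : Fin (n + 1) → Fin (δ * n + 1) :=
  Fin.cases 0 fun l => (finProdFinEquiv (i, l)).succ

/-- The coordinates of the `i`-th block. -/
def bco (n δ : ℕ) (i : Fin δ) (x : Fin (δ * n) → ℝ) : Fin n → ℝ := fun l => x (finProdFinEquiv (i, l))

end Pool.Agent.Lib.MP_bbe012_lc.PP
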