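import Pool.Agent.Lib.MP_bbe012_lc.PP.NormW

/-!
# The value of the expansion is the integral
-/

namespace Pool.Agent.Lib.MP_bbe012_lc.PP

open MvPolynomial MeasureTheory Set

/-- The point `(τ, x)`. -/
noncomputable def pt (n : ℕ) (τ : ℚ) (x : Fin n → ℝ) : Fin (n + 1) → ℝ := Fin.cons (τ : ℝ) x

private theorem sem_cont {m : ℕ} (p : MvPolynomial (Fin m) ℚ) :
    Continuous fun x : Fin m → ℝ => aeval x p := by
  have h : (fun x : Fin m → ℝ => aeval x p) =
      fun x => ∑ d ∈ p.support, algebraMap ℚ ℝ (coeff d p) * ∏ i, x i ^ d i := by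
    funext x
    rw [aeval_def, eval₂_eq']
  rw [h]
  fun_prop

private theorem sem_cont_pt (n : ℕ) (τ : ℚ) (G : P1 n) :
    Continuous fun x : Fin n → ℝ => aeval (pt n τ x) G := by
  have h : Continuous fun x : Fin n → ℝ => pt n τ x := by
    refine continuous_pi fun i => ?_
    refine Fin.cases ?_ (fun l => ?_) i
    · exact continuous_const
    · exact continuous_apply l
  exact (sem_cont G).comp h

/-- The integral over `[0,1]^n` of a polynomial.

Proof. By linearity (`MvPolynomial.induction_on'`, everything is integrable because polynomials are continuous and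
`Icc 0 1` is compact) for a monomial: `aeval x (monomial m a) = a * ∏ x i ^ m i`; `volume.restrict (Icc 0 1)` is
`Measure.pi fun _ => volume.restrict (Icc 0 1)` (`Set.pi_univ_Icc`, `Measure.restrict_pi_pi`), and
`MeasureTheory.integral_fintype_prod_eq_prod`; `∫ x in Icc 0 1, x ^ m = 1 / (m + 1)` (`integral_pow`). -/
theorem integral_poly (n : ℕ) (p : MvPolynomial (Fin n) ℚ) :
    ∫ x in Icc (0 : Fin n → ℝ) 1, aeval x p = ((Lam n p : ℚ) : ℝ) := by
  have hint : ∀ q : MvPolynomial (Fin n) ℚ,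
      IntegrableOn (fun x : Fin n → ℝ => aeval x q) (Icc (0 : Fin n → ℝ) 1) := fun q =>
    (sem_cont q).continuousOn.integrableOn_compact isCompact_Icc
  induction p using MvPolynomial.induction_on' with
  | monomial m a =>
    have h1 : ∀ x : Fin n → ℝ, aeval x (monomial m a) = (a : ℝ) * ∏ i, x i ^ m i := by
      intro x
      rw [aeval_monomial, Finsupp.prod_fintype _ _ (fun i => pow_zero _)]
      rfl
    simp_rw [h1]
    rw [integral_const_mul]
    have h2 : ∫ x in Icc (0 : Fin n → ℝ) 1, ∏ i, x i ^ m i = ∏ i, ((m i : ℝ) + 1)⁻¹ := by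
      rw [← Set.pi_univ_Icc, volume_pi, Measure.restrict_pi_pi,
        integral_fintype_prod_eq_prod (fun i (t : ℝ) => t ^ m i)]
      refine Finset.prod_congr rfl fun i _ => ?_
      rw [Pi.zero_apply, Pi.one_apply, integral_Icc_eq_integral_Ioc,
        ← intervalIntegral.integral_of_le zero_le_one, integral_pow]
      simp
    rw [h2, Lam_monomial]
    push_cast
    rfl
  | add p q hp hq =>
    simp_rw [map_add]
    rw [integral_add (hint p) (hint q), hp, hq]
    push_cast
    rfl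

/-- Proof: triangle inequality, every monomial is at most `1` in absolute value on `[0,1]^n`. -/
theorem abs_aeval_le (n : ℕ) (p : MvPolynomial (Fin n) ℚ) {x : Fin n → ℝ}
    (hx : x ∈ Icc (0 : Fin n → ℝ) 1) : |aeval x p| ≤ ((l1M p : ℚ) : ℝ) := by
  rw [aeval_def, eval₂_eq']
  unfold l1M
  rw [Rat.cast_sum]
  refine (Finset.abs_sum_le_sum_abs _ _).trans (Finset.sum_le_sum fun d _ => ?_)
  rw [abs_mul, Rat.cast_abs, eq_ratCast]
  have h1 : |∏ i, x i ^ d i| ≤ 1 := by
    rw [Finset.abs_prod]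
    refine Finset.prod_le_one (fun i _ => abs_nonneg _) fun i _ => ?_
    rw [abs_pow]
    refine pow_le_one₀ (abs_nonneg _) ?_
    rw [abs_of_nonneg (hx.1 i)]
    exact hx.2 i
  have h2 := mul_le_mul_of_nonneg_left h1 (abs_nonneg ((coeff d p : ℚ) : ℝ))
  rw [mul_one] at h2
  exact h2

/-- The value at the point `x` of a power series at `τ`. -/
noncomputable def evx (n : ℕ) (τ : ℚ) (x : Fin n → ℝ) (f : PowerSeries (MvPolynomial (Fin n) ℚ)) : ℝ :=
  ∑' k, aeval x (PowerSeries.coeff k f) * (τ : ℝ) ^ k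

private theorem sem_summable {n : ℕ} {τ : ℚ} {x : Fin n → ℝ} (hx : x ∈ Icc (0 : Fin n → ℝ) 1)
    {f : PowerSeries (MvPolynomial (Fin n) ℚ)} (hf : SW n τ f) :
    Summable fun k => ‖aeval x (PowerSeries.coeff k f) * (τ : ℝ) ^ k‖ := by
  refine Summable.of_nonneg_of_le (fun k => norm_nonneg _) (fun k => ?_) hf
  rw [norm_mul, norm_pow, Real.norm_eq_abs, Real.norm_eq_abs]
  exact mul_le_mul_of_nonneg_right (abs_aeval_le n _ hx) (pow_nonneg (abs_nonneg _) _)

/-- Proof: `tsum_mul_tsum_eq_tsum_sum_antidiagonal_of_summable_norm`, `abs_aeval_le`. -/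
theorem evx_mul {n : ℕ} {τ : ℚ} {x : Fin n → ℝ} (hx : x ∈ Icc (0 : Fin n → ℝ) 1)
    {f g : PowerSeries (MvPolynomial (Fin n) ℚ)} (hf : SW n τ f) (hg : SW n τ g) :
    evx n τ x (f * g) = evx n τ x f * evx n τ x g := by
  have h4 := tsum_mul_tsum_eq_tsum_sum_antidiagonal_of_summable_norm (sem_summable hx hf)
    (sem_summable hx hg)
  unfold evx
  rw [h4]
  refine tsum_congr fun k => ?_
  rw [PowerSeries.coeff_mul, map_sum, Finset.sum_mul]
  refine Finset.sum_congr rfl fun p hp => ?_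
  rw [← Finset.HasAntidiagonal.mem_antidiagonal.1 hp, map_mul, pow_add]
  ring

private theorem sem_C {n : ℕ} (τ : ℚ) (x : Fin n → ℝ) (p : MvPolynomial (Fin n) ℚ) :
    evx n τ x (PowerSeries.C p) = aeval x p := by
  unfold evx
  rw [tsum_eq_single 0]
  · rw [PowerSeries.coeff_C, if_pos rfl, pow_zero, mul_one]
  · intro k hk
    rw [PowerSeries.coeff_C, if_neg hk, map_zero, zero_mul]

private theorem sem_X {n : ℕ} (τ : ℚ) (x : Fin n → ℝ) :
    evx n τ x PowerSeries.X = (τ : ℝ) := by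
  unfold evx
  rw [tsum_eq_single 1]
  · rw [PowerSeries.coeff_X, if_pos rfl, map_one, pow_one, one_mul]
  · intro k hk
    rw [PowerSeries.coeff_X, if_neg hk, map_zero, zero_mul]

private theorem sem_add {n : ℕ} {τ : ℚ} {x : Fin n → ℝ} (hx : x ∈ Icc (0 : Fin n → ℝ) 1)
    {f g : PowerSeries (MvPolynomial (Fin n) ℚ)} (hf : SW n τ f) (hg : SW n τ g) :
    evx n τ x (f + g) = evx n τ x f + evx n τ x g := by
  unfold evx
  rw [← Summable.tsum_add (sem_summable hx hf).of_norm (sem_summable hx hg).of_norm]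
  refine tsum_congr fun k => ?_
  rw [map_add, map_add, add_mul]

/-- Proof: induction on `G`, with `evx_mul`, additivity, `evx` of `PowerSeries.X` and of `PowerSeries.C`. -/
theorem evx_ser {n : ℕ} {τ : ℚ} {x : Fin n → ℝ} (hx : x ∈ Icc (0 : Fin n → ℝ) 1) (G : P1 n) :
    evx n τ x (ser n G) = aeval (pt n τ x) G := by
  induction G using MvPolynomial.induction_on with
  | C a => rw [ser_C, sem_C, aeval_C, aeval_C]
  | add p q hp hq => rw [map_add, sem_add hx (SW_ser n τ p) (SW_ser n τ q), hp, hq, map_add]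
  | mul_X p i hp =>
    rw [map_mul, evx_mul hx (SW_ser n τ p) (SW_ser n τ (X i)), hp, map_mul, aeval_X]
    congr 1
    refine Fin.cases ?_ (fun l => ?_) i
    · rw [ser_X_zero, sem_X]
      rfl
    · rw [ser_X_succ, sem_C, aeval_X]
      rfl

/-- Under the smallness condition `Q(τ, x)` is at least `1/2` on the cube.

Proof: `Q = 1 + (the terms with m 0 ≠ 0)` because `atZero n Q = 1` (the terms with `m 0 = 0` of `Q` are the terms
of `atZero n Q`), and the sum of the absolute values of the other terms at `(τ, x)` is at most `wn n Q τ`. Or use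
`evx_ser`, `constantCoeff_ser` and `sum_ser_le`. -/
theorem half_le {n : ℕ} {Q : P1 n} (hQ : atZero n Q = 1) {τ : ℚ} (hτ : wn n Q τ ≤ 1 / 2)
    {x : Fin n → ℝ} (hx : x ∈ Icc (0 : Fin n → ℝ) 1) : 1 / 2 ≤ aeval (pt n τ x) Q := by
  rw [← evx_ser hx]
  unfold evx
  have hS := (sem_summable hx (SW_ser n τ Q)).of_norm
  rw [hS.tsum_eq_zero_add]
  have h0 : PowerSeries.coeff 0 (ser n Q) = 1 := by
    rw [PowerSeries.coeff_zero_eq_constantCoeff_apply, constantCoeff_ser, hQ]
  rw [h0, map_one, pow_zero, mul_one]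
  have hnn : ∀ k, 0 ≤ ((l1M (PowerSeries.coeff (k + 1) (ser n Q)) : ℚ) : ℝ) *
      |(τ : ℝ)| ^ (k + 1) := fun k =>
    mul_nonneg (by exact_mod_cast Tame_l1M_nonneg _) (pow_nonneg (abs_nonneg _) _)
  have hw : Summable fun k => ((l1M (PowerSeries.coeff (k + 1) (ser n Q)) : ℚ) : ℝ) *
      |(τ : ℝ)| ^ (k + 1) :=
    (summable_nat_add_iff (f := fun k => ((l1M (PowerSeries.coeff k (ser n Q)) : ℚ) : ℝ) *
      |(τ : ℝ)| ^ k) 1).2 (SW_ser n τ Q)
  have h1 : ‖∑' k, aeval x (PowerSeries.coeff (k + 1) (ser n Q)) * (τ : ℝ) ^ (k + 1)‖ ≤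
      ∑' k, ((l1M (PowerSeries.coeff (k + 1) (ser n Q)) : ℚ) : ℝ) * |(τ : ℝ)| ^ (k + 1) := by
    refine tsum_of_norm_bounded hw.hasSum fun k => ?_
    rw [norm_mul, norm_pow, Real.norm_eq_abs, Real.norm_eq_abs]
    exact mul_le_mul_of_nonneg_right (abs_aeval_le n _ hx) (pow_nonneg (abs_nonneg _) _)
  have h2 : ∑' k, ((l1M (PowerSeries.coeff (k + 1) (ser n Q)) : ℚ) : ℝ) * |(τ : ℝ)| ^ (k + 1) ≤
      1 / 2 := by
    refine Real.tsum_le_of_sum_range_le hnn fun N => ?_
    have h3 : ((∑ k ∈ Finset.range N, l1M (PowerSeries.coeff (k + 1) (ser n Q)) *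
        |τ| ^ (k + 1) : ℚ) : ℝ) ≤ ((1 / 2 : ℚ) : ℝ) :=
      Rat.cast_le.2 ((sum_ser_le n Q τ N).trans hτ)
    push_cast at h3
    exact h3
  rw [Real.norm_eq_abs] at h1
  have h3 := (abs_le.1 (h1.trans h2)).1
  linarith

/-- **The value of the expansion is the integral.**

Proof. Pointwise, `G(τ,x) / Q(τ,x)^K = evx n τ x (ser n G * sinv n Q ^ K)` (`evx_mul`, `evx_ser`, `ser_mul_sinv`,
`SW_ser`, `SW_sinv`, `half_le`). Integrate term by term: `hasSum_integral_of_summable_integral_norm` /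
`integral_tsum`, with the bound `abs_aeval_le`, and `integral_poly`. -/
theorem integral_eq_ev {n : ℕ} {Q : P1 n} (hQ : atZero n Q = 1) {τ : ℚ} (hτ : wn n Q τ ≤ 1 / 2)
    (G : P1 n) (K : ℕ) :
    ∫ x in Icc (0 : Fin n → ℝ) 1, aeval (pt n τ x) G / aeval (pt n τ x) Q ^ K =
      ev τ (Phi n Q G K) := by
  have hS := SW_sinv hQ hτ
  have hpow : ∀ K : ℕ, SW n τ (sinv n Q ^ K) := by
    intro K
    induction K with
    | zero =>
      rw [pow_zero, ← map_one (ser n)]
      exact SW_ser n τ 1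
    | succ K ih =>
      rw [pow_succ]
      exact SW.mul ih hS
  have hF : SW n τ (ser n G * sinv n Q ^ K) := SW.mul (SW_ser n τ G) (hpow K)
  have hpt : EqOn (fun x => aeval (pt n τ x) G / aeval (pt n τ x) Q ^ K)
      (fun x => evx n τ x (ser n G * sinv n Q ^ K)) (Icc (0 : Fin n → ℝ) 1) := by
    intro x hx
    have hpos : 0 < aeval (pt n τ x) Q := lt_of_lt_of_le (by norm_num) (half_le hQ hτ hx)
    have h1 : evx n τ x (sinv n Q) * aeval (pt n τ x) Q = 1 := by
      rw [← evx_ser hx, mul_comm, ← evx_mul hx (SW_ser n τ Q) hS, ser_mul_sinv hQ,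
        ← map_one (ser n), evx_ser hx, map_one]
    have h2 : ∀ K : ℕ, evx n τ x (sinv n Q ^ K) * aeval (pt n τ x) Q ^ K = 1 := by
      intro K
      induction K with
      | zero => rw [pow_zero, pow_zero, mul_one, ← map_one (ser n), evx_ser hx, map_one]
      | succ K ih =>
        rw [pow_succ, pow_succ, evx_mul hx (hpow K) hS]
        calc evx n τ x (sinv n Q ^ K) * evx n τ x (sinv n Q) *
            (aeval (pt n τ x) Q ^ K * aeval (pt n τ x) Q)
            = (evx n τ x (sinv n Q ^ K) * aeval (pt n τ x) Q ^ K) *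
              (evx n τ x (sinv n Q) * aeval (pt n τ x) Q) := by ring
          _ = 1 := by rw [ih, h1, mul_one]
    change aeval (pt n τ x) G / aeval (pt n τ x) Q ^ K = evx n τ x (ser n G * sinv n Q ^ K)
    rw [evx_mul hx (SW_ser n τ G) (hpow K), evx_ser hx, div_eq_iff (pow_pos hpos K).ne']
    linear_combination -(aeval (pt n τ x) G) * h2 K
  rw [setIntegral_congr_fun measurableSet_Icc hpt]
  unfold evx
  rw [← integral_tsum_of_summable_integral_norm]
  · unfold ev Phi
    refine tsum_congr fun k => ?_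
    rw [integral_mul_const, integral_poly, coeff_LamS]
  · intro k
    exact ((sem_cont _).mul continuous_const).continuousOn.integrableOn_compact isCompact_Icc
  · refine Summable.of_nonneg_of_le (fun k => integral_nonneg fun _ => norm_nonneg _) (fun k => ?_)
      (hF.mul_right (volume.real (Icc (0 : Fin n → ℝ) 1)))
    have h1 : ∀ x ∈ Icc (0 : Fin n → ℝ) 1,
        ‖‖aeval x (PowerSeries.coeff k (ser n G * sinv n Q ^ K)) * (τ : ℝ) ^ k‖‖ ≤
        ((l1M (PowerSeries.coeff k (ser n G * sinv n Q ^ K)) : ℚ) : ℝ) * |(τ : ℝ)| ^ k := by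
      intro x hx
      rw [norm_norm, norm_mul, norm_pow, Real.norm_eq_abs, Real.norm_eq_abs]
      exact mul_le_mul_of_nonneg_right (abs_aeval_le n _ hx) (pow_nonneg (abs_nonneg _) _)
    have h2 := norm_setIntegral_le_of_norm_le_const (μ := volume)
      (isCompact_Icc (a := (0 : Fin n → ℝ)) (b := 1)).measure_lt_top h1
    rw [Real.norm_of_nonneg (integral_nonneg fun _ => norm_nonneg _)] at h2
    exact h2

/-- Integrability. Proof: continuous on the compact cube, by `half_le`. -/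
theorem integrableOn_frac {n : ℕ} {Q : P1 n} (hQ : atZero n Q = 1) {τ : ℚ} (hτ : wn n Q τ ≤ 1 / 2)
    (G : P1 n) (K : ℕ) :
    IntegrableOn (fun x => aeval (pt n τ x) G / aeval (pt n τ x) Q ^ K)
      (Icc (0 : Fin n → ℝ) 1) := by
  refine ContinuousOn.integrableOn_compact isCompact_Icc ?_
  refine (sem_cont_pt n τ G).continuousOn.div ((sem_cont_pt n τ Q).pow K).continuousOn
    fun x hx => ?_
  have hpos : 0 < aeval (pt n τ x) Q := lt_of_lt_of_le (by norm_num) (half_le hQ hτ hx)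
  exact (pow_pos hpos K).ne'

end Pool.Agent.Lib.MP_bbe012_lc.PP
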