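import Pool.Agent.Lib.MP_bbe012_lc.PP.CertDefs

/-!
# Soundness of certificates for non zero values
-/

namespace Pool.Agent.Lib.MP_bbe012_lc.PP

open MvPolynomial MeasureTheory Set

theorem SoundN_volume (n : ℕ) : volume (Icc (0 : Fin n → ℝ) 1) = 1 := by
  rw [Real.volume_Icc_pi]
  simp

theorem SoundN_Phi_exact {n : ℕ} {Q : P1 n} (hQ : atZero n Q = 1) (E : Fin n → P1 n) :
    Phi n Q (∑ l, pderiv l.succ (fl n l * E l)) 0 = 0 := by
  have h1 := Phi_divf hQ 0 E
  have h2 : divf n Q 0 E = (∑ l, pderiv l.succ (fl n l * E l)) * Q ^ 1 := by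
    unfold divf
    rw [pow_one, Finset.sum_mul]
    refine Finset.sum_congr rfl fun l _ => ?_
    rw [Nat.cast_zero, zero_mul, sub_zero, mul_comm]
  rw [h2, Phi_shift hQ] at h1
  exact h1

/-- Soundness. Proof: `JJ n Q G K τ = a + ∫ R / Q ^ K`: divide `eq` by `Q ^ K` at `(τ, x)` (`half_le`), the integral of
`∑ ∂_l (f_l E_l)` at `t = τ` vanishes (`integral_poly` and `Lam_pderiv` for the polynomial `E_l(τ, x)`; or
`integral_eq_ev` with `K = 0` and `Phi_divf`), and `|∫ R / Q ^ K| ≤ 2 ^ K s` (`half_le`, the cube has measure `1`). -/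
theorem JJ_ne_zero {n : ℕ} {Q : P1 n} (hQ : atZero n Q = 1) {τ : ℚ} (hτ : wn n Q τ ≤ 1 / 2)
    {G : P1 n} {K : ℕ} {a s : ℚ} {E : Fin n → P1 n} {R U : P1 n}
    (h : IsNeCert n Q G K τ a s E R U) : JJ n Q G K τ ≠ 0 := by
  set D : P1 n := ∑ l, pderiv l.succ (fl n l * E l) with hD
  have hpos : ∀ x ∈ Icc (0 : Fin n → ℝ) 1, 0 < aeval (pt n τ x) Q := fun x hx =>
    lt_of_lt_of_le (by norm_num) (half_le hQ hτ hx)
  -- the integral of the exact part
  have hDint : ∫ x in Icc (0 : Fin n → ℝ) 1, aeval (pt n τ x) D / aeval (pt n τ x) Q ^ 0 = 0 := by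
    rw [integral_eq_ev hQ hτ D 0, hD, SoundN_Phi_exact hQ E]
    unfold ev
    simp
  have hvol : volume.real (Icc (0 : Fin n → ℝ) 1) = 1 := by
    rw [Measure.real, SoundN_volume, ENNReal.toReal_one]
  have hfin : volume (Icc (0 : Fin n → ℝ) 1) < ⊤ := by
    rw [SoundN_volume]
    exact ENNReal.one_lt_top
  have hconst : ∫ _x in Icc (0 : Fin n → ℝ) 1, (a : ℝ) = a := by
    rw [setIntegral_const, hvol, one_smul]
  -- the remainder
  have hR : |∫ x in Icc (0 : Fin n → ℝ) 1, aeval (pt n τ x) R / aeval (pt n τ x) Q ^ K| ≤ 2 ^ K * (s : ℝ) := by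
    have h1 := norm_setIntegral_le_of_norm_le_const (μ := volume) (s := Icc (0 : Fin n → ℝ) 1)
      (f := fun x => aeval (pt n τ x) R / aeval (pt n τ x) Q ^ K) (C := 2 ^ K * (s : ℝ)) hfin (by
        intro x hx
        rw [Real.norm_eq_abs, abs_div, abs_of_pos (pow_pos (hpos x hx) K), div_le_iff₀ (pow_pos (hpos x hx) K)]
        have h2 := h.small x hx
        have h3 : (1 : ℝ) ≤ 2 ^ K * aeval (pt n τ x) Q ^ K := by
          rw [← mul_pow]
          refine one_le_pow₀ ?_
          have := half_le hQ hτ hx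
          linarith
        have h4 : (0 : ℝ) ≤ s := (abs_nonneg _).trans h2
        calc |aeval (pt n τ x) R| ≤ s := h2
          _ = 1 * s := (one_mul _).symm
          _ ≤ (2 ^ K * aeval (pt n τ x) Q ^ K) * s := mul_le_mul_of_nonneg_right h3 h4
          _ = 2 ^ K * (s : ℝ) * aeval (pt n τ x) Q ^ K := by ring)
    rw [hvol, mul_one, Real.norm_eq_abs] at h1
    exact h1
  -- decomposition
  have hJ : JJ n Q G K τ = a + ∫ x in Icc (0 : Fin n → ℝ) 1, aeval (pt n τ x) R / aeval (pt n τ x) Q ^ K := by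
    have h1 : JJ n Q G K τ = ∫ x in Icc (0 : Fin n → ℝ) 1,
        (((a : ℝ) + aeval (pt n τ x) D / aeval (pt n τ x) Q ^ 0) +
          aeval (pt n τ x) R / aeval (pt n τ x) Q ^ K) := by
      unfold JJ
      refine setIntegral_congr_fun measurableSet_Icc fun x hx => ?_
      have hne : aeval (pt n τ x) Q ^ K ≠ 0 := (pow_pos (hpos x hx) K).ne'
      have h2 : aeval (pt n τ x) G = aeval (pt n τ x) Q ^ K * ((a : ℝ) + aeval (pt n τ x) D) +
          aeval (pt n τ x) R := by
        have h3 := congrArg (aeval (pt n τ x)) h.eq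
        rw [map_add, map_add, map_mul, map_mul, map_add, map_pow, map_sub, aeval_C, aeval_C, aeval_X] at h3
        have h4 : pt n τ x 0 = (τ : ℝ) := rfl
        have h5 : (algebraMap ℚ ℝ) τ = (τ : ℝ) := rfl
        have h6 : (algebraMap ℚ ℝ) a = (a : ℝ) := rfl
        rw [h4, h5, h6, sub_self, zero_mul, add_zero] at h3
        exact h3
      show aeval (pt n τ x) G / aeval (pt n τ x) Q ^ K = _
      rw [h2]
      field_simp
    have hiD := integrableOn_frac hQ hτ D 0
    have hiR := integrableOn_frac hQ hτ R K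
    have hia : IntegrableOn (fun _ : Fin n → ℝ => (a : ℝ)) (Icc (0 : Fin n → ℝ) 1) :=
      integrableOn_const hfin.ne
    have hadd : IntegrableOn (fun x => (a : ℝ) + aeval (pt n τ x) D / aeval (pt n τ x) Q ^ 0)
        (Icc (0 : Fin n → ℝ) 1) := hia.add hiD
    rw [h1, integral_add hadd hiR, integral_add hia hiD, hconst, hDint, add_zero]
  intro h0
  rw [hJ] at h0
  have h1 : ∫ x in Icc (0 : Fin n → ℝ) 1, aeval (pt n τ x) R / aeval (pt n τ x) Q ^ K = -(a : ℝ) := by linarith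
  rw [h1, abs_neg] at hR
  have h2 : ((2 ^ K * s : ℚ) : ℝ) < ((|a| : ℚ) : ℝ) := by exact_mod_cast h.lt
  push_cast at h2
  linarith

end Pool.Agent.Lib.MP_bbe012_lc.PP
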