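import Pool.Agent.Lib.MP_bbe012_lc.PP.CertDefs

/-!
# Soundness of certificates for zero
-/

namespace Pool.Agent.Lib.MP_bbe012_lc.PP

open MvPolynomial MeasureTheory Set

private theorem soundz_int (m : ℕ) (N : ℕ) (z : ℕ → ℤ)
    (hz : ∑ i ∈ Finset.range N, (z i).natAbs < m)
    (h0 : ∑ i ∈ Finset.range N, z i * (m : ℤ) ^ i = 0) : ∀ i < N, z i = 0 := by
  induction N generalizing z with
  | zero => intro i hi; omega
  | succ N ih =>
    rw [Finset.sum_range_succ'] at hz h0
    have e1 : ∑ i ∈ Finset.range N, z (i + 1) * (m : ℤ) ^ (i + 1) =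
        (m : ℤ) * ∑ i ∈ Finset.range N, z (i + 1) * (m : ℤ) ^ i := by
      rw [Finset.mul_sum]
      exact Finset.sum_congr rfl fun i _ => by ring
    rw [e1, pow_zero, mul_one] at h0
    have hm : (0 : ℤ) < m := by
      have : 0 < m := by omega
      exact_mod_cast this
    have hd : (m : ℤ) ∣ z 0 := ⟨- ∑ i ∈ Finset.range N, z (i + 1) * (m : ℤ) ^ i, by
      linear_combination h0⟩
    have h1 : z 0 = 0 := by
      refine Int.eq_zero_of_abs_lt_dvd hd ?_
      rw [Int.abs_eq_natAbs]
      have : (z 0).natAbs < m := by omega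
      exact_mod_cast this
    rw [h1, add_zero] at h0
    have h2 := ih (fun i => z (i + 1)) (by omega) ((mul_eq_zero.1 h0).resolve_left hm.ne')
    intro i hi
    cases i with
    | zero => exact h1
    | succ i => exact h2 i (by omega)

private theorem soundz_coeff_theta (f : PowerSeries ℚ) (m : ℕ) :
    PowerSeries.coeff m (theta f) = (m : ℚ) * PowerSeries.coeff m f := by
  rw [theta]
  cases m with
  | zero => rw [PowerSeries.coeff_zero_X_mul, Nat.cast_zero, zero_mul]
  | succ k =>
    rw [PowerSeries.coeff_succ_X_mul, PowerSeries.coeff_derivative]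
    push_cast
    ring

private theorem soundz_coeff_iter (f : PowerSeries ℚ) (i m : ℕ) :
    PowerSeries.coeff m (theta^[i] f) = (m : ℚ) ^ i * PowerSeries.coeff m f := by
  induction i with
  | zero => rw [pow_zero, one_mul]; rfl
  | succ i ih => rw [Function.iterate_succ_apply', soundz_coeff_theta, ih]; ring

private theorem soundz_lead (N m : ℕ) (z : ℕ → ℤ) (c : ℕ → Polynomial ℚ) (F : PowerSeries ℚ)
    (hF : ∀ b < m, PowerSeries.coeff b F = 0)
    (h : ∑ i ∈ Finset.range N, ((Polynomial.C (z i : ℚ) + Polynomial.X * c i : Polynomial ℚ) :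
      PowerSeries ℚ) * theta^[i] F = 0) :
    ((∑ i ∈ Finset.range N, z i * (m : ℤ) ^ i : ℤ) : ℚ) * PowerSeries.coeff m F = 0 := by
  have h1 := congrArg (PowerSeries.coeff m) h
  rw [map_sum, map_zero] at h1
  rw [← h1]
  push_cast
  rw [Finset.sum_mul]
  refine Finset.sum_congr rfl fun i _ => ?_
  rw [add_mul, map_add,
    PowerSeries.coeff_C_mul, soundz_coeff_iter, mul_assoc PowerSeries.X]
  have h2 : PowerSeries.coeff m
      (PowerSeries.X * (((c i : Polynomial ℚ) : PowerSeries ℚ) * theta^[i] F)) = 0 := by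
    cases m with
    | zero => rw [PowerSeries.coeff_zero_X_mul]
    | succ k =>
      rw [PowerSeries.coeff_succ_X_mul, PowerSeries.coeff_mul]
      refine Finset.sum_eq_zero fun p hp => ?_
      have hp2 : p.2 < k + 1 := by
        have := Finset.HasAntidiagonal.mem_antidiagonal.1 hp
        omega
      rw [soundz_coeff_iter, hF p.2 hp2, mul_zero, mul_zero]
  rw [h2, add_zero, mul_assoc]

/-- Soundness. Proof. Let `F = Phi n Q S K`. Apply `Phi n Q _ (K' + 1)` to `exact` (`Phi_divf`, `Phi_inT_mul`, note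
`X 0 ^ κ = inT n (X ^ κ)`, `C (z i) + X 0 * inT n (c i) = inT n (C (z i) + X * c i)`, `Phi_shift`, `theta_Phi`):
`X ^ κ * ∑ (z i + X c i) * theta^[i] F = 0`, cancel `X ^ κ`. By `init`, `Phi_expand` and
`Lam_pderiv` (`ser n (pderiv l.succ (fl n l * E)) = ` coefficientwise derivative `pderiv l ((X l - X l ^ 2) * _)`;
see the proof of `Phi_divf`) the coefficients of index `≤ L` of `F` vanish. `coeff m (theta^[i] F) = m ^ i * coeff m F`.
By strong induction all coefficients vanish: for `m > L`, the coefficient of index `m` of the equation gives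
`(∑ z_i m ^ i) * coeff m F = 0` (the other terms involve coefficients of smaller index), and
`∑ z_i m ^ i ≠ 0` because `m > L ≥ ∑ |z_i|` (look at the largest `i` with `z_i ≠ 0`). -/
theorem Phi_eq_zero {n : ℕ} {Q : P1 n} (hQ : atZero n Q = 1) {S : P1 n} {K κ K' ρ L : ℕ}
    {z : ℕ → ℤ} {c : ℕ → Polynomial ℚ} {g E : Fin n → P1 n} {H : P1 n}
    (h : IsZeroCert n Q S K κ K' ρ L z c g E H) : Phi n Q S K = 0 := by
  obtain ⟨F, hF⟩ : ∃ F : PowerSeries ℚ, F = Phi n Q S K := ⟨_, rfl⟩
  have hinX : inT n Polynomial.X = X 0 := by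
    rw [inT]
    exact Polynomial.aeval_X _
  have hinC : ∀ a : ℚ, inT n (Polynomial.C a) = C a := by
    intro a
    rw [inT]
    exact Polynomial.aeval_C _ _
  -- the differential equation
  have hode : ∑ i ∈ Finset.range (ρ + 1), ((Polynomial.C (z i : ℚ) + Polynomial.X * c i :
      Polynomial ℚ) : PowerSeries ℚ) * theta^[i] F = 0 := by
    have h1 := congrArg (fun G => Phi n Q G (K' + 1)) h.exact
    rw [Phi_divf hQ] at h1
    have h2 : X 0 ^ κ = inT n (Polynomial.X ^ κ) := by rw [map_pow, hinX]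
    rw [h2, Phi_inT_mul, Phi_sum] at h1
    have h3 : ((Polynomial.X ^ κ : Polynomial ℚ) : PowerSeries ℚ) ≠ 0 := by
      rw [Polynomial.coe_pow, Polynomial.coe_X]
      exact pow_ne_zero _ PowerSeries.X_ne_zero
    have h4 := (mul_eq_zero.1 h1).resolve_left h3
    rw [← h4]
    refine Finset.sum_congr rfl fun i hi => ?_
    have hi' : K + i ≤ K' + 1 := by
      have := Finset.mem_range.1 hi
      have := h.le
      omega
    have h5 : (C (z i : ℚ) + X 0 * inT n (c i) : P1 n) =
        inT n (Polynomial.C (z i : ℚ) + Polynomial.X * c i) := by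
      rw [map_add, map_mul, hinX, hinC]
    rw [h5, mul_assoc, Phi_inT_mul]
    congr 1
    have h6 : K' + 1 = K + i + (K' + 1 - (K + i)) := by omega
    rw [hF, theta_Phi hQ]
    have h7 := Phi_shift hQ (thetaNum n Q K S i) (K + i) (K' + 1 - (K + i))
    rw [← h6] at h7
    exact h7.symm
  -- the first coefficients
  have hinit : ∀ m ≤ L, PowerSeries.coeff m F = 0 := by
    intro m hm
    have h1 : Phi n Q (∑ l, pderiv l.succ (fl n l * E l)) 0 = 0 := by
      have h2 := Phi_divf hQ 0 E
      have h3 : divf n Q 0 E = (∑ l, pderiv l.succ (fl n l * E l)) * Q ^ 1 := by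
        rw [divf, Finset.sum_mul]
        refine Finset.sum_congr rfl fun l _ => ?_
        rw [Nat.cast_zero]
        ring
      rw [h3] at h2
      have h4 := Phi_shift hQ (∑ l, pderiv l.succ (fl n l * E l)) 0 1
      rw [← h4]
      exact h2
    have h5 : LamS n (ser n (∑ l, pderiv l.succ (fl n l * E l))) = 0 := by
      rw [← h1, Phi, pow_zero, mul_one]
    rw [hF, h.init, Phi_expand hQ, h5, zero_add, PowerSeries.coeff_X_pow_mul', if_neg (by omega)]
  have hall : ∀ m, PowerSeries.coeff m F = 0 := by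
    intro m
    induction m using Nat.strong_induction_on with
    | _ m ih =>
      by_cases hm : m ≤ L
      · exact hinit m hm
      · have h1 := soundz_lead (ρ + 1) m z c F ih hode
        refine (mul_eq_zero.1 h1).resolve_left fun h2 => ?_
        have h3 : ∑ i ∈ Finset.range (ρ + 1), z i * (m : ℤ) ^ i = 0 := by exact_mod_cast h2
        obtain ⟨i, hi, hzi⟩ := h.ne
        exact hzi (soundz_int m (ρ + 1) z (by have := h.sum; omega) h3 i hi)
  rw [← hF]
  ext m
  rw [hall m, map_zero]

end Pool.Agent.Lib.MP_bbe012_lc.PP
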