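import Pool.Agent.Lib.MP_bbe012_lc.PP.CodeA
import Pool.Agent.Lib.MP_bbe012_lc.PP.SoundZ
import Pool.Agent.Lib.MP_bbe012_lc.PP.SoundN

/-!
# Soundness of the verification
-/

namespace Pool.Agent.Lib.MP_bbe012_lc.PP

open MvPolynomial MeasureTheory Set

private theorem CodeB_atZero_X (n : ℕ) : atZero n (X 0) = 0 := by
  rw [atZero, aeval_X]
  rfl

/-- `Q = 1 + X 0 * V` -/
private theorem CodeB_wn {n : ℕ} {Q V : P1 n} (h : Q = 1 + X 0 * V) {τ : ℚ} (hτ : |τ| ≤ 1) :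
    wn n Q τ ≤ |τ| * l1M V := by
  classical
  have hco : ∀ m : Fin (n + 1) →₀ ℕ, m 0 ≠ 0 →
      coeff m Q = coeff (m - Finsupp.single 0 1) V := by
    intro m hm
    have h1 : (0 : Fin (n + 1) →₀ ℕ) ≠ m := by
      rintro rfl
      exact hm rfl
    rw [h, coeff_add, coeff_one, if_neg h1, zero_add, coeff_X_mul', if_pos
      (Finsupp.mem_support_iff.2 hm)]
  unfold wn l1M
  have h2 : ∑ m ∈ Q.support with m 0 ≠ 0, |coeff m Q| * |τ| ^ m 0 ≤
      ∑ m ∈ Q.support with m 0 ≠ 0, |τ| * |coeff (m - Finsupp.single 0 1) V| := by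
    refine Finset.sum_le_sum fun m hm => ?_
    have hm0 := (Finset.mem_filter.1 hm).2
    rw [hco m hm0, mul_comm]
    refine mul_le_mul_of_nonneg_right ?_ (abs_nonneg _)
    exact pow_le_of_le_one (abs_nonneg _) hτ hm0
  refine h2.trans ?_
  rw [← Finset.mul_sum]
  refine mul_le_mul_of_nonneg_left ?_ (abs_nonneg _)
  have hinj : Set.InjOn (fun m : Fin (n + 1) →₀ ℕ => m - Finsupp.single 0 1)
      ((Q.support.filter fun m => m 0 ≠ 0 : Finset (Fin (n + 1) →₀ ℕ)) : Set _) := by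
    intro m hm m' hm' he
    have hm0 := (Finset.mem_filter.1 (Finset.mem_coe.1 hm)).2
    have hm0' := (Finset.mem_filter.1 (Finset.mem_coe.1 hm')).2
    have e1 : ∀ m : Fin (n + 1) →₀ ℕ, m 0 ≠ 0 → m - Finsupp.single 0 1 + Finsupp.single 0 1 = m :=
      fun m hm => tsub_add_cancel_of_le (Finsupp.single_le_iff.2 (Nat.one_le_iff_ne_zero.2 hm))
    rw [← e1 m hm0, ← e1 m' hm0']
    exact congrArg (fun p => p + Finsupp.single 0 1) he
  rw [← Finset.sum_image (f := fun m => |coeff m V|) hinj]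
  refine Finset.sum_le_sum_of_subset_of_nonneg ?_ fun _ _ _ => abs_nonneg _
  intro m' hm'
  obtain ⟨m, hm, rfl⟩ := Finset.mem_image.1 hm'
  have hm0 := (Finset.mem_filter.1 hm).2
  have hm1 := (Finset.mem_filter.1 hm).1
  rw [mem_support_iff] at hm1 ⊢
  rw [← hco m hm0]
  exact hm1

/-- all coordinates have absolute value at most `1` -/
private theorem CodeB_abs {n : ℕ} (p : P1 n) {τ : ℚ} (hτ : |τ| ≤ 1) {x : Fin n → ℝ}
    (hx : x ∈ Icc (0 : Fin n → ℝ) 1) : |aeval (pt n τ x) p| ≤ ((l1M p : ℚ) : ℝ) := by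
  rw [aeval_def, eval₂_eq']
  unfold l1M
  rw [Rat.cast_sum]
  refine (Finset.abs_sum_le_sum_abs _ _).trans (Finset.sum_le_sum fun d _ => ?_)
  rw [abs_mul, Rat.cast_abs, eq_ratCast]
  have h1 : |∏ i, pt n τ x i ^ d i| ≤ 1 := by
    rw [Finset.abs_prod]
    refine Finset.prod_le_one (fun i _ => abs_nonneg _) fun i _ => ?_
    rw [abs_pow]
    refine pow_le_one₀ (abs_nonneg _) ?_
    refine Fin.cases ?_ (fun l => ?_) i
    · have h2 : pt n τ x 0 = ((τ : ℚ) : ℝ) := rfl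
      rw [h2]
      exact_mod_cast hτ
    · have h2 : pt n τ x l.succ = x l := rfl
      rw [h2, abs_of_nonneg (hx.1 l)]
      exact hx.2 l
  have h2 := mul_le_mul_of_nonneg_left h1 (abs_nonneg ((coeff d p : ℚ) : ℝ))
  rw [mul_one] at h2
  exact h2

private theorem CodeB_foldr (R : ℕ) (F : ℕ → ℕ × ℕ) :
    (List.range R).foldr (fun i acc => (F i).1 + (F i).2 + acc) 0 =
      ∑ i ∈ Finset.range R, ((F i).1 + (F i).2) := by
  have h : ∀ L : List ℕ, L.foldr (fun i acc => (F i).1 + (F i).2 + acc) 0 =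
      (L.map fun i => (F i).1 + (F i).2).sum := by
    intro L
    induction L with
    | nil => rfl
    | cons a L ih => rw [List.foldr_cons, ih, List.map_cons, List.sum_cons]
  rw [h, ← List.sum_toFinset _ (List.nodup_range), List.toFinset_range]

private theorem CodeB_sC (n : ℕ) (Q G : PCode) (τ : QCode) (j : ℕ) (U : PCode) :
    pcPoly (n + 1) (sC Q G τ j U) = pcPoly (n + 1) G * pcPoly (n + 1) Q ^ j +
      (X 0 - C (qval τ)) * pcPoly (n + 1) U := by
  rw [sC, pcPoly_append, pcPoly_mul, pcPoly_pow, pcPoly_mul, pcPoly_append, pcPoly_neg, pcPoly_tC,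
    pcPoly_constC]
  ring

private theorem CodeB_base {n : ℕ} {Q V : PCode} {τ : QCode} (h : okBase n Q V τ) :
    pcPoly (n + 1) Q = 1 + X 0 * pcPoly (n + 1) V ∧ |qval τ| ≤ 1 ∧
      |qval τ| * qval (normC V) ≤ 1 / 2 := by
  obtain ⟨h1, h2, h3⟩ := h
  rw [pcIsZero_iff, pcPoly_append, pcPoly_neg, pcPoly_append, pcPoly_nat, pcPoly_mul,
    pcPoly_tC] at h1
  rw [qleP_iff, qval_qabs, qval_qnat] at h2
  rw [qleP_iff, qval_qmul, qval_qabs] at h3
  refine ⟨?_, ?_, ?_⟩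
  · have h4 : (C ((1 : ℕ) : ℚ) : P1 n) = 1 := by rw [Nat.cast_one, C_1]
    rw [h4] at h1
    linear_combination h1
  · rw [Nat.cast_one] at h2
    exact h2
  · refine h3.trans (le_of_eq ?_)
    simp only [qval]
    norm_num

/-- Proof. The first part says `Q = 1 + X 0 * V` (`pcIsZero_iff`), so `atZero n Q = 1`. For the norm:
the coefficient of `Q` at `m` with `m 0 ≠ 0` is the coefficient of `V` at `m - Finsupp.single 0 1`, and
`|τ| ^ m 0 ≤ |τ|` (`|τ| ≤ 1`, `m 0 ≥ 1`), so `wn n Q τ ≤ |τ| * l1M V ≤ |τ| * qval (normC V) ≤ 1 / 2`. -/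
theorem okBase_spec {n : ℕ} {Q V : PCode} {τ : QCode} (h : okBase n Q V τ) :
    atZero n (pcPoly (n + 1) Q) = 1 ∧ |qval τ| ≤ 1 ∧ wn n (pcPoly (n + 1) Q) (qval τ) ≤ 1 / 2 := by
  obtain ⟨h1, h2, h3⟩ := CodeB_base h
  refine ⟨?_, h2, ?_⟩
  · rw [h1, map_add, map_mul, map_one, CodeB_atZero_X, zero_mul, add_zero]
  · refine (CodeB_wn h1 h2).trans (le_trans ?_ h3)
    exact mul_le_mul_of_nonneg_left (l1M_le_normC (n + 1) V) (abs_nonneg _)

/-- Proof. `Phi_eq_zero` for `S = G * Q ^ j + (X 0 - C τ) * U` and `K + j` (the certificate `checkZ` is `IsZeroCert` with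
`z i = (u i : ℤ) - v i` and `c i = polyOf (c.getD i [])`, `pcIsZero_iff`, `pcPoly_sumRange` and `Finset.sum_range`), so
`Phi n Q S (K + j) = 0`, so `JJ n Q S (K + j) τ = 0` by `integral_eq_ev` (`ev τ 0 = 0`). At `t = τ` the value of `S` is
`G Q ^ j` and `Q ≠ 0` (`half_le`), so the integrands of `JJ n Q S (K + j) τ` and `JJ n Q G K τ` are equal on the cube
(`setIntegral_congr_fun`). -/
theorem checkZ_sound {n : ℕ} {Q V G : PCode} {K : ℕ} {τ : QCode} (h0 : okBase n Q V τ) {x : ZCert}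
    (h : checkZ n Q G K τ x) : JJ n (pcPoly (n + 1) Q) (pcPoly (n + 1) G) K (qval τ) = 0 := by
  obtain ⟨⟨⟨⟨κ, K'⟩, ρ, L⟩, j⟩, ⟨⟨z, c⟩, g, E⟩, H, U⟩ := x
  obtain ⟨hle, hz, hex, hin⟩ := h
  obtain ⟨hQ, hτ1, hτ⟩ := okBase_spec h0
  simp only at hle hz hex hin
  have hS := CodeB_sC n Q G τ j U
  obtain ⟨S, hSd⟩ : ∃ S, S = sC Q G τ j U := ⟨_, rfl⟩
  rw [← hSd] at hS hex hin
  have hcert : IsZeroCert n (pcPoly (n + 1) Q) (pcPoly (n + 1) S) (K + j) κ K' ρ L
      (fun i => ((z.getD i (0, 0)).1 : ℤ) - ((z.getD i (0, 0)).2 : ℤ))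
      (fun i => polyOf (c.getD i []))
      (fun l => pcPoly (n + 1) (g.getD l [])) (fun l => pcPoly (n + 1) (E.getD l []))
      (pcPoly (n + 1) H) := by
    refine ⟨hle, ?_, ?_, ?_, ?_⟩
    · obtain ⟨i, hi, hne⟩ := hz.1
      refine ⟨i, hi, fun h => hne ?_⟩
      exact_mod_cast sub_eq_zero.1 h
    · refine le_trans ?_ hz.2
      rw [CodeB_foldr (ρ + 1) fun i => z.getD i (0, 0)]
      refine Finset.sum_le_sum fun i _ => ?_
      omega
    · rw [pcIsZero_iff, exactC, pcPoly_append, pcPoly_neg, pcPoly_divfC, pcPoly_mul, pcPoly_pow,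
        pcPoly_tC, pcPoly_sumRange, ← sub_eq_add_neg, sub_eq_zero] at hex
      rw [← hex, Finset.sum_range]
      congr 1
      refine Finset.sum_congr rfl fun i _ => ?_
      rw [pcPoly_mul, pcPoly_mul, pcPoly_append, pcPoly_constC, pcPoly_mul, pcPoly_tC,
        pcPoly_trunc_inT, pcPoly_thetaC, pcPoly_pow]
      have h1 : qval (z.getD i (0, 0), 0) =
          ((((z.getD i (0, 0)).1 : ℤ) - ((z.getD i (0, 0)).2 : ℤ) : ℤ) : ℚ) := by
        unfold qval
        push_cast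
        rw [zero_add, div_one]
      rw [h1]
    · rw [pcIsZero_iff, initC, pcPoly_append, pcPoly_neg, pcPoly_append, pcPoly_mul, pcPoly_pow,
        pcPoly_divEC, pcPoly_mul, pcPoly_pow, pcPoly_tC, ← sub_eq_add_neg, sub_eq_zero] at hin
      exact hin
  have hPhi := Phi_eq_zero hQ hcert
  have hJ : JJ n (pcPoly (n + 1) Q) (pcPoly (n + 1) S) (K + j) (qval τ) = 0 := by
    unfold JJ
    rw [integral_eq_ev hQ hτ, hPhi]
    unfold ev
    simp
  rw [← hJ]
  unfold JJ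
  refine setIntegral_congr_fun measurableSet_Icc fun x hx => ?_
  have hpos : 0 < aeval (pt n (qval τ) x) (pcPoly (n + 1) Q) :=
    lt_of_lt_of_le (by norm_num) (half_le hQ hτ hx)
  have h4 : pt n (qval τ) x 0 = ((qval τ : ℚ) : ℝ) := rfl
  have h5 : (algebraMap ℚ ℝ) (qval τ) = ((qval τ : ℚ) : ℝ) := rfl
  have h6 : aeval (pt n (qval τ) x) (pcPoly (n + 1) S) =
      aeval (pt n (qval τ) x) (pcPoly (n + 1) G) * aeval (pt n (qval τ) x) (pcPoly (n + 1) Q) ^ j := by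
    rw [hS, map_add, map_mul, map_mul, map_pow, map_sub, aeval_C, aeval_X, h4, h5, sub_self,
      zero_mul, add_zero]
  show aeval (pt n (qval τ) x) (pcPoly (n + 1) G) / aeval (pt n (qval τ) x) (pcPoly (n + 1) Q) ^ K =
    aeval (pt n (qval τ) x) (pcPoly (n + 1) S) / aeval (pt n (qval τ) x) (pcPoly (n + 1) Q) ^ (K + j)
  rw [h6, pow_add, mul_div_mul_right _ _ (pow_pos hpos j).ne']

/-- Proof. `JJ_ne_zero` with `s = qval (normC R)`: `small` is `|aeval (pt n τ x) R| ≤ l1M R` for `x` in the cube and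
`|τ| ≤ 1` (same proof as `abs_aeval_le`: all coordinates have absolute value at most `1`), `l1M_le_normC`. -/
theorem checkN_sound {n : ℕ} {Q V G : PCode} {K : ℕ} {τ : QCode} (h0 : okBase n Q V τ) {x : NCert}
    (h : checkN n Q G K τ x) : JJ n (pcPoly (n + 1) Q) (pcPoly (n + 1) G) K (qval τ) ≠ 0 := by
  obtain ⟨⟨a, E⟩, R, U⟩ := x
  obtain ⟨heq, hlt⟩ := h
  obtain ⟨hQ, hτ1, hτ⟩ := okBase_spec h0
  simp only at heq hlt
  rw [pcIsZero_iff, pcPoly_append, pcPoly_neg, pcPoly_append, pcPoly_append, pcPoly_mul,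
    pcPoly_pow, pcPoly_append, pcPoly_constC, pcPoly_divEC, pcPoly_mul, pcPoly_append, pcPoly_neg,
    pcPoly_tC, pcPoly_constC] at heq
  rw [qltP_iff, qval_qmul, qval_qnat, qval_qabs] at hlt
  have hcert : IsNeCert n (pcPoly (n + 1) Q) (pcPoly (n + 1) G) K (qval τ) (qval a)
      (qval (normC R)) (fun l => pcPoly (n + 1) (E.getD l [])) (pcPoly (n + 1) R)
      (pcPoly (n + 1) U) := by
    refine ⟨?_, ?_, ?_⟩
    · linear_combination heq
    · intro x hx
      refine (CodeB_abs _ hτ1 hx).trans ?_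
      exact_mod_cast l1M_le_normC (n + 1) R
    · rw [Nat.cast_pow, Nat.cast_ofNat] at hlt
      exact hlt
  exact JJ_ne_zero hQ hτ hcert

/-- The verification is sound. -/
theorem checkC_sound {x : Core} {c : CCert} (h : checkC x c) :
    (c.1.2 = true ↔ JJ x.1.1 (pcPoly (x.1.1 + 1) x.2.1.1) (pcPoly (x.1.1 + 1) x.2.1.2) x.1.2 (qval x.2.2) = 0) := by
  obtain ⟨h0, h1 | h1⟩ := h
  · exact ⟨fun _ => checkZ_sound h0 h1.2, fun _ => h1.1⟩
  · constructor
    · intro h2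
      rw [h1.1] at h2
      exact absurd h2 Bool.false_ne_true
    · intro h2
      exact absurd h2 (checkN_sound h0 h1.2)

end Pool.Agent.Lib.MP_bbe012_lc.PP
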