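import Pool.Agent.Lib.MP_bbe012_lc.PP.PhiL

/-!
# Growth and denominators of the expansions
-/

namespace Pool.Agent.Lib.MP_bbe012_lc.PP

open MvPolynomial

/-- Power series in `t` with polynomial coefficients of controlled degrees, denominators and sizes. -/
structure Tame (n A : ℕ) (f : PowerSeries (MvPolynomial (Fin n) ℚ)) : Prop where
  one_le : 1 ≤ A
  deg : ∀ k i, (PowerSeries.coeff k f).degreeOf i ≤ A * (k + 1)
  den : ∀ k m, ∃ z : ℤ, (A : ℚ) ^ (k + 1) * coeff m (PowerSeries.coeff k f) = z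
  l1 : ∀ k, l1M (PowerSeries.coeff k f) ≤ (A : ℚ) ^ (k + 1)

/-- `l1M` over a larger set. -/
theorem Tame_l1M_eq {n : ℕ} (p : MvPolynomial (Fin n) ℚ) (s : Finset (Fin n →₀ ℕ))
    (h : p.support ⊆ s) : l1M p = ∑ m ∈ s, |coeff m p| := by
  rw [l1M]
  refine Finset.sum_subset h fun m _ hm => ?_
  rw [notMem_support_iff.1 hm, abs_zero]

theorem Tame_l1M_zero {n : ℕ} : l1M (0 : MvPolynomial (Fin n) ℚ) = 0 := by
  rw [l1M, support_zero, Finset.sum_empty]

theorem Tame_l1M_nonneg {n : ℕ} (p : MvPolynomial (Fin n) ℚ) : 0 ≤ l1M p :=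
  Finset.sum_nonneg fun _ _ => abs_nonneg _

theorem Tame_l1M_monomial {n : ℕ} (m : Fin n →₀ ℕ) (a : ℚ) : l1M (monomial m a) ≤ |a| := by
  classical
  rw [Tame_l1M_eq (monomial m a) {m} support_monomial_subset, Finset.sum_singleton, coeff_monomial,
    if_pos rfl]

theorem Tame_l1M_neg {n : ℕ} (p : MvPolynomial (Fin n) ℚ) : l1M (-p) = l1M p := by
  rw [l1M, l1M, support_neg]
  refine Finset.sum_congr rfl fun m _ => ?_
  rw [coeff_neg, abs_neg]

/-- Proof: `support_add`, triangle inequality. -/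
theorem l1M_add_le {n : ℕ} (p q : MvPolynomial (Fin n) ℚ) : l1M (p + q) ≤ l1M p + l1M q := by
  classical
  rw [Tame_l1M_eq (p + q) (p.support ∪ q.support) support_add,
    Tame_l1M_eq p (p.support ∪ q.support) Finset.subset_union_left,
    Tame_l1M_eq q (p.support ∪ q.support) Finset.subset_union_right, ← Finset.sum_add_distrib]
  refine Finset.sum_le_sum fun m _ => ?_
  rw [coeff_add]
  exact abs_add_le _ _

theorem Tame_l1M_sum {n : ℕ} {ι : Type*} (s : Finset ι) (p : ι → MvPolynomial (Fin n) ℚ) :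
    l1M (∑ i ∈ s, p i) ≤ ∑ i ∈ s, l1M (p i) := by
  classical
  induction s using Finset.induction_on with
  | empty => rw [Finset.sum_empty, Finset.sum_empty, Tame_l1M_zero]
  | insert a s ha ih =>
    rw [Finset.sum_insert ha, Finset.sum_insert ha]
    exact (l1M_add_le _ _).trans (by gcongr)

/-- Proof: `coeff_mul`, triangle inequality; or `p * q = ∑ ∑ monomial (a + b) (..)` and `l1M` of a monomial. -/
theorem l1M_mul_le {n : ℕ} (p q : MvPolynomial (Fin n) ℚ) : l1M (p * q) ≤ l1M p * l1M q := by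
  have h1 : p * q = ∑ a ∈ p.support, ∑ b ∈ q.support, monomial (a + b) (coeff a p * coeff b q) := by
    conv_lhs => rw [p.as_sum, q.as_sum]
    rw [Finset.sum_mul_sum]
    refine Finset.sum_congr rfl fun a _ => Finset.sum_congr rfl fun b _ => ?_
    rw [monomial_mul]
  rw [h1]
  refine (Tame_l1M_sum _ _).trans ?_
  rw [l1M, l1M, Finset.sum_mul_sum]
  refine Finset.sum_le_sum fun a _ => (Tame_l1M_sum _ _).trans (Finset.sum_le_sum fun b _ => ?_)
  rw [← abs_mul]
  exact Tame_l1M_monomial _ _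

theorem l1M_sum_le {n : ℕ} {ι : Type} (s : Finset ι) (p : ι → MvPolynomial (Fin n) ℚ) :
    l1M (∑ i ∈ s, p i) ≤ ∑ i ∈ s, l1M (p i) := by
  exact Tame_l1M_sum s p

/-- The ring of integers in `ℚ`, as a subring. -/
theorem Tame_int {x : ℚ} : (∃ z : ℤ, x = z) ↔ x ∈ (Int.castRingHom ℚ).range := by
  constructor
  · rintro ⟨z, hz⟩
    exact ⟨z, hz.symm⟩
  · rintro ⟨z, hz⟩
    exact ⟨z, hz.symm⟩

/-- Multiples of the constant. -/
theorem Tame.mono {n A B : ℕ} {f : PowerSeries (MvPolynomial (Fin n) ℚ)} (h : Tame n A f)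
    (hB : 1 ≤ B) : Tame n (A * B) f := by
  have hB' : (1 : ℚ) ≤ B := by exact_mod_cast hB
  have hA' : (1 : ℚ) ≤ A := by exact_mod_cast h.one_le
  refine ⟨Nat.mul_pos h.one_le hB, fun k i => ?_, fun k m => ?_, fun k => ?_⟩
  · refine (h.deg k i).trans ?_
    refine Nat.mul_le_mul_right _ ?_
    exact Nat.le_mul_of_pos_right A hB
  · obtain ⟨z, hz⟩ := h.den k m
    refine ⟨(B : ℤ) ^ (k + 1) * z, ?_⟩
    push_cast
    rw [← hz, mul_pow]
    ring
  · refine (h.l1 k).trans ?_
    push_cast
    refine pow_le_pow_left₀ (by linarith) ?_ _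
    nlinarith

theorem Tame.add {n A B : ℕ} {f g : PowerSeries (MvPolynomial (Fin n) ℚ)} (hf : Tame n A f)
    (hg : Tame n B g) : Tame n (2 * A * B) (f + g) := by
  have hA' : (1 : ℚ) ≤ A := by exact_mod_cast hf.one_le
  have hB' : (1 : ℚ) ≤ B := by exact_mod_cast hg.one_le
  have h2 : (1 : ℕ) ≤ 2 := by norm_num
  have hf2 : Tame n (A * B) f := hf.mono hg.one_le
  have hg2 : Tame n (A * B) g := by
    rw [mul_comm]
    exact hg.mono hf.one_le
  refine ⟨?_, fun k i => ?_, fun k m => ?_, fun k => ?_⟩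
  · have := Nat.mul_pos hf.one_le hg.one_le
    rw [mul_assoc]
    omega
  · rw [map_add]
    refine (degreeOf_add_le _ _ _).trans (max_le ((hf2.deg k i).trans ?_) ((hg2.deg k i).trans ?_)) <;>
    · refine Nat.mul_le_mul_right _ ?_
      rw [mul_assoc]
      omega
  · rw [map_add, coeff_add, mul_add]
    obtain ⟨z, hz⟩ := (hf2.mono h2).den k m
    obtain ⟨w, hw⟩ := (hg2.mono h2).den k m
    refine ⟨z + w, ?_⟩
    have e : ((2 * A * B : ℕ) : ℚ) = ((A * B * 2 : ℕ) : ℚ) := by
      push_cast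
      ring
    rw [e, hz, hw]
    push_cast
    ring
  · rw [map_add]
    refine (l1M_add_le _ _).trans ((add_le_add (hf2.l1 k) (hg2.l1 k)).trans ?_)
    have e : ((2 * A * B : ℕ) : ℚ) = 2 * ((A * B : ℕ) : ℚ) := by
      push_cast
      ring
    rw [e, mul_pow, ← two_mul]
    refine mul_le_mul_of_nonneg_right ?_ (by positivity)
    calc (2 : ℚ) = 2 ^ 1 := (pow_one _).symm
      _ ≤ 2 ^ (k + 1) := pow_le_pow_right₀ (by norm_num) (by omega)

/-- Proof: `PowerSeries.coeff_mul`; each product `f_a g_b`, `a + b = k`, has degrees at most `A (a + 1) + B (b + 1)`,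
is integral after multiplication with `A ^ (a + 1) * B ^ (b + 1)`, and `(k + 1) (A B) ^ (k + 1) ≤ (2 A B) ^ (k + 1)`. -/
theorem Tame.mul {n A B : ℕ} {f g : PowerSeries (MvPolynomial (Fin n) ℚ)} (hf : Tame n A f)
    (hg : Tame n B g) : Tame n (2 * A * B) (f * g) := by
  have hA' : (1 : ℚ) ≤ A := by exact_mod_cast hf.one_le
  have hB' : (1 : ℚ) ≤ B := by exact_mod_cast hg.one_le
  have hA1 := hf.one_le
  have hB1 := hg.one_le
  refine ⟨?_, fun k i => ?_, fun k m => ?_, fun k => ?_⟩
  · have := Nat.mul_pos hf.one_le hg.one_le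
    rw [mul_assoc]
    omega
  · rw [PowerSeries.coeff_mul]
    refine (degreeOf_sum_le _ _ _).trans (Finset.sup_le fun x hx => ?_)
    have hx' := Finset.HasAntidiagonal.mem_antidiagonal.1 hx
    refine (degreeOf_mul_le _ _ _).trans ((add_le_add (hf.deg x.1 i) (hg.deg x.2 i)).trans ?_)
    have h1 : A * (x.1 + 1) ≤ A * B * (k + 1) := by
      refine Nat.mul_le_mul (Nat.le_mul_of_pos_right A hB1) (by omega)
    have h2 : B * (x.2 + 1) ≤ A * B * (k + 1) := by
      refine Nat.mul_le_mul (Nat.le_mul_of_pos_left B hA1) (by omega)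
    have h3 : 2 * A * B * (k + 1) = A * B * (k + 1) + A * B * (k + 1) := by ring
    omega
  · rw [Tame_int, PowerSeries.coeff_mul, coeff_sum, Finset.mul_sum]
    refine Subring.sum_mem _ fun x hx => ?_
    have hx' := Finset.HasAntidiagonal.mem_antidiagonal.1 hx
    rw [coeff_mul, Finset.mul_sum]
    refine Subring.sum_mem _ fun y _ => ?_
    obtain ⟨z, hz⟩ := hf.den x.1 y.1
    obtain ⟨w, hw⟩ := hg.den x.2 y.2
    rw [← Tame_int]
    refine ⟨2 ^ (k + 1) * (A : ℤ) ^ x.2 * (B : ℤ) ^ x.1 * z * w, ?_⟩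
    push_cast
    rw [← hz, ← hw, mul_pow, mul_pow]
    have e1 : (A : ℚ) ^ (k + 1) = (A : ℚ) ^ x.2 * (A : ℚ) ^ (x.1 + 1) := by
      rw [← pow_add]
      congr 1
      omega
    have e2 : (B : ℚ) ^ (k + 1) = (B : ℚ) ^ x.1 * (B : ℚ) ^ (x.2 + 1) := by
      rw [← pow_add]
      congr 1
      omega
    rw [e1, e2]
    ring
  · rw [PowerSeries.coeff_mul]
    refine (Tame_l1M_sum _ _).trans ?_
    have h1 : ∀ x ∈ Finset.HasAntidiagonal.antidiagonal k,
        l1M (PowerSeries.coeff x.1 f * PowerSeries.coeff x.2 g) ≤ ((A : ℚ) * B) ^ (k + 1) := by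
      intro x hx
      have hx' := Finset.HasAntidiagonal.mem_antidiagonal.1 hx
      refine (l1M_mul_le _ _).trans ?_
      rw [mul_pow]
      refine mul_le_mul ((hf.l1 x.1).trans (pow_le_pow_right₀ hA' (by omega)))
        ((hg.l1 x.2).trans (pow_le_pow_right₀ hB' (by omega))) (Tame_l1M_nonneg _) (by positivity)
    refine (Finset.sum_le_sum h1).trans ?_
    rw [Finset.sum_const, Finset.Nat.card_antidiagonal, nsmul_eq_mul]
    have e : ((2 * A * B : ℕ) : ℚ) ^ (k + 1) = 2 ^ (k + 1) * ((A : ℚ) * B) ^ (k + 1) := by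
      push_cast
      rw [mul_assoc, mul_pow]
    rw [e]
    refine mul_le_mul_of_nonneg_right ?_ (by positivity)
    have h2 : k + 1 ≤ 2 ^ (k + 1) := Nat.lt_two_pow_self.le
    exact_mod_cast h2

theorem Tame_C {n : ℕ} (a : ℚ) :
    Tame n (a.den * (a.num.natAbs + 1))
      (PowerSeries.C (C a) : PowerSeries (MvPolynomial (Fin n) ℚ)) := by
  classical
  have hd : 1 ≤ a.den := a.den_pos
  have hA : 1 ≤ a.den * (a.num.natAbs + 1) := Nat.mul_pos a.den_pos (by omega)
  have hA' : (1 : ℚ) ≤ ((a.den * (a.num.natAbs + 1) : ℕ) : ℚ) := by exact_mod_cast hA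
  refine ⟨hA, fun k i => ?_, fun k m => ?_, fun k => ?_⟩
  · rw [PowerSeries.coeff_C]
    split_ifs
    · rw [degreeOf_C]
      exact Nat.zero_le _
    · rw [degreeOf_zero]
      exact Nat.zero_le _
  · rw [PowerSeries.coeff_C]
    split_ifs with hk
    · subst hk
      rw [coeff_C]
      split_ifs
      · refine ⟨((a.num.natAbs + 1 : ℕ) : ℤ) * a.num, ?_⟩
        have h1 : (a.den : ℚ) * a = a.num := by
          rw [mul_comm]
          exact Rat.mul_den_eq_num a
        rw [Int.cast_mul, Int.cast_natCast, zero_add, pow_one, Nat.cast_mul]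
        linear_combination (((a.num.natAbs + 1 : ℕ) : ℚ)) * h1
      · exact ⟨0, by simp⟩
    · exact ⟨0, by simp⟩
  · rw [PowerSeries.coeff_C]
    split_ifs with hk
    · subst hk
      rw [zero_add, pow_one]
      have h0 : l1M (C a : MvPolynomial (Fin n) ℚ) ≤ |a| := by
        rw [C_apply]
        exact Tame_l1M_monomial _ _
      refine h0.trans ?_
      have h1 : |a| ≤ (a.num.natAbs : ℚ) := by
        have h2 : |a| = |(a.num : ℚ)| / a.den := by
          conv_lhs => rw [← Rat.num_div_den a]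
          rw [abs_div, Nat.abs_cast]
        rw [h2, Nat.cast_natAbs, Int.cast_abs]
        exact div_le_self (abs_nonneg _) (by exact_mod_cast hd)
      push_cast
      have hd' : (1 : ℚ) ≤ a.den := by exact_mod_cast hd
      have h3 : (0 : ℚ) ≤ (a.num.natAbs : ℚ) := Nat.cast_nonneg _
      nlinarith
    · rw [Tame_l1M_zero]
      positivity

theorem Tame_X {n : ℕ} (i : Fin (n + 1)) : Tame n 1 (ser n (X i)) := by
  classical
  refine Fin.cases ?_ (fun l => ?_) i
  · rw [ser_X_zero]
    refine ⟨le_rfl, fun k i => ?_, fun k m => ?_, fun k => ?_⟩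
    · rw [PowerSeries.coeff_X]
      split_ifs
      · rw [← C_1, degreeOf_C]
        exact Nat.zero_le _
      · rw [degreeOf_zero]
        exact Nat.zero_le _
    · rw [PowerSeries.coeff_X]
      split_ifs
      · rw [coeff_one]
        split_ifs
        · exact ⟨1, by simp⟩
        · exact ⟨0, by simp⟩
      · exact ⟨0, by simp⟩
    · rw [PowerSeries.coeff_X, Nat.cast_one, one_pow]
      split_ifs
      · have h0 : l1M (C 1 : MvPolynomial (Fin n) ℚ) ≤ |1| := by
          rw [C_apply]
          exact Tame_l1M_monomial _ _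
        rw [C_1, abs_one] at h0
        exact h0
      · rw [Tame_l1M_zero]
        exact zero_le_one
  · rw [ser_X_succ]
    refine ⟨le_rfl, fun k i => ?_, fun k m => ?_, fun k => ?_⟩
    · rw [PowerSeries.coeff_C]
      split_ifs
      · rw [degreeOf_X]
        split_ifs
        · omega
        · omega
      · rw [degreeOf_zero]
        exact Nat.zero_le _
    · rw [PowerSeries.coeff_C]
      split_ifs
      · rw [coeff_X]
        split_ifs
        · exact ⟨1, by simp⟩
        · exact ⟨0, by simp⟩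
      · exact ⟨0, by simp⟩
    · rw [PowerSeries.coeff_C, Nat.cast_one, one_pow]
      split_ifs
      · have h0 : l1M (X l : MvPolynomial (Fin n) ℚ) ≤ |1| := by
          rw [X]
          exact Tame_l1M_monomial _ _
        rw [abs_one] at h0
        exact h0
      · rw [Tame_l1M_zero]
        exact zero_le_one

/-- Proof: induction on `G` (`MvPolynomial.induction_on`): constants (`A = a.den * (a.num.natAbs + 1)`), sums and
products with variables (`Tame.add`, `Tame.mul`). -/
theorem exists_tame_ser (n : ℕ) (G : P1 n) : ∃ A, Tame n A (ser n G) := by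
  induction G using MvPolynomial.induction_on with
  | C a =>
    rw [ser_C]
    exact ⟨_, Tame_C a⟩
  | add p q hp hq =>
    obtain ⟨A, hA⟩ := hp
    obtain ⟨B, hB⟩ := hq
    rw [map_add]
    exact ⟨_, hA.add hB⟩
  | mul_X p i hp =>
    obtain ⟨A, hA⟩ := hp
    rw [map_mul]
    exact ⟨_, hA.mul (Tame_X i)⟩

/-- The inverse of a tame series with constant coefficient `1` is tame.

Proof. Let `h_k` be the coefficients of `sinv n Q`, `u_j` those of `ser n Q`, `u_0 = 1`, so
`h_0 = 1` and `h_k = - ∑_{j=1}^k u_j h_{k-j}` (`ser_mul_sinv`, `PowerSeries.coeff_mul`). By strong induction: degrees of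
`h_k` at most `2 A k` (since `A (j + 1) ≤ 2 A j` for `j ≥ 1`), `(A ^ 2) ^ k h_k` is integral (`A ^ (2 j) u_j` is integral
for `j ≥ 1`), `l1M h_k ≤ (2 A ^ 2) ^ k` (`∑_{j=1}^k A ^ (2 j) (2 A ^ 2) ^ (k - j) ≤ (2 A ^ 2) ^ k`). So `Tame n (2 * A ^ 2)`. -/
theorem tame_sinv {n A : ℕ} {Q : P1 n} (hQ : atZero n Q = 1) (h : Tame n A (ser n Q)) :
    Tame n (2 * A ^ 2) (sinv n Q) := by
  classical
  have hA' : (1 : ℚ) ≤ A := by exact_mod_cast h.one_le
  have hA1 := h.one_le
  have h0 : PowerSeries.coeff 0 (ser n Q) = 1 := by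
    rw [PowerSeries.coeff_zero_eq_constantCoeff_apply, constantCoeff_ser, hQ]
  have hs0 : PowerSeries.coeff 0 (sinv n Q) = 1 := by
    have h1 := congrArg (PowerSeries.coeff 0) (ser_mul_sinv hQ)
    rw [PowerSeries.coeff_mul, Finset.HasAntidiagonal.antidiagonal_zero, Finset.sum_singleton, h0, one_mul,
      PowerSeries.coeff_one, if_pos rfl] at h1
    exact h1
  have hrec : ∀ K, PowerSeries.coeff (K + 1) (sinv n Q) = - ∑ x ∈ Finset.HasAntidiagonal.antidiagonal K,
      PowerSeries.coeff (x.1 + 1) (ser n Q) * PowerSeries.coeff x.2 (sinv n Q) := by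
    intro K
    have h1 := congrArg (PowerSeries.coeff (K + 1)) (ser_mul_sinv hQ)
    rw [PowerSeries.coeff_mul, Finset.Nat.sum_antidiagonal_succ, h0, one_mul, PowerSeries.coeff_one,
      if_neg (Nat.succ_ne_zero K)] at h1
    linear_combination h1
  have key : ∀ k, (∀ i, (PowerSeries.coeff k (sinv n Q)).degreeOf i ≤ 2 * A * k) ∧
      (∀ m, ((A : ℚ) ^ 2) ^ k * coeff m (PowerSeries.coeff k (sinv n Q)) ∈
        (Int.castRingHom ℚ).range) ∧
      l1M (PowerSeries.coeff k (sinv n Q)) ≤ (2 * (A : ℚ) ^ 2) ^ k := by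
    intro k
    induction k using Nat.strong_induction_on with
    | _ k ih =>
      rcases k with _ | K
      · rw [hs0]
        refine ⟨fun i => ?_, fun m => ?_, ?_⟩
        · rw [← C_1, degreeOf_C]
          exact Nat.zero_le _
        · rw [pow_zero, one_mul, coeff_one]
          split_ifs
          · exact Subring.one_mem _
          · exact Subring.zero_mem _
        · rw [pow_zero]
          have h0 : l1M (C 1 : MvPolynomial (Fin n) ℚ) ≤ |1| := by
            rw [C_apply]
            exact Tame_l1M_monomial _ _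
          rw [C_1, abs_one] at h0
          exact h0
      · rw [hrec K]
        refine ⟨fun i => ?_, fun m => ?_, ?_⟩
        · rw [degreeOf_neg]
          refine (degreeOf_sum_le _ _ _).trans (Finset.sup_le fun x hx => ?_)
          have hx' := Finset.HasAntidiagonal.mem_antidiagonal.1 hx
          refine (degreeOf_mul_le _ _ _).trans
            ((add_le_add (h.deg (x.1 + 1) i) ((ih x.2 (by omega)).1 i)).trans ?_)
          have h1 : A * (x.1 + 1 + 1) ≤ A * (2 * (x.1 + 1)) := Nat.mul_le_mul_left _ (by omega)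
          have h2 : 2 * A * (K + 1) = A * (2 * (x.1 + 1)) + 2 * A * x.2 := by
            rw [← hx']
            ring
          omega
        · rw [coeff_neg, mul_neg]
          refine Subring.neg_mem _ ?_
          rw [coeff_sum, Finset.mul_sum]
          refine Subring.sum_mem _ fun x hx => ?_
          have hx' := Finset.HasAntidiagonal.mem_antidiagonal.1 hx
          rw [coeff_mul, Finset.mul_sum]
          refine Subring.sum_mem _ fun y _ => ?_
          have h1 : (A : ℚ) ^ (x.1 + 1 + 1) * coeff y.1 (PowerSeries.coeff (x.1 + 1) (ser n Q)) ∈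
              (Int.castRingHom ℚ).range := Tame_int.1 (h.den (x.1 + 1) y.1)
          have h2 := (ih x.2 (by omega)).2.1 y.2
          have h3 : (A : ℚ) ^ x.1 ∈ (Int.castRingHom ℚ).range :=
            Subring.pow_mem _ (natCast_mem _ A) _
          have h4 := Subring.mul_mem _ h3 (Subring.mul_mem _ h1 h2)
          have e : ((A : ℚ) ^ 2) ^ (K + 1) * (coeff y.1 (PowerSeries.coeff (x.1 + 1) (ser n Q)) *
              coeff y.2 (PowerSeries.coeff x.2 (sinv n Q))) =
              (A : ℚ) ^ x.1 * ((A : ℚ) ^ (x.1 + 1 + 1) *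
                coeff y.1 (PowerSeries.coeff (x.1 + 1) (ser n Q)) *
                (((A : ℚ) ^ 2) ^ x.2 * coeff y.2 (PowerSeries.coeff x.2 (sinv n Q)))) := by
            rw [← hx']
            ring
          rw [e]
          exact h4
        · rw [Tame_l1M_neg]
          refine (Tame_l1M_sum _ _).trans ?_
          have h1 : ∀ x ∈ Finset.HasAntidiagonal.antidiagonal K,
              l1M (PowerSeries.coeff (x.1 + 1) (ser n Q) * PowerSeries.coeff x.2 (sinv n Q)) ≤
                ((A : ℚ) ^ 2) ^ (K + 1) * 2 ^ x.2 := by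
            intro x hx
            have hx' := Finset.HasAntidiagonal.mem_antidiagonal.1 hx
            refine (l1M_mul_le _ _).trans ?_
            have h2 : l1M (PowerSeries.coeff (x.1 + 1) (ser n Q)) ≤ ((A : ℚ) ^ 2) ^ (x.1 + 1) := by
              refine (h.l1 (x.1 + 1)).trans ?_
              rw [← pow_mul]
              exact pow_le_pow_right₀ hA' (by omega)
            have h3 := (ih x.2 (by omega)).2.2
            refine (mul_le_mul h2 h3 (Tame_l1M_nonneg _) (by positivity)).trans (le_of_eq ?_)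
            rw [← hx']
            ring
          refine (Finset.sum_le_sum h1).trans ?_
          rw [← Finset.mul_sum, mul_pow, mul_comm (2 ^ (K + 1) : ℚ)]
          refine mul_le_mul_of_nonneg_left ?_ (by positivity)
          have h4 : ∑ x ∈ Finset.HasAntidiagonal.antidiagonal K, (2 : ℚ) ^ x.2 =
              ∑ i ∈ Finset.range (K + 1), (2 : ℚ) ^ i := by
            rw [← Finset.Nat.sum_antidiagonal_swap]
            exact Finset.Nat.sum_antidiagonal_eq_sum_range_succ_mk (fun x => (2 : ℚ) ^ x.1) K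
          rw [h4, geom_sum_eq (by norm_num)]
          norm_num
  refine ⟨?_, fun k i => ?_, fun k m => ?_, fun k => ?_⟩
  · have := Nat.pow_pos (n := 2) hA1
    omega
  · refine ((key k).1 i).trans ?_
    have h1 : A ≤ A ^ 2 := Nat.le_self_pow (by norm_num) A
    calc 2 * A * k ≤ 2 * A ^ 2 * k := Nat.mul_le_mul_right _ (Nat.mul_le_mul_left _ h1)
      _ ≤ 2 * A ^ 2 * (k + 1) := Nat.mul_le_mul_left _ (by omega)
  · rw [Tame_int]
    have h1 := (key k).2.1 m
    have h2 : (2 : ℚ) ^ (k + 1) * (A : ℚ) ^ 2 ∈ (Int.castRingHom ℚ).range :=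
      Subring.mul_mem _ (Subring.pow_mem _ (by
        have h5 := natCast_mem (Int.castRingHom ℚ).range 2
        exact_mod_cast h5) _)
        (Subring.pow_mem _ (natCast_mem _ A) _)
    have e : ((2 * A ^ 2 : ℕ) : ℚ) ^ (k + 1) * coeff m (PowerSeries.coeff k (sinv n Q)) =
        (2 : ℚ) ^ (k + 1) * (A : ℚ) ^ 2 *
          (((A : ℚ) ^ 2) ^ k * coeff m (PowerSeries.coeff k (sinv n Q))) := by
      push_cast
      ring
    rw [e]
    exact Subring.mul_mem _ h2 h1
  · refine ((key k).2.2).trans ?_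
    push_cast
    refine pow_le_pow_right₀ ?_ (by omega)
    nlinarith

/-- The expansions of perturbative integrals are G-functions, with common constants for a finite family.

Proof. By `exists_tame_ser`, `tame_sinv`, `Tame.mul` (powers by induction, `1` is tame with constant `1`) each
`ser (A i) * sinv Q ^ κ i` is tame; by `Tame.mono` with a common constant `A` (product of the constants). Take `c` from
`lcmUpto_le` and `d K = A ^ (K + 1) * lcmUpto (A * (K + 1) + 1) ^ n`; `abs_Lam_le`, `den_Lam` (for `k ≤ K` the numbers for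
`k` divide those for `K`: `lcmUpto` is monotone for divisibility, `Finset.lcm_dvd_lcm`...), and
`d K ≤ A ^ (K + 1) * c ^ ((A * (K + 1) + 1) * n) ≤ C ^ (K + 1)` with `C = A * c ^ ((A + 1) * n)`. -/
theorem exists_GData {n m : ℕ} {Q : P1 n} (hQ : atZero n Q = 1) (A : Fin m → P1 n) (κ : Fin m → ℕ) :
    ∃ C d, GData (fun i => Phi n Q (A i) (κ i)) C d := by
  classical
  have hex : ∀ i, ∃ B, Tame n B (ser n (A i) * sinv n Q ^ κ i) := by
    intro i
    obtain ⟨B1, h1⟩ := exists_tame_ser n (A i)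
    obtain ⟨B0, h0⟩ := exists_tame_ser n Q
    have h2 := tame_sinv hQ h0
    have h3 : ∀ k, ∃ B, Tame n B (sinv n Q ^ k) := by
      intro k
      induction k with
      | zero =>
        rw [pow_zero, ← (PowerSeries.C (R := MvPolynomial (Fin n) ℚ)).map_one, ← C_1]
        exact ⟨_, Tame_C 1⟩
      | succ k ih =>
        obtain ⟨B, hB⟩ := ih
        rw [pow_succ]
        exact ⟨_, hB.mul h2⟩
    obtain ⟨B2, h4⟩ := h3 (κ i)
    exact ⟨_, h1.mul h4⟩
  choose B hB using hex
  set D : ℕ := ∏ i, B i with hD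
  have hD1 : 1 ≤ D := Nat.one_le_iff_ne_zero.2 (Finset.prod_ne_zero_iff.2 fun i _ => by
    have := (hB i).one_le
    omega)
  have hT : ∀ i, Tame n D (ser n (A i) * sinv n Q ^ κ i) := by
    intro i
    have e : D = B i * ∏ j ∈ Finset.univ.erase i, B j := by
      rw [hD, Finset.mul_prod_erase _ _ (Finset.mem_univ i)]
    rw [e]
    refine (hB i).mono ?_
    exact Nat.one_le_iff_ne_zero.2 (Finset.prod_ne_zero_iff.2 fun j _ => by
      have := (hB j).one_le
      omega)
  obtain ⟨c, hc1, hc⟩ := lcmUpto_le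
  have hco : ∀ i k, PowerSeries.coeff k (Phi n Q (A i) (κ i)) =
      Lam n (PowerSeries.coeff k (ser n (A i) * sinv n Q ^ κ i)) := fun i k => coeff_LamS _ _ _
  have hdv : ∀ {a b : ℕ}, a ≤ b → Nat.lcmUpto a ∣ Nat.lcmUpto b := by
    intro a b hab
    exact Finset.lcm_mono (Finset.Icc_subset_Icc_right hab)
  refine ⟨D * c ^ ((D + 1) * n), fun K => D ^ (K + 1) * Nat.lcmUpto (D * (K + 1) + 1) ^ n,
    ⟨?_, fun i k => ?_, fun K => ?_, fun K => ?_, fun K i k hk => ?_⟩⟩
  · exact Nat.mul_pos hD1 (Nat.pow_pos hc1)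
  · rw [hco]
    refine (abs_Lam_le _ _).trans (((hT i).l1 k).trans ?_)
    refine pow_le_pow_left₀ (Nat.cast_nonneg _) ?_ _
    exact_mod_cast Nat.le_mul_of_pos_right D (Nat.pow_pos hc1)
  · exact Nat.mul_pos (Nat.pow_pos hD1) (Nat.pow_pos (Nat.lcmUpto_pos _))
  · rw [mul_pow]
    refine Nat.mul_le_mul_left _ ?_
    refine (Nat.pow_le_pow_left (hc _) n).trans ?_
    rw [← pow_mul, ← pow_mul]
    refine Nat.pow_le_pow_right hc1 ?_
    have h1 : D * (K + 1) + 1 ≤ (D + 1) * (K + 1) := by nlinarith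
    calc (D * (K + 1) + 1) * n ≤ (D + 1) * (K + 1) * n := Nat.mul_le_mul_right _ h1
      _ = (D + 1) * n * (K + 1) := by ring
  · rw [hco]
    obtain ⟨z, hz⟩ := den_Lam n (PowerSeries.coeff k (ser n (A i) * sinv n Q ^ κ i)) (D ^ (k + 1))
      (D * (k + 1)) (fun j => (hT i).deg k j) (fun m => by
        obtain ⟨z, hz⟩ := (hT i).den k m
        exact ⟨z, by push_cast; exact hz⟩)
    obtain ⟨w, hw⟩ : D ^ (k + 1) * Nat.lcmUpto (D * (k + 1) + 1) ^ n ∣
        D ^ (K + 1) * Nat.lcmUpto (D * (K + 1) + 1) ^ n := by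
      refine Nat.mul_dvd_mul (pow_dvd_pow _ (by omega)) (pow_dvd_pow_of_dvd (hdv ?_) n)
      have : D * (k + 1) ≤ D * (K + 1) := Nat.mul_le_mul_left _ (by omega)
      omega
    refine ⟨(w : ℤ) * z, ?_⟩
    rw [hw]
    push_cast
    push_cast at hz
    rw [← hz]
    ring

end Pool.Agent.Lib.MP_bbe012_lc.PP
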