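import Pool.Agent.Lib.MP_bbe012_lc.PP.CodeDefs
import Pool.Agent.Lib.MP_bbe012_lc.Check
import Pool.Agent.Lib.MP_bbe012_lc.PP.Tame

/-!
# What the codes of `CodeDefs` code
-/

namespace Pool.Agent.Lib.MP_bbe012_lc.PP

open MvPolynomial

/-- Proof: `pcPoly_var` with `(0 : Fin (n + 1)) = ⟨0, _⟩`. -/
theorem pcPoly_tC (n : ℕ) : pcPoly (n + 1) tC = X 0 := by
  exact pcPoly_var (Nat.succ_pos n)

/-- `pcPoly_const` (Check.lean). -/
theorem pcPoly_constC (n : ℕ) (c : QCode) : pcPoly n (constC c) = C (qval c) := by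
  exact pcPoly_const n c

/-- Proof: `pcPoly_append`, `pcPoly_neg`, `pcPoly_mul`, `pcPoly_var`. -/
theorem pcPoly_flC (n : ℕ) (l : Fin n) : pcPoly (n + 1) (flC l) = fl n l := by
  have hl : (l : ℕ) + 1 < n + 1 := by omega
  rw [flC, pcPoly_append, pcPoly_neg, pcPoly_mul, pcPoly_var hl, fl, sq, sub_eq_add_neg]
  rfl

/-- Proof: `pcPoly_sumRange`, `pcPoly_der` (`l.succ = ⟨l + 1, _⟩`), `pcPoly_flC`. -/
theorem pcPoly_divfC (n : ℕ) (Q : PCode) (K : ℕ) (g : List PCode) :
    pcPoly (n + 1) (divfC n Q K g) =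
      divf n (pcPoly (n + 1) Q) K (fun l => pcPoly (n + 1) (g.getD l [])) := by
  rw [divfC, pcPoly_sumRange, divf]
  refine Finset.sum_congr rfl fun l _ => ?_
  have hl : (l : ℕ) + 1 < n + 1 := by omega
  rw [pcPoly_append, pcPoly_neg, pcPoly_mul, pcPoly_mul, pcPoly_mul, pcPoly_der hl, pcPoly_der hl,
    pcPoly_mul, pcPoly_flC, pcPoly_nat, map_natCast, ← sub_eq_add_neg]
  rfl

theorem pcPoly_divEC (n : ℕ) (E : List PCode) :
    pcPoly (n + 1) (divEC n E) =
      ∑ l : Fin n, pderiv l.succ (fl n l * pcPoly (n + 1) (E.getD l [])) := by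
  rw [divEC, pcPoly_sumRange]
  refine Finset.sum_congr rfl fun l _ => ?_
  have hl : (l : ℕ) + 1 < n + 1 := by omega
  rw [pcPoly_der hl, pcPoly_mul, pcPoly_flC]
  rfl

/-- Induction on `i`. -/
theorem pcPoly_thetaC (n : ℕ) (Q : PCode) (K : ℕ) (S : PCode) (i : ℕ) :
    pcPoly (n + 1) (thetaC Q K S i) =
      thetaNum n (pcPoly (n + 1) Q) K (pcPoly (n + 1) S) i := by
  induction i with
  | zero => rfl
  | succ i ih =>
    have h1 : thetaC Q K S (i + 1) = pcMul Q (pcMul tC (pcDer 0 (thetaC Q K S i))) ++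
      pcNeg (pcMul (pcNat (K + i)) (pcMul (thetaC Q K S i) (pcMul tC (pcDer 0 Q)))) := rfl
    have h0 : (0 : ℕ) < n + 1 := Nat.succ_pos n
    rw [h1, pcPoly_append, pcPoly_neg, pcPoly_mul, pcPoly_mul, pcPoly_mul, pcPoly_mul, pcPoly_mul,
      pcPoly_der h0, pcPoly_der h0, pcPoly_tC, pcPoly_nat, ih, map_natCast, ← sub_eq_add_neg]
    rfl

/-- Polynomials in `t`. Proof: see `pcPoly_shift_beta` in DerCode.lean (induction on the list, `getD_take`). -/
theorem pcPoly_trunc_inT (n : ℕ) (A : PCode) : pcPoly (n + 1) (pcTrunc 1 A) = inT n (polyOf A) := by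
  induction A with
  | nil => simp [pcTrunc, polyOf]
  | cons t p ih =>
    have h1 : pcTrunc 1 (t :: p) = (t.1, t.2.take 1) :: pcTrunc 1 p := rfl
    have h2 : polyOf (t :: p) = Polynomial.C (qval t.1) * Polynomial.X ^ t.2.getD 0 0 + polyOf p := by
      simp [polyOf]
    rw [h1, h2, pcPoly_cons, ih, map_add]
    congr 1
    have h3 : expVec (n + 1) (t.2.take 1) = Finsupp.single 0 (t.2.getD 0 0) := by
      ext i
      rw [expVec_apply, getD_take, Finsupp.single_apply]
      refine Fin.cases ?_ (fun i => ?_) i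
      · rw [if_pos (by simp), if_pos rfl]
        rfl
      · rw [if_neg (by simp), if_neg (Fin.succ_ne_zero i).symm]
    rw [termPoly]
    simp only [h3]
    rw [map_mul, map_pow]
    simp only [inT, AlgHom.toRingHom_eq_coe, RingHom.coe_coe, Polynomial.aeval_C,
      Polynomial.aeval_X, algebraMap_eq]
    rw [X_pow_eq_monomial, C_mul_monomial, mul_one]

/-- Proof: `pcPoly_shift...` like lemmas: `getD_shift`, `getD_take`, `rename_monomial`; see `pcPoly_trunc_hP`. -/
theorem pcPoly_shift_succ (n : ℕ) (A : PCode) :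
    pcPoly (n + 1) (pcShift 1 n A) = rename Fin.succ (pcPoly n A) := by
  induction A with
  | nil => simp [pcShift]
  | cons t p ih =>
    have h1 : pcShift 1 n (t :: p) = (t.1, List.replicate 1 0 ++ t.2.take n) :: pcShift 1 n p := rfl
    rw [h1, pcPoly_cons, pcPoly_cons, ih, map_add]
    congr 1
    have h3 : expVec (n + 1) (List.replicate 1 0 ++ t.2.take n) =
        Finsupp.mapDomain Fin.succ (expVec n t.2) := by
      ext i
      rw [expVec_apply, getD_shift]
      refine Fin.cases ?_ (fun i => ?_) i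
      · rw [if_pos (by simp), Finsupp.mapDomain_of_notMem_range]
        rintro ⟨a, ha⟩
        exact absurd ha (Fin.succ_ne_zero a)
      · rw [if_neg (by simp), Finsupp.mapDomain_apply (Fin.succ_injective n), getD_take,
          if_pos (by simp)]
        simp
    rw [termPoly, termPoly, rename_monomial]
    simp only [h3]

theorem qleP_iff (c d : QCode) : qleP c d ↔ qval c ≤ qval d := by
  have h1 : (0 : ℚ) < (c.2 : ℚ) + 1 := by positivity
  have h2 : (0 : ℚ) < (d.2 : ℚ) + 1 := by positivity
  rw [qval, qval, div_le_div_iff₀ h1 h2, qleP, ← Nat.cast_le (α := ℚ)]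
  push_cast
  constructor
  · intro h; linarith
  · intro h; linarith

theorem qltP_iff (c d : QCode) : qltP c d ↔ qval c < qval d := by
  have h1 : (0 : ℚ) < (c.2 : ℚ) + 1 := by positivity
  have h2 : (0 : ℚ) < (d.2 : ℚ) + 1 := by positivity
  rw [qval, qval, div_lt_div_iff₀ h1 h2, qltP, ← Nat.cast_lt (α := ℚ)]
  push_cast
  constructor
  · intro h; linarith
  · intro h; linarith

theorem qval_qabs (c : QCode) : qval (qabs c) = |qval c| := by
  have h1 : (0 : ℚ) < (c.2 : ℚ) + 1 := by positivity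
  rw [qabs, qval, qval, abs_div, abs_of_pos h1]
  congr 1
  rcases le_total c.1.1 c.1.2 with h | h
  · have h2 : (c.1.1 : ℚ) ≤ c.1.2 := by exact_mod_cast h
    rw [abs_of_nonpos (by linarith), Nat.sub_eq_zero_of_le h, zero_add, Nat.cast_sub h]
    push_cast
    ring
  · have h2 : (c.1.2 : ℚ) ≤ c.1.1 := by exact_mod_cast h
    rw [abs_of_nonneg (by linarith), Nat.sub_eq_zero_of_le h, add_zero, Nat.cast_sub h]
    push_cast
    ring

/-- Proof: induction on the list; `l1M_add_le`, `l1M` of a monomial is at most the absolute value of the coefficient. -/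
theorem l1M_le_normC (n : ℕ) (p : PCode) : l1M (pcPoly n p) ≤ qval (normC p) := by
  induction p with
  | nil =>
    rw [pcPoly_nil, Tame_l1M_zero]
    simp [normC]
  | cons t p ih =>
    have h1 : normC (t :: p) = qadd (qabs t.1) (normC p) := rfl
    rw [h1, qval_qadd, qval_qabs, pcPoly_cons]
    exact (l1M_add_le _ _).trans (add_le_add (Tame_l1M_monomial _ _) ih)

private theorem CodeA_l1M_insert {n : ℕ} (a : Fin n →₀ ℕ) (b : ℚ) (f : MvPolynomial (Fin n) ℚ)
    (ha : a ∉ f.support) : l1M (monomial a b + f) = |b| + l1M f := by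
  classical
  have hsub : (monomial a b + f).support ⊆ insert a f.support := by
    intro m hm
    rw [mem_support_iff, coeff_add, coeff_monomial] at hm
    rw [Finset.mem_insert]
    by_cases h : m = a
    · exact Or.inl h
    · refine Or.inr (mem_support_iff.2 ?_)
      rwa [if_neg (Ne.symm h), zero_add] at hm
  rw [Tame_l1M_eq _ _ hsub, Finset.sum_insert ha, coeff_add, coeff_monomial, if_pos rfl,
    notMem_support_iff.1 ha, add_zero, l1M]
  congr 1
  refine Finset.sum_congr rfl fun m hm => ?_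
  have hne : a ≠ m := by
    rintro rfl
    exact ha hm
  rw [coeff_add, coeff_monomial, if_neg hne, zero_add]

private theorem CodeA_norm_cons {n : ℕ} (a : Fin n →₀ ℕ) (b : ℚ) (f : MvPolynomial (Fin n) ℚ)
    (ha : a ∉ f.support) (hf : ∃ p : PCode, pcPoly n p = f ∧ qval (normC p) = l1M f) :
    ∃ p : PCode, pcPoly n p = monomial a b + f ∧ qval (normC p) = l1M (monomial a b + f) := by
  obtain ⟨p, hp1, hp2⟩ := hf
  obtain ⟨c, hc⟩ := exists_qval b
  refine ⟨(c, List.ofFn fun i => a i) :: p, ?_, ?_⟩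
  · have h1 : expVec n (List.ofFn fun i => a i) = a := by
      ext i
      rw [expVec_apply]
      simp [List.getD_eq_getElem?_getD]
    rw [pcPoly_cons, hp1, termPoly]
    simp only [h1, hc]
  · have h1 : normC ((c, List.ofFn fun i => a i) :: p) = qadd (qabs c) (normC p) := rfl
    rw [h1, qval_qadd, qval_qabs, hc, hp2, CodeA_l1M_insert a b f ha]

/-- Every polynomial has a code with the exact norm: the list of its terms. Proof. The code is
`P.support.toList.map fun m => (code of coeff m P, List.ofFn m)`; see the proof of `exists_pcPoly`. -/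
theorem exists_pcPoly_norm {n : ℕ} (P : MvPolynomial (Fin n) ℚ) :
    ∃ p : PCode, pcPoly n p = P ∧ qval (normC p) = l1M P := by
  have h0 : ∃ p : PCode, pcPoly n p = 0 ∧ qval (normC p) = l1M (0 : MvPolynomial (Fin n) ℚ) := by
    refine ⟨[], rfl, ?_⟩
    rw [Tame_l1M_zero]
    simp [normC]
  have hsum : ∀ (s : Finset (Fin n →₀ ℕ)) (g : (Fin n →₀ ℕ) → ℚ), ∃ p : PCode,
      pcPoly n p = ∑ m ∈ s, monomial m (g m) ∧
        qval (normC p) = l1M (∑ m ∈ s, monomial m (g m)) := by
    classical
    intro s g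
    induction s using Finset.induction_on with
    | empty =>
      rw [Finset.sum_empty]
      exact h0
    | insert a s ha ih =>
      rw [Finset.sum_insert ha]
      refine CodeA_norm_cons a (g a) _ ?_ ih
      rw [notMem_support_iff, coeff_sum]
      refine Finset.sum_eq_zero fun m hm => ?_
      have hne : m ≠ a := by
        rintro rfl
        exact ha hm
      rw [coeff_monomial, if_neg hne]
  have h := hsum P.support (fun m => coeff m P)
  rwa [support_sum_monomial_coeff] at h

/-- Shifting does not change the norm. -/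
theorem normC_shift (m n : ℕ) (p : PCode) : normC (pcShift m n p) = normC p := by
  rw [normC, normC, pcShift, List.foldr_map]

/-- Proof: `exists_pcPoly` for every index and `List.ofFn`. -/
theorem exists_list (n : ℕ) (g : Fin n → P1 n) :
    ∃ gs : List PCode, (fun l : Fin n => pcPoly (n + 1) (gs.getD l [])) = g := by
  choose gc hgc using fun l : Fin n => exists_pcPoly (g l)
  refine ⟨List.ofFn gc, funext fun l => ?_⟩
  rw [← hgc l]
  congr 1
  simp [List.getD_eq_getElem?_getD]

end Pool.Agent.Lib.MP_bbe012_lc.PP
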