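import Pool.Agent.Lib.MP_bbe012_lc.PP.RedDefs
import Pool.Agent.Lib.MP_bbe012_lc.PP.CodeA
import Pool.Agent.Lib.MP_bbe012_lc.Adv

/-!
# Codes of the polynomials in blocks of variables
-/

namespace Pool.Agent.Lib.MP_bbe012_lc.PP

open MvPolynomial

/-- Renaming of the variables along an injective map, on codes. -/
theorem RedB_rename {n m : ℕ} (f : Fin n → Fin m) (hf : Function.Injective f)
    (φ : List ℕ → List ℕ) (h1 : ∀ (e : List ℕ) (l : Fin n), (φ e).getD (f l : ℕ) 0 = e.getD l 0)
    (h2 : ∀ (e : List ℕ) (j : Fin m), j ∉ Set.range f → (φ e).getD (j : ℕ) 0 = 0) (p : PCode) :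
    pcPoly m (p.map fun t => (t.1, φ t.2)) = rename f (pcPoly n p) := by
  induction p with
  | nil => simp
  | cons t p ih =>
    have h3 : ((t :: p).map fun t : QCode × List ℕ => (t.1, φ t.2)) =
        (t.1, φ t.2) :: p.map fun t => (t.1, φ t.2) := rfl
    rw [h3, pcPoly_cons, pcPoly_cons, ih, map_add]
    have h4 : expVec m (φ t.2) = Finsupp.mapDomain f (expVec n t.2) := by
      ext j
      rw [expVec_apply]
      by_cases hj : j ∈ Set.range f
      · obtain ⟨l, rfl⟩ := hj
        rw [Finsupp.mapDomain_apply hf, expVec_apply]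
        exact h1 t.2 l
      · rw [Finsupp.mapDomain_of_notMem_range _ _ hj]
        exact h2 t.2 j hj
    rw [termPoly, termPoly, rename_monomial]
    simp only [h4]

theorem RedB_bidx_zero (n δ : ℕ) (i : Fin δ) : bidx n δ i 0 = 0 := rfl

theorem RedB_bidx_succ (n δ : ℕ) (i : Fin δ) (l : Fin n) :
    bidx n δ i l.succ = (finProdFinEquiv (i, l)).succ := rfl

theorem RedB_val (n δ : ℕ) (i : Fin δ) (l : Fin n) :
    ((finProdFinEquiv (i, l)).succ : Fin (δ * n + 1)).val = 1 + i * n + l := by
  rw [Fin.val_succ, finProdFinEquiv_apply_val, mul_comm n]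
  show (l : ℕ) + (i : ℕ) * n + 1 = _
  omega

theorem RedB_inj (n δ : ℕ) (i : Fin δ) : Function.Injective (bidx n δ i) := by
  intro a b hab
  refine Fin.cases ?_ (fun a' => ?_) a hab
  · refine Fin.cases ?_ (fun b' => ?_) b
    · intro _
      rfl
    · intro h
      rw [RedB_bidx_zero, RedB_bidx_succ] at h
      exact absurd h.symm (Fin.succ_ne_zero _)
  · refine Fin.cases ?_ (fun b' => ?_) b
    · intro h
      rw [RedB_bidx_zero, RedB_bidx_succ] at h
      exact absurd h (Fin.succ_ne_zero _)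
    · intro h
      rw [RedB_bidx_succ, RedB_bidx_succ] at h
      have h2 := finProdFinEquiv.injective (Fin.succ_injective _ h)
      rw [(Prod.mk.inj h2).2]

/-- Proof: induction on the list; `rename_monomial`; compare the exponents: `getD` of `cons`, `getD_shift`, `getD_take`;
the variable `x_{1 + l + n i}` is `bidx n δ i l.succ` (`finProdFinEquiv_apply_val`), the exponents of the variables outside
of the range of `bidx n δ i` vanish (`Finsupp.mapDomain_of_notMem_range`); see the proofs of `pcPoly_trunc_hP`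
and `pcPoly_shift_beta` in DerCode.lean. -/
theorem pcPoly_blkC (n δ : ℕ) (i : Fin δ) (p : PCode) :
    pcPoly (δ * n + 1) (blkC n i p) = rename (bidx n δ i) (pcPoly (n + 1) p) := by
  unfold blkC
  refine RedB_rename (bidx n δ i) (RedB_inj n δ i)
    (fun e => e.getD 0 0 :: (List.replicate (i * n) 0 ++ (e.drop 1).take n)) ?_ ?_ p
  · intro e l
    refine Fin.cases ?_ (fun l' => ?_) l
    · rfl
    · rw [RedB_bidx_succ, RedB_val]
      have h : 1 + (i : ℕ) * n + (l' : ℕ) = ((i : ℕ) * n + l') + 1 := by omega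
      rw [h]
      rw [List.getD_cons_succ, getD_shift, if_neg (by omega), getD_take,
        if_pos (by omega), Nat.add_sub_cancel_left, Fin.val_succ]
      rw [List.getD_eq_getElem?_getD, List.getD_eq_getElem?_getD, List.getElem?_drop,
        add_comm 1]
  · intro e j
    refine Fin.cases ?_ (fun k => ?_) j
    · intro h
      exact absurd ⟨0, RedB_bidx_zero n δ i⟩ h
    · intro h
      rw [Fin.val_succ]
      rw [List.getD_cons_succ, getD_shift]
      by_cases h1 : (k : ℕ) < (i : ℕ) * n
      · rw [if_pos h1]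
      · rw [if_neg h1, getD_take]
        by_cases h2 : (k : ℕ) - (i : ℕ) * n < n
        · exfalso
          apply h
          refine ⟨(⟨(k : ℕ) - (i : ℕ) * n, h2⟩ : Fin n).succ, ?_⟩
          rw [RedB_bidx_succ]
          apply Fin.ext
          rw [RedB_val, Fin.val_succ]
          show 1 + (i : ℕ) * n + ((k : ℕ) - (i : ℕ) * n) = (k : ℕ) + 1
          omega
        · rw [if_neg h2]

/-- Same proof. -/
theorem pcPoly_shift_blk (n δ : ℕ) (i : Fin δ) (p : PCode) :
    pcPoly (δ * n + 1) (pcShift (1 + i * n) n p) =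
      rename (bidx n δ i) (rename Fin.succ (pcPoly n p)) := by
  unfold pcShift
  rw [rename_rename]
  refine RedB_rename (bidx n δ i ∘ Fin.succ)
    ((RedB_inj n δ i).comp (Fin.succ_injective n))
    (fun e => List.replicate (1 + i * n) 0 ++ e.take n) ?_ ?_ p
  · intro e l
    rw [Function.comp_apply, RedB_bidx_succ, RedB_val]
    rw [getD_shift, if_neg (by omega), getD_take, Nat.add_sub_cancel_left,
      if_pos l.isLt]
  · intro e k h
    rw [getD_shift]
    by_cases h1 : (k : ℕ) < 1 + (i : ℕ) * n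
    · rw [if_pos h1]
    · rw [if_neg h1, getD_take]
      by_cases h2 : (k : ℕ) - (1 + (i : ℕ) * n) < n
      · exfalso
        apply h
        refine ⟨(⟨(k : ℕ) - (1 + (i : ℕ) * n), h2⟩ : Fin n), ?_⟩
        rw [Function.comp_apply, RedB_bidx_succ]
        apply Fin.ext
        rw [RedB_val]
        show 1 + (i : ℕ) * n + ((k : ℕ) - (1 + (i : ℕ) * n)) = (k : ℕ)
        omega
      · rw [if_neg h2]

/-- `pcPoly_prodRange` (Adv.lean). -/
theorem pcPoly_QQ (n δ : ℕ) (Q : PCode) :
    pcPoly (δ * n + 1) (QQ n δ Q) = ∏ i : Fin δ, rename (bidx n δ i) (pcPoly (n + 1) Q) := by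
  unfold QQ
  rw [pcPoly_prodRange]
  exact Finset.prod_congr rfl fun i _ => pcPoly_blkC n δ i Q

/-- `pcPoly_sumRange`, `pcPoly_prodRange`. -/
theorem pcPoly_GG (E : Ex) (c : RC) :
    pcPoly (c.1.1.2 * c.1.1.1 + 1) (GG E c) =
      ∑ j : Fin E.length, ∏ i : Fin c.1.1.2, rename (bidx c.1.1.1 c.1.1.2 i) (rename Fin.succ
        (pcPoly c.1.1.1 (pcTrunc (item E j i).1 (item E j i).2.1) *
          pcPoly c.1.1.1 (wit c j i).1)) := by
  unfold GG
  rw [pcPoly_sumRange]
  refine Finset.sum_congr rfl fun j _ => ?_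
  rw [pcPoly_prodRange]
  refine Finset.prod_congr rfl fun i _ => ?_
  rw [pcPoly_shift_blk, pcPoly_mul]

/-- Truncation and padding. Proof: induction on the list, `rename_monomial`, `getD_take`. -/
theorem pcPoly_trunc_castLE {m n : ℕ} (h : m ≤ n) (p : PCode) :
    pcPoly n (pcTrunc m p) = rename (Fin.castLE h) (pcPoly m p) := by
  unfold pcTrunc
  refine RedB_rename (Fin.castLE h) (Fin.castLE_injective h) (fun e => e.take m) ?_ ?_ p
  · intro e l
    rw [getD_take, Fin.val_castLE, if_pos l.isLt]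
  · intro e j hj
    rw [getD_take]
    by_cases h1 : (j : ℕ) < m
    · exact absurd ⟨⟨j, h1⟩, Fin.ext rfl⟩ hj
    · rw [if_neg h1]

end Pool.Agent.Lib.MP_bbe012_lc.PP
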