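import Pool.Agent.Lib.MP_bbe012_lc.PP.RedA
import Pool.Agent.Lib.MP_bbe012_lc.PP.RedB
import Pool.Agent.Lib.MP_bbe012_lc.PP.CodeB

/-!
# Soundness of the reduction to one integral
-/

namespace Pool.Agent.Lib.MP_bbe012_lc.PP

open MvPolynomial MeasureTheory Set

private theorem RedC_cont0 {m : ℕ} (p : MvPolynomial (Fin m) ℚ) :
    Continuous fun x : Fin m → ℝ => aeval x p := by
  have h : (fun x : Fin m → ℝ => aeval x p) =
      fun x => ∑ d ∈ p.support, algebraMap ℚ ℝ (coeff d p) * ∏ i, x i ^ d i := by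
    funext x
    rw [aeval_def, eval₂_eq']
  rw [h]
  fun_prop

private theorem RedC_cont (n : ℕ) (τ : ℚ) (G : P1 n) :
    Continuous fun x : Fin n → ℝ => aeval (pt n τ x) G := by
  have h : Continuous fun x : Fin n → ℝ => pt n τ x := by
    refine continuous_pi fun i => ?_
    refine Fin.cases ?_ (fun l => ?_) i
    · exact continuous_const
    · exact continuous_apply l
  exact (RedC_cont0 G).comp h

private theorem RedC_val {m n : ℕ} (h : m ≤ n) (P : MvPolynomial (Fin m) ℚ)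
    (W : MvPolynomial (Fin n) ℚ) (τ : ℚ) (x : Fin n → ℝ) :
    aeval (pt n τ x) (rename Fin.succ (rename (Fin.castLE h) P * W)) =
      aeval (fun i => x (Fin.castLE h i)) P * aeval x W := by
  rw [aeval_succ, map_mul, aeval_rename]
  rfl

/-- If `D W = Q(t, x) ^ k + (t - τ) V` and `Q(τ, x) ≠ 0` on the cube, the integral of `P / D` over `[0,1]^m` is the integral of
`P W / Q(τ, x) ^ k` over `[0,1]^n`. Proof. For `x` in the cube `[0,1]^n`: `D(x) W(x) = Q(τ, x) ^ k ≠ 0` (evaluate at `pt n τ x`,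
`aeval_succ`), so `P(x) / D(x) = P(x) W(x) / Q(τ, x) ^ k`; `integral_pad`. `D` has no zero on `[0,1]^m`: every point of `[0,1]^m`
is the projection of a point of `[0,1]^n` (add zeros), so `P / D` is continuous, hence integrable, on `[0,1]^m`. -/
theorem ciVal_eq {m n : ℕ} (h : m ≤ n) (P D : PCode) (W : MvPolynomial (Fin n) ℚ) (V Q : P1 n) (k : ℕ) (τ : ℚ)
    (hQ : ∀ x ∈ Icc (0 : Fin n → ℝ) 1, aeval (pt n τ x) Q ≠ 0)
    (hD : rename Fin.succ (rename (Fin.castLE h) (pcPoly m D) * W) = Q ^ k + (X 0 - C τ) * V) :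
    ciVal (m, (P, D)) = JJ n Q (rename Fin.succ (rename (Fin.castLE h) (pcPoly m P) * W)) k τ := by
  have hval : ∀ x ∈ Icc (0 : Fin n → ℝ) 1, aeval (fun i => x (Fin.castLE h i)) (pcPoly m D) *
      aeval x W = aeval (pt n τ x) Q ^ k := by
    intro x hx
    have h1 : aeval (pt n τ x) (rename Fin.succ (rename (Fin.castLE h) (pcPoly m D) * W)) =
        aeval (pt n τ x) (Q ^ k + (X 0 - C τ) * V) := by rw [hD]
    have h4 : pt n τ x 0 = ((τ : ℚ) : ℝ) := rfl
    have h5 : (algebraMap ℚ ℝ) τ = ((τ : ℚ) : ℝ) := rfl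
    rw [RedC_val] at h1
    rw [h1, map_add, map_mul, map_pow, map_sub, aeval_C, aeval_X, h4, h5, sub_self,
      zero_mul, add_zero]
  have hne : ∀ x ∈ Icc (0 : Fin n → ℝ) 1,
      aeval (fun i => x (Fin.castLE h i)) (pcPoly m D) ≠ 0 ∧ aeval x W ≠ 0 := by
    intro x hx
    have h1 : aeval (pt n τ x) Q ^ k ≠ 0 := pow_ne_zero k (hQ x hx)
    rw [← hval x hx] at h1
    exact ⟨left_ne_zero_of_mul h1, right_ne_zero_of_mul h1⟩
  have hD0 : ∀ y ∈ Icc (0 : Fin m → ℝ) 1, pcEval m D y ≠ 0 := by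
    intro y hy
    have hx : (fun i : Fin n => if hi : i.1 < m then y ⟨i.1, hi⟩ else 0) ∈
        Icc (0 : Fin n → ℝ) 1 := by
      constructor
      · intro i
        change (0 : ℝ) ≤ if hi : i.1 < m then y ⟨i.1, hi⟩ else 0
        split_ifs with hi
        · exact hy.1 ⟨i.1, hi⟩
        · exact le_refl 0
      · intro i
        change (if hi : i.1 < m then y ⟨i.1, hi⟩ else 0) ≤ (1 : ℝ)
        split_ifs with hi
        · exact hy.2 ⟨i.1, hi⟩
        · exact zero_le_one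
    have h1 := (hne _ hx).1
    have h2 : (fun i : Fin m => (fun i : Fin n => if hi : i.1 < m then y ⟨i.1, hi⟩ else 0)
        (Fin.castLE h i)) = y := by
      funext i
      have hi : (Fin.castLE h i).1 < m := i.2
      change (if hi : (Fin.castLE h i).1 < m then y ⟨(Fin.castLE h i).1, hi⟩ else 0) = y i
      rw [dif_pos hi]
      rfl
    rw [h2] at h1
    exact h1
  have hf : IntegrableOn (fun x : Fin m → ℝ => pcEval m P x / pcEval m D x)
      (Icc (0 : Fin m → ℝ) 1) := by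
    refine ContinuousOn.integrableOn_compact isCompact_Icc ?_
    exact (continuous_pcEval m P).continuousOn.div (continuous_pcEval m D).continuousOn hD0
  have h1 : ciVal (m, (P, D)) = ∫ x in Icc (0 : Fin m → ℝ) 1, pcEval m P x / pcEval m D x := rfl
  rw [h1, ← integral_pad h _ hf, JJ]
  refine setIntegral_congr_fun measurableSet_Icc fun x hx => ?_
  change pcEval m P (fun i => x (Fin.castLE h i)) / pcEval m D (fun i => x (Fin.castLE h i)) =
    aeval (pt n τ x) (rename Fin.succ (rename (Fin.castLE h) (pcPoly m P) * W)) /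
      aeval (pt n τ x) Q ^ k
  rw [RedC_val, ← hval x hx]
  exact (mul_div_mul_right _ _ (hne x hx).2).symm

private theorem RedC_bco (n δ : ℕ) (i : Fin δ) : Continuous (bco n δ i) :=
  continuous_pi fun l => continuous_apply (finProdFinEquiv (i, l))

private theorem RedC_blocks (n δ : ℕ) {M : ℕ} (Q : P1 n) (A : Fin M → Fin δ → P1 n) (k : ℕ) (τ : ℚ)
    (hQ : Fin δ → ∀ x ∈ Icc (0 : Fin n → ℝ) 1, aeval (pt n τ x) Q ≠ 0) :
    JJ (δ * n) (∏ i : Fin δ, rename (bidx n δ i) Q)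
      (∑ j : Fin M, ∏ i : Fin δ, rename (bidx n δ i) (A j i)) k τ =
      ∑ j : Fin M, ∏ i : Fin δ, JJ n Q (A j i) k τ := by
  have h1 : ∀ x : Fin (δ * n) → ℝ,
      aeval (pt (δ * n) τ x) (∑ j : Fin M, ∏ i : Fin δ, rename (bidx n δ i) (A j i)) /
        aeval (pt (δ * n) τ x) (∏ i : Fin δ, rename (bidx n δ i) Q) ^ k =
      ∑ j : Fin M, ∏ i : Fin δ, (aeval (pt n τ (bco n δ i x)) (A j i) /
        aeval (pt n τ (bco n δ i x)) Q ^ k) := by
    intro x
    rw [map_sum, map_prod, Finset.sum_div]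
    refine Finset.sum_congr rfl fun j _ => ?_
    rw [map_prod, Finset.prod_div_distrib, ← Finset.prod_pow]
    simp only [aeval_bidx]
  have h2 : ∀ j : Fin M, IntegrableOn (fun x : Fin (δ * n) → ℝ => ∏ i : Fin δ,
      (aeval (pt n τ (bco n δ i x)) (A j i) / aeval (pt n τ (bco n δ i x)) Q ^ k))
      (Icc (0 : Fin (δ * n) → ℝ) 1) := by
    intro j
    refine ContinuousOn.integrableOn_compact isCompact_Icc ?_
    refine continuousOn_finsetProd _ fun i _ => ?_
    refine ContinuousOn.div ?_ ?_ ?_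
    · exact ((RedC_cont n τ (A j i)).comp (RedC_bco n δ i)).continuousOn
    · exact (((RedC_cont n τ Q).comp (RedC_bco n δ i)).pow k).continuousOn
    · intro x hx
      exact pow_ne_zero k (hQ i _ (bco_mem i hx))
  unfold JJ
  simp only [h1]
  rw [integral_finsetSum _ fun j _ => h2 j]
  refine Finset.sum_congr rfl fun j _ => ?_
  exact integral_blocks n δ fun i y => aeval (pt n τ y) (A j i) / aeval (pt n τ y) Q ^ k

/-- The integrals over the blocks. Proof. `integral_finset_sum`, `integral_blocks`, `aeval_bidx`, `Finset.prod_div_distrib`,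
`Finset.prod_pow`; the terms are continuous on the cube (denominators do not vanish, `bco_mem`), hence integrable. -/
theorem JJ_blocks (n δ : ℕ) {M : ℕ} (Q : P1 n) (A : Fin M → Fin δ → P1 n) (k : ℕ) (τ : ℚ)
    (hQ : ∀ x ∈ Icc (0 : Fin n → ℝ) 1, aeval (pt n τ x) Q ≠ 0) :
    JJ (δ * n) (∏ i : Fin δ, rename (bidx n δ i) Q)
      (∑ j : Fin M, ∏ i : Fin δ, rename (bidx n δ i) (A j i)) k τ =
      ∑ j : Fin M, ∏ i : Fin δ, JJ n Q (A j i) k τ := by
  exact RedC_blocks n δ Q A k τ fun _ => hQ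

/-- Proof. Take `i : Fin δ` and the point `y` of `[0,1]^(δ n)` with all blocks equal to `x` (`y j = x (finProdFinEquiv.symm j).2`);
the value of the product at `y` is `Q(τ, x) ^ δ`, and it is at least `1 / 2` by `half_le`. -/
theorem ne_zero_of_blocks {n δ : ℕ} (hδ : 0 < δ) {Q : P1 n} {τ : ℚ}
    (h0 : atZero (δ * n) (∏ i : Fin δ, rename (bidx n δ i) Q) = 1)
    (h : wn (δ * n) (∏ i : Fin δ, rename (bidx n δ i) Q) τ ≤ 1 / 2) :
    ∀ x ∈ Icc (0 : Fin n → ℝ) 1, aeval (pt n τ x) Q ≠ 0 := by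
  intro x hx h1
  have hy : (fun j : Fin (δ * n) => x (finProdFinEquiv.symm j).2) ∈
      Icc (0 : Fin (δ * n) → ℝ) 1 :=
    ⟨fun j => hx.1 _, fun j => hx.2 _⟩
  have h2 := half_le h0 h hy
  have h3 : ∀ i : Fin δ, bco n δ i (fun j : Fin (δ * n) => x (finProdFinEquiv.symm j).2) = x := by
    intro i
    funext l
    change x (finProdFinEquiv.symm (finProdFinEquiv (i, l))).2 = x l
    rw [Equiv.symm_apply_apply]
  rw [map_prod] at h2
  simp only [aeval_bidx, h3, h1] at h2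
  rw [Finset.prod_eq_zero (Finset.mem_univ (⟨0, hδ⟩ : Fin δ)) rfl] at h2
  norm_num at h2

/-- Soundness of the reduction. Proof. If `δ = 0` all products are empty: both sides are the number of products (the cube
`[0,1]^0` is a point; `JJ` of `∑ j, 1` over `1 ^ k`). If `δ > 0`: `okBase_spec`, `ne_zero_of_blocks` (with `pcPoly_QQ`),
`exVal_eq`, `ciVal_eq` for every factor (from `rcItem`, `pcIsZero_iff`, `pcPoly_shift_succ`, `pcPoly_trunc_castLE`),
`JJ_blocks`, `pcPoly_GG`. -/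
theorem exVal_eq_JJ {E : Ex} {c : RC} (h : rcOK E c) {V : PCode}
    (hV : okBase (c.1.1.2 * c.1.1.1) (QQ c.1.1.1 c.1.1.2 c.2.1.1) V c.2.1.2) :
    exVal E = JJ (toCore E c).1.1 (pcPoly ((toCore E c).1.1 + 1) (toCore E c).2.1.1)
      (pcPoly ((toCore E c).1.1 + 1) (toCore E c).2.1.2) (toCore E c).1.2 (qval (toCore E c).2.2) := by
  have hQ : Fin c.1.1.2 → ∀ x ∈ Icc (0 : Fin c.1.1.1 → ℝ) 1,
      aeval (pt c.1.1.1 (qval c.2.1.2) x) (pcPoly (c.1.1.1 + 1) c.2.1.1) ≠ 0 := by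
    intro i
    have h1 := okBase_spec hV
    rw [pcPoly_QQ] at h1
    exact ne_zero_of_blocks i.pos h1.1 h1.2.2
  have hfac : ∀ (j : Fin E.length) (i : Fin c.1.1.2), ciVal (item E j i) =
      JJ c.1.1.1 (pcPoly (c.1.1.1 + 1) c.2.1.1) (rename Fin.succ
        (pcPoly c.1.1.1 (pcTrunc (item E j i).1 (item E j i).2.1) *
          pcPoly c.1.1.1 (wit c j i).1)) c.1.2 (qval c.2.1.2) := by
    intro j i
    obtain ⟨hle, hz⟩ := h.2 j (List.mem_range.2 j.2) i (List.mem_range.2 i.2)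
    rw [pcIsZero_iff, pcPoly_append, pcPoly_neg, pcPoly_shift_succ, pcPoly_mul,
      pcPoly_trunc_castLE hle, pcPoly_append, pcPoly_pow, pcPoly_mul, pcPoly_append, pcPoly_neg,
      pcPoly_tC, pcPoly_constC] at hz
    rw [pcPoly_trunc_castLE hle]
    refine ciVal_eq hle (item E j i).2.1 (item E j i).2.2 (pcPoly c.1.1.1 (wit c j i).1)
      (pcPoly (c.1.1.1 + 1) (wit c j i).2) (pcPoly (c.1.1.1 + 1) c.2.1.1) c.1.2 (qval c.2.1.2)
      (hQ i) ?_
    linear_combination hz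
  rw [exVal_eq h.1]
  change _ = JJ (c.1.1.2 * c.1.1.1) (pcPoly (c.1.1.2 * c.1.1.1 + 1) (QQ c.1.1.1 c.1.1.2 c.2.1.1))
    (pcPoly (c.1.1.2 * c.1.1.1 + 1) (GG E c)) c.1.2 (qval c.2.1.2)
  rw [pcPoly_QQ, pcPoly_GG, RedC_blocks _ _ _ _ _ _ hQ]
  exact Finset.sum_congr rfl fun j _ => Finset.prod_congr rfl fun i _ => hfac j i

end Pool.Agent.Lib.MP_bbe012_lc.PP
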