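import Pool.Agent.Lib.MP_bbe012_lc.PP.Defs

/-!
# The integral over the cube of polynomials
-/

namespace Pool.Agent.Lib.MP_bbe012_lc.PP

open MvPolynomial

private theorem pderiv_fl_mono {n : ℕ} (l : Fin n) (m : Fin n →₀ ℕ) (a : ℚ) :
    pderiv l ((X l - X l ^ 2) * monomial m a) =
      monomial m (((m l : ℚ) + 1) * a) - monomial (m + Finsupp.single l 1) (((m l : ℚ) + 2) * a) := by
  have e1 : (X l : MvPolynomial (Fin n) ℚ) * monomial m a = monomial (m + Finsupp.single l 1) a := by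
    rw [X, monomial_mul, one_mul, add_comm]
  have e2 : (X l : MvPolynomial (Fin n) ℚ) ^ 2 * monomial m a = monomial (m + Finsupp.single l 2) a := by
    rw [X_pow_eq_monomial, monomial_mul, one_mul, add_comm]
  have s1 : m + Finsupp.single l 1 - Finsupp.single l 1 = m := by
    rw [add_tsub_cancel_right]
  have s2 : m + Finsupp.single l 2 - Finsupp.single l 1 = m + Finsupp.single l 1 := by
    have : Finsupp.single l 2 = (Finsupp.single l 1 : Fin n →₀ ℕ) + Finsupp.single l 1 := by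
      rw [← Finsupp.single_add]
    rw [this, ← add_assoc, add_tsub_cancel_right]
  rw [sub_mul, e1, e2, map_sub, pderiv_monomial, pderiv_monomial, s1, s2]
  congr 2
  · rw [Finsupp.add_apply, Finsupp.single_eq_same]
    push_cast
    ring
  · rw [Finsupp.add_apply, Finsupp.single_eq_same]
    push_cast
    ring

/-- Proof: by linearity (`MvPolynomial.induction_on'`) for `g = monomial m a`:
`(X l - X l ^ 2) * monomial m a = monomial (m + single l 1) a - monomial (m + single l 2) a`, `pderiv_monomial`,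
`Lam_monomial`, and in the products over `i` only the factor `i = l` changes (`Finset.prod_update_of_mem`,
`Finset.mul_prod_erase`): `(m l + 1) * (m l + 1)⁻¹ - (m l + 2) * (m l + 2)⁻¹ = 0`. -/
theorem Lam_pderiv (n : ℕ) (l : Fin n) (g : MvPolynomial (Fin n) ℚ) :
    Lam n (pderiv l ((X l - X l ^ 2) * g)) = 0 := by
  induction g using MvPolynomial.induction_on' with
  | monomial m a =>
    rw [pderiv_fl_mono, map_sub, Lam_monomial, Lam_monomial]
    have hP : ∏ i, (((m + Finsupp.single l 1 : Fin n →₀ ℕ) i : ℚ) + 1)⁻¹ =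
        ((m l : ℚ) + 2)⁻¹ * ∏ i ∈ Finset.univ.erase l, ((m i : ℚ) + 1)⁻¹ := by
      rw [← Finset.mul_prod_erase Finset.univ
        (fun i => (((m + Finsupp.single l 1 : Fin n →₀ ℕ) i : ℚ) + 1)⁻¹) (Finset.mem_univ l)]
      congr 1
      · rw [Finsupp.add_apply, Finsupp.single_eq_same]
        push_cast
        ring_nf
      · refine Finset.prod_congr rfl fun i hi => ?_
        rw [Finsupp.add_apply, Finsupp.single_eq_of_ne (Finset.ne_of_mem_erase hi), add_zero]
    rw [hP, ← Finset.mul_prod_erase Finset.univ (fun i => ((m i : ℚ) + 1)⁻¹) (Finset.mem_univ l)]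
    have h1 : ((m l : ℚ) + 1) ≠ 0 := by positivity
    have h2 : ((m l : ℚ) + 2) ≠ 0 := by positivity
    field_simp
    ring
  | add p q hp hq => rw [mul_add, map_add, map_add, hp, hq, add_zero]

theorem Lam_C (n : ℕ) (a : ℚ) : Lam n (C a) = a := by
  rw [C_apply, Lam_monomial]
  simp

private def IsPr {n : ℕ} (s : MvPolynomial (Fin n) ℚ) : Prop :=
  ∃ (a : ℚ) (E : Fin n → MvPolynomial (Fin n) ℚ),
    s = C a + ∑ l, pderiv l ((X l - X l ^ 2) * E l)

private theorem isPr_add {n : ℕ} {s t : MvPolynomial (Fin n) ℚ} (hs : IsPr s) (ht : IsPr t) :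
    IsPr (s + t) := by
  obtain ⟨a, E, hE⟩ := hs
  obtain ⟨b, F, hF⟩ := ht
  refine ⟨a + b, fun l => E l + F l, ?_⟩
  have : ∑ l, pderiv l ((X l - X l ^ 2) * (E l + F l)) =
      ∑ l, pderiv l ((X l - X l ^ 2) * E l) + ∑ l, pderiv l ((X l - X l ^ 2) * F l) := by
    rw [← Finset.sum_add_distrib]
    refine Finset.sum_congr rfl fun l _ => ?_
    rw [mul_add, map_add]
  rw [this, C_add]
  conv_lhs => rw [hE, hF]
  ring

private theorem isPr_smul {n : ℕ} {s : MvPolynomial (Fin n) ℚ} (c : ℚ) (hs : IsPr s) :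
    IsPr (c • s) := by
  obtain ⟨a, E, hE⟩ := hs
  refine ⟨c * a, fun l => c • E l, ?_⟩
  have : ∑ l, pderiv l ((X l - X l ^ 2) * (c • E l)) =
      c • ∑ l, pderiv l ((X l - X l ^ 2) * E l) := by
    rw [Finset.smul_sum]
    refine Finset.sum_congr rfl fun l _ => ?_
    rw [mul_smul_comm, Derivation.map_smul]
  rw [this]
  conv_lhs => rw [hE]
  rw [smul_add, C_mul, ← smul_eq_C_mul]

private theorem isPr_pd {n : ℕ} (l : Fin n) (F : MvPolynomial (Fin n) ℚ) :
    IsPr (pderiv l ((X l - X l ^ 2) * F)) := by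
  classical
  refine ⟨0, fun i => if i = l then F else 0, ?_⟩
  rw [C_0, zero_add, Finset.sum_eq_single l]
  · beta_reduce
    rw [if_pos rfl]
  · intro i _ hi
    beta_reduce
    rw [if_neg hi, mul_zero, map_zero]
  · intro h
    exact absurd (Finset.mem_univ l) h

private theorem isPr_mono {n : ℕ} : ∀ (k : ℕ) (m : Fin n →₀ ℕ), m.degree = k → ∀ a : ℚ,
    IsPr (monomial m a) := by
  intro k
  induction k with
  | zero =>
    intro m hm a
    have : m = 0 := by
      rwa [Finsupp.degree_eq_zero_iff] at hm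
    subst this
    refine ⟨a, fun _ => 0, ?_⟩
    rw [C_apply]
    simp only [mul_zero, map_zero, Finset.sum_const_zero, add_zero]
  | succ k ih =>
    intro m hm a
    have hne : m ≠ 0 := by
      intro h0
      rw [h0, map_zero] at hm
      omega
    obtain ⟨l, hl⟩ : ∃ l, m l ≠ 0 := by
      by_contra hcon
      push Not at hcon
      exact hne (Finsupp.ext hcon)
    have hle : Finsupp.single l 1 ≤ m := by
      rw [Finsupp.single_le_iff]
      omega
    obtain ⟨m', hm'⟩ := exists_add_of_le hle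
    rw [add_comm] at hm'
    have hdeg : m'.degree = k := by
      rw [hm', map_add, Finsupp.degree_single] at hm
      omega
    have h2 : ((m' l : ℚ) + 2) ≠ 0 := by positivity
    have key := pderiv_fl_mono l m' (a * ((m' l : ℚ) + 2)⁻¹)
    have e : monomial m a = monomial m' (((m' l : ℚ) + 1) * (a * ((m' l : ℚ) + 2)⁻¹)) +
        (-1 : ℚ) • pderiv l ((X l - X l ^ 2) * monomial m' (a * ((m' l : ℚ) + 2)⁻¹)) := by
      rw [key, hm']
      have : ((m' l : ℚ) + 2) * (a * ((m' l : ℚ) + 2)⁻¹) = a := by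
        field_simp
      rw [this, neg_one_smul]
      ring
    rw [e]
    exact isPr_add (ih m' hdeg _) (isPr_smul _ (isPr_pd l _))

private theorem isPr_all {n : ℕ} (s : MvPolynomial (Fin n) ℚ) : IsPr s := by
  induction s using MvPolynomial.induction_on' with
  | monomial m a => exact isPr_mono _ m rfl a
  | add p q hp hq => exact isPr_add hp hq

/-- Every polynomial is its integral plus a sum of `∂_l ((x_l - x_l ^ 2) E_l)`.

Proof: the set of the `s` for which this holds (`s = C a + ∑ ...` for some `a`; then `a = Lam n s` by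
`Lam_pderiv`, `Lam_C`) is closed under sums and scalars, so it is enough to consider `monomial m 1`, by induction
on the degree of `m`: for `m = 0` clear; if `m = m' + single l 1`, then
`pderiv l ((X l - X l ^ 2) * monomial m' 1) = (m' l + 1) * monomial m' 1 - (m' l + 2) * monomial m 1`, so
`monomial m 1 = (m' l + 1) / (m' l + 2) * monomial m' 1 - pderiv l ((X l - X l ^ 2) * monomial m' (1 / (m' l + 2)))`. -/
theorem exists_prim (n : ℕ) (s : MvPolynomial (Fin n) ℚ) :
    ∃ E : Fin n → MvPolynomial (Fin n) ℚ,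
      s = C (Lam n s) + ∑ l, pderiv l ((X l - X l ^ 2) * E l) := by
  obtain ⟨a, E, hE⟩ := isPr_all s
  refine ⟨E, ?_⟩
  have h : Lam n s = a := by
    conv_lhs => rw [hE]
    rw [map_add, Lam_C, map_sum]
    simp only [Lam_pderiv, Finset.sum_const_zero, add_zero]
  rw [h]
  exact hE

private theorem Lam_eq_sum (n : ℕ) (p : MvPolynomial (Fin n) ℚ) :
    Lam n p = ∑ m ∈ p.support, coeff m p * ∏ i, ((m i : ℚ) + 1)⁻¹ := by
  conv_lhs => rw [← MvPolynomial.support_sum_monomial_coeff p]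
  rw [map_sum]
  refine Finset.sum_congr rfl fun m _ => ?_
  rw [Lam_monomial]

/-- Proof: `Lam` is linear, `p = ∑ m ∈ support, monomial m (coeff m p)`, `Lam_monomial`, and the product is in
`[0, 1]`. -/
theorem abs_Lam_le (n : ℕ) (p : MvPolynomial (Fin n) ℚ) : |Lam n p| ≤ l1M p := by
  rw [Lam_eq_sum, l1M]
  refine (Finset.abs_sum_le_sum_abs _ _).trans (Finset.sum_le_sum fun m _ => ?_)
  rw [abs_mul]
  have h1 : |∏ i, ((m i : ℚ) + 1)⁻¹| ≤ 1 := by
    rw [abs_of_nonneg (Finset.prod_nonneg fun i _ => by positivity)]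
    refine Finset.prod_le_one (fun i _ => by positivity) fun i _ => ?_
    refine inv_le_one_of_one_le₀ ?_
    have : (0 : ℚ) ≤ m i := Nat.cast_nonneg _
    linarith
  exact mul_le_of_le_one_right (abs_nonneg _) h1

/-- If all degrees of `p` are at most `N` and `A` is a common denominator of the coefficients, then
`A * (lcm of 1, ..., N + 1) ^ n` is a denominator of the integral.

Proof: `Lam n p = ∑ m ∈ support, coeff m p * ∏ i, (m i + 1)⁻¹`, and `lcmUpto (N + 1) * (m i + 1)⁻¹` is an integer since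
`m i + 1 ≤ N + 1` divides `lcmUpto (N + 1)` (`Finset.dvd_lcm`; `degreeOf` bounds the exponents:
`MvPolynomial.monomial_le_degreeOf`). -/
theorem den_Lam (n : ℕ) (p : MvPolynomial (Fin n) ℚ) (A N : ℕ) (hdeg : ∀ i, p.degreeOf i ≤ N)
    (hA : ∀ m, ∃ z : ℤ, (A : ℚ) * coeff m p = z) :
    ∃ z : ℤ, ((A * Nat.lcmUpto (N + 1) ^ n : ℕ) : ℚ) * Lam n p = z := by
  rw [Lam_eq_sum, Finset.mul_sum]
  have hone : ∀ m ∈ p.support, ∃ z : ℤ, ((A * Nat.lcmUpto (N + 1) ^ n : ℕ) : ℚ) *
      (coeff m p * ∏ i, ((m i : ℚ) + 1)⁻¹) = z := by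
    intro m hm
    have hi : ∀ i, ∃ w : ℤ, (Nat.lcmUpto (N + 1) : ℚ) * ((m i : ℚ) + 1)⁻¹ = w := by
      intro i
      have hmi : m i ≤ N := (MvPolynomial.monomial_le_degreeOf i hm).trans (hdeg i)
      have hd : m i + 1 ∣ Nat.lcmUpto (N + 1) :=
        Finset.dvd_lcm (f := id) (Finset.mem_Icc.mpr ⟨by omega, by omega⟩)
      obtain ⟨q, hq⟩ := hd
      refine ⟨q, ?_⟩
      rw [hq]
      have : ((m i : ℚ) + 1) ≠ 0 := by positivity
      push_cast
      field_simp
    choose w hw using hi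
    obtain ⟨z, hz⟩ := hA m
    refine ⟨z * ∏ i, w i, ?_⟩
    have hpr : ((Nat.lcmUpto (N + 1) : ℚ)) ^ n * ∏ i, ((m i : ℚ) + 1)⁻¹ = ∏ i, (w i : ℚ) := by
      have hc : ((Nat.lcmUpto (N + 1) : ℚ)) ^ n = ∏ _i : Fin n, (Nat.lcmUpto (N + 1) : ℚ) := by
        rw [Finset.prod_const, Finset.card_univ, Fintype.card_fin]
      rw [hc, ← Finset.prod_mul_distrib]
      exact Finset.prod_congr rfl fun i _ => hw i
    push_cast
    rw [← hz, ← hpr]
    ring
  have hsum : ∀ S : Finset (Fin n →₀ ℕ), (∀ m ∈ S, m ∈ p.support) → ∃ z : ℤ,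
      ∑ m ∈ S, ((A * Nat.lcmUpto (N + 1) ^ n : ℕ) : ℚ) *
      (coeff m p * ∏ i, ((m i : ℚ) + 1)⁻¹) = z := by
    classical
    intro S
    induction S using Finset.induction_on with
    | empty => intro _; exact ⟨0, by simp⟩
    | insert m S hmS ih =>
      intro hS
      obtain ⟨z1, h1⟩ := hone m (hS m (Finset.mem_insert_self m S))
      obtain ⟨z2, h2⟩ := ih fun x hx => hS x (Finset.mem_insert_of_mem hx)
      refine ⟨z1 + z2, ?_⟩
      rw [Finset.sum_insert hmS, h1, h2]
      push_cast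
      rfl
  exact hsum _ fun m hm => hm

/-- Proof: `log (lcmUpto N) = ψ N ≤ const * N` (`Chebyshev.psi_eq_log_lcmUpto`, `Chebyshev.psi_le_const_mul_self`). -/
theorem lcmUpto_le : ∃ c : ℕ, 1 ≤ c ∧ ∀ N, Nat.lcmUpto N ≤ c ^ N := by
  obtain ⟨c, hc⟩ := exists_nat_ge (Real.exp (Real.log 4 + 4))
  have hpos : (0 : ℝ) < c := lt_of_lt_of_le (Real.exp_pos _) hc
  refine ⟨c, ?_, fun N => ?_⟩
  · exact Nat.one_le_iff_ne_zero.mpr fun h0 => by rw [h0] at hpos; simp at hpos
  · have h1 := Chebyshev.psi_le_const_mul_self (x := (N : ℝ)) (Nat.cast_nonneg N)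
    rw [Chebyshev.psi_eq_log_lcmUpto] at h1
    have hl : (0 : ℝ) < Nat.lcmUpto N := by exact_mod_cast Nat.lcmUpto_pos N
    have h2 : (Nat.lcmUpto N : ℝ) ≤ (c : ℝ) ^ N := by
      calc (Nat.lcmUpto N : ℝ) = Real.exp (Real.log (Nat.lcmUpto N)) := (Real.exp_log hl).symm
        _ ≤ Real.exp ((Real.log 4 + 4) * N) := Real.exp_le_exp.mpr h1
        _ = Real.exp (Real.log 4 + 4) ^ N := by rw [mul_comm, Real.exp_nat_mul]
        _ ≤ (c : ℝ) ^ N := pow_le_pow_left₀ (Real.exp_pos _).le hc N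
    exact_mod_cast h2

end Pool.Agent.Lib.MP_bbe012_lc.PP
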