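import Pool.Agent.Lib.MP_bbe012_lc.PP.CertDefs
import Pool.Agent.Lib.MP_bbe012_lc.PP.LamL

/-!
# Existence of certificates for non zero values
-/

namespace Pool.Agent.Lib.MP_bbe012_lc.PP

open MvPolynomial MeasureTheory Set

/-- The specialisation `t = τ`. -/
private noncomputable def CompN_sp (n : ℕ) (τ : ℚ) : P1 n →ₐ[ℚ] MvPolynomial (Fin n) ℚ :=
  aeval (Fin.cases (C τ) (fun l => X l))

private theorem CompN_sp_zero (n : ℕ) (τ : ℚ) : CompN_sp n τ (X 0) = C τ := by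
  rw [CompN_sp, aeval_X]
  rfl

private theorem CompN_sp_succ (n : ℕ) (τ : ℚ) (l : Fin n) : CompN_sp n τ (X l.succ) = X l := by
  rw [CompN_sp, aeval_X]
  rfl

private theorem CompN_sp_C (n : ℕ) (τ a : ℚ) : CompN_sp n τ (C a) = C a := by
  rw [CompN_sp, aeval_C]
  rfl

private theorem CompN_sp_rename (n : ℕ) (τ : ℚ) (p : MvPolynomial (Fin n) ℚ) :
    CompN_sp n τ (rename Fin.succ p) = p := by
  rw [CompN_sp, aeval_rename]
  exact aeval_X_left_apply p

private theorem CompN_dvd (n : ℕ) (τ : ℚ) (G : P1 n) :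
    ∃ U : P1 n, G = rename Fin.succ (CompN_sp n τ G) + (X 0 - C τ) * U := by
  induction G using MvPolynomial.induction_on with
  | C a =>
    refine ⟨0, ?_⟩
    rw [CompN_sp_C, rename_C, mul_zero, add_zero]
  | add p q hp hq =>
    obtain ⟨U, hU⟩ := hp
    obtain ⟨V, hV⟩ := hq
    refine ⟨U + V, ?_⟩
    rw [map_add, map_add]
    linear_combination hU + hV
  | mul_X p i hp =>
    obtain ⟨U, hU⟩ := hp
    refine Fin.cases ?_ (fun l => ?_) i
    · refine ⟨rename Fin.succ (CompN_sp n τ p) + U * X 0, ?_⟩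
      rw [map_mul, map_mul, CompN_sp_zero, rename_C]
      linear_combination (X 0) * hU
    · refine ⟨U * X l.succ, ?_⟩
      rw [map_mul, map_mul, CompN_sp_succ, rename_X]
      linear_combination (X l.succ) * hU

private theorem CompN_aeval (n : ℕ) (τ : ℚ) (x : Fin n → ℝ) (G : P1 n) :
    aeval (pt n τ x) G = aeval x (CompN_sp n τ G) := by
  rw [CompN_sp, comp_aeval_apply]
  congr 2
  funext i
  refine Fin.cases ?_ (fun l => ?_) i
  · change (τ : ℝ) = aeval x (C τ)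
    rw [aeval_C]
    rfl
  · change x l = aeval x (X l)
    rw [aeval_X]

private theorem CompN_monomial (n : ℕ) (m : Fin (n + 1) →₀ ℕ) (c : ℚ) :
    (monomial m c : P1 n) = C c * (X 0 ^ m 0 * ∏ l : Fin n, X l.succ ^ m l.succ) := by
  rw [monomial_eq, Finsupp.prod_fintype _ _ (fun i => pow_zero _), Fin.prod_univ_succ]

private theorem CompN_tail (n : ℕ) (m : Fin (n + 1) →₀ ℕ) (c : ℚ) :
    (monomial (Finsupp.tail m) c : MvPolynomial (Fin n) ℚ) = C c * ∏ l : Fin n, X l ^ m l.succ := by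
  rw [monomial_eq, Finsupp.prod_fintype _ _ (fun i => pow_zero _)]
  rfl

private theorem CompN_sp_monomial (n : ℕ) (τ : ℚ) (m : Fin (n + 1) →₀ ℕ) (c : ℚ) :
    CompN_sp n τ (monomial m c) = monomial (Finsupp.tail m) (c * τ ^ m 0) := by
  have h3 : ∏ l : Fin n, CompN_sp n τ (X l.succ ^ m l.succ) =
      ∏ l : Fin n, X l ^ m l.succ := by
    refine Finset.prod_congr rfl fun l _ => ?_
    rw [map_pow, CompN_sp_succ]
  rw [CompN_monomial, CompN_tail, map_mul, map_mul, map_pow, map_prod, CompN_sp_C, CompN_sp_zero,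
    h3, C_mul, C_pow]
  ring

private theorem CompN_atZero_monomial (n : ℕ) (m : Fin (n + 1) →₀ ℕ) (c : ℚ) :
    atZero n (monomial m c) = if m 0 ≠ 0 then 0 else monomial (Finsupp.tail m) c := by
  have h0 : atZero n (X 0) = 0 := by
    rw [atZero, aeval_X]
    rfl
  have h1 : ∀ l : Fin n, atZero n (X l.succ) = X l := fun l => by
    rw [atZero, aeval_X]
    rfl
  have h2 : atZero n (C c) = C c := by
    rw [atZero, aeval_C]
    rfl
  have h3 : ∏ l : Fin n, atZero n (X l.succ ^ m l.succ) = ∏ l : Fin n, X l ^ m l.succ := by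
    refine Finset.prod_congr rfl fun l _ => ?_
    rw [map_pow, h1]
  rw [CompN_monomial, CompN_tail, map_mul, map_mul, map_pow, map_prod, h2, h0, h3]
  by_cases hm : m 0 = 0
  · rw [if_neg (not_not.2 hm), hm, pow_zero, one_mul]
  · rw [if_pos hm, zero_pow hm, zero_mul, mul_zero]

private theorem CompN_l1 {n : ℕ} {Q : P1 n} (hQ : atZero n Q = 1) (τ : ℚ) :
    l1M (CompN_sp n τ Q - 1) ≤ wn n Q τ := by
  have h1 : CompN_sp n τ Q - 1 = ∑ m ∈ Q.support,
      (if m 0 ≠ 0 then monomial (Finsupp.tail m) (coeff m Q * τ ^ m 0) else 0) := by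
    rw [← hQ]
    have h2 : CompN_sp n τ Q = ∑ m ∈ Q.support, CompN_sp n τ (monomial m (coeff m Q)) := by
      rw [← map_sum, ← Q.as_sum]
    have h3 : atZero n Q = ∑ m ∈ Q.support, atZero n (monomial m (coeff m Q)) := by
      rw [← map_sum, ← Q.as_sum]
    rw [h2, h3, ← Finset.sum_sub_distrib]
    refine Finset.sum_congr rfl fun m _ => ?_
    rw [CompN_sp_monomial, CompN_atZero_monomial]
    by_cases hm : m 0 = 0
    · rw [if_neg (not_not.2 hm), if_neg (not_not.2 hm), hm, pow_zero, mul_one, sub_self]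
    · rw [if_pos hm, if_pos hm, sub_zero]
  rw [h1, wn, Finset.sum_filter]
  refine (l1M_sum_le _ _).trans (Finset.sum_le_sum fun m _ => ?_)
  by_cases hm : m 0 = 0
  · rw [if_neg (not_not.2 hm), if_neg (not_not.2 hm), Tame_l1M_zero]
  · rw [if_pos hm, if_pos hm]
    refine (Tame_l1M_monomial _ _).trans (le_of_eq ?_)
    rw [abs_mul, abs_pow]

private theorem CompN_l1_one {n : ℕ} : l1M (1 : MvPolynomial (Fin n) ℚ) ≤ 1 := by
  have h := Tame_l1M_monomial (0 : Fin n →₀ ℕ) 1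
  rw [abs_one] at h
  exact h

private theorem CompN_l1_sub {n : ℕ} (p q : MvPolynomial (Fin n) ℚ) :
    l1M (p - q) ≤ l1M p + l1M q := by
  rw [sub_eq_add_neg, ← Tame_l1M_neg q]
  exact l1M_add_le p (-q)

private theorem CompN_l1_pow {n : ℕ} {u : MvPolynomial (Fin n) ℚ} (hu : l1M u ≤ 1 / 2) (M : ℕ) :
    l1M (u ^ M) ≤ (1 / 2) ^ M := by
  induction M with
  | zero =>
    rw [pow_zero, pow_zero]
    exact CompN_l1_one
  | succ M ih =>
    rw [pow_succ, pow_succ]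
    exact (l1M_mul_le _ _).trans (mul_le_mul ih hu (Tame_l1M_nonneg _) (by positivity))

private theorem CompN_l1_K {n : ℕ} {y : MvPolynomial (Fin n) ℚ} {ε : ℚ} (hy : l1M y ≤ ε)
    (hε : ε ≤ 1) (K : ℕ) : l1M (1 - (1 - y) ^ K) ≤ (2 ^ K - 1) * ε := by
  have h0 : 0 ≤ ε := (Tame_l1M_nonneg y).trans hy
  induction K with
  | zero =>
    rw [pow_zero, sub_self, Tame_l1M_zero, pow_zero, sub_self, zero_mul]
  | succ K ih =>
    have h1 : 1 - (1 - y) ^ (K + 1) = (1 - (1 - y) ^ K) * (1 - y) + y := by ring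
    have h2 : l1M (1 - y) ≤ 2 :=
      (CompN_l1_sub 1 y).trans (by linarith [CompN_l1_one (n := n)])
    rw [h1]
    calc l1M ((1 - (1 - y) ^ K) * (1 - y) + y)
        ≤ l1M ((1 - (1 - y) ^ K) * (1 - y)) + l1M y := l1M_add_le _ _
      _ ≤ l1M (1 - (1 - y) ^ K) * l1M (1 - y) + l1M y := by
          have h3 := l1M_mul_le (1 - (1 - y) ^ K) (1 - y)
          linarith
      _ ≤ (2 ^ K - 1) * ε * 2 + ε := by
          have h4 : l1M (1 - (1 - y) ^ K) * l1M (1 - y) ≤ (2 ^ K - 1) * ε * 2 :=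
            mul_le_mul ih h2 (Tame_l1M_nonneg _) ((Tame_l1M_nonneg _).trans ih)
          linarith
      _ = (2 ^ (K + 1) - 1) * ε := by ring

/-- The integral is close to `Lam n W`. -/
private theorem CompN_int {n : ℕ} {Q : P1 n} (hQ : atZero n Q = 1) {τ : ℚ}
    (hτ : wn n Q τ ≤ 1 / 2) (G : P1 n) (K : ℕ) (W : MvPolynomial (Fin n) ℚ) :
    |JJ n Q G K τ - ((Lam n W : ℚ) : ℝ)| ≤
      ((2 ^ K * l1M (CompN_sp n τ G - CompN_sp n τ Q ^ K * W) : ℚ) : ℝ) := by
  set R : MvPolynomial (Fin n) ℚ := CompN_sp n τ G - CompN_sp n τ Q ^ K * W with hR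
  have hRe : ∀ x : Fin n → ℝ, aeval (pt n τ x) (rename Fin.succ R : P1 n) = aeval x R := by
    intro x
    rw [CompN_aeval, CompN_sp_rename]
  have hWe : ∀ x : Fin n → ℝ, aeval (pt n τ x) (rename Fin.succ W : P1 n) = aeval x W := by
    intro x
    rw [CompN_aeval, CompN_sp_rename]
  have hWint : IntegrableOn (fun x : Fin n → ℝ => aeval x W) (Icc (0 : Fin n → ℝ) 1) := by
    have h1 := integrableOn_frac hQ hτ (rename Fin.succ W) 0
    simp only [pow_zero, div_one, hWe] at h1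
    exact h1
  have hRint : IntegrableOn (fun x : Fin n → ℝ => aeval x R / aeval (pt n τ x) Q ^ K)
      (Icc (0 : Fin n → ℝ) 1) := by
    have h1 := integrableOn_frac hQ hτ (rename Fin.succ R) K
    simp only [hRe] at h1
    exact h1
  have hfun : EqOn (fun x => aeval (pt n τ x) G / aeval (pt n τ x) Q ^ K)
      (fun x => aeval x W + aeval x R / aeval (pt n τ x) Q ^ K) (Icc (0 : Fin n → ℝ) 1) := by
    intro x hx
    have hpos : 0 < aeval (pt n τ x) Q := lt_of_lt_of_le (by norm_num) (half_le hQ hτ hx)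
    have hne : aeval (pt n τ x) Q ^ K ≠ 0 := (pow_pos hpos K).ne'
    change aeval (pt n τ x) G / aeval (pt n τ x) Q ^ K =
      aeval x W + aeval x R / aeval (pt n τ x) Q ^ K
    have h1 : aeval x R = aeval (pt n τ x) G - aeval (pt n τ x) Q ^ K * aeval x W := by
      rw [hR, map_sub, map_mul, map_pow, ← CompN_aeval, ← CompN_aeval]
    rw [h1, sub_div, mul_div_cancel_left₀ _ hne]
    ring
  have hJ : JJ n Q G K τ - ((Lam n W : ℚ) : ℝ) =
      ∫ x in Icc (0 : Fin n → ℝ) 1, aeval x R / aeval (pt n τ x) Q ^ K := by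
    unfold JJ
    rw [setIntegral_congr_fun measurableSet_Icc hfun, integral_add hWint hRint, integral_poly]
    ring
  have hb : ∀ x ∈ Icc (0 : Fin n → ℝ) 1, ‖aeval x R / aeval (pt n τ x) Q ^ K‖ ≤
      ((2 ^ K * l1M R : ℚ) : ℝ) := by
    intro x hx
    have h2 := half_le hQ hτ hx
    have hpos : 0 < aeval (pt n τ x) Q := lt_of_lt_of_le (by norm_num) h2
    rw [Real.norm_eq_abs, abs_div, abs_of_pos (pow_pos hpos K), div_le_iff₀ (pow_pos hpos K)]
    have h3 : (1 / 2 : ℝ) ^ K ≤ aeval (pt n τ x) Q ^ K := pow_le_pow_left₀ (by norm_num) h2 K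
    have h4 := abs_aeval_le n R hx
    have h5 : (0 : ℝ) ≤ ((l1M R : ℚ) : ℝ) := (abs_nonneg _).trans h4
    have h6 : (2 : ℝ) ^ K * (1 / 2) ^ K = 1 := by
      rw [← mul_pow]
      norm_num
    push_cast
    calc |aeval x R| ≤ ((l1M R : ℚ) : ℝ) := h4
      _ = ((2 : ℝ) ^ K * ((l1M R : ℚ) : ℝ)) * (1 / 2) ^ K := by
          rw [mul_right_comm, h6, one_mul]
      _ ≤ (2 : ℝ) ^ K * ((l1M R : ℚ) : ℝ) * aeval (pt n τ x) Q ^ K :=
          mul_le_mul_of_nonneg_left h3 (mul_nonneg (by positivity) h5)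
  have hvol : volume.real (Icc (0 : Fin n → ℝ) 1) = 1 := by
    have h1 := integral_poly n 1
    have h2 : Lam n (1 : MvPolynomial (Fin n) ℚ) = 1 := by
      have h3 := Lam_C n 1
      rwa [C_1] at h3
    rw [h2] at h1
    simp only [map_one] at h1
    rw [setIntegral_const, smul_eq_mul, mul_one, Rat.cast_one] at h1
    exact h1
  have h7 := norm_setIntegral_le_of_norm_le_const (μ := volume)
    (isCompact_Icc (a := (0 : Fin n → ℝ)) (b := 1)).measure_lt_top hb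
  rw [hvol, mul_one, Real.norm_eq_abs] at h7
  rw [hJ]
  exact h7

/-- Completeness, with `s = l1M R` and `R` not involving `t`.

Proof. For a polynomial `P` in `x` write `P' = rename Fin.succ P`. Let `Gτ`, `Qτ ∈ ℚ[x]` be the specialisations at
`t = τ`; `G - Gτ'` is divisible by `X 0 - C τ` (a polynomial vanishing for `X 0 = τ`), so is `Q ^ K * W - (Qτ ^ K)' * W`.
`Qτ = 1 - u` with `l1M u ≤ 1 / 2` (`wn`). Let `V_M = ∑_{j<M} u ^ j`, so `Qτ * V_M = 1 - u ^ M`. Put `W = Gτ * V_M ^ K`,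
`R₀ = Gτ - Qτ ^ K * W = Gτ * (1 - (1 - u ^ M) ^ K)`, so `l1M R₀ ≤ l1M Gτ * 2 ^ K * 2^{-M}` (for `M ≥ 1`, expand), which tends
to `0`; by `exists_prim`, `W = C a + ∑ ∂_l (f_l E_l)` with `a = Lam n W`, and `a = JJ - ∫ R₀ / Qτ ^ K → JJ ≠ 0`. For `M`
large `2 ^ K * l1M R₀ < |a|`. Take `E l = (E_l)'`, `R = R₀'`, `U` from the divisibility. -/
theorem exists_neCert {n : ℕ} {Q : P1 n} (hQ : atZero n Q = 1) {τ : ℚ} (hτ : wn n Q τ ≤ 1 / 2)
    {G : P1 n} {K : ℕ} (h : JJ n Q G K τ ≠ 0) :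
    ∃ (a : ℚ) (E : Fin n → P1 n) (R : MvPolynomial (Fin n) ℚ) (U : P1 n),
      IsNeCert n Q G K τ a (l1M R) E (rename Fin.succ R) U := by
  set u : MvPolynomial (Fin n) ℚ := 1 - CompN_sp n τ Q with hu
  have hu2 : l1M u ≤ 1 / 2 := by
    have h1 : u = -(CompN_sp n τ Q - 1) := by rw [hu]; ring
    rw [h1, Tame_l1M_neg]
    exact (CompN_l1 hQ τ).trans hτ
  set g : ℝ := ((l1M (CompN_sp n τ G) : ℚ) : ℝ) with hg
  have hg0 : 0 ≤ g := by
    rw [hg]
    exact_mod_cast Tame_l1M_nonneg (CompN_sp n τ G)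
  have hJ0 : 0 < |JJ n Q G K τ| := abs_pos.2 h
  have hden : (0 : ℝ) < 2 * 2 ^ K * 2 ^ K * (g + 1) := by positivity
  obtain ⟨M, hM⟩ := exists_pow_lt_of_lt_one (div_pos hJ0 hden) (by norm_num : (1 / 2 : ℝ) < 1)
  rw [lt_div_iff₀ hden] at hM
  set W : MvPolynomial (Fin n) ℚ :=
    CompN_sp n τ G * (∑ j ∈ Finset.range M, u ^ j) ^ K with hW
  set R : MvPolynomial (Fin n) ℚ := CompN_sp n τ G - CompN_sp n τ Q ^ K * W with hR
  have hR2 : R = CompN_sp n τ G * (1 - (1 - u ^ M) ^ K) := by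
    have h1 : CompN_sp n τ Q = 1 - u := by rw [hu]; ring
    have h2 := mul_neg_geom_sum u M
    rw [hR, hW, h1, ← h2, mul_pow]
    ring
  have hRl : l1M R ≤ l1M (CompN_sp n τ G) * ((2 ^ K - 1) * (1 / 2) ^ M) := by
    rw [hR2]
    refine (l1M_mul_le _ _).trans (mul_le_mul_of_nonneg_left ?_ (Tame_l1M_nonneg _))
    exact CompN_l1_K (CompN_l1_pow hu2 M) (pow_le_one₀ (by norm_num) (by norm_num)) K
  have hRr : ((2 ^ K * l1M R : ℚ) : ℝ) * 2 < |JJ n Q G K τ| := by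
    have h1 : ((l1M R : ℚ) : ℝ) ≤ g * ((2 ^ K - 1) * (1 / 2) ^ M) := by
      have h2 : ((l1M R : ℚ) : ℝ) ≤
          ((l1M (CompN_sp n τ G) * ((2 ^ K - 1) * (1 / 2) ^ M) : ℚ) : ℝ) := Rat.cast_le.2 hRl
      rw [hg]
      push_cast at h2 ⊢
      exact h2
    have h3 : (0 : ℝ) < (1 / 2) ^ M := by positivity
    have h4 : (1 : ℝ) ≤ 2 ^ K := one_le_pow₀ (by norm_num)
    have h5 : g * ((2 ^ K - 1) * (1 / 2 : ℝ) ^ M) ≤ (g + 1) * (2 ^ K * (1 / 2) ^ M) := by
      refine mul_le_mul (by linarith) ?_ ?_ (by linarith)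
      · exact mul_le_mul_of_nonneg_right (by linarith) h3.le
      · exact mul_nonneg (by linarith) h3.le
    push_cast
    calc (2 : ℝ) ^ K * ((l1M R : ℚ) : ℝ) * 2
        ≤ (2 : ℝ) ^ K * ((g + 1) * (2 ^ K * (1 / 2) ^ M)) * 2 := by
          refine mul_le_mul_of_nonneg_right ?_ (by norm_num)
          exact mul_le_mul_of_nonneg_left (h1.trans h5) (by positivity)
      _ = (1 / 2 : ℝ) ^ M * (2 * 2 ^ K * 2 ^ K * (g + 1)) := by ring
      _ < |JJ n Q G K τ| := hM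
  have hclose := CompN_int hQ hτ G K W
  rw [← hR] at hclose
  obtain ⟨E0, hE0⟩ := exists_prim n W
  obtain ⟨U, hU⟩ := CompN_dvd n τ (G - Q ^ K * rename Fin.succ W)
  have hsp : CompN_sp n τ (G - Q ^ K * rename Fin.succ W) = R := by
    rw [map_sub (CompN_sp n τ), map_mul (CompN_sp n τ), map_pow (CompN_sp n τ), CompN_sp_rename]
  rw [hsp] at hU
  have hsum : (C (Lam n W) : P1 n) + ∑ l, pderiv l.succ (fl n l * rename Fin.succ (E0 l)) =
      rename Fin.succ W := by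
    have h1 : ∀ l : Fin n, pderiv l.succ (fl n l * rename Fin.succ (E0 l)) =
        rename Fin.succ (pderiv l ((X l - X l ^ 2) * E0 l)) := by
      intro l
      have h2 : fl n l * rename Fin.succ (E0 l) = rename Fin.succ ((X l - X l ^ 2) * E0 l) := by
        rw [fl, map_mul, map_sub, map_pow, rename_X]
      rw [h2, pderiv_rename (Fin.succ_injective n)]
    rw [Finset.sum_congr rfl fun l _ => h1 l, ← map_sum]
    conv_rhs => rw [hE0]
    rw [map_add, rename_C]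
  refine ⟨Lam n W, fun l => rename Fin.succ (E0 l), R, U, ⟨?_, ?_, ?_⟩⟩
  · rw [hsum]
    linear_combination hU
  · intro x hx
    rw [CompN_aeval, CompN_sp_rename]
    exact abs_aeval_le n R hx
  · have h1 : |JJ n Q G K τ| ≤ |JJ n Q G K τ - ((Lam n W : ℚ) : ℝ)| + |((Lam n W : ℚ) : ℝ)| := by
      have h2 := abs_add_le (JJ n Q G K τ - ((Lam n W : ℚ) : ℝ)) ((Lam n W : ℚ) : ℝ)
      rwa [sub_add_cancel] at h2
    have h3 : ((2 ^ K * l1M R : ℚ) : ℝ) < ((|Lam n W| : ℚ) : ℝ) := by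
      rw [Rat.cast_abs]
      linarith
    exact Rat.cast_lt.1 h3

end Pool.Agent.Lib.MP_bbe012_lc.PP
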