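import Pool.Agent.Lib.MP_bbe012_lc.Growth

/-!
# Finite dimensional cokernel for the operators `D_i (X_i - X_i ^ 2)`
-/

namespace Pool.Agent.Lib.MP_bbe012_lc.PP

open Module Pool.Agent.Lib.MP_bbe012_lc

variable {𝕜 : Type*} [Field 𝕜] [CharZero 𝕜]

/-- The operator `D (X - X ^ 2)`. -/
noncomputable def opF {V : Type*} [AddCommGroup V] [Module 𝕜 V] (X D : V →ₗ[𝕜] V) : V →ₗ[𝕜] V :=
  D ∘ₗ (X - X ∘ₗ X)

/-- Growth of the kernel of `D (X - X ^ 2)`.

Proof. `ker (D ∘ (X - X²)) ⊓ Γ k` has dimension at most `dim (ker (X - X²) ⊓ Γ k) + dim (ker D ⊓ Γ (k + 2))`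
(restrict `X - X²`, which maps `Γ k` to `Γ (k + 2)`, to this subspace: rank-nullity). And
`ker (X - X²) ⊓ Γ k`: `v = (v - X v) + X v` with `X v ∈ ker (X - 1)`, `v - X v ∈ ker X`, so its dimension is at most
`dim (ker X ⊓ Γ (k + 1)) + dim (ker (X - 1) ⊓ Γ (k + 1))`. Use `ker_growth` three times: for `(X, D)`; for
`(X, D) := (-D, X)` (the relation `X (-D v) = -D (X v) + v`); and for `(X, D) := (-D, X - 1)`. With
`finrank (Γ k) ≤ C (k + 1) ^ (n + 1)` one gets `(k + 1) * dim ≤ 3 * C * (2 k + 6) ^ (n + 1)` or a similar bound, hence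
`dim ≤ 3 * C * 6 ^ (n + 1) * (k + 1) ^ n`. -/
theorem kerF_growth {V : Type*} [AddCommGroup V] [Module 𝕜 V] {X D : V →ₗ[𝕜] V}
    {Γ : ℕ → Submodule 𝕜 V} {C n : ℕ} (h : ∀ v, D (X v) = X (D v) + v) (mono : Monotone Γ)
    (hX : ∀ k v, v ∈ Γ k → X v ∈ Γ (k + 1)) (hD : ∀ k v, v ∈ Γ k → D v ∈ Γ (k + 1))
    (fin : ∀ k, FiniteDimensional 𝕜 (Γ k)) (growth : ∀ k, finrank 𝕜 (Γ k) ≤ C * (k + 1) ^ (n + 1))
    (k : ℕ) :
    finrank 𝕜 (LinearMap.ker (opF X D) ⊓ Γ k : Submodule 𝕜 V) ≤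
      3 * C * 6 ^ (n + 1) * (k + 1) ^ n := by
  have hf1 := fin k
  have hf2 := fin (k + 1)
  have hf3 := fin (k + 2)
  obtain ⟨Y, hY⟩ : ∃ Y : V →ₗ[𝕜] V, Y = X - X ∘ₗ X := ⟨_, rfl⟩
  have hYv : ∀ v, Y v = X v - X (X v) := fun v => by rw [hY]; rfl
  have hop : ∀ v, opF X D v = D (Y v) := fun v => by rw [hY]; rfl
  obtain ⟨P, hP⟩ : ∃ P : Submodule 𝕜 V, P = LinearMap.ker (opF X D) ⊓ Γ k := ⟨_, rfl⟩
  have hPf : FiniteDimensional 𝕜 P := by
    rw [hP]; exact Submodule.finiteDimensional_of_le inf_le_right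
  obtain ⟨Z, hZ⟩ : ∃ Z : V →ₗ[𝕜] V, Z = X - LinearMap.id := ⟨_, rfl⟩
  have hZv : ∀ v, Z v = X v - v := fun v => by rw [hZ]; rfl
  have a0 : FiniteDimensional 𝕜 (LinearMap.ker D ⊓ Γ (k + 2) : Submodule 𝕜 V) :=
    Submodule.finiteDimensional_of_le inf_le_right
  have a1 : FiniteDimensional 𝕜 (LinearMap.ker X ⊓ Γ (k + 1) : Submodule 𝕜 V) :=
    Submodule.finiteDimensional_of_le inf_le_right
  have a2 : FiniteDimensional 𝕜 (LinearMap.ker Z ⊓ Γ (k + 1) : Submodule 𝕜 V) :=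
    Submodule.finiteDimensional_of_le inf_le_right
  have e1 := finrank_map_add_inf Y P
  have e2 : finrank 𝕜 (P.map Y) ≤ finrank 𝕜 (LinearMap.ker D ⊓ Γ (k + 2) : Submodule 𝕜 V) := by
    refine Submodule.finrank_mono ?_
    rintro _ ⟨v, hv, rfl⟩
    rw [hP] at hv
    refine ⟨?_, ?_⟩
    · have h1 := hv.1
      rw [SetLike.mem_coe, LinearMap.mem_ker, hop] at h1
      exact h1
    · rw [hYv]
      exact Submodule.sub_mem _ (mono (by omega) (hX k v hv.2)) (hX _ _ (hX k v hv.2))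
  have e3 : finrank 𝕜 (LinearMap.ker Y ⊓ P : Submodule 𝕜 V) ≤
      finrank 𝕜 (LinearMap.ker X ⊓ Γ (k + 1) : Submodule 𝕜 V) +
        finrank 𝕜 (LinearMap.ker Z ⊓ Γ (k + 1) : Submodule 𝕜 V) := by
    refine le_trans (Submodule.finrank_mono ?_)
      (Submodule.finrank_add_le_finrank_add_finrank (LinearMap.ker X ⊓ Γ (k + 1))
        (LinearMap.ker Z ⊓ Γ (k + 1)))
    intro v hv
    have h1 : X v - X (X v) = 0 := by
      have := hv.1
      rw [SetLike.mem_coe, LinearMap.mem_ker, hYv] at this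
      exact this
    have h2 : v ∈ Γ k := by
      have := hv.2
      rw [hP] at this
      exact this.2
    refine Submodule.mem_sup.mpr ⟨v - X v, ⟨?_, ?_⟩, X v, ⟨?_, ?_⟩, by abel⟩
    · rw [SetLike.mem_coe, LinearMap.mem_ker, map_sub]; exact h1
    · exact Submodule.sub_mem _ (mono (by omega) h2) (hX k v h2)
    · rw [SetLike.mem_coe, LinearMap.mem_ker, hZv, ← neg_sub, h1, neg_zero]
    · exact hX k v h2
  have g1 := ker_growth (X := X) (D := D) h mono hX fin (k + 2)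
  have g2 := ker_growth (X := -D) (D := X) (Γ := Γ) (fun v => by
    rw [LinearMap.neg_apply, LinearMap.neg_apply, map_neg, h]; abel) mono
    (fun j v hv => by rw [LinearMap.neg_apply]; exact Submodule.neg_mem _ (hD j v hv)) fin (k + 1)
  have g3 := ker_growth (X := -D) (D := Z) (Γ := Γ) (fun v => by
    rw [LinearMap.neg_apply, LinearMap.neg_apply, hZv, hZv, map_neg, map_sub, h]; abel) mono
    (fun j v hv => by rw [LinearMap.neg_apply]; exact Submodule.neg_mem _ (hD j v hv)) fin (k + 1)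
  have gen : ∀ d m : ℕ, (k + 1) * d ≤ finrank 𝕜 (Γ m) → m ≤ 2 * (k + 2) →
      d ≤ C * 6 ^ (n + 1) * (k + 1) ^ n := by
    intro d m hd hm
    have h1 : (k + 1) * d ≤ (k + 1) * (C * 6 ^ (n + 1) * (k + 1) ^ n) := by
      refine (hd.trans (growth m)).trans ?_
      calc C * (m + 1) ^ (n + 1) ≤ C * (6 * (k + 1)) ^ (n + 1) :=
            Nat.mul_le_mul_left _ (Nat.pow_le_pow_left (by omega) _)
        _ = (k + 1) * (C * 6 ^ (n + 1) * (k + 1) ^ n) := by rw [mul_pow]; ring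
    exact Nat.le_of_mul_le_mul_left h1 (Nat.succ_pos k)
  have b1 := gen _ _ (le_trans (Nat.mul_le_mul_right _ (by omega)) g1) (by omega)
  have b2 := gen _ _ (le_trans (Nat.mul_le_mul_right _ (by omega)) g2) (by omega)
  have b3 := gen _ _ (le_trans (Nat.mul_le_mul_right _ (by omega)) g3) (by omega)
  have e4 : 3 * C * 6 ^ (n + 1) * (k + 1) ^ n = C * 6 ^ (n + 1) * (k + 1) ^ n +
      C * 6 ^ (n + 1) * (k + 1) ^ n + C * 6 ^ (n + 1) * (k + 1) ^ n := by ring
  rw [← hP, e4]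
  omega

/-- Growth of the cokernel of `D (X - X ^ 2)`: some constant `C'`.

Proof: as `coker_growth` in `Growth.lean`. Apply `exists_small_increment` to `k ↦ finrank (Γ (3 k))`
(growth constant `C * 3 ^ (n + 1)`) and `K`: there is `k` with `K ≤ k ≤ 2 K` and
`finrank (Γ (3 k + 3)) ≤ finrank (Γ (3 k)) + C 3 ^ (n+1) 2 ^ (n+1) (K + 1) ^ n`. `opF` maps `Γ (3 k)` to `Γ (3 k + 3)`,
rank-nullity (`finrank_map_add_inf`) and `kerF_growth` for `3 k`. -/
theorem cokerF_growth {V : Type*} [AddCommGroup V] [Module 𝕜 V] {X D : V →ₗ[𝕜] V}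
    {Γ : ℕ → Submodule 𝕜 V} {C n : ℕ} (h : ∀ v, D (X v) = X (D v) + v) (mono : Monotone Γ)
    (hX : ∀ k v, v ∈ Γ k → X v ∈ Γ (k + 1)) (hD : ∀ k v, v ∈ Γ k → D v ∈ Γ (k + 1))
    (fin : ∀ k, FiniteDimensional 𝕜 (Γ k)) (growth : ∀ k, finrank 𝕜 (Γ k) ≤ C * (k + 1) ^ (n + 1)) :
    ∃ C' : ℕ, ∀ K : ℕ,
      finrank 𝕜 ((Γ K).map (LinearMap.range (opF X D)).mkQ) ≤ C' * (K + 1) ^ n := by
  refine ⟨C * 3 ^ (n + 1) * 2 ^ (n + 1) + 3 * C * 6 ^ (n + 1) * 6 ^ n, fun K => ?_⟩
  obtain ⟨k, hk1, hk2, hk3⟩ := exists_small_increment (fun k => finrank 𝕜 (Γ (3 * k)))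
    (C * 3 ^ (n + 1)) n (fun k => by
      refine (growth (3 * k)).trans ?_
      calc C * (3 * k + 1) ^ (n + 1) ≤ C * (3 * (k + 1)) ^ (n + 1) :=
            Nat.mul_le_mul_left _ (Nat.pow_le_pow_left (by omega) _)
        _ = C * 3 ^ (n + 1) * (k + 1) ^ (n + 1) := by rw [mul_pow]; ring) K
  have := fin (3 * k)
  have := fin (3 * (k + 1))
  have := fin K
  have e1 := finrank_map_add_inf (LinearMap.range (opF X D)).mkQ (Γ (3 * (k + 1)))
  have e2 := finrank_map_add_inf (opF X D) (Γ (3 * k))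
  rw [Submodule.ker_mkQ] at e1
  have e3 : finrank 𝕜 ((Γ (3 * k)).map (opF X D)) ≤
      finrank 𝕜 (LinearMap.range (opF X D) ⊓ Γ (3 * (k + 1)) : Submodule 𝕜 V) := by
    have : FiniteDimensional 𝕜 (LinearMap.range (opF X D) ⊓ Γ (3 * (k + 1)) : Submodule 𝕜 V) :=
      Submodule.finiteDimensional_of_le inf_le_right
    refine Submodule.finrank_mono (le_inf (LinearMap.map_le_range) ?_)
    rintro _ ⟨v, hv, rfl⟩
    have h1 : X v - X (X v) ∈ Γ (3 * k + 2) :=
      Submodule.sub_mem _ (mono (by omega) (hX _ v hv)) (hX _ _ (hX _ v hv))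
    exact hD (3 * k + 2) _ h1
  have e4 : finrank 𝕜 ((Γ K).map (LinearMap.range (opF X D)).mkQ) ≤
      finrank 𝕜 ((Γ (3 * (k + 1))).map (LinearMap.range (opF X D)).mkQ) :=
    Submodule.finrank_mono (Submodule.map_mono (mono (by omega)))
  have e5 := kerF_growth h mono hX hD fin growth (3 * k)
  have e7 : 3 * C * 6 ^ (n + 1) * (3 * k + 1) ^ n ≤ 3 * C * 6 ^ (n + 1) * (6 ^ n * (K + 1) ^ n) := by
    refine Nat.mul_le_mul_left _ ?_
    rw [← mul_pow]
    exact Nat.pow_le_pow_left (by omega) _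
  have e8 : (C * 3 ^ (n + 1) * 2 ^ (n + 1) + 3 * C * 6 ^ (n + 1) * 6 ^ n) * (K + 1) ^ n =
      C * 3 ^ (n + 1) * 2 ^ (n + 1) * (K + 1) ^ n +
        3 * C * 6 ^ (n + 1) * (6 ^ n * (K + 1) ^ n) := by ring
  rw [e8]
  omega

/-- The analogue of `Weyl.coker_finite` for the operators `D_i (X_i - X_i ^ 2)`.

Proof: copy the proof of `Weyl.coker_finite` (`Growth.lean`), with `R = range (opF Xn Dn)`, which is stable
under `X i.castSucc` and `D i.castSucc` because these commute with `Xn` and `Dn` (`hW.XX`, `hW.DD`, `hW.DX` for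
`i ≠ last`), and with `cokerF_growth` instead of `coker_growth`. The induced operators `opF (X' i) (D' i)` on the
quotient are induced by `opF (X i.castSucc) (D i.castSucc)`. -/
theorem cokerF_finite {n : ℕ} {V : Type*} [AddCommGroup V] [Module 𝕜 V]
    {X D : Fin n → V →ₗ[𝕜] V} {Γ : ℕ → Submodule 𝕜 V} {C : ℕ} (hW : Weyl n X D Γ C) :
    ∃ F : Submodule 𝕜 V, FiniteDimensional 𝕜 F ∧ F ⊔ ⨆ i, LinearMap.range (opF (X i) (D i)) = ⊤ := by
  induction n generalizing V C with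
  | zero =>
    obtain ⟨k, hk⟩ : ∃ k, ∀ j, finrank 𝕜 (Γ j) ≤ finrank 𝕜 (Γ k) := by
      by_contra hcon
      push Not at hcon
      have h1 : ∀ i, ∃ k, i ≤ finrank 𝕜 (Γ k) := by
        intro i
        induction i with
        | zero => exact ⟨0, Nat.zero_le _⟩
        | succ i ih =>
          obtain ⟨k, hk⟩ := ih
          obtain ⟨j, hj⟩ := hcon k
          exact ⟨j, by omega⟩
      obtain ⟨k, hk⟩ := h1 (C + 1)
      have := hW.growth k
      simp at this
      omega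
    have := hW.fin k
    refine ⟨Γ k, hW.fin k, ?_⟩
    rw [eq_top_iff]
    intro v _
    refine Submodule.mem_sup_left ?_
    obtain ⟨j, hj⟩ := hW.exh v
    have := hW.fin (max j k)
    have h1 : Γ k = Γ (max j k) :=
      Submodule.eq_of_le_of_finrank_le (hW.mono (le_max_right _ _)) (hk _)
    rw [h1]
    exact hW.mono (le_max_left _ _) hj
  | succ n ih =>
    obtain ⟨Dn, hDn⟩ : ∃ Dn, Dn = D (Fin.last n) := ⟨_, rfl⟩
    obtain ⟨Xn, hXn⟩ : ∃ Xn, Xn = X (Fin.last n) := ⟨_, rfl⟩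
    obtain ⟨R, hR⟩ : ∃ R, R = LinearMap.range (opF Xn Dn) := ⟨_, rfl⟩
    have hrel : ∀ v, Dn (Xn v) = Xn (Dn v) + v := by
      intro v
      have := hW.DX (Fin.last n) (Fin.last n) v
      rw [if_pos rfl] at this
      rw [hDn, hXn]
      exact this
    have hopv : ∀ (A B : V →ₗ[𝕜] V) v, opF A B v = B (A v - A (A v)) := fun A B v => rfl
    have hDX : ∀ (i : Fin n) v, D i.castSucc (Xn v) = Xn (D i.castSucc v) := by
      intro i v
      have := hW.DX i.castSucc (Fin.last n) v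
      rw [if_neg (Fin.castSucc_lt_last i).ne, add_zero] at this
      rw [hXn]
      exact this
    have hXD : ∀ (i : Fin n) v, X i.castSucc (Dn v) = Dn (X i.castSucc v) := by
      intro i v
      have := hW.DX (Fin.last n) i.castSucc v
      rw [if_neg (Fin.castSucc_lt_last i).ne', add_zero] at this
      rw [hDn]
      exact this.symm
    have hDD : ∀ (i : Fin n) v, D i.castSucc (Dn v) = Dn (D i.castSucc v) := by
      intro i v
      rw [hDn]
      exact hW.DD _ _ _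
    have hXX : ∀ (i : Fin n) v, X i.castSucc (Xn v) = Xn (X i.castSucc v) := by
      intro i v
      rw [hXn]
      exact hW.XX _ _ _
    have hDR : ∀ i : Fin n, R ≤ R.comap (D i.castSucc) := by
      intro i
      rw [hR]
      rintro _ ⟨v, rfl⟩
      refine ⟨D i.castSucc v, ?_⟩
      rw [hopv, hopv, hDD, map_sub (D i.castSucc), hDX, hDX, hDX]
    have hXR : ∀ i : Fin n, R ≤ R.comap (X i.castSucc) := by
      intro i
      rw [hR]
      rintro _ ⟨v, rfl⟩
      refine ⟨X i.castSucc v, ?_⟩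
      rw [hopv, hopv, hXD, map_sub (X i.castSucc), hXX, hXX, hXX]
    let D' : Fin n → (V ⧸ R) →ₗ[𝕜] (V ⧸ R) := fun i => R.mapQ R (D i.castSucc) (hDR i)
    let X' : Fin n → (V ⧸ R) →ₗ[𝕜] (V ⧸ R) := fun i => R.mapQ R (X i.castSucc) (hXR i)
    have hD' : ∀ i v, D' i (R.mkQ v) = R.mkQ (D i.castSucc v) := fun i v => rfl
    have hX' : ∀ i v, X' i (R.mkQ v) = R.mkQ (X i.castSucc v) := fun i v => rfl
    have hsurj : Function.Surjective R.mkQ := Submodule.mkQ_surjective R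
    obtain ⟨C', hC'⟩ := cokerF_growth (X := Xn) (D := Dn) (Γ := Γ) (C := C) (n := n) hrel hW.mono
      (by rw [hXn]; exact hW.Xmem _) (by rw [hDn]; exact hW.Dmem _) hW.fin hW.growth
    have hW' : Weyl n X' D' (fun k => (Γ k).map R.mkQ) C' := by
      refine ⟨?_, ?_, ?_, ?_, ?_, ?_, ?_, ?_, ?_⟩
      · intro i j w
        obtain ⟨v, rfl⟩ := hsurj w
        rw [hX', hX', hX', hX', hW.XX]
      · intro i j w
        obtain ⟨v, rfl⟩ := hsurj w
        rw [hD', hD', hD', hD', hW.DD]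
      · intro i j w
        obtain ⟨v, rfl⟩ := hsurj w
        rw [hX', hD', hD', hX', hW.DX, map_add]
        congr 1
        by_cases hij : i = j
        · rw [if_pos hij, if_pos (by rw [hij])]
        · rw [if_neg hij, if_neg (fun h => hij (Fin.castSucc_injective _ h)), map_zero]
      · intro a b hab
        exact Submodule.map_mono (hW.mono hab)
      · intro w
        obtain ⟨v, rfl⟩ := hsurj w
        obtain ⟨k, hk⟩ := hW.exh v
        exact ⟨k, Submodule.mem_map_of_mem hk⟩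
      · rintro i k _ ⟨v, hv, rfl⟩
        exact ⟨_, hW.Xmem _ _ _ hv, rfl⟩
      · rintro i k _ ⟨v, hv, rfl⟩
        exact ⟨_, hW.Dmem _ _ _ hv, rfl⟩
      · intro k
        have := hW.fin k
        infer_instance
      · intro k
        have h1 := hC' k
        rw [← hR] at h1
        exact h1
    obtain ⟨F', hF', hF'top⟩ := ih hW'
    obtain ⟨s, hs⟩ := (Submodule.fg_iff_finiteDimensional F').mpr hF'
    choose lift hlift using hsurj
    refine ⟨Submodule.span 𝕜 (lift '' (s : Set (V ⧸ R))), ?_, ?_⟩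
    · exact FiniteDimensional.span_of_finite 𝕜 ((Finset.finite_toSet s).image _)
    · rw [eq_top_iff]
      intro v _
      have h1 : R.mkQ v ∈ F' ⊔ ⨆ i, LinearMap.range (opF (X' i) (D' i)) := by
        rw [hF'top]; trivial
      have h2 : F' ⊔ (⨆ i, LinearMap.range (opF (X' i) (D' i))) ≤
          Submodule.map R.mkQ (Submodule.span 𝕜 (lift '' (s : Set (V ⧸ R))) ⊔
            ⨆ i, LinearMap.range (opF (X i) (D i))) := by
        refine sup_le ?_ (iSup_le fun i => ?_)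
        · rw [← hs, Submodule.span_le]
          intro w hw
          refine ⟨lift w, ?_, hlift w⟩
          exact Submodule.mem_sup_left (Submodule.subset_span ⟨w, hw, rfl⟩)
        · rintro _ ⟨w, rfl⟩
          obtain ⟨u, rfl⟩ := Submodule.mkQ_surjective R w
          refine ⟨opF (X i.castSucc) (D i.castSucc) u, ?_, ?_⟩
          · exact Submodule.mem_sup_right (Submodule.mem_iSup_of_mem i.castSucc ⟨u, rfl⟩)
          · change R.mkQ (D i.castSucc (X i.castSucc u - X i.castSucc (X i.castSucc u))) =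
              D' i (X' i (R.mkQ u) - X' i (X' i (R.mkQ u)))
            rw [hX', hX', ← map_sub R.mkQ, hD']
      obtain ⟨u, hu, hu2⟩ := h2 h1
      have h3 : v - u ∈ R := by
        rw [← Submodule.ker_mkQ R, LinearMap.mem_ker, map_sub, hu2, sub_self]
      have h4 : v - u ∈ Submodule.span 𝕜 (lift '' (s : Set (V ⧸ R))) ⊔
            ⨆ i, LinearMap.range (opF (X i) (D i)) := by
        rw [hR, hXn, hDn] at h3
        exact Submodule.mem_sup_right (Submodule.mem_iSup_of_mem (Fin.last n) h3)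
      have h5 := Submodule.add_mem _ h4 hu
      rwa [sub_add_cancel] at h5

end Pool.Agent.Lib.MP_bbe012_lc.PP
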