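import Pool.Agent.Lib.MP_bbe012_lc.PP.Base

/-!
# Perturbative integrals as power series

`P1 n` is the ring of polynomials in `t = x_0` and `x_1, ..., x_n`. For `Q ∈ P1 n` with `Q(0, x) = 1`
and `G ∈ P1 n`, `Phi n Q G K ∈ ℚ⟦X⟧` is the expansion in powers of `t` of the integral of `G / Q ^ K`
over `x ∈ [0,1]^n`.
-/

namespace Pool.Agent.Lib.MP_bbe012_lc.PP

open MvPolynomial

/-- Polynomials in `t = x_0` and `x_1, ..., x_n`. -/
abbrev P1 (n : ℕ) := MvPolynomial (Fin (n + 1)) ℚ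

/-- A polynomial in `t` as an element of `P1 n`. -/
noncomputable def inT (n : ℕ) : Polynomial ℚ →+* P1 n := (Polynomial.aeval (X 0 : P1 n)).toRingHom

/-- `x_l - x_l ^ 2`. -/
noncomputable def fl (n : ℕ) (l : Fin n) : P1 n := X l.succ - X l.succ ^ 2

/-- `∑ ∂_l (f_l g_l / Q ^ K)` is `divf n Q K g / Q ^ (K + 1)`. -/
noncomputable def divf (n : ℕ) (Q : P1 n) (K : ℕ) (g : Fin n → P1 n) : P1 n :=
  ∑ l, (Q * pderiv l.succ (fl n l * g l) - (K : P1 n) * (fl n l * g l * pderiv l.succ Q))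

/-- `Q(0, x)`. -/
noncomputable def atZero (n : ℕ) : P1 n →ₐ[ℚ] MvPolynomial (Fin n) ℚ :=
  aeval (Fin.cases 0 (fun l => X l))

/-- A polynomial as a power series in `t` with coefficients in `ℚ[x_1, ..., x_n]`. -/
noncomputable def ser (n : ℕ) : P1 n →+* PowerSeries (MvPolynomial (Fin n) ℚ) :=
  eval₂Hom ((PowerSeries.C (R := MvPolynomial (Fin n) ℚ)).comp (C (σ := Fin n)))
    (Fin.cases PowerSeries.X (fun l => PowerSeries.C (X l)))

theorem ser_C (n : ℕ) (a : ℚ) : ser n (C a) = PowerSeries.C (C a) := by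
  rw [ser, eval₂Hom_C]; rfl

theorem ser_X_zero (n : ℕ) : ser n (X 0) = PowerSeries.X := by
  rw [ser, eval₂Hom_X']; rfl

theorem ser_X_succ (n : ℕ) (l : Fin n) : ser n (X l.succ) = PowerSeries.C (X l) := by
  rw [ser, eval₂Hom_X']; rfl

/-- The constant coefficient of `ser n Q` is `Q(0, x)`. -/
theorem constantCoeff_ser (n : ℕ) (Q : P1 n) :
    PowerSeries.constantCoeff (ser n Q) = atZero n Q := by
  have h : (PowerSeries.constantCoeff (R := MvPolynomial (Fin n) ℚ)).comp (ser n) =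
      ((atZero n : P1 n →ₐ[ℚ] MvPolynomial (Fin n) ℚ) : P1 n →+* MvPolynomial (Fin n) ℚ) := by
    refine MvPolynomial.ringHom_ext (fun a => ?_) (fun i => ?_)
    · rw [RingHom.comp_apply, ser_C]
      simp [atZero, MvPolynomial.algebraMap_eq]
    · refine Fin.cases ?_ (fun l => ?_) i
      · rw [RingHom.comp_apply, ser_X_zero]
        simp [atZero]
      · rw [RingHom.comp_apply, ser_X_succ]
        simp [atZero]
  exact congrArg (fun f => f Q) h

/-- The inverse of `Q` as a power series in `t`, when `Q(0, x) = 1`. -/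
noncomputable def sinv (n : ℕ) (Q : P1 n) : PowerSeries (MvPolynomial (Fin n) ℚ) :=
  PowerSeries.invOfUnit (ser n Q) 1

theorem ser_mul_sinv {n : ℕ} {Q : P1 n} (hQ : atZero n Q = 1) : ser n Q * sinv n Q = 1 := by
  refine PowerSeries.mul_invOfUnit _ _ ?_
  rw [constantCoeff_ser, hQ]
  rfl

/-- The integral over `[0,1]^n` of a polynomial. -/
noncomputable def Lam (n : ℕ) : MvPolynomial (Fin n) ℚ →ₗ[ℚ] ℚ :=
  (basisMonomials (Fin n) ℚ).constr ℚ (fun m => ∏ i, ((m i : ℚ) + 1)⁻¹)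

theorem Lam_monomial (n : ℕ) (m : Fin n →₀ ℕ) (a : ℚ) :
    Lam n (monomial m a) = a * ∏ i, ((m i : ℚ) + 1)⁻¹ := by
  have h1 : monomial m a = a • (basisMonomials (Fin n) ℚ) m := by
    rw [coe_basisMonomials, smul_monomial, smul_eq_mul, mul_one]
  rw [h1, map_smul, Lam, Module.Basis.constr_basis, smul_eq_mul]

/-- Integration of the coefficients. -/
noncomputable def LamS (n : ℕ) (f : PowerSeries (MvPolynomial (Fin n) ℚ)) : PowerSeries ℚ :=
  PowerSeries.mk fun k => Lam n (PowerSeries.coeff k f)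

theorem coeff_LamS (n : ℕ) (f : PowerSeries (MvPolynomial (Fin n) ℚ)) (k : ℕ) :
    PowerSeries.coeff k (LamS n f) = Lam n (PowerSeries.coeff k f) := by
  rw [LamS, PowerSeries.coeff_mk]

/-- The expansion of the integral of `G / Q ^ K`. -/
noncomputable def Phi (n : ℕ) (Q G : P1 n) (K : ℕ) : PowerSeries ℚ :=
  LamS n (ser n G * sinv n Q ^ K)

/-- Sum of the absolute values of the coefficients. -/
noncomputable def l1M {n : ℕ} (p : MvPolynomial (Fin n) ℚ) : ℚ := ∑ m ∈ p.support, |coeff m p|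

/-- The weighted norm of `Q - 1` at `τ`: the sum of the `|c| |τ| ^ k` over the terms `c t^k x^m` of `Q`
with `k ≥ 1`. -/
noncomputable def wn (n : ℕ) (Q : P1 n) (τ : ℚ) : ℚ :=
  ∑ m ∈ Q.support with m 0 ≠ 0, |coeff m Q| * |τ| ^ m 0

/-- The numerators of the iterated derivatives: `(t d/dt)^i (S / Q ^ K) = thetaNum n Q K S i / Q ^ (K + i)`. -/
noncomputable def thetaNum (n : ℕ) (Q : P1 n) (K : ℕ) (S : P1 n) : ℕ → P1 n
  | 0 => S
  | i + 1 => Q * (X 0 * pderiv 0 (thetaNum n Q K S i)) -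
      ((K + i : ℕ) : P1 n) * (thetaNum n Q K S i * (X 0 * pderiv 0 Q))

/-- The operator `t d/dt` on power series. -/
noncomputable def theta (f : PowerSeries ℚ) : PowerSeries ℚ :=
  PowerSeries.X * PowerSeries.derivative ℚ f

end Pool.Agent.Lib.MP_bbe012_lc.PP
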