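import Pool.Agent.Lib.MP_bbe012_lc.Ident
import Pool.Agent.Lib.MP_bbe012_lc.PP.CokF
import Pool.Agent.Lib.MP_bbe012_lc.PP.Defs

/-!
# Exact combinations
-/

namespace Pool.Agent.Lib.MP_bbe012_lc.PP

open Module MvPolynomial Pool.Agent.Lib.MP_bbe012_lc

/-- A bounded number of elements of `𝕜[x, 1/h]` are linearly dependent modulo the
`∂_l ((x_l - x_l ^ 2) ·)`.

Proof: copy the proof of `loc_dependent` (`LocWeyl.lean`) with `cokerF_finite (loc_weyl h 0)` instead of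
`coker_finite`: `opF (Xop h l) (DD h 0 l) v = DD h 0 l (iota h (X l - X l ^ 2) * v)` (`Xop_apply`). -/
theorem loc_dependentF {𝕜 : Type*} [Field 𝕜] [CharZero 𝕜] {n : ℕ} (h : MvPolynomial (Fin n) 𝕜) :
    ∃ r : ℕ, ∀ w : Fin (r + 1) → Loc h, ∃ c : Fin (r + 1) → 𝕜, c ≠ 0 ∧
      ∃ m : Fin n → Loc h, ∑ i, c i • w i = ∑ l, DD h 0 l (iota h (X l - X l ^ 2) * m l) := by
  obtain ⟨F, hF, htop⟩ := cokerF_finite (loc_weyl h 0)
  set E := ⨆ i, LinearMap.range (opF (Xop h i) (DD h 0 i)) with hE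
  have hfin : FiniteDimensional 𝕜 (Loc h ⧸ E) := by
    have h1 : Function.Surjective (E.mkQ.domRestrict F) := by
      intro w
      obtain ⟨v, rfl⟩ := Submodule.mkQ_surjective E w
      have hv : v ∈ F ⊔ E := by rw [htop]; trivial
      obtain ⟨f, hf, e, he, rfl⟩ := Submodule.mem_sup.mp hv
      refine ⟨⟨f, hf⟩, ?_⟩
      rw [LinearMap.domRestrict_apply, map_add]
      have : E.mkQ e = 0 := by
        rw [Submodule.mkQ_apply, Submodule.Quotient.mk_eq_zero]; exact he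
      rw [this, add_zero]
    exact Module.Finite.of_surjective _ h1
  refine ⟨finrank 𝕜 (Loc h ⧸ E), fun w => ?_⟩
  have hdep : ¬ LinearIndependent 𝕜 (fun i => E.mkQ (w i)) := by
    intro hli
    have := hli.fintype_card_le_finrank
    simp at this
  rw [Fintype.not_linearIndependent_iff] at hdep
  obtain ⟨c, hc, i, hi⟩ := hdep
  refine ⟨c, fun h0 => hi (by rw [h0]; rfl), ?_⟩
  have h2 : ∑ i, c i • w i ∈ E := by
    rw [← Submodule.Quotient.mk_eq_zero E, ← Submodule.mkQ_apply, map_sum]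
    simpa using hc
  obtain ⟨f, hf, hsum⟩ := (Submodule.mem_iSup_iff_exists_finsupp _ _).mp h2
  choose m hm using hf
  refine ⟨m, ?_⟩
  rw [← hsum, Finsupp.sum_fintype _ _ (fun _ => rfl)]
  refine Finset.sum_congr rfl fun l _ => ?_
  rw [← hm l, opF, LinearMap.comp_apply]
  congr 1
  rw [LinearMap.sub_apply, LinearMap.comp_apply, Xop_apply, Xop_apply, map_sub, map_pow]
  ring

private noncomputable def sg (n : ℕ) : Fin (n + 1) → Fin (n + 1) :=
  Fin.cases (Fin.last n) (fun l => l.castSucc)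

private theorem sg_zero (n : ℕ) : sg n 0 = Fin.last n := rfl

private theorem sg_succ (n : ℕ) (l : Fin n) : sg n l.succ = l.castSucc := rfl

private theorem sg_inj (n : ℕ) : Function.Injective (sg n) := by
  intro a b
  refine Fin.cases ?_ (fun a => ?_) a
  · refine Fin.cases ?_ (fun b => ?_) b
    · intro _; rfl
    · rw [sg_zero, sg_succ]
      intro h
      exact absurd h (Fin.castSucc_lt_last b).ne'
  · refine Fin.cases ?_ (fun b => ?_) b
    · rw [sg_zero, sg_succ]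
      intro h
      exact absurd h (Fin.castSucc_lt_last a).ne
    · rw [sg_succ, sg_succ]
      intro h
      rw [Fin.castSucc_injective _ h]

private theorem sg_surj (n : ℕ) : Function.Surjective (sg n) := by
  intro b
  refine Fin.lastCases ⟨0, rfl⟩ (fun b => ⟨b.succ, rfl⟩) b

section fld

variable (𝕜 : Type) [Field 𝕜] [Algebra (Polynomial ℚ) 𝕜]

/-- The map `ℚ[t, x] → ℚ(t)[x]`. -/
private noncomputable def psi0 (n : ℕ) : P1 n →+* MvPolynomial (Fin n) 𝕜 :=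
  (psi 𝕜 n).comp ((rename (sg n) : P1 n →ₐ[ℚ] Pt n) : P1 n →+* Pt n)

private theorem psi0_apply (n : ℕ) (G : P1 n) : psi0 𝕜 n G = psi 𝕜 n (rename (sg n) G) := rfl

private theorem psi0_injective [IsFractionRing (Polynomial ℚ) 𝕜] (n : ℕ) :
    Function.Injective (psi0 𝕜 n) := by
  intro a b hab
  rw [psi0_apply, psi0_apply] at hab
  exact rename_injective _ (sg_inj n) (psi_injective 𝕜 n hab)

private theorem psi0_inT (n : ℕ) (b : Polynomial ℚ) :
    psi0 𝕜 n (inT n b) = C (algebraMap (Polynomial ℚ) 𝕜 b) := by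
  have h1 : (rename (sg n) : P1 n →ₐ[ℚ] Pt n) (inT n b) = beta n b := by
    change (rename (sg n) : P1 n →ₐ[ℚ] Pt n) (Polynomial.aeval (X 0 : P1 n) b) =
      Polynomial.aeval (X (Fin.last n) : Pt n) b
    rw [← Polynomial.aeval_algHom_apply, rename_X, sg_zero]
  rw [psi0_apply, h1, psi_beta]

private theorem psi0_X (n : ℕ) (l : Fin n) : psi0 𝕜 n (X l.succ) = X l := by
  rw [psi0_apply, rename_X, sg_succ, psi_X]

private theorem psi0_fl (n : ℕ) (l : Fin n) : psi0 𝕜 n (fl n l) = X l - X l ^ 2 := by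
  rw [fl, map_sub, map_pow, psi0_X]

private theorem psi0_pderiv (n : ℕ) (l : Fin n) (G : P1 n) :
    pderiv l (psi0 𝕜 n G) = psi0 𝕜 n (pderiv l.succ G) := by
  rw [psi0_apply, psi_pderiv, psi0_apply, ← pderiv_rename (sg_inj n), sg_succ]

private theorem clear_denom0 [IsFractionRing (Polynomial ℚ) 𝕜] (n r : ℕ)
    (G : Fin r → MvPolynomial (Fin n) 𝕜) :
    ∃ b : Polynomial ℚ, b ≠ 0 ∧ ∃ G' : Fin r → P1 n,
      ∀ i, psi0 𝕜 n (G' i) = C (algebraMap (Polynomial ℚ) 𝕜 b) * G i := by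
  obtain ⟨b, hb, G1, h1⟩ := clear_denom_fin 𝕜 n r G
  choose G2 h2 using fun i => rename_surjective (R := ℚ) (sg n) (sg_surj n) (G1 i)
  refine ⟨b, hb, G2, fun i => ?_⟩
  rw [psi0_apply, h2, h1]

/-- The fraction `g / Q ^ K`. -/
private noncomputable def fr {n : ℕ} (Q : P1 n) (K : ℕ) (g : P1 n) : Loc (psi0 𝕜 n Q) :=
  fracMap (psi0 𝕜 n Q) K (psi0 𝕜 n g)

private theorem fr_sum {n : ℕ} (Q : P1 n) (K : ℕ) {ι : Type} (s : Finset ι) (g : ι → P1 n) :
    fr 𝕜 Q K (∑ i ∈ s, g i) = ∑ i ∈ s, fr 𝕜 Q K (g i) := by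
  simp only [fr, map_sum]

private theorem fr_shift {n : ℕ} (Q : P1 n) (K j : ℕ) (g : P1 n) :
    fr 𝕜 Q K g = fr 𝕜 Q (K + j) (g * Q ^ j) := by
  rw [fr, fr, map_mul, map_pow]
  exact fracMap_shift (psi0 𝕜 n Q) K j (psi0 𝕜 n g)

private theorem fr_injective [IsFractionRing (Polynomial ℚ) 𝕜] {n : ℕ} {Q : P1 n} (hQ : Q ≠ 0)
    (K : ℕ) {a b : P1 n} (hab : fr 𝕜 Q K a = fr 𝕜 Q K b) : a = b := by
  have h0 : psi0 𝕜 n Q ≠ 0 := fun h => hQ (psi0_injective 𝕜 n (by rw [h, map_zero]))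
  simp only [fr, fracMap_apply] at hab
  have e : invH (psi0 𝕜 n Q) ^ K * iota (psi0 𝕜 n Q) (psi0 𝕜 n Q) ^ K = 1 := by
    rw [← mul_pow, mul_comm, iota_mul_invH, one_pow]
  have h1 := congrArg (fun v => v * iota (psi0 𝕜 n Q) (psi0 𝕜 n Q) ^ K) hab
  simp only [mul_assoc, e, mul_one] at h1
  exact psi0_injective 𝕜 n (iota_injective _ h0 h1)

private theorem smul_fr {n : ℕ} (Q : P1 n) (b : Polynomial ℚ) (K : ℕ) (g : P1 n) :
    algebraMap (Polynomial ℚ) 𝕜 b • fr 𝕜 Q K g = fr 𝕜 Q K (inT n b * g) := by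
  rw [fr, ← map_smul, smul_eq_C_mul, ← psi0_inT, ← map_mul]
  rfl

private theorem iota_mul_fr {n : ℕ} (Q : P1 n) (G : P1 n) (K : ℕ) (g : P1 n) :
    iota (psi0 𝕜 n Q) (psi0 𝕜 n G) * fr 𝕜 Q K g = fr 𝕜 Q K (G * g) := by
  rw [fr, fr, fracMap_apply, fracMap_apply, map_mul, map_mul, mul_assoc]

private theorem DD_fr {n : ℕ} (Q : P1 n) (K : ℕ) (l : Fin n) (g : P1 n) :
    DD (psi0 𝕜 n Q) 0 l (fr 𝕜 Q K g) =
      fr 𝕜 Q (K + 1) (Q * pderiv l.succ g - (K : P1 n) * (g * pderiv l.succ Q)) := by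
  rw [fr, fracMap_apply, DD_frac, fr, fracMap_apply]
  congr 2
  rw [map_sub, map_mul, map_mul, map_mul, map_natCast, ← psi0_pderiv, ← psi0_pderiv, smul_eq_C_mul,
    map_sub, map_natCast, map_zero]
  ring

end fld

/-- **Exact combinations with polynomial coefficients.** For `Q ≠ 0` in `ℚ[t, x]` there is `r` such that for
any `r + 1` fractions `w_i / Q ^ κ_i` some combination with coefficients in `ℚ[t]`, not all zero, is equal to
`∑ ∂_l (f_l g_l / Q ^ K)`.

Proof. Let `𝕜 = FractionRing (Polynomial ℚ)`. As in `Ident.lean`, but with `t` the variable `0` and with `Q`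
depending on `t`: define `psi0 : P1 n →+* MvPolynomial (Fin n) 𝕜` by `X 0 ↦ C (algebraMap X)`, `X l.succ ↦ X l`,
constants to constants (`eval₂Hom`); it is injective (it is `MvPolynomial.finSuccEquiv`-like: factor through
`MvPolynomial (Fin n) (Polynomial ℚ)`, see `psi'_injective`), `psi0 (inT n b) = C (algebraMap b)`,
`pderiv l (psi0 G) = psi0 (pderiv l.succ G)`, and every element of `MvPolynomial (Fin n) 𝕜` is of the form
`psi0 G / b` with `b ≠ 0` in `ℚ[t]` (as `clear_denom`). Let `h = psi0 Q ≠ 0`. Take `r` from `loc_dependentF h`.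
Given `w, κ`, apply it to the elements `iota h (psi0 (w i)) * invH h ^ κ i`: get `c i ∈ 𝕜` and `m l ∈ Loc h`,
`m l = iota h (G l) * invH h ^ K l` (`exists_frac`). Choose a common `K ≥ all K l`, `K + 1 ≥ all κ i` and a common
denominator `b ∈ ℚ[t]` of all `c i` and of the coefficients of the numerators, multiply the relation by `b`
(elements of `𝕜` commute with `DD`, which is `𝕜`-linear) so that `b • m l = iota h (psi0 (g l)) * invH h ^ K` and
`b * c i = algebraMap (c' i)`. By `DD_frac` (with `κ = 0`)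
`DD h 0 l (iota h (psi0 (fl n l * g l)) * invH h ^ K) = iota h (psi0 (Q * pderiv l.succ (fl n l * g l) - K * (fl n l * g l) * pderiv l.succ Q)) * invH h ^ (K + 1)`.
So both sides are `iota h (psi0 _) * invH h ^ (K + 1)`; multiply by `iota h h ^ (K + 1)` and use the injectivity of
`iota h` (`iota_injective`, `h ≠ 0`) and of `psi0`. -/
theorem exact_comb (n : ℕ) (Q : P1 n) (hQ : Q ≠ 0) :
    ∃ r : ℕ, ∀ (w : Fin (r + 1) → P1 n) (κ : Fin (r + 1) → ℕ),
      ∃ c : Fin (r + 1) → Polynomial ℚ, c ≠ 0 ∧ ∃ K, (∀ i, κ i ≤ K + 1) ∧ ∃ g : Fin n → P1 n,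
        ∑ i, inT n (c i) * w i * Q ^ (K + 1 - κ i) = divf n Q K g := by
  let 𝕜 := FractionRing (Polynomial ℚ)
  obtain ⟨r, hr⟩ := loc_dependentF (psi0 𝕜 n Q)
  refine ⟨r, fun w κ => ?_⟩
  obtain ⟨c, hc, m, hsum⟩ := hr (fun i => fr 𝕜 Q (κ i) (w i))
  choose G K hGK using fun l => exists_frac (psi0 𝕜 n Q) (m l)
  obtain ⟨b1, hb1, G1, hG1⟩ := clear_denom0 𝕜 n n G
  obtain ⟨⟨b2, hb2⟩, hb2i⟩ := IsLocalization.exist_integer_multiples_of_finite
    (nonZeroDivisors (Polynomial ℚ)) c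
  have hb20 : b2 ≠ 0 := nonZeroDivisors.ne_zero hb2
  choose c2 hc2 using hb2i
  set Kt := ∑ l, K l + ∑ i, κ i with hKt
  have hKl : ∀ l, K l ≤ Kt := fun l =>
    (Finset.single_le_sum (f := K) (fun _ _ => Nat.zero_le _) (Finset.mem_univ l)).trans
      (Nat.le_add_right _ _)
  have hκi : ∀ i, κ i ≤ Kt + 1 := fun i =>
    ((Finset.single_le_sum (f := κ) (fun _ _ => Nat.zero_le _) (Finset.mem_univ i)).trans
      (Nat.le_add_left _ _)).trans (Nat.le_succ _)
  have hcc : ∀ i, algebraMap (Polynomial ℚ) 𝕜 (c2 i) = algebraMap (Polynomial ℚ) 𝕜 b2 * c i := by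
    intro i
    rw [hc2 i, Algebra.smul_def]
  refine ⟨fun i => b1 * c2 i, ?_, Kt, hκi, fun l => inT n b2 * (G1 l * Q ^ (Kt - K l)), ?_⟩
  · intro h0
    apply hc
    funext i
    have h1 : b1 * c2 i = 0 := congrFun h0 i
    have h2 : c2 i = 0 := (mul_eq_zero.mp h1).resolve_left hb1
    have h3 := hcc i
    rw [h2, map_zero] at h3
    have h4 : algebraMap (Polynomial ℚ) 𝕜 b2 ≠ 0 := fun h => hb20
      (IsFractionRing.injective (Polynomial ℚ) 𝕜 (by rw [h, map_zero]))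
    exact (mul_eq_zero.mp h3.symm).resolve_left h4
  · apply fr_injective 𝕜 hQ (Kt + 1)
    have hm : ∀ l, fr 𝕜 Q Kt (inT n b2 * (G1 l * Q ^ (Kt - K l))) =
        algebraMap (Polynomial ℚ) 𝕜 (b1 * b2) • m l := by
      intro l
      have e : K l + (Kt - K l) = Kt := by have := hKl l; omega
      have e2 := fr_shift 𝕜 Q (K l) (Kt - K l) (G1 l)
      rw [e] at e2
      rw [← smul_fr, ← e2, hGK l, ← fracMap_apply, mul_comm b1 b2, map_mul, mul_smul, ← map_smul,
        smul_eq_C_mul (G l), ← hG1 l]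
      rfl
    rw [fr_sum, divf, fr_sum]
    have hL : ∀ i, fr 𝕜 Q (Kt + 1) (inT n (b1 * c2 i) * w i * Q ^ (Kt + 1 - κ i)) =
        algebraMap (Polynomial ℚ) 𝕜 (b1 * b2) • (c i • fr 𝕜 Q (κ i) (w i)) := by
      intro i
      have e : κ i + (Kt + 1 - κ i) = Kt + 1 := by have := hκi i; omega
      have e2 := fr_shift 𝕜 Q (κ i) (Kt + 1 - κ i) (inT n (b1 * c2 i) * w i)
      rw [e] at e2
      rw [← e2, ← smul_fr, smul_smul, map_mul, map_mul, hcc i, mul_assoc]
    have hR : ∀ l, fr 𝕜 Q (Kt + 1)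
        (Q * pderiv l.succ (fl n l * (inT n b2 * (G1 l * Q ^ (Kt - K l)))) -
          (Kt : P1 n) * (fl n l * (inT n b2 * (G1 l * Q ^ (Kt - K l))) * pderiv l.succ Q)) =
        algebraMap (Polynomial ℚ) 𝕜 (b1 * b2) •
          (DD (psi0 𝕜 n Q) 0 l (iota (psi0 𝕜 n Q) (X l - X l ^ 2) * m l)) := by
      intro l
      rw [← DD_fr, ← iota_mul_fr, hm l, psi0_fl, mul_smul_comm, map_smul]
    rw [Finset.sum_congr rfl fun i _ => hL i, Finset.sum_congr rfl fun l _ => hR l,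
      ← Finset.smul_sum, ← Finset.smul_sum, hsum]

end Pool.Agent.Lib.MP_bbe012_lc.PP
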