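import Pool.Agent.Lib.MP_bbe012_lc.PP.CertDefs
import Pool.Agent.Lib.MP_bbe012_lc.PP.ExactF
import Pool.Agent.Lib.MP_bbe012_lc.PP.LamL

/-!
# Existence of certificates for zero
-/

namespace Pool.Agent.Lib.MP_bbe012_lc.PP

open MvPolynomial MeasureTheory Set

private theorem CompZ_ser_fin (n : ℕ) (G : P1 n) :
    ser n G = ((finSuccEquiv ℚ n G : Polynomial (MvPolynomial (Fin n) ℚ)) :
      PowerSeries (MvPolynomial (Fin n) ℚ)) := by
  have h : ser n = (Polynomial.coeToPowerSeries.ringHom).comp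
      ((finSuccEquiv ℚ n : P1 n →ₐ[ℚ] Polynomial (MvPolynomial (Fin n) ℚ)) :
        P1 n →+* Polynomial (MvPolynomial (Fin n) ℚ)) := by
    refine MvPolynomial.ringHom_ext (fun a => ?_) (fun i => ?_)
    · rw [ser_C]
      change _ = ((finSuccEquiv ℚ n (C a) : Polynomial (MvPolynomial (Fin n) ℚ)) :
        PowerSeries (MvPolynomial (Fin n) ℚ))
      have h1 : finSuccEquiv ℚ n (C a) = Polynomial.C (C a) := by
        rw [← MvPolynomial.algebraMap_eq, AlgEquiv.commutes]
        rfl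
      rw [h1, Polynomial.coe_C]
    · refine Fin.cases ?_ (fun l => ?_) i
      · rw [ser_X_zero]
        change _ = ((finSuccEquiv ℚ n (X 0) : Polynomial (MvPolynomial (Fin n) ℚ)) :
          PowerSeries (MvPolynomial (Fin n) ℚ))
        rw [finSuccEquiv_X_zero, Polynomial.coe_X]
      · rw [ser_X_succ]
        change _ = ((finSuccEquiv ℚ n (X l.succ) : Polynomial (MvPolynomial (Fin n) ℚ)) :
          PowerSeries (MvPolynomial (Fin n) ℚ))
        rw [finSuccEquiv_X_succ, Polynomial.coe_C]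
  exact congrArg (fun f => f G) h

private theorem CompZ_dvd {n : ℕ} {N : ℕ} {G : P1 n}
    (h : (PowerSeries.X : PowerSeries (MvPolynomial (Fin n) ℚ)) ^ N ∣ ser n G) :
    (X 0 : P1 n) ^ N ∣ G := by
  rw [CompZ_ser_fin, PowerSeries.X_pow_dvd_iff] at h
  have h1 : (Polynomial.X : Polynomial (MvPolynomial (Fin n) ℚ)) ^ N ∣ finSuccEquiv ℚ n G := by
    rw [Polynomial.X_pow_dvd_iff]
    intro d hd
    have h2 := h d hd
    rwa [Polynomial.coeff_coe] at h2
  obtain ⟨q, hq⟩ := h1
  refine ⟨(finSuccEquiv ℚ n).symm q, ?_⟩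
  apply (finSuccEquiv ℚ n).injective
  rw [map_mul, map_pow, finSuccEquiv_X_zero, AlgEquiv.apply_symm_apply, hq]

private theorem CompZ_ser_rename {n : ℕ} (p : MvPolynomial (Fin n) ℚ) :
    ser n (rename Fin.succ p) = PowerSeries.C p := by
  have h : (ser n).comp ((rename Fin.succ : MvPolynomial (Fin n) ℚ →ₐ[ℚ] P1 n) :
      MvPolynomial (Fin n) ℚ →+* P1 n) = PowerSeries.C := by
    refine MvPolynomial.ringHom_ext (fun a => ?_) (fun i => ?_)
    · change ser n (rename Fin.succ (C a)) = _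
      rw [rename_C, ser_C]
    · change ser n (rename Fin.succ (X i)) = _
      rw [rename_X, ser_X_succ]
  exact congrArg (fun f => f p) h

private theorem CompZ_primitive {r : ℕ} (a : Fin (r + 1) → Polynomial ℚ) (ha : a ≠ 0) :
    ∃ (κ : ℕ) (b : Fin (r + 1) → Polynomial ℚ), (∀ i, a i = Polynomial.X ^ κ * b i) ∧
      ∃ i, (b i).coeff 0 ≠ 0 := by
  classical
  obtain ⟨i0, hi0⟩ := Function.ne_iff.1 ha
  have hi0' : a i0 ≠ 0 := hi0
  have hex : ∃ k : ℕ, ¬ ∀ i, (Polynomial.X : Polynomial ℚ) ^ k ∣ a i := by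
    refine ⟨(a i0).natDegree + 1, fun h => ?_⟩
    have h1 := Polynomial.natDegree_le_of_dvd (h i0) hi0'
    rw [Polynomial.natDegree_X_pow] at h1
    omega
  have hpos : Nat.find hex ≠ 0 := by
    intro h0
    have h1 := Nat.find_spec hex
    rw [h0] at h1
    exact h1 fun i => by rw [pow_zero]; exact one_dvd _
  obtain ⟨κ, hκ⟩ := Nat.exists_eq_succ_of_ne_zero hpos
  have h1 : ∀ i, (Polynomial.X : Polynomial ℚ) ^ κ ∣ a i := by
    have h2 := Nat.find_min hex (m := κ) (by omega)
    push Not at h2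
    exact h2
  choose b hb using h1
  refine ⟨κ, b, hb, ?_⟩
  by_contra hcon
  push Not at hcon
  have h3 := Nat.find_spec hex
  rw [hκ] at h3
  refine h3 fun i => ?_
  obtain ⟨q, hq⟩ := Polynomial.X_dvd_iff.2 (hcon i)
  refine ⟨q, ?_⟩
  rw [hb i, hq, pow_succ, mul_assoc]

private theorem CompZ_denom {r : ℕ} (q : Fin (r + 1) → ℚ) :
    ∃ (N : ℕ) (z : Fin (r + 1) → ℤ), N ≠ 0 ∧ ∀ i, (N : ℚ) * q i = z i := by
  classical
  refine ⟨∏ i, (q i).den, fun i => (∏ j ∈ Finset.univ.erase i, ((q j).den : ℤ)) * (q i).num,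
    Finset.prod_ne_zero_iff.2 fun i _ => (q i).den_nz, fun i => ?_⟩
  rw [← Finset.mul_prod_erase Finset.univ (fun j => (q j).den) (Finset.mem_univ i)]
  push_cast
  have h1 := Rat.mul_den_eq_num (q i)
  rw [← h1]
  ring

private theorem CompZ_divf {n : ℕ} (Q : P1 n) (K : ℕ) (a : ℚ) (g : Fin n → P1 n) :
    divf n Q K (fun l => C a * g l) = C a * divf n Q K g := by
  rw [divf, divf, Finset.mul_sum]
  refine Finset.sum_congr rfl fun l _ => ?_
  have h1 : fl n l * (C a * g l) = C a * (fl n l * g l) := by ring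
  rw [h1, pderiv_C_mul]
  ring

private theorem CompZ_inT {n : ℕ} (p : Polynomial ℚ) :
    inT n p = C (p.coeff 0) + X 0 * inT n p.divX := by
  have h1 : p = Polynomial.C (p.coeff 0) + Polynomial.X * p.divX := by
    have h2 := Polynomial.divX_mul_X_add p
    rw [add_comm, mul_comm] at h2
    exact h2.symm
  have h3 : ∀ a : ℚ, inT n (Polynomial.C a) = C a := fun a => by
    change Polynomial.aeval (X 0 : P1 n) (Polynomial.C a) = C a
    rw [Polynomial.aeval_C]
    rfl
  have h4 : inT n Polynomial.X = X 0 := by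
    change Polynomial.aeval (X 0 : P1 n) Polynomial.X = X 0
    rw [Polynomial.aeval_X]
  calc inT n p = inT n (Polynomial.C (p.coeff 0) + Polynomial.X * p.divX) := by rw [← h1]
    _ = _ := by rw [map_add, map_mul, h3, h4]

private theorem CompZ_init {n : ℕ} {Q : P1 n} (hQ : atZero n Q = 1) {S : P1 n} {K : ℕ}
    (h : Phi n Q S K = 0) (L : ℕ) : ∃ (E : Fin n → P1 n) (H : P1 n),
      S = Q ^ K * ∑ l, pderiv l.succ (fl n l * E l) + X 0 ^ (L + 1) * H := by
  set s : ℕ → MvPolynomial (Fin n) ℚ := fun m => PowerSeries.coeff m (ser n S * sinv n Q ^ K)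
    with hs
  have hs0 : ∀ m, Lam n (s m) = 0 := by
    intro m
    have h1 := congrArg (PowerSeries.coeff m) h
    rw [Phi, coeff_LamS, map_zero] at h1
    exact h1
  choose E0 hE0 using fun m => exists_prim n (s m)
  have hE1 : ∀ m, ∑ l, pderiv l ((X l - X l ^ 2) * E0 m l) = s m := by
    intro m
    have h1 := hE0 m
    rw [hs0 m, C_0, zero_add] at h1
    exact h1.symm
  have hfl : ∀ l : Fin n, fl n l = rename Fin.succ (X l - X l ^ 2) := by
    intro l
    rw [fl, map_sub, map_pow, rename_X]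
  set E : Fin n → P1 n := fun l =>
    ∑ m ∈ Finset.range (L + 1), X 0 ^ m * rename Fin.succ (E0 m l) with hE
  have hsum : ∑ l, pderiv l.succ (fl n l * E l) =
      ∑ m ∈ Finset.range (L + 1), X 0 ^ m * rename Fin.succ (s m) := by
    have h1 : ∀ l : Fin n, pderiv l.succ (fl n l * E l) = ∑ m ∈ Finset.range (L + 1),
        X 0 ^ m * rename Fin.succ (pderiv l ((X l - X l ^ 2) * E0 m l)) := by
      intro l
      rw [hE, Finset.mul_sum, map_sum]
      refine Finset.sum_congr rfl fun m _ => ?_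
      have h2 : fl n l * (X 0 ^ m * rename Fin.succ (E0 m l)) =
          X 0 ^ m * rename Fin.succ ((X l - X l ^ 2) * E0 m l) := by
        rw [hfl, map_mul]
        ring
      have h3 : pderiv l.succ ((X 0 : P1 n) ^ m) = 0 := by
        rw [pderiv_pow, pderiv_X_of_ne (Fin.succ_ne_zero l).symm, mul_zero]
      rw [h2, pderiv_mul, h3, zero_mul, zero_add, pderiv_rename (Fin.succ_injective n)]
    rw [Finset.sum_congr rfl fun l _ => h1 l, Finset.sum_comm]
    refine Finset.sum_congr rfl fun m _ => ?_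
    rw [← Finset.mul_sum, ← map_sum, hE1 m]
  set W : P1 n := ∑ m ∈ Finset.range (L + 1), X 0 ^ m * rename Fin.succ (s m) with hW
  have hserW : ser n W = ∑ m ∈ Finset.range (L + 1),
      PowerSeries.X ^ m * PowerSeries.C (s m) := by
    rw [hW, map_sum]
    refine Finset.sum_congr rfl fun m _ => ?_
    rw [map_mul, map_pow, ser_X_zero, CompZ_ser_rename]
  have hdvd : (PowerSeries.X : PowerSeries (MvPolynomial (Fin n) ℚ)) ^ (L + 1) ∣
      ser n S * sinv n Q ^ K - ser n W := by
    rw [PowerSeries.X_pow_dvd_iff]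
    intro m hm
    rw [map_sub, hserW, map_sum, Finset.sum_eq_single m]
    · rw [mul_comm (PowerSeries.X ^ m), PowerSeries.coeff_mul_X_pow', if_pos le_rfl,
        Nat.sub_self, PowerSeries.coeff_zero_eq_constantCoeff_apply, PowerSeries.constantCoeff_C]
      exact sub_self _
    · intro b _ hb
      rw [mul_comm (PowerSeries.X ^ b), PowerSeries.coeff_mul_X_pow']
      split_ifs with h1
      · rw [PowerSeries.coeff_C, if_neg (by omega)]
      · rfl
    · intro h1
      exact absurd (Finset.mem_range.2 hm) h1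
  have hdvd2 : (PowerSeries.X : PowerSeries (MvPolynomial (Fin n) ℚ)) ^ (L + 1) ∣
      ser n (S - Q ^ K * W) := by
    have h1 : ser n (S - Q ^ K * W) = ser n Q ^ K * (ser n S * sinv n Q ^ K - ser n W) := by
      have h2 : ser n Q ^ K * sinv n Q ^ K = 1 := by
        rw [← mul_pow, ser_mul_sinv hQ, one_pow]
      rw [map_sub, map_mul, map_pow]
      calc ser n S - ser n Q ^ K * ser n W
          = (ser n Q ^ K * sinv n Q ^ K) * ser n S - ser n Q ^ K * ser n W := by rw [h2, one_mul]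
        _ = _ := by ring
    rw [h1]
    exact dvd_mul_of_dvd_right hdvd _
  obtain ⟨H, hH⟩ := CompZ_dvd hdvd2
  refine ⟨E, H, ?_⟩
  rw [hsum, ← hH]
  ring

/-- Completeness. Proof. Suppose `F = Phi n Q S K = 0`. `exact_comb` for `w i = thetaNum n Q K S i`, `κ i = K + i`
(`i ≤ r =: ρ`) gives `a_i ∈ ℚ[t]`, not all zero, `K'` and `g` with `∑ inT (a_i) w_i Q ^ (K' + 1 - (K + i)) = divf Q K' g`.
Take out the largest power `X ^ κ` dividing all `a_i` (`exists_primitive`), multiply by a common denominator of the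
constant coefficients (`divf` is linear: scale `g`), so `a_i = X ^ κ * (C (z i) + X * c i)`, some `z i ≠ 0`. `L` is the sum
of the `|z i|`. For `init`: let `s_m` be the coefficients of `ser n S * sinv n Q ^ K`; `Lam n s_m = 0` for all `m`; by
`exists_prim`, `s_m = ∑ l, pderiv l ((X l - X l ^ 2) * E l m)` for `m ≤ L`; `E l = ∑ m ≤ L, X 0 ^ m * rename Fin.succ (E l m)`.
Then `ser n (S - Q ^ K * ∑ ...)` is divisible by `X ^ (L + 1)` (multiply by `ser Q ^ K` the statement that
`ser S * sinv Q ^ K - ser (∑ ...)` is), and a polynomial `G` with `X ^ N ∣ ser n G` is divisible by `X 0 ^ N`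
(`ser n` is injective on coefficients: write `G` as a polynomial in `X 0`, e.g. `MvPolynomial.finSuccEquiv`, or
`MvPolynomial.X_pow_dvd_iff`-like by coefficients). -/
theorem exists_zeroCert {n : ℕ} {Q : P1 n} (hQ : atZero n Q = 1) {S : P1 n} {K : ℕ}
    (h : Phi n Q S K = 0) : ∃ κ K' ρ L z c g E H, IsZeroCert n Q S K κ K' ρ L z c g E H := by
  classical
  have hQ0 : Q ≠ 0 := by
    rintro rfl
    rw [map_zero] at hQ
    exact zero_ne_one hQ
  obtain ⟨r, hr⟩ := exact_comb n Q hQ0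
  obtain ⟨a, ha, K', hK', g0, hg0⟩ := hr (fun i => thetaNum n Q K S i) (fun i => K + i)
  obtain ⟨κ, b, hb, i1, hi1⟩ := CompZ_primitive a ha
  obtain ⟨N, z0, hN, hz0⟩ := CompZ_denom fun i => (b i).coeff 0
  have hNq : (N : ℚ) ≠ 0 := Nat.cast_ne_zero.2 hN
  set z : ℕ → ℤ := fun i => if h : i < r + 1 then z0 ⟨i, h⟩ else 0 with hz
  set c : ℕ → Polynomial ℚ := fun i =>
    if h : i < r + 1 then (Polynomial.C (N : ℚ) * b ⟨i, h⟩).divX else 0 with hc
  have hzi : ∀ i : Fin (r + 1), z i = z0 i := fun i => by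
    rw [hz]
    exact dif_pos i.2
  have hci : ∀ i : Fin (r + 1), c i = (Polynomial.C (N : ℚ) * b i).divX := fun i => by
    rw [hc]
    exact dif_pos i.2
  obtain ⟨E, H, hEH⟩ := CompZ_init hQ h (∑ i ∈ Finset.range (r + 1), (z i).natAbs)
  refine ⟨κ, K', r, ∑ i ∈ Finset.range (r + 1), (z i).natAbs, z, c,
    fun l => C (N : ℚ) * g0 l, E, H, ⟨?_, ?_, le_rfl, ?_, hEH⟩⟩
  · have h1 := hK' (Fin.last r)
    rwa [Fin.val_last] at h1
  · refine ⟨i1, i1.2, ?_⟩
    rw [hzi]
    intro h0
    have h1 := hz0 i1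
    rw [h0, Int.cast_zero] at h1
    exact hi1 ((mul_eq_zero.1 h1).resolve_left hNq)
  · rw [CompZ_divf, ← hg0, Finset.sum_range, Finset.mul_sum, Finset.mul_sum]
    refine Finset.sum_congr rfl fun i _ => ?_
    have h1 := CompZ_inT (n := n) (Polynomial.C (N : ℚ) * b i)
    rw [Polynomial.coeff_C_mul, hz0 i, ← hci i, ← hzi i] at h1
    have h2 : inT n (Polynomial.C (N : ℚ)) = C (N : ℚ) := by
      change Polynomial.aeval (X 0 : P1 n) (Polynomial.C (N : ℚ)) = C (N : ℚ)
      rw [Polynomial.aeval_C]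
      rfl
    have h3 : inT n Polynomial.X = X 0 := by
      change Polynomial.aeval (X 0 : P1 n) Polynomial.X = X 0
      rw [Polynomial.aeval_X]
    have h4 : X 0 ^ κ * inT n (Polynomial.C (N : ℚ) * b i) = C (N : ℚ) * inT n (a i) := by
      rw [hb i, map_mul, map_mul, map_pow, h2, h3]
      ring
    rw [← h1, mul_assoc, ← mul_assoc, h4]
    ring

end Pool.Agent.Lib.MP_bbe012_lc.PP
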