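import Pool.Agent.Lib.MP_bbe012_lc.PP.Rem

/-!
# Order and degree of the determinant
-/

namespace Pool.Agent.Lib.MP_bbe012_lc.PP

open Polynomial

/-- The determinant of the iterated derivatives is divisible by a high power of `X`.

Proof. Over `ℚ⟦X⟧`: let `M s i = (iter T B v s i : ℚ⟦X⟧)`, `R s i = M s 0 * Y i - M s i`. By `hY0`, `R s 0 = 0`.
Column operations (add `- Y i` times the column `0` to the column `i` for `i ≠ 0`, then change the signs;
e.g. `Matrix.det_eq_of_forall_col_eq_smul_add_const` / `Matrix.det_eq_of_forall_row_eq_smul_add_const`) show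
`det M = (-1) ^ r * det M'` where `M' s 0 = M s 0` and `M' s i = R s i` for `i ≠ 0`. (The sign does not matter
for divisibility.) By `rem_dvd` every `M' s i` with `i ≠ 0` is divisible by `X ^ (K - r)` (`s ≤ r`), so each
term of `Matrix.det_apply` is divisible by `(X ^ (K - r)) ^ r`. Then go back to polynomials: `RingHom.map_det`
for `Polynomial.coeToPowerSeries.ringHom`, `PowerSeries.X_pow_dvd_iff` and `Polynomial.X_pow_dvd_iff`,
`Polynomial.coeff_coe`. -/
theorem X_pow_dvd_det {r : ℕ} (T : ℚ[X]) (B : Fin (r + 1) → Fin (r + 1) → ℚ[X])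
    (Y : Fin (r + 1) → PowerSeries ℚ) (hY0 : Y 0 = 1) (hB : ∀ j, B 0 j = 0)
    (hode : ∀ i, (T : PowerSeries ℚ) * PowerSeries.derivative ℚ (Y i) =
      ∑ j, (B i j : PowerSeries ℚ) * Y j)
    (v : Fin (r + 1) → ℚ[X]) (K : ℕ)
    (hv : ∀ i, (PowerSeries.X : PowerSeries ℚ) ^ K ∣ (v 0 : PowerSeries ℚ) * Y i - (v i : PowerSeries ℚ)) :
    (X : ℚ[X]) ^ (r * (K - r)) ∣
      Matrix.det (Matrix.of fun s i : Fin (r + 1) => iter T B v s i) := by
  classical
  set k : ℕ := r * (K - r) with hk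
  have hcast : ((Matrix.det (Matrix.of fun s i : Fin (r + 1) => iter T B v s i) : ℚ[X]) :
      PowerSeries ℚ) =
      Matrix.det (Matrix.of fun s i : Fin (r + 1) => ((iter T B v s i : ℚ[X]) : PowerSeries ℚ)) := by
    have h1 := RingHom.map_det (Polynomial.coeToPowerSeries.ringHom (R := ℚ))
      (Matrix.of fun s i : Fin (r + 1) => iter T B v s i)
    exact h1
  have hdet : Matrix.det (Matrix.of fun s i : Fin (r + 1) =>
        ((iter T B v s i : ℚ[X]) : PowerSeries ℚ)) =
      Matrix.det (Matrix.of fun s i : Fin (r + 1) =>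
        if i = 0 then ((iter T B v s 0 : ℚ[X]) : PowerSeries ℚ)
        else ((iter T B v s i : ℚ[X]) : PowerSeries ℚ) -
          ((iter T B v s 0 : ℚ[X]) : PowerSeries ℚ) * Y i) := by
    rw [← Matrix.det_transpose (Matrix.of fun s i : Fin (r + 1) =>
        ((iter T B v s i : ℚ[X]) : PowerSeries ℚ)),
      ← Matrix.det_transpose (Matrix.of fun s i : Fin (r + 1) =>
        if i = 0 then ((iter T B v s 0 : ℚ[X]) : PowerSeries ℚ)
        else ((iter T B v s i : ℚ[X]) : PowerSeries ℚ) -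
          ((iter T B v s 0 : ℚ[X]) : PowerSeries ℚ) * Y i)]
    symm
    refine Matrix.det_eq_of_forall_row_eq_smul_add_const (fun i => if i = 0 then 0 else - Y i) 0
      (if_pos rfl) ?_
    intro i j
    simp only [Matrix.transpose_apply, Matrix.of_apply]
    by_cases hi : i = 0
    · subst hi
      simp
    · rw [if_neg hi, if_neg hi]
      ring
  have hmain : (PowerSeries.X : PowerSeries ℚ) ^ k ∣
      ((Matrix.det (Matrix.of fun s i : Fin (r + 1) => iter T B v s i) : ℚ[X]) : PowerSeries ℚ) := by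
    rw [hcast, hdet, Matrix.det_apply]
    refine Finset.dvd_sum fun σ _ => ?_
    rw [Units.smul_def, zsmul_eq_mul]
    refine Dvd.dvd.mul_left ?_ _
    rw [Fin.prod_univ_succ]
    refine Dvd.dvd.mul_left ?_ _
    have h2 : (PowerSeries.X : PowerSeries ℚ) ^ k =
        ∏ _i : Fin r, (PowerSeries.X : PowerSeries ℚ) ^ (K - r) := by
      rw [Finset.prod_const, Finset.card_univ, Fintype.card_fin, ← pow_mul, hk, mul_comm]
    rw [h2]
    refine Finset.prod_dvd_prod_of_dvd _ _ fun i _ => ?_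
    simp only [Matrix.of_apply, if_neg (Fin.succ_ne_zero i)]
    have h3 := rem_dvd T B Y hB hode v K hv (σ i.succ) i.succ
    have h4 : (PowerSeries.X : PowerSeries ℚ) ^ (K - r) ∣
        (PowerSeries.X : PowerSeries ℚ) ^ (K - (σ i.succ : ℕ)) :=
      pow_dvd_pow _ (by have := (σ i.succ).isLt; omega)
    rw [← dvd_neg, neg_sub]
    exact h4.trans h3
  rw [PowerSeries.X_pow_dvd_iff] at hmain
  rw [Polynomial.X_pow_dvd_iff]
  intro d hd
  have h5 := hmain d hd
  rwa [Polynomial.coeff_coe] at h5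

/-- Proof: `Matrix.det_apply`, `natDegree_sum_le_of_forall_le`, `natDegree_prod_le`, `natDegree_iter`. -/
theorem natDegree_det {r : ℕ} (T : ℚ[X]) (B : Fin (r + 1) → Fin (r + 1) → ℚ[X])
    (v : Fin (r + 1) → ℚ[X]) (e D : ℕ) (hT : T.natDegree ≤ e) (hB : ∀ i j, (B i j).natDegree ≤ e)
    (hv : ∀ i, (v i).natDegree ≤ D) :
    (Matrix.det (Matrix.of fun s i : Fin (r + 1) => iter T B v s i)).natDegree ≤
      (r + 1) * (D + r * e) := by
  classical
  rw [Matrix.det_apply]
  refine natDegree_sum_le_of_forall_le _ _ fun σ _ => ?_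
  refine (natDegree_smul_le _ _).trans ?_
  refine (natDegree_prod_le _ _).trans ?_
  have h1 : ∀ i ∈ (Finset.univ : Finset (Fin (r + 1))),
      (Matrix.of (fun s i : Fin (r + 1) => iter T B v s i) (σ i) i).natDegree ≤ D + r * e := by
    intro i _
    refine (natDegree_iter T B v e D hT hB hv (σ i) i).trans ?_
    have h2 : (σ i : ℕ) ≤ r := by have := (σ i).isLt; omega
    have h3 : (σ i : ℕ) * e ≤ r * e := Nat.mul_le_mul_right e h2
    omega
  refine (Finset.sum_le_sum h1).trans ?_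
  rw [Finset.sum_const, Finset.card_univ, Fintype.card_fin, smul_eq_mul]

/-- The order of the determinant at a point `τ ≠ 0` is small.

Proof. If `(X - C τ) ^ k` divides the determinant `Δ ≠ 0` then `X ^ (r (K - r)) * (X - C τ) ^ k` divides it
(`IsCoprime.mul_dvd`, `IsCoprime.pow`, `Polynomial.isCoprime_X_sub_C_of_isUnit_sub` or directly), so
`r (K - r) + k ≤ natDegree Δ ≤ (r + 1) (D + r e)`. -/
theorem not_dvd_det {r : ℕ} (T : ℚ[X]) (B : Fin (r + 1) → Fin (r + 1) → ℚ[X])
    (Y : Fin (r + 1) → PowerSeries ℚ) (hY0 : Y 0 = 1) (hB0 : ∀ j, B 0 j = 0)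
    (hode : ∀ i, (T : PowerSeries ℚ) * PowerSeries.derivative ℚ (Y i) =
      ∑ j, (B i j : PowerSeries ℚ) * Y j)
    (v : Fin (r + 1) → ℚ[X]) (K e D : ℕ)
    (hv : ∀ i, (PowerSeries.X : PowerSeries ℚ) ^ K ∣ (v 0 : PowerSeries ℚ) * Y i - (v i : PowerSeries ℚ))
    (hT : T.natDegree ≤ e) (hB : ∀ i j, (B i j).natDegree ≤ e) (hvD : ∀ i, (v i).natDegree ≤ D)
    (hΔ : Matrix.det (Matrix.of fun s i : Fin (r + 1) => iter T B v s i) ≠ 0)
    {τ : ℚ} (hτ : τ ≠ 0) {k : ℕ} (hk : (r + 1) * (D + r * e) < r * (K - r) + k) :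
    ¬ (X - C τ) ^ k ∣ Matrix.det (Matrix.of fun s i : Fin (r + 1) => iter T B v s i) := by
  intro hdvd
  have h1 := X_pow_dvd_det T B Y hY0 hB0 hode v K hv
  have hcop : IsCoprime ((X : ℚ[X]) ^ (r * (K - r))) ((X - C τ) ^ k) := by
    refine IsCoprime.pow ?_
    have h2 := isCoprime_X_sub_C_of_isUnit_sub (R := ℚ) (a := 0) (b := τ)
      (isUnit_iff_ne_zero.2 (by simpa using hτ))
    simpa using h2
  have h3 := hcop.mul_dvd h1 hdvd
  have h4 := natDegree_le_of_dvd h3 hΔ
  rw [natDegree_mul (pow_ne_zero _ X_ne_zero) (pow_ne_zero _ (X_sub_C_ne_zero τ)), natDegree_pow,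
    natDegree_pow, natDegree_X, natDegree_X_sub_C, mul_one, mul_one] at h4
  have h5 := natDegree_det T B v e D hT hB hvD
  omega

end Pool.Agent.Lib.MP_bbe012_lc.PP
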