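import Pool.Agent.Lib.MP_bbe012_lc.PP.Est

/-!
# Values of the remainders
-/

namespace Pool.Agent.Lib.MP_bbe012_lc.PP

open Polynomial

private theorem estb_bound (f : PowerSeries ℚ) (C : ℕ) (L : ℚ)
    (hf : ∀ k, |PowerSeries.coeff k f| ≤ L * (C : ℚ) ^ (k + 1)) (τ : ℚ) (k : ℕ) :
    ‖((PowerSeries.coeff k f : ℚ) : ℝ) * (τ : ℝ) ^ k‖ ≤
      (L : ℝ) * C * ((C : ℝ) * |(τ : ℝ)|) ^ k := by
  rw [norm_mul, norm_pow, Real.norm_eq_abs, Real.norm_eq_abs]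
  have h1 : |((PowerSeries.coeff k f : ℚ) : ℝ)| ≤ (L : ℝ) * (C : ℝ) ^ (k + 1) := by
    have h2 := hf k
    have h3 : ((|PowerSeries.coeff k f| : ℚ) : ℝ) ≤ ((L * (C : ℚ) ^ (k + 1) : ℚ) : ℝ) :=
      Rat.cast_le.2 h2
    rw [Rat.cast_abs] at h3
    push_cast at h3
    exact h3
  calc |((PowerSeries.coeff k f : ℚ) : ℝ)| * |(τ : ℝ)| ^ k
      ≤ (L : ℝ) * (C : ℝ) ^ (k + 1) * |(τ : ℝ)| ^ k :=
        mul_le_mul_of_nonneg_right h1 (pow_nonneg (abs_nonneg _) k)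
    _ = (L : ℝ) * C * ((C : ℝ) * |(τ : ℝ)|) ^ k := by
        rw [mul_pow]
        ring

private theorem estb_L (f : PowerSeries ℚ) (C : ℕ) (L : ℚ)
    (hf : ∀ k, |PowerSeries.coeff k f| ≤ L * (C : ℚ) ^ (k + 1)) : 0 ≤ (L : ℝ) * C := by
  have h1 := (abs_nonneg _).trans (hf 0)
  rw [zero_add, pow_one] at h1
  have h2 : ((0 : ℚ) : ℝ) ≤ ((L * (C : ℚ) : ℚ) : ℝ) := Rat.cast_le.2 h1
  push_cast at h2
  exact h2

private theorem estb_summable (f : PowerSeries ℚ) (C : ℕ) (L : ℚ)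
    (hf : ∀ k, |PowerSeries.coeff k f| ≤ L * (C : ℚ) ^ (k + 1)) (τ : ℚ)
    (hτ : (C : ℝ) * |(τ : ℝ)| ≤ 1 / 2) :
    Summable fun k => ‖((PowerSeries.coeff k f : ℚ) : ℝ) * (τ : ℝ) ^ k‖ := by
  have hL := estb_L f C L hf
  have hx : 0 ≤ (C : ℝ) * |(τ : ℝ)| := mul_nonneg (Nat.cast_nonneg C) (abs_nonneg _)
  refine Summable.of_nonneg_of_le (fun k => norm_nonneg _) (fun k => estb_bound f C L hf τ k) ?_
  exact (summable_geometric_of_lt_one hx (lt_of_le_of_lt hτ (by norm_num))).mul_left _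

private theorem estb_poly (p : ℚ[X]) (τ : ℚ) :
    HasSum (fun k => ((PowerSeries.coeff k (p : PowerSeries ℚ) : ℚ) : ℝ) * (τ : ℝ) ^ k)
      ((p.eval τ : ℚ) : ℝ) := by
  have h1 : ((p.eval τ : ℚ) : ℝ) = ∑ k ∈ Finset.range (p.natDegree + 1),
      ((PowerSeries.coeff k (p : PowerSeries ℚ) : ℚ) : ℝ) * (τ : ℝ) ^ k := by
    rw [Polynomial.eval_eq_sum_range]
    rw [Rat.cast_sum]
    refine Finset.sum_congr rfl fun k _ => ?_
    rw [Polynomial.coeff_coe, Rat.cast_mul, Rat.cast_pow]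
  rw [h1]
  refine hasSum_sum_of_ne_finset_zero fun k hk => ?_
  rw [Finset.mem_range, not_lt] at hk
  rw [Polynomial.coeff_coe, Polynomial.coeff_eq_zero_of_natDegree_lt (by omega), Rat.cast_zero,
    zero_mul]

private theorem estb_poly' (p : ℚ[X]) (τ : ℚ) :
    Summable fun k => ‖((PowerSeries.coeff k (p : PowerSeries ℚ) : ℚ) : ℝ) * (τ : ℝ) ^ k‖ := by
  refine (hasSum_sum_of_ne_finset_zero (s := Finset.range (p.natDegree + 1))
    fun k hk => ?_).summable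
  rw [Finset.mem_range, not_lt] at hk
  rw [Polynomial.coeff_coe, Polynomial.coeff_eq_zero_of_natDegree_lt (by omega), Rat.cast_zero,
    zero_mul, norm_zero]

/-- The value of a product of a polynomial and of a series with coefficients of exponential growth.

Proof. `ev τ f` is an absolutely convergent series (compare with `∑ C (C |τ|) ^ k`, geometric with ratio
`≤ 1/2`); use `tsum_mul_tsum_eq_tsum_sum_antidiagonal_of_summable_norm` and `PowerSeries.coeff_mul`; the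
polynomial is a finite sum. (Or induction on the polynomial: constants, sums, and multiplication by `X`,
with `tsum_eq_zero_add`.) -/
theorem ev_mul (p : ℚ[X]) (f : PowerSeries ℚ) (C : ℕ)
    (hf : ∀ k, |PowerSeries.coeff k f| ≤ (C : ℚ) ^ (k + 1)) (τ : ℚ)
    (hτ : (C : ℝ) * |(τ : ℝ)| ≤ 1 / 2) :
    ev τ ((p : PowerSeries ℚ) * f) = ((p.eval τ : ℚ) : ℝ) * ev τ f := by
  have hf' : ∀ k, |PowerSeries.coeff k f| ≤ (1 : ℚ) * (C : ℚ) ^ (k + 1) := by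
    intro k
    rw [one_mul]
    exact hf k
  have h4 := tsum_mul_tsum_eq_tsum_sum_antidiagonal_of_summable_norm (estb_poly' p τ)
    (estb_summable f C 1 hf' τ hτ)
  rw [(estb_poly p τ).tsum_eq] at h4
  unfold ev
  rw [h4]
  refine tsum_congr fun n => ?_
  rw [PowerSeries.coeff_mul]
  push_cast
  rw [Finset.sum_mul]
  refine Finset.sum_congr rfl fun kl hkl => ?_
  rw [Finset.HasAntidiagonal.mem_antidiagonal] at hkl
  rw [← hkl, pow_add]
  ring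

private theorem estb_l1_one : l1 (1 : ℤ[X]) = 1 := by
  unfold l1
  rw [Polynomial.natDegree_one]
  simp

private theorem estb_l1_nonneg (p : ℤ[X]) : 0 ≤ l1 p :=
  Finset.sum_nonneg fun _ _ => abs_nonneg _

private theorem estb_l1_pow (p : ℤ[X]) (s : ℕ) : l1 (p ^ s) ≤ l1 p ^ s := by
  induction s with
  | zero => rw [pow_zero, pow_zero, estb_l1_one]
  | succ s ih =>
    rw [pow_succ, pow_succ]
    exact (l1_mul_le _ _).trans (mul_le_mul_of_nonneg_right ih (estb_l1_nonneg p))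

private theorem estb_hasse (q : ℤ[X]) (s : ℕ) :
    (hasseDeriv s q).map (Int.castRingHom ℚ) = hasseDeriv s (q.map (Int.castRingHom ℚ)) := by
  ext k
  rw [Polynomial.coeff_map, hasseDeriv_coeff, hasseDeriv_coeff, Polynomial.coeff_map, map_mul,
    map_natCast]

/-- The value at `τ` of the remainder of an iterated derivative.

Proof. Let `w = iter T B v s i` and `p = TZ ^ s * hasseDeriv s q`, so that `iter T B v s 0 = p` (`iter_zero_comp`,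
map of `hasseDeriv`). By `ev_mul` (for `Y i`, and for `f = 1`, or directly) the left side is
`|ev τ (p * Y i - w)|`, and the coefficients of `p * Y i - w` of index `< K - s` vanish (`rem_dvd`), those of
`w` of index `≥ K - s` vanish (`natDegree_iter`, `hs`). So it is at most
`∑_{k ≥ K - s} |coeff k (p * Y i)| |τ| ^ k ≤ ∑_{k ≥ K - s} l1 p * C ^ (k+1) |τ| ^ k = l1 p * C * (C |τ|) ^ (K - s) / (1 - C |τ|)`
(`abs_coeff_mul_le`). And `l1 p ≤ (l1 TZ) ^ s * (2 ^ D * l1 q)` (`l1_mul_le`, `l1_hasseDeriv_le`). -/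
theorem abs_rem_le {r : ℕ} (TZ q : ℤ[X]) (B : Fin (r + 1) → Fin (r + 1) → ℚ[X])
    (Y : Fin (r + 1) → PowerSeries ℚ) {C : ℕ} {d : ℕ → ℕ} (hY : GData Y C d)
    (hB0 : ∀ j, B 0 j = 0)
    (hode : ∀ i, ((TZ.map (Int.castRingHom ℚ) : ℚ[X]) : PowerSeries ℚ) *
      PowerSeries.derivative ℚ (Y i) = ∑ j, (B i j : PowerSeries ℚ) * Y j)
    (v : Fin (r + 1) → ℚ[X]) (hv0 : v 0 = q.map (Int.castRingHom ℚ)) (K e D : ℕ)
    (hv : ∀ i, (PowerSeries.X : PowerSeries ℚ) ^ K ∣ (v 0 : PowerSeries ℚ) * Y i - (v i : PowerSeries ℚ))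
    (hT : (TZ.map (Int.castRingHom ℚ)).natDegree ≤ e) (hB : ∀ i j, (B i j).natDegree ≤ e)
    (hvD : ∀ i, (v i).natDegree ≤ D) (s : ℕ) (hs : D + s * (e + 1) < K) (i : Fin (r + 1)) (τ : ℚ)
    (hτ : (C : ℝ) * |(τ : ℝ)| ≤ 1 / 2) :
    |(((iter (TZ.map (Int.castRingHom ℚ)) B v s 0).eval τ : ℚ) : ℝ) * ev τ (Y i) -
        (((iter (TZ.map (Int.castRingHom ℚ)) B v s i).eval τ : ℚ) : ℝ)| ≤
      2 * C * ((l1 TZ : ℝ) ^ s * (2 ^ D * (l1 q : ℝ))) * ((C : ℝ) * |(τ : ℝ)|) ^ (K - s) := by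
  obtain ⟨w, hw⟩ : ∃ w, w = iter (TZ.map (Int.castRingHom ℚ)) B v s i := ⟨_, rfl⟩
  obtain ⟨p, hp⟩ : ∃ p : ℤ[X], p = TZ ^ s * hasseDeriv s q := ⟨_, rfl⟩
  have h0 : iter (TZ.map (Int.castRingHom ℚ)) B v s 0 = p.map (Int.castRingHom ℚ) := by
    rw [iter_zero_comp _ _ B hB0 v hv0, hp, Polynomial.map_mul, Polynomial.map_pow, estb_hasse]
  have hrem := rem_dvd _ B Y hB0 hode v K hv s i
  have hdeg : w.natDegree ≤ D + s * e := by
    rw [hw]
    exact natDegree_iter _ B v e D hT hB hvD s i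
  rw [← hw] at hrem ⊢
  rw [h0] at hrem ⊢
  have hqD : q.natDegree ≤ D := by
    have h1 := hvD 0
    rw [hv0, Polynomial.natDegree_map_eq_of_injective (RingHom.injective_int _)] at h1
    exact h1
  have hl1 : (l1 p : ℝ) ≤ (l1 TZ : ℝ) ^ s * (2 ^ D * (l1 q : ℝ)) := by
    have h1 : l1 p ≤ l1 TZ ^ s * (2 ^ D * l1 q) := by
      rw [hp]
      refine (l1_mul_le _ _).trans ?_
      exact mul_le_mul (estb_l1_pow TZ s) (l1_hasseDeriv_le q s D hqD) (estb_l1_nonneg _)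
        (pow_nonneg (estb_l1_nonneg _) _)
    exact_mod_cast h1
  have hx : 0 ≤ (C : ℝ) * |(τ : ℝ)| := mul_nonneg (Nat.cast_nonneg C) (abs_nonneg _)
  have hx1 : (C : ℝ) * |(τ : ℝ)| < 1 := lt_of_le_of_lt hτ (by norm_num)
  have hco := abs_coeff_mul_le p (Y i) C hY.one_le (hY.growth i)
  -- the left side is the value of the difference
  have hS1 := (estb_summable _ C (l1 p : ℚ) hco τ hτ).of_norm
  have hS2 := estb_poly w τ
  have h1 : ((((p.map (Int.castRingHom ℚ)).eval τ : ℚ) : ℝ) * ev τ (Y i)) -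
      ((w.eval τ : ℚ) : ℝ) = ∑' k, (((PowerSeries.coeff k
        (((p.map (Int.castRingHom ℚ) : ℚ[X]) : PowerSeries ℚ) * Y i) : ℚ) : ℝ) * (τ : ℝ) ^ k -
        ((PowerSeries.coeff k (w : PowerSeries ℚ) : ℚ) : ℝ) * (τ : ℝ) ^ k) := by
    rw [← ev_mul _ (Y i) C (hY.growth i) τ hτ, hS1.tsum_sub hS2.summable, hS2.tsum_eq]
    rfl
  rw [h1]
  obtain ⟨a, ha⟩ : ∃ a : ℕ → ℝ, a = fun k => ((PowerSeries.coeff k
        (((p.map (Int.castRingHom ℚ) : ℚ[X]) : PowerSeries ℚ) * Y i) : ℚ) : ℝ) * (τ : ℝ) ^ k -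
        ((PowerSeries.coeff k (w : PowerSeries ℚ) : ℚ) : ℝ) * (τ : ℝ) ^ k := ⟨_, rfl⟩
  have haS : Summable a := by
    rw [ha]
    exact hS1.sub hS2.summable
  have ha0 : ∀ k, k < K - s → a k = 0 := by
    intro k hk
    have h2 := PowerSeries.X_pow_dvd_iff.1 hrem k hk
    rw [map_sub, sub_eq_zero] at h2
    rw [ha]
    show _ - _ = (0 : ℝ)
    rw [h2, sub_self]
  have ha1 : ∀ k, ‖a (k + (K - s))‖ ≤ (l1 p : ℝ) * C * ((C : ℝ) * |(τ : ℝ)|) ^ (K - s) *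
      ((C : ℝ) * |(τ : ℝ)|) ^ k := by
    intro k
    have h2 : PowerSeries.coeff (k + (K - s)) (w : PowerSeries ℚ) = 0 := by
      rw [Polynomial.coeff_coe]
      apply Polynomial.coeff_eq_zero_of_natDegree_lt
      have h3 : s * (e + 1) = s * e + s := by ring
      omega
    have h3 := estb_bound _ C (l1 p : ℚ) hco τ (k + (K - s))
    rw [ha]
    show ‖_ - _‖ ≤ _
    rw [h2, Rat.cast_zero, zero_mul, sub_zero]
    refine h3.trans (le_of_eq ?_)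
    rw [pow_add]
    push_cast
    ring
  have h2 : ∑' k, a k = ∑' k, a (k + (K - s)) := by
    rw [← haS.sum_add_tsum_nat_add (K - s), Finset.sum_eq_zero, zero_add]
    intro k hk
    exact ha0 k (Finset.mem_range.1 hk)
  have h3 : ‖∑' k, a (k + (K - s))‖ ≤ (l1 p : ℝ) * C * ((C : ℝ) * |(τ : ℝ)|) ^ (K - s) *
      (1 - (C : ℝ) * |(τ : ℝ)|)⁻¹ :=
    tsum_of_norm_bounded ((hasSum_geometric_of_lt_one hx hx1).mul_left _) ha1
  rw [← ha, h2, ← Real.norm_eq_abs]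
  refine h3.trans ?_
  have h4 : (1 - (C : ℝ) * |(τ : ℝ)|)⁻¹ ≤ 2 := by
    rw [inv_le_comm₀ (by linarith) (by norm_num)]
    linarith
  have h5 : 0 ≤ (C : ℝ) * ((C : ℝ) * |(τ : ℝ)|) ^ (K - s) :=
    mul_nonneg (Nat.cast_nonneg C) (pow_nonneg hx _)
  have h6 : 0 ≤ (l1 p : ℝ) := by exact_mod_cast estb_l1_nonneg p
  calc (l1 p : ℝ) * C * ((C : ℝ) * |(τ : ℝ)|) ^ (K - s) * (1 - (C : ℝ) * |(τ : ℝ)|)⁻¹
      = ((C : ℝ) * ((C : ℝ) * |(τ : ℝ)|) ^ (K - s)) * ((l1 p : ℝ) *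
        (1 - (C : ℝ) * |(τ : ℝ)|)⁻¹) := by ring
    _ ≤ ((C : ℝ) * ((C : ℝ) * |(τ : ℝ)|) ^ (K - s)) *
        (((l1 TZ : ℝ) ^ s * (2 ^ D * (l1 q : ℝ))) * 2) := by
        refine mul_le_mul_of_nonneg_left ?_ h5
        exact mul_le_mul hl1 h4 (inv_nonneg.2 (by linarith)) (h6.trans hl1)
    _ = 2 * C * ((l1 TZ : ℝ) ^ s * (2 ^ D * (l1 q : ℝ))) *
        ((C : ℝ) * |(τ : ℝ)|) ^ (K - s) := by ring

end Pool.Agent.Lib.MP_bbe012_lc.PP
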