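import Pool.Agent.Lib.MP_bbe012_lc.PP.Base

/-!
# Divisibility of the pairing of a solution with the iterated derivatives
-/

namespace Pool.Agent.Lib.MP_bbe012_lc.PP

open Polynomial

/-- The relation satisfied by `φ_s = ∑ η_i * sh τ (iter T B v s i)`:
`T φ_s' = (s + 1) φ_{s+1} + s T' φ_s` (at `τ`).

Proof. Multiply `sh_iter_succ` by `η i` and sum over `i`; `T * (∑ η_i w_i)' = ∑ (T η_i') w_i + ∑ η_i T w_i'`
(`Derivation.leibniz`, `map_sum`), and `∑_i (T η_i') w_i = - ∑_i ∑_j η_j B_{ji} w_i` cancels the term with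
`B` (`Finset.sum_comm`). -/
theorem phi_rel {m : ℕ} (T : ℚ[X]) (B : Fin m → Fin m → ℚ[X]) (v : Fin m → ℚ[X]) (τ : ℚ)
    (η : Fin m → PowerSeries ℚ)
    (hη : ∀ i, sh τ T * PowerSeries.derivative ℚ (η i) = - ∑ j, η j * sh τ (B j i)) (s : ℕ) :
    sh τ T * PowerSeries.derivative ℚ (∑ i, η i * sh τ (iter T B v s i)) =
      ((s : PowerSeries ℚ) + 1) * (∑ i, η i * sh τ (iter T B v (s + 1) i)) +
        (s : PowerSeries ℚ) * (sh τ (derivative T) * ∑ i, η i * sh τ (iter T B v s i)) := by
  have h1 : sh τ T * PowerSeries.derivative ℚ (∑ i, η i * sh τ (iter T B v s i)) =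
      (∑ i, (sh τ T * PowerSeries.derivative ℚ (η i)) * sh τ (iter T B v s i)) +
        ∑ i, η i * (sh τ T * PowerSeries.derivative ℚ (sh τ (iter T B v s i))) := by
    rw [map_sum, Finset.mul_sum, ← Finset.sum_add_distrib]
    refine Finset.sum_congr rfl fun i _ => ?_
    rw [Derivation.leibniz, smul_eq_mul, smul_eq_mul]
    ring
  have h2 : (∑ i, (sh τ T * PowerSeries.derivative ℚ (η i)) * sh τ (iter T B v s i)) =
      - ∑ i, η i * ∑ j, sh τ (B i j) * sh τ (iter T B v s j) := by
    calc (∑ i, (sh τ T * PowerSeries.derivative ℚ (η i)) * sh τ (iter T B v s i))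
        = - ∑ i, ∑ j, η j * sh τ (B j i) * sh τ (iter T B v s i) := by
          rw [← Finset.sum_neg_distrib]
          refine Finset.sum_congr rfl fun i _ => ?_
          rw [hη i, neg_mul, Finset.sum_mul]
      _ = - ∑ j, ∑ i, η j * sh τ (B j i) * sh τ (iter T B v s i) := by rw [Finset.sum_comm]
      _ = _ := by
          refine congrArg _ (Finset.sum_congr rfl fun j _ => ?_)
          rw [Finset.mul_sum]
          exact Finset.sum_congr rfl fun i _ => by ring
  have h3 : (∑ i, η i * (sh τ T * PowerSeries.derivative ℚ (sh τ (iter T B v s i)))) =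
      ((s : PowerSeries ℚ) + 1) * (∑ i, η i * sh τ (iter T B v (s + 1) i)) +
        (s : PowerSeries ℚ) * (sh τ (derivative T) * ∑ i, η i * sh τ (iter T B v s i)) +
        ∑ i, η i * ∑ j, sh τ (B i j) * sh τ (iter T B v s j) := by
    rw [Finset.mul_sum, Finset.mul_sum, Finset.mul_sum, ← Finset.sum_add_distrib,
      ← Finset.sum_add_distrib]
    refine Finset.sum_congr rfl fun i _ => ?_
    have h := sh_iter_succ T B v τ s i
    have h' : sh τ T * PowerSeries.derivative ℚ (sh τ (iter T B v s i)) =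
        ((s : PowerSeries ℚ) + 1) * sh τ (iter T B v (s + 1) i) +
          (s : PowerSeries ℚ) * (sh τ (derivative T) * sh τ (iter T B v s i)) +
          ∑ j, sh τ (B i j) * sh τ (iter T B v s j) := by
      rw [h]
      ring
    rw [h']
    ring
  rw [h1, h2, h3]
  ring

/-- If the constant coefficients of `φ_s` vanish for `s ≤ S`, then `X ^ k ∣ φ_s` for `s + k ≤ S + 1`.

Proof. Induction on `k`. For `k + 1`: `φ_s` and `φ_{s+1}` are divisible by `X ^ k` by induction, so by
`phi_rel` also `T * φ_s'`, and `φ_s'` since `T` is a unit (`constantCoeff_sh`, `hT`; a power series over a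
field with non zero constant coefficient is a unit: `PowerSeries.isUnit_iff_constantCoeff`). With
`PowerSeries.X_pow_dvd_iff`, `PowerSeries.coeff_derivative`: the coefficients `1, ..., k` of `φ_s` vanish;
the constant coefficient vanishes by `h0` (`map_sum`, `map_mul`, `constantCoeff_sh`). -/
theorem phi_dvd {m : ℕ} (T : ℚ[X]) (B : Fin m → Fin m → ℚ[X]) (v : Fin m → ℚ[X]) (τ : ℚ)
    (hT : T.eval τ ≠ 0) (η : Fin m → PowerSeries ℚ)
    (hη : ∀ i, sh τ T * PowerSeries.derivative ℚ (η i) = - ∑ j, η j * sh τ (B j i)) (S : ℕ)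
    (h0 : ∀ s ≤ S, ∑ i, PowerSeries.constantCoeff (η i) * (iter T B v s i).eval τ = 0) :
    ∀ k s, s + k ≤ S + 1 →
      (PowerSeries.X : PowerSeries ℚ) ^ k ∣ ∑ i, η i * sh τ (iter T B v s i) := by
  intro k
  induction k with
  | zero =>
    intro s _
    rw [pow_zero]
    exact one_dvd _
  | succ k ih =>
    intro s hs
    have hu : IsUnit (sh τ T) := by
      rw [PowerSeries.isUnit_iff_constantCoeff, constantCoeff_sh]
      exact isUnit_iff_ne_zero.2 hT
    have h1 := ih s (by omega)
    have h2 := ih (s + 1) (by omega)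
    have h3 : (PowerSeries.X : PowerSeries ℚ) ^ k ∣
        sh τ T * PowerSeries.derivative ℚ (∑ i, η i * sh τ (iter T B v s i)) := by
      rw [phi_rel T B v τ η hη s]
      exact dvd_add (Dvd.dvd.mul_left h2 _) (Dvd.dvd.mul_left (Dvd.dvd.mul_left h1 _) _)
    have h4 : (PowerSeries.X : PowerSeries ℚ) ^ k ∣
        PowerSeries.derivative ℚ (∑ i, η i * sh τ (iter T B v s i)) := by
      obtain ⟨u, hu'⟩ := hu
      rw [← hu'] at h3
      exact (Units.dvd_mul_left).1 h3
    rw [PowerSeries.X_pow_dvd_iff] at h4 ⊢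
    intro i hi
    rcases i with _ | i
    · rw [PowerSeries.coeff_zero_eq_constantCoeff_apply, map_sum]
      rw [← h0 s (by omega)]
      refine Finset.sum_congr rfl fun i _ => ?_
      rw [map_mul, constantCoeff_sh]
    · have h5 := h4 i (by omega)
      rw [PowerSeries.coeff_derivative] at h5
      rcases mul_eq_zero.1 h5 with h6 | h6
      · exact h6
      · exact absurd h6 (by positivity)

end Pool.Agent.Lib.MP_bbe012_lc.PP
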