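import Pool.Agent.Lib.MP_bbe012_lc.PP.Sol
import Pool.Agent.Lib.MP_bbe012_lc.PP.Phi

/-!
# The iterated derivatives span at a regular point
-/

namespace Pool.Agent.Lib.MP_bbe012_lc.PP

open Polynomial

/-- Let `τ` be a point with `T τ ≠ 0` at which the determinant `Δ` is not divisible by
`(X - τ) ^ (S + 1 - r)`. Then no non zero linear form kills all the values at `τ` of the iterated
derivatives of orders `s ≤ S`.

Proof. Suppose `∑ i, lam i * (iter T B v s i).eval τ = 0` for all `s ≤ S`. Let `η` be the solution of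
`exists_sol (sh τ T) _ (fun j i => sh τ (B j i)) lam` (`constantCoeff_sh`). By `phi_dvd` with `k = S + 1 - r`,
`φ_s = ∑ i, η i * sh τ (iter T B v s i)` is divisible by `X ^ (S + 1 - r)` for all `s ≤ r`. With
`M s i = sh τ (iter T B v s i)`: `M.mulVec η = φ`, so `M.adjugate.mulVec φ = det M • η`
(`Matrix.adjugate_mul`, `Matrix.mulVec_mulVec`) and `X ^ (S + 1 - r)` divides `det M * η i` for every `i`. Choose `i`
with `lam i ≠ 0`: `η i` is a unit (`PowerSeries.isUnit_iff_constantCoeff`), so `X ^ (S + 1 - r)` divides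
`det M = sh τ Δ` (`RingHom.map_det`), and `X_pow_dvd_sh` gives a contradiction. -/
theorem exists_ne {r : ℕ} (T : ℚ[X]) (B : Fin (r + 1) → Fin (r + 1) → ℚ[X])
    (v : Fin (r + 1) → ℚ[X]) {τ : ℚ} (hT : T.eval τ ≠ 0) {S : ℕ} (hS : r ≤ S)
    (hΔ : ¬ (X - C τ) ^ (S + 1 - r) ∣
      Matrix.det (Matrix.of fun s i : Fin (r + 1) => iter T B v s i))
    {lam : Fin (r + 1) → ℚ} (hlam : lam ≠ 0) :
    ∃ s ≤ S, ∑ i, lam i * (iter T B v s i).eval τ ≠ 0 := by
  by_contra hcon
  have hcon' : ∀ s ≤ S, ∑ i, lam i * (iter T B v s i).eval τ = 0 := by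
    intro s hs
    by_contra h
    exact hcon ⟨s, hs, h⟩
  obtain ⟨η, hη0, hη⟩ := exists_sol (sh τ T) (by rw [constantCoeff_sh]; exact hT)
    (fun j i => sh τ (B j i)) lam
  have h0 : ∀ s ≤ S, ∑ i, PowerSeries.constantCoeff (η i) * (iter T B v s i).eval τ = 0 := by
    intro s hs
    rw [← hcon' s hs]
    exact Finset.sum_congr rfl fun i _ => by rw [hη0]
  have hdvd := phi_dvd T B v τ hT η hη S h0 (S + 1 - r)
  set M : Matrix (Fin (r + 1)) (Fin (r + 1)) (PowerSeries ℚ) :=
    Matrix.of fun s i : Fin (r + 1) => sh τ (iter T B v s i) with hM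
  have hdet : M.det = sh τ (Matrix.det (Matrix.of fun s i : Fin (r + 1) => iter T B v s i)) := by
    rw [RingHom.map_det]
    rfl
  obtain ⟨i, hi⟩ := Function.ne_iff.mp hlam
  have hadj : M.det * η i = ∑ s, M.adjugate i s * M.mulVec η s := by
    have h1 : M.adjugate.mulVec (M.mulVec η) = M.det • η := by
      rw [Matrix.mulVec_mulVec, Matrix.adjugate_mul, Matrix.smul_mulVec, Matrix.one_mulVec]
    have h2 := congrFun h1 i
    rw [Pi.smul_apply, smul_eq_mul] at h2
    rw [← h2]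
    rfl
  have hmv : ∀ s : Fin (r + 1), M.mulVec η s = ∑ i, η i * sh τ (iter T B v s i) := by
    intro s
    have h1 : M.mulVec η s = ∑ i, M s i * η i := rfl
    rw [h1]
    exact Finset.sum_congr rfl fun i _ => by rw [mul_comm]; rfl
  have hall : (PowerSeries.X : PowerSeries ℚ) ^ (S + 1 - r) ∣ M.det * η i := by
    rw [hadj]
    refine Finset.dvd_sum fun s _ => ?_
    rw [hmv]
    exact Dvd.dvd.mul_left (hdvd s (by have := s.2; omega)) _
  have hu : IsUnit (η i) := by
    rw [PowerSeries.isUnit_iff_constantCoeff, hη0]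
    exact isUnit_iff_ne_zero.mpr hi
  rw [hu.dvd_mul_right, hdet, X_pow_dvd_sh] at hall
  exact hΔ hall

end Pool.Agent.Lib.MP_bbe012_lc.PP
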