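import Pool.Agent.Lib.MP_bbe012_lc.PP.Zero
import Pool.Agent.Lib.MP_bbe012_lc.PP.DetOrd
import Pool.Agent.Lib.MP_bbe012_lc.PP.Rank
import Pool.Agent.Lib.MP_bbe012_lc.PP.Siegel
import Pool.Agent.Lib.MP_bbe012_lc.PP.EstB

/-!
# Linear independence of the values
-/

namespace Pool.Agent.Lib.MP_bbe012_lc.PP

open Polynomial

private theorem MainA_int (p : ℚ[X]) (n D0 : ℕ) (hp : p.natDegree ≤ n)
    (h : ∀ k, ∃ z : ℤ, (D0 : ℚ) * p.coeff k = z) (τ : ℚ) :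
    ∃ z : ℤ, (D0 : ℚ) * (τ.den : ℚ) ^ n * p.eval τ = z := by
  choose z hz using h
  refine ⟨∑ k ∈ Finset.range (n + 1), z k * τ.num ^ k * (τ.den : ℤ) ^ (n - k), ?_⟩
  rw [eval_eq_sum_range' (Nat.lt_succ_of_le hp), Finset.mul_sum]
  push_cast
  refine Finset.sum_congr rfl fun k hk => ?_
  have hk' : k ≤ n := Nat.lt_succ_iff.1 (Finset.mem_range.1 hk)
  have h1 : (τ.den : ℚ) ^ n * τ ^ k = (τ.num : ℚ) ^ k * (τ.den : ℚ) ^ (n - k) := by
    have h2 : (τ.den : ℚ) ^ n = (τ.den : ℚ) ^ k * (τ.den : ℚ) ^ (n - k) := by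
      rw [← pow_add, Nat.add_sub_cancel' hk']
    have h3 : τ * (τ.den : ℚ) = τ.num := Rat.mul_den_eq_num τ
    rw [h2, ← h3, mul_pow]
    ring
  rw [← hz k]
  linear_combination ((D0 : ℚ) * p.coeff k) * h1

private theorem MainA_l1 (q : ℤ[X]) (D M : ℕ) (hq : q.natDegree ≤ D)
    (h : ∀ k, |q.coeff k| ≤ (M : ℤ)) : l1 q ≤ (D + 1) * M := by
  unfold l1
  calc ∑ k ∈ Finset.range (q.natDegree + 1), |q.coeff k|
      ≤ ∑ k ∈ Finset.range (q.natDegree + 1), (M : ℤ) := Finset.sum_le_sum fun k _ => h k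
    _ = (q.natDegree + 1) * M := by
        rw [Finset.sum_const, Finset.card_range, nsmul_eq_mul]
        push_cast
        ring
    _ ≤ (D + 1) * M := by
        have h1 : (q.natDegree : ℤ) ≤ D := by exact_mod_cast hq
        have h2 : (0 : ℤ) ≤ M := by positivity
        exact mul_le_mul_of_nonneg_right (by linarith) h2

private theorem MainA_l1_nonneg (q : ℤ[X]) : 0 ≤ l1 q :=
  Finset.sum_nonneg fun _ _ => abs_nonneg _

/-- The two estimates for one value of `g`. -/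
private theorem MainA_step {r : ℕ} (TZ : ℤ[X]) (B : Fin (r + 1) → Fin (r + 1) → ℚ[X])
    (Y : Fin (r + 1) → PowerSeries ℚ) (hY0 : Y 0 = 1) {C : ℕ} {d : ℕ → ℕ} (hY : GData Y C d)
    (hB0 : ∀ j, B 0 j = 0)
    (hode : ∀ i, ((TZ.map (Int.castRingHom ℚ) : ℚ[X]) : PowerSeries ℚ) *
      PowerSeries.derivative ℚ (Y i) = ∑ j, (B i j : PowerSeries ℚ) * Y j)
    (e C₁ c₀ : ℕ) (hTe : (TZ.map (Int.castRingHom ℚ)).natDegree ≤ e)
    (hBe : ∀ i j, (B i j).natDegree ≤ e)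
    (hq : ∀ g : ℕ, 1 ≤ g → ∃ q : ℤ[X], q ≠ 0 ∧ q.natDegree ≤ (r * (4 * (e + 1)) + 1) * g ∧
      (∀ k, |q.coeff k| ≤ (C₁ : ℤ) ^ g) ∧
      ∀ (i : Fin (r + 1)) (k : ℕ), (r * (4 * (e + 1)) + 1) * g < k →
        k < (r * (4 * (e + 1)) + 1) * g + 1 + (4 * (e + 1)) * g →
        PowerSeries.coeff k (((q.map (Int.castRingHom ℚ) : ℚ[X]) : PowerSeries ℚ) * Y i) = 0)
    (hdet : ∀ (D K : ℕ) (v : Fin (r + 1) → ℚ[X]), v 0 ≠ 0 → (v 0).natDegree ≤ D → D + c₀ ≤ K →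
      (∀ i, (PowerSeries.X : PowerSeries ℚ) ^ K ∣ (v 0 : PowerSeries ℚ) * Y i - (v i : PowerSeries ℚ)) →
      Matrix.det (Matrix.of fun s i : Fin (r + 1) =>
        iter (TZ.map (Int.castRingHom ℚ)) B v s i) ≠ 0)
    (g : ℕ) (hg1 : 1 ≤ g) (hgc : c₀ ≤ g) (hg3 : (r + 1) * r * e + r ^ 2 + r ≤ g)
    (τ : ℚ) (hτ0 : τ ≠ 0) (hTτ : (TZ.map (Int.castRingHom ℚ)).eval τ ≠ 0)
    (hτC : (C : ℝ) * |(τ : ℝ)| ≤ 1 / 2)
    (z : Fin (r + 1) → ℤ) (hz : z ≠ 0) (hrel : ∑ i, (z i : ℝ) * ev τ (Y i) = 0) :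
    ∃ (s K D : ℕ) (q : ℤ[X]), D = (r * (4 * (e + 1)) + 1) * g ∧ K = D + 1 + (4 * (e + 1)) * g ∧
      s ≤ 2 * g ∧ (∀ k, |q.coeff k| ≤ (C₁ : ℤ) ^ g) ∧ q.natDegree ≤ D ∧
      (1 : ℝ) ≤ (C : ℝ) ^ (K + 1) * (τ.den : ℝ) ^ (D + s * e) * ((∑ i, |(z i : ℝ)|) *
        (2 * C * ((l1 TZ : ℝ) ^ s * (2 ^ D * (l1 q : ℝ))) * ((C : ℝ) * |(τ : ℝ)|) ^ (K - s))) := by
  obtain ⟨q, hq0, hqD, hqc, hqv⟩ := hq g hg1
  obtain ⟨E, hE⟩ : ∃ E, E = 4 * (e + 1) := ⟨_, rfl⟩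
  rw [← hE] at hqD hqv ⊢
  obtain ⟨D, hD⟩ : ∃ D, D = (r * E + 1) * g := ⟨_, rfl⟩
  obtain ⟨K, hK⟩ : ∃ K, K = D + 1 + E * g := ⟨_, rfl⟩
  rw [← hD] at hqD hqv ⊢
  rw [← hK] at hqv
  obtain ⟨T, hT⟩ : ∃ T, T = TZ.map (Int.castRingHom ℚ) := ⟨_, rfl⟩
  have hgE : g ≤ E * g := Nat.le_mul_of_pos_left g (by omega)
  obtain ⟨v, hv⟩ : ∃ v : Fin (r + 1) → ℚ[X], v = fun i =>
    PowerSeries.trunc (D + 1) (((q.map (Int.castRingHom ℚ) : ℚ[X]) : PowerSeries ℚ) * Y i) := ⟨_, rfl⟩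
  have hqm : (q.map (Int.castRingHom ℚ)).natDegree ≤ D := le_trans natDegree_map_le hqD
  have hv0 : v 0 = q.map (Int.castRingHom ℚ) := by
    rw [hv]
    simp only
    rw [hY0, mul_one]
    exact PowerSeries.trunc_coe_eq_self (Nat.lt_succ_of_le hqm)
  have hvD : ∀ i, (v i).natDegree ≤ D := by
    intro i
    rw [hv]
    exact Nat.lt_succ_iff.1 (PowerSeries.natDegree_trunc_lt _ _)
  have hvK : ∀ i, (PowerSeries.X : PowerSeries ℚ) ^ K ∣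
      (v 0 : PowerSeries ℚ) * Y i - (v i : PowerSeries ℚ) := by
    intro i
    rw [PowerSeries.X_pow_dvd_iff]
    intro k hk
    rw [map_sub, hv0, Polynomial.coeff_coe, hv]
    simp only
    rw [PowerSeries.coeff_trunc]
    by_cases h1 : k < D + 1
    · rw [if_pos h1, sub_self]
    · rw [if_neg h1, sub_zero]
      exact hqv i k (by omega) hk
  have hv0' : v 0 ≠ 0 := by
    rw [hv0]
    intro h1
    apply hq0
    exact (Polynomial.map_eq_zero_iff (RingHom.injective_int (Int.castRingHom ℚ))).1 h1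
  have hΔ := hdet D K v hv0' (hvD 0) (by omega) hvK
  have hr : r ≤ g := le_trans (Nat.le_add_left r _) hg3
  have hKr : r ≤ K := by omega
  obtain ⟨S, hS⟩ : ∃ S, S = g + ((r + 1) * r * e + r ^ 2 + r) := ⟨_, rfl⟩
  have hSr : r ≤ S + 1 := by omega
  have hnum : (r + 1) * (D + r * e) + (r + 1) = r * (K - r) + (S + 1 - r) := by
    zify [hKr, hSr]
    rw [hK, hS, hD]
    push_cast
    ring
  have hnd := not_dvd_det (TZ.map (Int.castRingHom ℚ)) B Y hY0 hB0 hode v K e D hvK hTe hBe hvD hΔ hτ0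
    (k := S + 1 - r) (by omega)
  have hz' : (fun i => (z i : ℚ)) ≠ 0 := by
    intro h1
    apply hz
    funext i
    have h2 := congrFun h1 i
    simpa using h2
  obtain ⟨s, hsS, hΛ⟩ := exists_ne (TZ.map (Int.castRingHom ℚ)) B v hTτ (S := S) (by omega) hnd hz'
  have hs2 : s ≤ 2 * g := by omega
  have hse : s * (e + 1) ≤ E * g := by
    calc s * (e + 1) ≤ (2 * g) * (e + 1) := Nat.mul_le_mul_right _ hs2
      _ ≤ E * g := by
          rw [hE]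
          nlinarith
  have hsK : D + s * (e + 1) < K := by omega
  refine ⟨s, K, D, q, rfl, hK, hs2, hqc, hqD, ?_⟩
  -- the lower bound
  have hint : ∀ i, ∃ w : ℤ, (d K : ℚ) * (τ.den : ℚ) ^ (D + s * e) *
      (iter (TZ.map (Int.castRingHom ℚ)) B v s i).eval τ = w := by
    intro i
    refine MainA_int _ _ _ (natDegree_iter _ B v e D hTe hBe hvD s i) ?_ τ
    intro k
    exact den_iter TZ q B Y hY hB0 hode v hv0 K e D hvK hTe hBe hvD s hsK i k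
  choose w hw using hint
  obtain ⟨Λ, hΛd⟩ : ∃ Λ : ℚ, Λ = ∑ i, (z i : ℚ) *
    (iter (TZ.map (Int.castRingHom ℚ)) B v s i).eval τ := ⟨_, rfl⟩
  rw [← hΛd] at hΛ
  have hdK : 0 < d K := hY.dpos K
  have hden : 0 < τ.den := τ.den_pos
  have hwΛ : (d K : ℚ) * (τ.den : ℚ) ^ (D + s * e) * Λ = ((∑ i, z i * w i : ℤ) : ℚ) := by
    rw [hΛd, Finset.mul_sum]
    push_cast
    refine Finset.sum_congr rfl fun i _ => ?_
    rw [← hw i]
    ring
  have hpos : (0 : ℚ) < (d K : ℚ) * (τ.den : ℚ) ^ (D + s * e) := by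
    have h1 : (0 : ℚ) < d K := by exact_mod_cast hdK
    have h2 : (0 : ℚ) < τ.den := by exact_mod_cast hden
    positivity
  have hw0 : (∑ i, z i * w i : ℤ) ≠ 0 := by
    intro h1
    rw [h1, Int.cast_zero] at hwΛ
    rcases mul_eq_zero.1 hwΛ with h2 | h2
    · exact hpos.ne' h2
    · exact hΛ h2
  have hlow : (1 : ℝ) ≤ (d K : ℝ) * (τ.den : ℝ) ^ (D + s * e) * |(Λ : ℝ)| := by
    have h1 : (1 : ℤ) ≤ |∑ i, z i * w i| := Int.one_le_abs hw0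
    have h2 : (1 : ℚ) ≤ |(d K : ℚ) * (τ.den : ℚ) ^ (D + s * e) * Λ| := by
      rw [hwΛ, ← Int.cast_abs]
      exact_mod_cast h1
    rw [abs_mul, abs_of_pos hpos] at h2
    have h3 : (((1 : ℚ)) : ℝ) ≤ (((d K : ℚ) * (τ.den : ℚ) ^ (D + s * e) * |Λ| : ℚ) : ℝ) := by
      exact_mod_cast h2
    push_cast at h3
    exact h3
  -- the upper bound
  have hup : |(Λ : ℝ)| ≤ (∑ i, |(z i : ℝ)|) *
      (2 * C * ((l1 TZ : ℝ) ^ s * (2 ^ D * (l1 q : ℝ))) * ((C : ℝ) * |(τ : ℝ)|) ^ (K - s)) := by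
    have h1 : (Λ : ℝ) = - ∑ i, (z i : ℝ) *
        ((((iter (TZ.map (Int.castRingHom ℚ)) B v s 0).eval τ : ℚ) : ℝ) * ev τ (Y i) -
          (((iter (TZ.map (Int.castRingHom ℚ)) B v s i).eval τ : ℚ) : ℝ)) := by
      have h2 : ∑ i, (z i : ℝ) *
        ((((iter (TZ.map (Int.castRingHom ℚ)) B v s 0).eval τ : ℚ) : ℝ) * ev τ (Y i) -
          (((iter (TZ.map (Int.castRingHom ℚ)) B v s i).eval τ : ℚ) : ℝ)) =
          (((iter (TZ.map (Int.castRingHom ℚ)) B v s 0).eval τ : ℚ) : ℝ) *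
            (∑ i, (z i : ℝ) * ev τ (Y i)) -
          ∑ i, (z i : ℝ) * (((iter (TZ.map (Int.castRingHom ℚ)) B v s i).eval τ : ℚ) : ℝ) := by
        rw [Finset.mul_sum, ← Finset.sum_sub_distrib]
        exact Finset.sum_congr rfl fun i _ => by ring
      rw [h2, hrel, mul_zero, zero_sub, neg_neg, hΛd]
      push_cast
      rfl
    rw [h1, abs_neg, Finset.sum_mul]
    refine le_trans (Finset.abs_sum_le_sum_abs _ _) (Finset.sum_le_sum fun i _ => ?_)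
    rw [abs_mul]
    exact mul_le_mul_of_nonneg_left
      (abs_rem_le TZ q B Y hY hB0 hode v hv0 K e D hvK hTe hBe hvD s hsK i τ hτC) (abs_nonneg _)
  have hdC : (d K : ℝ) ≤ (C : ℝ) ^ (K + 1) := by exact_mod_cast hY.dle K
  calc (1 : ℝ) ≤ (d K : ℝ) * (τ.den : ℝ) ^ (D + s * e) * |(Λ : ℝ)| := hlow
    _ ≤ (C : ℝ) ^ (K + 1) * (τ.den : ℝ) ^ (D + s * e) * ((∑ i, |(z i : ℝ)|) *
        (2 * C * ((l1 TZ : ℝ) ^ s * (2 ^ D * (l1 q : ℝ))) * ((C : ℝ) * |(τ : ℝ)|) ^ (K - s))) := by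
      refine mul_le_mul ?_ hup (abs_nonneg _) (by positivity)
      exact mul_le_mul_of_nonneg_right hdC (by positivity)

/-- Comparison of the powers. -/
private theorem MainA_pow (C L C₁ r e g s K D : ℕ) (hC : 1 ≤ C) (hL : 1 ≤ L) (hC₁ : 1 ≤ C₁)
    (hg : 1 ≤ g) (hD : D = (r * (4 * (e + 1)) + 1) * g) (hK : K = D + 1 + (4 * (e + 1)) * g)
    (hs : s ≤ 2 * g) (t q Z a b : ℝ) (ht0 : 0 ≤ t) (ht : t ≤ L) (hq0 : 0 ≤ q)
    (hq : q ≤ ((D : ℝ) + 1) * (C₁ : ℝ) ^ g) (hZ : 0 ≤ Z) (ha : 1 ≤ a) (hb : 1 ≤ b) :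
    (C : ℝ) ^ (K + 1) * b ^ (D + s * e) * (Z * (2 * C * (t ^ s * (2 ^ D * q)) *
      ((C : ℝ) * (a / b)) ^ (K - s))) ≤
    Z * (((C : ℝ) ^ (r * (4 * (e + 1)) + 4 * (e + 1) + 3) * (2 * C) * (L : ℝ) ^ 2 *
      2 ^ (r * (4 * (e + 1)) + 1) * (2 ^ (r * (4 * (e + 1)) + 2) * C₁) *
      (C : ℝ) ^ (r * (4 * (e + 1)) + 4 * (e + 1) + 2)) *
      a ^ (r * (4 * (e + 1)) + 4 * (e + 1) + 2) / b) ^ g := by
  obtain ⟨E, hE⟩ : ∃ E, E = 4 * (e + 1) := ⟨_, rfl⟩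
  rw [← hE] at hD hK ⊢
  obtain ⟨R, hR⟩ : ∃ R, R = r * E := ⟨_, rfl⟩
  rw [← hR] at hD ⊢
  have hCr : (1 : ℝ) ≤ C := by exact_mod_cast hC
  have hLr : (1 : ℝ) ≤ L := by exact_mod_cast hL
  have hC1r : (1 : ℝ) ≤ C₁ := by exact_mod_cast hC₁
  have hD' : D = R * g + g := by rw [hD]; ring
  have e1 : K + 1 ≤ (R + E + 3) * g := by
    have h1 : (R + E + 3) * g = R * g + E * g + 3 * g := by ring
    rw [h1]
    omega
  have e2 : K - s ≤ (R + E + 2) * g := by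
    have h1 : (R + E + 2) * g = R * g + E * g + 2 * g := by ring
    rw [h1]
    omega
  have e3 : D + 1 ≤ (R + 2) * g := by
    have h1 : (R + 2) * g = R * g + 2 * g := by ring
    rw [h1]
    omega
  have e4 : D + s * e + g ≤ K - s := by
    have h1 : s * e + s ≤ 2 * g * e + 2 * g := by
      have h2 : s * e ≤ 2 * g * e := Nat.mul_le_mul_right _ hs
      omega
    have h3 : E * g = 4 * (g * e) + 4 * g := by rw [hE]; ring
    have h4 : 2 * g * e = 2 * (g * e) := by ring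
    omega
  have f1 : (C : ℝ) ^ (K + 1) ≤ ((C : ℝ) ^ (R + E + 3)) ^ g := by
    rw [← pow_mul]
    exact pow_le_pow_right₀ hCr e1
  have f2 : (2 * C : ℝ) ≤ (2 * C : ℝ) ^ g := le_self_pow₀ (by linarith) (by omega)
  have f3 : t ^ s ≤ ((L : ℝ) ^ 2) ^ g := by
    rw [← pow_mul]
    exact le_trans (pow_le_pow_left₀ ht0 ht s) (pow_le_pow_right₀ hLr hs)
  have f4 : (2 : ℝ) ^ D = (2 ^ (R + 1)) ^ g := by
    rw [← pow_mul, hD]
  have f5 : q ≤ (2 ^ (R + 2) * (C₁ : ℝ)) ^ g := by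
    rw [mul_pow, ← pow_mul]
    refine le_trans hq (mul_le_mul_of_nonneg_right ?_ (by positivity))
    calc (D : ℝ) + 1 ≤ 2 ^ (D + 1) := by
          have h1 : D + 1 < 2 ^ (D + 1) := Nat.lt_two_pow_self
          exact_mod_cast h1.le
      _ ≤ 2 ^ ((R + 2) * g) := pow_le_pow_right₀ (by norm_num) e3
  have f6 : (C : ℝ) ^ (K - s) ≤ ((C : ℝ) ^ (R + E + 2)) ^ g := by
    rw [← pow_mul]
    exact pow_le_pow_right₀ hCr e2
  have f7 : a ^ (K - s) ≤ (a ^ (R + E + 2)) ^ g := by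
    rw [← pow_mul]
    exact pow_le_pow_right₀ ha e2
  have hb0 : (0 : ℝ) < b := by linarith
  have f8 : b ^ (D + s * e) / b ^ (K - s) ≤ 1 / b ^ g := by
    rw [div_le_div_iff₀ (by positivity) (by positivity), ← pow_add, one_mul]
    exact pow_le_pow_right₀ hb e4
  calc (C : ℝ) ^ (K + 1) * b ^ (D + s * e) * (Z * (2 * C * (t ^ s * (2 ^ D * q)) *
      ((C : ℝ) * (a / b)) ^ (K - s)))
      = Z * ((C : ℝ) ^ (K + 1) * (2 * C) * t ^ s * 2 ^ D * q * (C : ℝ) ^ (K - s) *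
          a ^ (K - s) * (b ^ (D + s * e) / b ^ (K - s))) := by
        rw [mul_pow, div_pow]
        ring
    _ ≤ Z * (((C : ℝ) ^ (R + E + 3)) ^ g * (2 * C) ^ g * ((L : ℝ) ^ 2) ^ g * (2 ^ (R + 1)) ^ g *
          (2 ^ (R + 2) * (C₁ : ℝ)) ^ g * ((C : ℝ) ^ (R + E + 2)) ^ g *
          (a ^ (R + E + 2)) ^ g * (1 / b ^ g)) := by
        rw [f4]
        gcongr
    _ = Z * (((C : ℝ) ^ (R + E + 3) * (2 * C) * (L : ℝ) ^ 2 * 2 ^ (R + 1) *
          (2 ^ (R + 2) * C₁) * (C : ℝ) ^ (R + E + 2)) * a ^ (R + E + 2) / b) ^ g := by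
        rw [div_pow]
        simp only [mul_pow]
        ring

/-- Clearing denominators of a polynomial. -/
private theorem MainA_clear (T : ℚ[X]) : ∃ (c : ℤ) (TZ : ℤ[X]), c ≠ 0 ∧
    TZ.map (Int.castRingHom ℚ) = C (c : ℚ) * T := by
  obtain ⟨b, hb0, hb⟩ := IsLocalization.integerNormalization_spec (nonZeroDivisors ℤ) T
  refine ⟨b, IsLocalization.integerNormalization (nonZeroDivisors ℤ) T,
    nonZeroDivisors.ne_zero hb0, ?_⟩
  have h1 : (algebraMap ℤ ℚ) = Int.castRingHom ℚ := rfl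
  rw [← h1, hb]
  ext k
  rw [coeff_smul, coeff_C_mul]
  show (b : ℤ) • T.coeff k = _
  rw [zsmul_eq_mul]

/-- A common denominator of a rational vector. -/
private theorem MainA_den {m : ℕ} (lam : Fin m → ℚ) (h : lam ≠ 0) :
    ∃ (P : ℕ) (z : Fin m → ℤ), 0 < P ∧ z ≠ 0 ∧ ∀ i, (P : ℚ) * lam i = z i := by
  have h1 : ∀ i, ∃ z : ℤ, ((∏ j, (lam j).den : ℕ) : ℚ) * lam i = z := by
    intro i
    obtain ⟨k, hk⟩ := Finset.dvd_prod_of_mem (fun j => (lam j).den) (Finset.mem_univ i)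
    refine ⟨(k : ℤ) * (lam i).num, ?_⟩
    rw [hk]
    push_cast
    have h2 : lam i * ((lam i).den : ℚ) = (lam i).num := Rat.mul_den_eq_num (lam i)
    rw [← h2]
    ring
  choose z hz using h1
  have hP : 0 < ∏ j, (lam j).den := Finset.prod_pos fun j _ => (lam j).den_pos
  refine ⟨∏ j, (lam j).den, z, hP, ?_, hz⟩
  intro h2
  apply h
  funext i
  have h3 := hz i
  rw [h2] at h3
  have h4 : ((∏ j, (lam j).den : ℕ) : ℚ) ≠ 0 := by exact_mod_cast hP.ne'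
  have h5 : ((∏ j, (lam j).den : ℕ) : ℚ) * lam i = 0 := by
    rw [h3]
    simp
  exact (mul_eq_zero.1 h5).resolve_left h4

/-- A nonzero polynomial does not vanish at small nonzero points. -/
private theorem MainA_root (T : ℚ[X]) (hT : T ≠ 0) : ∃ N : ℕ, 1 ≤ N ∧ ∀ τ : ℚ, τ ≠ 0 →
    (N : ℚ) * |τ| ≤ 1 → T.eval τ ≠ 0 := by
  refine ⟨1 + ∑ x ∈ T.roots.toFinset, ⌈1 / |x|⌉₊, by omega, ?_⟩
  intro τ hτ h1 h2
  have hm : τ ∈ T.roots.toFinset := by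
    rw [Multiset.mem_toFinset, mem_roots hT]
    exact h2
  have h3 : ⌈1 / |τ|⌉₊ ≤ ∑ x ∈ T.roots.toFinset, ⌈1 / |x|⌉₊ :=
    Finset.single_le_sum (f := fun x : ℚ => ⌈1 / |x|⌉₊) (fun _ _ => Nat.zero_le _) hm
  have h4 : (1 / |τ| : ℚ) ≤ (∑ x ∈ T.roots.toFinset, ⌈1 / |x|⌉₊ : ℕ) :=
    le_trans (Nat.le_ceil _) (by exact_mod_cast h3)
  have h5 : 0 < |τ| := abs_pos.2 hτ
  rw [div_le_iff₀ h5] at h4
  rw [Nat.cast_add, Nat.cast_one, add_mul, one_mul] at h1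
  linarith

/-- **Linear independence of values of G-functions.** Let `Y 0 = 1, Y 1, ..., Y r` be power series with
rational coefficients, with growth and denominators as in `GData`, linearly independent over `ℚ(X)`,
with `T Y' = B Y`. There is `N` such that for all rational `τ = a / b ≠ 0` in lowest terms with
`N |a| ^ N ≤ b`: `C |τ| ≤ 1 / 2` and the numbers `ev τ (Y i)` are linearly independent over `ℚ`.

Proof.
(0) `B 0 j = 0` for all `j`: by `hode 0`, `hY0` and `PowerSeries.derivative_one`, `∑ j, B 0 j * Y j = 0`; use `hI`.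
(1) Clear denominators: there are `TZ : ℤ[X]` and `c : ℤ`, `c ≠ 0`, with `TZ.map = C c * T`
(`IsLocalization.integerNormalization` or the product of the denominators of the coefficients); replace `B` by
`B' = C c * B`: `hode` holds for `TZ.map`, `B'`. `T' := TZ.map ≠ 0`.
(2) Constants: `e ≥ 1` bounding the degrees of `T'` and of all `B' i j`; `E = 4 (e + 1)`; `C₁` from `exists_q`
(with this `E`); `c₀` from `det_iter_ne_zero T'`; `c₃ = (r + 1) r e + r ^ 2 + r`; `L = l1 TZ` (an integer `≥ 0`;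
use `max L 1`).
(3) `N`: such that `τ ≠ 0`, `N |a| ^ N ≤ b` imply `T'.eval τ ≠ 0` (a nonzero polynomial has finitely many roots, so it
has no root with `0 < |τ| ≤ 1 / N` for large `N`; note `|τ| = |a| / b ≤ 1 / N` since `|a| ≥ 1`, `b ≥ N |a| ^ N ≥ N |a|`),
`C |τ| ≤ 1 / 2` (`N ≥ 2 C`), and `N ≥ 2 M`, `N ≥ c₄` for the constants `M`, `c₄` of (6).
(4) Let `lam ≠ 0` with `∑ lam i * ev τ (Y i) = 0`; multiplying by a common denominator we may assume that the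
`lam i = z i` are integers. Let `g` be large (`g ≥ 1, c₀, c₃, r`), `D = (r E + 1) g`, `K = D + 1 + E g`, `q` from
`exists_q`, `v i = PowerSeries.trunc (D + 1) (q * Y i)` (so `v 0 = q` since `Y 0 = 1` and `natDegree q ≤ D`;
`natDegree (v i) ≤ D`; `X ^ K ∣ (v 0) * Y i - v i`: the coefficients of index `≤ D` cancel, those with
`D < k < K` vanish by `exists_q`).
(5) `S = g + c₃`. `det_iter_ne_zero` applies (`D + c₀ ≤ K`). `not_dvd_det` applies with `k = S + 1 - r`: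
`(r + 1) (D + r e) < r (K - r) + (S + 1 - r)` because `(r + 1) D - r (D + 1 + E g - r) = D - r E g + r ^ 2 - r = g + r ^ 2 - r`
and `S + 1 - r > g + r ^ 2 - r + (r + 1) r e`. So `exists_ne` gives `s ≤ S` with
`Λ = ∑ z i * (iter T' B' v s i).eval τ ≠ 0`.
(6) For all `s ≤ S`: `s (e + 1) ≤ (g + c₃) (e + 1) ≤ 2 g (e + 1) = E g / 2`, so `D + s (e + 1) < K` and
`K - s - (D + s e) ≥ E g / 2`. Lower bound: `d K * b ^ (D + s e) * Λ` is a nonzero integer (`den_iter`, `natDegree_iter`;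
`b ^ n * (p.eval τ)` is an integer if `p` has integral coefficients and degree `≤ n`), so
`1 ≤ C ^ (K + 1) * b ^ (D + s e) * |Λ|`. Upper bound: `- Λ = ∑ z i * ((iter .. s 0).eval τ * ev τ (Y i) - (iter .. s i).eval τ)`
(by the relation), so by `abs_rem_le`
`|Λ| ≤ (∑ |z i|) * 2 * C * (L ^ s * (2 ^ D * l1 q)) * (C |a| / b) ^ (K - s)` with `l1 q ≤ (D + 1) * C₁ ^ g`.
Since `D, K, s, E g` are at most a constant times `g` and `D + 1 ≤ 2 ^ (D + 1)`, there are constants `M`, `c₄`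
(independent of `τ`, `g`, `lam`), with
`1 ≤ (∑ |z i|) * M ^ g * |a| ^ (c₄ g) / b ^ (E g / 2)`, where `E g / 2 = 2 (e + 1) g ≥ g`, so
`1 ≤ (∑ |z i|) * (M |a| ^ c₄ / b) ^ g ≤ (∑ |z i|) * (1 / 2) ^ g` (as `b ≥ N |a| ^ N ≥ 2 M |a| ^ c₄`), which is false
for large `g`. -/
theorem values_independent {r : ℕ} (T : ℚ[X]) (hT : T ≠ 0)
    (B : Fin (r + 1) → Fin (r + 1) → ℚ[X]) (Y : Fin (r + 1) → PowerSeries ℚ) (hY0 : Y 0 = 1)
    (hI : Indep Y) {C : ℕ} {d : ℕ → ℕ} (hY : GData Y C d)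
    (hode : ∀ i, (T : PowerSeries ℚ) * PowerSeries.derivative ℚ (Y i) =
      ∑ j, (B i j : PowerSeries ℚ) * Y j) :
    ∃ N : ℕ, 1 ≤ N ∧ ∀ τ : ℚ, τ ≠ 0 → N * τ.num.natAbs ^ N ≤ τ.den →
      (C : ℝ) * |(τ : ℝ)| ≤ 1 / 2 ∧
      ∀ lam : Fin (r + 1) → ℚ, ∑ i, (lam i : ℝ) * ev τ (Y i) = 0 → lam = 0 := by
  have hB0 : ∀ j, B 0 j = 0 := by
    have h1 := hode 0
    rw [hY0] at h1
    have h2 : PowerSeries.derivative ℚ (1 : PowerSeries ℚ) = 0 := Derivation.map_one_eq_zero _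
    rw [h2, mul_zero] at h1
    have h3 := hI (B 0) h1.symm
    intro j
    exact congrFun h3 j
  obtain ⟨c, TZ, hc, hTZ⟩ := MainA_clear T
  have hcQ : (c : ℚ) ≠ 0 := by exact_mod_cast hc
  obtain ⟨B', hB'⟩ : ∃ B' : Fin (r + 1) → Fin (r + 1) → ℚ[X],
    B' = fun i j => Polynomial.C (c : ℚ) * B i j := ⟨_, rfl⟩
  have hB0' : ∀ j, B' 0 j = 0 := by
    intro j
    rw [hB']
    simp only
    rw [hB0 j, mul_zero]
  have hode' : ∀ i, ((TZ.map (Int.castRingHom ℚ) : ℚ[X]) : PowerSeries ℚ) *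
      PowerSeries.derivative ℚ (Y i) = ∑ j, (B' i j : PowerSeries ℚ) * Y j := by
    intro i
    rw [hTZ, Polynomial.coe_mul, mul_assoc, hode i, Finset.mul_sum, hB']
    simp only
    refine Finset.sum_congr rfl fun j _ => ?_
    rw [Polynomial.coe_mul, mul_assoc]
  have hT' : TZ.map (Int.castRingHom ℚ) ≠ 0 := by
    rw [hTZ]
    exact mul_ne_zero (C_ne_zero.2 hcQ) hT
  obtain ⟨e, he⟩ : ∃ e : ℕ, e = (TZ.map (Int.castRingHom ℚ)).natDegree +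
    ∑ i, ∑ j, (B' i j).natDegree := ⟨_, rfl⟩
  have hTe : (TZ.map (Int.castRingHom ℚ)).natDegree ≤ e := by omega
  have hBe : ∀ i j, (B' i j).natDegree ≤ e := by
    intro i j
    have h1 : (B' i j).natDegree ≤ ∑ j, (B' i j).natDegree :=
      Finset.single_le_sum (f := fun j => (B' i j).natDegree) (fun _ _ => Nat.zero_le _)
        (Finset.mem_univ j)
    have h2 : ∑ j, (B' i j).natDegree ≤ ∑ i, ∑ j, (B' i j).natDegree :=
      Finset.single_le_sum (f := fun i => ∑ j, (B' i j).natDegree) (fun _ _ => Nat.zero_le _)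
        (Finset.mem_univ i)
    omega
  obtain ⟨C₁, hC₁, hq⟩ := exists_q Y hY0 hY (4 * (e + 1)) (by omega)
  obtain ⟨c₀, hdet⟩ := det_iter_ne_zero (TZ.map (Int.castRingHom ℚ)) hT' B' Y hI
  obtain ⟨N₀, hN₀, hroot⟩ := MainA_root _ hT'
  obtain ⟨A, hA⟩ : ∃ A : ℕ, A = r * (4 * (e + 1)) + 4 * (e + 1) + 2 := ⟨_, rfl⟩
  obtain ⟨L, hLd⟩ : ∃ L : ℕ, L = (l1 TZ).toNat + 1 := ⟨_, rfl⟩
  have hL : ((l1 TZ : ℤ) : ℝ) ≤ L := by
    have h1 : l1 TZ ≤ (L : ℤ) := by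
      rw [hLd]
      push_cast
      have := Int.self_le_toNat (l1 TZ)
      omega
    exact_mod_cast h1
  obtain ⟨M, hM⟩ : ∃ M : ℕ, M = C ^ (r * (4 * (e + 1)) + 4 * (e + 1) + 3) * (2 * C) * L ^ 2 *
      2 ^ (r * (4 * (e + 1)) + 1) * (2 ^ (r * (4 * (e + 1)) + 2) * C₁) *
      C ^ (r * (4 * (e + 1)) + 4 * (e + 1) + 2) := ⟨_, rfl⟩
  refine ⟨N₀ + 2 * C + 2 * M + A, by omega, ?_⟩
  obtain ⟨N, hN⟩ : ∃ N, N = N₀ + 2 * C + 2 * M + A := ⟨_, rfl⟩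
  rw [← hN]
  intro τ hτ0 hτN
  have hden : 0 < τ.den := τ.den_pos
  have hnum : 1 ≤ τ.num.natAbs := by
    have h1 : τ.num ≠ 0 := Rat.num_ne_zero.2 hτ0
    omega
  obtain ⟨a, ha⟩ : ∃ a : ℕ, a = τ.num.natAbs := ⟨_, rfl⟩
  obtain ⟨b, hb⟩ : ∃ b : ℕ, b = τ.den := ⟨_, rfl⟩
  rw [← ha] at hnum hτN
  rw [← hb] at hden hτN
  have hbQ : (0 : ℚ) < b := by exact_mod_cast hden
  have hτab : |τ| = (a : ℚ) / b := by
    have h1 : τ * (τ.den : ℚ) = τ.num := Rat.mul_den_eq_num τ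
    have h2 : |τ| * (b : ℚ) = a := by
      have h3 : |τ * (τ.den : ℚ)| = |(τ.num : ℚ)| := by rw [h1]
      rw [abs_mul, Nat.abs_cast, ← hb] at h3
      rw [h3, ha, ← Int.cast_abs, Int.abs_eq_natAbs]
      rfl
    rw [eq_div_iff hbQ.ne', h2]
  have hNa : N * a ≤ b := by
    refine le_trans (Nat.mul_le_mul_left N ?_) hτN
    exact Nat.le_self_pow (by omega) a
  have hNτ : ∀ n : ℕ, n ≤ N → (n : ℚ) * |τ| ≤ 1 := by
    intro n hn
    rw [hτab, ← mul_div_assoc, div_le_one hbQ]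
    have h1 : n * a ≤ b := le_trans (Nat.mul_le_mul_right a hn) hNa
    exact_mod_cast h1
  have hTτ := hroot τ hτ0 (hNτ N₀ (by omega))
  have hτC : (C : ℝ) * |(τ : ℝ)| ≤ 1 / 2 := by
    have h1 := hNτ (2 * C) (by omega)
    have h2 : ((((2 * C : ℕ) : ℚ) * |τ| : ℚ) : ℝ) ≤ ((1 : ℚ) : ℝ) := by exact_mod_cast h1
    push_cast at h2
    linarith
  refine ⟨hτC, ?_⟩
  intro lam hlam
  by_contra hne
  obtain ⟨P, z, hP, hz, hPz⟩ := MainA_den lam hne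
  have hrel : ∑ i, (z i : ℝ) * ev τ (Y i) = 0 := by
    have h1 : ∀ i, (z i : ℝ) = (P : ℝ) * (lam i : ℝ) := by
      intro i
      have h2 := hPz i
      have h3 : (((P : ℚ) * lam i : ℚ) : ℝ) = ((z i : ℚ) : ℝ) := by rw [h2]
      push_cast at h3
      exact h3.symm
    have h4 : ∑ i, (z i : ℝ) * ev τ (Y i) = (P : ℝ) * ∑ i, (lam i : ℝ) * ev τ (Y i) := by
      rw [Finset.mul_sum]
      exact Finset.sum_congr rfl fun i _ => by rw [h1 i]; ring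
    rw [h4, hlam, mul_zero]
  obtain ⟨Z, hZ⟩ : ∃ Z : ℝ, Z = ∑ i, |(z i : ℝ)| := ⟨_, rfl⟩
  have hZ0 : 0 ≤ Z := by
    rw [hZ]
    exact Finset.sum_nonneg fun _ _ => abs_nonneg _
  have haR : (1 : ℝ) ≤ a := by exact_mod_cast hnum
  have hbR : (1 : ℝ) ≤ b := by exact_mod_cast hden
  have hτR : |(τ : ℝ)| = (a : ℝ) / b := by
    have h1 : ((|τ| : ℚ) : ℝ) = (((a : ℚ) / b : ℚ) : ℝ) := by rw [hτab]
    push_cast at h1
    exact h1
  have hhalf : (M : ℝ) * (a : ℝ) ^ A / b ≤ 1 / 2 := by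
    have h1 : 2 * (M * a ^ A) ≤ b := by
      have h2 : a ^ A ≤ a ^ N := Nat.pow_le_pow_right (by omega) (by omega)
      calc 2 * (M * a ^ A) = (2 * M) * a ^ A := by ring
        _ ≤ N * a ^ N := Nat.mul_le_mul (by omega) h2
        _ ≤ b := hτN
    have h3 : 2 * ((M : ℝ) * (a : ℝ) ^ A) ≤ b := by exact_mod_cast h1
    rw [div_le_iff₀ (by linarith)]
    linarith
  have hcore : ∀ g : ℕ, 1 ≤ g → c₀ ≤ g → (r + 1) * r * e + r ^ 2 + r ≤ g →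
      (1 : ℝ) ≤ Z * (1 / 2) ^ g := by
    intro g hg1 hgc hg3
    obtain ⟨s, K, D, q, hD, hK, hs, hqc, hqD, hone⟩ := MainA_step TZ B' Y hY0 hY hB0' hode' e C₁ c₀
      hTe hBe hq hdet g hg1 hgc hg3 τ hτ0 hTτ hτC z hz hrel
    rw [← hZ, hτR, ← hb] at hone
    have hl1 : ((l1 q : ℤ) : ℝ) ≤ ((D : ℝ) + 1) * (C₁ : ℝ) ^ g := by
      have h1 := MainA_l1 q D (C₁ ^ g) hqD (fun k => by
        push_cast
        exact hqc k)
      have h2 : ((l1 q : ℤ) : ℝ) ≤ ((((D : ℤ) + 1) * ((C₁ ^ g : ℕ) : ℤ) : ℤ) : ℝ) := by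
        exact_mod_cast h1
      push_cast at h2
      exact h2
    have h3 := MainA_pow C L C₁ r e g s K D hY.one_le (by omega) hC₁ hg1 hD hK hs
      ((l1 TZ : ℤ) : ℝ) ((l1 q : ℤ) : ℝ) Z a b (by exact_mod_cast MainA_l1_nonneg TZ) hL
      (by exact_mod_cast MainA_l1_nonneg q) hl1 hZ0 haR hbR
    refine le_trans hone (le_trans h3 ?_)
    refine mul_le_mul_of_nonneg_left ?_ hZ0
    refine pow_le_pow_left₀ (by positivity) ?_ g
    rw [← hA] at *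
    have h4 : ((M : ℕ) : ℝ) = (C : ℝ) ^ (r * (4 * (e + 1)) + 4 * (e + 1) + 3) * (2 * C) * (L : ℝ) ^ 2 *
      2 ^ (r * (4 * (e + 1)) + 1) * (2 ^ (r * (4 * (e + 1)) + 2) * C₁) *
      (C : ℝ) ^ A := by
      rw [hM]
      push_cast
      ring
    rw [← h4]
    exact hhalf
  obtain ⟨G, hG⟩ : ∃ G : ℕ, Z < 2 ^ G := by
    obtain ⟨n, hn⟩ := pow_unbounded_of_one_lt Z (by norm_num : (1 : ℝ) < 2)
    exact ⟨n, hn⟩
  obtain ⟨g, hg⟩ : ∃ g : ℕ, g = 1 + G + c₀ + ((r + 1) * r * e + r ^ 2 + r) := ⟨_, rfl⟩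
  have h1 := hcore g (by omega) (by omega) (by omega)
  have h2 : Z < 2 ^ g := lt_of_lt_of_le hG (pow_le_pow_right₀ (by norm_num) (by omega))
  rw [one_div, inv_pow, ← div_eq_mul_inv, le_div_iff₀ (by positivity), one_mul] at h1
  linarith

end Pool.Agent.Lib.MP_bbe012_lc.PP
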