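import Pool.Agent.Lib.MP_bbe012_lc.PP.Tame

/-!
# Convergence at `τ`
-/

namespace Pool.Agent.Lib.MP_bbe012_lc.PP

open MvPolynomial

/-- Absolute convergence at `τ` in the norm `l1M`. -/
def SW (n : ℕ) (τ : ℚ) (f : PowerSeries (MvPolynomial (Fin n) ℚ)) : Prop :=
  Summable fun k => ((l1M (PowerSeries.coeff k f) : ℚ) : ℝ) * |(τ : ℝ)| ^ k

private theorem nw_nonneg {n : ℕ} (p : MvPolynomial (Fin n) ℚ) : 0 ≤ l1M p :=
  Finset.sum_nonneg fun _ _ => abs_nonneg _

private theorem nw_nonneg' {n : ℕ} (p : MvPolynomial (Fin n) ℚ) : (0 : ℝ) ≤ ((l1M p : ℚ) : ℝ) := by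
  exact_mod_cast nw_nonneg p

private theorem nw_zero {n : ℕ} : l1M (0 : MvPolynomial (Fin n) ℚ) = 0 := by
  unfold l1M
  rw [support_zero, Finset.sum_empty]

private theorem nw_fin {n : ℕ} {τ : ℚ} {f : PowerSeries (MvPolynomial (Fin n) ℚ)} (s : Finset ℕ)
    (h : ∀ k, k ∉ s → PowerSeries.coeff k f = 0) : SW n τ f := by
  unfold SW
  refine summable_of_ne_finset_zero (s := s) fun k hk => ?_
  rw [h k hk, nw_zero, Rat.cast_zero, zero_mul]

private theorem nw_mul_le {n : ℕ} (f g : PowerSeries (MvPolynomial (Fin n) ℚ)) (k : ℕ) :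
    l1M (PowerSeries.coeff k (f * g)) ≤ ∑ p ∈ Finset.HasAntidiagonal.antidiagonal k,
      l1M (PowerSeries.coeff p.1 f) * l1M (PowerSeries.coeff p.2 g) := by
  rw [PowerSeries.coeff_mul]
  exact (l1M_sum_le _ _).trans (Finset.sum_le_sum fun p _ => l1M_mul_le _ _)

/-- Proof: `l1M_mul_le`, `l1M_sum_le`, `PowerSeries.coeff_mul`, compare with
`summable_sum_mul_antidiagonal_of_summable_mul` (nonnegative terms; `|τ| ^ (a + b)`). -/
theorem SW.mul {n : ℕ} {τ : ℚ} {f g : PowerSeries (MvPolynomial (Fin n) ℚ)} (hf : SW n τ f)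
    (hg : SW n τ g) : SW n τ (f * g) := by
  have ha : ∀ k, 0 ≤ ((l1M (PowerSeries.coeff k f) : ℚ) : ℝ) * |(τ : ℝ)| ^ k := fun k =>
    mul_nonneg (nw_nonneg' _) (pow_nonneg (abs_nonneg _) _)
  have hb : ∀ k, 0 ≤ ((l1M (PowerSeries.coeff k g) : ℚ) : ℝ) * |(τ : ℝ)| ^ k := fun k =>
    mul_nonneg (nw_nonneg' _) (pow_nonneg (abs_nonneg _) _)
  have h1 := summable_sum_mul_antidiagonal_of_summable_mul (Summable.mul_of_nonneg hf hg ha hb)
  refine Summable.of_nonneg_of_le (fun k => mul_nonneg (nw_nonneg' _)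
    (pow_nonneg (abs_nonneg _) _)) (fun k => ?_) h1
  have h2 : ((l1M (PowerSeries.coeff k (f * g)) : ℚ) : ℝ) ≤ ∑ p ∈ Finset.HasAntidiagonal.antidiagonal k,
      ((l1M (PowerSeries.coeff p.1 f) : ℚ) : ℝ) * ((l1M (PowerSeries.coeff p.2 g) : ℚ) : ℝ) := by
    have h3 := nw_mul_le f g k
    exact_mod_cast h3
  refine (mul_le_mul_of_nonneg_right h2 (pow_nonneg (abs_nonneg _) _)).trans ?_
  rw [Finset.sum_mul]
  refine le_of_eq (Finset.sum_congr rfl fun p hp => ?_)
  rw [← Finset.HasAntidiagonal.mem_antidiagonal.1 hp, pow_add]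
  ring

theorem SW.add {n : ℕ} {τ : ℚ} {f g : PowerSeries (MvPolynomial (Fin n) ℚ)} (hf : SW n τ f)
    (hg : SW n τ g) : SW n τ (f + g) := by
  refine Summable.of_nonneg_of_le (fun k => mul_nonneg (nw_nonneg' _)
    (pow_nonneg (abs_nonneg _) _)) (fun k => ?_) (Summable.add hf hg)
  rw [← add_mul]
  refine mul_le_mul_of_nonneg_right ?_ (pow_nonneg (abs_nonneg _) _)
  rw [map_add]
  exact_mod_cast l1M_add_le (PowerSeries.coeff k f) (PowerSeries.coeff k g)

/-- Proof: the coefficients of large index vanish (induction on `G`: constants, sums, products: `SW.add`, `SW.mul`,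
and `PowerSeries.X`, `PowerSeries.C` have one coefficient: `summable_of_ne_finset_zero`). -/
theorem SW_ser (n : ℕ) (τ : ℚ) (G : P1 n) : SW n τ (ser n G) := by
  induction G using MvPolynomial.induction_on with
  | C a =>
    rw [ser_C]
    refine nw_fin {0} fun k hk => ?_
    rw [Finset.mem_singleton] at hk
    rw [PowerSeries.coeff_C, if_neg hk]
  | add p q hp hq =>
    rw [map_add]
    exact SW.add hp hq
  | mul_X p i hp =>
    rw [map_mul]
    refine SW.mul hp ?_
    refine Fin.cases ?_ (fun l => ?_) i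
    · rw [ser_X_zero]
      refine nw_fin {1} fun k hk => ?_
      rw [Finset.mem_singleton] at hk
      rw [PowerSeries.coeff_X, if_neg hk]
    · rw [ser_X_succ]
      refine nw_fin {0} fun k hk => ?_
      rw [Finset.mem_singleton] at hk
      rw [PowerSeries.coeff_C, if_neg hk]

private theorem nw_mon {n : ℕ} (e : Fin n →₀ ℕ) (c : ℚ) :
    l1M (monomial e c : MvPolynomial (Fin n) ℚ) ≤ |c| := by
  unfold l1M
  calc ∑ m ∈ (monomial e c : MvPolynomial (Fin n) ℚ).support, |coeff m (monomial e c)|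
      ≤ ∑ m ∈ {e}, |coeff m (monomial e c : MvPolynomial (Fin n) ℚ)| :=
        Finset.sum_le_sum_of_subset_of_nonneg support_monomial_subset
          fun _ _ _ => abs_nonneg _
    _ = |c| := by rw [Finset.sum_singleton, coeff_monomial, if_pos rfl]

private theorem nw_ser_mon (n : ℕ) (m : Fin (n + 1) →₀ ℕ) (c : ℚ) :
    ser n (monomial m c) = PowerSeries.X ^ m 0 * PowerSeries.C (monomial (Finsupp.tail m) c) := by
  have h1 : (monomial m c : P1 n) = C c * (X 0 ^ m 0 * ∏ l : Fin n, X l.succ ^ m l.succ) := by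
    rw [monomial_eq, Finsupp.prod_fintype _ _ (fun i => pow_zero _), Fin.prod_univ_succ]
  have h2 : (monomial (Finsupp.tail m) c : MvPolynomial (Fin n) ℚ) =
      C c * ∏ l : Fin n, X l ^ m l.succ := by
    rw [monomial_eq, Finsupp.prod_fintype _ _ (fun i => pow_zero _)]
    rfl
  rw [h1, h2, map_mul, map_mul, map_pow, map_prod, ser_C, ser_X_zero, map_mul, map_prod]
  have h3 : ∏ l : Fin n, ser n (X l.succ ^ m l.succ) =
      ∏ l : Fin n, PowerSeries.C (X l ^ m l.succ) := by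
    refine Finset.prod_congr rfl fun l _ => ?_
    rw [map_pow, ser_X_succ, map_pow]
  rw [h3]
  ring

private theorem nw_ser_mon_le (n : ℕ) (m : Fin (n + 1) →₀ ℕ) (c : ℚ) (j : ℕ) :
    l1M (PowerSeries.coeff j (ser n (monomial m c))) ≤ if j = m 0 then |c| else 0 := by
  rw [nw_ser_mon, PowerSeries.coeff_X_pow_mul']
  by_cases h : j = m 0
  · rw [if_pos h, if_pos h.ge, h, Nat.sub_self, PowerSeries.coeff_C, if_pos rfl]
    exact nw_mon _ _
  · rw [if_neg h]
    by_cases h' : m 0 ≤ j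
    · rw [if_pos h', PowerSeries.coeff_C, if_neg (by omega), nw_zero]
    · rw [if_neg h', nw_zero]

/-- The weighted norm of the coefficients of index `≥ 1` of `ser n Q` is at most `wn n Q τ`.

Proof: `ser n Q = ∑ m ∈ Q.support, (term)`, where the term of `coeff m Q * X 0 ^ (m 0) * ...` is
`PowerSeries.X ^ (m 0) * C (monomial (tail m) (coeff m Q))`; so `coeff k (ser n Q) = ∑ m ∈ support with m 0 = k, monomial ..`
and `l1M` of it is at most `∑ m ∈ support with m 0 = k, |coeff m Q|`; sum over `k ∈ [1, N]` (`Finset.sum_fiberwise..`). -/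
theorem sum_ser_le (n : ℕ) (Q : P1 n) (τ : ℚ) (N : ℕ) :
    ∑ k ∈ Finset.range N, l1M (PowerSeries.coeff (k + 1) (ser n Q)) * |τ| ^ (k + 1) ≤ wn n Q τ := by
  have h0 : ∀ j, l1M (PowerSeries.coeff j (ser n Q)) ≤
      ∑ m ∈ Q.support, if j = m 0 then |coeff m Q| else 0 := by
    intro j
    have h1 : ser n Q = ∑ m ∈ Q.support, ser n (monomial m (coeff m Q)) := by
      rw [← map_sum, ← Q.as_sum]
    rw [h1, map_sum]
    exact (l1M_sum_le _ _).trans (Finset.sum_le_sum fun m _ => nw_ser_mon_le n m _ j)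
  have ht : ∀ k : ℕ, 0 ≤ |τ| ^ k := fun k => pow_nonneg (abs_nonneg _) _
  calc ∑ k ∈ Finset.range N, l1M (PowerSeries.coeff (k + 1) (ser n Q)) * |τ| ^ (k + 1)
      ≤ ∑ k ∈ Finset.range N, ∑ m ∈ Q.support,
          if k + 1 = m 0 then |coeff m Q| * |τ| ^ m 0 else 0 := by
        refine Finset.sum_le_sum fun k _ => ?_
        refine (mul_le_mul_of_nonneg_right (h0 (k + 1)) (ht _)).trans (le_of_eq ?_)
        rw [Finset.sum_mul]
        refine Finset.sum_congr rfl fun m _ => ?_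
        by_cases h : k + 1 = m 0
        · rw [if_pos h, if_pos h, h]
        · rw [if_neg h, if_neg h, zero_mul]
    _ = ∑ m ∈ Q.support, ∑ k ∈ Finset.range N,
          if k + 1 = m 0 then |coeff m Q| * |τ| ^ m 0 else 0 := Finset.sum_comm
    _ ≤ ∑ m ∈ Q.support, if m 0 ≠ 0 then |coeff m Q| * |τ| ^ m 0 else 0 := by
        refine Finset.sum_le_sum fun m _ => ?_
        have hnn : 0 ≤ |coeff m Q| * |τ| ^ m 0 := mul_nonneg (abs_nonneg _) (ht _)
        by_cases hm : m 0 = 0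
        · rw [if_neg (not_not.2 hm)]
          refine le_of_eq (Finset.sum_eq_zero fun k _ => ?_)
          rw [if_neg (by omega)]
        · rw [if_pos hm]
          calc ∑ k ∈ Finset.range N, (if k + 1 = m 0 then |coeff m Q| * |τ| ^ m 0 else 0)
              = ∑ k ∈ Finset.range N, (if k = m 0 - 1 then |coeff m Q| * |τ| ^ m 0 else 0) := by
                refine Finset.sum_congr rfl fun k _ => ?_
                by_cases hk : k + 1 = m 0
                · rw [if_pos hk, if_pos (by omega)]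
                · rw [if_neg hk, if_neg (by omega)]
            _ ≤ |coeff m Q| * |τ| ^ m 0 := by
                rw [Finset.sum_ite_eq']
                split_ifs
                · exact le_refl _
                · exact hnn
    _ = wn n Q τ := by
        unfold wn
        rw [Finset.sum_filter]

private theorem nw_conv {v u : ℕ → ℚ} (hv : ∀ k, 0 ≤ v k) (hu : ∀ k, 0 ≤ u k) (N : ℕ) :
    ∑ k ∈ Finset.range N, ∑ p ∈ Finset.HasAntidiagonal.antidiagonal k, v p.1 * u p.2 ≤
      (∑ k ∈ Finset.range N, v k) * ∑ k ∈ Finset.range N, u k := by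
  rw [← Finset.sum_biUnion (f := fun p : ℕ × ℕ => v p.1 * u p.2)]
  · rw [Finset.sum_mul_sum, ← Finset.sum_product']
    refine Finset.sum_le_sum_of_subset_of_nonneg ?_ fun p _ _ => mul_nonneg (hv _) (hu _)
    intro p hp
    rw [Finset.mem_biUnion] at hp
    obtain ⟨k, hk, hp⟩ := hp
    rw [Finset.HasAntidiagonal.mem_antidiagonal] at hp
    rw [Finset.mem_range] at hk
    rw [Finset.mem_product, Finset.mem_range, Finset.mem_range]
    omega
  · intro k _ l _ hkl
    change Disjoint (Finset.HasAntidiagonal.antidiagonal k) (Finset.HasAntidiagonal.antidiagonal l)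
    rw [Finset.disjoint_left]
    intro p hp hp'
    rw [Finset.HasAntidiagonal.mem_antidiagonal] at hp hp'
    omega

/-- Proof. With `u_k = l1M (coeff k (sinv Q)) * |τ| ^ k` and `v_j = l1M (coeff j (ser Q)) * |τ| ^ j`: `u_0 ≤ 1` and
`u_k ≤ ∑_{j=1}^k v_j u_{k-j}` (`ser_mul_sinv`), so `∑_{k ≤ N} u_k ≤ 1 + (∑_{j ≥ 1} v_j) (∑_{k ≤ N} u_k) ≤ 1 + (1/2) ∑_{k ≤ N} u_k`, so the
partial sums are at most `2` (`summable_of_sum_range_le`). -/
theorem SW_sinv {n : ℕ} {Q : P1 n} (hQ : atZero n Q = 1) {τ : ℚ} (hτ : wn n Q τ ≤ 1 / 2) :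
    SW n τ (sinv n Q) := by
  have hv0 : ∀ k : ℕ, 0 ≤ l1M (PowerSeries.coeff (k + 1) (ser n Q)) * |τ| ^ (k + 1) := fun k =>
    mul_nonneg (nw_nonneg _) (pow_nonneg (abs_nonneg _) _)
  have hu0 : ∀ k : ℕ, 0 ≤ l1M (PowerSeries.coeff k (sinv n Q)) * |τ| ^ k := fun k =>
    mul_nonneg (nw_nonneg _) (pow_nonneg (abs_nonneg _) _)
  have hs0 : PowerSeries.coeff 0 (ser n Q) = 1 := by
    rw [PowerSeries.coeff_zero_eq_constantCoeff_apply, constantCoeff_ser, hQ]
  have hh0 : PowerSeries.coeff 0 (sinv n Q) = 1 := by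
    have h1 := congrArg (PowerSeries.coeff 0) (ser_mul_sinv hQ)
    rw [PowerSeries.coeff_mul, Finset.Nat.antidiagonal_zero, Finset.sum_singleton, hs0, one_mul,
      PowerSeries.coeff_zero_one] at h1
    exact h1
  have hl1 : l1M (1 : MvPolynomial (Fin n) ℚ) ≤ 1 := by
    have h1 := nw_mon (0 : Fin n →₀ ℕ) 1
    rw [abs_one] at h1
    exact h1
  have hrec : ∀ k, l1M (PowerSeries.coeff (k + 1) (sinv n Q)) * |τ| ^ (k + 1) ≤
      ∑ p ∈ Finset.HasAntidiagonal.antidiagonal k, (l1M (PowerSeries.coeff (p.1 + 1) (ser n Q)) *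
        |τ| ^ (p.1 + 1)) * (l1M (PowerSeries.coeff p.2 (sinv n Q)) * |τ| ^ p.2) := by
    intro k
    have h1 := congrArg (PowerSeries.coeff (k + 1)) (ser_mul_sinv hQ)
    rw [PowerSeries.coeff_mul, Finset.Nat.sum_antidiagonal_succ, hs0, one_mul,
      PowerSeries.coeff_one, if_neg (Nat.succ_ne_zero k)] at h1
    have h2 : PowerSeries.coeff (k + 1) (sinv n Q) = ∑ p ∈ Finset.HasAntidiagonal.antidiagonal k,
        (-PowerSeries.coeff (p.1 + 1) (ser n Q)) * PowerSeries.coeff p.2 (sinv n Q) := by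
      simp only [neg_mul, Finset.sum_neg_distrib]
      exact eq_neg_of_add_eq_zero_left h1
    have hneg : ∀ p : MvPolynomial (Fin n) ℚ, l1M (-p) = l1M p := by
      intro p
      unfold l1M
      rw [support_neg]
      exact Finset.sum_congr rfl fun m _ => by rw [coeff_neg, abs_neg]
    have h3 : l1M (PowerSeries.coeff (k + 1) (sinv n Q)) ≤ ∑ p ∈ Finset.HasAntidiagonal.antidiagonal k,
        l1M (PowerSeries.coeff (p.1 + 1) (ser n Q)) * l1M (PowerSeries.coeff p.2 (sinv n Q)) := by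
      rw [h2]
      refine (l1M_sum_le _ _).trans (Finset.sum_le_sum fun p _ => ?_)
      refine (l1M_mul_le _ _).trans (le_of_eq ?_)
      rw [hneg]
    refine (mul_le_mul_of_nonneg_right h3 (pow_nonneg (abs_nonneg _) _)).trans (le_of_eq ?_)
    rw [Finset.sum_mul]
    refine Finset.sum_congr rfl fun p hp => ?_
    rw [← Finset.HasAntidiagonal.mem_antidiagonal.1 hp]
    ring
  have hpart : ∀ N, ∑ k ∈ Finset.range N, l1M (PowerSeries.coeff k (sinv n Q)) * |τ| ^ k ≤ 2 := by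
    intro N
    induction N with
    | zero => simp
    | succ N ih =>
      rw [Finset.sum_range_succ']
      have h1 : ∑ k ∈ Finset.range N, l1M (PowerSeries.coeff (k + 1) (sinv n Q)) * |τ| ^ (k + 1) ≤
          (∑ k ∈ Finset.range N, l1M (PowerSeries.coeff (k + 1) (ser n Q)) * |τ| ^ (k + 1)) *
          ∑ k ∈ Finset.range N, l1M (PowerSeries.coeff k (sinv n Q)) * |τ| ^ k :=
        (Finset.sum_le_sum fun k _ => hrec k).trans (nw_conv hv0 hu0 N)
      have h2 : (∑ k ∈ Finset.range N, l1M (PowerSeries.coeff (k + 1) (ser n Q)) *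
          |τ| ^ (k + 1)) ≤ 1 / 2 := (sum_ser_le n Q τ N).trans hτ
      have h3 : 0 ≤ ∑ k ∈ Finset.range N, l1M (PowerSeries.coeff k (sinv n Q)) * |τ| ^ k :=
        Finset.sum_nonneg fun k _ => hu0 k
      have h4 : l1M (PowerSeries.coeff 0 (sinv n Q)) * |τ| ^ 0 ≤ 1 := by
        rw [hh0, pow_zero, mul_one]
        exact hl1
      have h5 : (∑ k ∈ Finset.range N, l1M (PowerSeries.coeff (k + 1) (ser n Q)) * |τ| ^ (k + 1)) *
          ∑ k ∈ Finset.range N, l1M (PowerSeries.coeff k (sinv n Q)) * |τ| ^ k ≤ 1 / 2 * 2 :=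
        mul_le_mul h2 ih h3 (by norm_num)
      linarith
  unfold SW
  refine summable_of_sum_range_le (c := 2) (fun k => mul_nonneg (nw_nonneg' _)
    (pow_nonneg (abs_nonneg _) _)) fun N => ?_
  have h1 := hpart N
  exact_mod_cast h1

/-- Proof: `SW.mul`, `SW_ser`, `SW_sinv`, induction on `K`, and `abs_Lam_le`. -/
theorem summable_Phi {n : ℕ} {Q : P1 n} (hQ : atZero n Q = 1) {τ : ℚ} (hτ : wn n Q τ ≤ 1 / 2)
    (G : P1 n) (K : ℕ) :
    Summable fun k => |((PowerSeries.coeff k (Phi n Q G K) : ℚ) : ℝ)| * |(τ : ℝ)| ^ k := by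
  have hpow : ∀ K : ℕ, SW n τ (sinv n Q ^ K) := by
    intro K
    induction K with
    | zero =>
      rw [pow_zero, ← map_one (ser n)]
      exact SW_ser n τ 1
    | succ K ih =>
      rw [pow_succ]
      exact SW.mul ih (SW_sinv hQ hτ)
  have h1 : SW n τ (ser n G * sinv n Q ^ K) := SW.mul (SW_ser n τ G) (hpow K)
  refine Summable.of_nonneg_of_le (fun k => mul_nonneg (abs_nonneg _)
    (pow_nonneg (abs_nonneg _) _)) (fun k => ?_) h1
  refine mul_le_mul_of_nonneg_right ?_ (pow_nonneg (abs_nonneg _) _)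
  unfold Phi
  rw [coeff_LamS]
  exact_mod_cast abs_Lam_le n _

/-- Multiplicativity of the value. Proof: `p` is a finite sum; `tsum_mul_tsum_eq_tsum_sum_antidiagonal_of_summable_norm`,
`PowerSeries.coeff_mul`; or induction on `p`. -/
theorem ev_mul' (p : Polynomial ℚ) (f : PowerSeries ℚ) (τ : ℚ)
    (hf : Summable fun k => |((PowerSeries.coeff k f : ℚ) : ℝ)| * |(τ : ℝ)| ^ k) :
    ev τ ((p : PowerSeries ℚ) * f) = ((p.eval τ : ℚ) : ℝ) * ev τ f := by
  have hp : ∀ k ∉ Finset.range (p.natDegree + 1), p.coeff k = 0 := by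
    intro k hk
    rw [Finset.mem_range] at hk
    exact Polynomial.coeff_eq_zero_of_natDegree_lt (by omega)
  have h1 : Summable fun k => ‖((p.coeff k : ℚ) : ℝ) * (τ : ℝ) ^ k‖ := by
    refine summable_of_ne_finset_zero (s := Finset.range (p.natDegree + 1)) fun k hk => ?_
    rw [hp k hk, Rat.cast_zero, zero_mul, norm_zero]
  have h2 : Summable fun k => ‖((PowerSeries.coeff k f : ℚ) : ℝ) * (τ : ℝ) ^ k‖ := by
    refine hf.congr fun k => ?_
    rw [norm_mul, norm_pow, Real.norm_eq_abs, Real.norm_eq_abs]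
  have h3 : ∑' k, ((p.coeff k : ℚ) : ℝ) * (τ : ℝ) ^ k = ((p.eval τ : ℚ) : ℝ) := by
    rw [tsum_eq_sum (s := Finset.range (p.natDegree + 1))
      (fun k hk => by rw [hp k hk, Rat.cast_zero, zero_mul]), Polynomial.eval_eq_sum_range]
    push_cast
    rfl
  have h4 := tsum_mul_tsum_eq_tsum_sum_antidiagonal_of_summable_norm h1 h2
  unfold ev
  rw [← h3, h4]
  refine tsum_congr fun k => ?_
  rw [PowerSeries.coeff_mul, Rat.cast_sum, Finset.sum_mul]
  refine Finset.sum_congr rfl fun x hx => ?_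
  rw [← Finset.HasAntidiagonal.mem_antidiagonal.1 hx, Polynomial.coeff_coe, Rat.cast_mul, pow_add]
  ring

end Pool.Agent.Lib.MP_bbe012_lc.PP
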