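import Pool.Agent.Lib.MP_bbe012_lc.PP.BasisL
import Pool.Agent.Lib.MP_bbe012_lc.PP.NormW
import Pool.Agent.Lib.MP_bbe012_lc.PP.MainA

/-!
# Vanishing at `τ` has an algebraic reason
-/

namespace Pool.Agent.Lib.MP_bbe012_lc.PP

open MvPolynomial

theorem MainB_abs_le {N : ℕ} (hN : 1 ≤ N) {τ : ℚ} (hτ : τ ≠ 0) (h : N * τ.num.natAbs ^ N ≤ τ.den) :
    |τ| * N ≤ 1 := by
  have ha : 1 ≤ τ.num.natAbs := Nat.one_le_iff_ne_zero.2 (Int.natAbs_ne_zero.2 (Rat.num_ne_zero.2 hτ))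
  have hb : (0 : ℚ) < τ.den := by exact_mod_cast τ.den_pos
  have h1 : N * τ.num.natAbs ≤ τ.den := by
    refine le_trans (Nat.mul_le_mul_left N ?_) h
    calc τ.num.natAbs = τ.num.natAbs ^ 1 := (pow_one _).symm
      _ ≤ τ.num.natAbs ^ N := Nat.pow_le_pow_right ha hN
  have h2 : |τ| = (τ.num.natAbs : ℚ) / τ.den := by
    conv_lhs => rw [← Rat.num_div_den τ]
    rw [abs_div, Nat.abs_cast, Nat.cast_natAbs, Int.cast_abs]
  rw [h2, div_mul_eq_mul_div, div_le_one hb]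
  have h3 : ((N * τ.num.natAbs : ℕ) : ℚ) ≤ (τ.den : ℚ) := by exact_mod_cast h1
  rw [Nat.cast_mul] at h3
  linarith

theorem MainB_mono {N M : ℕ} (hNM : N ≤ M) {τ : ℚ} (hτ : τ ≠ 0) (h : M * τ.num.natAbs ^ M ≤ τ.den) :
    N * τ.num.natAbs ^ N ≤ τ.den := by
  have ha : 1 ≤ τ.num.natAbs := Nat.one_le_iff_ne_zero.2 (Int.natAbs_ne_zero.2 (Rat.num_ne_zero.2 hτ))
  exact le_trans (Nat.mul_le_mul hNM (Nat.pow_le_pow_right ha hNM)) h

theorem MainB_ev_sum {ι : Type} (τ : ℚ) (s : Finset ι) (f : ι → PowerSeries ℚ)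
    (h : ∀ i ∈ s, Summable fun k => |((PowerSeries.coeff k (f i) : ℚ) : ℝ)| * |(τ : ℝ)| ^ k) :
    ev τ (∑ i ∈ s, f i) = ∑ i ∈ s, ev τ (f i) := by
  unfold ev
  rw [← Summable.tsum_finsetSum]
  · refine tsum_congr fun k => ?_
    rw [map_sum, Rat.cast_sum, Finset.sum_mul]
  · intro i hi
    refine Summable.of_norm ?_
    refine (h i hi).congr fun k => ?_
    rw [norm_mul, norm_pow, Real.norm_eq_abs, Real.norm_eq_abs]

theorem MainB_inT_C (n : ℕ) (x : ℚ) : inT n (Polynomial.C x) = C x := by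
  show Polynomial.aeval (X 0 : P1 n) (Polynomial.C x) = C x
  rw [Polynomial.aeval_C, MvPolynomial.algebraMap_eq]

theorem MainB_inT_X (n : ℕ) : inT n Polynomial.X = X 0 := by
  show Polynomial.aeval (X 0 : P1 n) Polynomial.X = X 0
  rw [Polynomial.aeval_X]

theorem MainB_reduce {r : ℕ} (τ : ℚ) (f : PowerSeries ℚ) (Y : Fin (r + 1) → PowerSeries ℚ) :
    ∀ (D : ℕ) (c : Polynomial ℚ) (a : Fin (r + 1) → Polynomial ℚ), c ≠ 0 → c.natDegree ≤ D →
      (c : PowerSeries ℚ) * f = ∑ i, (a i : PowerSeries ℚ) * Y i →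
      ∃ (c' : Polynomial ℚ) (a' : Fin (r + 1) → Polynomial ℚ),
        (c' : PowerSeries ℚ) * f = ∑ i, (a' i : PowerSeries ℚ) * Y i ∧
        ((∀ i, (a' i).eval τ = 0) → c'.eval τ ≠ 0) := by
  intro D
  induction D with
  | zero =>
    intro c a hc hD h
    refine ⟨c, a, h, fun _ hcτ => hc ?_⟩
    rw [Polynomial.eq_C_of_natDegree_le_zero hD, Polynomial.eval_C] at hcτ
    rw [Polynomial.eq_C_of_natDegree_le_zero hD, hcτ, Polynomial.C_0]
  | succ D ih =>
    intro c a hc hD h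
    by_cases hgood : (∀ i, (a i).eval τ = 0) → c.eval τ ≠ 0
    · exact ⟨c, a, h, hgood⟩
    · rw [Classical.not_imp, not_not] at hgood
      obtain ⟨ha, hcτ⟩ := hgood
      have hdc : (Polynomial.X - Polynomial.C τ) ∣ c := Polynomial.dvd_iff_isRoot.2 hcτ
      have hda : ∀ i, (Polynomial.X - Polynomial.C τ) ∣ a i := fun i => Polynomial.dvd_iff_isRoot.2 (ha i)
      obtain ⟨c1, hc1⟩ := hdc
      choose a1 ha1 using hda
      have hX : (Polynomial.X - Polynomial.C τ) ≠ 0 := Polynomial.X_sub_C_ne_zero τ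
      have hXs : ((Polynomial.X - Polynomial.C τ : Polynomial ℚ) : PowerSeries ℚ) ≠ 0 := by
        intro h0
        apply hX
        rw [← Polynomial.coe_zero] at h0
        exact Polynomial.coe_inj.1 h0
      have hc10 : c1 ≠ 0 := by
        rintro rfl
        rw [mul_zero] at hc1
        exact hc hc1
      refine ih c1 a1 hc10 ?_ ?_
      · rw [hc1, Polynomial.natDegree_mul hX hc10, Polynomial.natDegree_X_sub_C] at hD
        omega
      · refine mul_left_cancel₀ hXs ?_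
        rw [← mul_assoc, ← Polynomial.coe_mul, ← hc1, h, Finset.mul_sum]
        refine Finset.sum_congr rfl fun i _ => ?_
        rw [← mul_assoc, ← Polynomial.coe_mul, ← ha1]

/-- `wn n Q τ` is small for small `τ`. Proof: every term of the finite sum `wn` has a factor `|τ| ^ (m 0)` with
`m 0 ≥ 1`, and `|τ| = |a| / b ≤ 1 / N`: so `wn ≤ (∑ |coeff|) / N`. -/
theorem exists_small {n : ℕ} (Q : P1 n) :
    ∃ N : ℕ, 1 ≤ N ∧ ∀ τ : ℚ, τ ≠ 0 → N * τ.num.natAbs ^ N ≤ τ.den → wn n Q τ ≤ 1 / 2 := by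
  obtain ⟨M, hM⟩ := exists_nat_ge (2 * ∑ m ∈ Q.support with m 0 ≠ 0, |coeff m Q|)
  refine ⟨M + 1, by omega, fun τ hτ h => ?_⟩
  have h1 := MainB_abs_le (by omega) hτ h
  have hτ0 : 0 ≤ |τ| := abs_nonneg τ
  have hM0 : (0 : ℚ) ≤ M := Nat.cast_nonneg M
  have hτ1 : |τ| ≤ 1 := by
    push_cast at h1
    nlinarith
  have h2 : wn n Q τ ≤ (∑ m ∈ Q.support with m 0 ≠ 0, |coeff m Q|) * |τ| := by
    unfold wn
    rw [Finset.sum_mul]
    refine Finset.sum_le_sum fun m hm => ?_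
    refine mul_le_mul_of_nonneg_left ?_ (abs_nonneg _)
    exact pow_le_of_le_one hτ0 hτ1 (Finset.mem_filter.1 hm).2
  have h3 : (∑ m ∈ Q.support with m 0 ≠ 0, |coeff m Q|) * |τ| ≤ (M / 2) * |τ| := by
    refine mul_le_mul_of_nonneg_right ?_ hτ0
    linarith
  refine h2.trans (h3.trans ?_)
  push_cast at h1
  nlinarith

/-- **Main theorem on values.** There is `N`, depending only on `n` and `Q`, such that for all rational
`τ = a / b ≠ 0` with `N |a| ^ N ≤ b`, all `G` and all `K`: if the value at `τ` of the expansion of the integral of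
`G / Q ^ K` is zero, then there are `j` and `U` such that the integral of `(G Q ^ j + (t - τ) U) / Q ^ (K + j)` vanishes
identically.

Proof. `r, A, κ` from `exists_basis`, `Y i = Phi n Q (A i) (κ i)`, `T, B` from `exists_system`, `C, d` from
`exists_GData`, `N₁` from `values_independent`, `N₂` from `exists_small`; `N = max N₁ N₂` (note
`N' |a| ^ N' ≤ N |a| ^ N` for `N' ≤ N` since `|a| ≥ 1`). Let `τ, G, K` be given, `f = Phi n Q G K`, `ev τ f = 0`, and
`c * f = ∑ a_i Y_i` with `c ≠ 0`. Dividing `c` and all `a_i` by the largest power of `X - C τ` which divides all of them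
(`ℚ⟦X⟧` is a domain, cancel the power series of `(X - C τ) ^ k ≠ 0`) we may assume that `X - C τ` does not divide all
of `c, a_0, ..., a_r`. Evaluate at `τ` (`ev_mul'` with `summable_Phi`, `ev` is additive on such series):
`0 = c(τ) ev τ f = ∑ a_i(τ) ev τ (Y i)`, so all `a_i(τ) = 0` by `values_independent`; hence `c(τ) ≠ 0`. Write
`a_i = (X - C τ) * b_i`, `c = C (c(τ)) + (X - C τ) * b` and put `j = ∑ i, κ i` (so `κ i ≤ K + j`),
`U = C (c(τ)⁻¹) * (inT n b * G * Q ^ j - ∑ i, inT n (b_i) * A i * Q ^ (K + j - κ i))`. Then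
`C (c(τ)) * (G Q ^ j + (X 0 - C τ) U) = inT n c * G Q ^ j - ∑ inT n (a_i) * A i * Q ^ (K + j - κ i)` and `Phi _ (K + j)` of
it is `c f - ∑ a_i Y_i = 0` (`Phi_shift`, `Phi_inT_mul`, `Phi_sum`, `Phi_sub`; `inT n (X - C τ) = X 0 - C τ`). -/
theorem value_zero {n : ℕ} {Q : P1 n} (hQ : atZero n Q = 1) :
    ∃ N : ℕ, 1 ≤ N ∧ ∀ τ : ℚ, τ ≠ 0 → N * τ.num.natAbs ^ N ≤ τ.den →
      wn n Q τ ≤ 1 / 2 ∧ ∀ (G : P1 n) (K : ℕ), ev τ (Phi n Q G K) = 0 →
        ∃ (j : ℕ) (U : P1 n), Phi n Q (G * Q ^ j + (X 0 - C τ) * U) (K + j) = 0 := by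
  obtain ⟨r, A, κ, hA0, hκ0, hI, hspan⟩ := exists_basis hQ
  obtain ⟨T, hT, B, hB⟩ := exists_system hQ A κ hspan
  obtain ⟨Cc, d, hG⟩ := exists_GData hQ A κ
  have hY0 : (fun i => Phi n Q (A i) (κ i)) 0 = 1 := by
    show Phi n Q (A 0) (κ 0) = 1
    rw [hA0, hκ0, Phi_one]
  obtain ⟨N₁, hN₁, h₁⟩ := values_independent T hT B (fun i => Phi n Q (A i) (κ i)) hY0 hI hG hB
  obtain ⟨N₂, hN₂, h₂⟩ := exists_small Q
  refine ⟨max N₁ N₂, le_trans hN₁ (le_max_left _ _), fun τ hτ hle => ?_⟩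
  have k₁ := h₁ τ hτ (MainB_mono (le_max_left N₁ N₂) hτ hle)
  have k₂ := h₂ τ hτ (MainB_mono (le_max_right N₁ N₂) hτ hle)
  refine ⟨k₂, fun G K hev => ?_⟩
  obtain ⟨c₀, hc₀, a₀, hca₀⟩ := hspan G K
  obtain ⟨c, a, hca, hgood⟩ := MainB_reduce τ (Phi n Q G K) (fun i => Phi n Q (A i) (κ i)) c₀.natDegree c₀ a₀
    hc₀ le_rfl hca₀
  -- the values of the coefficients vanish
  have hsum : ∑ i, ((((a i).eval τ : ℚ)) : ℝ) * ev τ (Phi n Q (A i) (κ i)) = 0 := by
    have e1 : ev τ (∑ i, (a i : PowerSeries ℚ) * Phi n Q (A i) (κ i)) =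
        ∑ i, ev τ ((a i : PowerSeries ℚ) * Phi n Q (A i) (κ i)) := by
      refine MainB_ev_sum τ Finset.univ _ fun i _ => ?_
      rw [← Phi_inT_mul]
      exact summable_Phi hQ k₂ _ _
    have e2 := ev_mul' c (Phi n Q G K) τ (summable_Phi hQ k₂ G K)
    rw [hev, mul_zero] at e2
    have e3 : ev τ (∑ i, (a i : PowerSeries ℚ) * Phi n Q (A i) (κ i)) = 0 := by
      rw [← hca]
      exact e2
    rw [← e3, e1]
    refine Finset.sum_congr rfl fun i _ => ?_
    exact (ev_mul' (a i) (Phi n Q (A i) (κ i)) τ (summable_Phi hQ k₂ _ _)).symm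
  have ha0 : ∀ i, (a i).eval τ = 0 := fun i => congrFun (k₁.2 (fun i => (a i).eval τ) hsum) i
  have hc0 : c.eval τ ≠ 0 := hgood ha0
  have hda : ∀ i, (Polynomial.X - Polynomial.C τ) ∣ a i := fun i => Polynomial.dvd_iff_isRoot.2 (ha0 i)
  choose b hb using hda
  obtain ⟨b', hb'⟩ := Polynomial.X_sub_C_dvd_sub_C_eval (a := τ) (p := c)
  have hκ : ∀ i, κ i ≤ K + ∑ i, κ i := fun i =>
    le_trans (Finset.single_le_sum (f := κ) (fun _ _ => Nat.zero_le _) (Finset.mem_univ i)) (Nat.le_add_left _ _)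
  set j : ℕ := ∑ i, κ i with hj
  refine ⟨j, C ((c.eval τ)⁻¹) * (inT n b' * (G * Q ^ j) - ∑ i, inT n (b i) * (A i * Q ^ (K + j - κ i))), ?_⟩
  have hXC : inT n (Polynomial.X - Polynomial.C τ) = X 0 - C τ := by
    rw [map_sub, MainB_inT_C, MainB_inT_X]
  have hcc : inT n c = C (c.eval τ) + (X 0 - C τ) * inT n b' := by
    have e : c = Polynomial.C (c.eval τ) + (Polynomial.X - Polynomial.C τ) * b' := by
      rw [← hb']; ring
    conv_lhs => rw [e]
    rw [map_add, map_mul, MainB_inT_C, hXC]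
  have haa : ∀ i, inT n (a i) = (X 0 - C τ) * inT n (b i) := by
    intro i
    rw [hb i, map_mul, hXC]
  have hinv : C (c.eval τ) * C ((c.eval τ)⁻¹) = (1 : P1 n) := by
    rw [← C_mul, mul_inv_cancel₀ hc0, C_1]
  have key : inT n (Polynomial.C (c.eval τ)) * (G * Q ^ j + (X 0 - C τ) * (C ((c.eval τ)⁻¹) *
      (inT n b' * (G * Q ^ j) - ∑ i, inT n (b i) * (A i * Q ^ (K + j - κ i))))) =
      inT n c * (G * Q ^ j) - ∑ i, inT n (a i) * (A i * Q ^ (K + j - κ i)) := by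
    have e1 : ∑ i, inT n (a i) * (A i * Q ^ (K + j - κ i)) =
        (X 0 - C τ) * ∑ i, inT n (b i) * (A i * Q ^ (K + j - κ i)) := by
      rw [Finset.mul_sum]
      refine Finset.sum_congr rfl fun i _ => ?_
      rw [haa i, mul_assoc]
    rw [e1, hcc, MainB_inT_C]
    have e2 : ∀ S : P1 n, C (c.eval τ) * (G * Q ^ j + (X 0 - C τ) * (C ((c.eval τ)⁻¹) *
        (inT n b' * (G * Q ^ j) - S))) =
        C (c.eval τ) * (G * Q ^ j) + (C (c.eval τ) * C ((c.eval τ)⁻¹)) * ((X 0 - C τ) *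
        (inT n b' * (G * Q ^ j) - S)) := by
      intro S; ring
    rw [e2, hinv]
    ring
  have hPhi := congrArg (fun W => Phi n Q W (K + j)) key

  rw [Phi_inT_mul, Phi_sub, Phi_sum, Phi_inT_mul, Phi_shift hQ, hca] at hPhi
  have e3 : ∑ i, Phi n Q (inT n (a i) * (A i * Q ^ (K + j - κ i))) (K + j) =
      ∑ i, (a i : PowerSeries ℚ) * Phi n Q (A i) (κ i) := by
    refine Finset.sum_congr rfl fun i _ => ?_
    rw [Phi_inT_mul]
    have e4 : Phi n Q (A i * Q ^ (K + j - κ i)) (K + j) = Phi n Q (A i) (κ i) := by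
      have e5 := Phi_shift hQ (A i) (κ i) (K + j - κ i)
      have e6 : κ i + (K + j - κ i) = K + j := by
        have := hκ i
        omega
      rw [e6] at e5
      exact e5
    rw [e4]
  rw [e3, sub_self] at hPhi
  rcases mul_eq_zero.1 hPhi with h0 | h0
  · exfalso
    apply hc0
    rw [← Polynomial.coe_zero] at h0
    exact Polynomial.C_eq_zero.1 (Polynomial.coe_inj.1 h0)
  · exact h0

end Pool.Agent.Lib.MP_bbe012_lc.PP
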