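import Pool.Agent.Lib.MP_bbe012_lc.PP.CodeA
import Pool.Agent.Lib.MP_bbe012_lc.PP.CompZ
import Pool.Agent.Lib.MP_bbe012_lc.PP.CompN
import Pool.Agent.Lib.MP_bbe012_lc.PP.MainB

/-!
# Completeness of the verification
-/

namespace Pool.Agent.Lib.MP_bbe012_lc.PP

open MvPolynomial MeasureTheory Set

private theorem CodeC_div (n : ℕ) (G : P1 n) :
    ∃ V : P1 n, G = rename Fin.succ (atZero n G) + X 0 * V := by
  have h0 : atZero n (X 0) = 0 := by
    rw [atZero, aeval_X]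
    rfl
  have h1 : ∀ l : Fin n, atZero n (X l.succ) = X l := fun l => by
    rw [atZero, aeval_X]
    rfl
  induction G using MvPolynomial.induction_on with
  | C a =>
    refine ⟨0, ?_⟩
    have h2 : atZero n (C a) = C a := by
      rw [atZero, aeval_C]
      rfl
    rw [h2, rename_C, mul_zero, add_zero]
  | add p q hp hq =>
    obtain ⟨U, hU⟩ := hp
    obtain ⟨V, hV⟩ := hq
    refine ⟨U + V, ?_⟩
    rw [map_add, map_add]
    linear_combination hU + hV
  | mul_X p i hp =>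
    obtain ⟨U, hU⟩ := hp
    refine Fin.cases ?_ (fun l => ?_) i
    · refine ⟨p, ?_⟩
      rw [map_mul, map_mul, h0, map_zero]
      ring
    · refine ⟨U * X l.succ, ?_⟩
      rw [map_mul, map_mul, h1, rename_X]
      linear_combination (X l.succ) * hU

private theorem CodeC_foldr (R : ℕ) (F : ℕ → ℕ × ℕ) :
    (List.range R).foldr (fun i acc => (F i).1 + (F i).2 + acc) 0 =
      ∑ i ∈ Finset.range R, ((F i).1 + (F i).2) := by
  have h : ∀ L : List ℕ, L.foldr (fun i acc => (F i).1 + (F i).2 + acc) 0 =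
      (L.map fun i => (F i).1 + (F i).2).sum := by
    intro L
    induction L with
    | nil => rfl
    | cons a L ih => rw [List.foldr_cons, ih, List.map_cons, List.sum_cons]
  rw [h, ← List.sum_toFinset _ (List.nodup_range), List.toFinset_range]

private theorem CodeC_sC (n : ℕ) (Q G : PCode) (τ : QCode) (j : ℕ) (U : PCode) :
    pcPoly (n + 1) (sC Q G τ j U) = pcPoly (n + 1) G * pcPoly (n + 1) Q ^ j +
      (X 0 - C (qval τ)) * pcPoly (n + 1) U := by
  rw [sC, pcPoly_append, pcPoly_mul, pcPoly_pow, pcPoly_mul, pcPoly_append, pcPoly_neg, pcPoly_tC,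
    pcPoly_constC]
  ring

private theorem CodeC_getD {α : Type} (R : ℕ) (f : ℕ → α) (d : α) {i : ℕ} (hi : i < R) :
    (List.ofFn fun j : Fin R => f j).getD i d = f i := by
  rw [List.getD_eq_getElem _ _ (by rw [List.length_ofFn]; exact hi), List.getElem_ofFn]

/-- Proof. `V = (Q - 1) / X 0`: a polynomial with `atZero n W = 0` is divisible by `X 0` (see the proof of
`constantCoeff_ser`; or write `W` as the sum of its monomials, those with `m 0 = 0` are recovered by `atZero`); take any code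
`V` of the quotient (`exists_pcPoly`) and `N ≥ 1`, `N ≥ 2 * qval (normC V)`; `MainB_abs_le`. -/
theorem exists_okBase {n : ℕ} {Q : PCode} (hQ : atZero n (pcPoly (n + 1) Q) = 1) :
    ∃ (V : PCode) (N : ℕ), 1 ≤ N ∧ ∀ τ : QCode, qval τ ≠ 0 →
      N * (qval τ).num.natAbs ^ N ≤ (qval τ).den → okBase n Q V τ := by
  obtain ⟨V, hV⟩ := CodeC_div n (pcPoly (n + 1) Q)
  rw [hQ, map_one] at hV
  obtain ⟨v, rfl⟩ := exists_pcPoly V
  refine ⟨v, ⌈2 * qval (normC v)⌉₊ + 1, by omega, fun τ hτ h => ?_⟩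
  have hN : |qval τ| * ((⌈2 * qval (normC v)⌉₊ + 1 : ℕ) : ℚ) ≤ 1 :=
    MainB_abs_le (by omega) hτ h
  have h0 := abs_nonneg (qval τ)
  have h1 : 2 * qval (normC v) ≤ ⌈2 * qval (normC v)⌉₊ := Nat.le_ceil _
  have h2 : (0 : ℚ) ≤ (⌈2 * qval (normC v)⌉₊ : ℚ) := Nat.cast_nonneg _
  push_cast at hN
  refine ⟨?_, ?_, ?_⟩
  · rw [pcIsZero_iff, pcPoly_append, pcPoly_neg, pcPoly_append, pcPoly_nat, pcPoly_mul,
      pcPoly_tC]
    have h4 : (C ((1 : ℕ) : ℚ) : P1 n) = 1 := by rw [Nat.cast_one, C_1]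
    rw [h4]
    linear_combination hV
  · rw [qleP_iff, qval_qabs, qval_qnat, Nat.cast_one]
    nlinarith
  · rw [qleP_iff, qval_qmul, qval_qabs]
    have h3 : qval ((1, 0), 1) = 1 / 2 := by
      unfold qval
      norm_num
    rw [h3]
    nlinarith

/-- Proof. `exists_zeroCert` for `S = G * Q ^ j + (X 0 - C τ) * U` (take a code of `U`; `pcPoly (sC ...) = S`) and `K + j`; codes:
`z = List.ofFn fun i : Fin (ρ + 1) => ((z i).toNat, (-z i).toNat)` (`Int.toNat_sub_toNat_neg`, `natAbs = toNat + toNat`),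
`c`: `exists_polyOf`, `g`, `E`: `exists_list`, `H`: `exists_pcPoly`. -/
theorem checkZ_complete {n : ℕ} {Q G : PCode} (hQ : atZero n (pcPoly (n + 1) Q) = 1) {K : ℕ} {τ : QCode}
    {j : ℕ} {U : P1 n} (h : Phi n (pcPoly (n + 1) Q)
      (pcPoly (n + 1) G * pcPoly (n + 1) Q ^ j + (X 0 - C (qval τ)) * U) (K + j) = 0) :
    ∃ x : ZCert, checkZ n Q G K τ x := by
  obtain ⟨u, rfl⟩ := exists_pcPoly U
  have hS := CodeC_sC n Q G τ j u
  obtain ⟨S, hSd⟩ : ∃ S, S = sC Q G τ j u := ⟨_, rfl⟩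
  rw [← hSd] at hS
  rw [← hS] at h
  obtain ⟨κ, K', ρ, L, z, c, g, E, H, hc⟩ := exists_zeroCert hQ h
  obtain ⟨gl, hgl⟩ := exists_list n g
  obtain ⟨El, hEl⟩ := exists_list n E
  obtain ⟨Hl, hHl⟩ := exists_pcPoly H
  choose cf hcf using fun i => exists_polyOf (c i)
  refine ⟨((((κ, K'), (ρ, L)), j), ((List.ofFn fun i : Fin (ρ + 1) =>
    ((z i).toNat, (-z i).toNat), List.ofFn fun i : Fin (ρ + 1) => cf i), (gl, El)), (Hl, u)), ?_⟩
  have hz : ∀ i < ρ + 1, (List.ofFn fun i : Fin (ρ + 1) =>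
      ((z i).toNat, (-z i).toNat)).getD i (0, 0) = ((z i).toNat, (-z i).toNat) := fun i hi =>
    CodeC_getD (ρ + 1) (fun i => ((z i).toNat, (-z i).toNat)) (0, 0) hi
  have hcl : ∀ i < ρ + 1, (List.ofFn fun i : Fin (ρ + 1) => cf i).getD i [] = cf i :=
    fun i hi => CodeC_getD (ρ + 1) cf [] hi
  refine ⟨hc.le, ⟨?_, ?_⟩, ?_, ?_⟩
  · obtain ⟨i, hi, hne⟩ := hc.ne
    refine ⟨i, hi, ?_⟩
    show ((List.ofFn fun i : Fin (ρ + 1) => ((z i).toNat, (-z i).toNat)).getD i (0, 0)).1 ≠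
      ((List.ofFn fun i : Fin (ρ + 1) => ((z i).toNat, (-z i).toNat)).getD i (0, 0)).2
    rw [hz i hi]
    show (z i).toNat ≠ (-z i).toNat
    omega
  · show (List.range (ρ + 1)).foldr (fun i acc =>
      ((List.ofFn fun i : Fin (ρ + 1) => ((z i).toNat, (-z i).toNat)).getD i (0, 0)).1 +
      ((List.ofFn fun i : Fin (ρ + 1) => ((z i).toNat, (-z i).toNat)).getD i (0, 0)).2 + acc) 0 ≤ L
    rw [CodeC_foldr (ρ + 1) fun i =>
      (List.ofFn fun i : Fin (ρ + 1) => ((z i).toNat, (-z i).toNat)).getD i (0, 0)]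
    refine le_trans (Finset.sum_le_sum fun i hi => ?_) hc.sum
    rw [hz i (Finset.mem_range.1 hi)]
    show (z i).toNat + (-z i).toNat ≤ (z i).natAbs
    omega
  · show pcIsZero (n + 1) (exactC n Q (sC Q G τ j u) (K + j) κ K' ρ
      (List.ofFn fun i : Fin (ρ + 1) => ((z i).toNat, (-z i).toNat))
      (List.ofFn fun i : Fin (ρ + 1) => cf i) gl)
    rw [← hSd, pcIsZero_iff, exactC, pcPoly_append, pcPoly_neg, pcPoly_divfC, pcPoly_mul,
      pcPoly_pow, pcPoly_tC, pcPoly_sumRange, ← sub_eq_add_neg, sub_eq_zero, hgl, ← hc.exact,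
      Finset.sum_range]
    congr 1
    refine Finset.sum_congr rfl fun i _ => ?_
    rw [hz i i.2, hcl i i.2, pcPoly_mul, pcPoly_mul, pcPoly_append, pcPoly_constC, pcPoly_mul,
      pcPoly_tC, pcPoly_trunc_inT, pcPoly_thetaC, pcPoly_pow, hcf]
    have h1 : qval (((z i).toNat, (-z i).toNat), 0) = ((z i : ℤ) : ℚ) := by
      have h2 := Int.toNat_sub_toNat_neg (z i)
      unfold qval
      have h3 : (((z i).toNat : ℤ) : ℚ) - (((-z i).toNat : ℤ) : ℚ) = ((z i : ℤ) : ℚ) := by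
        rw [← Int.cast_sub, h2]
      rw [Int.cast_natCast, Int.cast_natCast] at h3
      rw [← h3]
      simp
    rw [h1]
  · show pcIsZero (n + 1) (initC n Q (sC Q G τ j u) (K + j) L El Hl)
    rw [← hSd, pcIsZero_iff, initC, pcPoly_append, pcPoly_neg, pcPoly_append, pcPoly_mul,
      pcPoly_pow, pcPoly_divEC, pcPoly_mul, pcPoly_pow, pcPoly_tC, ← sub_eq_add_neg, sub_eq_zero,
      hHl]
    rw [← hEl] at hc
    exact hc.init

/-- Proof. `exists_neCert`; codes of `a` (`exists_qval`), `E` (`exists_list`), `U` (`exists_pcPoly`), and `pcShift 1 n r` for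
`rename Fin.succ R`, where `r` is a code of `R` with `qval (normC r) = l1M R` (`exists_pcPoly_norm`, `normC_shift`,
`pcPoly_shift_succ`). -/
theorem checkN_complete {n : ℕ} {Q G : PCode} (hQ : atZero n (pcPoly (n + 1) Q) = 1) {K : ℕ} {τ : QCode}
    (hτ : wn n (pcPoly (n + 1) Q) (qval τ) ≤ 1 / 2)
    (h : JJ n (pcPoly (n + 1) Q) (pcPoly (n + 1) G) K (qval τ) ≠ 0) :
    ∃ x : NCert, checkN n Q G K τ x := by
  obtain ⟨a, E, R, U, hc⟩ := exists_neCert hQ hτ h
  obtain ⟨ac, rfl⟩ := exists_qval a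
  obtain ⟨El, hEl⟩ := exists_list n E
  obtain ⟨r, hr, hrn⟩ := exists_pcPoly_norm R
  obtain ⟨u, rfl⟩ := exists_pcPoly U
  refine ⟨((ac, El), (pcShift 1 n r, u)), ?_, ?_⟩
  · show pcIsZero (n + 1) (G ++ pcNeg (pcMul (pcPow Q K) (constC ac ++ divEC n El) ++
      pcShift 1 n r ++ pcMul (tC ++ pcNeg (constC τ)) u))
    rw [pcIsZero_iff, pcPoly_append, pcPoly_neg, pcPoly_append, pcPoly_append, pcPoly_mul,
      pcPoly_pow, pcPoly_append, pcPoly_constC, pcPoly_divEC, pcPoly_mul, pcPoly_append, pcPoly_neg,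
      pcPoly_tC, pcPoly_constC, pcPoly_shift_succ, hr]
    rw [← hEl] at hc
    linear_combination hc.eq
  · show qltP (qmul (qnat (2 ^ K)) (normC (pcShift 1 n r))) (qabs ac)
    rw [qltP_iff, qval_qmul, qval_qnat, qval_qabs, normC_shift, hrn, Nat.cast_pow, Nat.cast_ofNat]
    exact hc.lt

/-- Completeness: `value_zero` (MainB.lean), `integral_eq_ev`. -/
theorem checkC_complete {n : ℕ} {Q : PCode} (hQ : atZero n (pcPoly (n + 1) Q) = 1) :
    ∃ N : ℕ, 1 ≤ N ∧ ∀ τ : QCode, qval τ ≠ 0 → N * (qval τ).num.natAbs ^ N ≤ (qval τ).den →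
      ∀ (G : PCode) (K : ℕ), ∃ c : CCert, checkC ((n, K), (Q, G), τ) c := by
  obtain ⟨V, N₁, hN₁, h₁⟩ := exists_okBase hQ
  obtain ⟨N₂, hN₂, h₂⟩ := value_zero hQ
  refine ⟨max N₁ N₂, hN₁.trans (le_max_left _ _), fun τ hτ h G K => ?_⟩
  have hb := h₁ τ hτ (MainB_mono (le_max_left _ _) hτ h)
  obtain ⟨hw, hz⟩ := h₂ (qval τ) hτ (MainB_mono (le_max_right _ _) hτ h)
  by_cases hJ : JJ n (pcPoly (n + 1) Q) (pcPoly (n + 1) G) K (qval τ) = 0
  · have hev : ev (qval τ) (Phi n (pcPoly (n + 1) Q) (pcPoly (n + 1) G) K) = 0 := by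
      rw [← integral_eq_ev hQ hw]
      exact hJ
    obtain ⟨j, U, hU⟩ := hz _ _ hev
    obtain ⟨x, hx⟩ := checkZ_complete hQ hU
    exact ⟨((V, true), (x, (((((0, 0), 0), []), ([], [])) : NCert))), hb, Or.inl ⟨rfl, hx⟩⟩
  · obtain ⟨x, hx⟩ := checkN_complete hQ hw hJ
    exact ⟨((V, false), ((((((0, 0), (0, 0)), 0), (([], []), ([], [])), ([], [])) : ZCert), x)), hb,
      Or.inr ⟨rfl, hx⟩⟩

end Pool.Agent.Lib.MP_bbe012_lc.PP
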