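import Pool.Agent.Lib.MP_bbe012_lc.PP.KDefs
import Pool.Agent.Lib.MP_bbe012_lc.PP.MainB

/-!
# Stage 2: families with integral parameters
-/

namespace Pool.Agent.Lib.MP_bbe012_lc.PP

open MvPolynomial

/-- Families of polynomials in `t, x_1, ..., x_n`, with parameters `y_1, ..., y_q`, over the integers. -/
abbrev PF (q n : ℕ) := MvPolynomial (Fin (n + 1)) (MvPolynomial (Fin q) ℤ)

/-- The member of the family with parameter `y`. -/
noncomputable def spP {q n : ℕ} (y : Fin q → ℤ) : PF q n →+* P1 n :=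
  MvPolynomial.map ((Int.castRingHom ℚ).comp (eval y))

/-- The same for polynomials in `t`. -/
noncomputable def spT {q : ℕ} (y : Fin q → ℤ) : Polynomial (MvPolynomial (Fin q) ℤ) →+* Polynomial ℤ :=
  Polynomial.mapRingHom (eval y)

/-- The value at the integral point `y`. -/
noncomputable def evQ {q : ℕ} (y : Fin q → ℤ) : MvPolynomial (Fin q) ℚ →+* ℚ :=
  eval fun i => (y i : ℚ)

/-- Sum of the absolute values of the coefficients. -/
noncomputable def l1I {m : ℕ} (p : MvPolynomial (Fin m) ℤ) : ℕ := ∑ u ∈ p.support, (coeff u p).natAbs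

/-- Vanishing of the value at `τ` of an integral of `G / Q ^ K` has an algebraic reason. -/
def Good (n : ℕ) (Q : P1 n) (τ : ℚ) : Prop :=
  wn n Q τ ≤ 1 / 2 ∧ ∀ (G : P1 n) (K : ℕ), ev τ (Phi n Q G K) = 0 →
    ∃ (j : ℕ) (U : P1 n), Phi n Q (G * Q ^ j + (X 0 - C τ) * U) (K + j) = 0

end Pool.Agent.Lib.MP_bbe012_lc.PP
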