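import Pool.Agent.Lib.MP_bbe012_lc.PP.LamL

/-!
# Properties of the expansions `Phi`
-/

namespace Pool.Agent.Lib.MP_bbe012_lc.PP

open MvPolynomial

theorem LamS_add (n : ℕ) (f g : PowerSeries (MvPolynomial (Fin n) ℚ)) :
    LamS n (f + g) = LamS n f + LamS n g := by
  ext k
  rw [coeff_LamS, map_add, map_add, map_add, coeff_LamS, coeff_LamS]

theorem LamS_sub (n : ℕ) (f g : PowerSeries (MvPolynomial (Fin n) ℚ)) :
    LamS n (f - g) = LamS n f - LamS n g := by
  ext k
  rw [coeff_LamS, map_sub, map_sub, map_sub, coeff_LamS, coeff_LamS]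

theorem LamS_sum {ι : Type} (n : ℕ) (s : Finset ι) (f : ι → PowerSeries (MvPolynomial (Fin n) ℚ)) :
    LamS n (∑ i ∈ s, f i) = ∑ i ∈ s, LamS n (f i) := by
  ext k
  rw [coeff_LamS, map_sum, map_sum, map_sum]
  exact Finset.sum_congr rfl fun i _ => (coeff_LamS n (f i) k).symm

theorem LamS_one (n : ℕ) : LamS n 1 = 1 := by
  ext k
  rw [coeff_LamS, PowerSeries.coeff_one, PowerSeries.coeff_one]
  split_ifs
  · rw [← C_1, Lam_C]
  · rw [map_zero]

/-- Proof: induction on `c` (`Polynomial.induction_on'` or constants, sums, multiplication by `X`):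
`ser n (inT n (C a)) = C (C a)`, `ser n (inT n X) = PowerSeries.X`, `coeff_C_mul`, `coeff_succ_X_mul`, `Lam` is linear. -/
theorem LamS_inT_mul (n : ℕ) (c : Polynomial ℚ) (f : PowerSeries (MvPolynomial (Fin n) ℚ)) :
    LamS n (ser n (inT n c) * f) = (c : PowerSeries ℚ) * LamS n f := by
  induction c using Polynomial.induction_on' with
  | add p q hp hq =>
    rw [map_add, map_add, add_mul, LamS_add, hp, hq, Polynomial.coe_add, add_mul]
  | monomial k a =>
    have h1 : inT n (Polynomial.monomial k a) = C a * X 0 ^ k := by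
      rw [← Polynomial.C_mul_X_pow_eq_monomial, inT]
      change Polynomial.aeval (X 0 : P1 n) (Polynomial.C a * Polynomial.X ^ k) = _
      rw [map_mul, map_pow, Polynomial.aeval_C, Polynomial.aeval_X]
      rfl
    have h2 : ((Polynomial.monomial k a : Polynomial ℚ) : PowerSeries ℚ) =
        PowerSeries.C a * PowerSeries.X ^ k := by
      rw [← Polynomial.C_mul_X_pow_eq_monomial, Polynomial.coe_mul, Polynomial.coe_pow,
        Polynomial.coe_X, Polynomial.coe_C]
    rw [h1, h2, map_mul, map_pow, ser_C, ser_X_zero, mul_assoc, mul_assoc]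
    ext m
    rw [coeff_LamS, PowerSeries.coeff_C_mul, PowerSeries.coeff_C_mul, PowerSeries.coeff_X_pow_mul',
      PowerSeries.coeff_X_pow_mul', ← smul_eq_C_mul, map_smul, smul_eq_mul]
    split_ifs
    · rw [coeff_LamS]
    · rw [map_zero]

/-- Proof: `PowerSeries.coeff_derivative` on both sides, `Lam` is linear. -/
theorem LamS_derivative (n : ℕ) (f : PowerSeries (MvPolynomial (Fin n) ℚ)) :
    LamS n (PowerSeries.derivative (MvPolynomial (Fin n) ℚ) f) = PowerSeries.derivative ℚ (LamS n f) := by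
  ext k
  rw [coeff_LamS, PowerSeries.coeff_derivative, PowerSeries.coeff_derivative, coeff_LamS]
  have h1 : ((k : MvPolynomial (Fin n) ℚ) + 1) = C ((k : ℚ) + 1) := by
    rw [map_add, C_1, map_natCast]
  rw [h1, mul_comm, ← smul_eq_C_mul, map_smul, smul_eq_mul, mul_comm]

/-- Proof: induction on `G` (`MvPolynomial.induction_on`), `Derivation.leibniz`, `pderiv_X`. -/
theorem derivative_ser (n : ℕ) (G : P1 n) :
    PowerSeries.derivative (MvPolynomial (Fin n) ℚ) (ser n G) = ser n (pderiv 0 G) := by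
  induction G using MvPolynomial.induction_on with
  | C a =>
    rw [ser_C, pderiv_C, map_zero]
    exact PowerSeries.derivative_C
  | add p q hp hq => rw [map_add, map_add, map_add, map_add, hp, hq]
  | mul_X p i hp =>
    rw [map_mul, Derivation.leibniz, Derivation.leibniz, hp, smul_eq_mul, smul_eq_mul,
      smul_eq_mul, smul_eq_mul, map_add, map_mul, map_mul]
    congr 2
    refine Fin.cases ?_ (fun l => ?_) i
    · rw [ser_X_zero, pderiv_X_self, map_one]
      exact PowerSeries.derivative_X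
    · rw [ser_X_succ, pderiv_X_of_ne (Fin.succ_ne_zero l), map_zero]
      exact PowerSeries.derivative_C

/-- Proof: differentiate `ser Q ^ K * sinv Q ^ K = 1` and multiply by `sinv Q ^ K`. -/
theorem derivative_sinv_pow {n : ℕ} {Q : P1 n} (hQ : atZero n Q = 1) (K : ℕ) :
    PowerSeries.derivative (MvPolynomial (Fin n) ℚ) (sinv n Q ^ K) =
      - (K : PowerSeries (MvPolynomial (Fin n) ℚ)) * (ser n (pderiv 0 Q) * sinv n Q ^ (K + 1)) := by
  have hu := ser_mul_sinv hQ
  have h0 : PowerSeries.derivative (MvPolynomial (Fin n) ℚ) (sinv n Q) =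
      - (ser n (pderiv 0 Q) * sinv n Q ^ 2) := by
    have h1 := congrArg (PowerSeries.derivative (MvPolynomial (Fin n) ℚ)) hu
    rw [Derivation.leibniz, derivative_ser, Derivation.map_one_eq_zero, smul_eq_mul,
      smul_eq_mul] at h1
    linear_combination (sinv n Q) * h1 -
      PowerSeries.derivative (MvPolynomial (Fin n) ℚ) (sinv n Q) * hu
  induction K with
  | zero => rw [pow_zero, Derivation.map_one_eq_zero, Nat.cast_zero, neg_zero, zero_mul]
  | succ K ih =>
    rw [pow_succ, Derivation.leibniz, ih, h0, smul_eq_mul, smul_eq_mul]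
    push_cast
    ring

theorem Phi_add {n : ℕ} (Q G H : P1 n) (K : ℕ) : Phi n Q (G + H) K = Phi n Q G K + Phi n Q H K := by
  rw [Phi, map_add, add_mul, LamS_add]; rfl

theorem Phi_sub {n : ℕ} (Q G H : P1 n) (K : ℕ) : Phi n Q (G - H) K = Phi n Q G K - Phi n Q H K := by
  rw [Phi, map_sub, sub_mul, LamS_sub]; rfl

theorem Phi_sum {n : ℕ} {ι : Type} (Q : P1 n) (s : Finset ι) (G : ι → P1 n) (K : ℕ) :
    Phi n Q (∑ i ∈ s, G i) K = ∑ i ∈ s, Phi n Q (G i) K := by
  rw [Phi, map_sum, Finset.sum_mul, LamS_sum]; rfl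

theorem Phi_inT_mul {n : ℕ} (Q G : P1 n) (c : Polynomial ℚ) (K : ℕ) :
    Phi n Q (inT n c * G) K = (c : PowerSeries ℚ) * Phi n Q G K := by
  rw [Phi, map_mul, mul_assoc, LamS_inT_mul]; rfl

theorem Phi_one {n : ℕ} (Q : P1 n) : Phi n Q 1 0 = 1 := by
  rw [Phi, map_one, pow_zero, mul_one, LamS_one]

theorem Phi_shift {n : ℕ} {Q : P1 n} (hQ : atZero n Q = 1) (G : P1 n) (K j : ℕ) :
    Phi n Q (G * Q ^ j) (K + j) = Phi n Q G K := by
  have h : ser n Q ^ j * sinv n Q ^ j = 1 := by rw [← mul_pow, ser_mul_sinv hQ, one_pow]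
  rw [Phi, Phi, map_mul, map_pow, pow_add]
  congr 1
  calc ser n G * ser n Q ^ j * (sinv n Q ^ K * sinv n Q ^ j) =
        ser n G * sinv n Q ^ K * (ser n Q ^ j * sinv n Q ^ j) := by ring
    _ = _ := by rw [h, mul_one]

private noncomputable def phidx (n : ℕ) (l : Fin n)
    (f : PowerSeries (MvPolynomial (Fin n) ℚ)) : PowerSeries (MvPolynomial (Fin n) ℚ) :=
  PowerSeries.mk fun k => pderiv l (PowerSeries.coeff k f)

private theorem coeff_phidx (n : ℕ) (l : Fin n) (f : PowerSeries (MvPolynomial (Fin n) ℚ))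
    (k : ℕ) : PowerSeries.coeff k (phidx n l f) = pderiv l (PowerSeries.coeff k f) := by
  rw [phidx, PowerSeries.coeff_mk]

private theorem phidx_add (n : ℕ) (l : Fin n) (f g : PowerSeries (MvPolynomial (Fin n) ℚ)) :
    phidx n l (f + g) = phidx n l f + phidx n l g := by
  ext1 k
  rw [coeff_phidx, map_add, map_add, map_add, coeff_phidx, coeff_phidx]

private theorem phidx_mul (n : ℕ) (l : Fin n) (f g : PowerSeries (MvPolynomial (Fin n) ℚ)) :
    phidx n l (f * g) = phidx n l f * g + f * phidx n l g := by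
  ext1 k
  rw [coeff_phidx, PowerSeries.coeff_mul, map_sum, map_add, PowerSeries.coeff_mul,
    PowerSeries.coeff_mul, ← Finset.sum_add_distrib]
  refine Finset.sum_congr rfl fun p _ => ?_
  rw [pderiv_mul, coeff_phidx, coeff_phidx]

private theorem phidx_C (n : ℕ) (l : Fin n) (a : MvPolynomial (Fin n) ℚ) :
    phidx n l (PowerSeries.C a) = PowerSeries.C (pderiv l a) := by
  ext1 k
  rw [coeff_phidx, PowerSeries.coeff_C, PowerSeries.coeff_C]
  split_ifs
  · rfl
  · rw [map_zero]

private theorem phidx_X (n : ℕ) (l : Fin n) :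
    phidx n l (PowerSeries.X : PowerSeries (MvPolynomial (Fin n) ℚ)) = 0 := by
  ext1 k
  rw [coeff_phidx, PowerSeries.coeff_X, map_zero]
  split_ifs
  · rw [← C_1, pderiv_C]
  · rw [map_zero]

private theorem phidx_ser (n : ℕ) (l : Fin n) (G : P1 n) :
    phidx n l (ser n G) = ser n (pderiv l.succ G) := by
  induction G using MvPolynomial.induction_on with
  | C a => rw [ser_C, pderiv_C, map_zero, phidx_C, pderiv_C, map_zero]
  | add p q hp hq => rw [map_add, map_add, map_add, phidx_add, hp, hq]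
  | mul_X p i hp =>
    rw [map_mul, phidx_mul, hp, pderiv_mul, map_add, map_mul, map_mul]
    congr 2
    refine Fin.cases ?_ (fun m => ?_) i
    · rw [ser_X_zero, pderiv_X_of_ne (Fin.succ_ne_zero l).symm, map_zero, phidx_X]
    · rw [ser_X_succ, phidx_C]
      by_cases h : m = l
      · subst h
        rw [pderiv_X_self, pderiv_X_self, map_one, map_one]
      · rw [pderiv_X_of_ne h, pderiv_X_of_ne (fun h' => h (Fin.succ_injective _ h')), map_zero,
          map_zero]

private theorem phidx_one (n : ℕ) (l : Fin n) :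
    phidx n l (1 : PowerSeries (MvPolynomial (Fin n) ℚ)) = 0 := by
  have h := phidx_C n l 1
  rw [map_one] at h
  rw [h, ← C_1, pderiv_C, map_zero]

private theorem phidx_sinv_pow {n : ℕ} {Q : P1 n} (hQ : atZero n Q = 1) (l : Fin n) (K : ℕ) :
    phidx n l (sinv n Q ^ K) =
      - (K : PowerSeries (MvPolynomial (Fin n) ℚ)) *
        (ser n (pderiv l.succ Q) * sinv n Q ^ (K + 1)) := by
  have hu := ser_mul_sinv hQ
  have h0 : phidx n l (sinv n Q) = - (ser n (pderiv l.succ Q) * sinv n Q ^ 2) := by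
    have h1 := congrArg (phidx n l) hu
    rw [phidx_mul, phidx_ser, phidx_one] at h1
    linear_combination (sinv n Q) * h1 - phidx n l (sinv n Q) * hu
  induction K with
  | zero => rw [pow_zero, phidx_one, Nat.cast_zero, neg_zero, zero_mul]
  | succ K ih =>
    rw [pow_succ, phidx_mul, ih, h0]
    push_cast
    ring

/-- Exact terms have expansion zero.

Proof. Let `dx l f = PowerSeries.mk fun k => pderiv l (coeff k f)`; it satisfies the Leibniz rule
(`PowerSeries.coeff_mul`, `map_sum`), `dx l (ser n G) = ser n (pderiv l.succ G)` (induction on `G`), and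
`dx l (sinv Q ^ K) = - K * ser (pderiv l.succ Q) * sinv Q ^ (K + 1)` (differentiate `ser Q ^ K * sinv Q ^ K = 1`).
Hence `ser (Q * pderiv l.succ (fl n l * g) - K * (fl n l * g * pderiv l.succ Q)) * sinv Q ^ (K + 1)
 = dx l (ser (fl n l * g) * sinv Q ^ K)`, and `ser (fl n l) = PowerSeries.C (X l - X l ^ 2)`, so every coefficient is
`pderiv l ((X l - X l ^ 2) * h)`, which has integral `0` (`Lam_pderiv`). -/
theorem Phi_divf {n : ℕ} {Q : P1 n} (hQ : atZero n Q = 1) (K : ℕ) (g : Fin n → P1 n) :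
    Phi n Q (divf n Q K g) (K + 1) = 0 := by
  rw [divf, Phi_sum]
  refine Finset.sum_eq_zero fun l _ => ?_
  have key : ser n (Q * pderiv l.succ (fl n l * g l) -
      (K : P1 n) * (fl n l * g l * pderiv l.succ Q)) * sinv n Q ^ (K + 1) =
      phidx n l (ser n (fl n l * g l) * sinv n Q ^ K) := by
    rw [phidx_mul, phidx_ser, phidx_sinv_pow hQ, map_sub, (ser n).map_mul Q,
      (ser n).map_mul (K : P1 n), (ser n).map_mul (fl n l * g l) (pderiv l.succ Q), map_natCast]
    linear_combination (ser n (pderiv l.succ (fl n l * g l)) * sinv n Q ^ K) * ser_mul_sinv hQ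
  rw [Phi, key]
  ext k
  rw [coeff_LamS, map_zero, coeff_phidx, (ser n).map_mul, mul_assoc]
  have h1 : ser n (fl n l) = PowerSeries.C (X l - X l ^ 2) := by
    rw [fl, map_sub, map_pow, ser_X_succ, map_sub, map_pow]
  rw [h1, PowerSeries.coeff_C_mul, Lam_pderiv]

/-- Proof: `LamS_derivative`, `Derivation.leibniz`, `derivative_ser`, `derivative_sinv_pow`, `ser_mul_sinv`. -/
theorem derivative_Phi {n : ℕ} {Q : P1 n} (hQ : atZero n Q = 1) (G : P1 n) (K : ℕ) :
    PowerSeries.derivative ℚ (Phi n Q G K) =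
      Phi n Q (Q * pderiv 0 G - (K : P1 n) * (G * pderiv 0 Q)) (K + 1) := by
  rw [Phi, Phi, ← LamS_derivative, Derivation.leibniz, derivative_ser, derivative_sinv_pow hQ,
    smul_eq_mul, smul_eq_mul, map_sub, map_mul, map_mul, map_mul, map_natCast]
  congr 1
  linear_combination -(ser n (pderiv 0 G) * sinv n Q ^ K) * ser_mul_sinv hQ

/-- The iterates of `theta`. Proof: induction on `i`: `theta (Phi G K) = Phi (X 0 * (Q * pderiv 0 G - K * (G * pderiv 0 Q))) (K + 1)`
by `derivative_Phi` and `Phi_inT_mul` with `c = X` (`inT n X = X 0`). -/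
theorem theta_Phi {n : ℕ} {Q : P1 n} (hQ : atZero n Q = 1) (S : P1 n) (K i : ℕ) :
    theta^[i] (Phi n Q S K) = Phi n Q (thetaNum n Q K S i) (K + i) := by
  induction i with
  | zero => rfl
  | succ i ih =>
    rw [Function.iterate_succ_apply', ih, theta, derivative_Phi hQ]
    have h1 : inT n Polynomial.X = X 0 := by
      rw [inT]
      exact Polynomial.aeval_X _
    have h2 := Phi_inT_mul Q (Q * pderiv 0 (thetaNum n Q K S i) -
      ((K + i : ℕ) : P1 n) * (thetaNum n Q K S i * pderiv 0 Q)) Polynomial.X (K + i + 1)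
    rw [Polynomial.coe_X] at h2
    rw [← h2, h1, thetaNum, ← add_assoc]
    congr 1
    ring

/-- `1 / Q ^ K` times `G` vanishes to high order: if `G = Q ^ K * H + X 0 ^ N * U` then
`Phi G K = LamS (ser H) + X ^ N * Phi U K`. Proof: `ser_mul_sinv`, `LamS_add`, `LamS_inT_mul` with `c = X ^ N`. -/
theorem Phi_expand {n : ℕ} {Q : P1 n} (hQ : atZero n Q = 1) (H U : P1 n) (K N : ℕ) :
    Phi n Q (Q ^ K * H + X 0 ^ N * U) K = LamS n (ser n H) + PowerSeries.X ^ N * Phi n Q U K := by
  have h1 : (ser n Q) ^ K * sinv n Q ^ K = 1 := by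
    rw [← mul_pow, ser_mul_sinv hQ, one_pow]
  have h2 : inT n (Polynomial.X ^ N) = X 0 ^ N := by
    rw [map_pow, inT]
    congr 1
    exact Polynomial.aeval_X _
  have h3 := Phi_inT_mul Q U (Polynomial.X ^ N) K
  rw [h2, Polynomial.coe_pow, Polynomial.coe_X] at h3
  rw [Phi_add, h3]
  congr 1
  rw [Phi, map_mul, map_pow]
  congr 1
  linear_combination (ser n H) * h1

end Pool.Agent.Lib.MP_bbe012_lc.PP
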