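import Pool.Agent.Lib.MP_bbe012_lc.PP.RedDefs
import Pool.Agent.Lib.MP_bbe012_lc.Split

/-!
# Integrals of products over blocks of variables, padding of variables
-/

namespace Pool.Agent.Lib.MP_bbe012_lc.PP

open MvPolynomial MeasureTheory Set

/-- Currying preserves the volume. Proof. Both sides are products of Lebesgue measures. E.g. by induction on `δ`
(`MeasurableEquiv.piFinSuccAbove`, `volume_preserving_piFinSuccAbove`) or by `Measure.pi_eq_generateFrom` /
uniqueness: the map of the product measure on `Fin δ × Fin n → ℝ` takes the right value on the boxes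
`pi univ fun i => pi univ fun l => s (i, l)` (`Measure.pi_pi`, `Finset.prod_product` / `Fintype.prod_prod_type`), and these form
a π-system generating the sigma algebra (`generateFrom_pi`, `isPiSystem_pi`). -/
theorem measurePreserving_uncurry (δ n : ℕ) :
    MeasurePreserving (fun (x : Fin δ × Fin n → ℝ) (i : Fin δ) (l : Fin n) => x (i, l)) := by
  have h1 : MeasurePreserving (MeasurableEquiv.curry (Fin δ) (Fin n) ℝ).symm volume volume := by
    refine ⟨(MeasurableEquiv.curry (Fin δ) (Fin n) ℝ).symm.measurable, ?_⟩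
    symm
    refine Measure.pi_eq fun s hs => ?_
    rw [MeasurableEquiv.map_apply]
    have h2 : (MeasurableEquiv.curry (Fin δ) (Fin n) ℝ).symm ⁻¹' (pi univ s) =
        pi univ fun i => pi univ fun l => s (i, l) := by
      ext x
      constructor
      · intro hx i _ l _
        exact hx (i, l) (mem_univ _)
      · intro hx p _
        exact hx p.1 (mem_univ _) p.2 (mem_univ _)
    rw [h2, volume_pi_pi, Fintype.prod_prod_type]
    exact Finset.prod_congr rfl fun i _ => volume_pi_pi _
  exact h1.symm

/-- The blocks as a measurable equivalence. -/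
private noncomputable def redA_equiv (δ n : ℕ) : (Fin (δ * n) → ℝ) ≃ᵐ (Fin δ → Fin n → ℝ) :=
  (MeasurableEquiv.piCongrLeft (fun _ : Fin δ × Fin n => ℝ)
    (finProdFinEquiv (m := δ) (n := n)).symm).trans (MeasurableEquiv.curry (Fin δ) (Fin n) ℝ)

private theorem redA_equiv_apply (δ n : ℕ) (x : Fin (δ * n) → ℝ) :
    redA_equiv δ n x = fun i => bco n δ i x := by
  have key : ∀ i : Fin (δ * n), (MeasurableEquiv.piCongrLeft (fun _ : Fin δ × Fin n => ℝ)
    (finProdFinEquiv (m := δ) (n := n)).symm) x (finProdFinEquiv.symm i) = x i := fun i =>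
    MeasurableEquiv.piCongrLeft_apply_apply (β := fun _ : Fin δ × Fin n => ℝ)
      finProdFinEquiv.symm x i
  funext i l
  have h1 := key (finProdFinEquiv (i, l))
  rw [Equiv.symm_apply_apply] at h1
  exact h1

/-- Proof: compose `measurePreserving_uncurry` with `volume_measurePreserving_piCongrLeft` for `finProdFinEquiv`. -/
theorem measurePreserving_blocks (δ n : ℕ) :
    MeasurePreserving (fun (x : Fin (δ * n) → ℝ) (i : Fin δ) => bco n δ i x) := by
  have h1 : MeasurePreserving (MeasurableEquiv.piCongrLeft (fun _ : Fin δ × Fin n => ℝ)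
    (finProdFinEquiv (m := δ) (n := n)).symm) volume volume :=
    volume_measurePreserving_piCongrLeft (fun _ : Fin δ × Fin n => ℝ)
      (finProdFinEquiv (m := δ) (n := n)).symm
  have h2 := (measurePreserving_uncurry δ n).comp h1
  have h3 : (fun (x : Fin (δ * n) → ℝ) (i : Fin δ) => bco n δ i x) =
      (fun (x : Fin δ × Fin n → ℝ) (i : Fin δ) (l : Fin n) => x (i, l)) ∘
        (MeasurableEquiv.piCongrLeft (fun _ : Fin δ × Fin n => ℝ)
          (finProdFinEquiv (m := δ) (n := n)).symm) := by
    funext x
    rw [← redA_equiv_apply]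
    rfl
  rw [h3]
  exact h2

/-- The integral of a product over the blocks. Proof: write the integral over the cube `Icc 0 1` as an integral over the whole
space of the indicator function, which is the product of the indicator functions of the blocks:
`∏ i, (Icc 0 1).indicator (f i) (bco n δ i x) = (Icc 0 1).indicator (fun x => ∏ i, f i (bco n δ i x)) x`; the map in
`measurePreserving_blocks` is a measurable equivalence (so `MeasurePreserving.integral_comp` applies), and
`integral_fintype_prod_eq_prod` (MeasureTheory/Integral/Pi.lean). For `δ = 0` both sides are `1`. -/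
theorem integral_blocks (n δ : ℕ) (f : Fin δ → (Fin n → ℝ) → ℝ) :
    ∫ x in Icc (0 : Fin (δ * n) → ℝ) 1, ∏ i, f i (bco n δ i x) =
      ∏ i, ∫ x in Icc (0 : Fin n → ℝ) 1, f i x := by
  classical
  have h1 : MeasurePreserving (redA_equiv δ n) volume volume := by
    have h2 : (redA_equiv δ n : (Fin (δ * n) → ℝ) → (Fin δ → Fin n → ℝ)) =
        fun (x : Fin (δ * n) → ℝ) (i : Fin δ) => bco n δ i x := funext fun x =>
      redA_equiv_apply δ n x
    rw [h2]
    exact measurePreserving_blocks δ n
  have h3 : (Icc (0 : Fin (δ * n) → ℝ) 1).indicator (fun x => ∏ i, f i (bco n δ i x)) =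
      fun x => ∏ i, (Icc (0 : Fin n → ℝ) 1).indicator (f i) (redA_equiv δ n x i) := by
    funext x
    rw [redA_equiv_apply]
    by_cases hx : x ∈ Icc (0 : Fin (δ * n) → ℝ) 1
    · rw [indicator_of_mem hx]
      refine Finset.prod_congr rfl fun i _ => ?_
      rw [indicator_of_mem]
      exact ⟨fun l => hx.1 _, fun l => hx.2 _⟩
    · rw [indicator_of_notMem hx]
      have h4 : ∃ i, bco n δ i x ∉ Icc (0 : Fin n → ℝ) 1 := by
        by_contra hcon
        push Not at hcon
        apply hx
        constructor
        · intro j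
          have h5 := (hcon (finProdFinEquiv.symm j).1).1 (finProdFinEquiv.symm j).2
          have h6 : bco n δ (finProdFinEquiv.symm j).1 x (finProdFinEquiv.symm j).2 = x j := by
            show x (finProdFinEquiv ((finProdFinEquiv.symm j).1, (finProdFinEquiv.symm j).2)) = x j
            rw [Prod.mk.eta, Equiv.apply_symm_apply]
          rw [h6] at h5
          exact h5
        · intro j
          have h5 := (hcon (finProdFinEquiv.symm j).1).2 (finProdFinEquiv.symm j).2
          have h6 : bco n δ (finProdFinEquiv.symm j).1 x (finProdFinEquiv.symm j).2 = x j := by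
            show x (finProdFinEquiv ((finProdFinEquiv.symm j).1, (finProdFinEquiv.symm j).2)) = x j
            rw [Prod.mk.eta, Equiv.apply_symm_apply]
          rw [h6] at h5
          exact h5
      obtain ⟨i, hi⟩ := h4
      exact (Finset.prod_eq_zero (Finset.mem_univ i) (indicator_of_notMem hi _)).symm
  rw [← integral_indicator measurableSet_Icc, h3]
  rw [h1.integral_comp' (fun y : Fin δ → Fin n → ℝ =>
    ∏ i, (Icc (0 : Fin n → ℝ) 1).indicator (f i) (y i))]
  rw [integral_fintype_prod_volume_eq_prod]
  exact Finset.prod_congr rfl fun i _ => integral_indicator measurableSet_Icc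

/-- Proof: `bco n δ i x` has coordinates in `[0,1]`. -/
theorem bco_mem {n δ : ℕ} (i : Fin δ) {x : Fin (δ * n) → ℝ} (hx : x ∈ Icc (0 : Fin (δ * n) → ℝ) 1) :
    bco n δ i x ∈ Icc (0 : Fin n → ℝ) 1 := by
  exact ⟨fun l => hx.1 _, fun l => hx.2 _⟩

/-- Padding of variables. Proof: `n = m + b`; `integral_mul_split` (Split.lean) for the indicator functions
`(Icc 0 1).indicator f` and `(Icc 0 1).indicator 1` (volume of the cube: `1`, `Real.volume_Icc_pi`). -/
theorem integral_pad {m n : ℕ} (h : m ≤ n) (f : (Fin m → ℝ) → ℝ)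
    (hf : IntegrableOn f (Icc (0 : Fin m → ℝ) 1)) :
    ∫ x in Icc (0 : Fin n → ℝ) 1, f (fun i => x (Fin.castLE h i)) =
      ∫ x in Icc (0 : Fin m → ℝ) 1, f x := by
  obtain ⟨b, rfl⟩ := Nat.exists_eq_add_of_le h
  have hf1 : Integrable ((Icc (0 : Fin m → ℝ) 1).indicator f) :=
    (integrable_indicator_iff measurableSet_Icc).2 hf
  have hg1 : Integrable ((Icc (0 : Fin b → ℝ) 1).indicator fun _ => (1 : ℝ)) :=
    (integrable_indicator_iff measurableSet_Icc).2
      (integrableOn_const (isCompact_Icc.measure_lt_top.ne))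
  have h1 := (integral_mul_split m b _ _ hf1 hg1).2
  have h2 : ∫ x : Fin b → ℝ, (Icc (0 : Fin b → ℝ) 1).indicator (fun _ => (1 : ℝ)) x = 1 := by
    rw [integral_indicator measurableSet_Icc, setIntegral_const, measureReal_def,
      Real.volume_Icc_pi]
    simp
  have h3 : (fun y : Fin (m + b) → ℝ => (Icc (0 : Fin m → ℝ) 1).indicator f
      (fun i => y (Fin.castAdd b i)) * (Icc (0 : Fin b → ℝ) 1).indicator (fun _ => (1 : ℝ))
        (fun i => y (Fin.natAdd m i))) =
      (Icc (0 : Fin (m + b) → ℝ) 1).indicator fun y => f (fun i => y (Fin.castLE h i)) := by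
    funext y
    by_cases hy : y ∈ Icc (0 : Fin (m + b) → ℝ) 1
    · rw [indicator_of_mem hy, indicator_of_mem, indicator_of_mem, mul_one]
      · rfl
      · exact ⟨fun i => hy.1 _, fun i => hy.2 _⟩
      · exact ⟨fun i => hy.1 _, fun i => hy.2 _⟩
    · rw [indicator_of_notMem hy]
      by_cases h4 : (fun i => y (Fin.castAdd b i)) ∈ Icc (0 : Fin m → ℝ) 1
      · rw [indicator_of_notMem (a := fun i => y (Fin.natAdd m i)), mul_zero]
        intro h5
        apply hy
        constructor
        · intro j
          refine Fin.addCases (fun i => ?_) (fun i => ?_) j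
          · exact h4.1 i
          · exact h5.1 i
        · intro j
          refine Fin.addCases (fun i => ?_) (fun i => ?_) j
          · exact h4.2 i
          · exact h5.2 i
      · rw [indicator_of_notMem h4, zero_mul]
  rw [h3, h2, mul_one, integral_indicator measurableSet_Icc,
    integral_indicator measurableSet_Icc] at h1
  exact h1

/-- Proof: `Fin.cases` on the variable, `aeval_rename`. -/
theorem aeval_bidx (n δ : ℕ) (i : Fin δ) (τ : ℚ) (x : Fin (δ * n) → ℝ) (p : P1 n) :
    aeval (pt (δ * n) τ x) (rename (bidx n δ i) p) = aeval (pt n τ (bco n δ i x)) p := by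
  rw [aeval_rename]
  refine congrArg (fun z => aeval z p) (funext fun j => ?_)
  refine Fin.cases ?_ (fun l => ?_) j
  · rfl
  · rfl

/-- Proof: `Fin.cons_succ`, `aeval_rename`. -/
theorem aeval_succ (n : ℕ) (τ : ℚ) (x : Fin n → ℝ) (p : MvPolynomial (Fin n) ℚ) :
    aeval (pt n τ x) (rename Fin.succ p) = aeval x p := by
  rw [aeval_rename]
  refine congrArg (fun z => aeval z p) (funext fun j => ?_)
  rfl

/-- Proof: at `t = 0` every factor is `1` (`aeval_rename`; `bidx` fixes `0`). -/
theorem atZero_bidx {n : ℕ} (δ : ℕ) (i : Fin δ) {Q : P1 n} (hQ : atZero n Q = 1) :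
    atZero (δ * n) (rename (bidx n δ i) Q) = 1 := by
  have h1 : (atZero (δ * n)).comp (rename (bidx n δ i)) =
      (rename (fun l => finProdFinEquiv (i, l))).comp (atZero n) := by
    refine MvPolynomial.algHom_ext fun j => ?_
    rw [AlgHom.comp_apply, AlgHom.comp_apply, rename_X]
    unfold atZero
    rw [aeval_X, aeval_X]
    refine Fin.cases ?_ (fun l => ?_) j
    · show (0 : MvPolynomial (Fin (δ * n)) ℚ) = rename _ 0
      rw [map_zero]
    · show (X (finProdFinEquiv (i, l)) : MvPolynomial (Fin (δ * n)) ℚ) = rename _ (X l)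
      rw [rename_X]
  have h2 := congrArg (fun g => g Q) h1
  simp only [AlgHom.comp_apply] at h2
  rw [h2, hQ, map_one]

private theorem redA_default : ciVal (0, (pcNat 1, pcNat 1)) = 1 := by
  unfold ciVal
  have h1 : ∀ x : Fin 0 → ℝ, pcEval 0 (pcNat 1) x = 1 := by
    intro x
    unfold pcEval
    rw [pcPoly_nat, Nat.cast_one, map_one, map_one]
  have h2 : ∀ x : Fin 0 → ℝ, pcEval 0 (pcNat 1) x / pcEval 0 (pcNat 1) x = 1 := by
    intro x
    rw [h1, div_one]
  show ∫ x in Icc (0 : Fin 0 → ℝ) 1, pcEval 0 (pcNat 1) x / pcEval 0 (pcNat 1) x = 1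
  simp only [h2]
  rw [setIntegral_const, measureReal_def, Real.volume_Icc_pi]
  simp

/-- Proof: the value of a product, with missing factors equal to `1`. `List.prod_range`-like: induction on the list `L`, or
`List.prod_ofFn`/`List.prod_range_succ`; `ciVal (0, (pcNat 1, pcNat 1)) = 1`. -/
theorem prod_item {L : List CI} {δ : ℕ} (h : L.length ≤ δ) :
    (L.map ciVal).prod = ∏ i : Fin δ, ciVal (L.getD i (0, (pcNat 1, pcNat 1))) := by
  induction L generalizing δ with
  | nil =>
    symm
    refine Finset.prod_eq_one fun i _ => ?_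
    exact redA_default
  | cons a L ih =>
    obtain ⟨δ', rfl⟩ : ∃ δ', δ = δ' + 1 := ⟨δ - 1, by
      rw [List.length_cons] at h
      omega⟩
    rw [List.map_cons, List.prod_cons, Fin.prod_univ_succ, ih (δ := δ') (by
      rw [List.length_cons] at h
      omega)]
    rfl

/-- The value of a sum of products. -/
theorem exVal_eq {E : Ex} {δ : ℕ} (h : ∀ L ∈ E, L.length ≤ δ) :
    exVal E = ∑ j : Fin E.length, ∏ i : Fin δ, ciVal (item E j i) := by
  unfold exVal
  rw [← Fin.sum_univ_fun_getElem]
  refine Finset.sum_congr rfl fun j _ => ?_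
  rw [prod_item (h _ (List.getElem_mem j.2))]
  refine Finset.prod_congr rfl fun i _ => ?_
  unfold item
  rw [List.getD_eq_getElem E [] j.2]

end Pool.Agent.Lib.MP_bbe012_lc.PP
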