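import Mathlib

/-!
# Stage 2: derivations of function fields
-/

namespace Pool.Agent.Lib.MP_bbe012_lc.PP

open MvPolynomial

/-- The ring homomorphism `s ↦ s + d s ε`. -/
private noncomputable def extHom {S M : Type} [CommRing S] [CommRing M] [Algebra S M]
    (d : Derivation ℤ S S) : S →+* TrivSqZeroExt M M where
  toFun s := TrivSqZeroExt.inl (algebraMap S M s) + TrivSqZeroExt.inr (algebraMap S M (d s))
  map_one' := by
    rw [Derivation.map_one_eq_zero, map_one, map_zero, TrivSqZeroExt.inr_zero, add_zero,
      TrivSqZeroExt.inl_one]
  map_zero' := by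
    rw [map_zero, map_zero, map_zero, TrivSqZeroExt.inr_zero, add_zero, TrivSqZeroExt.inl_zero]
  map_add' a b := by
    rw [map_add, map_add, map_add, TrivSqZeroExt.inl_add, TrivSqZeroExt.inr_add]
    exact add_add_add_comm _ _ _ _
  map_mul' a b := by
    apply TrivSqZeroExt.ext
    · simp only [TrivSqZeroExt.fst_add, TrivSqZeroExt.fst_inl, TrivSqZeroExt.fst_inr,
        TrivSqZeroExt.fst_mul, add_zero, map_mul]
    · simp only [TrivSqZeroExt.fst_add, TrivSqZeroExt.fst_inl, TrivSqZeroExt.fst_inr,
        TrivSqZeroExt.snd_mul, TrivSqZeroExt.snd_add, TrivSqZeroExt.snd_inl,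
        TrivSqZeroExt.snd_inr, add_zero, zero_add, Derivation.leibniz, map_add, smul_eq_mul,
        map_mul, MulOpposite.smul_eq_mul_unop, MulOpposite.unop_op]
      ring

private theorem extHom_fst {S M : Type} [CommRing S] [CommRing M] [Algebra S M]
    (d : Derivation ℤ S S) (s : S) : (extHom (M := M) d s).fst = algebraMap S M s := by
  change (TrivSqZeroExt.inl (algebraMap S M s) +
    TrivSqZeroExt.inr (algebraMap S M (d s)) : TrivSqZeroExt M M).fst = _
  rw [TrivSqZeroExt.fst_add, TrivSqZeroExt.fst_inl, TrivSqZeroExt.fst_inr, add_zero]

private theorem extHom_snd {S M : Type} [CommRing S] [CommRing M] [Algebra S M]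
    (d : Derivation ℤ S S) (s : S) : (extHom (M := M) d s).snd = algebraMap S M (d s) := by
  change (TrivSqZeroExt.inl (algebraMap S M s) +
    TrivSqZeroExt.inr (algebraMap S M (d s)) : TrivSqZeroExt M M).snd = _
  rw [TrivSqZeroExt.snd_add, TrivSqZeroExt.snd_inl, TrivSqZeroExt.snd_inr, zero_add]

/-- Extension of a derivation to the field of fractions, or to any localization: well known.

Proof. The ring homomorphism `s ↦ s + d s ε` from `S` to `TrivSqZeroExt M M` maps the elements of `P` to units
(`TrivSqZeroExt.isUnit_iff_isUnit_fst`), so it extends to `M` (`IsLocalization.lift`); the second component of the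
extension is the derivation; the first component is the identity (`IsLocalization.ringHom_ext`). -/
theorem ext_localization {S M : Type} [CommRing S] [CommRing M] [Algebra S M] (P : Submonoid S)
    [IsLocalization P M] (d : Derivation ℤ S S) :
    ∃ d' : Derivation ℤ M M, ∀ s, d' (algebraMap S M s) = algebraMap S M (d s) := by
  have hu : ∀ y : P, IsUnit (extHom (M := M) d y) := by
    intro y
    rw [TrivSqZeroExt.isUnit_iff_isUnit_fst, extHom_fst]
    exact IsLocalization.map_units M y
  let L : M →+* TrivSqZeroExt M M := IsLocalization.lift (M := P) hu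
  have hL : ∀ s, L (algebraMap S M s) = extHom d s := fun s => IsLocalization.lift_eq hu s
  have hfst : ∀ v, (L v).fst = v := by
    have h1 : ((TrivSqZeroExt.fstHom M M M).toRingHom.comp L : M →+* M) = RingHom.id M := by
      apply IsLocalization.ringHom_ext P
      ext s
      simp only [RingHom.comp_apply, RingHom.id_apply, hL]
      exact extHom_fst d s
    intro v
    exact congrArg (fun f : M →+* M => f v) h1
  let A : M →+ M := AddMonoidHom.mk' (fun v => (L v).snd) (fun a b => by
    change (L (a + b)).snd = (L a).snd + (L b).snd
    rw [map_add, TrivSqZeroExt.snd_add])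
  refine ⟨Derivation.mk' A.toIntLinearMap ?_, ?_⟩
  · intro a b
    change (L (a * b)).snd = a • (L b).snd + b • (L a).snd
    rw [map_mul, TrivSqZeroExt.snd_mul, hfst, hfst]
    simp only [smul_eq_mul, MulOpposite.smul_eq_mul_unop, MulOpposite.unop_op]
    ring
  · intro s
    change (L (algebraMap S M s)).snd = _
    rw [hL, extHom_snd]

/-- Two derivations of a field which agree on a subring over whose fraction field the field is algebraic agree.

Proof. `d = d₁ - d₂` vanishes on the image of `R`, hence on the field of fractions `K` (`d (a / b) = (b d a - a d b) / b ^ 2`). For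
`x ∈ E` let `μ` be the minimal polynomial over `K`, separable in characteristic zero: `0 = d (aeval x μ) = aeval x μ' * d x` and
`aeval x μ' ≠ 0` (`Separable.aeval_derivative_ne_zero`, `minpoly.aeval`). (Expand `d (aeval x μ)` as a sum over the coefficients: `d` is
`K`-linear because it vanishes on `K`, so `Derivation` over `K`; or `Derivation.leibniz_pow`.) -/
theorem der_unique {R K E : Type} [CommRing R] [IsDomain R] [Field K] [Algebra R K] [IsFractionRing R K]
    [Field E] [CharZero E] [Algebra R E] [Algebra K E] [IsScalarTower R K E] [Algebra.IsAlgebraic K E]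
    (d₁ d₂ : Derivation ℤ E E) (h : ∀ r : R, d₁ (algebraMap R E r) = d₂ (algebraMap R E r)) :
    d₁ = d₂ := by
  have hK : ∀ k : K, (d₁ - d₂) (algebraMap K E k) = 0 := by
    intro k
    obtain ⟨a, b, hb, rfl⟩ := IsFractionRing.div_surjective (A := R) k
    have hb0 : algebraMap R K b ≠ 0 :=
      IsLocalization.to_map_ne_zero_of_mem_nonZeroDivisors K le_rfl hb
    have hb1 : algebraMap K E (algebraMap R K b) ≠ 0 := by
      rw [Ne, map_eq_zero]
      exact hb0
    have hr : ∀ r : R, (d₁ - d₂) (algebraMap K E (algebraMap R K r)) = 0 := by
      intro r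
      rw [← IsScalarTower.algebraMap_apply R K E, Derivation.sub_apply, h r, sub_self]
    have h2 : (d₁ - d₂) (algebraMap K E (algebraMap R K b) *
        algebraMap K E (algebraMap R K a / algebraMap R K b)) = 0 := by
      rw [← map_mul, mul_div_cancel₀ _ hb0]
      exact hr a
    rw [Derivation.leibniz, hr b, smul_zero, add_zero, smul_eq_mul] at h2
    exact (mul_eq_zero.mp h2).resolve_left hb1
  have hcz : CharZero K := (algebraMap K E).charZero
  let dK : Derivation K E E := Derivation.mk'
    { toFun := fun v => (d₁ - d₂) v
      map_add' := fun a b => map_add _ a b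
      map_smul' := fun k v => by
        rw [Algebra.smul_def k v, Derivation.leibniz, hK k, smul_zero, add_zero, RingHom.id_apply,
          Algebra.smul_def k, smul_eq_mul] }
    (fun a b => (d₁ - d₂).leibniz a b)
  have hdK : ∀ x, dK x = 0 := by
    intro x
    have hint : IsIntegral K x := (Algebra.IsAlgebraic.isAlgebraic x).isIntegral
    have hsep : (minpoly K x).Separable := (minpoly.irreducible hint).separable
    have h1 := Derivation.map_aeval dK (minpoly K x) x
    rw [minpoly.aeval, map_zero, smul_eq_mul] at h1
    have h2 := hsep.aeval_derivative_ne_zero (minpoly.aeval K x)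
    exact (mul_eq_zero.mp h1.symm).resolve_left h2
  ext x
  have := hdK x
  change (d₁ - d₂) x = 0 at this
  rw [Derivation.sub_apply] at this
  exact sub_eq_zero.mp this

/-- Commuting derivations dual to a transcendence basis.

Proof. For every `i` the derivation `pderiv i` (over `ℤ`: `Derivation.restrictScalars`) extends to the fraction field `K`
(`ext_localization` with `nonZeroDivisors`), and to `E` by `differentialFiniteDimensional` (Mathlib.FieldTheory.Differential.Basic: a
derivation of `K` makes `K` a `Differential` field, use it as a local instance; `differentialAlgebraFiniteDimensional`). They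
commute: `δ_i δ_j - δ_j δ_i = ⁅δ_i, δ_j⁆` is a derivation which vanishes on the polynomials (`pderiv i (pderiv j f) = pderiv j (pderiv i f)`, e.g.
`pderiv_comm` in LocMod.lean), use `der_unique`. -/
theorem exists_dual_derivations {m : ℕ} {K E : Type} [Field K] [Algebra (MvPolynomial (Fin m) ℚ) K]
    [IsFractionRing (MvPolynomial (Fin m) ℚ) K] [Field E] [CharZero E]
    [Algebra (MvPolynomial (Fin m) ℚ) E] [Algebra K E] [IsScalarTower (MvPolynomial (Fin m) ℚ) K E]
    [FiniteDimensional K E] :
    ∃ δ : Fin m → Derivation ℤ E E,
      (∀ i f, δ i (algebraMap (MvPolynomial (Fin m) ℚ) E f) =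
        algebraMap (MvPolynomial (Fin m) ℚ) E (pderiv i f)) ∧
      ∀ i j v, δ i (δ j v) = δ j (δ i v) := by
  have hcz : CharZero K := (algebraMap K E).charZero
  have h1 : ∀ i : Fin m, ∃ d : Derivation ℤ E E, ∀ f : MvPolynomial (Fin m) ℚ,
      d (algebraMap (MvPolynomial (Fin m) ℚ) E f) =
        algebraMap (MvPolynomial (Fin m) ℚ) E (pderiv i f) := by
    intro i
    obtain ⟨d', hd'⟩ := ext_localization (S := MvPolynomial (Fin m) ℚ) (M := K)
      (nonZeroDivisors (MvPolynomial (Fin m) ℚ)) ((pderiv i).restrictScalars ℤ)
    let iK : Differential K := ⟨d'⟩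
    let iE : Differential E := Differential.differentialFiniteDimensional K E
    have iKE : DifferentialAlgebra K E := Differential.differentialAlgebraFiniteDimensional
    refine ⟨Differential.deriv, fun f => ?_⟩
    rw [IsScalarTower.algebraMap_apply (MvPolynomial (Fin m) ℚ) K E f,
      IsScalarTower.algebraMap_apply (MvPolynomial (Fin m) ℚ) K E (pderiv i f)]
    have h2 := DifferentialAlgebra.deriv_algebraMap (A := K) (B := E)
      (algebraMap (MvPolynomial (Fin m) ℚ) K f)
    refine h2.trans ?_
    exact congrArg _ (hd' f)
  choose δ hδ using h1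
  refine ⟨δ, hδ, ?_⟩
  intro i j v
  have hcomm : ∀ f : MvPolynomial (Fin m) ℚ, pderiv i (pderiv j f) = pderiv j (pderiv i f) := by
    intro f
    have h3 : ⁅(pderiv i : Derivation ℚ (MvPolynomial (Fin m) ℚ) (MvPolynomial (Fin m) ℚ)),
        (pderiv j : Derivation ℚ (MvPolynomial (Fin m) ℚ) (MvPolynomial (Fin m) ℚ))⁆ = 0 := by
      apply MvPolynomial.derivation_ext
      intro k
      rw [Derivation.commutator_apply, pderiv_X, pderiv_X]
      have h7 : ∀ (a b c : Fin m), pderiv (R := ℚ) a
          ((Pi.single b 1 : Fin m → MvPolynomial (Fin m) ℚ) c) = 0 := by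
        intro a b c
        rw [Pi.single_apply]
        split_ifs
        · exact Derivation.map_one_eq_zero _
        · exact map_zero _
      rw [h7, h7, sub_self, Derivation.coe_zero, Pi.zero_apply]
    have h4 := congrArg (fun D : Derivation ℚ (MvPolynomial (Fin m) ℚ) (MvPolynomial (Fin m) ℚ) =>
      D f) h3
    simp only [Derivation.commutator_apply, Derivation.coe_zero, Pi.zero_apply] at h4
    exact sub_eq_zero.mp h4
  have h5 : ⁅δ i, δ j⁆ = 0 := by
    apply der_unique (R := MvPolynomial (Fin m) ℚ) (K := K)
    intro r
    rw [Derivation.commutator_apply, hδ, hδ, hδ, hδ, hcomm r, sub_self, Derivation.coe_zero,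
      Pi.zero_apply]
  have h6 := congrArg (fun D : Derivation ℤ E E => D v) h5
  simp only [Derivation.commutator_apply, Derivation.coe_zero, Pi.zero_apply] at h6
  exact sub_eq_zero.mp h6

/-- The derivative of an element which is algebraic over a subring of constants is zero; the derivative of an element which is
integral over a subring mapped by the derivation to a subring `R'` containing the element is a fraction with denominator in `R'`.

Precisely: let `x ∈ E` be integral over the image of `R` in `E`. There is `w ≠ 0` in the subring generated by the image of `R` and `x`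
such that for every derivation `d` of `E` which maps the image of `R` to itself, `w * d x` is in this subring, and `d x = 0` if `d`
vanishes on the image of `R`.

Proof. Let `K` be the field of fractions of the image of `R`; or work as follows: take a monic polynomial `μ` over `R` of the smallest degree
with `aeval x μ = 0`? (It need not be the minimal polynomial over the fraction field.) Better: take any nonzero polynomial `μ ∈ R[X]`, with
`aeval x μ = 0` and of the smallest possible degree among the polynomials over `R` whose image in `E[X]` is not zero. Then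
`w = aeval x μ'` is not zero: the derivative `μ'` has smaller degree and is not zero because `E` has characteristic zero and the degree
of `μ` is positive (the images of the coefficients of a polynomial of degree `0` are not zero). And
`0 = d (aeval x μ) = ∑ d (μ_k) x ^ k + w * d x`. -/
theorem exists_der_denominator {R E : Type} [CommRing R] [Field E] [CharZero E] [Algebra R E] (x : E)
    (hx : IsIntegral R x) :
    ∃ w ∈ Algebra.adjoin R {x}, w ≠ 0 ∧ ∀ d : Derivation ℤ E E,
      (∀ r : R, ∃ r' : R, d (algebraMap R E r) = algebraMap R E r') →
      w * d x ∈ Algebra.adjoin R {x} ∧ ((∀ r : R, d (algebraMap R E r) = 0) → d x = 0) := by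
  classical
  have hex : ∃ N : ℕ, ∃ μ : Polynomial R, μ.natDegree = N ∧ Polynomial.aeval x μ = 0 ∧
      μ.map (algebraMap R E) ≠ 0 := by
    obtain ⟨μ, hμ, hμ0⟩ := hx
    exact ⟨μ.natDegree, μ, rfl, hμ0, (hμ.map (algebraMap R E)).ne_zero⟩
  obtain ⟨μ, hdeg, hμ0, hμ1⟩ := Nat.find_spec hex
  have hmin : ∀ ν : Polynomial R, ν.natDegree < μ.natDegree → ν.map (algebraMap R E) ≠ 0 →
      Polynomial.aeval x ν ≠ 0 := by
    intro ν hν h1 h2
    exact Nat.find_min hex (by rw [← hdeg]; exact hν) ⟨ν, rfl, h2, h1⟩
  have hpos : (μ.map (algebraMap R E)).natDegree ≠ 0 := by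
    intro h0
    apply hμ1
    rw [Polynomial.eq_C_of_natDegree_eq_zero h0] at hμ1 ⊢
    have h2 : Polynomial.eval x (μ.map (algebraMap R E)) = 0 := by
      rw [Polynomial.eval_map_algebraMap]
      exact hμ0
    rw [Polynomial.eq_C_of_natDegree_eq_zero h0, Polynomial.eval_C] at h2
    rw [h2, Polynomial.C_0]
  have hpos' : μ.natDegree ≠ 0 := by
    intro h0
    apply hpos
    have h3 : (μ.map (algebraMap R E)).natDegree ≤ μ.natDegree := Polynomial.natDegree_map_le
    omega
  have hder : (Polynomial.derivative μ).map (algebraMap R E) ≠ 0 := by
    rw [← Polynomial.derivative_map]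
    intro h0
    exact hpos (Polynomial.derivative_eq_zero.mp h0)
  have hw : Polynomial.aeval x (Polynomial.derivative μ) ≠ 0 :=
    hmin _ (Polynomial.natDegree_derivative_lt hpos') hder
  refine ⟨Polynomial.aeval x (Polynomial.derivative μ), Polynomial.aeval_mem_adjoin_singleton R x,
    hw, ?_⟩
  intro d hd
  constructor
  · have key : ∀ q : Polynomial R, ∃ q' : Polynomial R, d (Polynomial.aeval x q) =
        Polynomial.aeval x q' + Polynomial.aeval x (Polynomial.derivative q) * d x := by
      intro q
      induction q using Polynomial.induction_on' with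
      | add a b ha hb =>
        obtain ⟨a', ha'⟩ := ha
        obtain ⟨b', hb'⟩ := hb
        refine ⟨a' + b', ?_⟩
        rw [map_add, map_add, ha', hb', map_add, Polynomial.derivative_add, map_add]
        ring
      | monomial k a =>
        obtain ⟨a', ha'⟩ := hd a
        refine ⟨Polynomial.monomial k a', ?_⟩
        rw [Polynomial.aeval_monomial, Derivation.leibniz, ha', Derivation.leibniz_pow,
          Polynomial.aeval_monomial, Polynomial.derivative_monomial, Polynomial.aeval_monomial,
          map_mul, map_natCast]
        simp only [smul_eq_mul, nsmul_eq_mul]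
        ring
    obtain ⟨q', hq'⟩ := key μ
    rw [hμ0, map_zero] at hq'
    have h5 : Polynomial.aeval x (Polynomial.derivative μ) * d x = Polynomial.aeval x (-q') := by
      rw [map_neg]
      exact (neg_eq_of_add_eq_zero_right hq'.symm).symm
    rw [h5]
    exact Polynomial.aeval_mem_adjoin_singleton R x
  · intro hd0
    have key : ∀ q : Polynomial R, d (Polynomial.aeval x q) =
        Polynomial.aeval x (Polynomial.derivative q) * d x := by
      intro q
      induction q using Polynomial.induction_on' with
      | add a b ha hb =>
        rw [map_add, map_add, ha, hb, Polynomial.derivative_add, map_add]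
        ring
      | monomial k a =>
        rw [Polynomial.aeval_monomial, Derivation.leibniz, hd0 a, Derivation.leibniz_pow,
          Polynomial.derivative_monomial, Polynomial.aeval_monomial,
          map_mul, map_natCast]
        simp only [smul_eq_mul, nsmul_eq_mul, mul_zero, add_zero]
        ring
    have h6 := key μ
    rw [hμ0, map_zero] at h6
    exact (mul_eq_zero.mp h6.symm).resolve_left hw

end Pool.Agent.Lib.MP_bbe012_lc.PP
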