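import Pool.Agent.Lib.MP_bbe012_lc.LocMod

/-!
# Stage 2: growth of the powers of a finite dimensional subspace of a function field
-/

namespace Pool.Agent.Lib.MP_bbe012_lc.PP

open Module MvPolynomial Pool.Agent.Lib.MP_bbe012_lc

section

variable {m : ℕ} {E : Type} [Field E] [Algebra (MvPolynomial (Fin m) ℚ) E] [Algebra ℚ E]

private theorem kb_tower : IsScalarTower ℚ (MvPolynomial (Fin m) ℚ) E :=
  IsScalarTower.of_algebraMap_eq' (Subsingleton.elim _ _)

private theorem kb_smul (r : ℚ) (p : MvPolynomial (Fin m) ℚ) :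
    algebraMap (MvPolynomial (Fin m) ℚ) E (r • p) =
      algebraMap ℚ E r * algebraMap (MvPolynomial (Fin m) ℚ) E p := by
  have := kb_tower (m := m) (E := E)
  rw [Algebra.smul_def, map_mul, ← IsScalarTower.algebraMap_apply]

/-- the combinations of the `w j` with coefficients of bounded degree -/
private noncomputable def kb_L {q : ℕ} (w : Fin q → E) (d : ℕ) :
    (Fin q → degLE ℚ m d) →ₗ[ℚ] E where
  toFun N := ∑ j, algebraMap (MvPolynomial (Fin m) ℚ) E (N j : MvPolynomial (Fin m) ℚ) * w j
  map_add' N N' := by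
    rw [← Finset.sum_add_distrib]
    refine Finset.sum_congr rfl fun j _ => ?_
    rw [Pi.add_apply, Submodule.coe_add, map_add, add_mul]
  map_smul' r N := by
    rw [RingHom.id_apply, Algebra.smul_def, Finset.mul_sum]
    refine Finset.sum_congr rfl fun j _ => ?_
    rw [Pi.smul_apply, Submodule.coe_smul, kb_smul, mul_assoc]

private theorem kb_mem {q : ℕ} (w : Fin q → E) (d : ℕ) (x : E) :
    x ∈ LinearMap.range (kb_L (m := m) w d) ↔ ∃ N : Fin q → MvPolynomial (Fin m) ℚ,
      (∀ j, N j ∈ degLE ℚ m d) ∧ ∑ j, algebraMap (MvPolynomial (Fin m) ℚ) E (N j) * w j = x := by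
  constructor
  · rintro ⟨N, rfl⟩
    exact ⟨fun j => N j, fun j => (N j).2, rfl⟩
  · rintro ⟨N, hN, rfl⟩
    exact ⟨fun j => ⟨N j, hN j⟩, rfl⟩

private theorem kb_fin {q : ℕ} (w : Fin q → E) (d : ℕ) :
    finrank ℚ (LinearMap.range (kb_L (m := m) w d)) ≤ q * (d + 1) ^ m := by
  refine (LinearMap.finrank_range_le _).trans ?_
  rw [Module.finrank_pi_fintype]
  refine (Finset.sum_le_sum fun j _ => finrank_degLE (𝕜 := ℚ) (n := m) d).trans ?_
  rw [Finset.sum_const, Finset.card_univ, Fintype.card_fin, smul_eq_mul]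

private theorem kb_mul {a b : ℕ} {p r : MvPolynomial (Fin m) ℚ} (hp : p ∈ degLE ℚ m a)
    (hr : r ∈ degLE ℚ m b) : p * r ∈ degLE ℚ m (a + b) := fun i =>
  (degreeOf_mul_le i p r).trans (Nat.add_le_add (hp i) (hr i))

end

/-- Growth of the powers of a finite dimensional subspace of a field of transcendence degree `m`.

Proof. Let `w_1, ..., w_q` be a basis of `E` over `K` and `v_1, ..., v_s` span `V`. The coordinates of the `v_a w_i` and of `1` in the basis are
fractions; let `g ≠ 0` be a common denominator in the polynomial ring (`IsLocalization.exist_integer_multiples_of_finset` or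
`IsLocalization.exist_integer_multiples`), so `v_a w_i = ∑_j (P_aij / g) w_j` and `1 = ∑_j (P_j / g) w_j`, and let `c` bound the degrees
(`degreeOf`) of all `P_aij`, `P_j` and `g`. By induction on `k` every element of `V ^ k` is of the form `∑_j (N_j / g ^ (k + 1)) w_j` with `N_j` of
degrees at most `c (k + 1)` (`degLE ℚ m (c (k + 1))`, LocMod.lean; `Submodule.pow_succ`, `Submodule.mul_induction_on`; the set of these
elements is a subspace: the image of a linear map from `Fin q → degLE ℚ m (c (k + 1))`). Its dimension is at most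
`q * (c (k + 1) + 1) ^ m ≤ q * (c + 1) ^ m * (k + 1) ^ m` (`finrank_degLE`). -/
theorem growth_pow {m : ℕ} {K E : Type} [Field K] [Algebra (MvPolynomial (Fin m) ℚ) K]
    [IsFractionRing (MvPolynomial (Fin m) ℚ) K] [Field E] [Algebra (MvPolynomial (Fin m) ℚ) E]
    [Algebra K E] [IsScalarTower (MvPolynomial (Fin m) ℚ) K E] [FiniteDimensional K E] [Algebra ℚ E]
    (V : Submodule ℚ E) (hV : V.FG) :
    ∃ C : ℕ, ∀ k : ℕ, finrank ℚ (V ^ k : Submodule ℚ E) ≤ C * (k + 1) ^ m := by
  classical
  obtain ⟨S, hS⟩ := hV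
  let w := Module.finBasis K E
  let A := algebraMap (MvPolynomial (Fin m) ℚ) E
  obtain ⟨g, hg⟩ := IsLocalization.exist_integer_multiples_of_finset
    (nonZeroDivisors (MvPolynomial (Fin m) ℚ))
    ((insert 1 ((S ×ˢ (Finset.univ : Finset (Fin (finrank K E)))).image fun p => p.1 * w p.2)).biUnion
      fun e => (Finset.univ : Finset (Fin (finrank K E))).image fun j => w.repr e j : Finset K)
  have hg0 : A (g : MvPolynomial (Fin m) ℚ) ≠ 0 := by
    have h1 : A (g : MvPolynomial (Fin m) ℚ) =
        algebraMap K E (algebraMap (MvPolynomial (Fin m) ℚ) K (g : MvPolynomial (Fin m) ℚ)) :=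
      IsScalarTower.algebraMap_apply _ _ _ _
    rw [h1]
    refine (map_ne_zero _).2 ?_
    exact IsLocalization.to_map_ne_zero_of_mem_nonZeroDivisors K le_rfl g.2
  have key : ∀ e ∈ (insert 1 ((S ×ˢ (Finset.univ : Finset (Fin (finrank K E)))).image
      fun p => p.1 * w p.2) : Finset E), ∃ P : Fin (finrank K E) → MvPolynomial (Fin m) ℚ,
        ∑ j, A (P j) * w j = A g * e := by
    intro e he
    have h1 : ∀ j, ∃ r : MvPolynomial (Fin m) ℚ, algebraMap (MvPolynomial (Fin m) ℚ) K r =
        (g : MvPolynomial (Fin m) ℚ) • w.repr e j := fun j =>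
      hg _ (Finset.mem_biUnion.2 ⟨e, he, Finset.mem_image_of_mem _ (Finset.mem_univ j)⟩)
    choose P hP using h1
    refine ⟨P, ?_⟩
    have h2 : A g * e = ∑ j, A g * (w.repr e j • w j) := by
      rw [← Finset.mul_sum, w.sum_repr]
    rw [h2]
    refine Finset.sum_congr rfl fun j _ => ?_
    have h3 : A (P j) = algebraMap K E (algebraMap (MvPolynomial (Fin m) ℚ) K (P j)) :=
      IsScalarTower.algebraMap_apply _ _ _ _
    have h4 : A (g : MvPolynomial (Fin m) ℚ) =
        algebraMap K E (algebraMap (MvPolynomial (Fin m) ℚ) K (g : MvPolynomial (Fin m) ℚ)) :=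
      IsScalarTower.algebraMap_apply _ _ _ _
    rw [h3, hP, Algebra.smul_def, map_mul, h4, Algebra.smul_def, mul_assoc]
  have key1 : ∀ a ∈ S, ∀ i, ∃ P : Fin (finrank K E) → MvPolynomial (Fin m) ℚ,
      ∑ j, A (P j) * w j = A g * (a * w i) := fun a ha i =>
    key _ (Finset.mem_insert_of_mem (Finset.mem_image.2
      ⟨(a, i), Finset.mem_product.2 ⟨ha, Finset.mem_univ i⟩, rfl⟩))
  obtain ⟨P0, hP0⟩ := key 1 (Finset.mem_insert_self _ _)
  have key2 : ∀ a : E, ∃ P : Fin (finrank K E) → Fin (finrank K E) → MvPolynomial (Fin m) ℚ,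
      a ∈ S → ∀ i, ∑ j, A (P i j) * w j = A g * (a * w i) := by
    intro a
    by_cases ha : a ∈ S
    · choose P hP using key1 a ha
      exact ⟨P, fun _ => hP⟩
    · exact ⟨fun _ _ => 0, fun h => absurd h ha⟩
  choose P hP using key2
  let c : ℕ := (S.sup fun a => Finset.univ.sup fun i => Finset.univ.sup fun j =>
    (P a i j).totalDegree) ⊔ (Finset.univ.sup fun j => (P0 j).totalDegree)
  have hc : ∀ a ∈ S, ∀ i j, P a i j ∈ degLE ℚ m c := by
    intro a ha i j l
    refine (degreeOf_le_totalDegree _ _).trans ?_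
    refine le_trans ?_ (le_sup_left : _ ≤ c)
    refine le_trans ?_ (Finset.le_sup (f := fun a => Finset.univ.sup fun i =>
      Finset.univ.sup fun j => (P a i j).totalDegree) ha)
    refine le_trans ?_ (Finset.le_sup (f := fun i =>
      Finset.univ.sup fun j => (P a i j).totalDegree) (Finset.mem_univ i))
    exact Finset.le_sup (f := fun j => (P a i j).totalDegree) (Finset.mem_univ j)
  have hc0 : ∀ j, P0 j ∈ degLE ℚ m c := by
    intro j l
    refine (degreeOf_le_totalDegree _ _).trans ?_
    refine le_trans ?_ (le_sup_right : _ ≤ c)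
    exact Finset.le_sup (f := fun j => (P0 j).totalDegree) (Finset.mem_univ j)
  have main : ∀ k : ℕ, ∀ x ∈ V ^ k,
      A g ^ (k + 1) * x ∈ LinearMap.range (kb_L (m := m) w (c * (k + 1))) := by
    intro k
    induction k with
    | zero =>
      intro x hx
      rw [pow_zero, Submodule.mem_one] at hx
      obtain ⟨r, rfl⟩ := hx
      have h1 : A g ^ (0 + 1) * algebraMap ℚ E r = r • (A g * 1) := by
        rw [zero_add, pow_one, Algebra.smul_def, mul_one, mul_comm]
      rw [h1]
      refine Submodule.smul_mem _ _ ?_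
      rw [kb_mem]
      refine ⟨P0, fun j => ?_, hP0⟩
      rw [zero_add, mul_one]
      exact hc0 j
    | succ k ih =>
      intro x hx
      rw [pow_succ] at hx
      refine Submodule.mul_induction_on hx ?_ ?_
      · intro y hy v hv
        rw [← hS] at hv
        refine Submodule.span_induction (p := fun v _ => A g ^ (k + 1 + 1) * (y * v) ∈
          LinearMap.range (kb_L (m := m) w (c * (k + 1 + 1)))) ?_ ?_ ?_ ?_ hv
        · intro a ha
          obtain ⟨N, hN, hNx⟩ := (kb_mem _ _ _).1 (ih y hy)
          rw [kb_mem]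
          refine ⟨fun j => ∑ i, N i * P a i j, fun j => ?_, ?_⟩
          · refine Submodule.sum_mem _ fun i _ => ?_
            have h2 := kb_mul (hN i) (hc a ha i j)
            rw [show c * (k + 1 + 1) = c * (k + 1) + c by ring]
            exact h2
          · have h2 : A g ^ (k + 1 + 1) * (y * a) = A g * (a * (A g ^ (k + 1) * y)) := by
              ring
            rw [h2, ← hNx, Finset.mul_sum, Finset.mul_sum]
            have h3 : ∀ i, A g * (a * (algebraMap (MvPolynomial (Fin m) ℚ) E (N i) * w i)) =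
                ∑ j, A (N i) * (A (P a i j) * w j) := by
              intro i
              rw [← Finset.mul_sum, hP a ha i]
              show A g * (a * (A (N i) * w i)) = _
              ring
            rw [Finset.sum_congr rfl fun i _ => h3 i, Finset.sum_comm]
            refine Finset.sum_congr rfl fun j _ => ?_
            rw [map_sum, Finset.sum_mul]
            refine Finset.sum_congr rfl fun i _ => ?_
            rw [map_mul, mul_assoc]
        · rw [mul_zero, mul_zero]
          exact Submodule.zero_mem _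
        · intro v v' _ _ h1 h2
          rw [mul_add y v v', mul_add (A g ^ (k + 1 + 1))]
          exact Submodule.add_mem _ h1 h2
        · intro r v _ h1
          rw [mul_smul_comm, mul_smul_comm]
          exact Submodule.smul_mem _ _ h1
      · intro y z hy hz
        rw [mul_add (A g ^ (k + 1 + 1))]
        exact Submodule.add_mem _ hy hz
  refine ⟨finrank K E * (c + 1) ^ m, fun k => ?_⟩
  have hinj : Function.Injective (LinearMap.mulLeft ℚ (A g ^ (k + 1))) := by
    intro x y h
    exact mul_left_cancel₀ (pow_ne_zero _ hg0) h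
  have h1 : finrank ℚ (V ^ k : Submodule ℚ E) =
      finrank ℚ ((V ^ k).map (LinearMap.mulLeft ℚ (A g ^ (k + 1)))) :=
    (LinearEquiv.finrank_eq (Submodule.equivMapOfInjective _ hinj (V ^ k)))
  have h2 : (V ^ k).map (LinearMap.mulLeft ℚ (A g ^ (k + 1))) ≤
      LinearMap.range (kb_L (m := m) w (c * (k + 1))) := by
    rintro _ ⟨x, hx, rfl⟩
    exact main k x hx
  have h3 := (Submodule.finrank_mono h2).trans (kb_fin w (c * (k + 1)))
  rw [h1]
  refine h3.trans ?_
  have h4 : (c * (k + 1) + 1) ^ m ≤ ((c + 1) * (k + 1)) ^ m := by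
    refine Nat.pow_le_pow_left ?_ _
    have h5 : (c + 1) * (k + 1) = c * (k + 1) + (k + 1) := by ring
    rw [h5]
    omega
  calc finrank K E * (c * (k + 1) + 1) ^ m ≤ finrank K E * ((c + 1) * (k + 1)) ^ m :=
        Nat.mul_le_mul_left _ h4
    _ = finrank K E * (c + 1) ^ m * (k + 1) ^ m := by rw [mul_pow, mul_assoc]

end Pool.Agent.Lib.MP_bbe012_lc.PP
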