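import Pool.Agent.Lib.MP_bbe012_lc.PP.KC
import Pool.Agent.Lib.MP_bbe012_lc.PP.KA
import Pool.Agent.Lib.MP_bbe012_lc.PP.KB

/-!
# Stage 2: the dual derivations of the field of fractions of `D[t, x]`
-/

namespace Pool.Agent.Lib.MP_bbe012_lc.PP

open Module MvPolynomial Pool.Agent.Lib.MP_bbe012_lc

private theorem KC2_phi {p n : ℕ} {D : Type} [CommRing D] [Algebra ℚ D] (z : Fin p → D)
    (f : MvPolynomial (Fin p) ℚ) :
    phiU (n := n) z (rename (fun i : Fin p => Fin.castAdd n (Fin.castSucc i)) f) =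
      C (aeval z f) := by
  unfold phiU
  rw [aeval_rename]
  induction f using MvPolynomial.induction_on with
  | C a =>
    rw [aeval_C, aeval_C]
    rfl
  | add a b ha hb =>
    rw [map_add, map_add, map_add, ha, hb]
  | mul_X a i ha =>
    rw [map_mul, map_mul, map_mul, ha, aeval_X, aeval_X]
    congr 1
    change uS z (Fin.castAdd n (Fin.castSucc i)) = C (z i)
    unfold uS
    rw [Fin.append_left, Fin.snoc_castSucc]

private theorem KC2_core {R D E I : Type} [CommRing R] [CommRing D] [IsDomain D] [Algebra R D]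
    [Module.Finite R D] [Field E] [CharZero E] [Algebra R E] [Algebra D E] [IsScalarTower R D E]
    (δ : I → Derivation ℤ E E)
    (hδ : ∀ i (r : R), ∃ r' : R, δ i (algebraMap R E r) = algebraMap R E r') :
    (∃ w : D, w ≠ 0 ∧ ∀ i (a : D), ∃ b : D,
      algebraMap D E w * δ i (algebraMap D E a) = algebraMap D E b) ∧
    ∀ i, (∀ r : R, δ i (algebraMap R E r) = 0) → ∀ a : D, δ i (algebraMap D E a) = 0 := by
  classical
  have h1 : ∀ y : D, ∃ w : D, w ≠ 0 ∧ ∀ i,
      (∃ b : D, algebraMap D E w * δ i (algebraMap D E y) = algebraMap D E b) ∧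
      ((∀ r : R, δ i (algebraMap R E r) = 0) → δ i (algebraMap D E y) = 0) := by
    intro y
    have hint : IsIntegral R (algebraMap D E y) :=
      (Algebra.IsIntegral.isIntegral (R := R) y).algebraMap
    obtain ⟨w, hw, hw0, hw1⟩ := exists_der_denominator (R := R) (algebraMap D E y) hint
    have hle : Algebra.adjoin R {algebraMap D E y} ≤ (IsScalarTower.toAlgHom R D E).range := by
      apply Algebra.adjoin_le
      rw [Set.singleton_subset_iff]
      exact ⟨y, rfl⟩
    obtain ⟨w', hw'⟩ := hle hw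
    have hw'' : algebraMap D E w' = w := hw'
    refine ⟨w', ?_, ?_⟩
    · rintro rfl
      apply hw0
      rw [← hw'', map_zero]
    · intro i
      obtain ⟨h2, h3⟩ := hw1 (δ i) (hδ i)
      refine ⟨?_, h3⟩
      obtain ⟨b, hb⟩ := hle h2
      refine ⟨b, ?_⟩
      rw [hw'']
      exact hb.symm
  choose W hW0 hW1 using h1
  refine ⟨?_, fun i h a => (hW1 a i).2 h⟩
  obtain ⟨s, hs⟩ := (Algebra.FiniteType.out : (⊤ : Subalgebra R D).FG)
  refine ⟨∏ y ∈ s, W y, Finset.prod_ne_zero_iff.mpr (fun y _ => hW0 y), ?_⟩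
  intro i a
  have ha : a ∈ Algebra.adjoin R (s : Set D) := by
    rw [hs]
    trivial
  induction ha using Algebra.adjoin_induction with
  | mem y hy =>
    obtain ⟨b, hb⟩ := (hW1 y i).1
    have hy' : y ∈ s := hy
    refine ⟨(∏ y' ∈ s.erase y, W y') * b, ?_⟩
    rw [← Finset.prod_erase_mul s W hy', map_mul, mul_assoc, hb, map_mul]
  | algebraMap r =>
    obtain ⟨r', hr'⟩ := hδ i r
    refine ⟨(∏ y ∈ s, W y) * algebraMap R D r', ?_⟩
    rw [← IsScalarTower.algebraMap_apply R D E, hr', map_mul,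
      ← IsScalarTower.algebraMap_apply R D E]
  | add x y _ _ hx hy =>
    obtain ⟨b, hb⟩ := hx
    obtain ⟨c, hc⟩ := hy
    refine ⟨b + c, ?_⟩
    rw [map_add, map_add, mul_add, hb, hc, map_add]
  | mul x y _ _ hx hy =>
    obtain ⟨b, hb⟩ := hx
    obtain ⟨c, hc⟩ := hy
    refine ⟨x * c + y * b, ?_⟩
    rw [map_mul, Derivation.leibniz, map_add, map_mul, map_mul, ← hb, ← hc]
    simp only [smul_eq_mul]
    ring

private theorem KC2_field {p n : ℕ} {D E : Type} [CommRing D] [IsDomain D] [Algebra ℚ D]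
    [Field E] [Algebra (MvPolynomial (Fin (n + 1)) D) E]
    [IsFractionRing (MvPolynomial (Fin (n + 1)) D) E] [Algebra ℚ E] {z : Fin p → D}
    (hz : Function.Injective (aeval z : MvPolynomial (Fin p) ℚ →ₐ[ℚ] D))
    (hf : (aeval z : MvPolynomial (Fin p) ℚ →ₐ[ℚ] D).toRingHom.Finite) :
    ∃ (dd : Fin ((p + 1) + n) → Derivation ℤ E E),
      (∀ i (f : MvPolynomial (Fin ((p + 1) + n)) ℚ),
        dd i (algebraMap (MvPolynomial (Fin (n + 1)) D) E (phiU z f)) =
          algebraMap (MvPolynomial (Fin (n + 1)) D) E (phiU z (pderiv i f))) ∧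
      (∀ i j v, dd i (dd j v) = dd j (dd i v)) ∧
      ∀ V : Submodule ℚ E, V.FG →
        ∃ c : ℕ, ∀ k : ℕ, finrank ℚ (V ^ k : Submodule ℚ E) ≤ c * (k + 1) ^ ((p + 1) + n) := by
  have hcz : CharZero E := algebraRat.charZero E
  let aPS : Algebra (MvPolynomial (Fin ((p + 1) + n)) ℚ) (MvPolynomial (Fin (n + 1)) D) :=
    (phiU z).toRingHom.toAlgebra
  have hfin : Module.Finite (MvPolynomial (Fin ((p + 1) + n)) ℚ)
    (MvPolynomial (Fin (n + 1)) D) := phiU_finite hf
  let aPE : Algebra (MvPolynomial (Fin ((p + 1) + n)) ℚ) E :=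
    ((algebraMap (MvPolynomial (Fin (n + 1)) D) E).comp (phiU z).toRingHom).toAlgebra
  have tPSE : IsScalarTower (MvPolynomial (Fin ((p + 1) + n)) ℚ)
    (MvPolynomial (Fin (n + 1)) D) E := IsScalarTower.of_algebraMap_eq (fun x => rfl)
  have hinj : Function.Injective (algebraMap (MvPolynomial (Fin ((p + 1) + n)) ℚ) E) :=
    (IsFractionRing.injective (MvPolynomial (Fin (n + 1)) D) E).comp (phiU_injective hz)
  let aKE : Algebra (FractionRing (MvPolynomial (Fin ((p + 1) + n)) ℚ)) E :=
    (IsFractionRing.lift hinj).toAlgebra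
  have tPKE : IsScalarTower (MvPolynomial (Fin ((p + 1) + n)) ℚ)
      (FractionRing (MvPolynomial (Fin ((p + 1) + n)) ℚ)) E :=
    IsScalarTower.of_algebraMap_eq (fun x => (IsFractionRing.lift_algebraMap hinj x).symm)
  have hfd : FiniteDimensional (FractionRing (MvPolynomial (Fin ((p + 1) + n)) ℚ)) E :=
    finiteDimensional_fraction (R := MvPolynomial (Fin ((p + 1) + n)) ℚ)
      (S := MvPolynomial (Fin (n + 1)) D)
  obtain ⟨δ, hδ, hc⟩ := exists_dual_derivations (m := (p + 1) + n)
    (K := FractionRing (MvPolynomial (Fin ((p + 1) + n)) ℚ)) (E := E)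
  refine ⟨δ, hδ, hc, ?_⟩
  intro V hV
  exact growth_pow (m := (p + 1) + n)
    (K := FractionRing (MvPolynomial (Fin ((p + 1) + n)) ℚ)) (E := E) V hV

private theorem KC2_pderiv {p n : ℕ} (i : Fin ((p + 1) + n)) (f : MvPolynomial (Fin p) ℚ) :
    ∃ f' : MvPolynomial (Fin p) ℚ,
      pderiv i (rename (fun i : Fin p => Fin.castAdd n (Fin.castSucc i)) f) =
        rename (fun i : Fin p => Fin.castAdd n (Fin.castSucc i)) f' := by
  classical
  have hinj : Function.Injective (fun i : Fin p => Fin.castAdd n (Fin.castSucc i)) := by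
    intro a b hab
    exact Fin.castSucc_injective p (Fin.castAdd_injective (p + 1) n hab)
  by_cases hi : ∃ i' : Fin p, Fin.castAdd n (Fin.castSucc i') = i
  · obtain ⟨i', rfl⟩ := hi
    exact ⟨pderiv i' f, pderiv_rename hinj i' f⟩
  · refine ⟨0, ?_⟩
    rw [map_zero]
    apply pderiv_eq_zero_of_notMem_vars
    intro hmem
    have h1 := vars_rename (fun i : Fin p => Fin.castAdd n (Fin.castSucc i)) f hmem
    rw [Finset.mem_image] at h1
    obtain ⟨i', _, h2⟩ := h1
    exact hi ⟨i', h2⟩

private theorem KC2_pderiv_zero {p n : ℕ} (i : Fin ((p + 1) + n))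
    (hi : ∀ i' : Fin p, Fin.castAdd n (Fin.castSucc i') ≠ i) (f : MvPolynomial (Fin p) ℚ) :
    pderiv i (rename (fun i : Fin p => Fin.castAdd n (Fin.castSucc i)) f) = 0 := by
  classical
  apply pderiv_eq_zero_of_notMem_vars
  intro hmem
  have h1 := vars_rename (fun i : Fin p => Fin.castAdd n (Fin.castSucc i)) f hmem
  rw [Finset.mem_image] at h1
  obtain ⟨i', _, h2⟩ := h1
  exact hi i' h2

/-- The dual derivations of the field of fractions `E` of `D[t, x]`, and the denominators of the derivatives of the elements of `D`.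

Proof. Make `E` an algebra over `Pu = MvPolynomial (Fin ((p + 1) + n)) ℚ` by `phiU z` (injective, finite), and over `K = FractionRing Pu`
(`FractionRing.liftAlgebra` or `RingHom.toAlgebra` of `IsFractionRing.lift`); `E` is finite dimensional over `K`
by `finiteDimensional_fraction` (`S = D[t, x]` is a finite `Pu`-algebra by `phiU_finite`). Take the derivations of
`exists_dual_derivations`, and `growth_pow` for the last statement.
For a generator `y` of the algebra `D` over `ℚ`: the element `x = C y` of `E` is integral over the image of `R = ℚ[z_1, ..., z_p]`, and the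
derivations `δ i` map this image to itself (partial derivatives) and vanish on it if `i` is the index of `t` or of an `x_l`. `exists_der_denominator`
gives `w` in the image of `D`, `w ≠ 0`, with `w * δ i x` in the image of `D`, and `δ i x = 0` if `i` is the index of `t` or of an `x_l`. Take the product of
the `w` for finitely many generators; the statement for all `a : D` follows by `Algebra.adjoin_induction`: the set of `a` with
`w * δ i (C a)` in the image of `D` for all `i` is a subalgebra (constants: `δ i` of a rational number is `0`). -/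
theorem exists_field_setup {p n : ℕ} {D E : Type} [CommRing D] [IsDomain D] [Algebra ℚ D]
    [Algebra.FiniteType ℚ D] [Field E] [Algebra (MvPolynomial (Fin (n + 1)) D) E]
    [IsFractionRing (MvPolynomial (Fin (n + 1)) D) E] [Algebra ℚ E]
    [IsScalarTower ℚ (MvPolynomial (Fin (n + 1)) D) E] {z : Fin p → D}
    (hz : Function.Injective (aeval z : MvPolynomial (Fin p) ℚ →ₐ[ℚ] D))
    (hf : (aeval z : MvPolynomial (Fin p) ℚ →ₐ[ℚ] D).toRingHom.Finite) :
    ∃ (dd : Fin ((p + 1) + n) → Derivation ℤ E E) (w : D),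
      DerSys z dd ∧ w ≠ 0 ∧ (∀ i (a : D), ∃ b : D,
        algebraMap (MvPolynomial (Fin (n + 1)) D) E (C w) *
          dd i (algebraMap (MvPolynomial (Fin (n + 1)) D) E (C a)) =
          algebraMap (MvPolynomial (Fin (n + 1)) D) E (C b)) ∧
      ∀ V : Submodule ℚ E, V.FG →
        ∃ c : ℕ, ∀ k : ℕ, finrank ℚ (V ^ k : Submodule ℚ E) ≤ c * (k + 1) ^ ((p + 1) + n) := by
  have hcz : CharZero E := algebraRat.charZero E
  obtain ⟨dd, hdd, hcomm, hgr⟩ := KC2_field (n := n) (E := E) hz hf
  let aRD : Algebra (MvPolynomial (Fin p) ℚ) D :=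
    (aeval z : MvPolynomial (Fin p) ℚ →ₐ[ℚ] D).toRingHom.toAlgebra
  have hfin : Module.Finite (MvPolynomial (Fin p) ℚ) D := hf
  let aDE : Algebra D E := ((algebraMap (MvPolynomial (Fin (n + 1)) D) E).comp C).toAlgebra
  let aRE : Algebra (MvPolynomial (Fin p) ℚ) E :=
    (((algebraMap (MvPolynomial (Fin (n + 1)) D) E).comp C).comp
      (aeval z : MvPolynomial (Fin p) ℚ →ₐ[ℚ] D).toRingHom).toAlgebra
  have tRDE : IsScalarTower (MvPolynomial (Fin p) ℚ) D E :=
    IsScalarTower.of_algebraMap_eq (fun x => rfl)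
  have hR : ∀ f : MvPolynomial (Fin p) ℚ, algebraMap (MvPolynomial (Fin p) ℚ) E f =
      algebraMap (MvPolynomial (Fin (n + 1)) D) E
        (phiU z (rename (fun i : Fin p => Fin.castAdd n (Fin.castSucc i)) f)) := by
    intro f
    rw [KC2_phi]
    rfl
  have hδ : ∀ i (r : MvPolynomial (Fin p) ℚ), ∃ r' : MvPolynomial (Fin p) ℚ,
      dd i (algebraMap (MvPolynomial (Fin p) ℚ) E r) =
        algebraMap (MvPolynomial (Fin p) ℚ) E r' := by
    intro i r
    obtain ⟨r', hr'⟩ := KC2_pderiv (n := n) i r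
    refine ⟨r', ?_⟩
    rw [hR, hdd, hr', hR]
  obtain ⟨⟨w, hw0, hw⟩, hzero⟩ := KC2_core (R := MvPolynomial (Fin p) ℚ) (D := D) (E := E) dd hδ
  refine ⟨dd, w, ⟨hcomm, ?_, ?_, ?_⟩, hw0, hw, hgr⟩
  · intro i j
    have h1 := hdd i (X j)
    have h2 : phiU (n := n) z (X j) = uS z j := by
      unfold phiU
      rw [aeval_X]
    rw [h2, pderiv_X, Pi.single_apply] at h1
    rw [h1]
    by_cases hij : i = j
    · rw [if_pos hij, if_pos hij.symm, map_one, map_one]
    · rw [if_neg hij, if_neg (fun h => hij h.symm), map_zero, map_zero]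
  · intro a
    refine hzero (tI p n) (fun r => ?_) a
    rw [hR, hdd, KC2_pderiv_zero, map_zero, map_zero]
    intro i' h
    unfold tI at h
    have h3 := Fin.castAdd_injective (p + 1) n h
    exact (Fin.castSucc_lt_last i').ne h3
  · intro l a
    refine hzero (xI p n l) (fun r => ?_) a
    rw [hR, hdd, KC2_pderiv_zero, map_zero, map_zero]
    intro i' h
    unfold xI at h
    have h3 := congrArg Fin.val h
    simp only [Fin.val_castAdd, Fin.val_castSucc, Fin.val_natAdd] at h3
    have h4 := i'.isLt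
    omega

end Pool.Agent.Lib.MP_bbe012_lc.PP
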