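import Pool.Agent.Lib.MP_bbe012_lc.PP.KDefs

/-!
# Stage 2: the module `M = D[t, x, 1/H]` over the Weyl algebra
-/

namespace Pool.Agent.Lib.MP_bbe012_lc.PP

open Module MvPolynomial Pool.Agent.Lib.MP_bbe012_lc

private theorem uS_tI {p n : ℕ} {D : Type} [CommRing D] (z : Fin p → D) :
    uS (n := n) z (tI p n) = X 0 := by
  rw [uS, tI, Fin.append_left, Fin.snoc_last]

private theorem uS_xI {p n : ℕ} {D : Type} [CommRing D] (z : Fin p → D) (l : Fin n) :
    uS (n := n) z (xI p n l) = X l.succ := by
  rw [uS, xI, Fin.append_right]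

/-- The derivations of the field of fractions `E` restrict to `M = S[1/H]`, `H = C w * Q`.

Proof. `j : M →ₐ[S] E` exists because `H` is a unit in `E` (`IsLocalization.Away.lift`, `IsLocalization.liftAlgHom`: `H ≠ 0`; `w ≠ 0`, `Q ≠ 0`, domain), and is
injective (`M` is a localization of a domain at a power of a non zero element; e.g. `IsLocalization.lift_injective_iff`). `dd i` maps the image of `S`
to the image of `M`: by `MvPolynomial.induction_on` (constants: `hwd`, `C w` is a unit in `M` since it divides `H`; sums; products with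
`X j`: Leibniz, and `dd i (X j)` is `0` or `1` by `dual`, as the `X j` are coordinates: `X 0 = uS z (tI p n)`, `X l.succ = uS z (xI p n l)`,
`Fin.append_left`, `Fin.append_right`, `Fin.snoc_last`). It maps the image of `M` to itself: `v = s / H ^ k`
(`IsLocalization.Away.surj` or `IsLocalization.surj`), `H ^ k v = s`, so `H ^ k dd i v = dd i s - k H ^ (k - 1) (dd i H) v`, and `H` is a unit in `M`. Choose the
preimages; they are additive and satisfy the Leibniz rule because `j` is injective (`Derivation.mk'` or `Derivation` structure;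
linearity over `ℤ` is additivity). The fields of `DerSys` follow from those of `dd` by injectivity of `j` (`j (algebraMap S M s) = algebraMap S E s`). -/
theorem exists_restrict {p n : ℕ} {D M E : Type} [CommRing D] [IsDomain D] [Algebra ℚ D]
    [CommRing M] [Algebra (MvPolynomial (Fin (n + 1)) D) M] [Field E]
    [Algebra (MvPolynomial (Fin (n + 1)) D) E] [IsFractionRing (MvPolynomial (Fin (n + 1)) D) E] {z : Fin p → D}
    {dd : Fin ((p + 1) + n) → Derivation ℤ E E} {w : D} (hdd : DerSys z dd) (hw : w ≠ 0)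
    (hwd : ∀ i (a : D), ∃ b : D, algebraMap (MvPolynomial (Fin (n + 1)) D) E (C w) *
      dd i (algebraMap (MvPolynomial (Fin (n + 1)) D) E (C a)) =
      algebraMap (MvPolynomial (Fin (n + 1)) D) E (C b))
    (Q : MvPolynomial (Fin (n + 1)) D) (hQ : Q ≠ 0) [IsLocalization.Away (C w * Q) M] :
    ∃ (j : M →ₐ[MvPolynomial (Fin (n + 1)) D] E) (dM : Fin ((p + 1) + n) → Derivation ℤ M M),
      Function.Injective j ∧ (∀ i v, j (dM i v) = dd i (j v)) ∧ DerSys z dM := by
  have hHne : (C w * Q : MvPolynomial (Fin (n + 1)) D) ≠ 0 :=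
    mul_ne_zero (fun h => hw ((C_eq_zero (σ := Fin (n + 1))).1 h)) hQ
  have hinjE : Function.Injective (algebraMap (MvPolynomial (Fin (n + 1)) D) E) :=
    IsFractionRing.injective _ E
  have haE : ∀ s : MvPolynomial (Fin (n + 1)) D, s ≠ 0 → algebraMap _ E s ≠ 0 := by
    intro s hs h
    exact hs (hinjE (by rw [h, map_zero]))
  have hHE : IsUnit (algebraMap (MvPolynomial (Fin (n + 1)) D) E (C w * Q)) :=
    (haE _ hHne).isUnit
  have hHM : IsUnit (algebraMap (MvPolynomial (Fin (n + 1)) D) M (C w * Q)) :=
    IsLocalization.Away.algebraMap_isUnit (C w * Q)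
  let j : M →ₐ[MvPolynomial (Fin (n + 1)) D] E :=
    { IsLocalization.Away.lift (C w * Q) hHE with
      commutes' := fun r => IsLocalization.Away.lift_eq (C w * Q) hHE r }
  have hj : ∀ s, j (algebraMap _ M s) = algebraMap _ E s := fun s => j.commutes s
  have hjinj : Function.Injective j := by
    rw [injective_iff_map_eq_zero]
    intro v hv
    obtain ⟨k, s, hs⟩ := IsLocalization.Away.surj (C w * Q) v
    have h1 := congrArg j hs
    rw [map_mul, hv, zero_mul, hj] at h1
    have h2 : s = 0 := by
      by_contra h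
      exact haE s h h1.symm
    rw [h2, map_zero] at hs
    exact (hHM.pow k).mul_left_eq_zero.1 hs
  -- the derivations map the polynomials to the image
  have hX : ∀ (i : Fin ((p + 1) + n)) (l : Fin (n + 1)), ∃ u : M,
      j u = dd i (algebraMap (MvPolynomial (Fin (n + 1)) D) E (X l)) := by
    intro i l
    have key : ∀ i', ∃ u : M, j u = dd i (algebraMap (MvPolynomial (Fin (n + 1)) D) E (uS z i')) := by
      intro i'
      rw [hdd.dual i i']
      by_cases h : i = i'
      · exact ⟨1, by rw [map_one, if_pos h]⟩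
      · exact ⟨0, by rw [map_zero, if_neg h]⟩
    refine Fin.cases ?_ (fun l' => ?_) l
    · have := key (tI p n)
      rwa [uS_tI] at this
    · have := key (xI p n l')
      rwa [uS_xI] at this
  have hS : ∀ (i : Fin ((p + 1) + n)) (s : MvPolynomial (Fin (n + 1)) D), ∃ u : M,
      j u = dd i (algebraMap (MvPolynomial (Fin (n + 1)) D) E s) := by
    intro i s
    induction s using MvPolynomial.induction_on with
    | C a =>
      obtain ⟨b, hb⟩ := hwd i a
      have hwM : IsUnit (algebraMap (MvPolynomial (Fin (n + 1)) D) M (C w)) := by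
        rw [map_mul] at hHM
        exact isUnit_of_mul_isUnit_left hHM
      obtain ⟨ω, hω⟩ := hwM.exists_right_inv
      refine ⟨ω * algebraMap (MvPolynomial (Fin (n + 1)) D) M (C b), ?_⟩
      have hwE : algebraMap (MvPolynomial (Fin (n + 1)) D) E (C w) ≠ 0 :=
        haE _ (fun h => hw ((C_eq_zero (σ := Fin (n + 1))).1 h))
      apply mul_left_cancel₀ hwE
      rw [hb, ← hj (C w), ← map_mul, ← mul_assoc, hω, one_mul, hj]
    | add f g hf hg =>
      obtain ⟨u, hu⟩ := hf
      obtain ⟨v, hv⟩ := hg
      exact ⟨u + v, by rw [map_add, map_add, map_add, hu, hv]⟩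
    | mul_X f l hf =>
      obtain ⟨u, hu⟩ := hf
      obtain ⟨v, hv⟩ := hX i l
      refine ⟨algebraMap (MvPolynomial (Fin (n + 1)) D) M f * v + algebraMap (MvPolynomial (Fin (n + 1)) D) M (X l) * u, ?_⟩
      rw [map_mul, Derivation.leibniz, smul_eq_mul, smul_eq_mul, map_add, map_mul, map_mul, hj, hj,
        hu, hv]
  have hM : ∀ (i : Fin ((p + 1) + n)) (v : M), ∃ u : M, j u = dd i (j v) := by
    intro i v
    obtain ⟨k, s, hs⟩ := IsLocalization.Away.surj (C w * Q) v
    obtain ⟨u₁, hu₁⟩ := hS i s
    obtain ⟨u₂, hu₂⟩ := hS i ((C w * Q) ^ k)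
    have hs' : v * algebraMap (MvPolynomial (Fin (n + 1)) D) M ((C w * Q) ^ k) = algebraMap _ M s := by rw [map_pow]; exact hs
    have hHkM : IsUnit (algebraMap (MvPolynomial (Fin (n + 1)) D) M ((C w * Q) ^ k)) := by
      rw [map_pow]
      exact hHM.pow k
    obtain ⟨ω, hω⟩ := hHkM.exists_right_inv
    have hne : algebraMap (MvPolynomial (Fin (n + 1)) D) E ((C w * Q) ^ k) ≠ 0 :=
      haE _ (pow_ne_zero k hHne)
    refine ⟨ω * (u₁ - v * u₂), ?_⟩
    apply mul_left_cancel₀ hne
    have h1 := congrArg j hs'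
    rw [map_mul, hj, hj] at h1
    have h2 := congrArg (dd i) h1
    rw [Derivation.leibniz, smul_eq_mul, smul_eq_mul, ← hu₁, ← hu₂] at h2
    rw [← hj ((C w * Q) ^ k), ← map_mul, ← mul_assoc, hω, one_mul, map_sub, map_mul, hj, ← h2]
    ring
  choose T hT using hM
  refine ⟨j, fun i => Derivation.mk' (AddMonoidHom.toIntLinearMap
    { toFun := T i
      map_zero' := hjinj (by rw [hT, map_zero, map_zero])
      map_add' := fun a b => hjinj (by rw [hT, map_add, map_add, map_add, hT, hT]) })
    (fun a b => hjinj (by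
      show j (T i (a * b)) = j (a • T i b + b • T i a)
      rw [hT, map_mul, Derivation.leibniz, map_add, smul_eq_mul, smul_eq_mul, smul_eq_mul, smul_eq_mul,
        map_mul, map_mul, hT, hT])), hjinj, fun i v => hT i v, ?_⟩
  constructor
  · intro i i' v
    apply hjinj
    show j (T i (T i' v)) = j (T i' (T i v))
    rw [hT, hT, hT, hT, hdd.comm]
  · intro i i'
    apply hjinj
    show j (T i (algebraMap _ M (uS z i'))) = j (if i = i' then 1 else 0)
    rw [hT, hj, hdd.dual]
    split_ifs
    · rw [map_one]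
    · rw [map_zero]
  · intro a
    apply hjinj
    show j (T (tI p n) (algebraMap (MvPolynomial (Fin (n + 1)) D) M (C a))) = j 0
    rw [hT, hj, hdd.constT, map_zero]
  · intro l a
    apply hjinj
    show j (T (xI p n l) (algebraMap (MvPolynomial (Fin (n + 1)) D) M (C a))) = j 0
    rw [hT, hj, hdd.constX, map_zero]

end Pool.Agent.Lib.MP_bbe012_lc.PP
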