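import Pool.Agent.Lib.MP_bbe012_lc.PP.KDefs
import Pool.Agent.Lib.MP_bbe012_lc.Growth

/-!
# Stage 2: filtrations of minimal growth
-/

namespace Pool.Agent.Lib.MP_bbe012_lc.PP

open Module MvPolynomial Pool.Agent.Lib.MP_bbe012_lc

/-- A filtration of a finitely generated subring of a field with growth of degree `m`, with `m` commuting derivations dual to `m`
elements.

Proof. Let `V` be the span over `ℚ` of `1`, the `u j` and finitely many generators of the algebra `M` (`Algebra.FiniteType.out`), a finite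
dimensional subspace. `V ^ k` is increasing (`1 ∈ V`) and every element of `M` is in some `V ^ k` (`Algebra.adjoin_induction`). As `V` is spanned by
finitely many elements there is `c ≥ 1` with `dM i v ∈ V ^ c` for all `v ∈ V` and all `i`. By the Leibniz rule and induction
(`Submodule.pow_induction_on_left'` or `Submodule.mul_induction_on`) `dM i v ∈ V ^ (k + c)` for `v ∈ V ^ k`. `Γ k = V ^ (c * k)`: then `dM i` maps
`Γ k` to `V ^ (c k + c) = Γ (k + 1)`, and `u j * v ∈ V ^ (c k + 1) ≤ Γ (k + 1)`. Growth: `j` is injective, so `finrank (V ^ (c k)) =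
finrank ((V ^ (c k)).map j)` and `(V ^ a).map j = (V.map j) ^ a` (`Submodule.map_pow`), at most `c₀ * (c k + 1) ^ m ≤ c₀ * c ^ m * (k + 1) ^ m`.
`fin`: `Submodule.FG.pow`. The relations `XX`, `DD`, `DX`: commutativity, `comm`, Leibniz and `dual` (a derivation over `ℤ` of a
`ℚ`-algebra is linear over `ℚ`: `derL_apply`). -/
theorem weyl_of_growth {m : ℕ} {M E : Type} [CommRing M] [Algebra ℚ M] [Algebra.FiniteType ℚ M] [Field E]
    [Algebra ℚ E] (j : M →ₐ[ℚ] E) (hj : Function.Injective j)
    (hgr : ∀ V : Submodule ℚ E, V.FG → ∃ c : ℕ, ∀ k : ℕ, finrank ℚ (V ^ k : Submodule ℚ E) ≤ c * (k + 1) ^ m)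
    (u : Fin m → M) (dM : Fin m → Derivation ℤ M M) (hcomm : ∀ i k v, dM i (dM k v) = dM k (dM i v))
    (hdual : ∀ i k, dM i (u k) = if i = k then 1 else 0) :
    ∃ (Γ : ℕ → Submodule ℚ M) (c : ℕ),
      Weyl m (fun i => LinearMap.mulLeft ℚ (u i)) (fun i => derL (dM i)) Γ c := by
  classical
  obtain ⟨g, hg⟩ := Algebra.FiniteType.out (R := ℚ) (A := M)
  let S : Set M := insert 1 (Set.range u ∪ (g : Set M))
  have hSfin : S.Finite := ((Set.finite_range u).union g.finite_toSet).insert 1
  let V : Submodule ℚ M := Submodule.span ℚ S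
  have hVfg : V.FG := Submodule.fg_span hSfin
  have hone : (1 : M) ∈ V := Submodule.subset_span (Set.mem_insert _ _)
  have hone' : (1 : Submodule ℚ M) ≤ V := Submodule.one_le.2 hone
  have hu : ∀ i, u i ∈ V := fun i =>
    Submodule.subset_span (Set.mem_insert_of_mem _ (Or.inl ⟨i, rfl⟩))
  have hgV : ∀ x ∈ g, x ∈ V := fun x hx =>
    Submodule.subset_span (Set.mem_insert_of_mem _ (Or.inr hx))
  have hpow1 : ∀ b : ℕ, (1 : Submodule ℚ M) ≤ V ^ b := by
    intro b
    induction b with
    | zero => rw [pow_zero]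
    | succ b ih =>
      rw [pow_succ]
      calc (1 : Submodule ℚ M) = 1 * 1 := (one_mul 1).symm
        _ ≤ V ^ b * V := mul_le_mul' ih hone'
  have hmono : ∀ a b : ℕ, a ≤ b → V ^ a ≤ V ^ b := by
    intro a b hab
    obtain ⟨e, rfl⟩ := Nat.exists_eq_add_of_le hab
    rw [pow_add]
    calc V ^ a = V ^ a * 1 := (mul_one _).symm
      _ ≤ V ^ a * V ^ e := mul_le_mul' le_rfl (hpow1 e)
  have hexh : ∀ v : M, ∃ k, v ∈ V ^ k := by
    intro v
    have hv : v ∈ Algebra.adjoin ℚ (g : Set M) := by rw [hg]; exact Algebra.mem_top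
    induction hv using Algebra.adjoin_induction with
    | mem x hx => exact ⟨1, by rw [pow_one]; exact hgV x hx⟩
    | algebraMap r => exact ⟨0, by rw [pow_zero]; exact Submodule.algebraMap_mem r⟩
    | add x y _ _ hx hy =>
      obtain ⟨a, ha⟩ := hx
      obtain ⟨b, hb⟩ := hy
      exact ⟨max a b, Submodule.add_mem _ (hmono a _ (le_max_left a b) ha)
        (hmono b _ (le_max_right a b) hb)⟩
    | mul x y _ _ hx hy =>
      obtain ⟨a, ha⟩ := hx
      obtain ⟨b, hb⟩ := hy
      exact ⟨a + b, by rw [pow_add]; exact Submodule.mul_mem_mul ha hb⟩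
  have hfgle : ∀ W : Submodule ℚ M, W.FG → ∃ k, W ≤ V ^ k := by
    rintro W ⟨t, rfl⟩
    choose κ hκ using hexh
    refine ⟨t.sup κ, ?_⟩
    rw [Submodule.span_le]
    intro x hx
    exact hmono _ _ (Finset.le_sup (f := κ) hx) (hκ x)
  have hci : ∀ i, ∃ k, V.map (derL (dM i)) ≤ V ^ k := fun i => hfgle _ (hVfg.map _)
  choose ci hci using hci
  let c : ℕ := 1 + ∑ i, ci i
  have hc1 : 1 ≤ c := Nat.le_add_right _ _
  have hc : ∀ i, ∀ v ∈ V, dM i v ∈ V ^ c := by
    intro i v hv
    have h1 : derL (dM i) v ∈ V ^ ci i := hci i (Submodule.mem_map_of_mem hv)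
    rw [derL_apply] at h1
    refine hmono _ _ ?_ h1
    have := Finset.single_le_sum (f := ci) (fun _ _ => Nat.zero_le _) (Finset.mem_univ i)
    show ci i ≤ 1 + ∑ i, ci i
    omega
  have hD : ∀ i, ∀ k : ℕ, ∀ v ∈ V ^ k, dM i v ∈ V ^ (k + c) := by
    intro i k
    induction k with
    | zero =>
      intro v hv
      rw [pow_zero, Submodule.mem_one] at hv
      obtain ⟨r, rfl⟩ := hv
      have h1 : derL (dM i) (algebraMap ℚ M r) = 0 := by
        rw [Algebra.algebraMap_eq_smul_one, map_smul, derL_apply, Derivation.map_one_eq_zero,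
          smul_zero]
      rw [← derL_apply, h1]
      exact Submodule.zero_mem _
    | succ k ih =>
      intro v hv
      rw [pow_succ] at hv
      induction hv using Submodule.mul_induction_on' with
      | mem_mul_mem a ha b hb =>
        rw [Derivation.leibniz, smul_eq_mul, smul_eq_mul]
        refine Submodule.add_mem _ ?_ ?_
        · refine hmono (k + c) _ (by omega) ?_
          rw [pow_add]
          exact Submodule.mul_mem_mul ha (hc i b hb)
        · have h2 : k + 1 + c = 1 + (k + c) := by omega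
          rw [h2, pow_add, pow_one]
          exact Submodule.mul_mem_mul hb (ih a ha)
      | add x _ y _ hx hy =>
        rw [map_add]
        exact Submodule.add_mem _ hx hy
  obtain ⟨c₀, hc₀⟩ := hgr (V.map j.toLinearMap) (hVfg.map _)
  refine ⟨fun k => V ^ (c * k), c₀ * c ^ m, ?_⟩
  refine
    { XX := ?_
      DD := ?_
      DX := ?_
      mono := ?_
      exh := ?_
      Xmem := ?_
      Dmem := ?_
      fin := ?_
      growth := ?_ }
  · intro i k v
    simp only [LinearMap.mulLeft_apply]
    ring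
  · intro i k v
    simp only [derL_apply]
    exact hcomm i k v
  · intro i k v
    simp only [derL_apply, LinearMap.mulLeft_apply]
    rw [Derivation.leibniz, smul_eq_mul, smul_eq_mul, hdual i k]
    split_ifs
    · rw [mul_one]
    · rw [mul_zero]
  · intro a b hab
    exact hmono _ _ (Nat.mul_le_mul_left c hab)
  · intro v
    obtain ⟨k, hk⟩ := hexh v
    exact ⟨k, hmono _ _ (Nat.le_mul_of_pos_left k hc1) hk⟩
  · intro i k v hv
    show u i * v ∈ V ^ (c * (k + 1))
    refine hmono (1 + c * k) _ (by rw [mul_add, mul_one]; omega) ?_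
    rw [pow_add, pow_one]
    exact Submodule.mul_mem_mul (hu i) hv
  · intro i k v hv
    show dM i v ∈ V ^ (c * (k + 1))
    rw [mul_add, mul_one]
    exact hD i _ v hv
  · intro k
    exact Module.Finite.iff_fg.2 (hVfg.pow _)
  · intro k
    have h1 : finrank ℚ (V ^ (c * k) : Submodule ℚ M) =
        finrank ℚ ((V.map j.toLinearMap) ^ (c * k) : Submodule ℚ E) := by
      rw [← Submodule.map_pow]
      exact (Submodule.equivMapOfInjective j.toLinearMap hj (V ^ (c * k))).finrank_eq
    show finrank ℚ (V ^ (c * k) : Submodule ℚ M) ≤ c₀ * c ^ m * (k + 1) ^ m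
    rw [h1]
    refine (hc₀ (c * k)).trans ?_
    rw [mul_assoc, ← mul_pow]
    refine Nat.mul_le_mul_left c₀ (Nat.pow_le_pow_left ?_ m)
    rw [mul_add, mul_one]
    omega

end Pool.Agent.Lib.MP_bbe012_lc.PP
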