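import Pool.Agent.Lib.MP_bbe012_lc.PP.CokF
import Pool.Agent.Lib.MP_bbe012_lc.Chain

/-!
# Stage 2: the cokernel of the operators `D (X - X ^ 2)` of the last variables
-/

namespace Pool.Agent.Lib.MP_bbe012_lc.PP

open Module Pool.Agent.Lib.MP_bbe012_lc

universe u

variable {𝕜 : Type u} [Field 𝕜] [CharZero 𝕜]

private theorem WA_quot {m : ℕ} {V : Type u} [AddCommGroup V] [Module 𝕜 V]
    {X D : Fin (m + 1) → V →ₗ[𝕜] V} {Γ : ℕ → Submodule 𝕜 V} {C : ℕ} (hW : Weyl (m + 1) X D Γ C)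
    (R : Submodule 𝕜 V) (hR : R = LinearMap.range (opF (X (Fin.last m)) (D (Fin.last m)))) :
    ∃ (X' D' : Fin m → (V ⧸ R) →ₗ[𝕜] (V ⧸ R)) (C' : ℕ),
      (∀ i v, X' i (R.mkQ v) = R.mkQ (X i.castSucc v)) ∧
      (∀ i v, D' i (R.mkQ v) = R.mkQ (D i.castSucc v)) ∧
      Weyl m X' D' (fun k => (Γ k).map R.mkQ) C' := by
  obtain ⟨Dn, hDn⟩ : ∃ Dn, Dn = D (Fin.last m) := ⟨_, rfl⟩
  obtain ⟨Xn, hXn⟩ : ∃ Xn, Xn = X (Fin.last m) := ⟨_, rfl⟩
  rw [← hXn, ← hDn] at hR
  have hrel : ∀ v, Dn (Xn v) = Xn (Dn v) + v := by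
    intro v
    have := hW.DX (Fin.last m) (Fin.last m) v
    rw [if_pos rfl] at this
    rw [hDn, hXn]
    exact this
  have hopv : ∀ (A B : V →ₗ[𝕜] V) v, opF A B v = B (A v - A (A v)) := fun A B v => rfl
  have hDX : ∀ (i : Fin m) v, D i.castSucc (Xn v) = Xn (D i.castSucc v) := by
    intro i v
    have := hW.DX i.castSucc (Fin.last m) v
    rw [if_neg (Fin.castSucc_lt_last i).ne, add_zero] at this
    rw [hXn]
    exact this
  have hXD : ∀ (i : Fin m) v, X i.castSucc (Dn v) = Dn (X i.castSucc v) := by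
    intro i v
    have := hW.DX (Fin.last m) i.castSucc v
    rw [if_neg (Fin.castSucc_lt_last i).ne', add_zero] at this
    rw [hDn]
    exact this.symm
  have hDD : ∀ (i : Fin m) v, D i.castSucc (Dn v) = Dn (D i.castSucc v) := by
    intro i v
    rw [hDn]
    exact hW.DD _ _ _
  have hXX : ∀ (i : Fin m) v, X i.castSucc (Xn v) = Xn (X i.castSucc v) := by
    intro i v
    rw [hXn]
    exact hW.XX _ _ _
  have hDR : ∀ i : Fin m, R ≤ R.comap (D i.castSucc) := by
    intro i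
    rw [hR]
    rintro _ ⟨v, rfl⟩
    refine ⟨D i.castSucc v, ?_⟩
    rw [hopv, hopv, hDD, map_sub (D i.castSucc), hDX, hDX, hDX]
  have hXR : ∀ i : Fin m, R ≤ R.comap (X i.castSucc) := by
    intro i
    rw [hR]
    rintro _ ⟨v, rfl⟩
    refine ⟨X i.castSucc v, ?_⟩
    rw [hopv, hopv, hXD, map_sub (X i.castSucc), hXX, hXX, hXX]
  let D' : Fin m → (V ⧸ R) →ₗ[𝕜] (V ⧸ R) := fun i => R.mapQ R (D i.castSucc) (hDR i)
  let X' : Fin m → (V ⧸ R) →ₗ[𝕜] (V ⧸ R) := fun i => R.mapQ R (X i.castSucc) (hXR i)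
  have hD' : ∀ i v, D' i (R.mkQ v) = R.mkQ (D i.castSucc v) := fun i v => rfl
  have hX' : ∀ i v, X' i (R.mkQ v) = R.mkQ (X i.castSucc v) := fun i v => rfl
  have hsurj : Function.Surjective R.mkQ := Submodule.mkQ_surjective R
  obtain ⟨C', hC'⟩ := cokerF_growth (X := Xn) (D := Dn) (Γ := Γ) (C := C) (n := m) hrel hW.mono
    (by rw [hXn]; exact hW.Xmem _) (by rw [hDn]; exact hW.Dmem _) hW.fin hW.growth
  refine ⟨X', D', C', hX', hD', ?_⟩
  refine ⟨?_, ?_, ?_, ?_, ?_, ?_, ?_, ?_, ?_⟩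
  · intro i j w
    obtain ⟨v, rfl⟩ := hsurj w
    rw [hX', hX', hX', hX', hW.XX]
  · intro i j w
    obtain ⟨v, rfl⟩ := hsurj w
    rw [hD', hD', hD', hD', hW.DD]
  · intro i j w
    obtain ⟨v, rfl⟩ := hsurj w
    rw [hX', hD', hD', hX', hW.DX, map_add]
    congr 1
    by_cases hij : i = j
    · rw [if_pos hij, if_pos (by rw [hij])]
    · rw [if_neg hij, if_neg (fun h => hij (Fin.castSucc_injective _ h)), map_zero]
  · intro a b hab
    exact Submodule.map_mono (hW.mono hab)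
  · intro w
    obtain ⟨v, rfl⟩ := hsurj w
    obtain ⟨k, hk⟩ := hW.exh v
    exact ⟨k, Submodule.mem_map_of_mem hk⟩
  · rintro i k _ ⟨v, hv, rfl⟩
    exact ⟨_, hW.Xmem _ _ _ hv, rfl⟩
  · rintro i k _ ⟨v, hv, rfl⟩
    exact ⟨_, hW.Dmem _ _ _ hv, rfl⟩
  · intro k
    have := hW.fin k
    infer_instance
  · intro k
    have h1 := hC' k
    rw [← hR] at h1
    exact h1

/-- Growth of the image of the filtration in the quotient by the images of the operators `opF` of the last `n`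
variables.

Proof. Induction on `n` (generalising `V`). `n = 0`: the supremum over `Fin 0` is `⊥`; the quotient map only decreases
dimensions (`Submodule.finrank_map_le`). Step `n → n + 1`: `Fin (p + (n + 1)) = Fin ((p + n) + 1)` (definitionally), let `R` be the range of
`opF (X (Fin.last _)) (D (Fin.last _))`. As in the proof of `cokerF_finite` (CokF.lean) the quotient `V ⧸ R` with the operators
induced by the `X i.castSucc`, `D i.castSucc` is `Weyl (p + n)` (with some constant, by `cokerF_growth`); apply the induction hypothesis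
to it. The quotient of `V ⧸ R` by the supremum of the ranges of the induced operators is the quotient of `V` by the full supremum:
if `π' : V ⧸ R → (V ⧸ R) ⧸ S'` then `finrank ((Γ k).map (mkQ S))` is at most `finrank (((Γ k).map R.mkQ).map π')`, because
the kernel of `π' ∘ R.mkQ` is contained in `S` (so `mkQ S` factors through `π' ∘ R.mkQ`, `Submodule.liftQ` /
`Submodule.finrank_map_le`): an element of `S'` lifts to an element of the supremum of the ranges of the
`opF (X i.castSucc) (D i.castSucc)`, and `Fin.natAdd p l` for `l = castSucc` and `l = last` correspond to `castSucc` and `last`. -/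
theorem cokerF_growth_all {p n : ℕ} {V : Type u} [AddCommGroup V] [Module 𝕜 V]
    {X D : Fin (p + n) → V →ₗ[𝕜] V} {Γ : ℕ → Submodule 𝕜 V} {C : ℕ} (hW : Weyl (p + n) X D Γ C) :
    ∃ C' : ℕ, ∀ k : ℕ, finrank 𝕜 ((Γ k).map
      (⨆ l : Fin n, LinearMap.range (opF (X (Fin.natAdd p l)) (D (Fin.natAdd p l)))).mkQ) ≤ C' * (k + 1) ^ p := by
  induction n generalizing V C with
  | zero =>
    refine ⟨C, fun k => ?_⟩
    have := hW.fin k
    exact (Submodule.finrank_map_le _ _).trans (hW.growth k)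
  | succ n ih =>
    obtain ⟨R, hR⟩ : ∃ R, R = LinearMap.range (opF (X (Fin.last (p + n))) (D (Fin.last (p + n)))) :=
      ⟨_, rfl⟩
    obtain ⟨X', D', C', hX', hD', hW'⟩ := WA_quot (m := p + n) hW R hR
    obtain ⟨C'', hC''⟩ := ih hW'
    refine ⟨C'', fun k => le_trans ?_ (hC'' k)⟩
    obtain ⟨S, hS⟩ : ∃ S, S = ⨆ l : Fin (n + 1), LinearMap.range
      (opF (X (Fin.natAdd p l)) (D (Fin.natAdd p l))) := ⟨_, rfl⟩
    obtain ⟨S', hS'⟩ : ∃ S', S' = ⨆ l : Fin n, LinearMap.range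
      (opF (X' (Fin.natAdd p l)) (D' (Fin.natAdd p l))) := ⟨_, rfl⟩
    rw [← hS, ← hS']
    have hfin := hW.fin k
    have hS2 : S' ≤ S.map R.mkQ := by
      rw [hS']
      refine iSup_le fun l => ?_
      rintro _ ⟨w, rfl⟩
      obtain ⟨u, rfl⟩ := Submodule.mkQ_surjective R w
      refine ⟨opF (X (Fin.natAdd p l.castSucc)) (D (Fin.natAdd p l.castSucc)) u, ?_, ?_⟩
      · rw [hS]
        exact Submodule.mem_iSup_of_mem l.castSucc ⟨u, rfl⟩
      · have e1 : Fin.natAdd p l.castSucc = (Fin.natAdd p l).castSucc := rfl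
        rw [e1]
        change R.mkQ (D (Fin.natAdd p l).castSucc (X (Fin.natAdd p l).castSucc u -
            X (Fin.natAdd p l).castSucc (X (Fin.natAdd p l).castSucc u))) =
          D' (Fin.natAdd p l) (X' (Fin.natAdd p l) (R.mkQ u) -
            X' (Fin.natAdd p l) (X' (Fin.natAdd p l) (R.mkQ u)))
        rw [hX', hX', ← map_sub R.mkQ, hD']
    have hRS : R ≤ S := by
      rw [hR, hS]
      have e1 : Fin.natAdd p (Fin.last n) = Fin.last (p + n) := rfl
      have := le_iSup (fun l : Fin (n + 1) => LinearMap.range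
        (opF (X (Fin.natAdd p l)) (D (Fin.natAdd p l)))) (Fin.last n)
      exact this
    have hker : LinearMap.ker (S'.mkQ ∘ₗ R.mkQ) ≤ S := by
      intro v hv
      rw [LinearMap.mem_ker, LinearMap.comp_apply] at hv
      have h1 : R.mkQ v ∈ S' := by
        rw [← Submodule.ker_mkQ S', LinearMap.mem_ker]
        exact hv
      obtain ⟨u, hu, hu2⟩ := hS2 h1
      have h3 : v - u ∈ R := by
        rw [← Submodule.ker_mkQ R, LinearMap.mem_ker, map_sub, hu2, sub_self]
      have h5 := Submodule.add_mem _ (hRS h3) hu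
      rwa [sub_add_cancel] at h5
    have e1 := finrank_map_add_inf S.mkQ (Γ k)
    have e2 := finrank_map_add_inf (S'.mkQ ∘ₗ R.mkQ) (Γ k)
    rw [Submodule.ker_mkQ] at e1
    have e3 : finrank 𝕜 (LinearMap.ker (S'.mkQ ∘ₗ R.mkQ) ⊓ Γ k : Submodule 𝕜 V) ≤
        finrank 𝕜 (S ⊓ Γ k : Submodule 𝕜 V) := by
      have : FiniteDimensional 𝕜 (S ⊓ Γ k : Submodule 𝕜 V) :=
        Submodule.finiteDimensional_of_le inf_le_right
      exact Submodule.finrank_mono (inf_le_inf_right _ hker)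
    have e4 : ((Γ k).map R.mkQ).map S'.mkQ = (Γ k).map (S'.mkQ ∘ₗ R.mkQ) :=
      (Submodule.map_comp _ _ _).symm
    change finrank 𝕜 ((Γ k).map S.mkQ) ≤ finrank 𝕜 (((Γ k).map R.mkQ).map S'.mkQ)
    rw [e4]
    omega

/-- The quotient is a module of minimal growth over the Weyl algebra in the first `p` variables.

Proof: `cokerF_growth_all` for the last field of `Weyl` (the kernel of `π` is the supremum, so `(Γ k).map π` is isomorphic to the
image in the quotient: `LinearMap.quotKerEquivOfSurjective` or `Submodule.liftQ`), the others are immediate by surjectivity of `π`;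
see the proof of `Weyl.coker_finite`. -/
theorem cokerF_weyl {p n : ℕ} {V W : Type u} [AddCommGroup V] [Module 𝕜 V] [AddCommGroup W] [Module 𝕜 W]
    {X D : Fin (p + n) → V →ₗ[𝕜] V} {Γ : ℕ → Submodule 𝕜 V} {C : ℕ} (hW : Weyl (p + n) X D Γ C)
    (π : V →ₗ[𝕜] W) (hπ : Function.Surjective π)
    (hker : LinearMap.ker π = ⨆ l : Fin n, LinearMap.range (opF (X (Fin.natAdd p l)) (D (Fin.natAdd p l))))
    (X' D' : Fin p → W →ₗ[𝕜] W) (hX' : ∀ i v, X' i (π v) = π (X (Fin.castAdd n i) v))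
    (hD' : ∀ i v, D' i (π v) = π (D (Fin.castAdd n i) v)) :
    ∃ C' : ℕ, Weyl p X' D' (fun k => (Γ k).map π) C' := by
  obtain ⟨C', hC'⟩ := cokerF_growth_all hW
  refine ⟨C', ?_, ?_, ?_, ?_, ?_, ?_, ?_, ?_, ?_⟩
  · intro i j w
    obtain ⟨v, rfl⟩ := hπ w
    rw [hX', hX', hX', hX', hW.XX]
  · intro i j w
    obtain ⟨v, rfl⟩ := hπ w
    rw [hD', hD', hD', hD', hW.DD]
  · intro i j w
    obtain ⟨v, rfl⟩ := hπ w
    rw [hX', hD', hD', hX', hW.DX, map_add]
    congr 1
    by_cases hij : i = j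
    · rw [if_pos hij, if_pos (by rw [hij])]
    · rw [if_neg hij, if_neg (fun h => hij (Fin.castAdd_injective _ _ h)), map_zero]
  · intro a b hab
    exact Submodule.map_mono (hW.mono hab)
  · intro w
    obtain ⟨v, rfl⟩ := hπ w
    obtain ⟨k, hk⟩ := hW.exh v
    exact ⟨k, Submodule.mem_map_of_mem hk⟩
  · rintro i k _ ⟨v, hv, rfl⟩
    exact ⟨_, hW.Xmem _ _ _ hv, (hX' i v).symm⟩
  · rintro i k _ ⟨v, hv, rfl⟩
    exact ⟨_, hW.Dmem _ _ _ hv, (hD' i v).symm⟩
  · intro k
    have := hW.fin k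
    infer_instance
  · intro k
    have hfin := hW.fin k
    refine le_trans ?_ (hC' k)
    have e1 := finrank_map_add_inf π (Γ k)
    have e2 := finrank_map_add_inf
      (⨆ l : Fin n, LinearMap.range (opF (X (Fin.natAdd p l)) (D (Fin.natAdd p l)))).mkQ (Γ k)
    rw [hker] at e1
    rw [Submodule.ker_mkQ] at e2
    omega

end Pool.Agent.Lib.MP_bbe012_lc.PP
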