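import Pool.Agent.Lib.MP_bbe012_lc.PP.WB
import Pool.Agent.Lib.MP_bbe012_lc.LocMod

/-!
# Stage 2: generic reduction with the powers of one polynomial as denominators
-/

namespace Pool.Agent.Lib.MP_bbe012_lc.PP

open Module MvPolynomial Pool.Agent.Lib.MP_bbe012_lc

variable {𝕜 : Type*} [Field 𝕜] [CharZero 𝕜] {p : ℕ} {W : Type*} [AddCommGroup W] [Module 𝕜 W]
  [Module (MvPolynomial (Fin p) 𝕜) W] [IsScalarTower 𝕜 (MvPolynomial (Fin p) 𝕜) W]

/-- Multiplication by a variable, as a linear map over `𝕜`. -/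
noncomputable def mulVar (𝕜 : Type*) [Field 𝕜] (p : ℕ) (W : Type*) [AddCommGroup W] [Module 𝕜 W]
    [Module (MvPolynomial (Fin p) 𝕜) W] [IsScalarTower 𝕜 (MvPolynomial (Fin p) 𝕜) W] (i : Fin p) :
    W →ₗ[𝕜] W where
  toFun v := (X i : MvPolynomial (Fin p) 𝕜) • v
  map_add' v w := smul_add _ _ _
  map_smul' c v := by
    rw [RingHom.id_apply, ← algebraMap_smul (MvPolynomial (Fin p) 𝕜) c v,
      ← algebraMap_smul (MvPolynomial (Fin p) 𝕜) c ((X i : MvPolynomial (Fin p) 𝕜) • v), smul_smul, smul_smul,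
      mul_comm]

theorem mulVar_apply (i : Fin p) (v : W) :
    mulVar 𝕜 p W i v = (X i : MvPolynomial (Fin p) 𝕜) • v := rfl

/-- Leibniz rule. Proof: `MvPolynomial.induction_on` for `f` (constants: `D i` is linear over `𝕜`,
`algebraMap_smul`; `hW.DX` for the variables). -/
theorem weyl_leibniz {D : Fin p → W →ₗ[𝕜] W} {Γ : ℕ → Submodule 𝕜 W} {C : ℕ}
    (hW : Weyl p (mulVar 𝕜 p W) D Γ C) (i : Fin p) (f : MvPolynomial (Fin p) 𝕜) (v : W) :
    D i (f • v) = pderiv i f • v + f • D i v := by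
  induction f using MvPolynomial.induction_on generalizing v with
  | C a =>
    rw [pderiv_C, zero_smul, zero_add, ← MvPolynomial.algebraMap_eq, algebraMap_smul, algebraMap_smul,
      map_smul]
  | add f g hf hg =>
    rw [add_smul, map_add, hf, hg, map_add, add_smul, add_smul]
    abel
  | mul_X f j hf =>
    have h1 := hW.DX i j v
    rw [mulVar_apply, mulVar_apply] at h1
    rw [mul_smul, hf, h1, pderiv_mul, pderiv_X, add_smul, mul_smul, mul_smul, mul_smul, smul_add]
    by_cases hij : i = j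
    · subst hij
      rw [if_pos rfl, Pi.single_eq_same, one_smul]
      abel
    · rw [if_neg hij, Pi.single_eq_of_ne (fun h => hij h.symm), zero_smul, smul_zero]
      abel

private theorem WC_mem_one {D : Fin p → W →ₗ[𝕜] W} {Γ : ℕ → Submodule 𝕜 W} {C : ℕ}
    (hW : Weyl p (mulVar 𝕜 p W) D Γ C) (i : Fin p) (s : ℕ) {j : ℕ} {v : W} (hv : v ∈ Γ j) :
    ((X i : MvPolynomial (Fin p) 𝕜) ^ s) • v ∈ Γ (j + s) := by
  induction s with
  | zero => rw [pow_zero, one_smul]; exact hv
  | succ s ih =>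
    rw [pow_succ', mul_smul]
    exact hW.Xmem i (j + s) _ ih

private theorem WC_mem {D : Fin p → W →ₗ[𝕜] W} {Γ : ℕ → Submodule 𝕜 W} {C : ℕ}
    (hW : Weyl p (mulVar 𝕜 p W) D Γ C) (a : Fin p →₀ ℕ) (s : Finset (Fin p)) {j : ℕ} {v : W}
    (hv : v ∈ Γ j) :
    (∏ i ∈ s, (X i : MvPolynomial (Fin p) 𝕜) ^ a i) • v ∈ Γ (j + ∑ i ∈ s, a i) := by
  classical
  induction s using Finset.induction_on with
  | empty => rw [Finset.prod_empty, Finset.sum_empty, one_smul]; exact hv
  | insert i s hi ih =>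
    rw [Finset.prod_insert hi, Finset.sum_insert hi, mul_smul, add_comm (a i), ← add_assoc]
    exact WC_mem_one hW i (a i) ih

private theorem WC_count {D : Fin p → W →ₗ[𝕜] W} {Γ : ℕ → Submodule 𝕜 W} {C : ℕ}
    (hW : Weyl p (mulVar 𝕜 p W) D Γ C) {r : ℕ} (e : Fin r → W)
    (he : LinearIndependent (MvPolynomial (Fin p) 𝕜) e) {j : ℕ} (hj : ∀ k, e k ∈ Γ j) (N : ℕ) :
    N ^ p * r ≤ finrank 𝕜 (Γ (j + p * N)) := by
  have hfin := hW.fin (j + p * N)
  have h1 : LinearIndependent 𝕜 fun q : (Fin p →₀ ℕ) × Fin r =>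
      (basisMonomials (Fin p) 𝕜) q.1 • e q.2 :=
    linearIndependent_smul (basisMonomials (Fin p) 𝕜).linearIndependent he
  let φ : (Fin p → Fin N) × Fin r → (Fin p →₀ ℕ) × Fin r := fun q =>
    (Finsupp.equivFunOnFinite.symm fun i => (q.1 i : ℕ), q.2)
  have hφ : Function.Injective φ := by
    rintro ⟨a, k⟩ ⟨b, l⟩ hab
    simp only [φ, Prod.mk.injEq] at hab
    have h2 := Finsupp.equivFunOnFinite.symm.injective hab.1
    refine Prod.ext ?_ hab.2
    funext i
    exact Fin.ext (congrFun h2 i)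
  have h3 := h1.comp φ hφ
  have hmem : ∀ q : (Fin p → Fin N) × Fin r,
      ((fun q : (Fin p →₀ ℕ) × Fin r => (basisMonomials (Fin p) 𝕜) q.1 • e q.2) ∘ φ) q ∈
        Γ (j + p * N) := by
    intro q
    have h4 : (basisMonomials (Fin p) 𝕜) (φ q).1 =
        ∏ i, (X i : MvPolynomial (Fin p) 𝕜) ^ (φ q).1 i := by
      rw [coe_basisMonomials]
      change monomial (φ q).1 (1 : 𝕜) = _
      rw [← MvPolynomial.prod_X_pow_eq_monomial]
      refine Finset.prod_subset (Finset.subset_univ _) fun i _ hi => ?_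
      rw [Finsupp.notMem_support_iff.1 hi, pow_zero]
    have h5 := WC_mem hW (φ q).1 Finset.univ (hj (φ q).2)
    rw [← h4] at h5
    refine hW.mono ?_ h5
    have h6 : ∑ i, (φ q).1 i ≤ ∑ _i : Fin p, N := Finset.sum_le_sum fun i _ => (q.1 i).2.le
    rw [Finset.sum_const, Finset.card_univ, Fintype.card_fin, smul_eq_mul] at h6
    omega
  have h7 : LinearIndependent 𝕜 fun q : (Fin p → Fin N) × Fin r =>
      (⟨((fun q : (Fin p →₀ ℕ) × Fin r => (basisMonomials (Fin p) 𝕜) q.1 • e q.2) ∘ φ) q, hmem q⟩ :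
        Γ (j + p * N)) :=
    LinearIndependent.of_comp (Γ (j + p * N)).subtype h3
  have h8 := h7.fintype_card_le_finrank
  rw [Fintype.card_prod, Fintype.card_fun, Fintype.card_fin, Fintype.card_fin, Fintype.card_fin] at h8
  exact h8

/-- The rank over the polynomial ring is finite.

Proof. Suppose `e` is independent over the polynomial ring, `e k ∈ Γ j` for all `k`. The elements
`monomial a 1 • e k` with all `a i < N` (there are `N ^ p * r` of them) are linearly independent over `𝕜` and in `Γ (j + p N)`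
(`hW.Xmem`), so `N ^ p * r ≤ C * (j + p N + 1) ^ p` for all `N`. For `N ≥ j + 1` the right side is at most
`C * ((p + 1) N) ^ p`, so `r ≤ C * (p + 1) ^ p`. -/
theorem weyl_rank_le {D : Fin p → W →ₗ[𝕜] W} {Γ : ℕ → Submodule 𝕜 W} {C : ℕ}
    (hW : Weyl p (mulVar 𝕜 p W) D Γ C) {r : ℕ} (e : Fin r → W)
    (he : LinearIndependent (MvPolynomial (Fin p) 𝕜) e) : r ≤ C * (p + 1) ^ p := by
  choose kk hkk using fun k => hW.exh (e k)
  set j : ℕ := Finset.univ.sup kk with hjdef
  have hj : ∀ k, e k ∈ Γ j := fun k => hW.mono (Finset.le_sup (f := kk) (Finset.mem_univ k)) (hkk k)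
  have h1 := WC_count hW e he hj (j + 1)
  have h2 := hW.growth (j + p * (j + 1))
  have h3 : j + p * (j + 1) + 1 = (p + 1) * (j + 1) := by ring
  rw [h3, mul_pow] at h2
  have h4 : (j + 1) ^ p * r ≤ (j + 1) ^ p * (C * (p + 1) ^ p) := by
    refine (h1.trans h2).trans (le_of_eq ?_)
    ring
  exact Nat.le_of_mul_le_mul_left h4 (by positivity)

/-- Generic reduction.

Proof. Let `e : Fin r → W` be independent over the polynomial ring with the largest possible `r` (`weyl_rank_le`). For every `v` there is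
`ρ_v ≠ 0` with `ρ_v • v` in the span of the `e k` (otherwise `v` could be added: `Fin.cons`; the polynomial ring is a domain). Let `S` be
as in `Weyl.finite_gen`, and `ρ` the product of the `ρ_v` for `v ∈ S` and for `v = D i (e k)` (all `i`, `k`), so `ρ • v` is in the span of
the `e k` for all these `v`. Let `P` be the set of all `v` such that `ρ ^ m • v` is in the span of the `e k` for some `m`, a subspace over
`𝕜`, stable under the `X i`. It is stable under the `D i`: if `ρ ^ m • v = ∑ a k • e k`, then by `weyl_leibniz`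
`ρ ^ (m + 1) • D i v = ρ • D i (ρ ^ m • v) - ρ • pderiv i (ρ ^ m) • v`, where
`ρ • D i (∑ a k • e k) = ∑ (ρ * pderiv i (a k)) • e k + ∑ a k • (ρ • D i (e k))` is in the span, and
`ρ * pderiv i (ρ ^ m) = m * pderiv i ρ * ρ ^ m`, so the second term is in the span too. Hence `P = ⊤`. -/
theorem generic_reduction {D : Fin p → W →ₗ[𝕜] W} {Γ : ℕ → Submodule 𝕜 W} {C : ℕ}
    (hW : Weyl p (mulVar 𝕜 p W) D Γ C) :
    ∃ (r : ℕ) (e : Fin r → W) (ρ : MvPolynomial (Fin p) 𝕜), ρ ≠ 0 ∧
      ∀ v : W, ∃ (m : ℕ) (a : Fin r → MvPolynomial (Fin p) 𝕜), ρ ^ m • v = ∑ k, a k • e k := by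
  classical
  obtain ⟨r, e, he, hmax⟩ : ∃ (r : ℕ) (e : Fin r → W), LinearIndependent (MvPolynomial (Fin p) 𝕜) e ∧
      ∀ e' : Fin (r + 1) → W, ¬ LinearIndependent (MvPolynomial (Fin p) 𝕜) e' := by
    by_contra hcon
    push Not at hcon
    have h1 : ∀ r : ℕ, ∃ e : Fin r → W, LinearIndependent (MvPolynomial (Fin p) 𝕜) e := by
      intro r
      induction r with
      | zero => exact ⟨Fin.elim0, linearIndependent_empty_type⟩
      | succ r ih =>
        obtain ⟨e, he⟩ := ih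
        exact hcon r e he
    obtain ⟨e, he⟩ := h1 (C * (p + 1) ^ p + 1)
    have := weyl_rank_le hW e he
    omega
  set E : Submodule (MvPolynomial (Fin p) 𝕜) W := Submodule.span (MvPolynomial (Fin p) 𝕜) (Set.range e)
    with hE
  have hex : ∀ v : W, ∃ c : MvPolynomial (Fin p) 𝕜, c ≠ 0 ∧ c • v ∈ E := by
    intro v
    by_contra hcon
    push Not at hcon
    refine hmax (Fin.cons v e) (LinearIndependent.finCons' v e he fun c y hy h0 => ?_)
    by_contra hc
    apply hcon c hc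
    rw [eq_neg_of_add_eq_zero_left h0]
    exact E.neg_mem hy
  choose c hc0 hcE using hex
  obtain ⟨S, hS⟩ := Weyl.finite_gen hW
  set ρ : MvPolynomial (Fin p) 𝕜 := (∏ v ∈ S, c v) * ∏ q : Fin p × Fin r, c (D q.1 (e q.2)) with hρ
  have hρ0 : ρ ≠ 0 :=
    mul_ne_zero (Finset.prod_ne_zero_iff.2 fun v _ => hc0 v) (Finset.prod_ne_zero_iff.2 fun q _ => hc0 _)
  have hρS : ∀ v ∈ S, ρ • v ∈ E := by
    intro v hv
    obtain ⟨g, hg⟩ := Finset.dvd_prod_of_mem c hv
    have h1 : ρ = (g * ∏ q : Fin p × Fin r, c (D q.1 (e q.2))) * c v := by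
      rw [hρ, hg]; ring
    rw [h1, mul_smul]
    exact E.smul_mem _ (hcE v)
  have hρD : ∀ i k, ρ • D i (e k) ∈ E := by
    intro i k
    obtain ⟨g, hg⟩ := Finset.dvd_prod_of_mem (fun q : Fin p × Fin r => c (D q.1 (e q.2)))
      (Finset.mem_univ (i, k))
    have h1 : ρ = ((∏ v ∈ S, c v) * g) * c (D i (e k)) := by
      rw [hρ, hg]; ring
    rw [h1, mul_smul]
    exact E.smul_mem _ (hcE _)
  have hED : ∀ i, ∀ w ∈ E, ρ • D i w ∈ E := by
    intro i w hw
    obtain ⟨a, ha⟩ := (Submodule.mem_span_range_iff_exists_fun (MvPolynomial (Fin p) 𝕜)).1 hw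
    rw [← ha, map_sum, Finset.smul_sum]
    refine E.sum_mem fun k _ => ?_
    rw [weyl_leibniz hW, smul_add]
    refine E.add_mem ?_ ?_
    · exact E.smul_mem _ (E.smul_mem _ (Submodule.subset_span ⟨k, rfl⟩))
    · rw [smul_comm]
      exact E.smul_mem _ (hρD i k)
  let P : Submodule 𝕜 W :=
    { carrier := {v | ∃ m : ℕ, ρ ^ m • v ∈ E}
      zero_mem' := ⟨0, by rw [smul_zero]; exact E.zero_mem⟩
      add_mem' := by
        rintro v w ⟨m, hm⟩ ⟨l, hl⟩
        refine ⟨m + l, ?_⟩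
        rw [smul_add]
        refine E.add_mem ?_ ?_
        · rw [add_comm, pow_add, mul_smul]
          exact E.smul_mem _ hm
        · rw [pow_add, mul_smul]
          exact E.smul_mem _ hl
      smul_mem' := by
        rintro a v ⟨m, hm⟩
        refine ⟨m, ?_⟩
        rw [← algebraMap_smul (MvPolynomial (Fin p) 𝕜) a v, smul_comm]
        exact E.smul_mem _ hm }
  have hP : P = ⊤ := by
    refine hS P ?_ ?_ ?_
    · rintro i v ⟨m, hm⟩
      refine ⟨m, ?_⟩
      rw [mulVar_apply, smul_comm]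
      exact E.smul_mem _ hm
    · rintro i v ⟨m, hm⟩
      refine ⟨m + 1, ?_⟩
      have h1 := weyl_leibniz hW i (ρ ^ m) v
      have h2 : ρ ^ (m + 1) • D i v = ρ • D i (ρ ^ m • v) -
          ((m : MvPolynomial (Fin p) 𝕜) * pderiv i ρ) • (ρ ^ m • v) := by
        rw [h1, smul_add, ← mul_smul, ← mul_smul, ← mul_smul]
        have h3 : ρ * pderiv i (ρ ^ m) = (m : MvPolynomial (Fin p) 𝕜) * pderiv i ρ * ρ ^ m := by
          rw [pderiv_pow]
          rcases m with _ | m
          · simp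
          · rw [Nat.add_sub_cancel, pow_succ]; ring
        rw [h3, pow_succ']
        abel
      rw [h2]
      exact E.sub_mem (hED i _ hm) (E.smul_mem _ hm)
    · intro v hv
      exact ⟨1, by rw [pow_one]; exact hρS v hv⟩
  refine ⟨r, e, ρ, hρ0, fun v => ?_⟩
  have hv : v ∈ P := by rw [hP]; trivial
  obtain ⟨m, hm⟩ := hv
  obtain ⟨a, ha⟩ := (Submodule.mem_span_range_iff_exists_fun (MvPolynomial (Fin p) 𝕜)).1 hm
  exact ⟨m, a, ha.symm⟩

end Pool.Agent.Lib.MP_bbe012_lc.PP
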