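import Pool.Agent.Lib.MP_bbe012_lc.PP.KG
import Pool.Agent.Lib.MP_bbe012_lc.PP.KC2
import Pool.Agent.Lib.MP_bbe012_lc.PP.KE
import Pool.Agent.Lib.MP_bbe012_lc.PP.KE2
import Pool.Agent.Lib.MP_bbe012_lc.PP.KF

/-!
# Stage 2: generic reduction over a domain of parameters
-/

namespace Pool.Agent.Lib.MP_bbe012_lc.PP

open Module MvPolynomial Pool.Agent.Lib.MP_bbe012_lc

private theorem kg2_divD {n : ℕ} {D : Type} [CommRing D] (Q : MvPolynomial (Fin (n + 1)) D) (N : ℕ) (w : D)
    (s : Fin n → MvPolynomial (Fin (n + 1)) D) :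
    C w * divD Q N s = divD Q N (fun l => C w * s l) := by
  rw [divD, divD, Finset.mul_sum]
  refine Finset.sum_congr rfl fun l _ => ?_
  have h1 : flD n D l * (C w * s l) = C w * (flD n D l * s l) := by ring
  rw [h1, pderiv_C_mul]
  ring

private theorem kg2_inTD_C (n : ℕ) {D : Type} [CommRing D] (b : D) :
    inTD n D (Polynomial.C b) = C b := by
  change Polynomial.aeval (X 0 : MvPolynomial (Fin (n + 1)) D) (Polynomial.C b) = C b
  rw [Polynomial.aeval_C]
  rfl

private theorem kg2_core {p n : ℕ} {D M E : Type} [CommRing D] [IsDomain D] [Algebra ℚ D]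
    [CommRing M] [Algebra ℚ M] [Algebra.FiniteType ℚ M]
    [Algebra (MvPolynomial (Fin (n + 1)) D) M] [IsScalarTower ℚ (MvPolynomial (Fin (n + 1)) D) M]
    [Field E] [Algebra (MvPolynomial (Fin (n + 1)) D) E]
    [IsFractionRing (MvPolynomial (Fin (n + 1)) D) E] [Algebra ℚ E]
    [IsScalarTower ℚ (MvPolynomial (Fin (n + 1)) D) E] {z : Fin p → D}
    (hz : Function.Injective (aeval z : MvPolynomial (Fin p) ℚ →ₐ[ℚ] D))
    {dd : Fin ((p + 1) + n) → Derivation ℤ E E} {w : D} (hdd : DerSys z dd) (hw : w ≠ 0)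
    (hwd : ∀ i (a : D), ∃ b : D, algebraMap (MvPolynomial (Fin (n + 1)) D) E (C w) *
      dd i (algebraMap (MvPolynomial (Fin (n + 1)) D) E (C a)) =
      algebraMap (MvPolynomial (Fin (n + 1)) D) E (C b))
    (hgr : ∀ V : Submodule ℚ E, V.FG →
        ∃ c : ℕ, ∀ k : ℕ, finrank ℚ (V ^ k : Submodule ℚ E) ≤ c * (k + 1) ^ ((p + 1) + n))
    (Q : MvPolynomial (Fin (n + 1)) D) (hQ : Q ≠ 0) [IsLocalization.Away (C w * Q) M] :
    ∃ (ρ : Polynomial D) (r : ℕ) (e : Fin r → MvPolynomial (Fin (n + 1)) D) (κ : Fin r → ℕ),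
      ρ ≠ 0 ∧ ∀ (G : MvPolynomial (Fin (n + 1)) D) (K : ℕ), ∃ (m N : ℕ) (a : Fin r → Polynomial D)
        (g : Fin n → MvPolynomial (Fin (n + 1)) D), K ≤ N + 1 ∧ (∀ k, κ k ≤ N + 1) ∧
        C w ^ (N + 1) * inTD n D ρ ^ m * (G * Q ^ (N + 1 - K)) =
          ∑ k, inTD n D (a k) * (e k * Q ^ (N + 1 - κ k)) + divD Q N g := by
  obtain ⟨j, dM, hj, hjd, hDer⟩ := exists_restrict (M := M) hdd hw hwd Q hQ
  obtain ⟨Γ, c, hW⟩ := weyl_of_growth (j.restrictScalars ℚ) hj hgr
    (fun i => algebraMap (MvPolynomial (Fin (n + 1)) D) M (uS z i)) dM hDer.comm hDer.dual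
  obtain ⟨r, e, ρ, hρ, hred⟩ := reduction_M hDer hW
  have hsurj : ∀ k : Fin r, ∃ (i : ℕ) (s : MvPolynomial (Fin (n + 1)) D),
      e k * algebraMap (MvPolynomial (Fin (n + 1)) D) M (C w * Q) ^ i =
        algebraMap (MvPolynomial (Fin (n + 1)) D) M s := fun k =>
    IsLocalization.Away.surj (C w * Q) (e k)
  choose κ s hs using hsurj
  obtain ⟨ρ', hρ', hρ0⟩ := exists_inTD n hz ρ
  have hCw : (C w : MvPolynomial (Fin (n + 1)) D) ≠ 0 := by
    intro h
    exact hw (C_injective _ _ (h.trans (C_0).symm))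
  have hH : (C w * Q : MvPolynomial (Fin (n + 1)) D) ≠ 0 := mul_ne_zero hCw hQ
  have hinj : Function.Injective (algebraMap (MvPolynomial (Fin (n + 1)) D) M) :=
    IsLocalization.injective M (powers_le_nonZeroDivisors_of_noZeroDivisors hH)
  refine ⟨ρ', r, s, κ, hρ0 hρ, fun G K => ?_⟩
  have hu : IsUnit (algebraMap (MvPolynomial (Fin (n + 1)) D) M (C w * Q) ^ K) :=
    (IsLocalization.Away.algebraMap_isUnit (C w * Q)).pow K
  obtain ⟨v, hv⟩ : ∃ v, algebraMap (MvPolynomial (Fin (n + 1)) D) M (C w * Q) ^ K * v =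
      algebraMap (MvPolynomial (Fin (n + 1)) D) M (G * C w ^ K) := by
    obtain ⟨u, hu'⟩ := hu
    refine ⟨↑u⁻¹ * algebraMap (MvPolynomial (Fin (n + 1)) D) M (G * C w ^ K), ?_⟩
    rw [← hu', ← mul_assoc, Units.mul_inv, one_mul]
  obtain ⟨m, a, g, h⟩ := hred v
  obtain ⟨N₀, hN⟩ := exact_M hDer w Q g
  obtain ⟨N, hNN, hNK, hNκ⟩ : ∃ N, N₀ ≤ N ∧ K ≤ N ∧ ∀ k, κ k ≤ N := by
    refine ⟨N₀ + K + ∑ k, κ k, by omega, by omega, fun k => ?_⟩
    have := Finset.single_le_sum (f := κ) (fun i _ => Nat.zero_le _) (Finset.mem_univ k)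
    omega
  obtain ⟨s', hs'⟩ := hN N hNN
  have ha : ∀ k, ∃ a' : Polynomial D, inTD n D a' = phiT n z (a k) := fun k => by
    obtain ⟨a', ha', _⟩ := exists_inTD n hz (a k)
    exact ⟨a', ha'⟩
  choose a' ha' using ha
  refine ⟨m, N, fun k => Polynomial.C (w ^ (N + 1 - κ k)) * a' k, fun l => C w * s' l,
    by omega, fun k => le_trans (hNκ k) (Nat.le_succ N), ?_⟩
  apply hinj
  rw [← kg2_divD]
  have h1 : algebraMap (MvPolynomial (Fin (n + 1)) D) M (C w * Q) ^ (N + 1) * v =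
      algebraMap (MvPolynomial (Fin (n + 1)) D) M (C w ^ (N + 1) * (G * Q ^ (N + 1 - K))) := by
    have h2 : N + 1 = (N + 1 - K) + K := by omega
    have h3 : (C w : MvPolynomial (Fin (n + 1)) D) ^ (N + 1) = C w ^ (N + 1 - K) * C w ^ K := by
      rw [← pow_add, ← h2]
    have h4 : algebraMap (MvPolynomial (Fin (n + 1)) D) M (C w * Q) ^ (N + 1) =
        algebraMap (MvPolynomial (Fin (n + 1)) D) M (C w * Q) ^ (N + 1 - K) *
          algebraMap (MvPolynomial (Fin (n + 1)) D) M (C w * Q) ^ K := by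
      rw [← pow_add, ← h2]
    rw [h4, mul_assoc, hv, ← map_pow, ← map_mul, h3, mul_pow]
    congr 1
    ring
  have h5 : ∀ k, algebraMap (MvPolynomial (Fin (n + 1)) D) M (C w * Q) ^ (N + 1) * e k =
      algebraMap (MvPolynomial (Fin (n + 1)) D) M
        (C w ^ (N + 1 - κ k) * (s k * Q ^ (N + 1 - κ k))) := by
    intro k
    have h2 : N + 1 = (N + 1 - κ k) + κ k := by
      have := hNκ k
      omega
    have h4 : algebraMap (MvPolynomial (Fin (n + 1)) D) M (C w * Q) ^ (N + 1) =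
        algebraMap (MvPolynomial (Fin (n + 1)) D) M (C w * Q) ^ (N + 1 - κ k) *
          algebraMap (MvPolynomial (Fin (n + 1)) D) M (C w * Q) ^ κ k := by
      rw [← pow_add, ← h2]
    rw [h4, mul_assoc, mul_comm _ (e k), hs k, ← map_pow, ← map_mul, mul_pow]
    congr 1
    ring
  have h6 := congrArg
    (fun x => algebraMap (MvPolynomial (Fin (n + 1)) D) M (C w * Q) ^ (N + 1) * x) h
  simp only [mul_add] at h6
  rw [hs', Finset.mul_sum] at h6
  have hL : algebraMap (MvPolynomial (Fin (n + 1)) D) M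
      (C w ^ (N + 1) * inTD n D ρ' ^ m * (G * Q ^ (N + 1 - K))) =
      algebraMap (MvPolynomial (Fin (n + 1)) D) M (C w * Q) ^ (N + 1) *
        (algebraMap (MvPolynomial (Fin (n + 1)) D) M (phiT n z ρ) ^ m * v) := by
    rw [mul_left_comm (algebraMap (MvPolynomial (Fin (n + 1)) D) M (C w * Q) ^ (N + 1)), h1, hρ']
    simp only [map_mul, map_pow]
    ring
  have hR : ∀ k, algebraMap (MvPolynomial (Fin (n + 1)) D) M
      (inTD n D (Polynomial.C (w ^ (N + 1 - κ k)) * a' k) * (s k * Q ^ (N + 1 - κ k))) =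
      algebraMap (MvPolynomial (Fin (n + 1)) D) M (C w * Q) ^ (N + 1) *
        (algebraMap (MvPolynomial (Fin (n + 1)) D) M (phiT n z (a k)) * e k) := by
    intro k
    rw [mul_left_comm (algebraMap (MvPolynomial (Fin (n + 1)) D) M (C w * Q) ^ (N + 1)), h5 k,
      map_mul (inTD n D), kg2_inTD_C, ha' k]
    simp only [map_mul, map_pow]
    ring
  rw [hL, h6, map_add, map_sum]
  congr 1
  exact Finset.sum_congr rfl fun k _ => (hR k).symm

/-- **Generic reduction.** Over a finitely generated domain `D` of parameters there is a finite family `e k / Q ^ κ k` such that, up to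
powers of one `ρ ∈ D[t]` and one `w ∈ D`, every `G / Q ^ K` is a combination of the family and an exact form.

Proof. Noether normalization (`exists_finite_inj_algHom_of_fg`): `z : Fin p → D` with `aeval z` injective and finite (`D` is not trivial).
`E = FractionRing S`, `S = MvPolynomial (Fin (n + 1)) D`; `dd`, `w` from `exists_field_setup`; `M = Localization.Away (C w * Q)`, `dM` from `exists_restrict`; `M` is of
finite type over `ℚ` (`IsLocalization.finiteType` for the localization away from an element, and `Algebra.FiniteType.trans`); `Γ` from `weyl_of_growth`; `reduction_M`.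
(Suggestion: prove a private version of this theorem with `E` and `M` as variables with all the instances as hypotheses, and then
instantiate it, to avoid problems with instances.)
Let `H = C w * Q`, `e k = algebraMap (s k) / H ^ κ k`, `ρ'` from `exists_inTD`. For `G`, `K` apply the reduction to `v = G * C w ^ K / H ^ K` and multiply by
`H ^ (N + 1)` for a large `N` (`exact_M`, `N + 1 ≥ K, κ k`): in `M`, hence in `S` (`algebraMap S M` is injective)
`ρ ^ m * G * C w ^ K * H ^ (N + 1 - K) = ∑ a_k * s_k * H ^ (N + 1 - κ k) + C w * divD Q N s'`, where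
`C w ^ K * H ^ (N + 1 - K) = C w ^ (N + 1) * Q ^ (N + 1 - K)`, `H ^ (N + 1 - κ k) = C w ^ (N + 1 - κ k) * Q ^ (N + 1 - κ k)` and
`C w * divD Q N s' = divD Q N (fun l => C w * s' l)` (`pderiv` of `C w` is `0`). So `a k` of the statement is `Polynomial.C (w ^ (N + 1 - κ k)) * a_k'` with
`inTD a_k' = phiT (a_k)`. -/
theorem family_reduction {n : ℕ} {D : Type} [CommRing D] [IsDomain D] [Algebra ℚ D] [Algebra.FiniteType ℚ D]
    (Q : MvPolynomial (Fin (n + 1)) D) (hQ : Q ≠ 0) :
    ∃ (w : D) (ρ : Polynomial D) (r : ℕ) (e : Fin r → MvPolynomial (Fin (n + 1)) D) (κ : Fin r → ℕ),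
      w ≠ 0 ∧ ρ ≠ 0 ∧ ∀ (G : MvPolynomial (Fin (n + 1)) D) (K : ℕ), ∃ (m N : ℕ) (a : Fin r → Polynomial D)
        (g : Fin n → MvPolynomial (Fin (n + 1)) D), K ≤ N + 1 ∧ (∀ k, κ k ≤ N + 1) ∧
        C w ^ (N + 1) * inTD n D ρ ^ m * (G * Q ^ (N + 1 - K)) =
          ∑ k, inTD n D (a k) * (e k * Q ^ (N + 1 - κ k)) + divD Q N g := by
  classical
  obtain ⟨p, g, hg, hgf⟩ := exists_finite_inj_algHom_of_fg ℚ D
  have hgz : g = aeval (g ∘ X) := aeval_unique g
  rw [hgz] at hg hgf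
  obtain ⟨dd, w, hdd, hw, hwd, hgr⟩ := exists_field_setup (n := n) (D := D)
    (E := FractionRing (MvPolynomial (Fin (n + 1)) D)) (z := g ∘ X) hg hgf
  have : Algebra.FiniteType ℚ (MvPolynomial (Fin (n + 1)) D) :=
    Algebra.FiniteType.trans (S := D) inferInstance inferInstance
  have : Algebra.FiniteType (MvPolynomial (Fin (n + 1)) D) (Localization.Away (C w * Q)) :=
    IsLocalization.finiteType_of_monoid_fg (Submonoid.powers (C w * Q)) _
  have : Algebra.FiniteType ℚ (Localization.Away (C w * Q)) :=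
    Algebra.FiniteType.trans (S := MvPolynomial (Fin (n + 1)) D) inferInstance inferInstance
  obtain ⟨ρ, r, e, κ, hρ, h⟩ := kg2_core (M := Localization.Away (C w * Q)) hg hdd hw hwd hgr Q hQ
  exact ⟨w, ρ, r, e, κ, hw, hρ, h⟩

end Pool.Agent.Lib.MP_bbe012_lc.PP
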