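import Pool.Agent.Lib.MP_bbe012_lc.PP.CodeDefs
import Pool.Agent.Lib.MP_bbe012_lc.TotalComp

/-!
# The verification is primitive recursive

See CheckComp.lean and TotalComp.lean for the style and for the lemmas `pr_mul`, `pr_append`, `pr_neg`, `pr_pow`,
`pr_der`, `pr_sumRange`, `pr_trunc`, `pr_var`, `pr_natv`, `pr_const1`, `pr_isZero`.
-/

namespace Pool.Agent.Lib.MP_bbe012_lc.PP

open Primrec

instance instPrimcodableZCertA : Primcodable (((ℕ × ℕ) × (ℕ × ℕ)) × ℕ) := inferInstance

instance instPrimcodableZCertB : Primcodable ((List (ℕ × ℕ) × List PCode) × (List PCode × List PCode)) :=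
  inferInstance

instance instPrimcodableZCertC : Primcodable (PCode × PCode) := inferInstance

instance instPrimcodableZCert : Primcodable ZCert :=
  @Primcodable.prod _ _ instPrimcodableZCertA (@Primcodable.prod _ _ instPrimcodableZCertB instPrimcodableZCertC)

instance instPrimcodableNCertA : Primcodable (QCode × List PCode) := inferInstance

instance instPrimcodableNCert : Primcodable NCert :=
  @Primcodable.prod _ _ instPrimcodableNCertA instPrimcodableZCertC

instance instPrimcodableCCertA : Primcodable (PCode × Bool) := inferInstance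

instance instPrimcodableCCert : Primcodable CCert :=
  @Primcodable.prod _ _ instPrimcodableCCertA (@Primcodable.prod _ _ instPrimcodableZCert instPrimcodableNCert)

instance instPrimcodableCoreA : Primcodable ((PCode × PCode) × QCode) := inferInstance

instance instPrimcodableCore : Primcodable Core :=
  @Primcodable.prod _ _ inferInstance instPrimcodableCoreA

instance instPrimcodableCoreCert : Primcodable (Core × CCert) :=
  @Primcodable.prod _ _ instPrimcodableCore instPrimcodableCCert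

section generic

variable {α : Type} [Primcodable α]

theorem pr_tC : Primrec fun _ : α => tC := Primrec.const _

theorem pr_constC {q : α → QCode} (hq : Primrec q) : Primrec fun a => constC (q a) := by
  exact pr_const1 hq

theorem pr_flC {l : α → ℕ} (hl : Primrec l) : Primrec fun a => flC (l a) := by
  exact pr_append (pr_var (succ.comp hl))
    (pr_neg (pr_mul (pr_var (succ.comp hl)) (pr_var (succ.comp hl))))

theorem pr_divfC {n K : α → ℕ} {Q : α → PCode} {g : α → List PCode} (hn : Primrec n) (hQ : Primrec Q)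
    (hK : Primrec K) (hg : Primrec g) : Primrec fun a => divfC (n a) (Q a) (K a) (g a) := by
  have hg1 : Primrec fun q : α × ℕ => (g q.1).getD q.2 [] := (list_getD []).comp (hg.comp fst) snd
  have hF : Primrec fun q : α × ℕ => pcMul (flC q.2) ((g q.1).getD q.2 []) :=
    pr_mul (pr_flC snd) hg1
  have hQ1 : Primrec fun q : α × ℕ => Q q.1 := hQ.comp fst
  have hl : Primrec fun q : α × ℕ => q.2 + 1 := succ.comp snd
  exact pr_sumRange (g := fun a l => pcMul (Q a) (pcDer (l + 1) (pcMul (flC l) ((g a).getD l []))) ++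
    pcNeg (pcMul (pcNat (K a)) (pcMul (pcMul (flC l) ((g a).getD l [])) (pcDer (l + 1) (Q a))))) hn
    (pr_append (pr_mul hQ1 (pr_der hl hF))
      (pr_neg (pr_mul (pr_natv (hK.comp fst)) (pr_mul hF (pr_der hl hQ1))))).to₂

theorem pr_divEC {n : α → ℕ} {E : α → List PCode} (hn : Primrec n) (hE : Primrec E) :
    Primrec fun a => divEC (n a) (E a) := by
  have hg1 : Primrec fun q : α × ℕ => (E q.1).getD q.2 [] := (list_getD []).comp (hE.comp fst) snd
  have hl : Primrec fun q : α × ℕ => q.2 + 1 := succ.comp snd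
  exact pr_sumRange (g := fun a l => pcDer (l + 1) (pcMul (flC l) ((E a).getD l []))) hn
    (pr_der hl (pr_mul (pr_flC snd) hg1)).to₂

/-- `Primrec.nat_rec'`. -/
theorem pr_thetaC {Q S : α → PCode} {K i : α → ℕ} (hQ : Primrec Q) (hK : Primrec K) (hS : Primrec S)
    (hi : Primrec i) : Primrec fun a => thetaC (Q a) (K a) (S a) (i a) := by
  have hQ1 : Primrec fun q : α × ℕ × PCode => Q q.1 := hQ.comp fst
  have hr : Primrec fun q : α × ℕ × PCode => q.2.2 := snd.comp snd
  have hKi : Primrec fun q : α × ℕ × PCode => K q.1 + q.2.1 :=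
    nat_add.comp (hK.comp fst) (fst.comp snd)
  have ht : Primrec fun _ : α × ℕ × PCode => tC := pr_tC
  have h0 : Primrec fun _ : α × ℕ × PCode => 0 := Primrec.const 0
  have hs : Primrec₂ fun (a : α) (p : ℕ × PCode) =>
      pcMul (Q a) (pcMul tC (pcDer 0 p.2)) ++
        pcNeg (pcMul (pcNat (K a + p.1)) (pcMul p.2 (pcMul tC (pcDer 0 (Q a))))) :=
    (pr_append (pr_mul hQ1 (pr_mul ht (pr_der h0 hr)))
      (pr_neg (pr_mul (pr_natv hKi) (pr_mul hr (pr_mul ht (pr_der h0 hQ1)))))).to₂
  exact nat_rec' hi hS hs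

theorem pr_qabs {c : α → QCode} (hc : Primrec c) : Primrec fun a => qabs (c a) := by
  have h1 : Primrec fun a => (c a).1.1 := fst.comp (fst.comp hc)
  have h2 : Primrec fun a => (c a).1.2 := snd.comp (fst.comp hc)
  have h3 : Primrec fun a => (c a).2 := snd.comp hc
  exact pair (pair (nat_add.comp (nat_sub.comp h1 h2) (nat_sub.comp h2 h1)) (const 0)) h3

theorem pr_qleP {c d : α → QCode} (hc : Primrec c) (hd : Primrec d) :
    PrimrecPred fun a => qleP (c a) (d a) := by
  have c1 : Primrec fun a => (c a).1.1 := fst.comp (fst.comp hc)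
  have c2 : Primrec fun a => (c a).1.2 := snd.comp (fst.comp hc)
  have c3 : Primrec fun a => (c a).2 + 1 := succ.comp (snd.comp hc)
  have d1 : Primrec fun a => (d a).1.1 := fst.comp (fst.comp hd)
  have d2 : Primrec fun a => (d a).1.2 := snd.comp (fst.comp hd)
  have d3 : Primrec fun a => (d a).2 + 1 := succ.comp (snd.comp hd)
  exact nat_le.comp (nat_add.comp (nat_mul.comp c1 d3) (nat_mul.comp d2 c3))
    (nat_add.comp (nat_mul.comp d1 c3) (nat_mul.comp c2 d3))

theorem pr_qltP {c d : α → QCode} (hc : Primrec c) (hd : Primrec d) :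
    PrimrecPred fun a => qltP (c a) (d a) := by
  have c1 : Primrec fun a => (c a).1.1 := fst.comp (fst.comp hc)
  have c2 : Primrec fun a => (c a).1.2 := snd.comp (fst.comp hc)
  have c3 : Primrec fun a => (c a).2 + 1 := succ.comp (snd.comp hc)
  have d1 : Primrec fun a => (d a).1.1 := fst.comp (fst.comp hd)
  have d2 : Primrec fun a => (d a).1.2 := snd.comp (fst.comp hd)
  have d3 : Primrec fun a => (d a).2 + 1 := succ.comp (snd.comp hd)
  exact nat_lt.comp (nat_add.comp (nat_mul.comp c1 d3) (nat_mul.comp d2 c3))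
    (nat_add.comp (nat_mul.comp d1 c3) (nat_mul.comp c2 d3))

theorem pr_normC {p : α → PCode} (hp : Primrec p) : Primrec fun a => normC (p a) := by
  exact list_foldr (f := p) (g := fun _ => qnat 0) (h := fun _ x => qadd (qabs x.1.1) x.2) hp
    (const (qnat 0))
    (primrec_qadd.comp (pr_qabs (fst.comp (fst.comp snd))) (snd.comp snd)).to₂

theorem pr_okBase {n : α → ℕ} {Q V : α → PCode} {τ : α → QCode} (hn : Primrec n) (hQ : Primrec Q)
    (hV : Primrec V) (hτ : Primrec τ) : PrimrecPred fun a => okBase (n a) (Q a) (V a) (τ a) := by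
  have h1 : PrimrecPred fun a => pcIsZero (n a + 1) (Q a ++ pcNeg (pcNat 1 ++ pcMul tC (V a))) :=
    pr_isZero (succ.comp hn) (pr_append hQ (pr_neg (pr_append (pr_nat 1) (pr_mul pr_tC hV))))
  have h2 : PrimrecPred fun a => qleP (qabs (τ a)) (qnat 1) := pr_qleP (pr_qabs hτ) (const (qnat 1))
  have h3 : PrimrecPred fun a => qleP (qmul (qabs (τ a)) (normC (V a))) ((1, 0), 1) :=
    pr_qleP (primrec_qmul.comp (pr_qabs hτ) (pr_normC hV)) (const ((1, 0), 1))
  exact h1.and (h2.and h3)

theorem pr_sC {Q G U : α → PCode} {τ : α → QCode} {j : α → ℕ} (hQ : Primrec Q) (hG : Primrec G)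
    (hτ : Primrec τ) (hj : Primrec j) (hU : Primrec U) :
    Primrec fun a => sC (Q a) (G a) (τ a) (j a) (U a) := by
  exact pr_append (pr_mul hG (pr_pow hQ hj))
    (pr_mul (pr_append pr_tC (pr_neg (pr_constC hτ))) hU)

/-- Proof: `zOK` is an existential over a range (`PrimrecRel.exists_mem_list` with `List.range`, see `primrecPred_answer` in
CheckComp.lean) and a `foldr`. -/
theorem pr_zOK {ρ L : α → ℕ} {z : α → List (ℕ × ℕ)} (hρ : Primrec ρ) (hL : Primrec L) (hz : Primrec z) :
    PrimrecPred fun a => zOK (ρ a) (L a) (z a) := by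
  have hz1 : Primrec fun q : ℕ × α => (z q.2).getD q.1 (0, 0) :=
    (list_getD (0, 0)).comp (hz.comp snd) fst
  have hz2 : Primrec fun q : α × ℕ × ℕ => (z q.1).getD q.2.1 (0, 0) :=
    (list_getD (0, 0)).comp (hz.comp fst) (fst.comp snd)
  have h1 : PrimrecRel fun (i : ℕ) (a : α) => ¬ (((z a).getD i (0, 0)).1 = ((z a).getD i (0, 0)).2) := by
    have h : PrimrecPred fun q : ℕ × α => ((z q.2).getD q.1 (0, 0)).1 = ((z q.2).getD q.1 (0, 0)).2 :=
      Primrec.eq.comp (fst.comp hz1) (snd.comp hz1)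
    exact h.not
  have h2 : PrimrecPred fun a => ∃ i ∈ List.range (ρ a + 1),
      ¬ (((z a).getD i (0, 0)).1 = ((z a).getD i (0, 0)).2) :=
    h1.exists_mem_list.comp (list_range.comp (succ.comp hρ)) Primrec.id
  have h3 : Primrec fun a => (List.range (ρ a + 1)).foldr
      (fun i acc => ((z a).getD i (0, 0)).1 + ((z a).getD i (0, 0)).2 + acc) 0 :=
    list_foldr (f := fun a => List.range (ρ a + 1)) (g := fun _ => 0)
      (h := fun a x => ((z a).getD x.1 (0, 0)).1 + ((z a).getD x.1 (0, 0)).2 + x.2)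
      (list_range.comp (succ.comp hρ)) (const 0)
      (nat_add.comp (nat_add.comp (fst.comp hz2) (snd.comp hz2)) (snd.comp snd)).to₂
  refine (h2.and (nat_le.comp h3 hL)).of_eq fun a => ?_
  unfold zOK
  refine and_congr_left fun _ => ?_
  simp only [List.mem_range, ne_eq]

theorem pr_exactC {n K κ K' ρ : α → ℕ} {Q S : α → PCode} {z : α → List (ℕ × ℕ)} {c g : α → List PCode}
    (hn : Primrec n) (hQ : Primrec Q) (hS : Primrec S) (hK : Primrec K) (hκ : Primrec κ)
    (hK' : Primrec K') (hρ : Primrec ρ) (hz : Primrec z) (hc : Primrec c) (hg : Primrec g) :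
    Primrec fun a => exactC (n a) (Q a) (S a) (K a) (κ a) (K' a) (ρ a) (z a) (c a) (g a) := by
  have hz1 : Primrec fun q : α × ℕ => (((z q.1).getD q.2 (0, 0), 0) : QCode) :=
    pair ((list_getD (0, 0)).comp (hz.comp fst) snd) (const 0)
  have hc1 : Primrec fun q : α × ℕ => (c q.1).getD q.2 [] := (list_getD []).comp (hc.comp fst) snd
  have hA : Primrec fun q : α × ℕ => constC ((z q.1).getD q.2 (0, 0), 0) ++
      pcMul tC (pcTrunc 1 ((c q.1).getD q.2 [])) :=
    pr_append (pr_constC hz1) (pr_mul pr_tC (pr_trunc (const 1) hc1))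
  have hT : Primrec fun q : α × ℕ => thetaC (Q q.1) (K q.1) (S q.1) q.2 :=
    pr_thetaC (hQ.comp fst) (hK.comp fst) (hS.comp fst) snd
  have hE : Primrec fun q : α × ℕ => K' q.1 + 1 - (K q.1 + q.2) :=
    nat_sub.comp (succ.comp (hK'.comp fst)) (nat_add.comp (hK.comp fst) snd)
  have hsum : Primrec fun a => pcSumRange (ρ a + 1) fun i =>
      pcMul (pcMul (constC ((z a).getD i (0, 0), 0) ++ pcMul tC (pcTrunc 1 ((c a).getD i [])))
        (thetaC (Q a) (K a) (S a) i)) (pcPow (Q a) (K' a + 1 - (K a + i))) :=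
    pr_sumRange (g := fun a i =>
      pcMul (pcMul (constC ((z a).getD i (0, 0), 0) ++ pcMul tC (pcTrunc 1 ((c a).getD i [])))
        (thetaC (Q a) (K a) (S a) i)) (pcPow (Q a) (K' a + 1 - (K a + i)))) (succ.comp hρ)
      (pr_mul (pr_mul hA hT) (pr_pow (hQ.comp fst) hE)).to₂
  exact pr_append (pr_mul (pr_pow pr_tC hκ) hsum) (pr_neg (pr_divfC hn hQ hK' hg))

theorem pr_initC {n K L : α → ℕ} {Q S H : α → PCode} {E : α → List PCode} (hn : Primrec n)
    (hQ : Primrec Q) (hS : Primrec S) (hK : Primrec K) (hL : Primrec L) (hE : Primrec E)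
    (hH : Primrec H) : Primrec fun a => initC (n a) (Q a) (S a) (K a) (L a) (E a) (H a) := by
  exact pr_append hS (pr_neg (pr_append (pr_mul (pr_pow hQ hK) (pr_divEC hn hE))
    (pr_mul (pr_pow pr_tC (succ.comp hL)) hH)))

end generic

/-- The verification is primitive recursive. Compose the above with the projections (name them one by one). The powers
`2 ^ K` are `Primrec` (`Primrec.nat_rec'`, or search for `nat_pow`). -/
theorem primrecPred_checkC : PrimrecPred fun y : Core × CCert => checkC y.1 y.2 := by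
  have hn : Primrec fun y : Core × CCert => y.1.1.1 := fst.comp (fst.comp fst)
  have hK : Primrec fun y : Core × CCert => y.1.1.2 := snd.comp (fst.comp fst)
  have hQ : Primrec fun y : Core × CCert => y.1.2.1.1 := fst.comp (fst.comp (snd.comp fst))
  have hG : Primrec fun y : Core × CCert => y.1.2.1.2 := snd.comp (fst.comp (snd.comp fst))
  have hτ : Primrec fun y : Core × CCert => y.1.2.2 := snd.comp (snd.comp fst)
  have hV : Primrec fun y : Core × CCert => y.2.1.1 := fst.comp (fst.comp snd)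
  have hb : Primrec fun y : Core × CCert => y.2.1.2 := snd.comp (fst.comp snd)
  have hZ : Primrec fun y : Core × CCert => y.2.2.1 := fst.comp (snd.comp snd)
  have hN : Primrec fun y : Core × CCert => y.2.2.2 := snd.comp (snd.comp snd)
  have z1 : Primrec fun y : Core × CCert => y.2.2.1.1 := fst.comp hZ
  have z2 : Primrec fun y : Core × CCert => y.2.2.1.2 := snd.comp hZ
  have zκ : Primrec fun y : Core × CCert => y.2.2.1.1.1.1.1 := fst.comp (fst.comp (fst.comp z1))
  have zK' : Primrec fun y : Core × CCert => y.2.2.1.1.1.1.2 := snd.comp (fst.comp (fst.comp z1))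
  have zρ : Primrec fun y : Core × CCert => y.2.2.1.1.1.2.1 := fst.comp (snd.comp (fst.comp z1))
  have zL : Primrec fun y : Core × CCert => y.2.2.1.1.1.2.2 := snd.comp (snd.comp (fst.comp z1))
  have zj : Primrec fun y : Core × CCert => y.2.2.1.1.2 := snd.comp z1
  have zz : Primrec fun y : Core × CCert => y.2.2.1.2.1.1.1 := fst.comp (fst.comp (fst.comp z2))
  have zc : Primrec fun y : Core × CCert => y.2.2.1.2.1.1.2 := snd.comp (fst.comp (fst.comp z2))
  have zg : Primrec fun y : Core × CCert => y.2.2.1.2.1.2.1 := fst.comp (snd.comp (fst.comp z2))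
  have zE : Primrec fun y : Core × CCert => y.2.2.1.2.1.2.2 := snd.comp (snd.comp (fst.comp z2))
  have zH : Primrec fun y : Core × CCert => y.2.2.1.2.2.1 := fst.comp (snd.comp z2)
  have zU : Primrec fun y : Core × CCert => y.2.2.1.2.2.2 := snd.comp (snd.comp z2)
  have na : Primrec fun y : Core × CCert => y.2.2.2.1.1 := fst.comp (fst.comp hN)
  have nE : Primrec fun y : Core × CCert => y.2.2.2.1.2 := snd.comp (fst.comp hN)
  have nR : Primrec fun y : Core × CCert => y.2.2.2.2.1 := fst.comp (snd.comp hN)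
  have nU : Primrec fun y : Core × CCert => y.2.2.2.2.2 := snd.comp (snd.comp hN)
  have hS : Primrec fun y : Core × CCert =>
      sC y.1.2.1.1 y.1.2.1.2 y.1.2.2 y.2.2.1.1.2 y.2.2.1.2.2.2 := pr_sC hQ hG hτ zj zU
  have hKj : Primrec fun y : Core × CCert => y.1.1.2 + y.2.2.1.1.2 := nat_add.comp hK zj
  have hZ1 : PrimrecPred fun y : Core × CCert =>
      y.1.1.2 + y.2.2.1.1.2 + y.2.2.1.1.1.2.1 ≤ y.2.2.1.1.1.1.2 + 1 :=
    nat_le.comp (nat_add.comp hKj zρ) (succ.comp zK')
  have hZ2 : PrimrecPred fun y : Core × CCert =>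
      zOK y.2.2.1.1.1.2.1 y.2.2.1.1.1.2.2 y.2.2.1.2.1.1.1 := pr_zOK zρ zL zz
  have hZ3 : PrimrecPred fun y : Core × CCert =>
      pcIsZero (y.1.1.1 + 1) (exactC y.1.1.1 y.1.2.1.1
        (sC y.1.2.1.1 y.1.2.1.2 y.1.2.2 y.2.2.1.1.2 y.2.2.1.2.2.2) (y.1.1.2 + y.2.2.1.1.2)
        y.2.2.1.1.1.1.1 y.2.2.1.1.1.1.2 y.2.2.1.1.1.2.1 y.2.2.1.2.1.1.1 y.2.2.1.2.1.1.2
        y.2.2.1.2.1.2.1) :=
    pr_isZero (succ.comp hn) (pr_exactC hn hQ hS hKj zκ zK' zρ zz zc zg)
  have hZ4 : PrimrecPred fun y : Core × CCert =>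
      pcIsZero (y.1.1.1 + 1) (initC y.1.1.1 y.1.2.1.1
        (sC y.1.2.1.1 y.1.2.1.2 y.1.2.2 y.2.2.1.1.2 y.2.2.1.2.2.2) (y.1.1.2 + y.2.2.1.1.2)
        y.2.2.1.1.1.2.2 y.2.2.1.2.1.2.2 y.2.2.1.2.2.1) :=
    pr_isZero (succ.comp hn) (pr_initC hn hQ hS hKj zL zE zH)
  have hZZ : PrimrecPred fun y : Core × CCert =>
      checkZ y.1.1.1 y.1.2.1.1 y.1.2.1.2 y.1.1.2 y.1.2.2 y.2.2.1 :=
    hZ1.and (hZ2.and (hZ3.and hZ4))
  have hpow : Primrec fun y : Core × CCert => 2 ^ y.1.1.2 := by
    have h : Primrec₂ fun (_ : Core × CCert) (p : ℕ × ℕ) => p.2 * 2 :=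
      (nat_mul.comp (snd.comp snd) (const 2)).to₂
    refine (nat_rec' hK (const 1) h).of_eq fun y => ?_
    have hk : ∀ k : ℕ, (Nat.rec (motive := fun _ => ℕ) 1 (fun _ r => r * 2) k : ℕ) = 2 ^ k := by
      intro k
      induction k with
      | zero => rfl
      | succ k ih => rw [pow_succ, ← ih]
    exact hk _
  have hN1 : PrimrecPred fun y : Core × CCert =>
      pcIsZero (y.1.1.1 + 1) (y.1.2.1.2 ++ pcNeg (pcMul (pcPow y.1.2.1.1 y.1.1.2)
        (constC y.2.2.2.1.1 ++ divEC y.1.1.1 y.2.2.2.1.2) ++ y.2.2.2.2.1 ++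
        pcMul (tC ++ pcNeg (constC y.1.2.2)) y.2.2.2.2.2)) :=
    pr_isZero (succ.comp hn) (pr_append hG (pr_neg (pr_append (pr_append
      (pr_mul (pr_pow hQ hK) (pr_append (pr_constC na) (pr_divEC hn nE))) nR)
      (pr_mul (pr_append pr_tC (pr_neg (pr_constC hτ))) nU))))
  have hN2 : PrimrecPred fun y : Core × CCert =>
      qltP (qmul (qnat (2 ^ y.1.1.2)) (normC y.2.2.2.2.1)) (qabs y.2.2.2.1.1) :=
    pr_qltP (primrec_qmul.comp (primrec_qnat.comp hpow) (pr_normC nR)) (pr_qabs na)
  have hNN : PrimrecPred fun y : Core × CCert =>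
      checkN y.1.1.1 y.1.2.1.1 y.1.2.1.2 y.1.1.2 y.1.2.2 y.2.2.2 := hN1.and hN2
  have hok : PrimrecPred fun y : Core × CCert => okBase y.1.1.1 y.1.2.1.1 y.2.1.1 y.1.2.2 :=
    pr_okBase hn hQ hV hτ
  have hb1 : PrimrecPred fun y : Core × CCert => y.2.1.2 = true := Primrec.eq.comp hb (const true)
  have hb2 : PrimrecPred fun y : Core × CCert => y.2.1.2 = false := Primrec.eq.comp hb (const false)
  exact hok.and ((hb1.and hZZ).or (hb2.and hNN))

end Pool.Agent.Lib.MP_bbe012_lc.PP
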