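import Mathlib

/-!
# Power series, Taylor shifts and iterated derivatives of vectors of polynomials

Part A of the stream PP (values of G-functions).  `Y : Fin m → ℚ⟦X⟧` is a vector of power series
with `T * Y' = B * Y` (`T`, `B` polynomial); a vector `v` of polynomials is an approximation of
`(v 0) * Y`; `iter T B v s` is `T ^ s * ∇ ^ s v / s!` with `∇ v = v' - T⁻¹ * B * v`.
-/

namespace Pool.Agent.Lib.MP_bbe012_lc.PP

open Polynomial

/-- The Taylor expansion of a polynomial at `τ`, as a power series. -/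
noncomputable def sh (τ : ℚ) : ℚ[X] →+* PowerSeries ℚ :=
  (Polynomial.coeToPowerSeries.ringHom).comp (Polynomial.compRingHom (X + C τ))

theorem sh_apply (τ : ℚ) (p : ℚ[X]) : sh τ p = ((p.comp (X + C τ) : ℚ[X]) : PowerSeries ℚ) := rfl

theorem constantCoeff_sh (τ : ℚ) (p : ℚ[X]) : PowerSeries.constantCoeff (sh τ p) = p.eval τ := by
  rw [sh_apply, ← PowerSeries.coeff_zero_eq_constantCoeff_apply, Polynomial.coeff_coe,
    Polynomial.coeff_zero_eq_eval_zero, Polynomial.eval_comp]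
  simp

theorem derivative_sh (τ : ℚ) (p : ℚ[X]) :
    PowerSeries.derivative ℚ (sh τ p) = sh τ (derivative p) := by
  rw [sh_apply, sh_apply, PowerSeries.derivative_coe, Polynomial.derivative_comp]
  simp

theorem sh_C (τ a : ℚ) : sh τ (C a) = PowerSeries.C a := by
  rw [sh_apply, Polynomial.C_comp, Polynomial.coe_C]

theorem sh_injective (τ : ℚ) : Function.Injective (sh τ) := by
  intro p q h
  rw [sh_apply, sh_apply, Polynomial.coe_inj] at h
  have h2 := congrArg (fun f : ℚ[X] => f.comp (X - C τ)) h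
  simpa [Polynomial.comp_assoc] using h2

theorem X_pow_dvd_sh (τ : ℚ) (k : ℕ) (p : ℚ[X]) :
    (PowerSeries.X : PowerSeries ℚ) ^ k ∣ sh τ p ↔ (X - C τ) ^ k ∣ p := by
  rw [sh_apply, PowerSeries.X_pow_dvd_iff]
  have h1 : (∀ i < k, PowerSeries.coeff i ((p.comp (X + C τ) : ℚ[X]) : PowerSeries ℚ) = 0) ↔
      X ^ k ∣ p.comp (X + C τ) := by
    rw [Polynomial.X_pow_dvd_iff]
    simp only [Polynomial.coeff_coe]
  rw [h1]
  constructor
  · rintro ⟨q, hq⟩
    refine ⟨q.comp (X - C τ), ?_⟩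
    have h2 := congrArg (fun f : ℚ[X] => f.comp (X - C τ)) hq
    simpa [Polynomial.comp_assoc] using h2
  · rintro ⟨q, rfl⟩
    refine ⟨q.comp (X + C τ), ?_⟩
    simp [Polynomial.mul_comp]

/-- One step: from `T ^ s * ∇ ^ s v / s!` to `T ^ (s + 1) * ∇ ^ (s + 1) v / (s + 1)!`. -/
noncomputable def step {m : ℕ} (T : ℚ[X]) (B : Fin m → Fin m → ℚ[X]) (s : ℕ)
    (v : Fin m → ℚ[X]) : Fin m → ℚ[X] :=
  fun i => C ((s + 1 : ℚ)⁻¹) *
    (T * derivative (v i) - ∑ j, B i j * v j - (s : ℚ[X]) * (derivative T * v i))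

/-- `iter T B v s = T ^ s * ∇ ^ s v / s!`. -/
noncomputable def iter {m : ℕ} (T : ℚ[X]) (B : Fin m → Fin m → ℚ[X]) (v : Fin m → ℚ[X]) :
    ℕ → Fin m → ℚ[X]
  | 0 => v
  | s + 1 => step T B s (iter T B v s)

@[simp] theorem iter_zero {m : ℕ} (T : ℚ[X]) (B : Fin m → Fin m → ℚ[X]) (v : Fin m → ℚ[X]) :
    iter T B v 0 = v := rfl

/-- The defining relation without denominators. -/
theorem iter_succ {m : ℕ} (T : ℚ[X]) (B : Fin m → Fin m → ℚ[X]) (v : Fin m → ℚ[X]) (s : ℕ)
    (i : Fin m) :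
    ((s : ℚ[X]) + 1) * iter T B v (s + 1) i + (s : ℚ[X]) * (derivative T * iter T B v s i) =
      T * derivative (iter T B v s i) - ∑ j, B i j * iter T B v s j := by
  have h1 : iter T B v (s + 1) i = C ((s + 1 : ℚ)⁻¹) *
    (T * derivative (iter T B v s i) - ∑ j, B i j * iter T B v s j -
      (s : ℚ[X]) * (derivative T * iter T B v s i)) := rfl
  have h2 : ((s : ℚ[X]) + 1) * C ((s + 1 : ℚ)⁻¹) = 1 := by
    have h3 : (s + 1 : ℚ) ≠ 0 := by positivity
    have h4 : ((s : ℚ[X]) + 1) = C (s + 1 : ℚ) := by simp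
    rw [h4, ← C_mul, mul_inv_cancel₀ h3, C_1]
  rw [h1, ← mul_assoc, h2, one_mul]
  ring

/-- The same relation for power series at `τ`. -/
theorem sh_iter_succ {m : ℕ} (T : ℚ[X]) (B : Fin m → Fin m → ℚ[X]) (v : Fin m → ℚ[X]) (τ : ℚ)
    (s : ℕ) (i : Fin m) :
    ((s : PowerSeries ℚ) + 1) * sh τ (iter T B v (s + 1) i) +
        (s : PowerSeries ℚ) * (sh τ (derivative T) * sh τ (iter T B v s i)) =
      sh τ T * PowerSeries.derivative ℚ (sh τ (iter T B v s i)) -
        ∑ j, sh τ (B i j) * sh τ (iter T B v s j) := by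
  have h := congrArg (sh τ) (iter_succ T B v s i)
  rw [map_add, map_mul, map_mul, map_mul, map_sub, map_mul, map_sum, map_add, map_one,
    map_natCast] at h
  rw [derivative_sh, h]
  congr 1
  exact Finset.sum_congr rfl fun j _ => by rw [map_mul]

/-- Linear independence over `ℚ[X]` of a vector of power series. -/
def Indep {m : ℕ} (Y : Fin m → PowerSeries ℚ) : Prop :=
  ∀ a : Fin m → ℚ[X], ∑ i, (a i : PowerSeries ℚ) * Y i = 0 → a = 0

/-- Growth and denominators of the coefficients of a family of G-functions. -/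
structure GData {m : ℕ} (Y : Fin m → PowerSeries ℚ) (C : ℕ) (d : ℕ → ℕ) : Prop where
  one_le : 1 ≤ C
  growth : ∀ i k, |PowerSeries.coeff k (Y i)| ≤ (C : ℚ) ^ (k + 1)
  dpos : ∀ K, 0 < d K
  dle : ∀ K, d K ≤ C ^ (K + 1)
  den : ∀ K i k, k ≤ K → ∃ z : ℤ, (d K : ℚ) * PowerSeries.coeff k (Y i) = z

/-- The value at the rational number `τ` of a power series with rational coefficients. -/
noncomputable def ev (τ : ℚ) (f : PowerSeries ℚ) : ℝ :=
  ∑' k, ((PowerSeries.coeff k f : ℚ) : ℝ) * (τ : ℝ) ^ k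

end Pool.Agent.Lib.MP_bbe012_lc.PP
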