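import Pool.Agent.Lib.MP_bbe012_lc.PP.ExactF
import Pool.Agent.Lib.MP_bbe012_lc.PP.PhiL

/-!
# A basis of the space of perturbative integrals, and its differential system
-/

namespace Pool.Agent.Lib.MP_bbe012_lc.PP

open MvPolynomial

/-- Any `r + 1` expansions are dependent over `ℚ[t]`.

Proof: `exact_comb` (`Q ≠ 0` since `atZero n Q = 1`), apply `Phi n Q _ (K + 1)`, `Phi_divf`, `Phi_sum`, `Phi_inT_mul`,
`Phi_shift` (with `K + 1 = κ i + (K + 1 - κ i)`). -/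
theorem Phi_dependent {n : ℕ} {Q : P1 n} (hQ : atZero n Q = 1) :
    ∃ r : ℕ, ∀ (w : Fin (r + 1) → P1 n) (κ : Fin (r + 1) → ℕ),
      ∃ c : Fin (r + 1) → Polynomial ℚ, c ≠ 0 ∧
        ∑ i, (c i : PowerSeries ℚ) * Phi n Q (w i) (κ i) = 0 := by
  have hQ0 : Q ≠ 0 := by
    rintro rfl
    rw [map_zero] at hQ
    exact zero_ne_one hQ
  obtain ⟨r, hr⟩ := exact_comb n Q hQ0
  refine ⟨r, fun w κ => ?_⟩
  obtain ⟨c, hc, K, hκ, g, hg⟩ := hr w κ
  refine ⟨c, hc, ?_⟩
  have h1 : Phi n Q (∑ i, inT n (c i) * w i * Q ^ (K + 1 - κ i)) (K + 1) =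
      Phi n Q (divf n Q K g) (K + 1) := congrArg (fun P => Phi n Q P (K + 1)) hg
  rw [Phi_divf hQ, Phi_sum] at h1
  rw [← h1]
  refine Finset.sum_congr rfl fun i _ => ?_
  have h2 : K + 1 = κ i + (K + 1 - κ i) := by
    have := hκ i
    omega
  rw [mul_assoc, Phi_inT_mul]
  congr 1
  conv_rhs => rw [h2]
  have h3 : κ i + (K + 1 - κ i) - κ i = K + 1 - κ i := by omega
  rw [h3]
  exact (Phi_shift hQ (w i) (κ i) (K + 1 - κ i)).symm

/-- A basis of the space spanned by the expansions, containing the function `1`.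

Proof. The family of length one `A 0 = 1`, `κ 0 = 0` is independent (`Phi_one`). By `Phi_dependent` the lengths of
independent families with first member `(1, 0)` are bounded (a subfamily of an independent family is independent);
take one of maximal length `r + 1` (`Nat.findGreatest` or strong induction). For any `G, K`, the extended family
(`Fin.snoc`) is dependent: `∑ a_i Y_i + c * Phi G K = 0` with `(a, c) ≠ 0`; `c ≠ 0` by independence. -/
theorem exists_basis {n : ℕ} {Q : P1 n} (hQ : atZero n Q = 1) :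
    ∃ (r : ℕ) (A : Fin (r + 1) → P1 n) (κ : Fin (r + 1) → ℕ), A 0 = 1 ∧ κ 0 = 0 ∧
      Indep (fun i => Phi n Q (A i) (κ i)) ∧
      ∀ (G : P1 n) (K : ℕ), ∃ c : Polynomial ℚ, c ≠ 0 ∧ ∃ a : Fin (r + 1) → Polynomial ℚ,
        (c : PowerSeries ℚ) * Phi n Q G K = ∑ i, (a i : PowerSeries ℚ) * Phi n Q (A i) (κ i) := by
  classical
  obtain ⟨r₀, hr₀⟩ := Phi_dependent hQ
  have h0 : ∃ (A : Fin (0 + 1) → P1 n) (κ : Fin (0 + 1) → ℕ), A 0 = 1 ∧ κ 0 = 0 ∧
      Indep (fun i => Phi n Q (A i) (κ i)) := by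
    refine ⟨fun _ => 1, fun _ => 0, rfl, rfl, ?_⟩
    intro a ha
    funext i
    have hi : i = 0 := Fin.ext (by have := i.2; omega)
    have h1 : ∑ i : Fin (0 + 1), (a i : PowerSeries ℚ) * Phi n Q 1 0 = (a 0 : PowerSeries ℚ) := by
      rw [Fin.sum_univ_one, Phi_one, mul_one]
    rw [h1] at ha
    rw [hi]
    exact Polynomial.coe_eq_zero_iff.1 ha
  obtain ⟨r, ⟨A, κ, hA, hκ, hI⟩, hmax⟩ : ∃ r, (∃ (A : Fin (r + 1) → P1 n) (κ : Fin (r + 1) → ℕ),
      A 0 = 1 ∧ κ 0 = 0 ∧ Indep (fun i => Phi n Q (A i) (κ i))) ∧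
      ¬ ∃ (A : Fin (r + 1 + 1) → P1 n) (κ : Fin (r + 1 + 1) → ℕ),
        A 0 = 1 ∧ κ 0 = 0 ∧ Indep (fun i => Phi n Q (A i) (κ i)) := by
    by_contra hcon
    have hall : ∀ r, ∃ (A : Fin (r + 1) → P1 n) (κ : Fin (r + 1) → ℕ),
        A 0 = 1 ∧ κ 0 = 0 ∧ Indep (fun i => Phi n Q (A i) (κ i)) := by
      intro r
      induction r with
      | zero => exact h0
      | succ r ih =>
        by_contra hn
        exact hcon ⟨r, ih, hn⟩
    obtain ⟨A, κ, _, _, hI⟩ := hall r₀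
    obtain ⟨c, hc, hc'⟩ := hr₀ A κ
    exact hc (hI c hc')
  refine ⟨r, A, κ, hA, hκ, hI, ?_⟩
  intro G K
  have hn : ¬ Indep (fun i : Fin (r + 1 + 1) =>
      Phi n Q ((Fin.snoc A G : Fin (r + 1 + 1) → P1 n) i)
        ((Fin.snoc κ K : Fin (r + 1 + 1) → ℕ) i)) := by
    intro hI'
    refine hmax ⟨Fin.snoc A G, Fin.snoc κ K, ?_, ?_, hI'⟩
    · have h1 : (0 : Fin (r + 1 + 1)) = Fin.castSucc 0 := rfl
      rw [h1, Fin.snoc_castSucc (α := fun _ => P1 n)]
      exact hA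
    · have h1 : (0 : Fin (r + 1 + 1)) = Fin.castSucc 0 := rfl
      rw [h1, Fin.snoc_castSucc (α := fun _ => ℕ)]
      exact hκ
  unfold Indep at hn
  push Not at hn
  obtain ⟨a, ha, ha0⟩ := hn
  rw [Fin.sum_univ_castSucc] at ha
  simp only [Fin.snoc_castSucc, Fin.snoc_last] at ha
  have hc : a (Fin.last (r + 1)) ≠ 0 := by
    intro hc
    rw [hc, Polynomial.coe_zero, zero_mul, add_zero] at ha
    have h1 := hI (fun i => a (Fin.castSucc i)) ha
    apply ha0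
    funext i
    refine Fin.lastCases ?_ (fun j => ?_) i
    · exact hc
    · exact congrFun h1 j
  refine ⟨a (Fin.last (r + 1)), hc, fun i => - a (Fin.castSucc i), ?_⟩
  have h1 : ∑ i : Fin (r + 1), ((- a (Fin.castSucc i) : Polynomial ℚ) : PowerSeries ℚ) *
      Phi n Q (A i) (κ i) = - ∑ i : Fin (r + 1), (a (Fin.castSucc i) : PowerSeries ℚ) *
      Phi n Q (A i) (κ i) := by
    rw [← Finset.sum_neg_distrib]
    refine Finset.sum_congr rfl fun i _ => ?_
    rw [Polynomial.coe_neg, neg_mul]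
  rw [h1]
  exact eq_neg_of_add_eq_zero_right ha

/-- The differential system. Proof: `derivative_Phi` and the spanning property for each `i`; common denominator
`T = ∏ i, c i`. -/
theorem exists_system {n r : ℕ} {Q : P1 n} (hQ : atZero n Q = 1) (A : Fin (r + 1) → P1 n)
    (κ : Fin (r + 1) → ℕ)
    (hspan : ∀ (G : P1 n) (K : ℕ), ∃ c : Polynomial ℚ, c ≠ 0 ∧ ∃ a : Fin (r + 1) → Polynomial ℚ,
        (c : PowerSeries ℚ) * Phi n Q G K = ∑ i, (a i : PowerSeries ℚ) * Phi n Q (A i) (κ i)) :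
    ∃ T : Polynomial ℚ, T ≠ 0 ∧ ∃ B : Fin (r + 1) → Fin (r + 1) → Polynomial ℚ, ∀ i,
      (T : PowerSeries ℚ) * PowerSeries.derivative ℚ (Phi n Q (A i) (κ i)) =
        ∑ j, (B i j : PowerSeries ℚ) * Phi n Q (A j) (κ j) := by
  classical
  choose c hc a ha using fun i => hspan
    (Q * pderiv 0 (A i) - (κ i : P1 n) * (A i * pderiv 0 Q)) (κ i + 1)
  refine ⟨∏ i, c i, Finset.prod_ne_zero_iff.2 fun i _ => hc i,
    fun i j => (∏ l ∈ Finset.univ.erase i, c l) * a i j, fun i => ?_⟩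
  rw [derivative_Phi hQ, ← Finset.mul_prod_erase _ _ (Finset.mem_univ i), mul_comm (c i),
    Polynomial.coe_mul, mul_assoc, ha, Finset.mul_sum]
  refine Finset.sum_congr rfl fun j _ => ?_
  rw [Polynomial.coe_mul, mul_assoc]

end Pool.Agent.Lib.MP_bbe012_lc.PP
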