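import Pool.Agent.Lib.MP_bbe012_lc.PP.Sem

/-!
# Certificates, at the level of polynomials
-/

namespace Pool.Agent.Lib.MP_bbe012_lc.PP

open MvPolynomial MeasureTheory Set

/-- The integral of `G / Q ^ K` over the cube, at `t = τ`. -/
noncomputable def JJ (n : ℕ) (Q G : P1 n) (K : ℕ) (τ : ℚ) : ℝ :=
  ∫ x in Icc (0 : Fin n → ℝ) 1, aeval (pt n τ x) G / aeval (pt n τ x) Q ^ K

/-- A certificate that the integral of `S / Q ^ K` vanishes identically: a differential equation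
`X ^ κ ∑ c_i θ^i F = 0` (with `c_i(0) = z_i` integers, not all zero, `∑ |z_i| ≤ L`), whose exactness is an
identity of polynomials, and vanishing of the coefficients of index `≤ L`. -/
structure IsZeroCert (n : ℕ) (Q S : P1 n) (K : ℕ) (κ K' ρ L : ℕ) (z : ℕ → ℤ)
    (c : ℕ → Polynomial ℚ) (g E : Fin n → P1 n) (H : P1 n) : Prop where
  le : K + ρ ≤ K' + 1
  ne : ∃ i < ρ + 1, z i ≠ 0
  sum : ∑ i ∈ Finset.range (ρ + 1), (z i).natAbs ≤ L
  exact : X 0 ^ κ * ∑ i ∈ Finset.range (ρ + 1),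
      (C (z i : ℚ) + X 0 * inT n (c i)) * thetaNum n Q K S i * Q ^ (K' + 1 - (K + i)) =
    divf n Q K' g
  init : S = Q ^ K * ∑ l, pderiv l.succ (fl n l * E l) + X 0 ^ (L + 1) * H

/-- A certificate that the integral of `G / Q ^ K` at `t = τ` is not zero. -/
structure IsNeCert (n : ℕ) (Q G : P1 n) (K : ℕ) (τ : ℚ) (a s : ℚ) (E : Fin n → P1 n) (R U : P1 n) :
    Prop where
  eq : G = Q ^ K * (C a + ∑ l, pderiv l.succ (fl n l * E l)) + R + (X 0 - C τ) * U
  small : ∀ x ∈ Icc (0 : Fin n → ℝ) 1, |aeval (pt n τ x) R| ≤ (s : ℝ)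
  lt : 2 ^ K * s < |a|

end Pool.Agent.Lib.MP_bbe012_lc.PP
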