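import Pool.Agent.Lib.MP_bbe012_lc.PP.RedDefs

/-!
# The integrals for which the algorithm terminates
-/

namespace Pool.Agent.Lib.MP_bbe012_lc.PP

open MvPolynomial

/-- The integer polynomials `Q(t, x_1, ..., x_n)` (with `t = x_0`) of total degree at most `d`, with coefficients of absolute
value at most `H`, such that `Q(0, x) = 1`. -/
def Family (n d H : ℕ) : Set (MvPolynomial (Fin (n + 1)) ℤ) :=
  {Q | Q.totalDegree ≤ d ∧ (∀ m, |coeff m Q| ≤ H) ∧
    aeval (Fin.cons 0 X : Fin (n + 1) → MvPolynomial (Fin n) ℤ) Q = 1}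

/-- The polynomial `Q(τ, x_1, ..., x_n)`. -/
noncomputable def specialise (n : ℕ) (τ : ℚ) (Q : MvPolynomial (Fin (n + 1)) ℤ) : MvPolynomial (Fin n) ℚ :=
  aeval (Fin.cons (C τ) X : Fin (n + 1) → MvPolynomial (Fin n) ℚ) Q

/-- All products in `E` have at most `δ` factors, all factors are integrals `∫ P / D` over cubes of dimension at most `n`, and
`D` divides a power of some `Q(τ, x)`, where `Q` has degree at most `d` and coefficients of absolute value at most `H`,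
and `Q(0, x) = 1`. -/
def InClass (n d H δ : ℕ) (τ : ℚ) (E : Ex) : Prop :=
  ∀ L ∈ E, L.length ≤ δ ∧ ∀ I ∈ L, I.1 ≤ n ∧
    ∃ Q ∈ Family I.1 d H, ∃ k : ℕ, pcPoly I.1 I.2.2 ∣ specialise I.1 τ Q ^ k

/-- `Q(τ, x)` for `Q ∈ P1 n`. -/
noncomputable def spQ (n : ℕ) (τ : ℚ) : P1 n →ₐ[ℚ] MvPolynomial (Fin n) ℚ :=
  aeval (Fin.cons (C τ) X : Fin (n + 1) → MvPolynomial (Fin n) ℚ)

end Pool.Agent.Lib.MP_bbe012_lc.PP
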