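import Pool.Agent.Lib.MP_bbe012_lc.PP.CertDefs
import Pool.Agent.Lib.MP_bbe012_lc.DerCode

/-!
# Codes of the certificates

The polynomials in `t = x_0` and `x_1, ..., x_n` (elements of `P1 n`) are coded by `PCode` (`pcPoly (n + 1)`).
-/

namespace Pool.Agent.Lib.MP_bbe012_lc.PP

/-- The variable `t`. -/
def tC : PCode := pcVar 0

/-- A rational constant. -/
def constC (c : QCode) : PCode := [(c, [])]

/-- The code of `fl n l`. -/
def flC (l : ℕ) : PCode := pcVar (l + 1) ++ pcNeg (pcMul (pcVar (l + 1)) (pcVar (l + 1)))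

/-- The code of `divf`. -/
def divfC (n : ℕ) (Q : PCode) (K : ℕ) (g : List PCode) : PCode :=
  pcSumRange n fun l => pcMul Q (pcDer (l + 1) (pcMul (flC l) (g.getD l []))) ++
    pcNeg (pcMul (pcNat K) (pcMul (pcMul (flC l) (g.getD l [])) (pcDer (l + 1) Q)))

/-- The code of `∑ l, pderiv l.succ (fl n l * E l)`. -/
def divEC (n : ℕ) (E : List PCode) : PCode :=
  pcSumRange n fun l => pcDer (l + 1) (pcMul (flC l) (E.getD l []))

/-- The code of `thetaNum`. -/
def thetaC (Q : PCode) (K : ℕ) (S : PCode) (i : ℕ) : PCode :=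
  i.rec S fun i r => pcMul Q (pcMul tC (pcDer 0 r)) ++
    pcNeg (pcMul (pcNat (K + i)) (pcMul r (pcMul tC (pcDer 0 Q))))

/-- `qval c ≤ qval d`. -/
def qleP (c d : QCode) : Prop :=
  c.1.1 * (d.2 + 1) + d.1.2 * (c.2 + 1) ≤ d.1.1 * (c.2 + 1) + c.1.2 * (d.2 + 1)

/-- `qval c < qval d`. -/
def qltP (c d : QCode) : Prop :=
  c.1.1 * (d.2 + 1) + d.1.2 * (c.2 + 1) < d.1.1 * (c.2 + 1) + c.1.2 * (d.2 + 1)

instance (c d : QCode) : Decidable (qleP c d) := by unfold qleP; infer_instance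

instance (c d : QCode) : Decidable (qltP c d) := by unfold qltP; infer_instance

/-- The code of the absolute value. -/
def qabs (c : QCode) : QCode := (((c.1.1 - c.1.2) + (c.1.2 - c.1.1), 0), c.2)

/-- The sum of the absolute values of the coefficients of a code. -/
def normC (p : PCode) : QCode := p.foldr (fun t acc => qadd (qabs t.1) acc) (qnat 0)

/-- `Q = 1 + t V`, `|τ| ≤ 1` and `|τ|` times the sum of the absolute values of the coefficients of `V` is at
most `1 / 2`. -/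
def okBase (n : ℕ) (Q V : PCode) (τ : QCode) : Prop :=
  pcIsZero (n + 1) (Q ++ pcNeg (pcNat 1 ++ pcMul tC V)) ∧ qleP (qabs τ) (qnat 1) ∧
    qleP (qmul (qabs τ) (normC V)) ((1, 0), 1)

instance (n : ℕ) (Q V : PCode) (τ : QCode) : Decidable (okBase n Q V τ) := by
  unfold okBase; infer_instance

/-- Certificate for zero: `((((κ, K'), (ρ, L)), j), ((z, c), (g, E)), (H, U))`. -/
abbrev ZCert := (((ℕ × ℕ) × (ℕ × ℕ)) × ℕ) × ((List (ℕ × ℕ) × List PCode) × (List PCode × List PCode)) ×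
  (PCode × PCode)

/-- The code of `G * Q ^ j + (X 0 - C τ) * U`. -/
def sC (Q G : PCode) (τ : QCode) (j : ℕ) (U : PCode) : PCode :=
  pcMul G (pcPow Q j) ++ pcMul (tC ++ pcNeg (constC τ)) U

/-- Difference of the two sides of `IsZeroCert.exact`. -/
def exactC (n : ℕ) (Q S : PCode) (K κ K' ρ : ℕ) (z : List (ℕ × ℕ)) (c g : List PCode) : PCode :=
  pcMul (pcPow tC κ) (pcSumRange (ρ + 1) fun i =>
    pcMul (pcMul (constC (z.getD i (0, 0), 0) ++ pcMul tC (pcTrunc 1 (c.getD i []))) (thetaC Q K S i))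
      (pcPow Q (K' + 1 - (K + i)))) ++ pcNeg (divfC n Q K' g)

/-- Difference of the two sides of `IsZeroCert.init`. -/
def initC (n : ℕ) (Q S : PCode) (K L : ℕ) (E : List PCode) (H : PCode) : PCode :=
  S ++ pcNeg (pcMul (pcPow Q K) (divEC n E) ++ pcMul (pcPow tC (L + 1)) H)

/-- The list `z` codes integers, not all zero, with sum of absolute values at most `L`. -/
def zOK (ρ L : ℕ) (z : List (ℕ × ℕ)) : Prop :=
  (∃ i < ρ + 1, (z.getD i (0, 0)).1 ≠ (z.getD i (0, 0)).2) ∧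
    (List.range (ρ + 1)).foldr (fun i acc => (z.getD i (0, 0)).1 + (z.getD i (0, 0)).2 + acc) 0 ≤ L

instance (ρ L : ℕ) (z : List (ℕ × ℕ)) : Decidable (zOK ρ L z) := by unfold zOK; infer_instance

/-- Verification of a certificate for zero of the integral of `G / Q ^ K` at `t = τ`. -/
def checkZ (n : ℕ) (Q G : PCode) (K : ℕ) (τ : QCode) (x : ZCert) : Prop :=
  K + x.1.2 + x.1.1.2.1 ≤ x.1.1.1.2 + 1 ∧ zOK x.1.1.2.1 x.1.1.2.2 x.2.1.1.1 ∧
    pcIsZero (n + 1) (exactC n Q (sC Q G τ x.1.2 x.2.2.2) (K + x.1.2) x.1.1.1.1 x.1.1.1.2 x.1.1.2.1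
      x.2.1.1.1 x.2.1.1.2 x.2.1.2.1) ∧
    pcIsZero (n + 1) (initC n Q (sC Q G τ x.1.2 x.2.2.2) (K + x.1.2) x.1.1.2.2 x.2.1.2.2 x.2.2.1)

instance (n : ℕ) (Q G : PCode) (K : ℕ) (τ : QCode) (x : ZCert) : Decidable (checkZ n Q G K τ x) := by
  unfold checkZ; infer_instance

/-- Certificate for non zero: `((a, E), (R, U))`. -/
abbrev NCert := (QCode × List PCode) × (PCode × PCode)

/-- Verification of a certificate for the integral of `G / Q ^ K` at `t = τ` to be non zero. -/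
def checkN (n : ℕ) (Q G : PCode) (K : ℕ) (τ : QCode) (x : NCert) : Prop :=
  pcIsZero (n + 1) (G ++ pcNeg (pcMul (pcPow Q K) (constC x.1.1 ++ divEC n x.1.2) ++ x.2.1 ++
    pcMul (tC ++ pcNeg (constC τ)) x.2.2)) ∧ qltP (qmul (qnat (2 ^ K)) (normC x.2.1)) (qabs x.1.1)

instance (n : ℕ) (Q G : PCode) (K : ℕ) (τ : QCode) (x : NCert) : Decidable (checkN n Q G K τ x) := by
  unfold checkN; infer_instance

/-- Input of the verification: the integral of `G / Q ^ K` at `t = τ` in `n` variables. -/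
abbrev Core := (ℕ × ℕ) × (PCode × PCode) × QCode

/-- Certificate: `V`, the answer and certificates for zero and for non zero. -/
abbrev CCert := (PCode × Bool) × (ZCert × NCert)

/-- Verification of the certificate: `((n, K), (Q, G), τ)`. -/
def checkC (x : Core) (c : CCert) : Prop :=
  okBase x.1.1 x.2.1.1 c.1.1 x.2.2 ∧
    ((c.1.2 = true ∧ checkZ x.1.1 x.2.1.1 x.2.1.2 x.1.2 x.2.2 c.2.1) ∨
      (c.1.2 = false ∧ checkN x.1.1 x.2.1.1 x.2.1.2 x.1.2 x.2.2 c.2.2))

instance (x : Core) (c : CCert) : Decidable (checkC x c) := by unfold checkC; infer_instance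

end Pool.Agent.Lib.MP_bbe012_lc.PP
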