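import Pool.Agent.Lib.MP_bbe012_lc.PP.Rem

/-!
# Denominators and sizes
-/

namespace Pool.Agent.Lib.MP_bbe012_lc.PP

open Polynomial

/-- Sum of the absolute values of the coefficients. -/
noncomputable def l1 (p : ℤ[X]) : ℤ := ∑ k ∈ Finset.range (p.natDegree + 1), |p.coeff k|

private theorem est_l1_eq (p : ℤ[X]) (N : ℕ) (h : p.natDegree < N) :
    l1 p = ∑ k ∈ Finset.range N, |p.coeff k| := by
  unfold l1
  refine Finset.sum_subset (fun k hk => ?_) fun k _ hk => ?_
  · rw [Finset.mem_range] at hk ⊢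
    omega
  · rw [Finset.mem_range] at hk
    rw [coeff_eq_zero_of_natDegree_lt (by omega), abs_zero]

private theorem est_l1_le (p : ℤ[X]) (N : ℕ) : ∑ k ∈ Finset.range N, |p.coeff k| ≤ l1 p := by
  rw [est_l1_eq p (max N (p.natDegree + 1)) (lt_of_lt_of_le (Nat.lt_succ_self _) (le_max_right _ _))]
  refine Finset.sum_le_sum_of_subset_of_nonneg (fun k hk => ?_) fun k _ _ => abs_nonneg _
  rw [Finset.mem_range] at hk ⊢
  exact lt_of_lt_of_le hk (le_max_left _ _)

private theorem est_l1_add (p q : ℤ[X]) : l1 (p + q) ≤ l1 p + l1 q := by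
  unfold l1
  rw [← l1]
  calc l1 (p + q) = ∑ k ∈ Finset.range ((p + q).natDegree + 1), |(p + q).coeff k| := rfl
    _ ≤ ∑ k ∈ Finset.range ((p + q).natDegree + 1), (|p.coeff k| + |q.coeff k|) := by
        refine Finset.sum_le_sum fun k _ => ?_
        rw [coeff_add]
        exact abs_add_le _ _
    _ = (∑ k ∈ Finset.range ((p + q).natDegree + 1), |p.coeff k|) +
        ∑ k ∈ Finset.range ((p + q).natDegree + 1), |q.coeff k| := Finset.sum_add_distrib
    _ ≤ l1 p + l1 q := add_le_add (est_l1_le p _) (est_l1_le q _)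

private theorem est_l1_sum (s : Finset ℕ) (f : ℕ → ℤ[X]) :
    l1 (∑ i ∈ s, f i) ≤ ∑ i ∈ s, l1 (f i) := by
  classical
  induction s using Finset.induction_on with
  | empty =>
    rw [Finset.sum_empty, Finset.sum_empty]
    unfold l1
    simp
  | insert a s ha ih =>
    rw [Finset.sum_insert ha, Finset.sum_insert ha]
    exact (est_l1_add _ _).trans (add_le_add le_rfl ih)

private theorem est_l1_mono (n : ℕ) (a : ℤ) (q : ℤ[X]) :
    l1 (C a * (X ^ n * q)) ≤ |a| * l1 q := by
  have h1 : ∀ N, ∑ k ∈ Finset.range N, |(C a * (X ^ n * q)).coeff k| ≤ |a| * l1 q := by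
    intro N
    have h2 : ∑ k ∈ Finset.range N, |(C a * (X ^ n * q)).coeff k| ≤
        ∑ k ∈ Finset.range (n + N), |(C a * (X ^ n * q)).coeff k| :=
      Finset.sum_le_sum_of_subset_of_nonneg (fun k hk => by
        rw [Finset.mem_range] at hk ⊢
        omega) fun k _ _ => abs_nonneg _
    refine h2.trans ?_
    rw [Finset.sum_range_add]
    have h3 : ∑ x ∈ Finset.range n, |(C a * (X ^ n * q)).coeff x| = 0 := by
      refine Finset.sum_eq_zero fun x hx => ?_
      rw [Finset.mem_range] at hx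
      rw [coeff_C_mul, coeff_X_pow_mul', if_neg (by omega), mul_zero, abs_zero]
    have h4 : ∑ x ∈ Finset.range N, |(C a * (X ^ n * q)).coeff (n + x)| =
        |a| * ∑ x ∈ Finset.range N, |q.coeff x| := by
      rw [Finset.mul_sum]
      refine Finset.sum_congr rfl fun x _ => ?_
      rw [coeff_C_mul, coeff_X_pow_mul', if_pos (by omega), abs_mul]
      congr 3
      omega
    rw [h3, h4, zero_add]
    exact mul_le_mul_of_nonneg_left (est_l1_le q N) (abs_nonneg a)
  exact h1 _

/-- Proof: `coeff_mul`, triangle inequality. -/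
theorem l1_mul_le (p q : ℤ[X]) : l1 (p * q) ≤ l1 p * l1 q := by
  have h1 : p * q = ∑ i ∈ Finset.range (p.natDegree + 1), C (p.coeff i) * (X ^ i * q) := by
    conv_lhs => rw [p.as_sum_range_C_mul_X_pow]
    rw [Finset.sum_mul]
    exact Finset.sum_congr rfl fun i _ => mul_assoc _ _ _
  calc l1 (p * q) = l1 (∑ i ∈ Finset.range (p.natDegree + 1), C (p.coeff i) * (X ^ i * q)) := by
        rw [← h1]
    _ ≤ ∑ i ∈ Finset.range (p.natDegree + 1), l1 (C (p.coeff i) * (X ^ i * q)) :=
        est_l1_sum _ _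
    _ ≤ ∑ i ∈ Finset.range (p.natDegree + 1), |p.coeff i| * l1 q :=
        Finset.sum_le_sum fun i _ => est_l1_mono i _ q
    _ = l1 p * l1 q := by
        rw [← Finset.sum_mul]
        rfl

/-- Proof: `hasseDeriv_coeff`, `Nat.choose_le_two_pow`/`Nat.choose` bounds:
coefficients of `hasseDeriv s q` are `((k + s).choose s) * q.coeff (k + s)`, at most `2 ^ D * |q.coeff (k + s)|`. -/
theorem l1_hasseDeriv_le (q : ℤ[X]) (s D : ℕ) (hD : q.natDegree ≤ D) :
    l1 (hasseDeriv s q) ≤ 2 ^ D * l1 q := by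
  have h1 : ∀ k, |(hasseDeriv s q).coeff k| ≤ 2 ^ D * |q.coeff (s + k)| := by
    intro k
    rw [hasseDeriv_coeff, abs_mul, add_comm k s]
    by_cases hk : s + k ≤ D
    · refine mul_le_mul_of_nonneg_right ?_ (abs_nonneg _)
      have h2 : (s + k).choose s ≤ 2 ^ D :=
        (Nat.choose_le_two_pow _ _).trans (Nat.pow_le_pow_right (by norm_num) hk)
      rw [Nat.abs_cast]
      exact_mod_cast h2
    · rw [coeff_eq_zero_of_natDegree_lt (by omega), abs_zero, mul_zero, mul_zero]
  calc l1 (hasseDeriv s q) ≤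
      ∑ k ∈ Finset.range ((hasseDeriv s q).natDegree + 1), 2 ^ D * |q.coeff (s + k)| :=
        Finset.sum_le_sum fun k _ => h1 k
    _ = 2 ^ D * ∑ k ∈ Finset.range ((hasseDeriv s q).natDegree + 1), |q.coeff (s + k)| := by
        rw [Finset.mul_sum]
    _ ≤ 2 ^ D * l1 q := by
        refine mul_le_mul_of_nonneg_left ?_ (by positivity)
        refine le_trans ?_ (est_l1_le q (s + ((hasseDeriv s q).natDegree + 1)))
        rw [Finset.sum_range_add (fun k => |q.coeff k|) s ((hasseDeriv s q).natDegree + 1)]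
        have h5 : 0 ≤ ∑ x ∈ Finset.range s, |q.coeff x| :=
          Finset.sum_nonneg fun k _ => abs_nonneg _
        linarith

/-- The coefficients of a product of a polynomial with a power series with coefficients of at most
exponential growth. -/
theorem abs_coeff_mul_le (p : ℤ[X]) (f : PowerSeries ℚ) (C : ℕ) (hC : 1 ≤ C)
    (hf : ∀ k, |PowerSeries.coeff k f| ≤ (C : ℚ) ^ (k + 1)) (k : ℕ) :
    |PowerSeries.coeff k (((p.map (Int.castRingHom ℚ) : ℚ[X]) : PowerSeries ℚ) * f)| ≤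
      (l1 p : ℚ) * (C : ℚ) ^ (k + 1) := by
  have hC' : (1 : ℚ) ≤ (C : ℚ) := by exact_mod_cast hC
  rw [PowerSeries.coeff_mul]
  refine (Finset.abs_sum_le_sum_abs _ _).trans ?_
  have h1 : ∀ x ∈ Finset.HasAntidiagonal.antidiagonal k,
      |PowerSeries.coeff x.1 ((p.map (Int.castRingHom ℚ) : ℚ[X]) : PowerSeries ℚ) *
        PowerSeries.coeff x.2 f| ≤ ((|p.coeff x.1| : ℤ) : ℚ) * (C : ℚ) ^ (k + 1) := by
    intro x hx
    rw [Finset.HasAntidiagonal.mem_antidiagonal] at hx
    rw [abs_mul, Polynomial.coeff_coe, coeff_map, Int.cast_abs]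
    refine mul_le_mul le_rfl ((hf x.2).trans (pow_le_pow_right₀ hC' (by omega))) (abs_nonneg _)
      (abs_nonneg _)
  refine (Finset.sum_le_sum h1).trans ?_
  rw [← Finset.sum_mul]
  refine mul_le_mul_of_nonneg_right ?_ (by positivity)
  rw [Finset.Nat.sum_antidiagonal_eq_sum_range_succ (fun a _ => ((|p.coeff a| : ℤ) : ℚ)) k]
  have h2 := est_l1_le p (k + 1)
  have h3 : ((∑ i ∈ Finset.range (k + 1), |p.coeff i| : ℤ) : ℚ) ≤ (l1 p : ℚ) := by
    exact_mod_cast h2
  rw [Int.cast_sum] at h3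
  exact h3

/-- Denominators of the iterated derivatives: if `D + s (e + 1) < K`, then `d K` is a common
denominator of the coefficients of `iter T B v s i`.

Proof. Put `N = D + s * e < K - s`. The coefficients of index `k > N` of `iter T B v s i` vanish
(`natDegree_iter`). For `k ≤ N` (so `k < K - s`), by `rem_dvd` the coefficient of index `k` of
`iter T B v s i` is that of `(iter T B v s 0) * Y i = (TZ ^ s * hasseDeriv s q) * Y i` (`iter_zero_comp`), and it is an
integral combination of the coefficients of index `≤ k ≤ K` of `Y i` (`PowerSeries.coeff_mul`,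
`Polynomial.map_mul`, `hasseDeriv` commutes with `map`). -/
theorem den_iter {r : ℕ} (TZ q : ℤ[X]) (B : Fin (r + 1) → Fin (r + 1) → ℚ[X])
    (Y : Fin (r + 1) → PowerSeries ℚ) {C : ℕ} {d : ℕ → ℕ} (hY : GData Y C d)
    (hB0 : ∀ j, B 0 j = 0)
    (hode : ∀ i, ((TZ.map (Int.castRingHom ℚ) : ℚ[X]) : PowerSeries ℚ) *
      PowerSeries.derivative ℚ (Y i) = ∑ j, (B i j : PowerSeries ℚ) * Y j)
    (v : Fin (r + 1) → ℚ[X]) (hv0 : v 0 = q.map (Int.castRingHom ℚ)) (K e D : ℕ)
    (hv : ∀ i, (PowerSeries.X : PowerSeries ℚ) ^ K ∣ (v 0 : PowerSeries ℚ) * Y i - (v i : PowerSeries ℚ))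
    (hT : (TZ.map (Int.castRingHom ℚ)).natDegree ≤ e) (hB : ∀ i j, (B i j).natDegree ≤ e)
    (hvD : ∀ i, (v i).natDegree ≤ D) (s : ℕ) (hs : D + s * (e + 1) < K) (i : Fin (r + 1)) (k : ℕ) :
    ∃ z : ℤ, (d K : ℚ) * (iter (TZ.map (Int.castRingHom ℚ)) B v s i).coeff k = z := by
  by_cases hk : k ≤ D + s * e
  · have hks : k < K - s := by
      have h0 : s * (e + 1) = s * e + s := by ring
      omega
    have h1 := rem_dvd (TZ.map (Int.castRingHom ℚ)) B Y hB0 hode v K hv s i
    rw [PowerSeries.X_pow_dvd_iff] at h1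
    have h2 := h1 k hks
    rw [map_sub, Polynomial.coeff_coe, sub_eq_zero] at h2
    have h3 : iter (TZ.map (Int.castRingHom ℚ)) B v s 0 =
        (TZ ^ s * hasseDeriv s q).map (Int.castRingHom ℚ) := by
      rw [iter_zero_comp (TZ.map (Int.castRingHom ℚ)) (q.map (Int.castRingHom ℚ)) B hB0 v hv0 s,
        Polynomial.map_mul, Polynomial.map_pow]
      congr 1
      ext m
      rw [hasseDeriv_coeff, coeff_map, coeff_map, hasseDeriv_coeff, map_mul, map_natCast]
    rw [← h2, h3, PowerSeries.coeff_mul, Finset.mul_sum]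
    have h4 : ∑ x ∈ Finset.HasAntidiagonal.antidiagonal k, (d K : ℚ) *
        (PowerSeries.coeff x.1 (((TZ ^ s * hasseDeriv s q).map (Int.castRingHom ℚ) : ℚ[X]) :
          PowerSeries ℚ) * PowerSeries.coeff x.2 (Y i)) ∈ (Int.castRingHom ℚ).range := by
      refine Subring.sum_mem _ fun x hx => ?_
      rw [Finset.HasAntidiagonal.mem_antidiagonal] at hx
      obtain ⟨z, hz⟩ := hY.den K i x.2 (by omega)
      rw [mul_left_comm, hz, Polynomial.coeff_coe, coeff_map]
      exact Subring.mul_mem _ ⟨_, rfl⟩ ⟨z, rfl⟩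
    obtain ⟨z, hz⟩ := h4
    exact ⟨z, hz.symm⟩
  · refine ⟨0, ?_⟩
    rw [coeff_eq_zero_of_natDegree_lt (lt_of_le_of_lt (natDegree_iter _ B v e D hT hB hvD s i)
      (by omega)), mul_zero, Int.cast_zero]

end Pool.Agent.Lib.MP_bbe012_lc.PP
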