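import Pool.Agent.Lib.MP_bbe012_lc.PP.SDefs
import Pool.Agent.Lib.MP_bbe012_lc.PP.RedA
import Pool.Agent.Lib.MP_bbe012_lc.PP.ClassDefs

/-!
# Stage 2: the universal family
-/

namespace Pool.Agent.Lib.MP_bbe012_lc.PP

open MvPolynomial

private theorem fA_bidx {D : Type} [CommRing D] {n : ℕ} (δ : ℕ) (i : Fin δ)
    {Q : MvPolynomial (Fin (n + 1)) D} (hQ : atZD n D Q = 1) :
    atZD (δ * n) D (rename (bidx n δ i) Q) = 1 := by
  have h1 : (atZD (δ * n) D).comp (rename (bidx n δ i)) =
      (rename (fun l => finProdFinEquiv (i, l))).comp (atZD n D) := by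
    refine MvPolynomial.algHom_ext fun j => ?_
    rw [AlgHom.comp_apply, AlgHom.comp_apply, rename_X]
    unfold atZD
    rw [aeval_X, aeval_X]
    refine Fin.cases ?_ (fun l => ?_) j
    · show (0 : MvPolynomial (Fin (δ * n)) D) = rename _ 0
      rw [map_zero]
    · show (X (finProdFinEquiv (i, l)) : MvPolynomial (Fin (δ * n)) D) = rename _ (X l)
      rw [rename_X]
  have h2 := congrArg (fun g => g Q) h1
  simp only [AlgHom.comp_apply] at h2
  rw [h2, hQ, map_one]

private theorem fA_coeff0 {n : ℕ} (Q : MvPolynomial (Fin (n + 1)) ℤ) (u : Fin n →₀ ℕ) :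
    coeff u (aeval (Fin.cons 0 X : Fin (n + 1) → MvPolynomial (Fin n) ℤ) Q) =
      coeff (Finsupp.cons 0 u) Q := by
  rw [← finSuccEquiv_coeff_coeff]
  congr 1
  rw [Polynomial.coeff_zero_eq_eval_zero]
  have h1 : ((aeval (Fin.cons 0 X : Fin (n + 1) → MvPolynomial (Fin n) ℤ) :
      MvPolynomial (Fin (n + 1)) ℤ →ₐ[ℤ] MvPolynomial (Fin n) ℤ) :
      MvPolynomial (Fin (n + 1)) ℤ →+* MvPolynomial (Fin n) ℤ) =
      (Polynomial.evalRingHom 0).comp ((finSuccEquiv ℤ n).toRingEquiv :
          MvPolynomial (Fin (n + 1)) ℤ →+* Polynomial (MvPolynomial (Fin n) ℤ)) := by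
    refine MvPolynomial.ringHom_ext (fun r => ?_) (fun j => ?_)
    · rw [eq_intCast C r, map_intCast, map_intCast]
    · show aeval (Fin.cons 0 X : Fin (n + 1) → MvPolynomial (Fin n) ℤ) (X j) =
        Polynomial.eval 0 (finSuccEquiv ℤ n (X j))
      rw [aeval_X]
      refine Fin.cases ?_ (fun l => ?_) j
      · rw [finSuccEquiv_X_zero, Polynomial.eval_X]
        rfl
      · rw [finSuccEquiv_X_succ, Polynomial.eval_C]
        rfl
  exact DFunLike.congr_fun h1 Q

private theorem fA_coeff {n : ℕ} {Q : MvPolynomial (Fin (n + 1)) ℤ}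
    (hQ : aeval (Fin.cons 0 X : Fin (n + 1) → MvPolynomial (Fin n) ℤ) Q = 1)
    {m : Fin (n + 1) →₀ ℕ} (hm : m 0 = 0) : coeff m 1 = coeff m Q := by
  have h1 : m = Finsupp.cons 0 (Finsupp.tail m) := by
    rw [← hm, Finsupp.cons_tail]
  rw [h1, ← fA_coeff0 Q, hQ, ← fA_coeff0 1, map_one]

/-- The universal family of the products over blocks of variables.

Proof. Let `S` be the finite set of the exponents `m : Fin (n + 1) →₀ ℕ` with `m 0 ≠ 0` and `m i ≤ d` for all `i`, `q = S.card`, `μ : Fin q → (Fin (n + 1) →₀ ℕ)` an injective enumeration of `S`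
(`Finset.equivFin`), `U₀ = 1 + ∑ k, monomial (μ k) (X k)` and `U = ∏ i, rename (bidx n δ i) U₀`. For `Q ∈ Family n d H` put `y k = coeff (μ k) Q`: then `map (eval y) U₀ = Q`, since a coefficient of `Q` with
`m 0 = 0` is the coefficient of `Q(0, x) = 1` (`coeff (cons 0 u) Q = coeff u (aeval (Fin.cons 0 X) Q)`), and the exponents `m` in the support of `Q` satisfy `m i ≤ d`
(`le_totalDegree`). `spP y` is a ring homomorphism, and `spP y (rename f F) = rename f (spP y F)` (`map_rename`); `natAbs` of the coefficients: `|coeff m Q| ≤ H`. `atZD` of `U₀` is `1`: `atZD (monomial m a) = 0` if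
`m 0 ≠ 0`; for `U` see the proof of `atZero_bidx` (RedA.lean): `atZD (rename (bidx n δ i) F) = rename (fun l => finProdFinEquiv (i, l)) (atZD F)`. -/
theorem exists_universal (n d δ : ℕ) :
    ∃ (q : ℕ) (U : PF q (δ * n)), atZD (δ * n) (MvPolynomial (Fin q) ℤ) U = 1 ∧
      ∀ H : ℕ, ∀ Q ∈ Family n d H, ∃ y : Fin q → ℤ, (∀ i, (y i).natAbs ≤ H) ∧
        spP y U = ∏ i : Fin δ, rename (bidx n δ i) (map (Int.castRingHom ℚ) Q) := by
  classical
  obtain ⟨S, hS⟩ : ∃ S : Finset (Fin (n + 1) →₀ ℕ), ∀ m, m ∈ S ↔ m 0 ≠ 0 ∧ ∀ i, m i ≤ d := by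
    refine ⟨(Finset.univ.finsupp fun _ => Finset.range (d + 1)).filter (fun m => m 0 ≠ 0),
      fun m => ?_⟩
    rw [Finset.mem_filter, Finset.mem_finsupp_iff]
    constructor
    · rintro ⟨⟨-, h2⟩, h3⟩
      refine ⟨h3, fun i => ?_⟩
      have h4 := Finset.mem_range.1 (h2 i (Finset.mem_univ i))
      omega
    · rintro ⟨h3, h4⟩
      refine ⟨⟨Finset.subset_univ _, fun i _ => Finset.mem_range.2 ?_⟩, h3⟩
      have h5 := h4 i
      omega
  obtain ⟨μ, hμ0, hμ⟩ : ∃ μ : Fin S.card → (Fin (n + 1) →₀ ℕ), (∀ k, μ k ∈ S) ∧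
      ∀ f : (Fin (n + 1) →₀ ℕ) → MvPolynomial (Fin (n + 1)) ℤ,
        ∑ k, f (μ k) = ∑ m ∈ S, f m := by
    refine ⟨fun k => (S.equivFin.symm k).1, fun k => (S.equivFin.symm k).2, fun f => ?_⟩
    rw [← Finset.sum_coe_sort S f]
    exact Equiv.sum_comp S.equivFin.symm (fun m => f m.1)
  obtain ⟨U₀, hU₀⟩ : ∃ U₀ : PF S.card n, U₀ = 1 + ∑ k, monomial (μ k) (X k) := ⟨_, rfl⟩
  refine ⟨S.card, ∏ i : Fin δ, rename (bidx n δ i) U₀, ?_, ?_⟩
  · rw [map_prod]
    refine Finset.prod_eq_one fun i _ => ?_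
    refine fA_bidx δ i ?_
    rw [hU₀, map_add, map_one, map_sum, Finset.sum_eq_zero, add_zero]
    intro k _
    unfold atZD
    rw [aeval_monomial]
    have h1 := ((hS _).1 (hμ0 k)).1
    rw [Finsupp.prod, Finset.prod_eq_zero (Finsupp.mem_support_iff.2 h1), mul_zero]
    exact zero_pow h1
  · intro H Q hQ
    obtain ⟨hQ1, hQ2, hQ3⟩ := hQ
    refine ⟨fun k => coeff (μ k) Q, fun k => ?_, ?_⟩
    · have h1 := hQ2 (μ k)
      rw [Int.abs_eq_natAbs] at h1
      exact_mod_cast h1
    · have key : map (eval fun k => coeff (μ k) Q) U₀ = Q := by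
        rw [hU₀, map_add, map_one, map_sum]
        have h1 : ∀ k, map (eval fun k => coeff (μ k) Q) (monomial (μ k) (X k)) =
            monomial (μ k) (coeff (μ k) Q) := by
          intro k
          rw [map_monomial, eval_X]
        rw [Finset.sum_congr rfl fun k _ => h1 k,
          hμ (fun m => monomial m (coeff m Q))]
        ext m
        rw [coeff_add, coeff_sum]
        simp only [coeff_monomial]
        rw [Finset.sum_ite_eq']
        by_cases h0 : m 0 = 0
        · have h2 : m ∉ S := fun h => ((hS m).1 h).1 h0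
          rw [if_neg h2, add_zero, fA_coeff hQ3 h0]
        · have h3 : coeff m (1 : MvPolynomial (Fin (n + 1)) ℤ) = 0 := by
            rw [coeff_one, if_neg]
            rintro rfl
            exact h0 rfl
          rw [h3, zero_add]
          by_cases h2 : m ∈ S
          · rw [if_pos h2]
          · rw [if_neg h2]
            symm
            rw [hS] at h2
            push Not at h2
            obtain ⟨i, hi⟩ := h2 h0
            by_contra h4
            have h5 := le_totalDegree (mem_support_iff.2 h4)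
            have h6 : m i ≤ m.sum fun _ e => e := by
              rw [Finsupp.sum]
              by_cases h7 : m i = 0
              · omega
              · exact Finset.single_le_sum (f := fun j => m j) (fun _ _ => Nat.zero_le _)
                  (Finsupp.mem_support_iff.2 h7)
            omega
      rw [map_prod]
      refine Finset.prod_congr rfl fun i _ => ?_
      unfold spP
      rw [map_rename]
      congr 1
      rw [← map_map, key]

/-- The class is empty for `H = 0`. Proof: the constant coefficient of `Q` is `1`. -/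
theorem one_le_of_family {n d H : ℕ} {Q : MvPolynomial (Fin (n + 1)) ℤ} (h : Q ∈ Family n d H) : 1 ≤ H := by
  obtain ⟨-, h2, h3⟩ := h
  have h4 := fA_coeff h3 (m := 0) rfl
  have h5 := h2 0
  rw [← h4, coeff_zero_one, abs_one] at h5
  exact_mod_cast h5

theorem l1M_map {m : ℕ} (p : MvPolynomial (Fin m) ℤ) :
    l1M (map (Int.castRingHom ℚ) p) = (l1I p : ℚ) := by
  unfold l1M l1I
  rw [support_map_of_injective p (RingHom.injective_int (Int.castRingHom ℚ))]
  push_cast
  refine Finset.sum_congr rfl fun u _ => ?_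
  rw [coeff_map, eq_intCast, Nat.cast_natAbs, Int.cast_abs]

end Pool.Agent.Lib.MP_bbe012_lc.PP
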