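import Pool.Agent.Lib.MP_bbe012_lc.PP.SDefs
import Pool.Agent.Lib.MP_bbe012_lc.PP.CodeC

/-!
# Stage 2: completeness of the verification at one point
-/

namespace Pool.Agent.Lib.MP_bbe012_lc.PP

open MvPolynomial MeasureTheory Set

private theorem FB_div (n : ℕ) (G : P1 n) :
    ∃ V : P1 n, G = rename Fin.succ (atZero n G) + X 0 * V := by
  have h0 : atZero n (X 0) = 0 := by
    rw [atZero, aeval_X]
    rfl
  have h1 : ∀ l : Fin n, atZero n (X l.succ) = X l := fun l => by
    rw [atZero, aeval_X]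
    rfl
  induction G using MvPolynomial.induction_on with
  | C a =>
    refine ⟨0, ?_⟩
    have h2 : atZero n (C a) = C a := by
      rw [atZero, aeval_C]
      rfl
    rw [h2, rename_C, mul_zero, add_zero]
  | add p q hp hq =>
    obtain ⟨U, hU⟩ := hp
    obtain ⟨V, hV⟩ := hq
    refine ⟨U + V, ?_⟩
    rw [map_add, map_add]
    linear_combination hU + hV
  | mul_X p i hp =>
    obtain ⟨U, hU⟩ := hp
    refine Fin.cases ?_ (fun l => ?_) i
    · refine ⟨p, ?_⟩
      rw [map_mul, map_mul, h0, map_zero]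
      ring
    · refine ⟨U * X l.succ, ?_⟩
      rw [map_mul, map_mul, h1, rename_X]
      linear_combination (X l.succ) * hU

private theorem FB_l1 {n : ℕ} {Q V : P1 n} (h : Q = 1 + X 0 * V) : l1M V ≤ l1M Q := by
  classical
  have hc : ∀ m : Fin (n + 1) →₀ ℕ, coeff (Finsupp.single 0 1 + m) Q = coeff m V := by
    intro m
    rw [h, coeff_add, coeff_X_mul, coeff_one, if_neg, zero_add]
    intro h0
    have h1 := congrArg (fun f : Fin (n + 1) →₀ ℕ => f 0) h0
    simp only [Finsupp.coe_zero, Pi.zero_apply, Finsupp.coe_add, Pi.add_apply,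
      Finsupp.single_eq_same] at h1
    omega
  have hinj : Function.Injective (fun m : Fin (n + 1) →₀ ℕ => Finsupp.single 0 1 + m) :=
    fun a b hab => add_left_cancel hab
  unfold l1M
  have h1 : ∑ m ∈ V.support, |coeff m V| =
      ∑ m ∈ V.support.map ⟨_, hinj⟩, |coeff m Q| := by
    rw [Finset.sum_map]
    refine Finset.sum_congr rfl (fun m _ => ?_)
    exact congrArg _ (hc m).symm
  rw [h1]
  refine Finset.sum_le_sum_of_subset_of_nonneg ?_ (fun _ _ _ => abs_nonneg _)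
  intro m hm
  rw [Finset.mem_map] at hm
  obtain ⟨m', hm', rfl⟩ := hm
  rw [mem_support_iff] at hm' ⊢
  exact fun h2 => hm' ((hc m').symm.trans h2)

/-- Proof. `Q = 1 + X 0 * V` for the polynomial `V` with `coeff m V = coeff (m + single 0 1) Q` (`MvPolynomial.divMonomial`; see `CodeC_div` and the proof of `exists_okBase` in CodeC.lean), so
`l1M V ≤ l1M Q`; take a code of `V` with `qval (normC V) = l1M V` (`exists_pcPoly_norm`). -/
theorem okBase_of_small {n : ℕ} {Q : PCode} (hQ : atZero n (pcPoly (n + 1) Q) = 1) (τ : QCode)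
    (h1 : |qval τ| ≤ 1) (h2 : l1M (pcPoly (n + 1) Q) * |qval τ| ≤ 1 / 2) :
    ∃ V : PCode, okBase n Q V τ := by
  obtain ⟨V, hV⟩ := FB_div n (pcPoly (n + 1) Q)
  rw [hQ, map_one] at hV
  have hl := FB_l1 hV
  obtain ⟨v, hv, hvn⟩ := exists_pcPoly_norm V
  refine ⟨v, ?_, ?_, ?_⟩
  · rw [pcIsZero_iff, pcPoly_append, pcPoly_neg, pcPoly_append, pcPoly_nat, pcPoly_mul,
      pcPoly_tC, hv]
    have h4 : (C ((1 : ℕ) : ℚ) : P1 n) = 1 := by rw [Nat.cast_one, C_1]
    rw [h4]
    linear_combination hV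
  · rw [qleP_iff, qval_qabs, qval_qnat, Nat.cast_one]
    exact h1
  · rw [qleP_iff, qval_qmul, qval_qabs, hvn]
    have h3 : qval ((1, 0), 1) = 1 / 2 := by
      unfold qval
      norm_num
    rw [h3]
    refine le_trans ?_ h2
    rw [mul_comm]
    exact mul_le_mul_of_nonneg_right hl (abs_nonneg _)

/-- Proof: as `checkC_complete`. -/
theorem checkC_of_good {n : ℕ} {Q : PCode} (hQ : atZero n (pcPoly (n + 1) Q) = 1) {τ : QCode} {V : PCode}
    (hV : okBase n Q V τ) (hg : Good n (pcPoly (n + 1) Q) (qval τ)) (G : PCode) (K : ℕ) :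
    ∃ c : CCert, checkC ((n, K), (Q, G), τ) c := by
  obtain ⟨hw, hz⟩ := hg
  by_cases hJ : JJ n (pcPoly (n + 1) Q) (pcPoly (n + 1) G) K (qval τ) = 0
  · have hev : ev (qval τ) (Phi n (pcPoly (n + 1) Q) (pcPoly (n + 1) G) K) = 0 := by
      rw [← integral_eq_ev hQ hw]
      exact hJ
    obtain ⟨j, U, hU⟩ := hz _ _ hev
    obtain ⟨x, hx⟩ := checkZ_complete hQ hU
    exact ⟨((V, true), (x, (((((0, 0), 0), []), ([], [])) : NCert))), hV, Or.inl ⟨rfl, hx⟩⟩
  · obtain ⟨x, hx⟩ := checkN_complete hQ hw hJ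
    exact ⟨((V, false), ((((((0, 0), (0, 0)), 0), (([], []), ([], [])), ([], [])) : ZCert), x)), hV,
      Or.inr ⟨rfl, hx⟩⟩

end Pool.Agent.Lib.MP_bbe012_lc.PP
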