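import Pool.Agent.Lib.MP_bbe012_lc.PP.RedD

/-!
# Stage 2: the class, and the data of a reduction
-/

namespace Pool.Agent.Lib.MP_bbe012_lc.PP

open MvPolynomial

/-- All products in `E` have at most `δ` factors, all factors are integrals `∫ P / D` over cubes of dimension at most `n`, and all
`D` divide powers of one polynomial `Q(τ, x)`, where `Q` has degree at most `d` and coefficients of absolute value
at most `H`, and `Q(0, x) = 1`. -/
def InClassU (n d H δ : ℕ) (τ : ℚ) (E : Ex) : Prop :=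
  ∃ Q ∈ Family n d H, ∀ L ∈ E, L.length ≤ δ ∧ ∀ I ∈ L, ∃ (h : I.1 ≤ n) (k : ℕ),
    rename (Fin.castLE h) (pcPoly I.1 I.2.2) ∣ specialise n τ Q ^ k

/-- Proof: see `h1` in the proof of `specialise_dvd`. -/
theorem specialise_eq (n : ℕ) (τ : ℚ) (Q : MvPolynomial (Fin (n + 1)) ℤ) :
    specialise n τ Q = spQ n τ (map (Int.castRingHom ℚ) Q) := by
  have h1 : ((spQ n τ : P1 n →ₐ[ℚ] MvPolynomial (Fin n) ℚ) : P1 n →+* MvPolynomial (Fin n) ℚ).comp
      (map (Int.castRingHom ℚ)) =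
        ((aeval (Fin.cons (C τ) X : Fin (n + 1) → MvPolynomial (Fin n) ℚ) :
          MvPolynomial (Fin (n + 1)) ℤ →ₐ[ℤ] MvPolynomial (Fin n) ℚ) :
            MvPolynomial (Fin (n + 1)) ℤ →+* MvPolynomial (Fin n) ℚ) := by
    refine MvPolynomial.ringHom_ext (fun a => ?_) (fun i => ?_)
    · simp [spQ]
    · simp [spQ]
  have h2 := congrArg (fun f => f Q) h1
  simp only [RingHom.comp_apply, RingHom.coe_coe] at h2
  rw [specialise, ← h2]

private theorem FC_item_dvd {n δ : ℕ} {τ : ℚ} {E : Ex} {Q : P1 n}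
    (h : ∀ L ∈ E, L.length ≤ δ ∧ ∀ I ∈ L, ∃ (h : I.1 ≤ n) (k : ℕ),
      rename (Fin.castLE h) (pcPoly I.1 I.2.2) ∣ spQ n τ Q ^ k) (j i : ℕ) :
    (item E j i).1 ≤ n ∧ ∃ k : ℕ,
      pcPoly n (pcTrunc (item E j i).1 (item E j i).2.2) ∣ spQ n τ Q ^ k := by
  have key : (item E j i = (0, (pcNat 1, pcNat 1))) ∨ ∃ L ∈ E, item E j i ∈ L := by
    by_cases hj : j < E.length
    · by_cases hi : i < (E.getD j []).length
      · right
        refine ⟨E.getD j [], ?_, ?_⟩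
        · rw [List.getD_eq_getElem _ _ hj]
          exact List.getElem_mem hj
        · unfold item
          rw [List.getD_eq_getElem _ _ hi]
          exact List.getElem_mem hi
      · left
        unfold item
        rw [List.getD_eq_default _ _ (not_lt.1 hi)]
    · left
      unfold item
      rw [List.getD_eq_default E _ (not_lt.1 hj)]
      rfl
  rcases key with h0 | ⟨L, hL, hI⟩
  · rw [h0]
    refine ⟨Nat.zero_le _, 0, ?_⟩
    rw [pcPoly_trunc_castLE (Nat.zero_le n), pcPoly_nat, rename_C, pow_zero, Nat.cast_one, C_1]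
  · obtain ⟨h1, k, hk⟩ := (h L hL).2 _ hI
    refine ⟨h1, k, ?_⟩
    rw [pcPoly_trunc_castLE h1]
    exact hk

/-- Proof: as `item_dvd` and `exists_rc` (RedD.lean), with `Q` instead of `Qprod n d H`. -/
theorem exists_rcU {n δ : ℕ} {τ : QCode} {E : Ex} {Q : P1 n} {Qc : PCode} (hQ : pcPoly (n + 1) Qc = Q)
    (h : ∀ L ∈ E, L.length ≤ δ ∧ ∀ I ∈ L, ∃ (h : I.1 ≤ n) (k : ℕ),
      rename (Fin.castLE h) (pcPoly I.1 I.2.2) ∣ spQ n (qval τ) Q ^ k) :
    ∃ (k : ℕ) (W : List (List (PCode × PCode))), rcOK E (((n, δ), k), ((Qc, τ), W)) := by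
  choose hle kk hkk using fun j i => FC_item_dvd h j i
  set k : ℕ := (Finset.range E.length ×ˢ Finset.range δ).sup fun p => kk p.1 p.2 with hkdef
  have hk : ∀ j < E.length, ∀ i < δ, ∃ W V : PCode,
      pcPoly (n + 1) (pcShift 1 n (pcMul (pcTrunc (item E j i).1 (item E j i).2.2) W)) =
        Q ^ k + (X 0 - C (qval τ)) * pcPoly (n + 1) V := by
    intro j hj i hi
    have h1 : kk j i ≤ k := Finset.le_sup (f := fun p : ℕ × ℕ => kk p.1 p.2) (b := (j, i))
      (Finset.mem_product.2 ⟨Finset.mem_range.2 hj, Finset.mem_range.2 hi⟩)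
    obtain ⟨W0, hW0⟩ := (hkk j i).trans (pow_dvd_pow _ h1)
    obtain ⟨V0, hV0⟩ := sub_dvd n (qval τ) (Q ^ k)
    obtain ⟨W, hW⟩ := exists_pcPoly W0
    obtain ⟨V, hV⟩ := exists_pcPoly V0
    refine ⟨W, V, ?_⟩
    rw [pcPoly_shift_succ, pcPoly_mul, hW, ← hW0, hV, ← hV0, map_pow (spQ n (qval τ))]
    ring
  have hk' : ∀ (j : Fin E.length) (i : Fin δ), ∃ W V : PCode,
      pcPoly (n + 1) (pcShift 1 n (pcMul (pcTrunc (item E j i).1 (item E j i).2.2) W)) =
        Q ^ k + (X 0 - C (qval τ)) * pcPoly (n + 1) V := fun j i => hk j j.2 i i.2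
  choose W V hWV using hk'
  refine ⟨k, List.ofFn fun j => List.ofFn fun i => (W j i, V j i), fun L hL => (h L hL).1, ?_⟩
  intro j hj i hi
  rw [List.mem_range] at hj hi
  refine ⟨hle j i, ?_⟩
  have hw : wit (((n, δ), k), ((Qc, τ), List.ofFn fun j => List.ofFn fun i => (W j i, V j i))) j i =
      (W ⟨j, hj⟩ ⟨i, hi⟩, V ⟨j, hj⟩ ⟨i, hi⟩) := by
    unfold wit
    dsimp only
    have hA : (List.ofFn fun j => List.ofFn fun i => (W j i, V j i)).getD j [] =
        List.ofFn fun i => (W ⟨j, hj⟩ i, V ⟨j, hj⟩ i) := by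
      rw [List.getD_eq_getElem _ _ (by rw [List.length_ofFn]; exact hj), List.getElem_ofFn]
    rw [hA, List.getD_eq_getElem _ _ (by rw [List.length_ofFn]; exact hi), List.getElem_ofFn]
  rw [hw, pcIsZero_iff, pcPoly_append, pcPoly_neg, pcPoly_append, pcPoly_pow, pcPoly_mul, pcPoly_append,
    pcPoly_neg, pcPoly_tC, pcPoly_constC]
  have h2 := hWV ⟨j, hj⟩ ⟨i, hi⟩
  dsimp only at h2 ⊢
  rw [h2, hQ]
  ring

end Pool.Agent.Lib.MP_bbe012_lc.PP
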