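import Pool.Agent.Lib.MP_bbe012_lc.PP.ClassDefs
import Pool.Agent.Lib.MP_bbe012_lc.PP.RedB

/-!
# Existence of the data of a reduction
-/

namespace Pool.Agent.Lib.MP_bbe012_lc.PP

open MvPolynomial

/-- Proof: the coefficients are in a finite set and the support is contained in the finite set of the exponents of degree at most
`d` (e.g. inject into the functions from this finite set to `Finset.Icc (-H) H`; `MvPolynomial.le_totalDegree`). -/
theorem Family_finite (n d H : ℕ) : (Family n d H).Finite := by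
  classical
  set T : Set (Fin (n + 1) →₀ ℕ) := Set.Icc 0 (Finsupp.equivFunOnFinite.symm fun _ => d) with hT
  have hTf : T.Finite := Set.finite_Icc _ _
  have : Finite T := hTf.to_subtype
  have hfin : {f : T → ℤ | ∀ m, f m ∈ Set.Icc (-(H : ℤ)) H}.Finite :=
    Set.Finite.pi' fun _ => Set.finite_Icc _ _
  refine Set.Finite.of_injOn (f := fun Q : MvPolynomial (Fin (n + 1)) ℤ => fun m : T => coeff m.1 Q)
    ?_ ?_ hfin
  · intro Q hQ m
    exact abs_le.1 (hQ.2.1 m.1)
  · intro P hP Q hQ hPQ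
    have hz : ∀ R ∈ Family n d H, ∀ m : Fin (n + 1) →₀ ℕ, m ∉ T → coeff m R = 0 := by
      intro R hR m hm
      by_contra hne
      apply hm
      refine ⟨zero_le, fun i => ?_⟩
      have h1 : (m.sum fun _ e => e) ≤ R.totalDegree :=
        le_totalDegree (mem_support_iff.2 hne)
      have h2 : m i ≤ m.sum fun _ e => e := by
        by_cases hi : i ∈ m.support
        · exact Finset.single_le_sum (f := fun a => m a) (fun _ _ => Nat.zero_le _) hi
        · rw [Finsupp.notMem_support_iff.1 hi]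
          exact Nat.zero_le _
      exact h2.trans (h1.trans hR.1)
    ext m
    by_cases hm : m ∈ T
    · exact congrFun hPQ ⟨m, hm⟩
    · rw [hz P hP m hm, hz Q hQ m hm]

/-- The product of all polynomials of the family. -/
noncomputable def Qprod (n d H : ℕ) : P1 n :=
  ∏ Q ∈ (Family_finite n d H).toFinset, map (Int.castRingHom ℚ) Q

/-- Proof: `atZero n (map (Int.castRingHom ℚ) Q) = map (Int.castRingHom ℚ) (aeval (Fin.cons 0 X) Q)` (induction on `Q` or
`MvPolynomial.ringHom_ext`; note that `atZero` uses `Fin.cases`, the same as `Fin.cons`). -/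
theorem atZero_Qprod (n d H : ℕ) : atZero n (Qprod n d H) = 1 := by
  have h : ((atZero n : P1 n →ₐ[ℚ] MvPolynomial (Fin n) ℚ) : P1 n →+* MvPolynomial (Fin n) ℚ).comp
      (map (Int.castRingHom ℚ)) = (map (Int.castRingHom ℚ)).comp
        ((aeval (Fin.cons 0 X : Fin (n + 1) → MvPolynomial (Fin n) ℤ) :
          MvPolynomial (Fin (n + 1)) ℤ →ₐ[ℤ] MvPolynomial (Fin n) ℤ) :
            MvPolynomial (Fin (n + 1)) ℤ →+* MvPolynomial (Fin n) ℤ) := by
    refine MvPolynomial.ringHom_ext (fun a => ?_) (fun i => ?_)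
    · simp [atZero]
    · refine Fin.cases ?_ (fun l => ?_) i
      · simp [atZero]
      · simp [atZero]
  rw [Qprod, map_prod]
  refine Finset.prod_eq_one fun Q hQ => ?_
  have hQ' := (Family_finite n d H).mem_toFinset.1 hQ
  have h1 := congrArg (fun f => f Q) h
  simp only [RingHom.comp_apply, RingHom.coe_coe] at h1
  rw [h1, hQ'.2.2, map_one]

/-- Proof: `rename (Fin.castLE _)` of the first variable is the first variable, and `(Fin.castLE h l).succ = Fin.castLE _ l.succ`;
`totalDegree_rename_le`, `coeff_rename_mapDomain` / `coeff_rename_eq_zero` (the map is injective). -/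
theorem Family_pad {m n d H : ℕ} (h : m ≤ n) {Q : MvPolynomial (Fin (m + 1)) ℤ} (hQ : Q ∈ Family m d H) (τ : ℚ) :
    ∃ Q' ∈ Family n d H, specialise n τ Q' = rename (Fin.castLE h) (specialise m τ Q) := by
  have hi : Function.Injective (Fin.castLE (Nat.succ_le_succ h)) := Fin.castLE_injective _
  have hc : ∀ l : Fin m, Fin.castLE (Nat.succ_le_succ h) l.succ = (Fin.castLE h l).succ := fun l => rfl
  have hc0 : Fin.castLE (Nat.succ_le_succ h) (0 : Fin (m + 1)) = 0 := rfl
  refine ⟨rename (Fin.castLE (Nat.succ_le_succ h)) Q, ⟨?_, ?_, ?_⟩, ?_⟩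
  · exact (totalDegree_rename_le _ _).trans hQ.1
  · intro u
    by_cases hu : coeff u (rename (Fin.castLE (Nat.succ_le_succ h)) Q) = 0
    · rw [hu, abs_zero]
      exact Int.natCast_nonneg H
    · obtain ⟨v, hv, _⟩ := coeff_rename_ne_zero _ _ _ hu
      rw [← hv, coeff_rename_mapDomain _ hi]
      exact hQ.2.1 v
  · have h1 : ((aeval (Fin.cons 0 X : Fin (n + 1) → MvPolynomial (Fin n) ℤ) :
          MvPolynomial (Fin (n + 1)) ℤ →ₐ[ℤ] MvPolynomial (Fin n) ℤ).comp
          (rename (Fin.castLE (Nat.succ_le_succ h)))) =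
        (rename (Fin.castLE h)).comp
          (aeval (Fin.cons 0 X : Fin (m + 1) → MvPolynomial (Fin m) ℤ)) := by
      refine MvPolynomial.algHom_ext fun i => ?_
      refine Fin.cases ?_ (fun l => ?_) i
      · simp [hc0]
      · simp [hc]
    have h2 := congrArg (fun f => f Q) h1
    simp only [AlgHom.comp_apply] at h2
    rw [h2, hQ.2.2, map_one]
  · have h1 : ((aeval (Fin.cons (C τ) X : Fin (n + 1) → MvPolynomial (Fin n) ℚ) :
          MvPolynomial (Fin (n + 1)) ℤ →ₐ[ℤ] MvPolynomial (Fin n) ℚ) :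
            MvPolynomial (Fin (n + 1)) ℤ →+* MvPolynomial (Fin n) ℚ).comp
          ((rename (Fin.castLE (Nat.succ_le_succ h)) :
            MvPolynomial (Fin (m + 1)) ℤ →ₐ[ℤ] MvPolynomial (Fin (n + 1)) ℤ) :
            MvPolynomial (Fin (m + 1)) ℤ →+* MvPolynomial (Fin (n + 1)) ℤ) =
        ((rename (Fin.castLE h) : MvPolynomial (Fin m) ℚ →ₐ[ℚ] MvPolynomial (Fin n) ℚ) :
            MvPolynomial (Fin m) ℚ →+* MvPolynomial (Fin n) ℚ).comp
          ((aeval (Fin.cons (C τ) X : Fin (m + 1) → MvPolynomial (Fin m) ℚ) :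
          MvPolynomial (Fin (m + 1)) ℤ →ₐ[ℤ] MvPolynomial (Fin m) ℚ) :
            MvPolynomial (Fin (m + 1)) ℤ →+* MvPolynomial (Fin m) ℚ) := by
      refine MvPolynomial.ringHom_ext (fun a => ?_) (fun i => ?_)
      · simp
      · refine Fin.cases ?_ (fun l => ?_) i
        · simp [hc0]
        · simp [hc]
    have h2 := congrArg (fun f => f Q) h1
    simp only [RingHom.comp_apply, RingHom.coe_coe] at h2
    exact h2

/-- Proof: `spQ n τ (map (Int.castRingHom ℚ) Q) = specialise n τ Q`, and `Q` is a factor of the product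
(`Finset.dvd_prod_of_mem`, `map_dvd`). -/
theorem specialise_dvd {n d H : ℕ} {Q : MvPolynomial (Fin (n + 1)) ℤ} (hQ : Q ∈ Family n d H) (τ : ℚ) :
    specialise n τ Q ∣ spQ n τ (Qprod n d H) := by
  have h1 : ((spQ n τ : P1 n →ₐ[ℚ] MvPolynomial (Fin n) ℚ) : P1 n →+* MvPolynomial (Fin n) ℚ).comp
      (map (Int.castRingHom ℚ)) =
        ((aeval (Fin.cons (C τ) X : Fin (n + 1) → MvPolynomial (Fin n) ℚ) :
          MvPolynomial (Fin (n + 1)) ℤ →ₐ[ℤ] MvPolynomial (Fin n) ℚ) :
            MvPolynomial (Fin (n + 1)) ℤ →+* MvPolynomial (Fin n) ℚ) := by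
    refine MvPolynomial.ringHom_ext (fun a => ?_) (fun i => ?_)
    · simp [spQ]
    · simp [spQ]
  have h2 := congrArg (fun f => f Q) h1
  simp only [RingHom.comp_apply, RingHom.coe_coe] at h2
  rw [specialise, ← h2]
  exact map_dvd (spQ n τ) (Finset.dvd_prod_of_mem (fun Q => map (Int.castRingHom ℚ) Q)
    ((Family_finite n d H).mem_toFinset.2 hQ))

/-- Proof: `MvPolynomial.induction_on` (true for constants and variables, stable under sums and products by variables:
`a b' - a' b = a (b' - b) + (a - a') b`). -/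
theorem sub_dvd (n : ℕ) (τ : ℚ) (F : P1 n) :
    (X 0 - C τ : P1 n) ∣ rename Fin.succ (spQ n τ F) - F := by
  induction F using MvPolynomial.induction_on with
  | C a =>
    have : (rename Fin.succ (spQ n τ (C a)) : P1 n) - C a = 0 := by simp [spQ, MvPolynomial.algebraMap_eq]
    rw [this]
    exact dvd_zero _
  | add p q hp hq =>
    rw [map_add, map_add, add_sub_add_comm]
    exact dvd_add hp hq
  | mul_X p i hp =>
    have hi : (X 0 - C τ : P1 n) ∣ rename Fin.succ (spQ n τ (X i)) - X i := by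
      refine Fin.cases ?_ (fun l => ?_) i
      · have : (rename Fin.succ (spQ n τ (X 0)) : P1 n) - X 0 = -(X 0 - C τ) := by simp [spQ]
        rw [this]
        exact (dvd_neg).2 dvd_rfl
      · have : (rename Fin.succ (spQ n τ (X l.succ)) : P1 n) - X l.succ = 0 := by simp [spQ]
        rw [this]
        exact dvd_zero _
    have h : (rename Fin.succ (spQ n τ (p * X i)) : P1 n) - p * X i =
        (rename Fin.succ (spQ n τ p) - p) * rename Fin.succ (spQ n τ (X i)) +
          p * (rename Fin.succ (spQ n τ (X i)) - X i) := by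
      rw [map_mul, map_mul]
      ring
    rw [h]
    exact dvd_add (Dvd.dvd.mul_right hp _) (Dvd.dvd.mul_left hi _)

/-- Every denominator divides a power of `Qprod(τ, x)`. -/
theorem item_dvd {n d H δ : ℕ} {τ : ℚ} {E : Ex} (h : InClass n d H δ τ E) (j i : ℕ) :
    (item E j i).1 ≤ n ∧ ∃ k : ℕ,
      pcPoly n (pcTrunc (item E j i).1 (item E j i).2.2) ∣ spQ n τ (Qprod n d H) ^ k := by
  have key : (item E j i = (0, (pcNat 1, pcNat 1))) ∨ ∃ L ∈ E, item E j i ∈ L := by
    by_cases hj : j < E.length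
    · by_cases hi : i < (E.getD j []).length
      · right
        refine ⟨E.getD j [], ?_, ?_⟩
        · rw [List.getD_eq_getElem _ _ hj]
          exact List.getElem_mem hj
        · unfold item
          rw [List.getD_eq_getElem _ _ hi]
          exact List.getElem_mem hi
      · left
        unfold item
        rw [List.getD_eq_default _ _ (not_lt.1 hi)]
    · left
      unfold item
      rw [List.getD_eq_default E _ (not_lt.1 hj)]
      rfl
  rcases key with h0 | ⟨L, hL, hI⟩
  · rw [h0]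
    refine ⟨Nat.zero_le _, 0, ?_⟩
    rw [pcPoly_trunc_castLE (Nat.zero_le n), pcPoly_nat, rename_C, pow_zero, Nat.cast_one, C_1]
  · obtain ⟨h1, Q, hQ, k, hk⟩ := (h L hL).2 _ hI
    refine ⟨h1, k, ?_⟩
    obtain ⟨Q', hQ', h2⟩ := Family_pad h1 hQ τ
    rw [pcPoly_trunc_castLE h1]
    have h3 : (rename (Fin.castLE h1) (pcPoly (item E j i).1 (item E j i).2.2) :
        MvPolynomial (Fin n) ℚ) ∣ specialise n τ Q' ^ k := by
      rw [h2, ← map_pow]
      exact map_dvd (rename (Fin.castLE h1)) hk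
    exact h3.trans (pow_dvd_pow_of_dvd (specialise_dvd hQ' τ) k)

/-- Proof. Let `k` be the maximum (`Finset.sup` over `range E.length ×ˢ range δ`) of the exponents of `item_dvd`, so
`D W = Qprod(τ, x) ^ k` for some `W ∈ ℚ[x]` (`pow_dvd_pow`), and `rename Fin.succ (D W) - Q ^ k` is a multiple of `X 0 - C τ` by
`sub_dvd` (applied to `F = Q ^ k`). Codes by `exists_pcPoly`, lists by `List.ofFn`. `pcPoly_shift_succ`, `pcPoly_mul`, `pcIsZero_iff`. -/
theorem exists_rc {n d H δ : ℕ} {τ : QCode} {E : Ex} (h : InClass n d H δ (qval τ) E) {Q : PCode}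
    (hQ : pcPoly (n + 1) Q = Qprod n d H) :
    ∃ (k : ℕ) (W : List (List (PCode × PCode))), rcOK E (((n, δ), k), ((Q, τ), W)) := by
  choose hle kk hkk using fun j i => item_dvd h j i
  set k : ℕ := (Finset.range E.length ×ˢ Finset.range δ).sup fun p => kk p.1 p.2 with hkdef
  have hk : ∀ j < E.length, ∀ i < δ, ∃ W V : PCode,
      pcPoly (n + 1) (pcShift 1 n (pcMul (pcTrunc (item E j i).1 (item E j i).2.2) W)) =
        Qprod n d H ^ k + (X 0 - C (qval τ)) * pcPoly (n + 1) V := by
    intro j hj i hi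
    have h1 : kk j i ≤ k := Finset.le_sup (f := fun p : ℕ × ℕ => kk p.1 p.2) (b := (j, i))
      (Finset.mem_product.2 ⟨Finset.mem_range.2 hj, Finset.mem_range.2 hi⟩)
    obtain ⟨W0, hW0⟩ := (hkk j i).trans (pow_dvd_pow _ h1)
    obtain ⟨V0, hV0⟩ := sub_dvd n (qval τ) (Qprod n d H ^ k)
    obtain ⟨W, hW⟩ := exists_pcPoly W0
    obtain ⟨V, hV⟩ := exists_pcPoly V0
    refine ⟨W, V, ?_⟩
    rw [pcPoly_shift_succ, pcPoly_mul, hW, ← hW0, hV, ← hV0, map_pow (spQ n (qval τ))]
    ring
  have hk' : ∀ (j : Fin E.length) (i : Fin δ), ∃ W V : PCode,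
      pcPoly (n + 1) (pcShift 1 n (pcMul (pcTrunc (item E j i).1 (item E j i).2.2) W)) =
        Qprod n d H ^ k + (X 0 - C (qval τ)) * pcPoly (n + 1) V := fun j i => hk j j.2 i i.2
  choose W V hWV using hk'
  refine ⟨k, List.ofFn fun j => List.ofFn fun i => (W j i, V j i), fun L hL => (h L hL).1, ?_⟩
  intro j hj i hi
  rw [List.mem_range] at hj hi
  refine ⟨hle j i, ?_⟩
  have hw : wit (((n, δ), k), ((Q, τ), List.ofFn fun j => List.ofFn fun i => (W j i, V j i))) j i =
      (W ⟨j, hj⟩ ⟨i, hi⟩, V ⟨j, hj⟩ ⟨i, hi⟩) := by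
    unfold wit
    dsimp only
    have hA : (List.ofFn fun j => List.ofFn fun i => (W j i, V j i)).getD j [] =
        List.ofFn fun i => (W ⟨j, hj⟩ i, V ⟨j, hj⟩ i) := by
      rw [List.getD_eq_getElem _ _ (by rw [List.length_ofFn]; exact hj), List.getElem_ofFn]
    rw [hA, List.getD_eq_getElem _ _ (by rw [List.length_ofFn]; exact hi), List.getElem_ofFn]
  rw [hw, pcIsZero_iff, pcPoly_append, pcPoly_neg, pcPoly_append, pcPoly_pow, pcPoly_mul, pcPoly_append,
    pcPoly_neg, pcPoly_tC, pcPoly_constC]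
  have h2 := hWV ⟨j, hj⟩ ⟨i, hi⟩
  dsimp only at h2 ⊢
  rw [h2, hQ]
  ring

end Pool.Agent.Lib.MP_bbe012_lc.PP
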