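import Pool.Agent.Lib.MP_bbe012_lc.PP.RedDefs
import Pool.Agent.Lib.MP_bbe012_lc.PP.CodePrim

/-!
# The verification of the reduction is primitive recursive, and the search
-/

namespace Pool.Agent.Lib.MP_bbe012_lc.PP

open Primrec

instance instPrimcodableCI : Primcodable CI := inferInstance

instance instPrimcodableExL : Primcodable (List CI) := @Primcodable.list CI instPrimcodableCI

instance instPrimcodableEx : Primcodable Ex := @Primcodable.list (List CI) instPrimcodableExL

instance instPrimcodableRCA : Primcodable ((ℕ × ℕ) × ℕ) := inferInstance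

instance instPrimcodableRCB : Primcodable (PCode × QCode) := inferInstance

instance instPrimcodableRCC : Primcodable (List (PCode × PCode)) :=
  @Primcodable.list (PCode × PCode) instPrimcodableZCertC

instance instPrimcodableRCD : Primcodable (List (List (PCode × PCode))) :=
  @Primcodable.list (List (PCode × PCode)) instPrimcodableRCC

instance instPrimcodableRC : Primcodable RC :=
  @Primcodable.prod _ _ instPrimcodableRCA (@Primcodable.prod _ _ instPrimcodableRCB instPrimcodableRCD)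

instance instPrimcodableExRC : Primcodable (Ex × RC) := @Primcodable.prod _ _ instPrimcodableEx instPrimcodableRC

/-- A full certificate. -/
abbrev FCert := RC × CCert

instance instPrimcodableFCert : Primcodable FCert := @Primcodable.prod _ _ instPrimcodableRC instPrimcodableCCert

instance instPrimcodableExFCert : Primcodable (Ex × FCert) :=
  @Primcodable.prod _ _ instPrimcodableEx instPrimcodableFCert

theorem primrec_blkC : Primrec fun y : (ℕ × ℕ) × PCode => blkC y.1.1 y.1.2 y.2 := by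
  have hn : Primrec fun q : ((ℕ × ℕ) × PCode) × (QCode × List ℕ) => q.1.1.1 := fst.comp (fst.comp fst)
  have hi : Primrec fun q : ((ℕ × ℕ) × PCode) × (QCode × List ℕ) => q.1.1.2 := snd.comp (fst.comp fst)
  have h1 : Primrec fun q : ((ℕ × ℕ) × PCode) × (QCode × List ℕ) => q.2.1 := fst.comp snd
  have h2 : Primrec fun q : ((ℕ × ℕ) × PCode) × (QCode × List ℕ) => q.2.2 := snd.comp snd
  have h3 : Primrec fun q : ((ℕ × ℕ) × PCode) × (QCode × List ℕ) => q.2.2.getD 0 0 :=
    (list_getD 0).comp h2 (const 0)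
  have h4 : Primrec fun q : ((ℕ × ℕ) × PCode) × (QCode × List ℕ) =>
      List.replicate (q.1.1.2 * q.1.1.1) 0 := primrec_replicate_zero.comp (nat_mul.comp hi hn)
  have h5 : Primrec fun q : ((ℕ × ℕ) × PCode) × (QCode × List ℕ) =>
      (q.2.2.drop 1).take q.1.1.1 := list_take.comp hn (list_drop.comp (const 1) h2)
  exact list_map snd (pair h1 (list_cons.comp h3 (list_append.comp h4 h5))).to₂

theorem primrec_QQ : Primrec fun y : (ℕ × ℕ) × PCode => QQ y.1.1 y.1.2 y.2 := by
  have h : Primrec₂ fun (y : (ℕ × ℕ) × PCode) (i : ℕ) => blkC y.1.1 i y.2 :=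
    (primrec_blkC.comp (pair (pair (fst.comp (fst.comp fst)) snd) (snd.comp fst))).to₂
  exact pr_prodRange (g := fun (y : (ℕ × ℕ) × PCode) i => blkC y.1.1 i y.2) (snd.comp fst) h

theorem primrec_item : Primrec fun y : Ex × (ℕ × ℕ) => item y.1 y.2.1 y.2.2 := by
  have h1 : Primrec fun y : Ex × (ℕ × ℕ) => y.1.getD y.2.1 [] :=
    (list_getD []).comp fst (fst.comp snd)
  exact (list_getD (0, (pcNat 1, pcNat 1))).comp h1 (snd.comp snd)

theorem primrec_wit : Primrec fun y : RC × (ℕ × ℕ) => wit y.1 y.2.1 y.2.2 := by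
  have h0 : Primrec fun y : RC × (ℕ × ℕ) => y.1.2.2 := snd.comp (snd.comp fst)
  have h1 : Primrec fun y : RC × (ℕ × ℕ) => y.1.2.2.getD y.2.1 [] :=
    (list_getD []).comp h0 (fst.comp snd)
  exact (list_getD (([] : PCode), ([] : PCode))).comp h1 (snd.comp snd)

theorem primrec_GG : Primrec fun y : Ex × RC => GG y.1 y.2 := by
  have hn : Primrec fun q : ((Ex × RC) × ℕ) × ℕ => q.1.1.2.1.1.1 :=
    fst.comp (fst.comp (fst.comp (snd.comp (fst.comp fst))))
  have hit : Primrec fun q : ((Ex × RC) × ℕ) × ℕ => item q.1.1.1 q.1.2 q.2 :=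
    primrec_item.comp (pair (fst.comp (fst.comp fst)) (pair (snd.comp fst) snd))
  have hw : Primrec fun q : ((Ex × RC) × ℕ) × ℕ => wit q.1.1.2 q.1.2 q.2 :=
    primrec_wit.comp (pair (snd.comp (fst.comp fst)) (pair (snd.comp fst) snd))
  have hT : Primrec fun q : ((Ex × RC) × ℕ) × ℕ =>
      pcShift (1 + q.2 * q.1.1.2.1.1.1) q.1.1.2.1.1.1
        (pcMul (pcTrunc (item q.1.1.1 q.1.2 q.2).1 (item q.1.1.1 q.1.2 q.2).2.1)
          (wit q.1.1.2 q.1.2 q.2).1) :=
    pr_shift (nat_add.comp (const 1) (nat_mul.comp snd hn)) hn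
      (pr_mul (pr_trunc (fst.comp hit) (fst.comp (snd.comp hit))) (fst.comp hw))
  have hP : Primrec fun q : (Ex × RC) × ℕ => pcProdRange q.1.2.1.1.2 fun i =>
      pcShift (1 + i * q.1.2.1.1.1) q.1.2.1.1.1
        (pcMul (pcTrunc (item q.1.1 q.2 i).1 (item q.1.1 q.2 i).2.1) (wit q.1.2 q.2 i).1) :=
    pr_prodRange (g := fun (q : (Ex × RC) × ℕ) i =>
      pcShift (1 + i * q.1.2.1.1.1) q.1.2.1.1.1
        (pcMul (pcTrunc (item q.1.1 q.2 i).1 (item q.1.1 q.2 i).2.1) (wit q.1.2 q.2 i).1))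
      (snd.comp (fst.comp (fst.comp (snd.comp fst)))) hT.to₂
  exact pr_sumRange (g := fun (y : Ex × RC) j => pcProdRange y.2.1.1.2 fun i =>
      pcShift (1 + i * y.2.1.1.1) y.2.1.1.1
        (pcMul (pcTrunc (item y.1 j i).1 (item y.1 j i).2.1) (wit y.2 j i).1))
      (list_length.comp fst) hP.to₂

theorem primrecPred_rcItem : PrimrecPred fun y : (Ex × RC) × (ℕ × ℕ) => rcItem y.1.1 y.1.2 y.2.1 y.2.2 := by
  have hn : Primrec fun y : (Ex × RC) × (ℕ × ℕ) => y.1.2.1.1.1 :=
    fst.comp (fst.comp (fst.comp (snd.comp fst)))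
  have hk : Primrec fun y : (Ex × RC) × (ℕ × ℕ) => y.1.2.1.2 := snd.comp (fst.comp (snd.comp fst))
  have hQ : Primrec fun y : (Ex × RC) × (ℕ × ℕ) => y.1.2.2.1.1 :=
    fst.comp (fst.comp (snd.comp (snd.comp fst)))
  have hτ : Primrec fun y : (Ex × RC) × (ℕ × ℕ) => y.1.2.2.1.2 :=
    snd.comp (fst.comp (snd.comp (snd.comp fst)))
  have hit : Primrec fun y : (Ex × RC) × (ℕ × ℕ) => item y.1.1 y.2.1 y.2.2 :=
    primrec_item.comp (pair (fst.comp fst) snd)
  have hw : Primrec fun y : (Ex × RC) × (ℕ × ℕ) => wit y.1.2 y.2.1 y.2.2 :=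
    primrec_wit.comp (pair (snd.comp fst) snd)
  have h1 : PrimrecPred fun y : (Ex × RC) × (ℕ × ℕ) => (item y.1.1 y.2.1 y.2.2).1 ≤ y.1.2.1.1.1 :=
    nat_le.comp (fst.comp hit) hn
  have h2 : PrimrecPred fun y : (Ex × RC) × (ℕ × ℕ) => pcIsZero (y.1.2.1.1.1 + 1)
      (pcShift 1 y.1.2.1.1.1 (pcMul (pcTrunc (item y.1.1 y.2.1 y.2.2).1 (item y.1.1 y.2.1 y.2.2).2.2)
        (wit y.1.2 y.2.1 y.2.2).1) ++
        pcNeg (pcPow y.1.2.2.1.1 y.1.2.1.2 ++ pcMul (tC ++ pcNeg (constC y.1.2.2.1.2))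
          (wit y.1.2 y.2.1 y.2.2).2)) :=
    pr_isZero (succ.comp hn) (pr_append (pr_shift (const 1) hn
      (pr_mul (pr_trunc (fst.comp hit) (snd.comp (snd.comp hit))) (fst.comp hw)))
      (pr_neg (pr_append (pr_pow hQ hk)
        (pr_mul (pr_append pr_tC (pr_neg (pr_constC hτ))) (snd.comp hw)))))
  exact h1.and h2

/-- Bounded quantifiers: `PrimrecRel.forall_mem_list` as in `primrecPred_answer` (CheckComp.lean). -/
theorem primrecPred_rcOK : PrimrecPred fun y : Ex × RC => rcOK y.1 y.2 := by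
  have h1 : PrimrecRel fun (L : List CI) (y : Ex × RC) => L.length ≤ y.2.1.1.2 :=
    nat_le.comp (list_length.comp fst) (snd.comp (fst.comp (fst.comp (snd.comp snd))))
  have h2 : PrimrecPred fun y : Ex × RC => ∀ L ∈ y.1, L.length ≤ y.2.1.1.2 :=
    h1.forall_mem_list.comp fst Primrec.id
  have h3 : PrimrecRel fun (i : ℕ) (z : (Ex × RC) × ℕ) => rcItem z.1.1 z.1.2 z.2 i :=
    primrecPred_rcItem.comp (pair (fst.comp snd) (pair (snd.comp snd) fst))
  have h4 : PrimrecPred fun z : (Ex × RC) × ℕ =>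
      ∀ i ∈ List.range z.1.2.1.1.2, rcItem z.1.1 z.1.2 z.2 i :=
    h3.forall_mem_list.comp (list_range.comp (snd.comp (fst.comp (fst.comp (snd.comp fst))))) Primrec.id
  have h5 : PrimrecRel fun (j : ℕ) (y : Ex × RC) => ∀ i ∈ List.range y.2.1.1.2, rcItem y.1 y.2 j i :=
    h4.comp (pair snd fst)
  have h6 : PrimrecPred fun y : Ex × RC =>
      ∀ j ∈ List.range y.1.length, ∀ i ∈ List.range y.2.1.1.2, rcItem y.1 y.2 j i :=
    h5.forall_mem_list.comp (list_range.comp (list_length.comp fst)) Primrec.id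
  exact h2.and h6

theorem primrec_toCore : Primrec fun y : Ex × RC => toCore y.1 y.2 := by
  have hn : Primrec fun y : Ex × RC => y.2.1.1.1 := fst.comp (fst.comp (fst.comp snd))
  have hδ : Primrec fun y : Ex × RC => y.2.1.1.2 := snd.comp (fst.comp (fst.comp snd))
  have hk : Primrec fun y : Ex × RC => y.2.1.2 := snd.comp (fst.comp snd)
  have hQ : Primrec fun y : Ex × RC => y.2.2.1.1 := fst.comp (fst.comp (snd.comp snd))
  have hτ : Primrec fun y : Ex × RC => y.2.2.1.2 := snd.comp (fst.comp (snd.comp snd))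
  have hQQ : Primrec fun y : Ex × RC => QQ y.2.1.1.1 y.2.1.1.2 y.2.2.1.1 :=
    primrec_QQ.comp (pair (pair hn hδ) hQ)
  exact pair (pair (nat_mul.comp hδ hn) hk) (pair (pair hQQ primrec_GG) hτ)

/-- Verification of a full certificate. -/
def checkF (E : Ex) (c : FCert) : Prop := rcOK E c.1 ∧ checkC (toCore E c.1) c.2

instance (E : Ex) (c : FCert) : Decidable (checkF E c) := by unfold checkF; infer_instance

theorem primrecPred_checkF : PrimrecPred fun y : Ex × FCert => checkF y.1 y.2 := by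
  have h1 : Primrec fun y : Ex × FCert => (y.1, y.2.1) := pair fst (fst.comp snd)
  have h2 : PrimrecPred fun y : Ex × FCert => rcOK y.1 y.2.1 := primrecPred_rcOK.comp h1
  have h3 : Primrec fun y : Ex × FCert => toCore y.1 y.2.1 := primrec_toCore.comp h1
  have h4 : PrimrecPred fun y : Ex × FCert => checkC (toCore y.1 y.2.1) y.2.2 :=
    primrecPred_checkC.comp (pair h3 (snd.comp snd))
  exact h2.and h4

/-- The decision procedure: search for a certificate. -/
def decide0 (E : Ex) : Part Bool :=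
  Nat.rfindOpt fun m => (Encodable.decode (α := FCert) m).bind fun c =>
    if checkF E c then some c.2.1.2 else none

/-- As `partrec_decPair` in CheckComp.lean. -/
theorem partrec_decide0 : Partrec decide0 := by
  have h : Primrec₂ fun (E : Ex) (m : ℕ) =>
      (Encodable.decode (α := FCert) m).bind fun c => if checkF E c then some c.2.1.2 else none := by
    have h1 : Primrec fun y : Ex × ℕ => (Encodable.decode (α := FCert) y.2) :=
      Primrec.decode.comp snd
    have h2 : PrimrecPred fun z : (Ex × ℕ) × FCert => checkF z.1.1 z.2 :=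
      primrecPred_checkF.comp (pair (fst.comp fst) snd)
    have h3 : Primrec fun z : (Ex × ℕ) × FCert => z.2.2.1.2 :=
      snd.comp (fst.comp (snd.comp snd))
    exact option_bind h1 ((Primrec.ite h2 (option_some.comp h3) (const none)).to₂)
  exact Partrec.rfindOpt h.to_comp

theorem mem_decide0 {E : Ex} {b : Bool} (h : b ∈ decide0 E) : ∃ c : FCert, checkF E c ∧ b = c.2.1.2 := by
  obtain ⟨m, hm⟩ := Nat.rfindOpt_spec h
  obtain ⟨c, _, h2⟩ := Option.bind_eq_some_iff.mp hm
  split_ifs at h2 with hc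
  exact ⟨c, hc, (Option.some_injective _ h2).symm⟩

theorem dom_decide0 {E : Ex} {c : FCert} (hc : checkF E c) : (decide0 E).Dom := by
  refine Nat.rfindOpt_dom.mpr ⟨Encodable.encode (c : FCert), c.2.1.2, ?_⟩
  rw [Encodable.encodek]
  change (if checkF E c then some c.2.1.2 else none) = _
  rw [if_pos hc]

end Pool.Agent.Lib.MP_bbe012_lc.PP
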