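import Pool.Agent.Lib.MP_bbe012_lc.PP.RedC
import Pool.Agent.Lib.MP_bbe012_lc.PP.RedD
import Pool.Agent.Lib.MP_bbe012_lc.PP.RedPrim
import Pool.Agent.Lib.MP_bbe012_lc.PP.CodeC

/-!
# The decision procedure
-/

namespace Pool.Agent.Lib.MP_bbe012_lc.PP

open MvPolynomial

/-- Proof: `mem_decide0`, `exVal_eq_JJ` (the `okBase` part of `checkC`), `checkC_sound`. -/
theorem decide0_sound {E : Ex} {b : Bool} (h : b ∈ decide0 E) : b = true ↔ exVal E = 0 := by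
  obtain ⟨c, ⟨hrc, hc⟩, rfl⟩ := mem_decide0 h
  rw [exVal_eq_JJ hrc hc.1]
  exact checkC_sound hc

/-- Proof. Let `Q` be a code of `Qprod n d H`. `pcPoly_QQ`, `atZero_bidx`, `map_prod`: `atZero` of `QQ n δ Q` is `1`;
`N` from `checkC_complete` for `QQ n δ Q`. For `τ` take a code (`exists_qval`), `exists_rc`, the certificate of `checkC_complete` for
`toCore E c`, and `dom_decide0`. -/
theorem decide0_dom (n d H δ : ℕ) :
    ∃ N : ℕ, 1 ≤ N ∧ ∀ τ : ℚ, τ ≠ 0 → N * τ.num.natAbs ^ N ≤ τ.den → ∀ E : Ex, InClass n d H δ τ E →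
      (decide0 E).Dom := by
  obtain ⟨Q, hQ⟩ := exists_pcPoly (Qprod n d H)
  have h1 : atZero (δ * n) (pcPoly (δ * n + 1) (QQ n δ Q)) = 1 := by
    rw [pcPoly_QQ, map_prod]
    refine Finset.prod_eq_one fun i _ => atZero_bidx δ i ?_
    rw [hQ]
    exact atZero_Qprod n d H
  obtain ⟨N, hN, h2⟩ := checkC_complete h1
  refine ⟨N, hN, fun τ hτ hle E hE => ?_⟩
  obtain ⟨t, rfl⟩ := exists_qval τ
  obtain ⟨k, W, hrc⟩ := exists_rc hE hQ
  obtain ⟨c, hc⟩ := h2 t hτ hle (GG E (((n, δ), k), ((Q, t), W))) k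
  exact dom_decide0 (c := ((((n, δ), k), ((Q, t), W)), c)) ⟨hrc, hc⟩

end Pool.Agent.Lib.MP_bbe012_lc.PP
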