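import Pool.Agent.Lib.MP_bbe012_lc.PP.KH
import Pool.Agent.Lib.MP_bbe012_lc.PP.KG2

/-!
# Stage 2: the basis of a family over an irreducible set of parameters
-/

namespace Pool.Agent.Lib.MP_bbe012_lc.PP

open MvPolynomial

private theorem KH2_atZD {n : ℕ} {A D : Type} [CommRing A] [CommRing D] (f : A →+* D)
    (Q : MvPolynomial (Fin (n + 1)) A) : atZD n D (map f Q) = map f (atZD n A Q) := by
  have h : ((atZD n D).toRingHom.comp (map f)) = (map f).comp (atZD n A).toRingHom := by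
    refine MvPolynomial.ringHom_ext (fun a => ?_) (fun i => ?_)
    · change atZD n D (map f (C a)) = map f (atZD n A (C a))
      unfold atZD
      rw [map_C, aeval_C, aeval_C, MvPolynomial.algebraMap_eq, MvPolynomial.algebraMap_eq, map_C]
    · change atZD n D (map f (X i)) = map f (atZD n A (X i))
      unfold atZD
      rw [map_X, aeval_X, aeval_X]
      induction i using Fin.cases with
      | zero => rw [Fin.cases_zero, Fin.cases_zero, map_zero]
      | succ l => rw [Fin.cases_succ, Fin.cases_succ, map_X]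
  exact RingHom.congr_fun h Q

private theorem KH2_inT_C (n : ℕ) (a : ℚ) : inT n (Polynomial.C a) = C a := by
  unfold inT
  change Polynomial.aeval (X 0 : P1 n) (Polynomial.C a) = C a
  rw [Polynomial.aeval_C]
  rfl

private theorem KH2_Phi_C {n : ℕ} (Q G : P1 n) (a : ℚ) (K : ℕ) :
    Phi n Q (C a * G) K = ((Polynomial.C a : Polynomial ℚ) : PowerSeries ℚ) * Phi n Q G K := by
  rw [← KH2_inT_C, Phi_inT_mul]

private theorem KH2_core {q n : ℕ} (Q : PF q n) (h0 : atZD n (MvPolynomial (Fin q) ℤ) Q = 1)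
    {D : Type} [CommRing D] [IsDomain D] [Algebra ℚ D] [Algebra.FiniteType ℚ D]
    (π : MvPolynomial (Fin q) ℚ →+* D) (hπ : Function.Surjective π) :
    ∃ (h : MvPolynomial (Fin q) ℚ) (r : ℕ) (G : Fin r → PF q n) (κ : Fin r → ℕ)
      (T : Polynomial (MvPolynomial (Fin q) ℤ)) (e : ℕ), π h ≠ 0 ∧ T.natDegree ≤ e ∧
      ∀ (y : Fin q → ℤ) (ε : D →+* ℚ), (∀ f, ε (π f) = evQ y f) → evQ y h ≠ 0 →
        spT y T ≠ 0 ∧
        (∃ B : Fin r → Fin r → Polynomial ℚ, (∀ i j, (B i j).natDegree ≤ e) ∧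
          ∀ i, ((((spT y T).map (Int.castRingHom ℚ) : Polynomial ℚ)) : PowerSeries ℚ) *
            PowerSeries.derivative ℚ (Phi n (spP y Q) (spP y (G i)) (κ i)) =
              ∑ j, (B i j : PowerSeries ℚ) * Phi n (spP y Q) (spP y (G j)) (κ j)) ∧
        ∀ (F : P1 n) (K : ℕ), ∃ (c : Polynomial ℚ) (a : Fin r → Polynomial ℚ), c ≠ 0 ∧
          (c : PowerSeries ℚ) * Phi n (spP y Q) F K =
            ∑ j, (a j : PowerSeries ℚ) * Phi n (spP y Q) (spP y (G j)) (κ j) := by
  obtain ⟨QD, hQD⟩ : ∃ QD : MvPolynomial (Fin (n + 1)) D,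
      QD = map π (map (map (Int.castRingHom ℚ)) Q) := ⟨_, rfl⟩
  have hQD1 : atZD n D QD = 1 := by
    rw [hQD, KH2_atZD, KH2_atZD, h0, map_one, map_one]
  have hQD0 : QD ≠ 0 := by
    intro h
    rw [h, map_zero] at hQD1
    exact zero_ne_one hQD1
  obtain ⟨w, ρ, r, e, κ, hw, hρ, hred⟩ := family_reduction QD hQD0
  choose m N a g hK hκ hid using fun i : Fin r => hred (QD * pderiv 0 (e i) -
    ((κ i : ℕ) : MvPolynomial (Fin (n + 1)) D) * (e i * pderiv 0 QD)) (κ i + 1)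
  obtain ⟨M0, hM0⟩ : ∃ M0, M0 = ∑ i, m i := ⟨_, rfl⟩
  obtain ⟨A, hA⟩ : ∃ A, A = ∑ i, (N i + 1) := ⟨_, rfl⟩
  have hmle : ∀ i, m i ≤ M0 := by
    intro i
    rw [hM0]
    exact Finset.single_le_sum (f := m) (fun _ _ => Nat.zero_le _) (Finset.mem_univ i)
  have hNle : ∀ i, N i + 1 ≤ A := by
    intro i
    rw [hA]
    exact Finset.single_le_sum (f := fun i => N i + 1) (fun _ _ => Nat.zero_le _) (Finset.mem_univ i)
  obtain ⟨T0, hT0⟩ : ∃ T0 : Polynomial D, T0 = Polynomial.C w ^ A * ρ ^ M0 := ⟨_, rfl⟩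
  obtain ⟨a', ha'⟩ : ∃ a' : Fin r → Fin r → Polynomial D, a' = fun i k =>
      Polynomial.C w ^ (A - (N i + 1)) * ρ ^ (M0 - m i) * a i k := ⟨_, rfl⟩
  obtain ⟨h, hh⟩ := hπ (w * ρ.leadingCoeff)
  have hlc : w * ρ.leadingCoeff ≠ 0 := mul_ne_zero hw (Polynomial.leadingCoeff_ne_zero.2 hρ)
  choose F hF using fun k => MvPolynomial.map_surjective (σ := Fin (n + 1)) π hπ (e k)
  choose Mk G hMk hG using fun k => exists_lift_mv (F k)
  obtain ⟨FT, hFT⟩ := Polynomial.map_surjective π hπ T0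
  obtain ⟨MT, T, hMT, hT⟩ := exists_lift_poly FT
  refine ⟨h, r, G, κ, T, T.natDegree + ∑ i, ∑ k, (a' i k).natDegree, ?_, Nat.le_add_right _ _, ?_⟩
  · rw [hh]
    exact hlc
  intro y ε hε hhy
  have hmapε : ∀ f : MvPolynomial (Fin (n + 1)) (MvPolynomial (Fin q) ℚ),
      map ε (map π f) = map (evQ y) f := by
    intro f
    rw [map_map]
    congr 2
    exact RingHom.ext hε
  have hQy : map ε QD = spP y Q := by
    rw [hQD, hmapε, spP_eq']
  have hGy : ∀ k, spP y (G k) = C ((Mk k : ℕ) : ℚ) * map ε (e k) := by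
    intro k
    rw [spP_eq', hG, map_mul, map_C, ← hmapε, hF]
    congr 2
    unfold evQ
    rw [eval_C]
  have hεh : ε w * ε ρ.leadingCoeff ≠ 0 := by
    rw [← map_mul, ← hh, hε]
    exact hhy
  have hεw : ε w ≠ 0 := left_ne_zero_of_mul hεh
  have hρε : ρ.map ε ≠ 0 := by
    intro h1
    have h2 := congrArg (fun p => Polynomial.coeff p ρ.natDegree) h1
    simp only [Polynomial.coeff_map, Polynomial.coeff_zero] at h2
    exact right_ne_zero_of_mul hεh h2
  have hCw : (Polynomial.C (ε w) : Polynomial ℚ) ≠ 0 := Polynomial.C_ne_zero.2 hεw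
  have hT0ε : T0.map ε = Polynomial.C (ε w) ^ A * (ρ.map ε) ^ M0 := by
    rw [hT0, Polynomial.map_mul, Polynomial.map_pow, Polynomial.map_pow, Polynomial.map_C]
  have hT0ne : T0.map ε ≠ 0 := by
    rw [hT0ε]
    exact mul_ne_zero (pow_ne_zero _ hCw) (pow_ne_zero _ hρε)
  have hTy : (spT y T).map (Int.castRingHom ℚ) = Polynomial.C ((MT : ℕ) : ℚ) * T0.map ε := by
    rw [spT_eq', hT, Polynomial.map_mul, Polynomial.map_C, ← hFT, Polynomial.map_map]
    congr 2
    · unfold evQ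
      rw [eval_C]
    · exact (RingHom.ext hε).symm
  have hMTq : ((MT : ℕ) : ℚ) ≠ 0 := Nat.cast_ne_zero.2 hMT
  have hMkq : ∀ k, ((Mk k : ℕ) : ℚ) ≠ 0 := fun k => Nat.cast_ne_zero.2 (hMk k)
  have hatQ : atZero n (map ε QD) = 1 := by
    rw [hQy]
    exact atZero_spP h0 y
  obtain ⟨P, hP⟩ : ∃ P : Fin r → PowerSeries ℚ,
      P = fun k => Phi n (map ε QD) (map ε (e k)) (κ k) := ⟨_, rfl⟩
  have hPk : ∀ k, Phi n (map ε QD) (map ε (e k)) (κ k) = P k := fun k => by rw [hP]
  have hGP : ∀ k, Phi n (spP y Q) (spP y (G k)) (κ k) =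
      ((Polynomial.C ((Mk k : ℕ) : ℚ) : Polynomial ℚ) : PowerSeries ℚ) * P k := by
    intro k
    rw [hGy, KH2_Phi_C, ← hQy, hPk]
  have hPG : ∀ k (b : Polynomial ℚ), (b : PowerSeries ℚ) * P k =
      ((Polynomial.C (((Mk k : ℕ) : ℚ)⁻¹) * b : Polynomial ℚ) : PowerSeries ℚ) *
        Phi n (spP y Q) (spP y (G k)) (κ k) := by
    intro k b
    rw [hGP, ← mul_assoc, ← Polynomial.coe_mul]
    congr 2
    rw [mul_right_comm, ← Polynomial.C_mul, inv_mul_cancel₀ (hMkq k), Polynomial.C_1, one_mul]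
  refine ⟨?_, ?_, ?_⟩
  · intro h1
    rw [h1, Polynomial.map_zero] at hTy
    exact mul_ne_zero (Polynomial.C_ne_zero.2 hMTq) hT0ne hTy.symm
  · refine ⟨fun i k => Polynomial.C (((Mk k : ℕ) : ℚ)⁻¹) *
      (Polynomial.C (((MT : ℕ) : ℚ) * ((Mk i : ℕ) : ℚ)) * (a' i k).map ε), fun i k => ?_, fun i => ?_⟩
    · refine (Polynomial.natDegree_C_mul_le _ _).trans ((Polynomial.natDegree_C_mul_le _ _).trans
        (Polynomial.natDegree_map_le.trans ?_))
      have h1 := Finset.single_le_sum (f := fun k => (a' i k).natDegree) (fun _ _ => Nat.zero_le _)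
        (Finset.mem_univ k)
      have h2 := Finset.single_le_sum (f := fun i => ∑ k, (a' i k).natDegree)
        (fun _ _ => Nat.zero_le _) (Finset.mem_univ i)
      exact (h1.trans h2).trans (Nat.le_add_left _ _)
    · have h1 := Phi_of_reduction ε QD hatQ (hK i) (hκ i) (hid i)
      rw [← derivative_Phi_map ε QD hatQ, hPk] at h1
      have h2 : ((T0.map ε : Polynomial ℚ) : PowerSeries ℚ) * PowerSeries.derivative ℚ (P i) =
          ∑ k, (((a' i k).map ε : Polynomial ℚ) : PowerSeries ℚ) * P k := by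
        have e1 : T0.map ε = (Polynomial.C (ε w) ^ (A - (N i + 1)) * (ρ.map ε) ^ (M0 - m i)) *
            (Polynomial.C (ε w) ^ (N i + 1) * (ρ.map ε) ^ m i) := by
          rw [hT0ε, mul_mul_mul_comm, ← pow_add, ← pow_add, Nat.sub_add_cancel (hNle i),
            Nat.sub_add_cancel (hmle i)]
        rw [e1, Polynomial.coe_mul, mul_assoc, h1, Finset.mul_sum]
        refine Finset.sum_congr rfl fun k _ => ?_
        rw [hPk, ← mul_assoc, ← Polynomial.coe_mul]
        congr 2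
        rw [ha']
        simp only [Polynomial.map_mul, Polynomial.map_pow, Polynomial.map_C]
      have h3 : PowerSeries.derivative ℚ (Phi n (spP y Q) (spP y (G i)) (κ i)) =
          ((Polynomial.C ((Mk i : ℕ) : ℚ) : Polynomial ℚ) : PowerSeries ℚ) *
            PowerSeries.derivative ℚ (P i) := by
        rw [hGP, Polynomial.coe_C, Derivation.leibniz, PowerSeries.derivative_C, smul_zero, add_zero,
          smul_eq_mul]
      rw [h3, hTy]
      have h4 : ((Polynomial.C ((MT : ℕ) : ℚ) * T0.map ε : Polynomial ℚ) : PowerSeries ℚ) *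
          (((Polynomial.C ((Mk i : ℕ) : ℚ) : Polynomial ℚ) : PowerSeries ℚ) *
            PowerSeries.derivative ℚ (P i)) =
          ((Polynomial.C (((MT : ℕ) : ℚ) * ((Mk i : ℕ) : ℚ)) : Polynomial ℚ) : PowerSeries ℚ) *
            (((T0.map ε : Polynomial ℚ) : PowerSeries ℚ) * PowerSeries.derivative ℚ (P i)) := by
        rw [Polynomial.coe_mul, Polynomial.C_mul, Polynomial.coe_mul]
        ring
      rw [h4, h2, Finset.mul_sum]
      refine Finset.sum_congr rfl fun k _ => ?_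
      rw [← mul_assoc, ← Polynomial.coe_mul, hPG]
  · intro F' K
    obtain ⟨m', N', b, g', hK', hκ', hid'⟩ := hred (map (algebraMap ℚ D) F') K
    have h1 := Phi_of_reduction ε QD hatQ hK' hκ' hid'
    have h2 : map ε (map (algebraMap ℚ D) F') = F' := by
      rw [map_map]
      have h3 : ε.comp (algebraMap ℚ D) = RingHom.id ℚ := Subsingleton.elim _ _
      rw [h3, map_id]
    rw [h2, hQy] at h1
    refine ⟨Polynomial.C (ε w) ^ (N' + 1) * (ρ.map ε) ^ m',
      fun k => Polynomial.C (((Mk k : ℕ) : ℚ)⁻¹) * (b k).map ε,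
      mul_ne_zero (pow_ne_zero _ hCw) (pow_ne_zero _ hρε), ?_⟩
    rw [h1]
    refine Finset.sum_congr rfl fun k _ => ?_
    rw [← hPG, ← hPk, hQy]

/-- Over the integral points of an irreducible algebraic set `V(I)` of parameters, outside of a proper closed subset `h = 0`, there is a
finite generating family with a system of differential equations of bounded degree, and `T` is the specialization of one polynomial.

Proof. `D = ℚ[y] ⧸ I`, `π : ℤ[y] → D` (`map (Int.castRingHom ℚ)` and the quotient map), `QD = map π Q ∈ S = D[t, x]`; `QD ≠ 0` because `atZD n D QD = 1` (map of `h0`). `w, ρ, r, e, κ` from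
`family_reduction QD`. For every `i` apply it to `G = QD * pderiv 0 (e i) - κ i * (e i * pderiv 0 QD)`, `K = κ i + 1`: `m i, N i, a i`. Let `m, A` be the maxima of `m i`, `N i + 1`;
multiplying by `Polynomial.C w ^ (A - (N i + 1)) * ρ ^ (m - m i)` we get coefficients `a' i k ∈ D[t]` for the common `T₀ = Polynomial.C w ^ A * ρ ^ m` .
Let `ρ j ≠ 0` be a coefficient of `ρ`; `w * ρ_j ≠ 0` (domain); `h` is a lift of `w * ρ_j` to `ℚ[y]`, so `h ∉ I`. Lift `e k` to `ℚ[y][t, x]` (`map_surjective`, `Ideal.Quotient.mk_surjective`) and multiply by `M k`: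
`G k` (`exists_lift_mv`); lift `T₀` to `ℚ[y][t]` and multiply by `M`: `T` (`exists_lift_poly`).
For `y` with `evQ y f = 0` for all `f ∈ I` let `ε : D →+* ℚ` be `Ideal.Quotient.lift I (evQ y) _`. Then `map ε QD = spP y Q`, `spP y (G k) = C (M k) * map ε (e k)`, `(spT y T).map = C M * T₀.map ε`,
`T₀.map ε = C (ε w) ^ A * (ρ.map ε) ^ m ≠ 0` as `ε (w * ρ_j) = evQ y h ≠ 0`. `Phi_of_reduction` and `derivative_Phi_map` give
`T₀_ε * (Phi (e i) (κ i))' = ∑ k, (a' i k)_ε * Phi (e k) (κ k)`, so `B i k = C (M * M i / M k) * (a' i k)_ε`, of degree at most the degree of `a' i k`. For `F`, `K`: apply the reduction to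
`map (algebraMap ℚ D) F` (`map ε` of it is `F`), `c = C (ε w) ^ (N + 1) * (ρ.map ε) ^ m ≠ 0`. -/
theorem family_base {q n : ℕ} (Q : PF q n) (h0 : atZD n (MvPolynomial (Fin q) ℤ) Q = 1)
    (I : Ideal (MvPolynomial (Fin q) ℚ)) [I.IsPrime] :
    ∃ (h : MvPolynomial (Fin q) ℚ) (r : ℕ) (G : Fin r → PF q n) (κ : Fin r → ℕ)
      (T : Polynomial (MvPolynomial (Fin q) ℤ)) (e : ℕ), h ∉ I ∧ T.natDegree ≤ e ∧
      ∀ y : Fin q → ℤ, (∀ f ∈ I, evQ y f = 0) → evQ y h ≠ 0 →
        spT y T ≠ 0 ∧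
        (∃ B : Fin r → Fin r → Polynomial ℚ, (∀ i j, (B i j).natDegree ≤ e) ∧
          ∀ i, ((((spT y T).map (Int.castRingHom ℚ) : Polynomial ℚ)) : PowerSeries ℚ) *
            PowerSeries.derivative ℚ (Phi n (spP y Q) (spP y (G i)) (κ i)) =
              ∑ j, (B i j : PowerSeries ℚ) * Phi n (spP y Q) (spP y (G j)) (κ j)) ∧
        ∀ (F : P1 n) (K : ℕ), ∃ (c : Polynomial ℚ) (a : Fin r → Polynomial ℚ), c ≠ 0 ∧
          (c : PowerSeries ℚ) * Phi n (spP y Q) F K =
            ∑ j, (a j : PowerSeries ℚ) * Phi n (spP y Q) (spP y (G j)) (κ j) := by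
  haveI : IsDomain (MvPolynomial (Fin q) ℚ ⧸ I) := Ideal.Quotient.isDomain I
  haveI : Algebra.FiniteType ℚ (MvPolynomial (Fin q) ℚ ⧸ I) := inferInstance
  obtain ⟨h, r, G, κ, T, e, hh, hTe, hy⟩ := KH2_core Q h0 (Ideal.Quotient.mk I)
    Ideal.Quotient.mk_surjective
  refine ⟨h, r, G, κ, T, e, ?_, hTe, fun y hI hhy => ?_⟩
  · intro h1
    exact hh (Ideal.Quotient.eq_zero_iff_mem.2 h1)
  · exact hy y (Ideal.Quotient.lift I (evQ y) hI) (fun f => Ideal.Quotient.lift_mk I _ _) hhy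

end Pool.Agent.Lib.MP_bbe012_lc.PP
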