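import Pool.Agent.Lib.MP_bbe012_lc.PP.SDefs
import Pool.Agent.Lib.MP_bbe012_lc.PP.Est

/-!
# Stage 2: sizes of specializations
-/

namespace Pool.Agent.Lib.MP_bbe012_lc.PP

open MvPolynomial

private theorem SB_eval_le {q : ℕ} (f : MvPolynomial (Fin q) ℤ) (y : Fin q → ℤ) (H : ℕ) (hH : 1 ≤ H)
    (hy : ∀ i, (y i).natAbs ≤ H) : (eval y f).natAbs ≤ l1I f * H ^ f.totalDegree := by
  rw [eval_eq', l1I, Finset.sum_mul]
  refine (Int.natAbs_sum_le _ _).trans (Finset.sum_le_sum fun d hd => ?_)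
  rw [Int.natAbs_mul]
  refine Nat.mul_le_mul_left _ ?_
  have h1 : (∏ i, y i ^ d i).natAbs = ∏ i, (y i).natAbs ^ d i := by
    rw [← Int.natAbsHom_apply, map_prod]
    refine Finset.prod_congr rfl fun i _ => ?_
    rw [Int.natAbsHom_apply, Int.natAbs_pow]
  rw [h1]
  have h2 : ∏ i, (y i).natAbs ^ d i ≤ ∏ i : Fin q, H ^ d i :=
    Finset.prod_le_prod' fun i _ => Nat.pow_le_pow_left (hy i) _
  refine h2.trans ?_
  rw [Finset.prod_pow_eq_pow_sum]
  refine Nat.pow_le_pow_right hH ?_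
  have h3 := le_totalDegree hd
  rw [Finsupp.sum_fintype _ _ (fun _ => rfl)] at h3
  exact h3

private theorem SB_sum_le {ι : Type} (s : Finset ι) (g t : ι → ℕ) (H : ℕ) (hH : 1 ≤ H) :
    ∑ u ∈ s, g u * H ^ t u ≤ (∑ u ∈ s, g u + ∑ u ∈ s, t u) * H ^ (∑ u ∈ s, g u + ∑ u ∈ s, t u) := by
  have h1 : ∑ u ∈ s, g u * H ^ t u ≤ ∑ u ∈ s, g u * H ^ (∑ u ∈ s, g u + ∑ u ∈ s, t u) := by
    refine Finset.sum_le_sum fun u hu => Nat.mul_le_mul_left _ (Nat.pow_le_pow_right hH ?_)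
    have := Finset.single_le_sum (f := t) (fun i _ => Nat.zero_le _) hu
    omega
  rw [← Finset.sum_mul] at h1
  exact h1.trans (Nat.mul_le_mul_right _ (Nat.le_add_right _ _))

/-- Proof. `|eval y f| ≤ (l1I f) * H ^ (f.totalDegree)` for every coefficient `f ∈ ℤ[y]` of `G`, and the sum over the support of `map (eval y) G`
is at most the sum over the support of `G` (`support_map_subset`); take `c` at least the sum of the `l1I f` and all total degrees. -/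
theorem exists_l1I_spec {q n : ℕ} (G : PF q n) : ∃ c : ℕ, ∀ (y : Fin q → ℤ) (H : ℕ), 1 ≤ H →
    (∀ i, (y i).natAbs ≤ H) → l1I (map (eval y) G) ≤ c * H ^ c := by
  refine ⟨∑ u ∈ G.support, l1I (coeff u G) + ∑ u ∈ G.support, (coeff u G).totalDegree,
    fun y H hH hy => ?_⟩
  refine le_trans ?_ (SB_sum_le G.support (fun u => l1I (coeff u G))
    (fun u => (coeff u G).totalDegree) H hH)
  unfold l1I
  refine (Finset.sum_le_sum_of_subset (support_map_subset (eval y) G)).trans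
    (Finset.sum_le_sum fun u _ => ?_)
  rw [coeff_map]
  exact SB_eval_le (coeff u G) y H hH hy

/-- The same for polynomials in one variable. -/
theorem exists_l1_spT {q : ℕ} (T : Polynomial (MvPolynomial (Fin q) ℤ)) : ∃ c : ℕ, ∀ (y : Fin q → ℤ) (H : ℕ), 1 ≤ H →
    (∀ i, (y i).natAbs ≤ H) → l1 (spT y T) ≤ ((c * H ^ c : ℕ) : ℤ) := by
  refine ⟨∑ u ∈ Finset.range (T.natDegree + 1), l1I (T.coeff u) +
    ∑ u ∈ Finset.range (T.natDegree + 1), (T.coeff u).totalDegree, fun y H hH hy => ?_⟩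
  have h1 := SB_sum_le (Finset.range (T.natDegree + 1)) (fun u => l1I (T.coeff u))
    (fun u => (T.coeff u).totalDegree) H hH
  refine le_trans ?_ (Int.ofNat_le.2 h1)
  unfold l1
  have h2 : (spT y T).natDegree ≤ T.natDegree := Polynomial.natDegree_map_le
  have h3 : Finset.range ((spT y T).natDegree + 1) ⊆ Finset.range (T.natDegree + 1) :=
    Finset.range_subset_range.2 (by omega)
  refine (Finset.sum_le_sum_of_subset_of_nonneg h3 (fun _ _ _ => abs_nonneg _)).trans ?_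
  rw [Nat.cast_sum]
  refine Finset.sum_le_sum fun u _ => ?_
  have h4 : (spT y T).coeff u = eval y (T.coeff u) := Polynomial.coeff_map (eval y) u
  rw [h4, Int.abs_eq_natAbs]
  exact Int.ofNat_le.2 (SB_eval_le (T.coeff u) y H hH hy)

/-- Proof: `T = X ^ k * T₁` with `T₁.coeff 0 ≠ 0`, an integer of absolute value at least `1`; `|τ| < 1` (as `l1 T ≥ 1`), and
`|∑_{j ≥ 1} (T₁.coeff j) τ ^ j| ≤ |τ| * l1 T < 1`. -/
theorem eval_ne_zero_small (T : Polynomial ℤ) (hT : T ≠ 0) (τ : ℚ) (hτ : τ ≠ 0) (h : (l1 T : ℚ) * |τ| < 1) :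
    (T.map (Int.castRingHom ℚ)).eval τ ≠ 0 := by
  intro h0
  obtain ⟨k, hk⟩ : ∃ k, k = T.natTrailingDegree := ⟨_, rfl⟩
  have hck : T.coeff k ≠ 0 := by
    rw [hk]
    exact Polynomial.trailingCoeff_nonzero_iff_nonzero.2 hT
  have hkN : k ∈ Finset.range (T.natDegree + 1) := by
    rw [Finset.mem_range, Nat.lt_succ_iff]
    exact Polynomial.le_natDegree_of_ne_zero hck
  have hck1 : (1 : ℚ) ≤ |(T.coeff k : ℚ)| := by
    rw [← Int.cast_abs]
    exact_mod_cast Int.one_le_abs hck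
  have hpos : 0 < |τ| := abs_pos.2 hτ
  have hl1 : (l1 T : ℚ) = ∑ j ∈ Finset.range (T.natDegree + 1), |(T.coeff j : ℚ)| := by
    unfold l1
    rw [Int.cast_sum]
    exact Finset.sum_congr rfl fun j _ => Int.cast_abs
  have hl1k : |(T.coeff k : ℚ)| ≤ (l1 T : ℚ) := by
    rw [hl1]
    exact Finset.single_le_sum (f := fun j => |(T.coeff j : ℚ)|) (fun _ _ => abs_nonneg _) hkN
  have hτ1 : |τ| ≤ 1 := by
    by_contra hcon
    rw [not_le] at hcon
    nlinarith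
  rw [Polynomial.eval_eq_sum_range' (n := T.natDegree + 1) (Nat.lt_succ_iff.2
    Polynomial.natDegree_map_le), ← Finset.add_sum_erase _ _ hkN] at h0
  have h1 : |∑ j ∈ (Finset.range (T.natDegree + 1)).erase k,
      (T.map (Int.castRingHom ℚ)).coeff j * τ ^ j| ≤ (l1 T : ℚ) * |τ| ^ (k + 1) := by
    refine (Finset.abs_sum_le_sum_abs _ _).trans ?_
    rw [hl1, Finset.sum_mul]
    refine le_trans (Finset.sum_le_sum (g := fun j => |(T.coeff j : ℚ)| * |τ| ^ (k + 1)) fun j hj => ?_)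
      (Finset.sum_le_sum_of_subset_of_nonneg (Finset.erase_subset _ _) fun _ _ _ => by positivity)
    rw [abs_mul, abs_pow, Polynomial.coeff_map, eq_intCast]
    by_cases hlt : j < k
    · rw [hk] at hlt
      rw [Polynomial.coeff_eq_zero_of_lt_natTrailingDegree hlt]
      simp
    · have hjk : k + 1 ≤ j := by
        have := (Finset.mem_erase.1 hj).1
        omega
      exact mul_le_mul_of_nonneg_left (pow_le_pow_of_le_one hpos.le hτ1 hjk) (abs_nonneg _)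
  have h2 : |(T.coeff k : ℚ)| * |τ| ^ k ≤ (l1 T : ℚ) * |τ| ^ (k + 1) := by
    rw [Polynomial.coeff_map, eq_intCast] at h0
    have h3 := eq_neg_of_add_eq_zero_left h0
    have h4 := congrArg (fun x : ℚ => |x|) h3
    simp only [abs_mul, abs_pow, abs_neg] at h4
    rw [h4]
    exact h1
  have h5 : (l1 T : ℚ) * |τ| ^ (k + 1) < |τ| ^ k := by
    rw [pow_succ, mul_left_comm]
    have := mul_lt_mul_of_pos_left h (pow_pos hpos k)
    rw [mul_one] at this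
    exact this
  have h6 : |τ| ^ k ≤ |(T.coeff k : ℚ)| * |τ| ^ k :=
    le_mul_of_one_le_left (pow_nonneg hpos.le k) hck1
  linarith

/-- Proof: every term of `wn` has a factor `|τ| ^ (m 0) ≤ |τ|`. -/
theorem wn_le_small {n : ℕ} (Q : MvPolynomial (Fin (n + 1)) ℤ) (τ : ℚ) (h1 : |τ| ≤ 1)
    (h2 : (l1I Q : ℚ) * |τ| ≤ 1 / 2) : wn n (map (Int.castRingHom ℚ) Q) τ ≤ 1 / 2 := by
  refine le_trans ?_ h2
  unfold wn l1I
  rw [Nat.cast_sum, Finset.sum_mul]
  refine le_trans (Finset.sum_le_sum (g := fun m => (((coeff m Q).natAbs : ℕ) : ℚ) * |τ|) fun m hm => ?_)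
    (Finset.sum_le_sum_of_subset_of_nonneg ((Finset.filter_subset _ _).trans
      (support_map_subset _ Q)) fun _ _ _ => by positivity)
  rw [coeff_map, eq_intCast, ← Int.cast_abs, Int.abs_eq_natAbs, Int.cast_natCast]
  refine mul_le_mul_of_nonneg_left ?_ (Nat.cast_nonneg _)
  have h3 := (Finset.mem_filter.1 hm).2
  calc |τ| ^ m 0 ≤ |τ| ^ 1 := pow_le_pow_of_le_one (abs_nonneg _) h1 (Nat.one_le_iff_ne_zero.2 h3)
    _ = |τ| := pow_one _

/-- Arithmetic of the bounds. `a` is the numerator and `b` the denominator.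

Proof. `C * L * a ≤ (c * c₁ ^ (c + 1)) * H ^ (c₁ * (c + 1)) * a ≤ (c * c₁ ^ (c + 1)) * (H * a) ^ (c₁ * (c + 1) + 1)`, so
`N₀ * (C * L * a) ^ N₀ ≤ N₀ * (c * c₁ ^ (c + 1)) ^ N₀ * (H * a) ^ ((c₁ * (c + 1) + 1) * N₀)`; take for `N` the sum of the constant `N₀ * (c * c₁ ^ (c + 1)) ^ N₀`, the exponent
`(c₁ * (c + 1) + 1) * N₀`, `N₀`, `2 * c₁ + 1` and `1` (`H * a ≥ 1`). The last statement: `2 * (c₁ * H ^ c₁) * a ≤ N * (H * a) ^ N`. -/
theorem arith_combine (N₀ c c₁ : ℕ) : ∃ N : ℕ, 1 ≤ N ∧ ∀ H a b : ℕ, 1 ≤ H → 1 ≤ a → N * (H * a) ^ N ≤ b →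
    (∀ C L : ℕ, C ≤ c * (c₁ * H ^ c₁) ^ c → L ≤ c₁ * H ^ c₁ → N₀ * (C * L * a) ^ N₀ ≤ b) ∧
    2 * (c₁ * H ^ c₁) * a < b := by
  obtain ⟨K, hK⟩ : ∃ K, K = c * c₁ ^ (c + 1) := ⟨_, rfl⟩
  obtain ⟨E, hE⟩ : ∃ E, E = c₁ * (c + 1) + 1 := ⟨_, rfl⟩
  obtain ⟨N, hN⟩ : ∃ N, N = N₀ * K ^ N₀ + E * N₀ + 2 * c₁ + 1 := ⟨_, rfl⟩
  refine ⟨N, by omega, fun H a b hH ha hb => ?_⟩
  have hHa : 1 ≤ H * a := Nat.mul_pos hH ha
  have hHle : H ≤ H * a := Nat.le_mul_of_pos_right H ha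
  have hale : a ≤ H * a := Nat.le_mul_of_pos_left a hH
  refine ⟨fun C L hC hL => ?_, ?_⟩
  · have h1 : C * L * a ≤ K * (H * a) ^ E := by
      have e1 : C * L * a ≤ c * (c₁ * H ^ c₁) ^ c * (c₁ * H ^ c₁) * a := by gcongr
      have e2 : c * (c₁ * H ^ c₁) ^ c * (c₁ * H ^ c₁) * a = K * (H ^ (c₁ * (c + 1)) * a) := by
        rw [hK]
        ring
      have e3 : H ^ (c₁ * (c + 1)) * a ≤ (H * a) ^ E := by
        rw [hE, pow_succ]
        exact Nat.mul_le_mul (Nat.pow_le_pow_left hHle _) hale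
      rw [e2] at e1
      exact e1.trans (Nat.mul_le_mul_left K e3)
    have h2 : N₀ * (C * L * a) ^ N₀ ≤ (N₀ * K ^ N₀) * (H * a) ^ (E * N₀) := by
      calc N₀ * (C * L * a) ^ N₀ ≤ N₀ * (K * (H * a) ^ E) ^ N₀ := by gcongr
        _ = (N₀ * K ^ N₀) * (H * a) ^ (E * N₀) := by
          rw [mul_pow, ← pow_mul]
          ring
    refine h2.trans (le_trans ?_ hb)
    refine Nat.mul_le_mul ?_ (Nat.pow_le_pow_right hHa ?_)
    · rw [hN]
      omega
    · rw [hN]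
      omega
  · refine lt_of_lt_of_le ?_ hb
    have h1 : H ^ c₁ * a ≤ (H * a) ^ N := by
      calc H ^ c₁ * a ≤ (H * a) ^ c₁ * (H * a) :=
            Nat.mul_le_mul (Nat.pow_le_pow_left hHle _) hale
        _ = (H * a) ^ (c₁ + 1) := (pow_succ _ _).symm
        _ ≤ (H * a) ^ N := Nat.pow_le_pow_right hHa (by omega)
    have h2 : 2 * (c₁ * H ^ c₁) * a = (2 * c₁) * (H ^ c₁ * a) := by ring
    rw [h2]
    have h3 : (2 * c₁) * (H ^ c₁ * a) ≤ (2 * c₁) * (H * a) ^ N := Nat.mul_le_mul_left _ h1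
    refine lt_of_le_of_lt h3 ?_
    have h4 : 0 < (H * a) ^ N := Nat.pow_pos hHa
    have h5 : 2 * c₁ < N := by omega
    exact Nat.mul_lt_mul_of_pos_right h5 h4

end Pool.Agent.Lib.MP_bbe012_lc.PP
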