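import Pool.Agent.Lib.MP_bbe012_lc.PP.SDefs
import Pool.Agent.Lib.MP_bbe012_lc.PP.MainB

/-!
# Stage 2: from relations between values to certificates, for dependent families
-/

namespace Pool.Agent.Lib.MP_bbe012_lc.PP

open MvPolynomial

private theorem sc_step {r : ℕ} (τ : ℚ) (f : PowerSeries ℚ) (Y : Fin (r + 1) → PowerSeries ℚ)
    (hrel : ∀ lam : Fin (r + 1) → ℚ, ∑ i, (lam i : ℝ) * ev τ (Y i) = 0 →
      ∃ b : Fin (r + 1) → Polynomial ℚ, ∑ i, (b i : PowerSeries ℚ) * Y i = 0 ∧ ∀ i, (b i).eval τ = lam i)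
    (hev : ∀ (c : Polynomial ℚ) (a : Fin (r + 1) → Polynomial ℚ),
      (c : PowerSeries ℚ) * f = ∑ i, (a i : PowerSeries ℚ) * Y i →
      ∑ i, (((a i).eval τ : ℚ) : ℝ) * ev τ (Y i) = 0)
    (c : Polynomial ℚ) (a : Fin (r + 1) → Polynomial ℚ)
    (h : (c : PowerSeries ℚ) * f = ∑ i, (a i : PowerSeries ℚ) * Y i) :
    ∃ a' : Fin (r + 1) → Polynomial ℚ, (∀ i, (a' i).eval τ = 0) ∧
      (c : PowerSeries ℚ) * f = ∑ i, (a' i : PowerSeries ℚ) * Y i := by
  obtain ⟨b, hb, hbτ⟩ := hrel (fun i => (a i).eval τ) (hev c a h)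
  refine ⟨fun i => a i - b i, fun i => ?_, ?_⟩
  · rw [Polynomial.eval_sub, hbτ, sub_self]
  · have h1 : ∑ i, ((a i - b i : Polynomial ℚ) : PowerSeries ℚ) * Y i =
        ∑ i, (a i : PowerSeries ℚ) * Y i - ∑ i, (b i : PowerSeries ℚ) * Y i := by
      rw [← Finset.sum_sub_distrib]
      refine Finset.sum_congr rfl fun i _ => ?_
      rw [Polynomial.coe_sub, sub_mul]
    rw [h1, hb, sub_zero, h]

/-- Proof. Induction on `D`. By `hev` and `hrel` (`lam i = (a i).eval τ`) there are `b i` with `∑ b i * Y i = 0` and `(b i).eval τ = (a i).eval τ`; replace `a` by `a - b`, so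
`(a i).eval τ = 0` for all `i`. If `c.eval τ ≠ 0` we are done. Otherwise divide `c` and the `a i` by `X - C τ` (as in `MainB_reduce`), which decreases the degree of `c` (for `D = 0`: `c` is a non zero constant,
so `c.eval τ ≠ 0`). -/
theorem reduce_rel {r : ℕ} (τ : ℚ) (f : PowerSeries ℚ) (Y : Fin (r + 1) → PowerSeries ℚ)
    (hrel : ∀ lam : Fin (r + 1) → ℚ, ∑ i, (lam i : ℝ) * ev τ (Y i) = 0 →
      ∃ b : Fin (r + 1) → Polynomial ℚ, ∑ i, (b i : PowerSeries ℚ) * Y i = 0 ∧ ∀ i, (b i).eval τ = lam i)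
    (hev : ∀ (c : Polynomial ℚ) (a : Fin (r + 1) → Polynomial ℚ),
      (c : PowerSeries ℚ) * f = ∑ i, (a i : PowerSeries ℚ) * Y i →
      ∑ i, (((a i).eval τ : ℚ) : ℝ) * ev τ (Y i) = 0) :
    ∀ (D : ℕ) (c : Polynomial ℚ) (a : Fin (r + 1) → Polynomial ℚ), c ≠ 0 → c.natDegree ≤ D →
      (c : PowerSeries ℚ) * f = ∑ i, (a i : PowerSeries ℚ) * Y i →
      ∃ (c' : Polynomial ℚ) (a' : Fin (r + 1) → Polynomial ℚ), c'.eval τ ≠ 0 ∧ (∀ i, (a' i).eval τ = 0) ∧
        (c' : PowerSeries ℚ) * f = ∑ i, (a' i : PowerSeries ℚ) * Y i := by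
  intro D
  induction D with
  | zero =>
    intro c a hc hD h
    obtain ⟨a', ha', h'⟩ := sc_step τ f Y hrel hev c a h
    refine ⟨c, a', fun hcτ => hc ?_, ha', h'⟩
    rw [Polynomial.eq_C_of_natDegree_le_zero hD, Polynomial.eval_C] at hcτ
    rw [Polynomial.eq_C_of_natDegree_le_zero hD, hcτ, Polynomial.C_0]
  | succ D ih =>
    intro c a hc hD h
    obtain ⟨a', ha', h'⟩ := sc_step τ f Y hrel hev c a h
    by_cases hcτ : c.eval τ = 0
    · have hdc : (Polynomial.X - Polynomial.C τ) ∣ c := Polynomial.dvd_iff_isRoot.2 hcτ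
      have hda : ∀ i, (Polynomial.X - Polynomial.C τ) ∣ a' i :=
        fun i => Polynomial.dvd_iff_isRoot.2 (ha' i)
      obtain ⟨c1, hc1⟩ := hdc
      choose a1 ha1 using hda
      have hX : (Polynomial.X - Polynomial.C τ) ≠ 0 := Polynomial.X_sub_C_ne_zero τ
      have hXs : ((Polynomial.X - Polynomial.C τ : Polynomial ℚ) : PowerSeries ℚ) ≠ 0 := by
        intro h0
        apply hX
        rw [← Polynomial.coe_zero] at h0
        exact Polynomial.coe_inj.1 h0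
      have hc10 : c1 ≠ 0 := by
        rintro rfl
        rw [mul_zero] at hc1
        exact hc hc1
      refine ih c1 a1 hc10 ?_ ?_
      · rw [hc1, Polynomial.natDegree_mul hX hc10, Polynomial.natDegree_X_sub_C] at hD
        omega
      · refine mul_left_cancel₀ hXs ?_
        rw [← mul_assoc, ← Polynomial.coe_mul, ← hc1, h', Finset.mul_sum]
        refine Finset.sum_congr rfl fun i _ => ?_
        rw [← mul_assoc, ← Polynomial.coe_mul, ← ha1]
    · exact ⟨c, a', hcτ, ha', h'⟩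

/-- Proof: the second half of the proof of `value_zero` (MainB.lean), starting from `hda`. -/
theorem cert_of_rel {n r : ℕ} {Q : P1 n} (hQ : atZero n Q = 1) (A : Fin (r + 1) → P1 n) (κ : Fin (r + 1) → ℕ)
    (τ : ℚ) (G : P1 n) (K : ℕ) (c : Polynomial ℚ) (a : Fin (r + 1) → Polynomial ℚ) (hc : c.eval τ ≠ 0)
    (ha : ∀ i, (a i).eval τ = 0)
    (h : (c : PowerSeries ℚ) * Phi n Q G K = ∑ i, (a i : PowerSeries ℚ) * Phi n Q (A i) (κ i)) :
    ∃ (j : ℕ) (U : P1 n), Phi n Q (G * Q ^ j + (X 0 - C τ) * U) (K + j) = 0 := by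
  have hc0 : c.eval τ ≠ 0 := hc
  have ha0 : ∀ i, (a i).eval τ = 0 := ha
  have hca := h
  have hda : ∀ i, (Polynomial.X - Polynomial.C τ) ∣ a i := fun i => Polynomial.dvd_iff_isRoot.2 (ha0 i)
  choose b hb using hda
  obtain ⟨b', hb'⟩ := Polynomial.X_sub_C_dvd_sub_C_eval (a := τ) (p := c)
  have hκ : ∀ i, κ i ≤ K + ∑ i, κ i := fun i =>
    le_trans (Finset.single_le_sum (f := κ) (fun _ _ => Nat.zero_le _) (Finset.mem_univ i)) (Nat.le_add_left _ _)
  set j : ℕ := ∑ i, κ i with hj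
  refine ⟨j, C ((c.eval τ)⁻¹) * (inT n b' * (G * Q ^ j) - ∑ i, inT n (b i) * (A i * Q ^ (K + j - κ i))), ?_⟩
  have hXC : inT n (Polynomial.X - Polynomial.C τ) = X 0 - C τ := by
    rw [map_sub, MainB_inT_C, MainB_inT_X]
  have hcc : inT n c = C (c.eval τ) + (X 0 - C τ) * inT n b' := by
    have e : c = Polynomial.C (c.eval τ) + (Polynomial.X - Polynomial.C τ) * b' := by
      rw [← hb']; ring
    conv_lhs => rw [e]
    rw [map_add, map_mul, MainB_inT_C, hXC]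
  have haa : ∀ i, inT n (a i) = (X 0 - C τ) * inT n (b i) := by
    intro i
    rw [hb i, map_mul, hXC]
  have hinv : C (c.eval τ) * C ((c.eval τ)⁻¹) = (1 : P1 n) := by
    rw [← C_mul, mul_inv_cancel₀ hc0, C_1]
  have key : inT n (Polynomial.C (c.eval τ)) * (G * Q ^ j + (X 0 - C τ) * (C ((c.eval τ)⁻¹) *
      (inT n b' * (G * Q ^ j) - ∑ i, inT n (b i) * (A i * Q ^ (K + j - κ i))))) =
      inT n c * (G * Q ^ j) - ∑ i, inT n (a i) * (A i * Q ^ (K + j - κ i)) := by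
    have e1 : ∑ i, inT n (a i) * (A i * Q ^ (K + j - κ i)) =
        (X 0 - C τ) * ∑ i, inT n (b i) * (A i * Q ^ (K + j - κ i)) := by
      rw [Finset.mul_sum]
      refine Finset.sum_congr rfl fun i _ => ?_
      rw [haa i, mul_assoc]
    rw [e1, hcc, MainB_inT_C]
    have e2 : ∀ S : P1 n, C (c.eval τ) * (G * Q ^ j + (X 0 - C τ) * (C ((c.eval τ)⁻¹) *
        (inT n b' * (G * Q ^ j) - S))) =
        C (c.eval τ) * (G * Q ^ j) + (C (c.eval τ) * C ((c.eval τ)⁻¹)) * ((X 0 - C τ) *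
        (inT n b' * (G * Q ^ j) - S)) := by
      intro S; ring
    rw [e2, hinv]
    ring
  have hPhi := congrArg (fun W => Phi n Q W (K + j)) key

  rw [Phi_inT_mul, Phi_sub, Phi_sum, Phi_inT_mul, Phi_shift hQ, hca] at hPhi
  have e3 : ∑ i, Phi n Q (inT n (a i) * (A i * Q ^ (K + j - κ i))) (K + j) =
      ∑ i, (a i : PowerSeries ℚ) * Phi n Q (A i) (κ i) := by
    refine Finset.sum_congr rfl fun i _ => ?_
    rw [Phi_inT_mul]
    have e4 : Phi n Q (A i * Q ^ (K + j - κ i)) (K + j) = Phi n Q (A i) (κ i) := by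
      have e5 := Phi_shift hQ (A i) (κ i) (K + j - κ i)
      have e6 : κ i + (K + j - κ i) = K + j := by
        have := hκ i
        omega
      rw [e6] at e5
      exact e5
    rw [e4]
  rw [e3, sub_self] at hPhi
  rcases mul_eq_zero.1 hPhi with h0 | h0
  · exfalso
    apply hc0
    rw [← Polynomial.coe_zero] at h0
    exact Polynomial.C_eq_zero.1 (Polynomial.coe_inj.1 h0)
  · exact h0

/-- Proof: `reduce_rel` (`hev`: as `hsum` in the proof of `value_zero`, with `MainB_ev_sum`, `ev_mul'`, `summable_Phi`) and `cert_of_rel`. -/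
theorem good_of_relations {n r : ℕ} {Q : P1 n} (hQ : atZero n Q = 1) (A : Fin (r + 1) → P1 n) (κ : Fin (r + 1) → ℕ)
    (hspan : ∀ (G : P1 n) (K : ℕ), ∃ (c : Polynomial ℚ) (a : Fin (r + 1) → Polynomial ℚ), c ≠ 0 ∧
      (c : PowerSeries ℚ) * Phi n Q G K = ∑ i, (a i : PowerSeries ℚ) * Phi n Q (A i) (κ i))
    (τ : ℚ) (hw : wn n Q τ ≤ 1 / 2)
    (hrel : ∀ lam : Fin (r + 1) → ℚ, ∑ i, (lam i : ℝ) * ev τ (Phi n Q (A i) (κ i)) = 0 →
      ∃ b : Fin (r + 1) → Polynomial ℚ, ∑ i, (b i : PowerSeries ℚ) * Phi n Q (A i) (κ i) = 0 ∧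
        ∀ i, (b i).eval τ = lam i) :
    Good n Q τ := by
  refine ⟨hw, fun G K hev => ?_⟩
  obtain ⟨c₀, a₀, hc₀, h₀⟩ := hspan G K
  obtain ⟨c', a', hc', ha', h'⟩ := reduce_rel τ (Phi n Q G K) (fun i => Phi n Q (A i) (κ i)) hrel
    (fun c a hca => by
      have e1 : ev τ (∑ i, (a i : PowerSeries ℚ) * Phi n Q (A i) (κ i)) =
          ∑ i, ev τ ((a i : PowerSeries ℚ) * Phi n Q (A i) (κ i)) := by
        refine MainB_ev_sum τ Finset.univ _ fun i _ => ?_
        rw [← Phi_inT_mul]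
        exact summable_Phi hQ hw _ _
      have e2 := ev_mul' c (Phi n Q G K) τ (summable_Phi hQ hw G K)
      rw [hev, mul_zero] at e2
      have e3 : ev τ (∑ i, (a i : PowerSeries ℚ) * Phi n Q (A i) (κ i)) = 0 := by
        rw [← hca]
        exact e2
      rw [← e3, e1]
      refine Finset.sum_congr rfl fun i _ => ?_
      exact (ev_mul' (a i) (Phi n Q (A i) (κ i)) τ (summable_Phi hQ hw _ _)).symm)
    c₀.natDegree c₀ a₀ hc₀ le_rfl h₀
  exact cert_of_rel hQ A κ τ G K c' a' hc' ha' h'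

end Pool.Agent.Lib.MP_bbe012_lc.PP
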