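import Pool.Agent.Lib.MP_bbe012_lc.PP.UD

/-!
# Stage 2: the uniform theorem on relations between values
-/

namespace Pool.Agent.Lib.MP_bbe012_lc.PP

open Polynomial

private theorem ue_l1 (q : ℤ[X]) (D M : ℕ) (hq : q.natDegree ≤ D)
    (h : ∀ k, |q.coeff k| ≤ (M : ℤ)) : l1 q ≤ (D + 1) * M := by
  unfold l1
  calc ∑ k ∈ Finset.range (q.natDegree + 1), |q.coeff k|
      ≤ ∑ k ∈ Finset.range (q.natDegree + 1), (M : ℤ) := Finset.sum_le_sum fun k _ => h k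
    _ = (q.natDegree + 1) * M := by
        rw [Finset.sum_const, Finset.card_range, nsmul_eq_mul]
        push_cast
        ring
    _ ≤ (D + 1) * M := by
        have h1 : (q.natDegree : ℤ) ≤ D := by exact_mod_cast hq
        have h2 : (0 : ℤ) ≤ M := by positivity
        exact mul_le_mul_of_nonneg_right (by linarith) h2

private theorem ue_l1_nonneg (q : ℤ[X]) : 0 ≤ l1 q :=
  Finset.sum_nonneg fun _ _ => abs_nonneg _

/-- Comparison of the powers. -/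
private theorem ue_pow (C L C₁ r e g s K D : ℕ) (hC : 1 ≤ C) (hL : 1 ≤ L) (hC₁ : 1 ≤ C₁)
    (hg : 1 ≤ g) (hD : D = (r * (4 * (e + 1)) + 1) * g) (hK : K = D + 1 + (4 * (e + 1)) * g)
    (hs : s ≤ 2 * g) (t q Z a b : ℝ) (ht0 : 0 ≤ t) (ht : t ≤ L) (hq0 : 0 ≤ q)
    (hq : q ≤ ((D : ℝ) + 1) * (C₁ : ℝ) ^ g) (hZ : 0 ≤ Z) (ha : 1 ≤ a) (hb : 1 ≤ b) :
    (C : ℝ) ^ (K + 1) * b ^ (D + s * e) * (Z * (2 * C * (t ^ s * (2 ^ D * q)) *
      ((C : ℝ) * (a / b)) ^ (K - s))) ≤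
    Z * (((C : ℝ) ^ (r * (4 * (e + 1)) + 4 * (e + 1) + 3) * (2 * C) * (L : ℝ) ^ 2 *
      2 ^ (r * (4 * (e + 1)) + 1) * (2 ^ (r * (4 * (e + 1)) + 2) * C₁) *
      (C : ℝ) ^ (r * (4 * (e + 1)) + 4 * (e + 1) + 2)) *
      a ^ (r * (4 * (e + 1)) + 4 * (e + 1) + 2) / b) ^ g := by
  obtain ⟨E, hE⟩ : ∃ E, E = 4 * (e + 1) := ⟨_, rfl⟩
  rw [← hE] at hD hK ⊢
  obtain ⟨R, hR⟩ : ∃ R, R = r * E := ⟨_, rfl⟩
  rw [← hR] at hD ⊢
  have hCr : (1 : ℝ) ≤ C := by exact_mod_cast hC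
  have hLr : (1 : ℝ) ≤ L := by exact_mod_cast hL
  have hC1r : (1 : ℝ) ≤ C₁ := by exact_mod_cast hC₁
  have hD' : D = R * g + g := by rw [hD]; ring
  have e1 : K + 1 ≤ (R + E + 3) * g := by
    have h1 : (R + E + 3) * g = R * g + E * g + 3 * g := by ring
    rw [h1]
    omega
  have e2 : K - s ≤ (R + E + 2) * g := by
    have h1 : (R + E + 2) * g = R * g + E * g + 2 * g := by ring
    rw [h1]
    omega
  have e3 : D + 1 ≤ (R + 2) * g := by
    have h1 : (R + 2) * g = R * g + 2 * g := by ring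
    rw [h1]
    omega
  have e4 : D + s * e + g ≤ K - s := by
    have h1 : s * e + s ≤ 2 * g * e + 2 * g := by
      have h2 : s * e ≤ 2 * g * e := Nat.mul_le_mul_right _ hs
      omega
    have h3 : E * g = 4 * (g * e) + 4 * g := by rw [hE]; ring
    have h4 : 2 * g * e = 2 * (g * e) := by ring
    omega
  have f1 : (C : ℝ) ^ (K + 1) ≤ ((C : ℝ) ^ (R + E + 3)) ^ g := by
    rw [← pow_mul]
    exact pow_le_pow_right₀ hCr e1
  have f2 : (2 * C : ℝ) ≤ (2 * C : ℝ) ^ g := le_self_pow₀ (by linarith) (by omega)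
  have f3 : t ^ s ≤ ((L : ℝ) ^ 2) ^ g := by
    rw [← pow_mul]
    exact le_trans (pow_le_pow_left₀ ht0 ht s) (pow_le_pow_right₀ hLr hs)
  have f4 : (2 : ℝ) ^ D = (2 ^ (R + 1)) ^ g := by
    rw [← pow_mul, hD]
  have f5 : q ≤ (2 ^ (R + 2) * (C₁ : ℝ)) ^ g := by
    rw [mul_pow, ← pow_mul]
    refine le_trans hq (mul_le_mul_of_nonneg_right ?_ (by positivity))
    calc (D : ℝ) + 1 ≤ 2 ^ (D + 1) := by
          have h1 : D + 1 < 2 ^ (D + 1) := Nat.lt_two_pow_self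
          exact_mod_cast h1.le
      _ ≤ 2 ^ ((R + 2) * g) := pow_le_pow_right₀ (by norm_num) e3
  have f6 : (C : ℝ) ^ (K - s) ≤ ((C : ℝ) ^ (R + E + 2)) ^ g := by
    rw [← pow_mul]
    exact pow_le_pow_right₀ hCr e2
  have f7 : a ^ (K - s) ≤ (a ^ (R + E + 2)) ^ g := by
    rw [← pow_mul]
    exact pow_le_pow_right₀ ha e2
  have hb0 : (0 : ℝ) < b := by linarith
  have f8 : b ^ (D + s * e) / b ^ (K - s) ≤ 1 / b ^ g := by
    rw [div_le_div_iff₀ (by positivity) (by positivity), ← pow_add, one_mul]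
    exact pow_le_pow_right₀ hb e4
  calc (C : ℝ) ^ (K + 1) * b ^ (D + s * e) * (Z * (2 * C * (t ^ s * (2 ^ D * q)) *
      ((C : ℝ) * (a / b)) ^ (K - s)))
      = Z * ((C : ℝ) ^ (K + 1) * (2 * C) * t ^ s * 2 ^ D * q * (C : ℝ) ^ (K - s) *
          a ^ (K - s) * (b ^ (D + s * e) / b ^ (K - s))) := by
        rw [mul_pow, div_pow]
        ring
    _ ≤ Z * (((C : ℝ) ^ (R + E + 3)) ^ g * (2 * C) ^ g * ((L : ℝ) ^ 2) ^ g * (2 ^ (R + 1)) ^ g *
          (2 ^ (R + 2) * (C₁ : ℝ)) ^ g * ((C : ℝ) ^ (R + E + 2)) ^ g *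
          (a ^ (R + E + 2)) ^ g * (1 / b ^ g)) := by
        rw [f4]
        gcongr
    _ = Z * (((C : ℝ) ^ (R + E + 3) * (2 * C) * (L : ℝ) ^ 2 * 2 ^ (R + 1) *
          (2 ^ (R + 2) * C₁) * (C : ℝ) ^ (R + E + 2)) * a ^ (R + E + 2) / b) ^ g := by
        rw [div_pow]
        simp only [mul_pow]
        ring

/-- Clearing denominators of a polynomial. -/
private theorem ue_clear (T : ℚ[X]) : ∃ (c : ℤ) (TZ : ℤ[X]), c ≠ 0 ∧
    TZ.map (Int.castRingHom ℚ) = C (c : ℚ) * T := by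
  obtain ⟨b, hb0, hb⟩ := IsLocalization.integerNormalization_spec (nonZeroDivisors ℤ) T
  refine ⟨b, IsLocalization.integerNormalization (nonZeroDivisors ℤ) T,
    nonZeroDivisors.ne_zero hb0, ?_⟩
  have h1 : (algebraMap ℤ ℚ) = Int.castRingHom ℚ := rfl
  rw [← h1, hb]
  ext k
  rw [coeff_smul, coeff_C_mul]
  show (b : ℤ) • T.coeff k = _
  rw [zsmul_eq_mul]

/-- A common denominator of a rational vector. -/
private theorem ue_den {m : ℕ} (lam : Fin m → ℚ) (h : lam ≠ 0) :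
    ∃ (P : ℕ) (z : Fin m → ℤ), 0 < P ∧ z ≠ 0 ∧ ∀ i, (P : ℚ) * lam i = z i := by
  have h1 : ∀ i, ∃ z : ℤ, ((∏ j, (lam j).den : ℕ) : ℚ) * lam i = z := by
    intro i
    obtain ⟨k, hk⟩ := Finset.dvd_prod_of_mem (fun j => (lam j).den) (Finset.mem_univ i)
    refine ⟨(k : ℤ) * (lam i).num, ?_⟩
    rw [hk]
    push_cast
    have h2 : lam i * ((lam i).den : ℚ) = (lam i).num := Rat.mul_den_eq_num (lam i)
    rw [← h2]
    ring
  choose z hz using h1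
  have hP : 0 < ∏ j, (lam j).den := Finset.prod_pos fun j _ => (lam j).den_pos
  refine ⟨∏ j, (lam j).den, z, hP, ?_, hz⟩
  intro h2
  apply h
  funext i
  have h3 := hz i
  rw [h2] at h3
  have h4 : ((∏ j, (lam j).den : ℕ) : ℚ) ≠ 0 := by exact_mod_cast hP.ne'
  have h5 : ((∏ j, (lam j).den : ℕ) : ℚ) * lam i = 0 := by
    rw [h3]
    simp
  exact (mul_eq_zero.1 h5).resolve_left h4

/-- The constant `2 M_m` is at most `N (C L) ^ N`, and `A_m ≤ N`. -/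
private theorem ue_const (r e : ℕ) : ∃ N : ℕ, 2 ≤ N ∧ ∀ m ≤ r, m * (4 * (e + 1)) + 4 * (e + 1) + 2 ≤ N ∧
    ∀ C L : ℕ, 1 ≤ C → 1 ≤ L →
      2 * (C ^ (m * (4 * (e + 1)) + 4 * (e + 1) + 3) * (2 * C) * L ^ 2 *
      2 ^ (m * (4 * (e + 1)) + 1) * (2 ^ (m * (4 * (e + 1)) + 2) * CQ m (4 * (e + 1)) C) *
      C ^ (m * (4 * (e + 1)) + 4 * (e + 1) + 2)) ≤ N * (C * L) ^ N := by
  obtain ⟨E, hE⟩ : ∃ E, E = 4 * (e + 1) := ⟨_, rfl⟩
  rw [← hE]
  obtain ⟨F, hF⟩ : ∃ F, F = r * E := ⟨_, rfl⟩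
  obtain ⟨K2, hK2⟩ : ∃ K2, K2 = 5 + 2 * F + (F + 2) * F := ⟨_, rfl⟩
  obtain ⟨KC, hKC⟩ : ∃ KC, KC = (F + E + 3) + 1 + (2 * F + 2 * E + 6) * F + (F + E + 2) := ⟨_, rfl⟩
  obtain ⟨W2, hW2⟩ : ∃ W2, W2 = 2 ^ K2 := ⟨_, rfl⟩
  refine ⟨W2 + KC + (F + E + 2) + 2, by omega, ?_⟩
  obtain ⟨N, hN⟩ : ∃ N, N = W2 + KC + (F + E + 2) + 2 := ⟨_, rfl⟩
  rw [← hN]
  intro m hm
  obtain ⟨f, hf⟩ : ∃ f, f = m * E := ⟨_, rfl⟩
  rw [← hf]
  have hfF : f ≤ F := by
    rw [hf, hF]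
    exact Nat.mul_le_mul_right _ hm
  refine ⟨by omega, ?_⟩
  intro C L hC hL
  have h0 : CQ m E C = 2 ^ ((f + 2) * f) * C ^ ((2 * f + 2 * E + 6) * f) := by
    unfold CQ
    rw [← hf, mul_pow, ← pow_mul, ← pow_mul]
  rw [h0]
  have h1 : 2 * (C ^ (f + E + 3) * (2 * C) * L ^ 2 * 2 ^ (f + 1) *
      (2 ^ (f + 2) * (2 ^ ((f + 2) * f) * C ^ ((2 * f + 2 * E + 6) * f))) * C ^ (f + E + 2)) =
      2 ^ (5 + 2 * f + (f + 2) * f) *
        C ^ ((f + E + 3) + 1 + (2 * f + 2 * E + 6) * f + (f + E + 2)) * L ^ 2 := by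
    have h2 : (2 : ℕ) ^ (5 + 2 * f + (f + 2) * f) =
        2 * 2 * 2 ^ (f + 1) * 2 ^ (f + 2) * 2 ^ ((f + 2) * f) := by
      rw [show 5 + 2 * f + (f + 2) * f = 1 + 1 + (f + 1) + (f + 2) + (f + 2) * f by ring, pow_add,
        pow_add, pow_add, pow_add, pow_one]
    have h3 : C ^ ((f + E + 3) + 1 + (2 * f + 2 * E + 6) * f + (f + E + 2)) =
        C ^ (f + E + 3) * C * C ^ ((2 * f + 2 * E + 6) * f) * C ^ (f + E + 2) := by
      rw [pow_add, pow_add, pow_add, pow_one]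
    rw [h2, h3]
    ring
  rw [h1]
  have h4 : (f + 2) * f ≤ (F + 2) * F := Nat.mul_le_mul (by omega) hfF
  have h5 : (2 * f + 2 * E + 6) * f ≤ (2 * F + 2 * E + 6) * F := Nat.mul_le_mul (by omega) hfF
  have h6 : 2 ^ (5 + 2 * f + (f + 2) * f) ≤ N := by
    have h7 : (2 : ℕ) ^ (5 + 2 * f + (f + 2) * f) ≤ 2 ^ K2 :=
      Nat.pow_le_pow_right (by norm_num) (by omega)
    rw [← hW2] at h7
    exact le_trans h7 (by omega)
  have h8 : C ^ ((f + E + 3) + 1 + (2 * f + 2 * E + 6) * f + (f + E + 2)) ≤ C ^ N :=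
    Nat.pow_le_pow_right hC (by omega)
  have h9 : L ^ 2 ≤ L ^ N := Nat.pow_le_pow_right hL (by omega)
  rw [mul_pow, ← mul_assoc]
  exact Nat.mul_le_mul (Nat.mul_le_mul h6 h8) h9

/-- If the relation is a relation between the elements of the basis, it comes from functions. -/
private theorem ue_case1 {r m : ℕ} (Y : Fin (r + 1) → PowerSeries ℚ) (J : Fin (m + 1) → Fin (r + 1))
    (ρ : ℚ[X]) (P : Fin (r + 1) → Fin (m + 1) → ℚ[X])
    (hP : ∀ i, (ρ : PowerSeries ℚ) * Y i = ∑ j, (P i j : PowerSeries ℚ) * Y (J j)) (τ : ℚ)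
    (hρ : ρ.eval τ ≠ 0) (lam : Fin (r + 1) → ℚ) (h : ∀ l, ∑ i, lam i * (P i l).eval τ = 0) :
    ∃ b : Fin (r + 1) → ℚ[X], ∑ i, (b i : PowerSeries ℚ) * Y i = 0 ∧ ∀ i, (b i).eval τ = lam i := by
  obtain ⟨R, hR⟩ : ∃ R : Fin (r + 1) → Fin (r + 1) → ℚ[X],
    R = fun i k => (if i = k then ρ else 0) - ∑ l, if J l = k then P i l else 0 := ⟨_, rfl⟩
  have hR0 : ∀ i, ∑ k, (R i k : PowerSeries ℚ) * Y k = 0 := by
    intro i
    have h1 : ∀ k, (R i k : PowerSeries ℚ) * Y k = (if i = k then (ρ : PowerSeries ℚ) * Y k else 0) -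
        ∑ l, if J l = k then (P i l : PowerSeries ℚ) * Y k else 0 := by
      intro k
      rw [hR]
      simp only
      rw [← Polynomial.coeToPowerSeries.ringHom_apply, map_sub, map_sum, sub_mul, Finset.sum_mul]
      congr 1
      · split_ifs with h2
        · rw [Polynomial.coeToPowerSeries.ringHom_apply]
        · rw [map_zero, zero_mul]
      · refine Finset.sum_congr rfl fun l _ => ?_
        split_ifs with h2
        · rw [Polynomial.coeToPowerSeries.ringHom_apply]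
        · rw [map_zero, zero_mul]
    rw [Finset.sum_congr rfl fun k _ => h1 k, Finset.sum_sub_distrib, Finset.sum_comm]
    simp only [Finset.sum_ite_eq, Finset.mem_univ, if_true]
    rw [hP i, sub_self]
  refine ⟨fun k => ∑ i, C (lam i / ρ.eval τ) * R i k, ?_, ?_⟩
  · have h1 : ∀ k, ((∑ i, C (lam i / ρ.eval τ) * R i k : ℚ[X]) : PowerSeries ℚ) * Y k =
        ∑ i, ((C (lam i / ρ.eval τ) : ℚ[X]) : PowerSeries ℚ) * ((R i k : PowerSeries ℚ) * Y k) := by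
      intro k
      rw [← Polynomial.coeToPowerSeries.ringHom_apply, map_sum, Finset.sum_mul]
      refine Finset.sum_congr rfl fun i _ => ?_
      rw [map_mul, Polynomial.coeToPowerSeries.ringHom_apply,
        Polynomial.coeToPowerSeries.ringHom_apply, mul_assoc]
    rw [Finset.sum_congr rfl fun k _ => h1 k, Finset.sum_comm]
    refine Finset.sum_eq_zero fun i _ => ?_
    rw [← Finset.mul_sum, hR0 i, mul_zero]
  · intro k
    simp only
    rw [eval_finsetSum]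
    have h1 : ∀ i, (C (lam i / ρ.eval τ) * R i k).eval τ = (if i = k then lam i else 0) -
        ∑ l, if J l = k then (lam i * (P i l).eval τ) / ρ.eval τ else 0 := by
      intro i
      rw [eval_mul, eval_C, hR]
      simp only
      rw [eval_sub, eval_finsetSum, mul_sub, Finset.mul_sum]
      congr 1
      · split_ifs with h2
        · field_simp
        · rw [eval_zero, mul_zero]
      · refine Finset.sum_congr rfl fun l _ => ?_
        split_ifs with h2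
        · ring
        · rw [eval_zero, mul_zero]
    rw [Finset.sum_congr rfl fun i _ => h1 i, Finset.sum_sub_distrib, Finset.sum_comm]
    rw [Finset.sum_ite_eq' Finset.univ k, if_pos (Finset.mem_univ k)]
    have h2 : ∑ l, ∑ i, (if J l = k then (lam i * (P i l).eval τ) / ρ.eval τ else 0) = 0 := by
      refine Finset.sum_eq_zero fun l _ => ?_
      split_ifs with h3
      · rw [← Finset.sum_div, h l, zero_div]
      · exact Finset.sum_const_zero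
    rw [h2, sub_zero]

/-- The values of the functions `Y i` at a small rational point `τ = a / b` with `T(τ) ≠ 0` satisfy only those
linear relations over `ℚ` which are the values at `τ` of linear relations over `ℚ[X]` between the functions. The condition
on `τ` depends only on the number `r`, the degrees of the system, the constant `C` of the functions and the size `L`
of `T`, and polynomially on `C` and `L`.

Proof. Constants. For `m ≤ r` let `A_m = m (4 (e + 1)) + 4 (e + 1) + 2` and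
`M_m = C ^ (m (4 (e + 1)) + 4 (e + 1) + 3) * (2 C) * L ^ 2 * 2 ^ (m (4 (e + 1)) + 1) * (2 ^ (m (4 (e + 1)) + 2) * CQ m (4 (e + 1)) C) * C ^ A_m`
(see `MainA_pow`). There is `N` (depending only on `r` and `e`) with `A_m ≤ N`, `2 M_m ≤ N (C L) ^ N` and `N ≥ 2` for all
`m ≤ r`, `C, L ≥ 1` (everything is a product of a constant and powers of `C`, `L`). So `N (C L a) ^ N ≤ b` (`a = τ.num.natAbs ≥ 1`) implies
`C |τ| ≤ 1 / 2` and `M_m a ^ A_m / b ≤ 1 / 2`.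
Let `lam` be a relation between the values; multiplying by a common denominator we may assume `lam i = z i` integers
(`MainA_den`). `exists_local_basis` gives `m, J, ρ, P`; multiplying `ρ` and `P` by an integer we may assume that `ρ` has integer
coefficients (`MainA_clear`). Let `lam' l = ∑ i, z i * (P i l).eval τ`.
(1) If `lam' = 0`: put `R_i = ρ e_i - ∑ l, P i l e_(J l)` (`e_i` the standard basis), a relation between the functions (by `hP`); then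
`b = ∑ i, C (z i / ρ(τ)) • R_i` is a relation between the functions, and its value at `τ` is `z i - lam' l / ρ(τ)..., = z`. Divide by the common
denominator.
(2) If `lam' ≠ 0`: `det_iter_ne_zero` for `ρ T ≠ 0`, `BJ B J P` and `Y (J ·)` gives `c₀`; `c₁` and `eJ` bound the degrees. By `u_step`, for all
large `g`: with `Z = ∑ |z i|`, `b = τ.den`: `1 ≤ (b ^ c₁ * 2 ^ c₁ * l1 ρ) * (the expression of MainA_pow) ≤ (b ^ c₁ 2 ^ c₁ l1 ρ) * Z * (M_m a ^ A_m / b) ^ g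
≤ (b ^ c₁ 2 ^ c₁ l1 ρ) * Z * (1 / 2) ^ g`, false for large `g`. (`MainA_pow`, `MainA_den`, `MainA_clear`, `MainA_l1` are private in MainA.lean: copy
them, with other names, and the end of the proof of `values_independent`.) -/
theorem values_relations (r e : ℕ) : ∃ N : ℕ, 1 ≤ N ∧ ∀ (C L : ℕ) (d : ℕ → ℕ) (TZ : ℤ[X])
    (B : Fin (r + 1) → Fin (r + 1) → ℚ[X]) (Y : Fin (r + 1) → PowerSeries ℚ), Y 0 = 1 → GData Y C d →
    1 ≤ L → l1 TZ ≤ L → (∀ j, B 0 j = 0) → (TZ.map (Int.castRingHom ℚ)).natDegree ≤ e →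
    (∀ i j, (B i j).natDegree ≤ e) →
    (∀ i, ((TZ.map (Int.castRingHom ℚ) : ℚ[X]) : PowerSeries ℚ) *
      PowerSeries.derivative ℚ (Y i) = ∑ j, (B i j : PowerSeries ℚ) * Y j) →
    ∀ τ : ℚ, τ ≠ 0 → (TZ.map (Int.castRingHom ℚ)).eval τ ≠ 0 →
    N * (C * L * τ.num.natAbs) ^ N ≤ τ.den →
    ∀ lam : Fin (r + 1) → ℚ, ∑ i, (lam i : ℝ) * ev τ (Y i) = 0 →
      ∃ b : Fin (r + 1) → ℚ[X], ∑ i, (b i : PowerSeries ℚ) * Y i = 0 ∧ ∀ i, (b i).eval τ = lam i := by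
  obtain ⟨N, hN2, hNm⟩ := ue_const r e
  refine ⟨N, by omega, ?_⟩
  intro C L d TZ B Y hY0 hY hL1 hTL hB0 hTe hBe hode τ hτ0 hTτ hτN lam hlam
  have hC1 : 1 ≤ C := hY.one_le
  have hden : 0 < τ.den := τ.den_pos
  have hnum : 1 ≤ τ.num.natAbs := by
    have h1 : τ.num ≠ 0 := Rat.num_ne_zero.2 hτ0
    omega
  obtain ⟨a, ha⟩ : ∃ a : ℕ, a = τ.num.natAbs := ⟨_, rfl⟩
  obtain ⟨b, hb⟩ : ∃ b : ℕ, b = τ.den := ⟨_, rfl⟩
  rw [← ha] at hnum hτN
  rw [← hb] at hden hτN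
  have hbQ : (0 : ℚ) < b := by exact_mod_cast hden
  have hτab : |τ| = (a : ℚ) / b := by
    have h1 : τ * (τ.den : ℚ) = τ.num := Rat.mul_den_eq_num τ
    have h2 : |τ| * (b : ℚ) = a := by
      have h3 : |τ * (τ.den : ℚ)| = |(τ.num : ℚ)| := by rw [h1]
      rw [abs_mul, Nat.abs_cast, ← hb] at h3
      rw [h3, ha, ← Int.cast_abs, Int.abs_eq_natAbs]
      rfl
    rw [eq_div_iff hbQ.ne', h2]
  have haR : (1 : ℝ) ≤ a := by exact_mod_cast hnum
  have hbR : (1 : ℝ) ≤ b := by exact_mod_cast hden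
  have hτR : |(τ : ℝ)| = (a : ℝ) / b := by
    have h1 : ((|τ| : ℚ) : ℝ) = (((a : ℚ) / b : ℚ) : ℝ) := by rw [hτab]
    push_cast at h1
    exact h1
  have hCLa : C * a ≤ (C * L * a) ^ N := by
    calc C * a ≤ C * L * a := Nat.mul_le_mul_right _ (Nat.le_mul_of_pos_right _ (by omega))
      _ ≤ (C * L * a) ^ N := Nat.le_self_pow (by omega) _
  have hτC : (C : ℝ) * |(τ : ℝ)| ≤ 1 / 2 := by
    have h1 : 2 * (C * a) ≤ b := le_trans (Nat.mul_le_mul hN2 hCLa) hτN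
    have h2 : 2 * ((C : ℝ) * a) ≤ b := by exact_mod_cast h1
    rw [hτR, ← mul_div_assoc, div_le_iff₀ (by linarith)]
    linarith
  obtain ⟨m, J, ρ₀, P₀, hmr, hJ0, hρ₀, hI, hP₀⟩ := exists_local_basis (TZ.map (Int.castRingHom ℚ)) B Y
    hY0 hode hTτ
  obtain ⟨c, ρ, hc, hρ⟩ := ue_clear ρ₀
  have hcQ : (c : ℚ) ≠ 0 := by exact_mod_cast hc
  obtain ⟨P, hPd⟩ : ∃ P : Fin (r + 1) → Fin (m + 1) → ℚ[X],
    P = fun i j => Polynomial.C (c : ℚ) * P₀ i j := ⟨_, rfl⟩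
  have hP : ∀ i, ((ρ.map (Int.castRingHom ℚ) : ℚ[X]) : PowerSeries ℚ) * Y i =
      ∑ j, (P i j : PowerSeries ℚ) * Y (J j) := by
    intro i
    rw [hρ, Polynomial.coe_mul, mul_assoc, hP₀ i, Finset.mul_sum, hPd]
    simp only
    refine Finset.sum_congr rfl fun j _ => ?_
    rw [Polynomial.coe_mul, mul_assoc]
  have hρτ : (ρ.map (Int.castRingHom ℚ)).eval τ ≠ 0 := by
    rw [hρ, eval_mul, eval_C]
    exact mul_ne_zero hcQ hρ₀
  by_cases hl' : ∀ l, ∑ i, lam i * (P i l).eval τ = 0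
  · exact ue_case1 Y J _ P hP τ hρτ lam hl'
  exfalso
  have hne : lam ≠ 0 := by
    intro h1
    apply hl'
    intro l
    rw [h1]
    simp
  obtain ⟨p, z, hp, hz, hpz⟩ := ue_den lam hne
  have hpQ : (p : ℚ) ≠ 0 := by exact_mod_cast hp.ne'
  have hrel : ∑ i, (z i : ℝ) * ev τ (Y i) = 0 := by
    have h1 : ∀ i, (z i : ℝ) = (p : ℝ) * (lam i : ℝ) := by
      intro i
      have h2 := hpz i
      have h3 : (((p : ℚ) * lam i : ℚ) : ℝ) = ((z i : ℚ) : ℝ) := by rw [h2]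
      push_cast at h3
      exact h3.symm
    have h4 : ∑ i, (z i : ℝ) * ev τ (Y i) = (p : ℝ) * ∑ i, (lam i : ℝ) * ev τ (Y i) := by
      rw [Finset.mul_sum]
      exact Finset.sum_congr rfl fun i _ => by rw [h1 i]; ring
    rw [h4, hlam, mul_zero]
  have hzl : (fun l => ∑ i, (z i : ℚ) * (P i l).eval τ) ≠ 0 := by
    intro h1
    apply hl'
    intro l
    have h2 : ∑ i, (z i : ℚ) * (P i l).eval τ = 0 := congrFun h1 l
    have h3 : ∑ i, (z i : ℚ) * (P i l).eval τ = (p : ℚ) * ∑ i, lam i * (P i l).eval τ := by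
      rw [Finset.mul_sum]
      refine Finset.sum_congr rfl fun i _ => ?_
      rw [← hpz i]
      ring
    rw [h3] at h2
    exact (mul_eq_zero.1 h2).resolve_left hpQ
  have hT0 : TZ.map (Int.castRingHom ℚ) ≠ 0 := by
    intro h1
    rw [h1, eval_zero] at hTτ
    exact hTτ rfl
  have hρ0 : ρ.map (Int.castRingHom ℚ) ≠ 0 := by
    intro h1
    rw [h1, eval_zero] at hρτ
    exact hρτ rfl
  obtain ⟨c₀, hdet⟩ := det_iter_ne_zero (ρ.map (Int.castRingHom ℚ) * TZ.map (Int.castRingHom ℚ))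
    (mul_ne_zero hρ0 hT0) (BJ B J P) (fun j => Y (J j)) hI
  obtain ⟨c₁, hc₁⟩ : ∃ c₁ : ℕ, c₁ = (ρ.map (Int.castRingHom ℚ)).natDegree +
    ∑ i, ∑ j, (P i j).natDegree := ⟨_, rfl⟩
  have hρd : (ρ.map (Int.castRingHom ℚ)).natDegree ≤ c₁ := by omega
  have hPdeg : ∀ i j, (P i j).natDegree ≤ c₁ := by
    intro i j
    have h1 : (P i j).natDegree ≤ ∑ j, (P i j).natDegree :=
      Finset.single_le_sum (f := fun j => (P i j).natDegree) (fun _ _ => Nat.zero_le _)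
        (Finset.mem_univ j)
    have h2 : ∑ j, (P i j).natDegree ≤ ∑ i, ∑ j, (P i j).natDegree :=
      Finset.single_le_sum (f := fun i => ∑ j, (P i j).natDegree) (fun _ _ => Nat.zero_le _)
        (Finset.mem_univ i)
    omega
  obtain ⟨eJ, heJ⟩ : ∃ eJ : ℕ, eJ = (ρ.map (Int.castRingHom ℚ) *
    TZ.map (Int.castRingHom ℚ)).natDegree + ∑ k, ∑ l, (BJ B J P k l).natDegree := ⟨_, rfl⟩
  have hTJ : (ρ.map (Int.castRingHom ℚ) * TZ.map (Int.castRingHom ℚ)).natDegree ≤ eJ := by omega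
  have hBJ : ∀ k l, (BJ B J P k l).natDegree ≤ eJ := by
    intro k l
    have h1 : (BJ B J P k l).natDegree ≤ ∑ l, (BJ B J P k l).natDegree :=
      Finset.single_le_sum (f := fun l => (BJ B J P k l).natDegree) (fun _ _ => Nat.zero_le _)
        (Finset.mem_univ l)
    have h2 : ∑ l, (BJ B J P k l).natDegree ≤ ∑ k, ∑ l, (BJ B J P k l).natDegree :=
      Finset.single_le_sum (f := fun k => ∑ l, (BJ B J P k l).natDegree)
        (fun _ _ => Nat.zero_le _) (Finset.mem_univ k)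
    omega
  obtain ⟨Z, hZ⟩ : ∃ Z : ℝ, Z = ∑ i, |(z i : ℝ)| := ⟨_, rfl⟩
  have hZ0 : 0 ≤ Z := by
    rw [hZ]
    exact Finset.sum_nonneg fun _ _ => abs_nonneg _
  obtain ⟨A, hA⟩ : ∃ A : ℕ, A = m * (4 * (e + 1)) + 4 * (e + 1) + 2 := ⟨_, rfl⟩
  obtain ⟨M, hM⟩ : ∃ M : ℕ, M = C ^ (m * (4 * (e + 1)) + 4 * (e + 1) + 3) * (2 * C) * L ^ 2 *
      2 ^ (m * (4 * (e + 1)) + 1) * (2 ^ (m * (4 * (e + 1)) + 2) * CQ m (4 * (e + 1)) C) *
      C ^ (m * (4 * (e + 1)) + 4 * (e + 1) + 2) := ⟨_, rfl⟩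
  obtain ⟨hAN, hMN⟩ := hNm m hmr
  have hMN := hMN C L hC1 hL1
  rw [← hM] at hMN
  rw [← hA] at hAN
  have hhalf : (M : ℝ) * (a : ℝ) ^ A / b ≤ 1 / 2 := by
    have h1 : 2 * (M * a ^ A) ≤ b := by
      have h2 : a ^ A ≤ a ^ N := Nat.pow_le_pow_right (by omega) hAN
      calc 2 * (M * a ^ A) = (2 * M) * a ^ A := by ring
        _ ≤ (N * (C * L) ^ N) * a ^ N := Nat.mul_le_mul hMN h2
        _ = N * (C * L * a) ^ N := by rw [mul_pow (C * L) a N]; ring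
        _ ≤ b := hτN
    have h3 : 2 * ((M : ℝ) * (a : ℝ) ^ A) ≤ b := by exact_mod_cast h1
    rw [div_le_iff₀ (by linarith)]
    linarith
  have hL : ((l1 TZ : ℤ) : ℝ) ≤ L := by exact_mod_cast hTL
  obtain ⟨W, hW⟩ : ∃ W : ℝ, W = (b : ℝ) ^ c₁ * 2 ^ c₁ * ((l1 ρ : ℤ) : ℝ) := ⟨_, rfl⟩
  have hρl : (0 : ℝ) ≤ ((l1 ρ : ℤ) : ℝ) := by exact_mod_cast ue_l1_nonneg ρ
  have hW0 : 0 ≤ W := by
    rw [hW]
    positivity
  have hcore : ∀ g : ℕ, 1 + c₀ + c₁ + ((m + 1) * (c₁ + m * eJ) + m ^ 2 + m) ≤ g →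
      (1 : ℝ) ≤ W * (Z * (1 / 2) ^ g) := by
    intro g hg
    obtain ⟨s, K, D, q, hD, hK, hs, hqc, hqD, hone⟩ := u_step TZ B Y hY0 hY hB0 hode e hTe hBe J hJ0 ρ P
      hP hI c₀ c₁ eJ hρd hPdeg hTJ hBJ hdet g hg τ hτ0 hTτ hρτ hτC z hzl hrel
    rw [← hZ, hτR, ← hb] at hone
    have hl1 : ((l1 q : ℤ) : ℝ) ≤ ((D : ℝ) + 1) * (CQ m (4 * (e + 1)) C : ℝ) ^ g := by
      have h1 := ue_l1 q D (CQ m (4 * (e + 1)) C ^ g) hqD (fun k => by
        push_cast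
        exact hqc k)
      have h2 : ((l1 q : ℤ) : ℝ) ≤ ((((D : ℤ) + 1) * ((CQ m (4 * (e + 1)) C ^ g : ℕ) : ℤ) : ℤ) : ℝ) := by
        exact_mod_cast h1
      push_cast at h2
      exact h2
    have h3 := ue_pow C L (CQ m (4 * (e + 1)) C) m e g s K D hC1 hL1 (one_le_CQ hC1) (by omega) hD hK hs
      ((l1 TZ : ℤ) : ℝ) ((l1 q : ℤ) : ℝ) Z a b (by exact_mod_cast ue_l1_nonneg TZ) hL
      (by exact_mod_cast ue_l1_nonneg q) hl1 hZ0 haR hbR
    have h4 : ((M : ℕ) : ℝ) = (C : ℝ) ^ (m * (4 * (e + 1)) + 4 * (e + 1) + 3) * (2 * C) * (L : ℝ) ^ 2 *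
      2 ^ (m * (4 * (e + 1)) + 1) * (2 ^ (m * (4 * (e + 1)) + 2) * (CQ m (4 * (e + 1)) C : ℝ)) *
      (C : ℝ) ^ (m * (4 * (e + 1)) + 4 * (e + 1) + 2) := by
      rw [hM]
      push_cast
      ring
    rw [← h4, ← hA] at h3
    calc (1 : ℝ) ≤ _ := hone
      _ = W * ((C : ℝ) ^ (K + 1) * (b : ℝ) ^ (D + s * e) * (Z * (2 * C * (((l1 TZ : ℤ) : ℝ) ^ s *
            (2 ^ D * ((l1 q : ℤ) : ℝ))) * ((C : ℝ) * ((a : ℝ) / b)) ^ (K - s)))) := by
          rw [hW, show D + c₁ + s * e = c₁ + (D + s * e) by ring, pow_add (b : ℝ) c₁,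
            pow_add (2 : ℝ) D c₁]
          ring
      _ ≤ W * (Z * ((M : ℝ) * (a : ℝ) ^ A / b) ^ g) := mul_le_mul_of_nonneg_left h3 hW0
      _ ≤ W * (Z * (1 / 2) ^ g) := by
          refine mul_le_mul_of_nonneg_left (mul_le_mul_of_nonneg_left ?_ hZ0) hW0
          exact pow_le_pow_left₀ (by positivity) hhalf g
  obtain ⟨G, hG⟩ : ∃ G : ℕ, W * Z < 2 ^ G := by
    obtain ⟨n, hn⟩ := pow_unbounded_of_one_lt (W * Z) (by norm_num : (1 : ℝ) < 2)
    exact ⟨n, hn⟩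
  obtain ⟨g, hg⟩ : ∃ g : ℕ, g = G + (1 + c₀ + c₁ + ((m + 1) * (c₁ + m * eJ) + m ^ 2 + m)) := ⟨_, rfl⟩
  have h1 := hcore g (by omega)
  have h2 : W * Z < 2 ^ g := lt_of_lt_of_le hG (pow_le_pow_right₀ (by norm_num) (by omega))
  rw [← mul_assoc, one_div, inv_pow, ← div_eq_mul_inv, le_div_iff₀ (by positivity), one_mul] at h1
  linarith

end Pool.Agent.Lib.MP_bbe012_lc.PP
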