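import Pool.Agent.Lib.MP_bbe012_lc.PP.SA
import Pool.Agent.Lib.MP_bbe012_lc.PP.SB
import Pool.Agent.Lib.MP_bbe012_lc.PP.SC
import Pool.Agent.Lib.MP_bbe012_lc.PP.UE
import Pool.Agent.Lib.MP_bbe012_lc.PP.KH2

/-!
# Stage 2: uniformity in the parameters
-/

namespace Pool.Agent.Lib.MP_bbe012_lc.PP

open MvPolynomial

private theorem SD_degreeOf {m : ℕ} {R S : Type} [CommRing R] [CommRing S] (f : R →+* S)
    (p : MvPolynomial (Fin m) R) (i : Fin m) : (map f p).degreeOf i ≤ p.degreeOf i := by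
  classical
  rw [degreeOf_def, degreeOf_def]
  exact Multiset.count_le_of_le _ degrees_map_le

private theorem SD_le {c c₁ H : ℕ} (hH : 1 ≤ H) (h : c ≤ c₁) : c * H ^ c ≤ c₁ * H ^ c₁ :=
  Nat.mul_le_mul h (Nat.pow_le_pow_right hH h)

private theorem SD_abs (τ : ℚ) : (τ.den : ℚ) * |τ| = (τ.num.natAbs : ℚ) := by
  have h1 : (τ.den : ℚ) * τ = (τ.num : ℚ) := by
    rw [mul_comm]
    exact Rat.mul_den_eq_num τ
  have h2 : |(τ.den : ℚ) * τ| = |(τ.num : ℚ)| := by rw [h1]
  rw [abs_mul, Nat.abs_cast, ← Int.cast_abs, Int.abs_eq_natAbs, Int.cast_natCast] at h2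
  exact h2

/-- The theorem on values, uniformly over the integral points of an open subset of an irreducible set of parameters.

Proof. `h, r, G, κ, T, e₀` from `family_base`. Let `A = Fin.cons 1 G : Fin (r + 1) → PF q n`, `κ' = Fin.cons 0 κ`. Constants: `e` bounds `e₀`, all `degreeOf i` of `Q` and the `A j`; `κ0` bounds the `κ' j`; `c` from
`exists_GData_uniform n (r + 1) e κ0`; `c₁ ≥ 1` a common constant (the sum of the constants, plus `1`) in `exists_l1I_spec` for `Q` and the `A j`, and in `exists_l1_spT` for `T`; `N₀` from `values_relations r e`; `N` from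
`arith_combine N₀ c c₁`.
Let `y, H, τ` be given, `a = τ.num.natAbs ≥ 1`, `L = c₁ * H ^ c₁ ≥ 1`, `C = c * L ^ c`. `spP y F = map (Int.castRingHom ℚ) (map (eval y) F)` (`spP_eq`), `degreeOf i (map (eval y) F) ≤ degreeOf i F` (the support becomes
smaller), so `exists_GData_uniform` gives `GData` for `Y i = Phi n (spP y Q) (spP y (A i)) (κ' i)` with the constant `C`, and `Y 0 = 1` (`Phi_one`).
`TZ = spT y T`, `l1 TZ ≤ L`; `|τ| = a / τ.den` and `2 L a < τ.den` give `l1 TZ * |τ| < 1`, so `TZ(τ) ≠ 0` (`eval_ne_zero_small`), `|τ| ≤ 1` and `l1I * |τ| ≤ 1 / 2`, so `wn ≤ 1 / 2` (`wn_le_small`). The system: `B' 0 j = 0`,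
`B' (i + 1) 0 = 0`, `B' (i + 1) (j + 1) = B i j` (`Fin.cons`); the derivative of `Y 0 = 1` is `0`. `values_relations` gives `hrel`, and `good_of_relations` the result (`hspan`: `Fin.cons 0 a`). -/
theorem stratum {q n : ℕ} (Q : PF q n) (h0 : atZD n (MvPolynomial (Fin q) ℤ) Q = 1)
    (I : Ideal (MvPolynomial (Fin q) ℚ)) [I.IsPrime] :
    ∃ (h : MvPolynomial (Fin q) ℚ) (N : ℕ), h ∉ I ∧ 1 ≤ N ∧ ∀ (y : Fin q → ℤ) (H : ℕ), 1 ≤ H →
      (∀ i, (y i).natAbs ≤ H) → (∀ f ∈ I, evQ y f = 0) → evQ y h ≠ 0 →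
      ∀ τ : ℚ, τ ≠ 0 → N * (H * τ.num.natAbs) ^ N ≤ τ.den → Good n (spP y Q) τ := by
  obtain ⟨h, r, G, κ, T, e₀, hh, hTe, hfam⟩ := family_base Q h0 I
  obtain ⟨A, hA⟩ : ∃ A : Fin (r + 1) → PF q n, A = Fin.cons 1 G := ⟨_, rfl⟩
  obtain ⟨κ', hκ'⟩ : ∃ κ' : Fin (r + 1) → ℕ, κ' = Fin.cons 0 κ := ⟨_, rfl⟩
  have hA0 : A 0 = 1 := by rw [hA]; rfl
  have hAs : ∀ i : Fin r, A i.succ = G i := fun i => by rw [hA]; rfl
  have hκ0 : κ' 0 = 0 := by rw [hκ']; rfl
  have hκs : ∀ i : Fin r, κ' i.succ = κ i := fun i => by rw [hκ']; rfl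
  choose cA hcA using fun j => exists_l1I_spec (A j)
  obtain ⟨cQ, hcQ⟩ := exists_l1I_spec Q
  obtain ⟨cT, hcT⟩ := exists_l1_spT T
  obtain ⟨e, he⟩ : ∃ e, e = e₀ + ∑ i, Q.degreeOf i + ∑ j, ∑ i, (A j).degreeOf i := ⟨_, rfl⟩
  obtain ⟨κ0, hκ00⟩ : ∃ κ0, κ0 = ∑ j, κ' j := ⟨_, rfl⟩
  obtain ⟨c, hc1, hc⟩ := exists_GData_uniform n (r + 1) e κ0
  obtain ⟨c₁, hc₁⟩ : ∃ c₁, c₁ = cQ + ∑ j, cA j + cT + 1 := ⟨_, rfl⟩
  obtain ⟨N₀, hN₀, hval⟩ := values_relations r e
  obtain ⟨N, hN1, hN⟩ := arith_combine N₀ c c₁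
  refine ⟨h, N, hh, hN1, fun y H hH hy hI hhy τ hτ hb => ?_⟩
  obtain ⟨hTne, ⟨B, hBdeg, hBsys⟩, hspan⟩ := hfam y hI hhy
  have ha : 1 ≤ τ.num.natAbs := by
    rw [Nat.one_le_iff_ne_zero, Ne, Int.natAbs_eq_zero]
    exact fun h => hτ (Rat.num_eq_zero.1 h)
  obtain ⟨hN1', hN2'⟩ := hN H τ.num.natAbs τ.den hH ha hb
  obtain ⟨L, hL⟩ : ∃ L, L = c₁ * H ^ c₁ := ⟨_, rfl⟩
  rw [← hL] at hN1' hN2'
  have hL1 : 1 ≤ L := by
    rw [hL]
    exact Nat.mul_pos (by omega) (Nat.pow_pos hH)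
  have hQL : l1I (map (eval y) Q) ≤ L := by
    rw [hL]
    exact (hcQ y H hH hy).trans (SD_le hH (by omega))
  have hAL : ∀ j, l1I (map (eval y) (A j)) ≤ L := by
    intro j
    rw [hL]
    refine (hcA j y H hH hy).trans (SD_le hH ?_)
    have := Finset.single_le_sum (f := cA) (fun i _ => Nat.zero_le _) (Finset.mem_univ j)
    omega
  have hTL : l1 (spT y T) ≤ ((L : ℕ) : ℤ) := by
    refine (hcT y H hH hy).trans (Int.ofNat_le.2 ?_)
    rw [hL]
    exact SD_le hH (by omega)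
  have hQ0 : atZero n (spP y Q) = 1 := atZero_spP h0 y
  have hQdeg : ∀ i, (map (eval y) Q).degreeOf i ≤ e := by
    intro i
    refine (SD_degreeOf (eval y) Q i).trans ?_
    have := Finset.single_le_sum (f := fun i => Q.degreeOf i) (fun i _ => Nat.zero_le _)
      (Finset.mem_univ i)
    rw [he]
    exact this.trans ((Nat.le_add_left _ _).trans (Nat.le_add_right _ _))
  have hAdeg : ∀ j i, (map (eval y) (A j)).degreeOf i ≤ e := by
    intro j i
    refine (SD_degreeOf (eval y) (A j) i).trans ?_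
    have h1 := Finset.single_le_sum (f := fun i => (A j).degreeOf i) (fun i _ => Nat.zero_le _)
      (Finset.mem_univ i)
    have h2 := Finset.single_le_sum (f := fun j => ∑ i, (A j).degreeOf i) (fun i _ => Nat.zero_le _)
      (Finset.mem_univ j)
    rw [he]
    exact (h1.trans h2).trans (Nat.le_add_left _ _)
  have hκle : ∀ j, κ' j ≤ κ0 := by
    intro j
    rw [hκ00]
    exact Finset.single_le_sum (f := κ') (fun i _ => Nat.zero_le _) (Finset.mem_univ j)
  obtain ⟨d, hG⟩ := hc (map (eval y) Q) (fun j => map (eval y) (A j)) κ' L hL1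
    (by rw [← spP_eq]; exact hQ0) hQdeg hAdeg hκle hQL hAL
  obtain ⟨Y, hY⟩ : ∃ Y : Fin (r + 1) → PowerSeries ℚ,
      Y = fun i => Phi n (spP y Q) (spP y (A i)) (κ' i) := ⟨_, rfl⟩
  have hYi : ∀ i, Y i = Phi n (spP y Q) (spP y (A i)) (κ' i) := fun i => by rw [hY]
  have hGY : GData Y (c * L ^ c) d := by
    have e1 : Y = fun i => Phi n (map (Int.castRingHom ℚ) (map (eval y) Q))
        (map (Int.castRingHom ℚ) (map (eval y) (A i))) (κ' i) := by
      funext i
      rw [hYi, spP_eq, spP_eq]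
    rw [e1]
    exact hG
  have hY0 : Y 0 = 1 := by
    rw [hYi, hA0, hκ0, map_one, Phi_one]
  have hden : (0 : ℚ) < (τ.den : ℚ) := Nat.cast_pos.2 τ.den_pos
  have hsmall : (2 : ℚ) * L * |τ| < 1 := by
    have h1 := SD_abs τ
    have h2 : (2 : ℚ) * L * (τ.num.natAbs : ℚ) < (τ.den : ℚ) := by exact_mod_cast hN2'
    rw [← h1] at h2
    have h3 : (τ.den : ℚ) * (2 * L * |τ|) < (τ.den : ℚ) * 1 := by
      rw [mul_one]
      refine lt_of_eq_of_lt ?_ h2
      ring
    exact lt_of_mul_lt_mul_left h3 hden.le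
  have hL1q : (1 : ℚ) ≤ (L : ℚ) := by exact_mod_cast hL1
  have hτ0 : (0 : ℚ) ≤ |τ| := abs_nonneg τ
  have hτ1 : |τ| ≤ 1 := by nlinarith
  have hTτ : ((spT y T).map (Int.castRingHom ℚ)).eval τ ≠ 0 := by
    refine eval_ne_zero_small _ hTne τ hτ ?_
    have h1 : (l1 (spT y T) : ℚ) ≤ (L : ℚ) := by exact_mod_cast hTL
    have h2 := mul_le_mul_of_nonneg_right h1 hτ0
    nlinarith
  have hw : wn n (spP y Q) τ ≤ 1 / 2 := by
    rw [spP_eq]
    refine wn_le_small _ τ hτ1 ?_
    have h1 : (l1I (map (eval y) Q) : ℚ) ≤ (L : ℚ) := by exact_mod_cast hQL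
    have h2 := mul_le_mul_of_nonneg_right h1 hτ0
    linarith
  obtain ⟨B', hB'⟩ : ∃ B' : Fin (r + 1) → Fin (r + 1) → Polynomial ℚ,
      B' = Fin.cons (fun _ => 0) (fun i => Fin.cons 0 (B i)) := ⟨_, rfl⟩
  have hB0 : ∀ j, B' 0 j = 0 := fun j => by rw [hB']; rfl
  have hBs0 : ∀ i : Fin r, B' i.succ 0 = 0 := fun i => by rw [hB']; rfl
  have hBss : ∀ i j : Fin r, B' i.succ j.succ = B i j := fun i j => by rw [hB']; rfl
  have hTdeg : ((spT y T).map (Int.castRingHom ℚ)).natDegree ≤ e := by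
    refine Polynomial.natDegree_map_le.trans ?_
    refine (Polynomial.natDegree_map_le (f := eval y) (p := T)).trans (hTe.trans ?_)
    rw [he]
    omega
  have hBdeg' : ∀ i j, (B' i j).natDegree ≤ e := by
    intro i j
    induction i using Fin.cases with
    | zero => rw [hB0, Polynomial.natDegree_zero]; exact Nat.zero_le _
    | succ i =>
      induction j using Fin.cases with
      | zero => rw [hBs0, Polynomial.natDegree_zero]; exact Nat.zero_le _
      | succ j =>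
        rw [hBss]
        refine (hBdeg i j).trans ?_
        rw [he]
        omega
  have hsys : ∀ i, (((spT y T).map (Int.castRingHom ℚ) : Polynomial ℚ) : PowerSeries ℚ) *
      PowerSeries.derivative ℚ (Y i) = ∑ j, (B' i j : PowerSeries ℚ) * Y j := by
    intro i
    induction i using Fin.cases with
    | zero =>
      rw [hY0, Derivation.map_one_eq_zero, mul_zero]
      symm
      refine Finset.sum_eq_zero fun j _ => ?_
      rw [hB0, Polynomial.coe_zero, zero_mul]
    | succ i =>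
      rw [Fin.sum_univ_succ, hBs0, Polynomial.coe_zero, zero_mul, zero_add, hYi, hAs, hκs, hBsys]
      refine Finset.sum_congr rfl fun j _ => ?_
      rw [hBss, hYi, hAs, hκs]
  have hrel := hval (c * L ^ c) L d (spT y T) B' Y hY0 hGY hL1 hTL hB0 hTdeg hBdeg' hsys τ hτ hTτ
    (hN1' (c * L ^ c) L le_rfl le_rfl)
  refine good_of_relations hQ0 (fun i => spP y (A i)) κ' ?_ τ hw ?_
  · intro F K
    obtain ⟨c', a, hc', hca⟩ := hspan F K
    refine ⟨c', Fin.cons 0 a, hc', ?_⟩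
    rw [Fin.sum_univ_succ, Fin.cons_zero, Polynomial.coe_zero, zero_mul, zero_add, hca]
    refine Finset.sum_congr rfl fun j _ => ?_
    rw [Fin.cons_succ, hAs, hκs]
  · intro lam hlam
    have h1 := hrel lam (by
      rw [← hlam]
      refine Finset.sum_congr rfl fun i _ => ?_
      rw [hYi])
    obtain ⟨b, hb1, hb2⟩ := h1
    refine ⟨b, ?_, hb2⟩
    rw [← hb1]
    refine Finset.sum_congr rfl fun i _ => ?_
    rw [hYi]

/-- **Uniform theorem on values.** There is `N` such that for all integral parameters `y` with `|y i| ≤ H` and all rational `τ = a / b ≠ 0` with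
`N * (H * |a|) ^ N ≤ b` the vanishing of the value at `τ` of an integral of `G / Q_y ^ K` has an algebraic reason.

Proof. Noetherian induction (`WellFoundedGT`, `IsNoetherianRing`) on the ideal `I` of `ℚ[y]`, for the statement: there is `N` which works for all `y` with `evQ y f = 0` for all `f ∈ I`. If `I = ⊤` there is no such `y`
(`evQ y 1 = 1`). If `I` is prime: `h`, `N₁` from `stratum`, and `N₂` for the ideal `I ⊔ Ideal.span {h} > I`; `N = max N₁ N₂` (`H * |a| ≥ 1`). Otherwise there are `a, b ∉ I` with `a * b ∈ I`; every `y` is a zero of `I ⊔ span {a}` or of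
`I ⊔ span {b}`; take the maximum. At the end `I = ⊥`. -/
theorem uniform_good {q n : ℕ} (Q : PF q n) (h0 : atZD n (MvPolynomial (Fin q) ℤ) Q = 1) :
    ∃ N : ℕ, 1 ≤ N ∧ ∀ (y : Fin q → ℤ) (H : ℕ), 1 ≤ H → (∀ i, (y i).natAbs ≤ H) →
      ∀ τ : ℚ, τ ≠ 0 → N * (H * τ.num.natAbs) ^ N ≤ τ.den → Good n (spP y Q) τ := by
  have hmono : ∀ N₁ N H a b : ℕ, N₁ ≤ N → 1 ≤ H → 1 ≤ a → N * (H * a) ^ N ≤ b →
      N₁ * (H * a) ^ N₁ ≤ b := by
    intro N₁ N H a b h1 hH ha hb
    exact (Nat.mul_le_mul h1 (Nat.pow_le_pow_right (Nat.mul_pos hH ha) h1)).trans hb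
  have key : ∀ I : Ideal (MvPolynomial (Fin q) ℚ), ∃ N : ℕ, 1 ≤ N ∧ ∀ (y : Fin q → ℤ) (H : ℕ),
      1 ≤ H → (∀ i, (y i).natAbs ≤ H) → (∀ f ∈ I, evQ y f = 0) →
      ∀ τ : ℚ, τ ≠ 0 → N * (H * τ.num.natAbs) ^ N ≤ τ.den → Good n (spP y Q) τ := by
    intro I
    induction I using WellFoundedGT.induction with
    | ind I ih =>
      by_cases htop : I = ⊤
      · refine ⟨1, le_rfl, fun y H hH hy hI => ?_⟩
        have h1 := hI 1 (by rw [htop]; exact Submodule.mem_top)
        rw [map_one] at h1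
        exact absurd h1 one_ne_zero
      · by_cases hprime : I.IsPrime
        · obtain ⟨h, N₁, hh, hN₁, h1⟩ := stratum Q h0 I
          have hlt : I < I ⊔ Ideal.span {h} := by
            refine lt_of_le_of_ne le_sup_left fun heq => hh ?_
            rw [heq]
            exact (le_sup_right : Ideal.span {h} ≤ _) (Ideal.subset_span rfl)
          obtain ⟨N₂, hN₂, h2⟩ := ih _ hlt
          refine ⟨max N₁ N₂, le_max_of_le_left hN₁, fun y H hH hy hI τ hτ hb => ?_⟩
          have ha : 1 ≤ τ.num.natAbs := by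
            rw [Nat.one_le_iff_ne_zero, Ne, Int.natAbs_eq_zero]
            exact fun h => hτ (Rat.num_eq_zero.1 h)
          by_cases hhy : evQ y h = 0
          · refine h2 y H hH hy (fun f hf => ?_) τ hτ
              (hmono _ _ _ _ _ (le_max_right N₁ N₂) hH ha hb)
            have h3 : I ⊔ Ideal.span {h} ≤ RingHom.ker (evQ y) := by
              refine sup_le (fun f hf => hI f hf) ?_
              rw [Ideal.span_le]
              rintro _ rfl
              exact hhy
            exact h3 hf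
          · exact h1 y H hH hy hI hhy τ hτ (hmono _ _ _ _ _ (le_max_left N₁ N₂) hH ha hb)
        · obtain ⟨a, b, hab, ha, hb⟩ : ∃ a b, a * b ∈ I ∧ a ∉ I ∧ b ∉ I := by
            by_contra hcon
            push Not at hcon
            refine hprime ⟨htop, fun {a b} hab => ?_⟩
            by_cases ha : a ∈ I
            · exact Or.inl ha
            · exact Or.inr (hcon a b hab ha)
          have hlt : ∀ c : MvPolynomial (Fin q) ℚ, c ∉ I → I < I ⊔ Ideal.span {c} := by
            intro c hc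
            refine lt_of_le_of_ne le_sup_left fun heq => hc ?_
            rw [heq]
            exact (le_sup_right : Ideal.span {c} ≤ _) (Ideal.subset_span rfl)
          obtain ⟨N₁, hN₁, h1⟩ := ih _ (hlt a ha)
          obtain ⟨N₂, hN₂, h2⟩ := ih _ (hlt b hb)
          refine ⟨max N₁ N₂, le_max_of_le_left hN₁, fun y H hH hy hI τ hτ hbb => ?_⟩
          have haa : 1 ≤ τ.num.natAbs := by
            rw [Nat.one_le_iff_ne_zero, Ne, Int.natAbs_eq_zero]
            exact fun h => hτ (Rat.num_eq_zero.1 h)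
          have hker : ∀ c : MvPolynomial (Fin q) ℚ, evQ y c = 0 →
              ∀ f ∈ I ⊔ Ideal.span {c}, evQ y f = 0 := by
            intro c hc f hf
            have h3 : I ⊔ Ideal.span {c} ≤ RingHom.ker (evQ y) := by
              refine sup_le (fun f hf => hI f hf) ?_
              rw [Ideal.span_le]
              rintro _ rfl
              exact hc
            exact h3 hf
          have h4 := hI _ hab
          rw [map_mul, mul_eq_zero] at h4
          rcases h4 with h4 | h4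
          · exact h1 y H hH hy (hker a h4) τ hτ (hmono _ _ _ _ _ (le_max_left N₁ N₂) hH haa hbb)
          · exact h2 y H hH hy (hker b h4) τ hτ (hmono _ _ _ _ _ (le_max_right N₁ N₂) hH haa hbb)
  obtain ⟨N, hN, h1⟩ := key ⊥
  refine ⟨N, hN, fun y H hH hy τ hτ hb => h1 y H hH hy (fun f hf => ?_) τ hτ hb⟩
  rw [Ideal.mem_bot] at hf
  rw [hf, map_zero]

end Pool.Agent.Lib.MP_bbe012_lc.PP
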