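import Pool.Agent.Lib.MP_bbe012_lc.PP.FA
import Pool.Agent.Lib.MP_bbe012_lc.PP.FB
import Pool.Agent.Lib.MP_bbe012_lc.PP.FC
import Pool.Agent.Lib.MP_bbe012_lc.PP.SD
import Pool.Agent.Lib.MP_bbe012_lc.PP.Final0

/-!
# Stage 2: the decision procedure, uniformly in the height
-/

namespace Pool.Agent.Lib.MP_bbe012_lc.PP

open MvPolynomial

/-- Proof. `q, U` from `exists_universal n d δ`, `N₁` from `uniform_good U`, `c` from `exists_l1I_spec U` (SB.lean), `N = N₁ + 2 * c + 1` (so `N₁ * (H * a) ^ N₁ ≤ b` and `2 * (c * H ^ c) * a ≤ b` for `a = τ.num.natAbs`, `b = τ.den`,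
as `H, a ≥ 1`; `one_le_of_family`). Let `Q ∈ Family n d H` be the polynomial of `InClassU`, `y` its parameter, `Qc` a code of `map (Int.castRingHom ℚ) Q` (`exists_pcPoly`), `t` a code of `τ` (`exists_qval`). As in `decide0_dom` (Final0.lean):
`pcPoly (δ * n + 1) (QQ n δ Qc) = ∏ i, rename (bidx n δ i) (map _ Q) = spP y U` (`pcPoly_QQ`), `atZero` of it is `1` (`atZero_spP`); `okBase_of_small`: `l1M (spP y U) = l1I (map (eval y) U) ≤ c * H ^ c` (`spP_eq`, `l1M_map`)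
and `|τ| = a / b`. `exists_rcU` (`specialise_eq`) gives the data of the reduction, `checkC_of_good` the certificate for `toCore E _`, and `dom_decide0` the result. -/
theorem decide0_domU (n d δ : ℕ) :
    ∃ N : ℕ, 1 ≤ N ∧ ∀ (H : ℕ) (τ : ℚ), τ ≠ 0 → N * (H * τ.num.natAbs) ^ N ≤ τ.den →
      ∀ E : Ex, InClassU n d H δ τ E → (decide0 E).Dom := by
  obtain ⟨q, U, hU0, hU⟩ := exists_universal n d δ
  obtain ⟨N₁, hN₁, hgood⟩ := uniform_good U hU0
  obtain ⟨c, hc⟩ := exists_l1I_spec U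
  refine ⟨N₁ + 2 * c + 1, by omega, fun H τ hτ hle E hE => ?_⟩
  obtain ⟨Q, hQ, hE'⟩ := hE
  have hH : 1 ≤ H := one_le_of_family hQ
  have ha : 1 ≤ τ.num.natAbs := by
    have : τ.num ≠ 0 := Rat.num_ne_zero.2 hτ
    omega
  have hHa : 1 ≤ H * τ.num.natAbs := Nat.mul_pos hH ha
  have hle1 : N₁ * (H * τ.num.natAbs) ^ N₁ ≤ τ.den := by
    refine le_trans ?_ hle
    exact Nat.mul_le_mul (by omega) (Nat.pow_le_pow_right hHa (by omega))
  have hle2 : 2 * (c * H ^ c) * τ.num.natAbs ≤ τ.den := by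
    refine le_trans ?_ hle
    have h1 : H ^ c * τ.num.natAbs ≤ (H * τ.num.natAbs) ^ (N₁ + 2 * c + 1) := by
      calc H ^ c * τ.num.natAbs ≤ H ^ (N₁ + 2 * c + 1) * τ.num.natAbs ^ (N₁ + 2 * c + 1) :=
            Nat.mul_le_mul (Nat.pow_le_pow_right hH (by omega))
              (Nat.le_self_pow (by omega) _)
        _ = (H * τ.num.natAbs) ^ (N₁ + 2 * c + 1) := (Nat.mul_pow _ _ _).symm
    calc 2 * (c * H ^ c) * τ.num.natAbs = (2 * c) * (H ^ c * τ.num.natAbs) := by ring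
      _ ≤ (N₁ + 2 * c + 1) * (H * τ.num.natAbs) ^ (N₁ + 2 * c + 1) :=
          Nat.mul_le_mul (by omega) h1
  obtain ⟨y, hyH, hy⟩ := hU H Q hQ
  obtain ⟨Qc, hQc⟩ := exists_pcPoly (map (Int.castRingHom ℚ) Q)
  have hQQ : pcPoly (δ * n + 1) (QQ n δ Qc) = spP y U := by
    rw [pcPoly_QQ, hy, hQc]
  have h1 : atZero (δ * n) (pcPoly (δ * n + 1) (QQ n δ Qc)) = 1 := by
    rw [hQQ]
    exact atZero_spP hU0 y
  obtain ⟨t, rfl⟩ := exists_qval τ
  have habs : |qval t| = ((qval t).num.natAbs : ℚ) / ((qval t).den : ℚ) := by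
    rw [Rat.abs_def, Rat.divInt_eq_div, Int.cast_natCast, Int.cast_natCast]
  have hden : (0 : ℚ) < ((qval t).den : ℚ) := by
    exact_mod_cast (qval t).den_pos
  have hl1 : l1M (pcPoly (δ * n + 1) (QQ n δ Qc)) ≤ ((c * H ^ c : ℕ) : ℚ) := by
    rw [hQQ, spP_eq, l1M_map]
    exact_mod_cast hc y H hH hyH
  have hsmall : |qval t| ≤ 1 := by
    rw [habs, div_le_one hden]
    have : (qval t).num.natAbs ≤ (qval t).den := by
      refine le_trans ?_ hle
      calc (qval t).num.natAbs ≤ H * (qval t).num.natAbs := Nat.le_mul_of_pos_left _ hH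
        _ ≤ (H * (qval t).num.natAbs) ^ (N₁ + 2 * c + 1) := Nat.le_self_pow (by omega) _
        _ ≤ (N₁ + 2 * c + 1) * (H * (qval t).num.natAbs) ^ (N₁ + 2 * c + 1) :=
            Nat.le_mul_of_pos_left _ (by omega)
    exact_mod_cast this
  have hhalf : l1M (pcPoly (δ * n + 1) (QQ n δ Qc)) * |qval t| ≤ 1 / 2 := by
    refine (mul_le_mul_of_nonneg_right hl1 (abs_nonneg _)).trans ?_
    rw [habs, ← mul_div_assoc, div_le_iff₀ hden]
    have h2 : ((2 * (c * H ^ c) * (qval t).num.natAbs : ℕ) : ℚ) ≤ ((qval t).den : ℚ) := by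
      exact_mod_cast hle2
    push_cast at h2 ⊢
    linarith
  obtain ⟨V, hV⟩ := okBase_of_small h1 t hsmall hhalf
  have hg : Good (δ * n) (pcPoly (δ * n + 1) (QQ n δ Qc)) (qval t) := by
    rw [hQQ]
    exact hgood y H hH hyH (qval t) hτ hle1
  obtain ⟨k, W, hrc⟩ := exists_rcU (n := n) (δ := δ) (τ := t) (E := E)
    (Q := map (Int.castRingHom ℚ) Q) (Qc := Qc) hQc (by
      intro L hL
      obtain ⟨h2, h3⟩ := hE' L hL
      refine ⟨h2, fun I hI => ?_⟩
      obtain ⟨h4, k, h5⟩ := h3 I hI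
      refine ⟨h4, k, ?_⟩
      rw [← specialise_eq]
      exact h5)
  obtain ⟨c', hc'⟩ := checkC_of_good h1 hV hg (GG E (((n, δ), k), ((Qc, t), W))) k
  exact dom_decide0 (c := ((((n, δ), k), ((Qc, t), W)), c')) ⟨hrc, hc'⟩

end Pool.Agent.Lib.MP_bbe012_lc.PP
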