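import Pool.Agent.Lib.MP_bbe012_lc.PP.Base

/-!
# Bounded relations
-/

namespace Pool.Agent.Lib.MP_bbe012_lc.PP

open Polynomial

/-- A maximal independent subfamily of a finite family in a domain, over the polynomials.

Proof. `letI := (f.toAlgebra).toModule` (or `Module.compHom`), and `exists_maximal_linearIndepOn ℚ[X] g` gives
`I : Set (Fin N)`, linearly independent, such that for `k ∉ I` some non zero multiple of `g k` is in the
span of `g '' I`. Enumerate `I` (`Set.Finite`, `Fintype.equivFin`), write the span membership as a sum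
(`Submodule.mem_span_image_iff...`/`Finsupp.mem_span_image_iff_linearCombination`/`Submodule.mem_span_range_iff_exists_fun`)
and take for `ρ` the product of the multipliers. (For `k ∈ I` the relation is trivial.) -/
theorem exists_sub {N : ℕ} {S : Type} [CommRing S] [IsDomain S] (f : ℚ[X] →+* S) (g : Fin N → S) :
    ∃ (d : ℕ) (e : Fin d → S) (ρ : ℚ[X]) (c : Fin N → Fin d → ℚ[X]), ρ ≠ 0 ∧
      (∀ k, f ρ * g k = ∑ l, f (c k l) * e l) ∧
      ∀ a : Fin d → ℚ[X], ∑ l, f (a l) * e l = 0 → a = 0 := by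
  classical
  let _ : Algebra ℚ[X] S := f.toAlgebra
  have hsm : ∀ (p : ℚ[X]) (x : S), p • x = f p * x := fun p x => Algebra.smul_def p x
  obtain ⟨s, hs, hmax⟩ := exists_maximal_linearIndepOn ℚ[X] g
  let E : s ≃ Fin (Fintype.card s) := Fintype.equivFin s
  have hmul : ∀ k, ∃ (r : ℚ[X]) (c : Fin (Fintype.card s) → ℚ[X]), r ≠ 0 ∧
      f r * g k = ∑ l, f (c l) * g (E.symm l) := by
    intro k
    by_cases hk : k ∈ s
    · refine ⟨1, fun l => if l = E ⟨k, hk⟩ then 1 else 0, one_ne_zero, ?_⟩
      rw [Finset.sum_eq_single (E ⟨k, hk⟩)]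
      · beta_reduce
        rw [if_pos rfl, Equiv.symm_apply_apply]
      · intro l _ hl
        beta_reduce
        rw [if_neg hl, map_zero, zero_mul]
      · intro h
        exact absurd (Finset.mem_univ _) h
    · obtain ⟨a, ha, hmem⟩ := hmax k hk
      have himg : g '' s = Set.range (fun l : Fin (Fintype.card s) => g (E.symm l)) := by
        ext x
        constructor
        · rintro ⟨i, hi, rfl⟩
          refine ⟨E ⟨i, hi⟩, ?_⟩
          show g (E.symm (E ⟨i, hi⟩)) = g i
          rw [Equiv.symm_apply_apply]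
        · rintro ⟨l, rfl⟩
          exact ⟨(E.symm l : Fin N), (E.symm l).2, rfl⟩
      rw [himg, Submodule.mem_span_range_iff_exists_fun] at hmem
      obtain ⟨c, hc⟩ := hmem
      refine ⟨a, c, ha, ?_⟩
      rw [← hsm, ← hc]
      exact Finset.sum_congr rfl fun l _ => hsm _ _
  choose r c hr hrc using hmul
  refine ⟨Fintype.card s, fun l => g (E.symm l), ∏ k, r k,
    fun k l => (∏ j ∈ Finset.univ.erase k, r j) * c k l,
    Finset.prod_ne_zero_iff.2 fun k _ => hr k, ?_, ?_⟩
  · intro k
    rw [← Finset.prod_erase_mul _ _ (Finset.mem_univ k), map_mul, mul_assoc, hrc k,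
      Finset.mul_sum]
    refine Finset.sum_congr rfl fun l _ => ?_
    rw [map_mul, mul_assoc]
  · intro a ha
    have hli : LinearIndependent ℚ[X] (fun i : s => g i) := hs
    rw [Fintype.linearIndependent_iff] at hli
    have h1 := hli (fun i => a (E i)) (by
      rw [← ha, ← Equiv.sum_comp E]
      refine Finset.sum_congr rfl fun i _ => ?_
      beta_reduce
      rw [hsm, Equiv.symm_apply_apply])
    ext1 l
    have h2 := h1 (E.symm l)
    rw [Equiv.apply_symm_apply] at h2
    exact h2

/-- Let `g` be a finite family of power series. There is a constant `c` such that for all rational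
combinations `θ_j = ∑ u_{jk} g_k` and all polynomials `v_j` with `∑ θ_j v_j = 0` (at `τ`) there is a
relation `∑ a_j v_j = 0` with polynomials `a_j`, not all zero, of degree at most `c`.

Proof. Take `d, e, ρ, ρc` from `exists_sub (sh τ) g` (`PowerSeries ℚ` is a domain); `c` is the maximum of the
degrees of the `ρc k l` (e.g. their sum). Given `u, v`: `sh ρ * θ_j = ∑_l sh (a_{jl}) e_l` with
`a_{jl} = ∑_k C (u j k) * ρc k l` (degree `≤ c`). From `0 = sh ρ * ∑_j θ_j sh (v_j) = ∑_l sh (∑_j a_{jl} v_j) e_l`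
we get `∑_j a_{jl} * v j = 0` for every `l`. If all `a_{jl}` were zero, `sh ρ * θ_j = 0` for all `j`, hence
`θ_j = 0` (`sh_injective`, domain), against the hypothesis. -/
theorem bounded_relation {m N : ℕ} (τ : ℚ) (g : Fin N → PowerSeries ℚ) :
    ∃ c : ℕ, ∀ (u : Fin m → Fin N → ℚ) (v : Fin m → ℚ[X]),
      (∃ j, ∑ k, PowerSeries.C (u j k) * g k ≠ 0) →
      ∑ j, (∑ k, PowerSeries.C (u j k) * g k) * sh τ (v j) = 0 →
      ∃ a : Fin m → ℚ[X], a ≠ 0 ∧ (∀ i, (a i).natDegree ≤ c) ∧ ∑ i, a i * v i = 0 := by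
  classical
  obtain ⟨d, e, ρ, p, hρ, hp, hind⟩ := exists_sub (sh τ) g
  refine ⟨∑ k, ∑ l, (p k l).natDegree, ?_⟩
  intro u v hne hrel
  have hρ' : sh τ ρ ≠ 0 := by
    intro h
    exact hρ (sh_injective τ (by rw [h, map_zero]))
  have hth : ∀ j, sh τ ρ * (∑ k, PowerSeries.C (u j k) * g k) =
      ∑ l, sh τ (∑ k, C (u j k) * p k l) * e l := by
    intro j
    rw [Finset.mul_sum]
    have h1 : ∀ k, sh τ ρ * (PowerSeries.C (u j k) * g k) =
        ∑ l, PowerSeries.C (u j k) * (sh τ (p k l) * e l) := by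
      intro k
      rw [← Finset.mul_sum, ← hp k]
      ring
    rw [Finset.sum_congr rfl fun k _ => h1 k, Finset.sum_comm]
    refine Finset.sum_congr rfl fun l _ => ?_
    rw [map_sum, Finset.sum_mul]
    refine Finset.sum_congr rfl fun k _ => ?_
    rw [map_mul, sh_C, mul_assoc]
  have hz : ∀ l, ∑ j, (∑ k, C (u j k) * p k l) * v j = 0 := by
    have h1 : ∑ l, sh τ (∑ j, (∑ k, C (u j k) * p k l) * v j) * e l = 0 := by
      have h2 : ∑ j, (sh τ ρ * (∑ k, PowerSeries.C (u j k) * g k)) * sh τ (v j) = 0 := by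
        have h3 : ∑ j, (sh τ ρ * (∑ k, PowerSeries.C (u j k) * g k)) * sh τ (v j) =
            sh τ ρ * ∑ j, (∑ k, PowerSeries.C (u j k) * g k) * sh τ (v j) := by
          rw [Finset.mul_sum]
          exact Finset.sum_congr rfl fun j _ => mul_assoc _ _ _
        rw [h3, hrel, mul_zero]
      rw [← h2]
      have h4 : ∀ j, (sh τ ρ * (∑ k, PowerSeries.C (u j k) * g k)) * sh τ (v j) =
          ∑ l, sh τ ((∑ k, C (u j k) * p k l) * v j) * e l := by
        intro j
        rw [hth j, Finset.sum_mul]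
        refine Finset.sum_congr rfl fun l _ => ?_
        rw [map_mul]
        ring
      rw [Finset.sum_congr rfl fun j _ => h4 j, Finset.sum_comm]
      refine Finset.sum_congr rfl fun l _ => ?_
      rw [map_sum, Finset.sum_mul]
    have h5 := hind _ h1
    intro l
    exact congrFun h5 l
  obtain ⟨j, hj⟩ := hne
  have hex : ∃ l, ∑ k, C (u j k) * p k l ≠ 0 := by
    by_contra hcon
    have hcon' : ∀ l, ∑ k, C (u j k) * p k l = 0 := fun l => by
      by_contra h
      exact hcon ⟨l, h⟩
    have h6 : sh τ ρ * (∑ k, PowerSeries.C (u j k) * g k) = 0 := by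
      rw [hth j]
      refine Finset.sum_eq_zero fun l _ => ?_
      rw [hcon' l, map_zero, zero_mul]
    rcases mul_eq_zero.1 h6 with h7 | h7
    · exact hρ' h7
    · exact hj h7
  obtain ⟨l, hl⟩ := hex
  refine ⟨fun j => ∑ k, C (u j k) * p k l, ?_, ?_, hz l⟩
  · intro h
    exact hl (congrFun h j)
  · intro i
    refine Polynomial.natDegree_sum_le_of_forall_le _ _ fun k _ => ?_
    refine (Polynomial.natDegree_C_mul_le _ _).trans ?_
    calc (p k l).natDegree ≤ ∑ l, (p k l).natDegree :=
          Finset.single_le_sum (f := fun l => (p k l).natDegree) (fun _ _ => Nat.zero_le _)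
            (Finset.mem_univ l)
      _ ≤ ∑ k, ∑ l, (p k l).natDegree :=
          Finset.single_le_sum (f := fun k => ∑ l, (p k l).natDegree) (fun _ _ => Nat.zero_le _)
            (Finset.mem_univ k)

end Pool.Agent.Lib.MP_bbe012_lc.PP
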