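import Pool.Agent.Lib.MP_bbe012_lc.PP.Sol
import Pool.Agent.Lib.MP_bbe012_lc.PP.Phi
import Pool.Agent.Lib.MP_bbe012_lc.PP.Mult

/-!
# The linear form can be chosen with bounded degree
-/

namespace Pool.Agent.Lib.MP_bbe012_lc.PP

open Polynomial

/-- Division by the largest power of `X - C τ` dividing all the polynomials. -/
private theorem Forms_red {m : ℕ} (τ : ℚ) : ∀ (n : ℕ) (a : Fin m → ℚ[X]) (i1 : Fin m), a i1 ≠ 0 →
    (a i1).natDegree = n → ∃ (k : ℕ) (a' : Fin m → ℚ[X]), (∀ i, a i = (X - C τ) ^ k * a' i) ∧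
      ∃ i0, (a' i0).eval τ ≠ 0 := by
  intro n
  induction n with
  | zero =>
    intro a i1 h1 h2
    refine ⟨0, a, fun i => by rw [pow_zero, one_mul], i1, ?_⟩
    rw [eq_C_of_natDegree_eq_zero h2, eval_C]
    intro h3
    apply h1
    rw [eq_C_of_natDegree_eq_zero h2, h3, C_0]
  | succ n ih =>
    intro a i1 h1 h2
    by_cases h : ∃ i0, (a i0).eval τ ≠ 0
    · exact ⟨0, a, fun i => by rw [pow_zero, one_mul], h⟩
    · push Not at h
      have h3 : ∀ i, ∃ b : ℚ[X], a i = (X - C τ) * b := fun i => dvd_iff_isRoot.2 (h i)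
      choose b hb using h3
      have hb1 : b i1 ≠ 0 := by
        intro h4
        apply h1
        rw [hb i1, h4, mul_zero]
      have hb2 : (b i1).natDegree = n := by
        have h5 := h2
        rw [hb i1, natDegree_mul (X_sub_C_ne_zero τ) hb1, natDegree_X_sub_C] at h5
        omega
      obtain ⟨k, a', ha', hi0⟩ := ih b i1 hb1 hb2
      refine ⟨k + 1, a', fun i => ?_, hi0⟩
      rw [hb i, ha' i]
      ring

/-- If some non zero linear form kills all iterated derivatives of `v`, then some linear form of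
degree at most `c` kills `v`, where `c` depends only on `T` and `B`.

Proof. Choose `τ : ℚ` with `T.eval τ ≠ 0` (`T ≠ 0` has finitely many roots, `ℚ` is infinite). For
`i : Fin m` let `H i : Fin m → ℚ⟦X⟧` be the solution of `exists_sol (sh τ T) _ (fun j k => sh τ (B j k))` with
initial value `Pi.single i 1`. Apply `bounded_relation τ` to the finite family `g` of all entries `H i j`
(index set `Fin m × Fin m ≃ Fin (m * m)`, `finProdFinEquiv`); this gives `c`.
Let `v` and `a ≠ 0` be given with `∑ i, a i * iter T B v s i = 0` for all `s`. Dividing by the largest power of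
`X - C τ` dividing all `a i` we may assume `(a i0).eval τ ≠ 0` for some `i0` (cancel in the domain `ℚ[X]`;
for instance by strong induction on `(a i1).natDegree` for some `i1` with `a i1 ≠ 0`, using
`Polynomial.dvd_iff_isRoot`). Put `lam i := (a i).eval τ` and `η j := ∑ i, PowerSeries.C (lam i) * H i j`: a solution
with constant coefficients `lam j`. For all `s`: `∑ i, lam i * (iter T B v s i).eval τ = 0` (evaluate the relation at
`τ`), so by `phi_dvd` (for every `S`, with `s = 0`, `k = S + 1`) `∑ i, η i * sh τ (v i)` is divisible by all powers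
of `X`, hence is zero (`PowerSeries.ext`, `PowerSeries.X_pow_dvd_iff`). It has the form required by
`bounded_relation` with `u j (i, j') = if j' = j then lam i else 0`; `η i0 ≠ 0` because its constant
coefficient is `lam i0 ≠ 0`. -/
theorem bounded_forms {m : ℕ} (T : ℚ[X]) (hT : T ≠ 0) (B : Fin m → Fin m → ℚ[X]) :
    ∃ c : ℕ, ∀ v : Fin m → ℚ[X],
      (∃ a : Fin m → ℚ[X], a ≠ 0 ∧ ∀ s, ∑ i, a i * iter T B v s i = 0) →
      ∃ a : Fin m → ℚ[X], a ≠ 0 ∧ (∀ i, (a i).natDegree ≤ c) ∧ ∑ i, a i * v i = 0 := by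
  classical
  obtain ⟨τ, hτ⟩ : ∃ τ : ℚ, T.eval τ ≠ 0 := by
    by_contra h
    push Not at h
    exact hT (Polynomial.funext fun x => by rw [h x, eval_zero])
  have hτ' : PowerSeries.constantCoeff (sh τ T) ≠ 0 := by
    rw [constantCoeff_sh]
    exact hτ
  choose H hH0 hH using fun i : Fin m =>
    exists_sol (sh τ T) hτ' (fun j k => sh τ (B j k)) (Pi.single i (1 : ℚ))
  obtain ⟨c, hc⟩ := bounded_relation (m := m) τ
    (fun k : Fin (m * m) => H (finProdFinEquiv.symm k).1 (finProdFinEquiv.symm k).2)
  refine ⟨c, ?_⟩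
  rintro v ⟨a, ha, hs⟩
  obtain ⟨i1, hi1⟩ : ∃ i, a i ≠ 0 := by
    by_contra h
    push Not at h
    exact ha (funext h)
  obtain ⟨k, a', ha', i0, hi0⟩ := Forms_red τ _ a i1 hi1 rfl
  have hs' : ∀ s, ∑ i, a' i * iter T B v s i = 0 := by
    intro s
    have h1 : (X - C τ) ^ k * ∑ i, a' i * iter T B v s i = 0 := by
      rw [Finset.mul_sum, ← hs s]
      refine Finset.sum_congr rfl fun i _ => ?_
      rw [ha' i, mul_assoc]
    exact (mul_eq_zero.1 h1).resolve_left (pow_ne_zero k (X_sub_C_ne_zero τ))
  have hev : ∀ s, ∑ i, (a' i).eval τ * (iter T B v s i).eval τ = 0 := by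
    intro s
    have h1 := congrArg (Polynomial.eval τ) (hs' s)
    rw [eval_finsetSum, eval_zero] at h1
    rw [← h1]
    exact Finset.sum_congr rfl fun i _ => (eval_mul).symm
  obtain ⟨η, hηd⟩ : ∃ η : Fin m → PowerSeries ℚ,
      η = fun j => ∑ i, PowerSeries.C ((a' i).eval τ) * H i j := ⟨_, rfl⟩
  have hη0 : ∀ j, PowerSeries.constantCoeff (η j) = (a' j).eval τ := by
    intro j
    rw [hηd]
    simp only
    rw [map_sum]
    rw [Finset.sum_eq_single j]
    · rw [map_mul, hH0, PowerSeries.constantCoeff_C, Pi.single_eq_same, mul_one]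
    · intro i _ hij
      rw [map_mul, hH0, Pi.single_eq_of_ne (Ne.symm hij), mul_zero]
    · intro h
      exact absurd (Finset.mem_univ j) h
  have hηe : ∀ i, sh τ T * PowerSeries.derivative ℚ (η i) = - ∑ j, η j * sh τ (B j i) := by
    intro i
    have h1 : PowerSeries.derivative ℚ (η i) =
        ∑ l, PowerSeries.C ((a' l).eval τ) * PowerSeries.derivative ℚ (H l i) := by
      rw [hηd]
      simp only
      rw [map_sum]
      refine Finset.sum_congr rfl fun l _ => ?_
      rw [← PowerSeries.smul_eq_C_mul, Derivation.map_smul, PowerSeries.smul_eq_C_mul]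
    rw [h1, Finset.mul_sum]
    have h2 : ∀ l, sh τ T * (PowerSeries.C ((a' l).eval τ) * PowerSeries.derivative ℚ (H l i)) =
        - ∑ j, PowerSeries.C ((a' l).eval τ) * H l j * sh τ (B j i) := by
      intro l
      calc sh τ T * (PowerSeries.C ((a' l).eval τ) * PowerSeries.derivative ℚ (H l i))
          = PowerSeries.C ((a' l).eval τ) * (sh τ T * PowerSeries.derivative ℚ (H l i)) := by ring
        _ = PowerSeries.C ((a' l).eval τ) * (- ∑ j, H l j * sh τ (B j i)) := by rw [hH l i]
        _ = - ∑ j, PowerSeries.C ((a' l).eval τ) * H l j * sh τ (B j i) := by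
            rw [mul_neg, Finset.mul_sum]
            congr 1
            exact Finset.sum_congr rfl fun j _ => by ring
    rw [Finset.sum_congr rfl fun l _ => h2 l, Finset.sum_neg_distrib, Finset.sum_comm]
    congr 1
    refine Finset.sum_congr rfl fun j _ => ?_
    rw [hηd]
    simp only
    rw [Finset.sum_mul]
  have hzero : ∑ i, η i * sh τ (v i) = 0 := by
    apply PowerSeries.ext
    intro n
    have h1 := phi_dvd T B v τ hτ η hηe n (fun s _ => by
      rw [← hev s]
      exact Finset.sum_congr rfl fun i _ => by rw [hη0 i]) (n + 1) 0 (by omega)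
    rw [PowerSeries.X_pow_dvd_iff] at h1
    rw [map_zero]
    exact h1 n (Nat.lt_succ_self n)
  have hsum : ∀ j, ∑ k, PowerSeries.C (if (finProdFinEquiv.symm k).2 = j then
      (a' (finProdFinEquiv.symm k).1).eval τ else 0) *
      H (finProdFinEquiv.symm k).1 (finProdFinEquiv.symm k).2 = η j := by
    intro j
    rw [Equiv.sum_comp (finProdFinEquiv (m := m) (n := m)).symm
      (fun p : Fin m × Fin m => PowerSeries.C (if p.2 = j then (a' p.1).eval τ else 0) * H p.1 p.2),
      Fintype.sum_prod_type, hηd]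
    simp only
    refine Finset.sum_congr rfl fun i _ => ?_
    rw [Finset.sum_eq_single j]
    · rw [if_pos rfl]
    · intro l _ hl
      rw [if_neg hl, map_zero, zero_mul]
    · intro h
      exact absurd (Finset.mem_univ j) h
  refine hc (fun j k => if (finProdFinEquiv.symm k).2 = j then
    (a' (finProdFinEquiv.symm k).1).eval τ else 0) v ⟨i0, ?_⟩ ?_
  · rw [hsum i0]
    intro h
    apply hi0
    rw [← hη0 i0, h, map_zero]
  · rw [Finset.sum_congr rfl fun j _ => by rw [hsum j]]
    exact hzero

end Pool.Agent.Lib.MP_bbe012_lc.PP
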