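import Pool.Agent.Lib.MP_bbe012_lc.PP.KDefs

/-!
# Stage 2: the field of fractions of `D[t, x]`
-/

namespace Pool.Agent.Lib.MP_bbe012_lc.PP

open Module MvPolynomial Pool.Agent.Lib.MP_bbe012_lc

/-- The homomorphism from the polynomials in all coordinates. -/
noncomputable def phiU {p n : ℕ} {D : Type} [CommRing D] [Algebra ℚ D] (z : Fin p → D) :
    MvPolynomial (Fin ((p + 1) + n)) ℚ →ₐ[ℚ] MvPolynomial (Fin (n + 1)) D :=
  aeval (uS z)

/-- The variables `t, x` and the variables `z`. -/
private def KC_e (p n : ℕ) : Fin ((p + 1) + n) → Fin (n + 1) ⊕ Fin p :=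
  Fin.append (Fin.snoc (α := fun _ => Fin (n + 1) ⊕ Fin p) (fun i => Sum.inr i) (Sum.inl 0))
    (fun l => Sum.inl l.succ)

private theorem KC_e_z (p n : ℕ) (j : Fin p) : KC_e p n (Fin.castAdd n j.castSucc) = Sum.inr j := by
  unfold KC_e
  rw [Fin.append_left, Fin.snoc_castSucc]

private theorem KC_e_t (p n : ℕ) : KC_e p n (Fin.castAdd n (Fin.last p)) = Sum.inl 0 := by
  unfold KC_e
  rw [Fin.append_left, Fin.snoc_last]

private theorem KC_e_x (p n : ℕ) (l : Fin n) : KC_e p n (Fin.natAdd (p + 1) l) = Sum.inl l.succ := by
  unfold KC_e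
  rw [Fin.append_right]

private theorem KC_uS_z {p n : ℕ} {D : Type} [CommRing D] (z : Fin p → D) (j : Fin p) :
    uS (n := n) z (Fin.castAdd n j.castSucc) = C (z j) := by
  unfold uS
  rw [Fin.append_left, Fin.snoc_castSucc]

private theorem KC_uS_t {p n : ℕ} {D : Type} [CommRing D] (z : Fin p → D) :
    uS (n := n) z (Fin.castAdd n (Fin.last p)) = X 0 := by
  unfold uS
  rw [Fin.append_left, Fin.snoc_last]

private theorem KC_uS_x {p n : ℕ} {D : Type} [CommRing D] (z : Fin p → D) (l : Fin n) :
    uS z (Fin.natAdd (p + 1) l) = X l.succ := by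
  unfold uS
  rw [Fin.append_right]

private theorem KC_cases {p n : ℕ} {P : Fin ((p + 1) + n) → Prop}
    (hz : ∀ j : Fin p, P (Fin.castAdd n j.castSucc)) (ht : P (Fin.castAdd n (Fin.last p)))
    (hx : ∀ l : Fin n, P (Fin.natAdd (p + 1) l)) (i : Fin ((p + 1) + n)) : P i := by
  induction i using Fin.addCases with
  | left i =>
    induction i using Fin.lastCases with
    | last => exact ht
    | cast j => exact hz j
  | right l => exact hx l

private theorem KC_bij (p n : ℕ) : Function.Bijective (KC_e p n) := by
  have hsurj : Function.Surjective (KC_e p n) := by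
    intro s
    rcases s with s | s
    · induction s using Fin.cases with
      | zero => exact ⟨_, KC_e_t p n⟩
      | succ l => exact ⟨_, KC_e_x p n l⟩
    · exact ⟨_, KC_e_z p n s⟩
  refine ⟨?_, hsurj⟩
  exact ((Fintype.bijective_iff_surjective_and_card _).2 ⟨hsurj, by
    rw [Fintype.card_fin, Fintype.card_sum, Fintype.card_fin, Fintype.card_fin]
    omega⟩).1

private theorem KC_factor {p n : ℕ} {D : Type} [CommRing D] [Algebra ℚ D] (z : Fin p → D) :
    (phiU (n := n) z).toRingHom =
      (MvPolynomial.map (aeval z : MvPolynomial (Fin p) ℚ →ₐ[ℚ] D).toRingHom).comp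
        (((sumAlgEquiv ℚ (Fin (n + 1)) (Fin p)).toRingEquiv.toRingHom).comp
          (rename (R := ℚ) (KC_e p n)).toRingHom) := by
  refine MvPolynomial.ringHom_ext (fun a => ?_) (fun i => ?_)
  · change phiU (n := n) z (C a) = MvPolynomial.map _ (sumAlgEquiv ℚ _ _ (rename (KC_e p n) (C a)))
    unfold phiU
    rw [aeval_C, rename_C, sumAlgEquiv_C_inl, map_C]
    change _ = C (aeval z (C a))
    rw [aeval_C]
    rfl
  · change phiU (n := n) z (X i) = MvPolynomial.map _ (sumAlgEquiv ℚ _ _ (rename (KC_e p n) (X i)))
    unfold phiU
    rw [aeval_X, rename_X]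
    induction i using KC_cases with
    | hz j =>
      rw [KC_uS_z, KC_e_z, sumAlgEquiv_X_inr, map_C]
      change _ = C (aeval z (X j))
      rw [aeval_X]
    | ht => rw [KC_uS_t, KC_e_t, sumAlgEquiv_X_inl, map_X]
    | hx l => rw [KC_uS_x, KC_e_x, sumAlgEquiv_X_inl, map_X]

private theorem KC_map_finite {R S σ : Type} [CommRing R] [CommRing S] (f : R →+* S)
    (hf : f.Finite) : (MvPolynomial.map (σ := σ) f).Finite := by
  letI : Algebra R S := f.toAlgebra
  haveI : Module.Finite R S := hf
  obtain ⟨s, hs⟩ := (Module.finite_def (R := R) (M := S)).1 inferInstance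
  letI : Algebra (MvPolynomial σ R) (MvPolynomial σ S) := (MvPolynomial.map (σ := σ) f).toAlgebra
  change Module.Finite (MvPolynomial σ R) (MvPolynomial σ S)
  classical
  refine ⟨⟨s.image C, ?_⟩⟩
  rw [eq_top_iff]
  rintro q -
  have hsm : ∀ (a : MvPolynomial σ R) (b : MvPolynomial σ S), a • b = MvPolynomial.map f a * b :=
    fun a b => rfl
  obtain ⟨N, hN⟩ : ∃ N : Submodule (MvPolynomial σ R) (MvPolynomial σ S),
      N = Submodule.span (MvPolynomial σ R) ((s.image C : Finset (MvPolynomial σ S)) : Set _) := ⟨_, rfl⟩
  rw [← hN]
  have hC : ∀ a : S, C a ∈ N := by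
    intro a
    have ha : a ∈ Submodule.span R (s : Set S) := by
      rw [hs]
      exact Submodule.mem_top
    induction ha using Submodule.span_induction with
    | mem x hx =>
      rw [hN]
      refine Submodule.subset_span ?_
      rw [Finset.coe_image]
      exact ⟨x, hx, rfl⟩
    | zero => rw [map_zero]; exact N.zero_mem
    | add x y _ _ hx hy => rw [map_add]; exact N.add_mem hx hy
    | smul r x _ hx =>
      have h1 : (C (r • x) : MvPolynomial σ S) = (C r : MvPolynomial σ R) • C x := by
        rw [hsm, map_C, ← C_mul]
        rfl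
      rw [h1]
      exact N.smul_mem _ hx
  induction q using MvPolynomial.induction_on with
  | C a => exact hC a
  | add a b ha hb => exact N.add_mem ha hb
  | mul_X a i ha =>
    have h1 : a * X i = (X i : MvPolynomial σ R) • a := by
      rw [hsm, map_X, mul_comm]
    rw [h1]
    exact N.smul_mem _ ha

/-- Proof. The polynomial ring in `(p + 1) + n` variables is isomorphic to the ring of polynomials in `n + 1` variables `t, x` over
`ℚ[z_1, ..., z_p]` (`MvPolynomial.sumAlgEquiv` and renaming), and `phiU z` corresponds to `MvPolynomial.map (aeval z)`, which is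
injective since `aeval z` is (`MvPolynomial.map_injective`). Alternatively show that the elements `uS z j` of `D[t, x]` are
algebraically independent (`AlgebraicIndependent`). -/
theorem phiU_injective {p n : ℕ} {D : Type} [CommRing D] [Algebra ℚ D] {z : Fin p → D}
    (hz : Function.Injective (aeval z : MvPolynomial (Fin p) ℚ →ₐ[ℚ] D)) :
    Function.Injective (phiU (n := n) z) := by
  have h1 : Function.Injective (phiU (n := n) z).toRingHom := by
    rw [KC_factor, RingHom.coe_comp, RingHom.coe_comp]
    refine Function.Injective.comp (MvPolynomial.map_injective _ hz) (Function.Injective.comp ?_ ?_)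
    · exact (sumAlgEquiv ℚ (Fin (n + 1)) (Fin p)).injective
    · exact rename_injective _ (KC_bij p n).1
  exact h1

/-- Proof. `D` is generated as a module over `ℚ[z]` by finitely many `d_i`, and the `C d_i` generate `D[t, x]` over the polynomials
in all coordinates: by `MvPolynomial.induction_on` (or: the submodule they generate contains all `C a`, and is stable under
multiplication by the `X i`, which are coordinates). -/
theorem phiU_finite {p n : ℕ} {D : Type} [CommRing D] [Algebra ℚ D] {z : Fin p → D}
    (hz : (aeval z : MvPolynomial (Fin p) ℚ →ₐ[ℚ] D).toRingHom.Finite) :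
    (phiU (n := n) z).toRingHom.Finite := by
  rw [KC_factor]
  refine RingHom.Finite.comp (KC_map_finite _ hz) (RingHom.Finite.of_surjective _ ?_)
  rw [RingHom.coe_comp]
  refine Function.Surjective.comp (sumAlgEquiv ℚ (Fin (n + 1)) (Fin p)).surjective ?_
  exact rename_surjective _ (KC_bij p n).2

/-- The field of fractions of a finite extension is a finite extension of the field of fractions.

Proof. `S` is integral over `R`, so the localization of `S` at the non zero elements of `R` is a field, hence equal to `E` (or: every element of `S`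
divides a non zero element of `R`, so every element of `E` has the form `s / r`); so generators of `S` over `R` span `E` over `K`. (Mathlib:
`Module.Finite.of_isLocalization`, `IsIntegral...`; note that `R → S` is injective because `R → K → E` is.) -/
theorem finiteDimensional_fraction {R S K E : Type} [CommRing R] [IsDomain R] [CommRing S] [IsDomain S] [Algebra R S]
    [Module.Finite R S] [Field K] [Algebra R K] [IsFractionRing R K] [Field E] [Algebra S E]
    [IsFractionRing S E] [Algebra R E] [IsScalarTower R S E] [Algebra K E] [IsScalarTower R K E] :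
    FiniteDimensional K E := by
  classical
  have hRE : Function.Injective (algebraMap R E) := by
    rw [IsScalarTower.algebraMap_eq R K E, RingHom.coe_comp]
    exact Function.Injective.comp (algebraMap K E).injective (IsFractionRing.injective R K)
  have hRS : Function.Injective (algebraMap R S) := by
    intro a b hab
    refine hRE ?_
    rw [IsScalarTower.algebraMap_apply R S E, IsScalarTower.algebraMap_apply R S E, hab]
  obtain ⟨s, hs⟩ := (Module.finite_def (R := R) (M := S)).1 inferInstance
  refine ⟨⟨s.image (algebraMap S E), ?_⟩⟩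
  obtain ⟨N, hN⟩ : ∃ N : Submodule K E,
      N = Submodule.span K ((s.image (algebraMap S E) : Finset E) : Set E) := ⟨_, rfl⟩
  rw [← hN, eq_top_iff]
  rintro e -
  have hS : ∀ a : S, algebraMap S E a ∈ N := by
    intro a
    have ha : a ∈ Submodule.span R (s : Set S) := by
      rw [hs]
      exact Submodule.mem_top
    induction ha using Submodule.span_induction with
    | mem x hx =>
      rw [hN]
      refine Submodule.subset_span ?_
      rw [Finset.coe_image]
      exact ⟨x, hx, rfl⟩
    | zero => rw [map_zero]; exact N.zero_mem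
    | add x y _ _ hx hy => rw [map_add]; exact N.add_mem hx hy
    | smul r x _ hx =>
      have h1 : algebraMap S E (r • x) = algebraMap R K r • algebraMap S E x := by
        rw [Algebra.smul_def, map_mul, Algebra.smul_def, ← IsScalarTower.algebraMap_apply R S E,
          ← IsScalarTower.algebraMap_apply R K E]
      rw [h1]
      exact N.smul_mem _ hx
  obtain ⟨a, b, hb, rfl⟩ := IsFractionRing.div_surjective (A := S) e
  have hb0 : b ≠ 0 := nonZeroDivisors.ne_zero hb
  haveI : FaithfulSMul R S := (faithfulSMul_iff_algebraMap_injective R S).2 hRS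
  haveI : Algebra.IsIntegral R S := Algebra.IsIntegral.of_finite R S
  obtain ⟨r, hr, c, hc⟩ := (Algebra.IsIntegral.isIntegral (R := R) b).isAlgebraic.exists_nonzero_dvd hb
  have h2 : algebraMap S E a / algebraMap S E b =
      (algebraMap R K r)⁻¹ • algebraMap S E (a * c) := by
    have h3 : algebraMap S E b ≠ 0 := by
      intro h
      exact hb0 (IsFractionRing.injective S E (by rw [h, map_zero]))
    have h4 : algebraMap R E r ≠ 0 := by
      intro h
      exact hr (hRE (by rw [h, map_zero]))
    have h5 : algebraMap R E r = algebraMap S E b * algebraMap S E c := by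
      rw [← map_mul, ← hc, ← IsScalarTower.algebraMap_apply R S E]
    rw [Algebra.smul_def, map_inv₀, ← IsScalarTower.algebraMap_apply R K E, map_mul,
      div_eq_iff h3, inv_mul_eq_div, div_mul_eq_mul_div, eq_div_iff h4, h5]
    ring
  rw [h2]
  exact N.smul_mem _ (hS _)

end Pool.Agent.Lib.MP_bbe012_lc.PP
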