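import Pool.Agent.Lib.MP_bbe012_lc.PP.WC
import Pool.Agent.Lib.MP_bbe012_lc.PP.CokF

/-!
# Stage 2: the module `D[t, x, 1/H]` over a domain `D` of parameters

`D` is a domain which is a finitely generated algebra over `ℚ`, `z : Fin p → D` are algebraically independent and `D`
is finite over `ℚ[z]`. `S = D[t, x_1, ..., x_n]`, `M = S[1/H]`. The coordinates are `z_1, ..., z_p, t, x_1, ..., x_n`,
indexed by `Fin ((p + 1) + n)`.
-/

namespace Pool.Agent.Lib.MP_bbe012_lc.PP

open MvPolynomial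

/-- The coordinates, as elements of `S = D[t, x]`. -/
noncomputable def uS {p n : ℕ} {D : Type} [CommRing D] (z : Fin p → D) :
    Fin ((p + 1) + n) → MvPolynomial (Fin (n + 1)) D :=
  Fin.append (Fin.snoc (α := fun _ => MvPolynomial (Fin (n + 1)) D) (fun i => C (z i)) (X 0))
    (fun l => X l.succ)

/-- The index of `t`. -/
def tI (p n : ℕ) : Fin ((p + 1) + n) := Fin.castAdd n (Fin.last p)

/-- The index of `x_l`. -/
def xI (p n : ℕ) (l : Fin n) : Fin ((p + 1) + n) := Fin.natAdd (p + 1) l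

/-- The derivations dual to the coordinates, on an algebra `M` over `S = D[t, x]`. -/
structure DerSys {p n : ℕ} {D M : Type} [CommRing D] [CommRing M]
    [Algebra (MvPolynomial (Fin (n + 1)) D) M] (z : Fin p → D)
    (dd : Fin ((p + 1) + n) → Derivation ℤ M M) : Prop where
  comm : ∀ i j v, dd i (dd j v) = dd j (dd i v)
  dual : ∀ i j, dd i (algebraMap (MvPolynomial (Fin (n + 1)) D) M (uS z j)) = if i = j then 1 else 0
  constT : ∀ a : D, dd (tI p n) (algebraMap (MvPolynomial (Fin (n + 1)) D) M (C a)) = 0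
  constX : ∀ (l : Fin n) (a : D), dd (xI p n l) (algebraMap (MvPolynomial (Fin (n + 1)) D) M (C a)) = 0

/-- A derivation of an algebra over `ℚ` as a `ℚ`-linear map. -/
noncomputable def derL {M : Type} [CommRing M] [Algebra ℚ M] (d : Derivation ℤ M M) : M →ₗ[ℚ] M :=
  (d : M →ₗ[ℤ] M).toAddMonoidHom.toRatLinearMap

/-- `Polynomial D` as the polynomials in `t = x_0`. -/
noncomputable def inTD (n : ℕ) (D : Type) [CommRing D] : Polynomial D →+* MvPolynomial (Fin (n + 1)) D :=
  (Polynomial.aeval (X 0 : MvPolynomial (Fin (n + 1)) D)).toRingHom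

/-- `x_l - x_l ^ 2`. -/
noncomputable def flD (n : ℕ) (D : Type) [CommRing D] (l : Fin n) : MvPolynomial (Fin (n + 1)) D :=
  X l.succ - X l.succ ^ 2

/-- `∑ ∂_l (f_l g_l / Q ^ K)` is `divD Q K g / Q ^ (K + 1)` (compare `divf`). -/
noncomputable def divD {n : ℕ} {D : Type} [CommRing D] (Q : MvPolynomial (Fin (n + 1)) D) (K : ℕ)
    (g : Fin n → MvPolynomial (Fin (n + 1)) D) : MvPolynomial (Fin (n + 1)) D :=
  ∑ l, (Q * pderiv l.succ (flD n D l * g l) -
    (K : MvPolynomial (Fin (n + 1)) D) * (flD n D l * g l * pderiv l.succ Q))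

/-- `Q(0, x)` (compare `atZero`). -/
noncomputable def atZD (n : ℕ) (D : Type) [CommRing D] :
    MvPolynomial (Fin (n + 1)) D →ₐ[D] MvPolynomial (Fin n) D :=
  aeval (Fin.cases 0 (fun l => X l))

/-- The polynomials in `z_1, ..., z_p` and `t` as elements of `S = D[t, x]`. -/
noncomputable def phiT {p : ℕ} (n : ℕ) {D : Type} [CommRing D] [Algebra ℚ D] (z : Fin p → D) :
    MvPolynomial (Fin (p + 1)) ℚ →ₐ[ℚ] MvPolynomial (Fin (n + 1)) D :=
  aeval fun i => uS z (Fin.castAdd n i)

theorem derL_apply {M : Type} [CommRing M] [Algebra ℚ M] (d : Derivation ℤ M M) (v : M) :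
    derL d v = d v := rfl

end Pool.Agent.Lib.MP_bbe012_lc.PP
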