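import Pool.Agent.Lib.MP_bbe012_lc.PP.KC

/-!
# Stage 2: generic reduction over a domain of parameters
-/

namespace Pool.Agent.Lib.MP_bbe012_lc.PP

open Module MvPolynomial Pool.Agent.Lib.MP_bbe012_lc

private theorem kg_uS_tI {p n : ℕ} {D : Type} [CommRing D] (z : Fin p → D) :
    uS (n := n) z (tI p n) = X 0 := by
  unfold uS tI
  rw [Fin.append_left, Fin.snoc_last]

private theorem kg_uS_xI {p n : ℕ} {D : Type} [CommRing D] (z : Fin p → D) (l : Fin n) :
    uS (n := n) z (xI p n l) = X l.succ := by
  unfold uS xI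
  rw [Fin.append_right]

private theorem kg_der {p n : ℕ} {D M : Type} [CommRing D] [CommRing M]
    [Algebra (MvPolynomial (Fin (n + 1)) D) M] {z : Fin p → D}
    {dM : Fin ((p + 1) + n) → Derivation ℤ M M} (hM : DerSys z dM) (l : Fin n)
    (s : MvPolynomial (Fin (n + 1)) D) :
    dM (xI p n l) (algebraMap (MvPolynomial (Fin (n + 1)) D) M s) =
      algebraMap (MvPolynomial (Fin (n + 1)) D) M (pderiv l.succ s) := by
  induction s using MvPolynomial.induction_on with
  | C a => rw [hM.constX, pderiv_C, map_zero]
  | add a b ha hb => rw [map_add, map_add, ha, hb, map_add, map_add]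
  | mul_X a j ha =>
    have hX : dM (xI p n l) (algebraMap (MvPolynomial (Fin (n + 1)) D) M (X j)) =
        algebraMap (MvPolynomial (Fin (n + 1)) D) M (pderiv l.succ (X j)) := by
      induction j using Fin.cases with
      | zero =>
        have h := hM.dual (xI p n l) (tI p n)
        rw [kg_uS_tI] at h
        rw [h, pderiv_X]
        have h1 : xI p n l ≠ tI p n := by
          intro he
          have := congrArg Fin.val he
          simp only [xI, tI, Fin.val_natAdd, Fin.val_castAdd, Fin.val_last] at this
          omega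
        rw [if_neg h1]
        simp
      | succ k =>
        have h := hM.dual (xI p n l) (xI p n k)
        rw [kg_uS_xI] at h
        rw [h, pderiv_X]
        by_cases hk : l = k
        · subst hk
          simp
        · have h1 : xI p n l ≠ xI p n k := by
            intro he
            apply hk
            have := congrArg Fin.val he
            simp only [xI, Fin.val_natAdd] at this
            apply Fin.ext
            omega
          rw [if_neg h1]
          have h2 : k.succ ≠ l.succ := by
            intro h3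
            exact hk (Fin.succ_injective _ h3).symm
          rw [Pi.single_eq_of_ne h2, map_zero]
    rw [map_mul, Derivation.leibniz, ha, hX, Derivation.leibniz, map_add, smul_eq_mul, smul_eq_mul,
      smul_eq_mul, smul_eq_mul, map_mul, map_mul]

/-- Exact elements of `M = S[1/H]`, `H = C w * Q`.

Proof. `dM (xI p n l) (algebraMap S M s) = algebraMap S M (pderiv l.succ s)` for `s ∈ S`: `MvPolynomial.induction_on` (`constX`; the `X j` are coordinates, `dual`;
`X 0 = uS z (tI p n)`, `X l.succ = uS z (xI p n l)`). Write `g l = algebraMap (s l) / H ^ N` with a common `N` (`IsLocalization.Away.surj`,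
take the maximum of the exponents over `l`), i.e. `H ^ N * g l = s l`. Apply `dM` to `H ^ N * (f_l * g_l) = f_l * s_l`:
`H ^ (N + 1) * dM (f_l g_l) = H * pderiv (f_l s_l) - N * pderiv H * (f_l s_l)`, with `pderiv l.succ (C w * Q) = C w * pderiv l.succ Q`: this is `C w` times the `l`-th term of
`divD Q N s`. For `N' ≥ N` replace `s l` by `H ^ (N' - N) * s l`. -/
theorem exact_M {p n : ℕ} {D M : Type} [CommRing D] [Algebra ℚ D] [CommRing M]
    [Algebra (MvPolynomial (Fin (n + 1)) D) M] {z : Fin p → D}
    {dM : Fin ((p + 1) + n) → Derivation ℤ M M} (hM : DerSys z dM) (w : D)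
    (Q : MvPolynomial (Fin (n + 1)) D) [IsLocalization.Away (C w * Q) M] (g : Fin n → M) :
    ∃ N₀ : ℕ, ∀ N, N₀ ≤ N → ∃ s : Fin n → MvPolynomial (Fin (n + 1)) D,
      algebraMap (MvPolynomial (Fin (n + 1)) D) M (C w * Q) ^ (N + 1) *
        ∑ l, dM (xI p n l) (algebraMap (MvPolynomial (Fin (n + 1)) D) M (flD n D l) * g l) =
      algebraMap (MvPolynomial (Fin (n + 1)) D) M (C w * divD Q N s) := by
  have hs : ∀ l : Fin n, ∃ (k : ℕ) (a : MvPolynomial (Fin (n + 1)) D),
      g l * algebraMap (MvPolynomial (Fin (n + 1)) D) M (C w * Q) ^ k =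
        algebraMap (MvPolynomial (Fin (n + 1)) D) M a := by
    intro l
    obtain ⟨k, a, h⟩ := IsLocalization.Away.surj (C w * Q) (g l)
    exact ⟨k, a, h⟩
  choose K a ha using hs
  refine ⟨Finset.univ.sup K, fun N hN => ⟨fun l => (C w * Q) ^ (N - K l) * a l, ?_⟩⟩
  have hg : ∀ l, algebraMap (MvPolynomial (Fin (n + 1)) D) M (C w * Q) ^ N * g l =
      algebraMap (MvPolynomial (Fin (n + 1)) D) M ((C w * Q) ^ (N - K l) * a l) := by
    intro l
    have hl : K l ≤ N := le_trans (Finset.le_sup (Finset.mem_univ l)) hN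
    rw [map_mul _ ((C w * Q) ^ (N - K l)) (a l), ← ha, map_pow]
    calc algebraMap (MvPolynomial (Fin (n + 1)) D) M (C w * Q) ^ N * g l
        = algebraMap (MvPolynomial (Fin (n + 1)) D) M (C w * Q) ^ ((N - K l) + K l) * g l := by
          rw [Nat.sub_add_cancel hl]
      _ = _ := by rw [pow_add]; ring
  set s : Fin n → MvPolynomial (Fin (n + 1)) D := fun l => (C w * Q) ^ (N - K l) * a l with hsdef
  rw [divD, Finset.mul_sum, Finset.mul_sum, map_sum]
  refine Finset.sum_congr rfl fun l _ => ?_
  have hgl := hg l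
  change _ = algebraMap (MvPolynomial (Fin (n + 1)) D) M (s l) at hgl
  generalize s l = σ at hgl ⊢
  generalize flD n D l = f
  have hH : dM (xI p n l) (algebraMap (MvPolynomial (Fin (n + 1)) D) M (C w * Q)) =
      algebraMap (MvPolynomial (Fin (n + 1)) D) M (C w * pderiv l.succ Q) := by
    rw [kg_der hM, Derivation.leibniz, pderiv_C, smul_zero, add_zero, smul_eq_mul]
  have h1 : dM (xI p n l) (algebraMap (MvPolynomial (Fin (n + 1)) D) M (C w * Q) ^ N *
      (algebraMap (MvPolynomial (Fin (n + 1)) D) M f * g l)) =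
      algebraMap (MvPolynomial (Fin (n + 1)) D) M (pderiv l.succ (f * σ)) := by
    rw [← kg_der hM]
    congr 1
    rw [map_mul _ f σ, ← hgl]
    ring
  rw [Derivation.leibniz, Derivation.leibniz_pow, hH, smul_eq_mul, smul_eq_mul, smul_eq_mul,
    nsmul_eq_mul] at h1
  set A := algebraMap (MvPolynomial (Fin (n + 1)) D) M with hA
  set E := dM (xI p n l) (A f * g l) with hE
  have h2 : A (C w * Q) * ((A f * g l) * ((N : M) * (A (C w * Q) ^ (N - 1) * A (C w * pderiv l.succ Q)))) =
      (N : M) * (A f * A σ * A (C w * pderiv l.succ Q)) := by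
    rcases Nat.eq_zero_or_pos N with h0 | h0
    · subst h0
      simp
    · rw [← hgl]
      obtain ⟨m, rfl⟩ : ∃ m, N = m + 1 := ⟨N - 1, by omega⟩
      rw [Nat.add_sub_cancel, pow_succ]
      ring
  have h3 : A (C w * Q) ^ (N + 1) * E = A (C w * Q) * A (pderiv l.succ (f * σ)) -
      (N : M) * (A f * A σ * A (C w * pderiv l.succ Q)) := by
    rw [← h2, ← h1, pow_succ]
    ring
  rw [h3]
  simp only [map_mul, map_sub, map_natCast]
  ring

/-- The polynomials in `z, t` as polynomials in `t` over `D`.

Proof. `ρ' = aeval (Fin.snoc (fun i => Polynomial.C (z i)) Polynomial.X) ρ`. It is not zero: if it is zero, so is `phiT n z ρ`, but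
`phiT n z` is injective: it is `phiU z` composed with `rename (Fin.castAdd n)` (`phiU_injective`, `rename_injective`). -/
theorem exists_inTD {p : ℕ} (n : ℕ) {D : Type} [CommRing D] [Algebra ℚ D] {z : Fin p → D}
    (hz : Function.Injective (aeval z : MvPolynomial (Fin p) ℚ →ₐ[ℚ] D)) (ρ : MvPolynomial (Fin (p + 1)) ℚ) :
    ∃ ρ' : Polynomial D, inTD n D ρ' = phiT n z ρ ∧ (ρ ≠ 0 → ρ' ≠ 0) := by
  have key : (inTD n D).comp (aeval (Fin.snoc (α := fun _ => Polynomial D)
      (fun i => Polynomial.C (z i)) Polynomial.X) :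
        MvPolynomial (Fin (p + 1)) ℚ →ₐ[ℚ] Polynomial D).toRingHom = (phiT n z).toRingHom := by
    apply MvPolynomial.ringHom_ext
    · intro q
      have h : ((inTD n D).comp (aeval (Fin.snoc (α := fun _ => Polynomial D)
          (fun i => Polynomial.C (z i)) Polynomial.X) :
          MvPolynomial (Fin (p + 1)) ℚ →ₐ[ℚ] Polynomial D).toRingHom).comp C =
          ((phiT n z).toRingHom).comp C := Subsingleton.elim _ _
      exact RingHom.congr_fun h q
    · intro i
      induction i using Fin.lastCases with
      | last =>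
        change inTD n D (aeval _ (X (Fin.last p))) = phiT n z (X (Fin.last p))
        rw [phiT, aeval_X, aeval_X, Fin.snoc_last]
        have h : uS (n := n) z (Fin.castAdd n (Fin.last p)) = X 0 := kg_uS_tI z
        rw [h, inTD]
        simp
      | cast j =>
        change inTD n D (aeval _ (X j.castSucc)) = phiT n z (X j.castSucc)
        rw [phiT, aeval_X, aeval_X, Fin.snoc_castSucc]
        have h : uS (n := n) z (Fin.castAdd n j.castSucc) = C (z j) := by
          unfold uS
          rw [Fin.append_left, Fin.snoc_castSucc]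
        rw [h, inTD]
        simp
  have hk : inTD n D (aeval (Fin.snoc (α := fun _ => Polynomial D)
      (fun i => Polynomial.C (z i)) Polynomial.X) ρ) = phiT n z ρ := RingHom.congr_fun key ρ
  refine ⟨_, hk, fun hρ h0 => hρ ?_⟩
  rw [h0, map_zero] at hk
  have h1 : phiT n z ρ = phiU (n := n) z (rename (Fin.castAdd n) ρ) := by
    rw [phiU, aeval_rename, phiT]
    rfl
  have h2 : phiU (n := n) z (rename (Fin.castAdd n) ρ) = phiU (n := n) z 0 := by
    rw [← h1, ← hk, map_zero]
  have h3 := phiU_injective (n := n) hz h2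
  rw [← map_zero (rename (Fin.castAdd n))] at h3
  exact rename_injective _ (Fin.castAdd_injective _ _) h3

end Pool.Agent.Lib.MP_bbe012_lc.PP
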