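import Pool.Agent.Lib.MP_bbe012_lc.PP.SDefs

/-!
# Stage 2: specialization of reductions
-/

namespace Pool.Agent.Lib.MP_bbe012_lc.PP

open MvPolynomial

private theorem kh_inT {n : ℕ} {D : Type} [CommRing D] (ε : D →+* ℚ) (p : Polynomial D) :
    map ε (inTD n D p) = inT n (p.map ε) := by
  have h : (map ε).comp (inTD n D) = (inT n).comp (Polynomial.mapRingHom ε) := by
    apply Polynomial.ringHom_ext
    · intro a
      show map ε (Polynomial.aeval (X 0 : MvPolynomial (Fin (n + 1)) D) (Polynomial.C a)) =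
        Polynomial.aeval (X 0 : P1 n) ((Polynomial.C a).map ε)
      rw [Polynomial.aeval_C, Polynomial.map_C, Polynomial.aeval_C, algebraMap_eq, map_C,
        algebraMap_eq]
    · show map ε (Polynomial.aeval (X 0 : MvPolynomial (Fin (n + 1)) D) Polynomial.X) =
        Polynomial.aeval (X 0 : P1 n) (Polynomial.X.map ε)
      rw [Polynomial.aeval_X, Polynomial.map_X, Polynomial.aeval_X, map_X]
  exact RingHom.congr_fun h p

private theorem kh_div {n : ℕ} {D : Type} [CommRing D] (ε : D →+* ℚ)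
    (Q : MvPolynomial (Fin (n + 1)) D) (K : ℕ) (g : Fin n → MvPolynomial (Fin (n + 1)) D) :
    map ε (divD Q K g) = divf n (map ε Q) K (fun l => map ε (g l)) := by
  unfold divD divf
  rw [map_sum]
  refine Finset.sum_congr rfl fun l _ => ?_
  have h : map ε (flD n D l) = fl n l := by
    unfold flD fl
    rw [map_sub, map_pow, map_X]
  rw [map_sub, (map ε).map_mul Q, (map ε).map_mul (K : MvPolynomial (Fin (n + 1)) D),
    (map ε).map_mul (flD n D l * g l), map_natCast, ← pderiv_map, ← pderiv_map,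
    (map ε).map_mul (flD n D l), h]

private theorem kh_lift {σ : Type} {R S : Type} [CommRing R] [CommRing S] (φ : R →+* S)
    (h : ∀ s : S, ∃ (M : ℕ) (r : R), M ≠ 0 ∧ φ r = (M : S) * s) (F : MvPolynomial σ S) :
    ∃ (M : ℕ) (G : MvPolynomial σ R), M ≠ 0 ∧ map φ G = (M : MvPolynomial σ S) * F := by
  induction F using MvPolynomial.induction_on with
  | C s =>
    obtain ⟨M, r, hM, hr⟩ := h s
    refine ⟨M, C r, hM, ?_⟩
    rw [map_C, hr, C_mul, map_natCast]
  | add p q hp hq =>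
    obtain ⟨M₁, G₁, hM₁, h₁⟩ := hp
    obtain ⟨M₂, G₂, hM₂, h₂⟩ := hq
    refine ⟨M₁ * M₂, (M₂ : MvPolynomial σ R) * G₁ + (M₁ : MvPolynomial σ R) * G₂,
      mul_ne_zero hM₁ hM₂, ?_⟩
    rw [map_add, map_mul, map_mul, map_natCast, map_natCast, h₁, h₂, Nat.cast_mul]
    ring
  | mul_X p i hp =>
    obtain ⟨M, G, hM, h1⟩ := hp
    refine ⟨M, G * X i, hM, ?_⟩
    rw [map_mul, map_X, h1, mul_assoc]

private theorem kh_liftP {R S : Type} [CommRing R] [CommRing S] (φ : R →+* S)
    (h : ∀ s : S, ∃ (M : ℕ) (r : R), M ≠ 0 ∧ φ r = (M : S) * s) (F : Polynomial S) :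
    ∃ (M : ℕ) (G : Polynomial R), M ≠ 0 ∧ G.map φ = (M : Polynomial S) * F := by
  induction F using Polynomial.induction_on' with
  | add p q hp hq =>
    obtain ⟨M₁, G₁, hM₁, h₁⟩ := hp
    obtain ⟨M₂, G₂, hM₂, h₂⟩ := hq
    refine ⟨M₁ * M₂, (M₂ : Polynomial R) * G₁ + (M₁ : Polynomial R) * G₂,
      mul_ne_zero hM₁ hM₂, ?_⟩
    rw [Polynomial.map_add, Polynomial.map_mul, Polynomial.map_mul, Polynomial.map_natCast,
      Polynomial.map_natCast, h₁, h₂, Nat.cast_mul]
    ring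
  | monomial k s =>
    obtain ⟨M, r, hM, hr⟩ := h s
    refine ⟨M, Polynomial.monomial k r, hM, ?_⟩
    rw [Polynomial.map_monomial, hr, ← Polynomial.C_mul_monomial, map_natCast]

private theorem kh_rat (s : ℚ) : ∃ (M : ℕ) (r : ℤ), M ≠ 0 ∧ Int.castRingHom ℚ r = (M : ℚ) * s :=
  ⟨s.den, s.num, s.den_ne_zero, by rw [eq_intCast, mul_comm, Rat.mul_den_eq_num]⟩

private theorem kh_ev {q : ℕ} (y : Fin q → ℤ) :
    (Int.castRingHom ℚ).comp (eval y) = (evQ y).comp (map (Int.castRingHom ℚ)) := by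
  refine MvPolynomial.ringHom_ext (fun a => ?_) (fun i => ?_)
  · rw [RingHom.comp_apply, RingHom.comp_apply, eval_C, map_C, evQ, eval_C]
  · rw [RingHom.comp_apply, RingHom.comp_apply, eval_X, map_X, evQ, eval_X, eq_intCast]

/-- Specialization of an identity of `family_reduction`.

Proof. Apply `MvPolynomial.map ε` to the identity: `map ε (inTD n D p) = inT n (p.map ε)` (induction on `p`), `map ε (C w) = C (ε w) = inT n (Polynomial.C (ε w))`,
`map ε (flD n D l) = fl n l`, `map ε (divD Q N g) = divf n (map ε Q) N (fun l => map ε (g l))` (`pderiv_map`: `pderiv i (map f p) = map f (pderiv i p)`). Then take `Phi n (map ε Q) _ (N + 1)`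
of both sides: `Phi_inT_mul`, `Phi_shift` (`K + (N + 1 - K) = N + 1`), `Phi_add`, `Phi_sum`, `Phi_divf`. -/
theorem Phi_of_reduction {n : ℕ} {D : Type} [CommRing D] (ε : D →+* ℚ) (Q : MvPolynomial (Fin (n + 1)) D)
    (hQ : atZero n (map ε Q) = 1) {r : ℕ} {w : D} {ρ : Polynomial D} {e : Fin r → MvPolynomial (Fin (n + 1)) D}
    {κ : Fin r → ℕ} {G : MvPolynomial (Fin (n + 1)) D} {K m N : ℕ} {a : Fin r → Polynomial D}
    {g : Fin n → MvPolynomial (Fin (n + 1)) D} (hK : K ≤ N + 1) (hκ : ∀ k, κ k ≤ N + 1)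
    (h : C w ^ (N + 1) * inTD n D ρ ^ m * (G * Q ^ (N + 1 - K)) =
      ∑ k, inTD n D (a k) * (e k * Q ^ (N + 1 - κ k)) + divD Q N g) :
    ((Polynomial.C (ε w) ^ (N + 1) * (ρ.map ε) ^ m : Polynomial ℚ) : PowerSeries ℚ) *
        Phi n (map ε Q) (map ε G) K =
      ∑ k, ((a k).map ε : PowerSeries ℚ) * Phi n (map ε Q) (map ε (e k)) (κ k) := by
  have h1 := congrArg (map ε) h
  rw [map_mul, map_mul, map_pow, map_pow, map_C, kh_inT, map_mul, map_pow, map_add, kh_div,
    map_sum, ← MainB_inT_C n (ε w), ← map_pow (inT n), ← map_pow (inT n), ← map_mul (inT n)] at h1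
  have h2 := congrArg (fun P => Phi n (map ε Q) P (N + 1)) h1
  change Phi n (map ε Q) _ (N + 1) = Phi n (map ε Q) _ (N + 1) at h2
  rw [Phi_add, Phi_divf hQ, add_zero, Phi_sum, Phi_inT_mul] at h2
  have h3 : ∀ (G' : P1 n) (J : ℕ), J ≤ N + 1 →
      Phi n (map ε Q) (G' * (map ε Q) ^ (N + 1 - J)) (N + 1) = Phi n (map ε Q) G' J := by
    intro G' J hJ
    have h4 := Phi_shift hQ G' J (N + 1 - J)
    rwa [Nat.add_sub_of_le hJ] at h4
  rw [h3 _ _ hK] at h2
  rw [h2]
  refine Finset.sum_congr rfl fun k _ => ?_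
  rw [map_mul, map_mul, map_pow, kh_inT, Phi_inT_mul, h3 _ _ (hκ k)]

/-- The derivative of `G / Q ^ K` over `D`. Proof: `derivative_Phi` and `pderiv_map`. -/
theorem derivative_Phi_map {n : ℕ} {D : Type} [CommRing D] (ε : D →+* ℚ) (Q : MvPolynomial (Fin (n + 1)) D)
    (hQ : atZero n (map ε Q) = 1) (G : MvPolynomial (Fin (n + 1)) D) (K : ℕ) :
    PowerSeries.derivative ℚ (Phi n (map ε Q) (map ε G) K) =
      Phi n (map ε Q) (map ε (Q * pderiv 0 G - (K : MvPolynomial (Fin (n + 1)) D) * (G * pderiv 0 Q))) (K + 1) := by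
  rw [derivative_Phi hQ, map_sub, map_mul, map_mul, map_mul, map_natCast, pderiv_map, pderiv_map]

/-- Clearing denominators. Proof: `MvPolynomial.induction_on` twice, or: there are finitely many coefficients (of coefficients) and
`M` is the product of their denominators. -/
theorem exists_lift_mv {q n : ℕ} (F : MvPolynomial (Fin (n + 1)) (MvPolynomial (Fin q) ℚ)) :
    ∃ (M : ℕ) (G : PF q n), M ≠ 0 ∧
      map (map (Int.castRingHom ℚ)) G = C (C (M : ℚ)) * F := by
  obtain ⟨M, G, hM, h⟩ := kh_lift (map (Int.castRingHom ℚ))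
    (kh_lift (σ := Fin q) (Int.castRingHom ℚ) kh_rat) F
  refine ⟨M, G, hM, ?_⟩
  rw [h, map_natCast, map_natCast]

/-- The same for polynomials in one variable. -/
theorem exists_lift_poly {q : ℕ} (F : Polynomial (MvPolynomial (Fin q) ℚ)) :
    ∃ (M : ℕ) (G : Polynomial (MvPolynomial (Fin q) ℤ)), M ≠ 0 ∧
      G.map (map (Int.castRingHom ℚ)) = Polynomial.C (C (M : ℚ)) * F := by
  obtain ⟨M, G, hM, h⟩ := kh_liftP (map (Int.castRingHom ℚ))
    (kh_lift (σ := Fin q) (Int.castRingHom ℚ) kh_rat) F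
  refine ⟨M, G, hM, ?_⟩
  rw [h, map_natCast, map_natCast]

theorem spP_eq {q n : ℕ} (y : Fin q → ℤ) (G : PF q n) :
    spP y G = map (Int.castRingHom ℚ) (map (eval y) G) := by
  exact (map_map _ _ _).symm

/-- Proof: `evQ y` composed with `map (Int.castRingHom ℚ)` is `Int.castRingHom ℚ` composed with `eval y` (`MvPolynomial.ringHom_ext`), `map_map`. -/
theorem spP_eq' {q n : ℕ} (y : Fin q → ℤ) (G : PF q n) :
    spP y G = map (evQ y) (map (map (Int.castRingHom ℚ)) G) := by
  rw [map_map, ← kh_ev]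
  rfl

theorem spT_eq' {q : ℕ} (y : Fin q → ℤ) (T : Polynomial (MvPolynomial (Fin q) ℤ)) :
    (spT y T).map (Int.castRingHom ℚ) = (T.map (map (Int.castRingHom ℚ))).map (evQ y) := by
  show (T.map (eval y)).map (Int.castRingHom ℚ) = _
  rw [Polynomial.map_map, Polynomial.map_map, kh_ev]

/-- Proof: `atZero n (spP y Q) = map (..) (atZD n _ Q)` (`MvPolynomial.ringHom_ext`). -/
theorem atZero_spP {q n : ℕ} {Q : PF q n} (h : atZD n (MvPolynomial (Fin q) ℤ) Q = 1) (y : Fin q → ℤ) :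
    atZero n (spP y Q) = 1 := by
  have h1 : (atZero n).toRingHom.comp (spP y) =
      (map ((Int.castRingHom ℚ).comp (eval y))).comp
        (atZD n (MvPolynomial (Fin q) ℤ)).toRingHom := by
    refine MvPolynomial.ringHom_ext (fun a => ?_) (fun i => ?_)
    · show atZero n (map _ (C a)) = map _ (atZD n (MvPolynomial (Fin q) ℤ) (C a))
      rw [map_C]
      show aeval _ (C _) = map _ (aeval _ (C a))
      rw [aeval_C, aeval_C, algebraMap_eq, algebraMap_eq, map_C]
    · show atZero n (map _ (X i)) = map _ (atZD n (MvPolynomial (Fin q) ℤ) (X i))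
      rw [map_X]
      show aeval _ (X i) = map _ (aeval _ (X i))
      rw [aeval_X, aeval_X]
      refine Fin.cases ?_ (fun l => ?_) i
      · show (0 : MvPolynomial (Fin n) ℚ) = map _ 0
        rw [map_zero]
      · show (X l : MvPolynomial (Fin n) ℚ) = map _ (X l)
        rw [map_X]
  have h2 := RingHom.congr_fun h1 Q
  change atZero n (spP y Q) = map _ (atZD n (MvPolynomial (Fin q) ℤ) Q) at h2
  rw [h2, h, map_one]

end Pool.Agent.Lib.MP_bbe012_lc.PP
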