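import Pool.Agent.Lib.MP_bbe012_lc.PP.Base

/-!
# Bounded order of vanishing of combinations of bounded degree
-/

namespace Pool.Agent.Lib.MP_bbe012_lc.PP

open Polynomial

/-- Non zero combinations `∑ a_i Y_i` with polynomials `a_i` of degree at most `c` have bounded order.

Proof. Let `E : Submodule ℚ (Fin m → ℚ[X])` be the finite dimensional space of the `a` with
`natDegree (a i) ≤ c` (for instance `Submodule.pi Set.univ fun _ => Polynomial.degreeLE ℚ c`, or use the
parametrisation `b : Fin m → Fin (c+1) → ℚ`, `a i = ∑ j, C (b i j) * X ^ j`), and `F k ≤ E` the subspace of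
those `a` for which the coefficients of index `< k` of `∑ a_i Y_i` vanish. `F` is antitone and its
intersection is `0` by `hY`. By finite dimensionality (`IsArtinian.monotone_stabilizes`, or a minimal value
of `finrank (F k)`: if `F k ≠ ⊥` choose `a ∈ F k`, `a ≠ 0`; some coefficient of `∑ a_i Y_i` does not vanish, so
`F k'` is strictly smaller for some `k'`) some `F c'` is `0`. Use `PowerSeries.X_pow_dvd_iff`. -/
theorem order_bound {m : ℕ} (Y : Fin m → PowerSeries ℚ) (hY : Indep Y) (c : ℕ) :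
    ∃ c' : ℕ, ∀ a : Fin m → ℚ[X], a ≠ 0 → (∀ i, (a i).natDegree ≤ c) →
      ¬ (PowerSeries.X : PowerSeries ℚ) ^ c' ∣ ∑ i, (a i : PowerSeries ℚ) * Y i := by
  classical
  have hfin : Module.Finite ℚ (Polynomial.degreeLT ℚ (c + 1)) :=
    Module.Finite.equiv (Polynomial.degreeLTEquiv ℚ (c + 1)).symm
  let F : ℕ → Submodule ℚ (Fin m → Polynomial.degreeLT ℚ (c + 1)) := fun k =>
    { carrier := {a | (PowerSeries.X : PowerSeries ℚ) ^ k ∣
        ∑ i, (((a i : Polynomial.degreeLT ℚ (c + 1)) : ℚ[X]) : PowerSeries ℚ) * Y i}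
      add_mem' := by
        intro a b ha hb
        have h : ∑ i, ((((a + b) i : Polynomial.degreeLT ℚ (c + 1)) : ℚ[X]) : PowerSeries ℚ) * Y i
            = ∑ i, (((a i : Polynomial.degreeLT ℚ (c + 1)) : ℚ[X]) : PowerSeries ℚ) * Y i +
              ∑ i, (((b i : Polynomial.degreeLT ℚ (c + 1)) : ℚ[X]) : PowerSeries ℚ) * Y i := by
          rw [← Finset.sum_add_distrib]
          refine Finset.sum_congr rfl fun i _ => ?_
          rw [Pi.add_apply, Submodule.coe_add, Polynomial.coe_add, add_mul]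
        rw [Set.mem_setOf_eq, h]
        exact dvd_add ha hb
      zero_mem' := by
        rw [Set.mem_setOf_eq]
        have h : ∑ i, ((((0 : Fin m → Polynomial.degreeLT ℚ (c + 1)) i :
            Polynomial.degreeLT ℚ (c + 1)) : ℚ[X]) : PowerSeries ℚ) * Y i = 0 := by
          refine Finset.sum_eq_zero fun i _ => ?_
          rw [Pi.zero_apply, Submodule.coe_zero, Polynomial.coe_zero, zero_mul]
        rw [h]
        exact dvd_zero _
      smul_mem' := by
        intro r a ha
        have h : ∑ i, ((((r • a) i : Polynomial.degreeLT ℚ (c + 1)) : ℚ[X]) : PowerSeries ℚ) * Y i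
            = PowerSeries.C r *
              ∑ i, (((a i : Polynomial.degreeLT ℚ (c + 1)) : ℚ[X]) : PowerSeries ℚ) * Y i := by
          rw [Finset.mul_sum]
          refine Finset.sum_congr rfl fun i _ => ?_
          rw [Pi.smul_apply, Submodule.coe_smul, Polynomial.smul_eq_C_mul, Polynomial.coe_mul,
            Polynomial.coe_C, mul_assoc]
        rw [Set.mem_setOf_eq, h]
        exact Dvd.dvd.mul_left ha _ }
  have hF : ∀ k (a : Fin m → Polynomial.degreeLT ℚ (c + 1)), a ∈ F k ↔
      (PowerSeries.X : PowerSeries ℚ) ^ k ∣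
        ∑ i, (((a i : Polynomial.degreeLT ℚ (c + 1)) : ℚ[X]) : PowerSeries ℚ) * Y i :=
    fun k a => Iff.rfl
  have hanti : ∀ k l, k ≤ l → F l ≤ F k := by
    intro k l hkl a ha
    rw [hF] at ha ⊢
    exact (pow_dvd_pow _ hkl).trans ha
  let G : ℕ →o (Submodule ℚ (Fin m → Polynomial.degreeLT ℚ (c + 1)))ᵒᵈ :=
    ⟨fun k => OrderDual.toDual (F k), fun k l hkl => hanti k l hkl⟩
  obtain ⟨n, hn⟩ := IsArtinian.monotone_stabilizes G
  refine ⟨n, ?_⟩
  intro a ha hdeg hdvd
  let b : Fin m → Polynomial.degreeLT ℚ (c + 1) := fun i =>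
    ⟨a i, Polynomial.mem_degreeLT.2 (lt_of_le_of_lt Polynomial.degree_le_natDegree
      (by exact_mod_cast Nat.lt_succ_of_le (hdeg i)))⟩
  have hb : b ∈ F n := (hF n b).2 hdvd
  have hall : ∀ k, n ≤ k → b ∈ F k := by
    intro k hk
    have h1 : F n = F k := hn k hk
    rw [← h1]
    exact hb
  apply ha
  apply hY
  ext k
  have h2 := (hF (n + k + 1) b).1 (hall _ (by omega))
  rw [PowerSeries.X_pow_dvd_iff] at h2
  rw [map_zero]
  exact h2 k (by omega)

end Pool.Agent.Lib.MP_bbe012_lc.PP
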