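import Pool.Agent.Lib.MP_bbe012_lc.PP.Base

/-!
# Remainders and degrees of the iterated derivatives
-/

namespace Pool.Agent.Lib.MP_bbe012_lc.PP

open Polynomial

private theorem rem_aux_cast {m : ℕ} (T : ℚ[X]) (B : Fin m → Fin m → ℚ[X]) (v : Fin m → ℚ[X])
    (s : ℕ) (i : Fin m) :
    ((s : PowerSeries ℚ) + 1) * (iter T B v (s + 1) i : PowerSeries ℚ) +
        (s : PowerSeries ℚ) * (((derivative T : ℚ[X]) : PowerSeries ℚ) *
          (iter T B v s i : PowerSeries ℚ)) =
      (T : PowerSeries ℚ) * PowerSeries.derivative ℚ (iter T B v s i : PowerSeries ℚ) -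
        ∑ j, (B i j : PowerSeries ℚ) * (iter T B v s j : PowerSeries ℚ) := by
  have h := congrArg (Polynomial.coeToPowerSeries.ringHom : ℚ[X] →+* PowerSeries ℚ)
    (iter_succ T B v s i)
  rw [map_add, map_mul, map_mul, map_mul, map_sub, map_mul, map_sum, map_add, map_one,
    map_natCast] at h
  simp only [map_mul, Polynomial.coeToPowerSeries.ringHom_apply] at h
  rw [PowerSeries.derivative_coe]
  exact h

private theorem rem_aux_deriv {f : PowerSeries ℚ} {k : ℕ}
    (h : (PowerSeries.X : PowerSeries ℚ) ^ k ∣ f) :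
    (PowerSeries.X : PowerSeries ℚ) ^ (k - 1) ∣ PowerSeries.derivative ℚ f := by
  rw [PowerSeries.X_pow_dvd_iff] at h ⊢
  intro m hm
  rw [PowerSeries.coeff_derivative, h (m + 1) (by omega), zero_mul]

/-- The remainders of the iterated derivatives.

Proof. Put `R s i = (iter s 0 : ℚ⟦X⟧) * Y i - iter s i`. From `iter_succ` (cast to power series; for the index
`0` the sum over `j` vanishes by `hB`), `hode` and `PowerSeries.derivative_coe`, `Derivation.leibniz`:
`(s + 1) * R (s + 1) i + s * (T' * R s i) = T * (R s i)' - ∑ j, B i j * R s j`. Induction on `s`: if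
`X ^ (K - s) ∣ R s j` for all `j` then `X ^ (K - s - 1)` divides `(R s i)'` (`PowerSeries.X_pow_dvd_iff`,
`coeff_derivative`), hence it divides `(s + 1) * R (s + 1) i`, and `s + 1` is a unit (`PowerSeries.C`). -/
theorem rem_dvd {r : ℕ} (T : ℚ[X]) (B : Fin (r + 1) → Fin (r + 1) → ℚ[X])
    (Y : Fin (r + 1) → PowerSeries ℚ) (hB : ∀ j, B 0 j = 0)
    (hode : ∀ i, (T : PowerSeries ℚ) * PowerSeries.derivative ℚ (Y i) =
      ∑ j, (B i j : PowerSeries ℚ) * Y j)
    (v : Fin (r + 1) → ℚ[X]) (K : ℕ)
    (hv : ∀ i, (PowerSeries.X : PowerSeries ℚ) ^ K ∣ (v 0 : PowerSeries ℚ) * Y i - (v i : PowerSeries ℚ))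
    (s : ℕ) (i : Fin (r + 1)) :
    (PowerSeries.X : PowerSeries ℚ) ^ (K - s) ∣
      (iter T B v s 0 : PowerSeries ℚ) * Y i - (iter T B v s i : PowerSeries ℚ) := by
  have key : ∀ (s : ℕ) (i : Fin (r + 1)), ((s : PowerSeries ℚ) + 1) *
      ((iter T B v (s + 1) 0 : PowerSeries ℚ) * Y i - (iter T B v (s + 1) i : PowerSeries ℚ)) =
      (T : PowerSeries ℚ) * PowerSeries.derivative ℚ
        ((iter T B v s 0 : PowerSeries ℚ) * Y i - (iter T B v s i : PowerSeries ℚ)) -
      (∑ j, (B i j : PowerSeries ℚ) *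
        ((iter T B v s 0 : PowerSeries ℚ) * Y j - (iter T B v s j : PowerSeries ℚ))) -
      (s : PowerSeries ℚ) * ((derivative T : ℚ[X]) : PowerSeries ℚ) *
        ((iter T B v s 0 : PowerSeries ℚ) * Y i - (iter T B v s i : PowerSeries ℚ)) := by
    intro s i
    have h0 := rem_aux_cast T B v s 0
    have hi := rem_aux_cast T B v s i
    have hz : ∑ j, (B 0 j : PowerSeries ℚ) * (iter T B v s j : PowerSeries ℚ) = 0 := by
      refine Finset.sum_eq_zero fun j _ => ?_
      rw [hB j, Polynomial.coe_zero, zero_mul]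
    rw [hz, sub_zero] at h0
    have hd : PowerSeries.derivative ℚ
        ((iter T B v s 0 : PowerSeries ℚ) * Y i - (iter T B v s i : PowerSeries ℚ)) =
        (iter T B v s 0 : PowerSeries ℚ) * PowerSeries.derivative ℚ (Y i) +
          Y i * PowerSeries.derivative ℚ (iter T B v s 0 : PowerSeries ℚ) -
          PowerSeries.derivative ℚ (iter T B v s i : PowerSeries ℚ) := by
      rw [map_sub, Derivation.leibniz, smul_eq_mul, smul_eq_mul]
    have hs : ∑ j, (B i j : PowerSeries ℚ) *
        ((iter T B v s 0 : PowerSeries ℚ) * Y j - (iter T B v s j : PowerSeries ℚ)) =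
        (iter T B v s 0 : PowerSeries ℚ) * ((T : PowerSeries ℚ) *
          PowerSeries.derivative ℚ (Y i)) -
          ∑ j, (B i j : PowerSeries ℚ) * (iter T B v s j : PowerSeries ℚ) := by
      rw [hode i, Finset.mul_sum, ← Finset.sum_sub_distrib]
      exact Finset.sum_congr rfl fun j _ => by ring
    rw [hd, hs]
    linear_combination Y i * h0 - hi
  induction s generalizing i with
  | zero =>
    rw [Nat.sub_zero, iter_zero]
    exact hv i
  | succ s ih =>
    have h1 : (PowerSeries.X : PowerSeries ℚ) ^ (K - (s + 1)) ∣ ((s : PowerSeries ℚ) + 1) *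
        ((iter T B v (s + 1) 0 : PowerSeries ℚ) * Y i -
          (iter T B v (s + 1) i : PowerSeries ℚ)) := by
      rw [key s i]
      have hle : ∀ j, (PowerSeries.X : PowerSeries ℚ) ^ (K - (s + 1)) ∣
          (iter T B v s 0 : PowerSeries ℚ) * Y j - (iter T B v s j : PowerSeries ℚ) :=
        fun j => (pow_dvd_pow _ (by omega)).trans (ih j)
      refine dvd_sub (dvd_sub ?_ ?_) ?_
      · refine Dvd.dvd.mul_left ?_ _
        have h2 := rem_aux_deriv (ih i)
        rw [Nat.sub_sub] at h2
        exact h2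
      · exact Finset.dvd_sum fun j _ => (hle j).mul_left _
      · exact (hle i).mul_left _
    have h2 : IsUnit ((s : PowerSeries ℚ) + 1) := by
      have h3 : ((s : PowerSeries ℚ) + 1) = PowerSeries.C ((s : ℚ) + 1) := by
        rw [map_add, map_one, map_natCast]
      rw [h3]
      refine IsUnit.map PowerSeries.C (IsUnit.mk0 _ ?_)
      positivity
    exact (IsUnit.dvd_mul_left h2).1 h1

/-- Degrees. Proof: induction on `s` with `Polynomial.natDegree_sub_le`, `natDegree_sum_le_of_forall_le`,
`natDegree_mul_le`, `natDegree_derivative_le`, `natDegree_C_mul_le`. -/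
theorem natDegree_iter {m : ℕ} (T : ℚ[X]) (B : Fin m → Fin m → ℚ[X]) (v : Fin m → ℚ[X]) (e D : ℕ)
    (hT : T.natDegree ≤ e) (hB : ∀ i j, (B i j).natDegree ≤ e) (hv : ∀ i, (v i).natDegree ≤ D)
    (s : ℕ) (i : Fin m) : (iter T B v s i).natDegree ≤ D + s * e := by
  induction s generalizing i with
  | zero =>
    rw [iter_zero, Nat.zero_mul, Nat.add_zero]
    exact hv i
  | succ s ih =>
    have h0 : iter T B v (s + 1) i = C ((s + 1 : ℚ)⁻¹) *
      (T * derivative (iter T B v s i) - ∑ j, B i j * iter T B v s j -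
        (s : ℚ[X]) * (derivative T * iter T B v s i)) := rfl
    have hse : D + (s + 1) * e = e + (D + s * e) := by ring
    rw [h0, hse]
    refine (natDegree_C_mul_le _ _).trans ?_
    refine (natDegree_sub_le _ _).trans (max_le ((natDegree_sub_le _ _).trans (max_le ?_ ?_)) ?_)
    · refine natDegree_mul_le.trans (Nat.add_le_add hT ?_)
      exact ((natDegree_derivative_le _).trans (Nat.sub_le _ _)).trans (ih i)
    · refine natDegree_sum_le_of_forall_le _ _ fun j _ => ?_
      exact natDegree_mul_le.trans (Nat.add_le_add (hB i j) (ih j))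
    · refine natDegree_mul_le.trans ?_
      rw [natDegree_natCast, zero_add]
      refine natDegree_mul_le.trans (Nat.add_le_add ?_ (ih i))
      exact ((natDegree_derivative_le _).trans (Nat.sub_le _ _)).trans hT

/-- The first component: `T ^ s * q^{(s)} / s!`.

Proof: induction on `s`; in `step` the sum vanishes by `hB`; `derivative (hasseDeriv s q) = (s+1) * hasseDeriv (s+1) q`
(check by coefficients: `Polynomial.hasseDeriv_coeff`, `Polynomial.coeff_derivative`, `Nat.choose` identity
`Nat.add_one_mul_choose_eq`/`Nat.succ_mul_choose_eq`, or `Polynomial.hasseDeriv_comp` with `hasseDeriv_one`). -/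
theorem iter_zero_comp {r : ℕ} (T q : ℚ[X]) (B : Fin (r + 1) → Fin (r + 1) → ℚ[X])
    (hB : ∀ j, B 0 j = 0) (v : Fin (r + 1) → ℚ[X]) (hv : v 0 = q) (s : ℕ) :
    iter T B v s 0 = T ^ s * hasseDeriv s q := by
  induction s with
  | zero =>
    rw [iter_zero, hv, pow_zero, one_mul, hasseDeriv_zero']
  | succ s ih =>
    have h0 := iter_succ T B v s 0
    have hz : ∑ j, B 0 j * iter T B v s j = 0 :=
      Finset.sum_eq_zero fun j _ => by rw [hB j, zero_mul]
    rw [hz, sub_zero, ih] at h0
    have h1 : derivative (hasseDeriv s q) = ((s : ℚ[X]) + 1) * hasseDeriv (s + 1) q := by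
      have h2 := congrArg (fun f => f q) (hasseDeriv_comp (R := ℚ) 1 s)
      simp only [LinearMap.comp_apply, hasseDeriv_one, LinearMap.smul_apply,
        Nat.choose_one_right] at h2
      rw [nsmul_eq_mul] at h2
      rw [h2, Nat.add_comm 1 s]
      push_cast
      ring
    have h3 : T * derivative (T ^ s * hasseDeriv s q) =
        (s : ℚ[X]) * (derivative T * (T ^ s * hasseDeriv s q)) +
          ((s : ℚ[X]) + 1) * (T ^ (s + 1) * hasseDeriv (s + 1) q) := by
      rw [derivative_mul, h1, derivative_pow]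
      cases s with
      | zero => simp
      | succ s =>
        simp only [Nat.add_sub_cancel, Nat.cast_add, Nat.cast_one, map_add, map_natCast, map_one]
        ring
    have hne : ((s : ℚ[X]) + 1) ≠ 0 := by
      have h4 : ((s : ℚ[X]) + 1) = C (s + 1 : ℚ) := by simp
      rw [h4, Ne, C_eq_zero]
      positivity
    refine mul_left_cancel₀ hne ?_
    rw [h3] at h0
    linear_combination h0

end Pool.Agent.Lib.MP_bbe012_lc.PP
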