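import Pool.Agent.Lib.MP_bbe012_lc.PP.SDefs
import Pool.Agent.Lib.MP_bbe012_lc.PP.Tame

/-!
# Stage 2: growth and denominators with constants depending polynomially on the coefficients
-/

namespace Pool.Agent.Lib.MP_bbe012_lc.PP

open MvPolynomial

/-- Power series in `t` with integral polynomial coefficients of controlled degrees and sizes (compare `Tame`). -/
structure TameZ (n a A : ℕ) (f : PowerSeries (MvPolynomial (Fin n) ℚ)) : Prop where
  one_le : 1 ≤ A
  deg : ∀ k i, (PowerSeries.coeff k f).degreeOf i ≤ a * (k + 1)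
  int : ∀ k m, ∃ z : ℤ, coeff m (PowerSeries.coeff k f) = z
  l1 : ∀ k, l1M (PowerSeries.coeff k f) ≤ (A : ℚ) ^ (k + 1)

theorem TameZ.mono {n a A b B : ℕ} {f : PowerSeries (MvPolynomial (Fin n) ℚ)} (hf : TameZ n a A f)
    (hab : a ≤ b) (hAB : A ≤ B) : TameZ n b B f := by
  refine ⟨hf.one_le.trans hAB, fun k i => (hf.deg k i).trans (Nat.mul_le_mul_right _ hab), hf.int,
    fun k => (hf.l1 k).trans ?_⟩
  exact pow_le_pow_left₀ (Nat.cast_nonneg _) (by exact_mod_cast hAB) _

private theorem sa_one (n : ℕ) : TameZ n 0 1 (1 : PowerSeries (MvPolynomial (Fin n) ℚ)) := by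
  classical
  refine ⟨le_rfl, fun k i => ?_, fun k m => ?_, fun k => ?_⟩
  · rw [PowerSeries.coeff_one]
    split_ifs
    · rw [← C_1, degreeOf_C]
      exact Nat.zero_le _
    · rw [degreeOf_zero]
      exact Nat.zero_le _
  · rw [PowerSeries.coeff_one]
    split_ifs
    · rw [coeff_one]
      split_ifs
      · exact ⟨1, by simp⟩
      · exact ⟨0, by simp⟩
    · exact ⟨0, by simp⟩
  · rw [PowerSeries.coeff_one, Nat.cast_one, one_pow]
    split_ifs
    · have h0 : l1M (C 1 : MvPolynomial (Fin n) ℚ) ≤ |1| := by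
        rw [C_apply]
        exact Tame_l1M_monomial _ _
      rw [C_1, abs_one] at h0
      exact h0
    · rw [Tame_l1M_zero]
      exact zero_le_one

/-- Proof: as `Tame.mul`. -/
theorem TameZ.mul {n a A b B : ℕ} {f g : PowerSeries (MvPolynomial (Fin n) ℚ)} (hf : TameZ n a A f)
    (hg : TameZ n b B g) : TameZ n (a + b) (2 * A * B) (f * g) := by
  have hA' : (1 : ℚ) ≤ A := by exact_mod_cast hf.one_le
  have hB' : (1 : ℚ) ≤ B := by exact_mod_cast hg.one_le
  refine ⟨?_, fun k i => ?_, fun k m => ?_, fun k => ?_⟩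
  · have := Nat.mul_pos hf.one_le hg.one_le
    rw [mul_assoc]
    omega
  · rw [PowerSeries.coeff_mul]
    refine (degreeOf_sum_le _ _ _).trans (Finset.sup_le fun x hx => ?_)
    have hx' := Finset.HasAntidiagonal.mem_antidiagonal.1 hx
    refine (degreeOf_mul_le _ _ _).trans ((add_le_add (hf.deg x.1 i) (hg.deg x.2 i)).trans ?_)
    rw [add_mul]
    exact add_le_add (Nat.mul_le_mul_left _ (by omega)) (Nat.mul_le_mul_left _ (by omega))
  · rw [Tame_int, PowerSeries.coeff_mul, coeff_sum]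
    refine Subring.sum_mem _ fun x _ => ?_
    rw [coeff_mul]
    refine Subring.sum_mem _ fun y _ => ?_
    exact Subring.mul_mem _ (Tame_int.1 (hf.int x.1 y.1)) (Tame_int.1 (hg.int x.2 y.2))
  · rw [PowerSeries.coeff_mul]
    refine (Tame_l1M_sum _ _).trans ?_
    have h1 : ∀ x ∈ Finset.HasAntidiagonal.antidiagonal k,
        l1M (PowerSeries.coeff x.1 f * PowerSeries.coeff x.2 g) ≤ ((A : ℚ) * B) ^ (k + 1) := by
      intro x hx
      have hx' := Finset.HasAntidiagonal.mem_antidiagonal.1 hx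
      refine (l1M_mul_le _ _).trans ?_
      rw [mul_pow]
      refine mul_le_mul ((hf.l1 x.1).trans (pow_le_pow_right₀ hA' (by omega)))
        ((hg.l1 x.2).trans (pow_le_pow_right₀ hB' (by omega))) (Tame_l1M_nonneg _) (by positivity)
    refine (Finset.sum_le_sum h1).trans ?_
    rw [Finset.sum_const, Finset.Nat.card_antidiagonal, nsmul_eq_mul]
    have e : ((2 * A * B : ℕ) : ℚ) ^ (k + 1) = 2 ^ (k + 1) * ((A : ℚ) * B) ^ (k + 1) := by
      push_cast
      rw [mul_assoc, mul_pow]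
    rw [e]
    refine mul_le_mul_of_nonneg_right ?_ (by positivity)
    have h2 : k + 1 ≤ 2 ^ (k + 1) := Nat.lt_two_pow_self.le
    exact_mod_cast h2

theorem TameZ.pow {n a A : ℕ} {f : PowerSeries (MvPolynomial (Fin n) ℚ)} (hf : TameZ n a A f) (k : ℕ) :
    TameZ n (k * a) ((2 * A) ^ k) (f ^ k) := by
  induction k with
  | zero =>
    rw [pow_zero, pow_zero, zero_mul]
    exact sa_one n
  | succ k ih =>
    have h := ih.mul hf
    have e1 : k * a + a = (k + 1) * a := by ring
    have e2 : 2 * (2 * A) ^ k * A = (2 * A) ^ (k + 1) := by ring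
    rw [e1, e2] at h
    rw [pow_succ f k]
    exact h

private theorem sa_ser {n : ℕ} (m : Fin (n + 1) →₀ ℕ) (a : ℚ) :
    ser n (monomial m a) =
      PowerSeries.X ^ (m 0) * PowerSeries.C (monomial (Finsupp.tail m) a) := by
  have h1 : ser n (monomial m a) = PowerSeries.C (C a) *
      ∏ i, (Fin.cases PowerSeries.X (fun l => PowerSeries.C (X l)) i :
        PowerSeries (MvPolynomial (Fin n) ℚ)) ^ (m i) := by
    rw [ser, coe_eval₂Hom, eval₂_monomial, Finsupp.prod_fintype]
    · rfl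
    · intro i
      exact pow_zero _
  have h2 : (monomial (Finsupp.tail m) a : MvPolynomial (Fin n) ℚ) =
      C a * ∏ l, X l ^ (m l.succ) := by
    rw [monomial_eq, Finsupp.prod_fintype]
    · rfl
    · intro i
      exact pow_zero _
  rw [h1, h2, Fin.prod_univ_succ, map_mul, map_prod]
  have h3 : ∀ l : Fin n, (Fin.cases PowerSeries.X (fun l => PowerSeries.C (X l)) l.succ :
        PowerSeries (MvPolynomial (Fin n) ℚ)) ^ (m l.succ) =
      PowerSeries.C (X l ^ (m l.succ)) := by
    intro l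
    rw [map_pow]
    rfl
  rw [Finset.prod_congr rfl fun l _ => h3 l]
  show _ * (PowerSeries.X ^ (m 0) * _) = _
  ring

private theorem sa_coeff {n : ℕ} (m : Fin (n + 1) →₀ ℕ) (a : ℚ) (k : ℕ) :
    PowerSeries.coeff k (ser n (monomial m a)) =
      if k = m 0 then monomial (Finsupp.tail m) a else 0 := by
  rw [sa_ser, PowerSeries.coeff_mul_C, PowerSeries.coeff_X_pow]
  split_ifs
  · rw [one_mul]
  · rw [zero_mul]

/-- Proof: `ser n G = ∑ m ∈ support, X ^ (m 0) * C (monomial in x)`: the coefficient of `t ^ k` is the sum of the terms with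
`m 0 = k`; `coeff u (coeff k (ser n G)) = coeff (cons k u) G`. -/
theorem tameZ_ser {n : ℕ} (G : MvPolynomial (Fin (n + 1)) ℤ) (a L : ℕ) (hL : 1 ≤ L)
    (ha : ∀ i, G.degreeOf i ≤ a) (h : l1I G ≤ L) : TameZ n a L (ser n (map (Int.castRingHom ℚ) G)) := by
  classical
  have hG : map (Int.castRingHom ℚ) G = ∑ m ∈ G.support, monomial m ((coeff m G : ℤ) : ℚ) := by
    conv_lhs => rw [G.as_sum]
    rw [map_sum]
    refine Finset.sum_congr rfl fun m _ => ?_
    rw [map_monomial]
    rfl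
  have hco : ∀ k, PowerSeries.coeff k (ser n (map (Int.castRingHom ℚ) G)) =
      ∑ m ∈ G.support, if k = m 0 then monomial (Finsupp.tail m) ((coeff m G : ℤ) : ℚ) else 0 := by
    intro k
    rw [hG, map_sum, map_sum]
    exact Finset.sum_congr rfl fun m _ => sa_coeff m _ k
  have hL' : (1 : ℚ) ≤ L := by exact_mod_cast hL
  refine ⟨hL, fun k i => ?_, fun k u => ?_, fun k => ?_⟩
  · rw [hco]
    refine (degreeOf_sum_le _ _ _).trans (Finset.sup_le fun m hm => ?_)
    have h1 : m i.succ ≤ a := (monomial_le_degreeOf i.succ hm).trans (ha i.succ)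
    have h2 : a ≤ a * (k + 1) := Nat.le_mul_of_pos_right a (Nat.succ_pos k)
    split_ifs
    · refine (degreeOf_le_iff.2 fun u hu => ?_).trans h2
      rw [Finset.mem_singleton.1 (support_monomial_subset hu)]
      exact h1
    · rw [degreeOf_zero]
      exact Nat.zero_le _
  · rw [hco, Tame_int, coeff_sum]
    refine Subring.sum_mem _ fun m _ => ?_
    split_ifs
    · rw [coeff_monomial]
      split_ifs
      · exact Tame_int.1 ⟨_, rfl⟩
      · exact Subring.zero_mem _
    · rw [coeff_zero]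
      exact Subring.zero_mem _
  · rw [hco]
    refine (Tame_l1M_sum _ _).trans ?_
    have h1 : ∀ m ∈ G.support,
        l1M (if k = m 0 then monomial (Finsupp.tail m) ((coeff m G : ℤ) : ℚ) else 0) ≤
          (((coeff m G).natAbs : ℕ) : ℚ) := by
      intro m _
      split_ifs
      · refine (Tame_l1M_monomial _ _).trans (le_of_eq ?_)
        rw [Nat.cast_natAbs, Int.cast_abs]
      · rw [Tame_l1M_zero]
        exact Nat.cast_nonneg _
    refine (Finset.sum_le_sum h1).trans ?_
    rw [← Nat.cast_sum]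
    have h2 : ((l1I G : ℕ) : ℚ) ≤ L := by exact_mod_cast h
    refine (show ((∑ m ∈ G.support, (coeff m G).natAbs : ℕ) : ℚ) ≤ L from h2).trans ?_
    calc (L : ℚ) = (L : ℚ) ^ 1 := (pow_one _).symm
      _ ≤ (L : ℚ) ^ (k + 1) := pow_le_pow_right₀ hL' (by omega)

/-- Proof: as `tame_sinv`. -/
theorem tameZ_sinv {n a A : ℕ} {Q : P1 n} (hQ : atZero n Q = 1) (h : TameZ n a A (ser n Q)) :
    TameZ n (2 * a) (2 * A ^ 2) (sinv n Q) := by
  classical
  have hA' : (1 : ℚ) ≤ A := by exact_mod_cast h.one_le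
  have hA1 := h.one_le
  have h0 : PowerSeries.coeff 0 (ser n Q) = 1 := by
    rw [PowerSeries.coeff_zero_eq_constantCoeff_apply, constantCoeff_ser, hQ]
  have hs0 : PowerSeries.coeff 0 (sinv n Q) = 1 := by
    have h1 := congrArg (PowerSeries.coeff 0) (ser_mul_sinv hQ)
    rw [PowerSeries.coeff_mul, Finset.HasAntidiagonal.antidiagonal_zero, Finset.sum_singleton, h0, one_mul,
      PowerSeries.coeff_one, if_pos rfl] at h1
    exact h1
  have hrec : ∀ K, PowerSeries.coeff (K + 1) (sinv n Q) = - ∑ x ∈ Finset.HasAntidiagonal.antidiagonal K,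
      PowerSeries.coeff (x.1 + 1) (ser n Q) * PowerSeries.coeff x.2 (sinv n Q) := by
    intro K
    have h1 := congrArg (PowerSeries.coeff (K + 1)) (ser_mul_sinv hQ)
    rw [PowerSeries.coeff_mul, Finset.Nat.sum_antidiagonal_succ, h0, one_mul, PowerSeries.coeff_one,
      if_neg (Nat.succ_ne_zero K)] at h1
    linear_combination h1
  have key : ∀ k, (∀ i, (PowerSeries.coeff k (sinv n Q)).degreeOf i ≤ 2 * a * k) ∧
      (∀ m, coeff m (PowerSeries.coeff k (sinv n Q)) ∈ (Int.castRingHom ℚ).range) ∧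
      l1M (PowerSeries.coeff k (sinv n Q)) ≤ (2 * (A : ℚ) ^ 2) ^ k := by
    intro k
    induction k using Nat.strong_induction_on with
    | _ k ih =>
      rcases k with _ | K
      · rw [hs0]
        refine ⟨fun i => ?_, fun m => ?_, ?_⟩
        · rw [← C_1, degreeOf_C]
          exact Nat.zero_le _
        · rw [coeff_one]
          split_ifs
          · exact Subring.one_mem _
          · exact Subring.zero_mem _
        · rw [pow_zero]
          have h0 : l1M (C 1 : MvPolynomial (Fin n) ℚ) ≤ |1| := by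
            rw [C_apply]
            exact Tame_l1M_monomial _ _
          rw [C_1, abs_one] at h0
          exact h0
      · rw [hrec K]
        refine ⟨fun i => ?_, fun m => ?_, ?_⟩
        · rw [degreeOf_neg]
          refine (degreeOf_sum_le _ _ _).trans (Finset.sup_le fun x hx => ?_)
          have hx' := Finset.HasAntidiagonal.mem_antidiagonal.1 hx
          refine (degreeOf_mul_le _ _ _).trans
            ((add_le_add (h.deg (x.1 + 1) i) ((ih x.2 (by omega)).1 i)).trans ?_)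
          have h1 : a * (x.1 + 1 + 1) ≤ a * (2 * (x.1 + 1)) := Nat.mul_le_mul_left _ (by omega)
          have h2 : 2 * a * (K + 1) = a * (2 * (x.1 + 1)) + 2 * a * x.2 := by
            rw [← hx']
            ring
          omega
        · rw [coeff_neg]
          refine Subring.neg_mem _ ?_
          rw [coeff_sum]
          refine Subring.sum_mem _ fun x hx => ?_
          have hx' := Finset.HasAntidiagonal.mem_antidiagonal.1 hx
          rw [coeff_mul]
          refine Subring.sum_mem _ fun y _ => ?_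
          exact Subring.mul_mem _ (Tame_int.1 (h.int (x.1 + 1) y.1)) ((ih x.2 (by omega)).2.1 y.2)
        · rw [Tame_l1M_neg]
          refine (Tame_l1M_sum _ _).trans ?_
          have h1 : ∀ x ∈ Finset.HasAntidiagonal.antidiagonal K,
              l1M (PowerSeries.coeff (x.1 + 1) (ser n Q) * PowerSeries.coeff x.2 (sinv n Q)) ≤
                ((A : ℚ) ^ 2) ^ (K + 1) * 2 ^ x.2 := by
            intro x hx
            have hx' := Finset.HasAntidiagonal.mem_antidiagonal.1 hx
            refine (l1M_mul_le _ _).trans ?_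
            have h2 : l1M (PowerSeries.coeff (x.1 + 1) (ser n Q)) ≤ ((A : ℚ) ^ 2) ^ (x.1 + 1) := by
              refine (h.l1 (x.1 + 1)).trans ?_
              rw [← pow_mul]
              exact pow_le_pow_right₀ hA' (by omega)
            have h3 := (ih x.2 (by omega)).2.2
            refine (mul_le_mul h2 h3 (Tame_l1M_nonneg _) (by positivity)).trans (le_of_eq ?_)
            rw [← hx']
            ring
          refine (Finset.sum_le_sum h1).trans ?_
          rw [← Finset.mul_sum, mul_pow, mul_comm (2 ^ (K + 1) : ℚ)]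
          refine mul_le_mul_of_nonneg_left ?_ (by positivity)
          have h4 : ∑ x ∈ Finset.HasAntidiagonal.antidiagonal K, (2 : ℚ) ^ x.2 =
              ∑ i ∈ Finset.range (K + 1), (2 : ℚ) ^ i := by
            rw [← Finset.Nat.sum_antidiagonal_swap]
            exact Finset.Nat.sum_antidiagonal_eq_sum_range_succ_mk (fun x => (2 : ℚ) ^ x.1) K
          rw [h4, geom_sum_eq (by norm_num)]
          norm_num
  refine ⟨?_, fun k i => ?_, fun k m => ?_, fun k => ?_⟩
  · have := Nat.pow_pos (n := 2) hA1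
    omega
  · exact ((key k).1 i).trans (Nat.mul_le_mul_left _ (by omega))
  · exact Tame_int.2 ((key k).2.1 m)
  · refine ((key k).2.2).trans ?_
    push_cast
    refine pow_le_pow_right₀ ?_ (by omega)
    nlinarith

/-- The constant of a family depends polynomially on the sizes of the coefficients.

Proof. As `exists_GData`. By `tameZ_ser`, `tameZ_sinv`, `TameZ.pow`, `TameZ.mul`, `TameZ.mono` each `ser (G i) * sinv Q ^ κ i` is `TameZ n a' A'` with `a' = e + κ0 * (2 * e)` and
`A' = 2 * L * (2 * (2 * L ^ 2)) ^ κ0`. With `c₀` from `lcmUpto_le` put `d K = lcmUpto (a' * (K + 1) + 1) ^ n`: `d K ≤ c₀ ^ ((a' * (K + 1) + 1) * n) ≤ (c₀ ^ ((a' + 1) * n)) ^ (K + 1)`; `den_Lam` with `A = 1`,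
`abs_Lam_le`. All conditions of `GData` hold for `C = c * L ^ c ≥ A' * c₀ ^ ((a' + 1) * n)`, e.g. `c = 2 * 4 ^ κ0 * c₀ ^ ((a' + 1) * n) + 2 * κ0 + 1`. -/
theorem exists_GData_uniform (n m e κ0 : ℕ) : ∃ c : ℕ, 1 ≤ c ∧
    ∀ (Q : MvPolynomial (Fin (n + 1)) ℤ) (G : Fin m → MvPolynomial (Fin (n + 1)) ℤ) (κ : Fin m → ℕ) (L : ℕ),
      1 ≤ L → atZero n (map (Int.castRingHom ℚ) Q) = 1 → (∀ i, Q.degreeOf i ≤ e) →
      (∀ j i, (G j).degreeOf i ≤ e) → (∀ j, κ j ≤ κ0) → l1I Q ≤ L → (∀ j, l1I (G j) ≤ L) →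
      ∃ d, GData (fun i => Phi n (map (Int.castRingHom ℚ) Q) (map (Int.castRingHom ℚ) (G i)) (κ i))
        (c * L ^ c) d := by
  obtain ⟨c₀, hc1, hc⟩ := lcmUpto_le
  set a' : ℕ := e + κ0 * (2 * e) with ha'
  set M : ℕ := c₀ ^ ((a' + 1) * n) with hM
  have hM1 : 1 ≤ M := Nat.pow_pos hc1
  refine ⟨2 * 4 ^ κ0 * M + 2 * κ0 + 1, by omega, ?_⟩
  intro Q G κ L hL hQ hQe hGe hκ hQL hGL
  set c : ℕ := 2 * 4 ^ κ0 * M + 2 * κ0 + 1 with hcdef
  have hT : ∀ i, TameZ n a' (2 * L * (2 * (2 * L ^ 2)) ^ κ0)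
      (ser n (map (Int.castRingHom ℚ) (G i)) * sinv n (map (Int.castRingHom ℚ) Q) ^ κ i) := by
    intro i
    have h1 := tameZ_ser (G i) e L hL (hGe i) (hGL i)
    have h2 := tameZ_sinv hQ (tameZ_ser Q e L hL hQe hQL)
    have h3 := h1.mul (h2.pow (κ i))
    refine h3.mono ?_ ?_
    · rw [ha']
      exact Nat.add_le_add_left (Nat.mul_le_mul_right _ (hκ i)) _
    · refine Nat.mul_le_mul_left _ (Nat.pow_le_pow_right ?_ (hκ i))
      have := Nat.pow_pos (n := 2) hL
      omega
  have hLc : L ^ (2 * κ0 + 1) ≤ L ^ c := Nat.pow_le_pow_right hL (by omega)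
  have hA'C : 2 * L * (2 * (2 * L ^ 2)) ^ κ0 ≤ c * L ^ c := by
    have e1 : 2 * L * (2 * (2 * L ^ 2)) ^ κ0 = 2 * 4 ^ κ0 * L ^ (2 * κ0 + 1) := by
      have e2 : 2 * (2 * L ^ 2) = 4 * L ^ 2 := by ring
      rw [e2, mul_pow, ← pow_mul, pow_succ]
      ring
    rw [e1]
    refine Nat.mul_le_mul ?_ hLc
    have h1 : 2 * 4 ^ κ0 ≤ 2 * 4 ^ κ0 * M := Nat.le_mul_of_pos_right _ hM1
    omega
  have hMC : M ≤ c * L ^ c := by
    have h1 : M ≤ c := by
      have h2 : M ≤ 2 * 4 ^ κ0 * M := Nat.le_mul_of_pos_left _ (by positivity)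
      omega
    exact h1.trans (Nat.le_mul_of_pos_right _ (Nat.pow_pos hL))
  have hco : ∀ i k, PowerSeries.coeff k (Phi n (map (Int.castRingHom ℚ) Q)
      (map (Int.castRingHom ℚ) (G i)) (κ i)) =
      Lam n (PowerSeries.coeff k (ser n (map (Int.castRingHom ℚ) (G i)) *
        sinv n (map (Int.castRingHom ℚ) Q) ^ κ i)) := fun i k => coeff_LamS _ _ _
  have hdv : ∀ {a b : ℕ}, a ≤ b → Nat.lcmUpto a ∣ Nat.lcmUpto b := by
    intro a b hab
    exact Finset.lcm_mono (Finset.Icc_subset_Icc_right hab)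
  refine ⟨fun K => Nat.lcmUpto (a' * (K + 1) + 1) ^ n,
    ⟨?_, fun i k => ?_, fun K => ?_, fun K => ?_, fun K i k hk => ?_⟩⟩
  · exact hM1.trans hMC
  · rw [hco]
    refine (abs_Lam_le _ _).trans (((hT i).l1 k).trans ?_)
    refine pow_le_pow_left₀ (Nat.cast_nonneg _) ?_ _
    exact_mod_cast hA'C
  · exact Nat.pow_pos (Nat.lcmUpto_pos _)
  · refine (Nat.pow_le_pow_left (hc _) n).trans ?_
    refine le_trans ?_ (Nat.pow_le_pow_left hMC (K + 1))
    rw [hM, ← pow_mul, ← pow_mul]
    refine Nat.pow_le_pow_right hc1 ?_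
    have h1 : a' * (K + 1) + 1 ≤ (a' + 1) * (K + 1) := by nlinarith
    calc (a' * (K + 1) + 1) * n ≤ (a' + 1) * (K + 1) * n := Nat.mul_le_mul_right _ h1
      _ = (a' + 1) * n * (K + 1) := by ring
  · rw [hco]
    obtain ⟨z, hz⟩ := den_Lam n (PowerSeries.coeff k (ser n (map (Int.castRingHom ℚ) (G i)) *
        sinv n (map (Int.castRingHom ℚ) Q) ^ κ i)) 1
      (a' * (k + 1)) (fun j => (hT i).deg k j) (fun m => by
        obtain ⟨z, hz⟩ := (hT i).int k m
        exact ⟨z, by rw [Nat.cast_one, one_mul]; exact hz⟩)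
    obtain ⟨w, hw⟩ : Nat.lcmUpto (a' * (k + 1) + 1) ^ n ∣ Nat.lcmUpto (a' * (K + 1) + 1) ^ n := by
      refine pow_dvd_pow_of_dvd (hdv ?_) n
      have : a' * (k + 1) ≤ a' * (K + 1) := Nat.mul_le_mul_left _ (by omega)
      omega
    refine ⟨(w : ℤ) * z, ?_⟩
    show ((Nat.lcmUpto (a' * (K + 1) + 1) ^ n : ℕ) : ℚ) * _ = _
    rw [hw]
    push_cast
    push_cast at hz
    rw [← hz]
    ring

end Pool.Agent.Lib.MP_bbe012_lc.PP
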