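import Pool.Agent.Lib.MP_bbe012_lc.PP.Base

/-!
# If the first iterated derivatives are dependent, one linear form kills all of them
-/

namespace Pool.Agent.Lib.MP_bbe012_lc.PP

open Polynomial

/-- `x` is, up to a non zero denominator, a combination of the first `ℓ` iterated derivatives. -/
private def InSat {m : ℕ} (T : ℚ[X]) (B : Fin m → Fin m → ℚ[X]) (v : Fin m → ℚ[X]) (l : ℕ)
    (x : Fin m → ℚ[X]) : Prop :=
  ∃ d : ℚ[X], d ≠ 0 ∧ ∃ c : ℕ → ℚ[X],
    ∀ i, d * x i = ∑ j ∈ Finset.range l, c j * iter T B v j i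

private theorem inSat_zero {m : ℕ} (T : ℚ[X]) (B : Fin m → Fin m → ℚ[X]) (v : Fin m → ℚ[X])
    (l : ℕ) : InSat T B v l (fun _ => 0) :=
  ⟨1, one_ne_zero, fun _ => 0, fun i => by simp⟩

private theorem inSat_add {m : ℕ} {T : ℚ[X]} {B : Fin m → Fin m → ℚ[X]} {v : Fin m → ℚ[X]}
    {l : ℕ} {x y : Fin m → ℚ[X]} (hx : InSat T B v l x) (hy : InSat T B v l y) :
    InSat T B v l (fun i => x i + y i) := by
  obtain ⟨d, hd, c, hc⟩ := hx
  obtain ⟨e, he, f, hf⟩ := hy
  refine ⟨d * e, mul_ne_zero hd he, fun j => e * c j + d * f j, fun i => ?_⟩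
  have h1 : d * e * (x i + y i) = e * (d * x i) + d * (e * y i) := by ring
  rw [h1, hc i, hf i, Finset.mul_sum, Finset.mul_sum, ← Finset.sum_add_distrib]
  exact Finset.sum_congr rfl fun j _ => by ring

private theorem inSat_mul {m : ℕ} {T : ℚ[X]} {B : Fin m → Fin m → ℚ[X]} {v : Fin m → ℚ[X]}
    {l : ℕ} {x : Fin m → ℚ[X]} (p : ℚ[X]) (hx : InSat T B v l x) :
    InSat T B v l (fun i => p * x i) := by
  obtain ⟨d, hd, c, hc⟩ := hx
  refine ⟨d, hd, fun j => p * c j, fun i => ?_⟩
  have h1 : d * (p * x i) = p * (d * x i) := by ring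
  rw [h1, hc i, Finset.mul_sum]
  exact Finset.sum_congr rfl fun j _ => by ring

private theorem inSat_of_mul {m : ℕ} {T : ℚ[X]} {B : Fin m → Fin m → ℚ[X]} {v : Fin m → ℚ[X]}
    {l : ℕ} {x : Fin m → ℚ[X]} {p : ℚ[X]} (hp : p ≠ 0)
    (hx : InSat T B v l (fun i => p * x i)) : InSat T B v l x := by
  obtain ⟨d, hd, c, hc⟩ := hx
  refine ⟨d * p, mul_ne_zero hd hp, c, fun i => ?_⟩
  rw [mul_assoc]
  exact hc i

private theorem inSat_sum {m : ℕ} {T : ℚ[X]} {B : Fin m → Fin m → ℚ[X]} {v : Fin m → ℚ[X]}
    {l : ℕ} (s : Finset ℕ) (x : ℕ → Fin m → ℚ[X]) (h : ∀ j ∈ s, InSat T B v l (x j)) :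
    InSat T B v l (fun i => ∑ j ∈ s, x j i) := by
  classical
  induction s using Finset.induction_on with
  | empty =>
    simp only [Finset.sum_empty]
    exact inSat_zero T B v l
  | insert a s ha ih =>
    simp only [Finset.sum_insert ha]
    exact inSat_add (h a (Finset.mem_insert_self a s))
      (ih fun j hj => h j (Finset.mem_insert_of_mem hj))

private theorem inSat_iter_lt {m : ℕ} (T : ℚ[X]) (B : Fin m → Fin m → ℚ[X])
    (v : Fin m → ℚ[X]) {l j : ℕ} (hj : j < l) : InSat T B v l (iter T B v j) := by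
  refine ⟨1, one_ne_zero, fun k => if k = j then 1 else 0, fun i => ?_⟩
  rw [one_mul, Finset.sum_eq_single j]
  · simp
  · intro k _ hk
    simp [hk]
  · intro h
    exact absurd (Finset.mem_range.2 hj) h

private theorem inSat_iter {m : ℕ} {T : ℚ[X]} {B : Fin m → Fin m → ℚ[X]} {v : Fin m → ℚ[X]}
    {l : ℕ} (hl : InSat T B v l (iter T B v l)) (s : ℕ) : InSat T B v l (iter T B v s) := by
  have hle : ∀ j, j ≤ l → InSat T B v l (iter T B v j) := by
    intro j hj
    rcases Nat.lt_or_eq_of_le hj with h | h
    · exact inSat_iter_lt T B v h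
    · rw [h]
      exact hl
  induction s with
  | zero => exact hle 0 (Nat.zero_le l)
  | succ s ih =>
    rcases Nat.lt_or_ge s l with h | h
    · exact hle (s + 1) h
    have hih := ih
    obtain ⟨d, hd, c, hc⟩ := ih
    have hs1 : ((s : ℚ[X]) + 1) ≠ 0 := by
      exact_mod_cast Nat.succ_ne_zero s
    refine inSat_of_mul hd (inSat_of_mul hs1 ?_)
    have key : ∀ i, ((s : ℚ[X]) + 1) * (d * iter T B v (s + 1) i) =
        (∑ j ∈ Finset.range l, ((T * derivative (c j) + c j * ((j : ℚ[X]) * derivative T)) *
          iter T B v j i + (c j * ((j : ℚ[X]) + 1)) * iter T B v (j + 1) i)) +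
        (-(T * derivative d) - d * ((s : ℚ[X]) * derivative T)) * iter T B v s i := by
      intro i
      have e1 := iter_succ T B v s i
      have e2 : T * derivative (d * iter T B v s i) - ∑ k, B i k * (d * iter T B v s k) =
          ∑ j ∈ Finset.range l, (T * derivative (c j) * iter T B v j i +
            c j * (T * derivative (iter T B v j i) - ∑ k, B i k * iter T B v j k)) := by
        have e3 : ∑ k, B i k * (d * iter T B v s k) =
            ∑ j ∈ Finset.range l, c j * ∑ k, B i k * iter T B v j k := by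
          have e4 : ∀ k, B i k * (d * iter T B v s k) =
              ∑ j ∈ Finset.range l, c j * (B i k * iter T B v j k) := by
            intro k
            rw [hc k, Finset.mul_sum]
            exact Finset.sum_congr rfl fun j _ => by ring
          rw [Finset.sum_congr rfl fun k _ => e4 k, Finset.sum_comm]
          exact Finset.sum_congr rfl fun j _ => by rw [Finset.mul_sum]
        rw [e3, hc i, Polynomial.derivative_sum, Finset.mul_sum, ← Finset.sum_sub_distrib]
        refine Finset.sum_congr rfl fun j _ => ?_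
        rw [Polynomial.derivative_mul]
        ring
      have e5 : T * derivative (d * iter T B v s i) - ∑ k, B i k * (d * iter T B v s k) =
          T * derivative d * iter T B v s i +
            d * (T * derivative (iter T B v s i) - ∑ k, B i k * iter T B v s k) := by
        have e6 : ∑ k, B i k * (d * iter T B v s k) = d * ∑ k, B i k * iter T B v s k := by
          rw [Finset.mul_sum]
          exact Finset.sum_congr rfl fun k _ => by ring
        rw [e6, Polynomial.derivative_mul]
        ring
      have e7 : ∑ j ∈ Finset.range l, (T * derivative (c j) * iter T B v j i +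
            c j * (T * derivative (iter T B v j i) - ∑ k, B i k * iter T B v j k)) =
          ∑ j ∈ Finset.range l, ((T * derivative (c j) + c j * ((j : ℚ[X]) * derivative T)) *
          iter T B v j i + (c j * ((j : ℚ[X]) + 1)) * iter T B v (j + 1) i) := by
        refine Finset.sum_congr rfl fun j _ => ?_
        rw [← iter_succ T B v j i]
        ring
      rw [← e7, ← e2, e5, ← e1]
      ring
    have h2 : (fun i => ((s : ℚ[X]) + 1) * (d * iter T B v (s + 1) i)) = fun i =>
        (∑ j ∈ Finset.range l, ((T * derivative (c j) + c j * ((j : ℚ[X]) * derivative T)) *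
          iter T B v j i + (c j * ((j : ℚ[X]) + 1)) * iter T B v (j + 1) i)) +
        (-(T * derivative d) - d * ((s : ℚ[X]) * derivative T)) * iter T B v s i :=
      funext key
    rw [h2]
    refine inSat_add (inSat_sum (Finset.range l) (fun j i =>
      (T * derivative (c j) + c j * ((j : ℚ[X]) * derivative T)) *
          iter T B v j i + (c j * ((j : ℚ[X]) + 1)) * iter T B v (j + 1) i) ?_)
      (inSat_mul _ hih)
    intro j hj
    have hj' : j < l := Finset.mem_range.1 hj
    exact inSat_add (inSat_mul _ (hle j hj'.le)) (inSat_mul _ (hle (j + 1) hj'))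

/-- If the determinant of the first `m` iterated derivatives vanishes, there is a non zero linear
form (with polynomial coefficients) which kills all iterated derivatives.

Proof. For `ℓ : ℕ` and `x : Fin m → ℚ[X]` let `InSat ℓ x` mean: there are `d ≠ 0` and `c : ℕ → ℚ[X]` with
`∀ i, d * x i = ∑ j ∈ range ℓ, c j * iter T B v j i`.  By `Matrix.exists_vecMul_eq_zero_iff` and `hdet` there
is `c ≠ 0` with `∑ s, c s * iter T B v s i = 0` for all `i`; let `ℓ : Fin m` be the largest index with
`c ℓ ≠ 0` (`Finset.exists_max_image` or `Finset.max'` of the support); then `InSat ℓ (iter T B v ℓ)`.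
Claim: `InSat ℓ (iter T B v s)` for all `s`. It is clear for `s < ℓ`; for `s ≥ ℓ` by induction: if
`d * x i = ∑_{j<ℓ} c j * iter j i` with `x = iter s`, differentiate, multiply by `T`, and use `iter_succ`
for `x` and for the `iter j`: with `E x i := T * (x i)' - ∑ B i j * x j` one gets
`d * E x i = ∑_{j<ℓ} (T * (c j)' * iter j i + c j * E (iter j) i) - T * d' * x i`, where
`E (iter j) i = (j+1) * iter (j+1) i + j * (T' * iter j i)` and `E x i = (s+1) * iter (s+1) i + s * (T' * x i)`.
All terms of the right hand side are in `Sat ℓ` (the term `iter ℓ` by the first relation), `Sat ℓ` is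
closed under sums and multiplication by polynomials, and under division by a non zero polynomial; so
`iter (s+1)` is in `Sat ℓ` (note `(s : ℚ[X]) + 1 ≠ 0`).
Finally, there is `a ≠ 0` with `∑ i, a i * iter T B v j i = 0` for all `j < ℓ`: the `m × m` matrix with rows
`iter j` for `j < ℓ` and `0` for the rows `j ≥ ℓ` has determinant zero (`Matrix.det_eq_zero_of_row_eq_zero`
with the row `ℓ`), so `Matrix.exists_mulVec_eq_zero_iff` applies. Then `a` kills every `x` with `InSat ℓ x`
(cancel `d ≠ 0`). -/
theorem exists_killer {m : ℕ} (T : ℚ[X]) (B : Fin m → Fin m → ℚ[X]) (v : Fin m → ℚ[X])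
    (hdet : Matrix.det (Matrix.of fun s i : Fin m => iter T B v s i) = 0) :
    ∃ a : Fin m → ℚ[X], a ≠ 0 ∧ ∀ s, ∑ i, a i * iter T B v s i = 0 := by
  classical
  obtain ⟨c, hc0, hc⟩ := Matrix.exists_vecMul_eq_zero_iff.2 hdet
  have hc1 : ∀ i, ∑ s, c s * iter T B v s i = 0 := by
    intro i
    have h := congrFun hc i
    simpa [Matrix.vecMul, dotProduct] using h
  have hne : (Finset.univ.filter fun s : Fin m => c s ≠ 0).Nonempty := by
    obtain ⟨s, hs⟩ := Function.ne_iff.1 hc0
    exact ⟨s, by simpa using hs⟩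
  obtain ⟨l, hl, hmax⟩ := Finset.exists_max_image _ (fun s : Fin m => (s : ℕ)) hne
  have hcl : c l ≠ 0 := (Finset.mem_filter.1 hl).2
  have hzero : ∀ s : Fin m, (l : ℕ) < (s : ℕ) → c s = 0 := by
    intro s hs
    by_contra h
    exact absurd (hmax s (Finset.mem_filter.2 ⟨Finset.mem_univ s, h⟩)) (not_le.2 hs)
  have hsat : InSat T B v l (iter T B v l) := by
    refine ⟨c l, hcl, fun j => if h : j < m then -c ⟨j, h⟩ else 0, fun i => ?_⟩
    have h1 := hc1 i
    let g : ℕ → ℚ[X] := fun j => if h : j < m then c ⟨j, h⟩ * iter T B v j i else 0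
    have h2 : ∑ s : Fin m, c s * iter T B v s i = ∑ j ∈ Finset.range m, g j := by
      rw [Finset.sum_range]
      refine Finset.sum_congr rfl fun s _ => ?_
      simp [g]
    have h3 : ∑ j ∈ Finset.range m, g j = ∑ j ∈ Finset.range ((l : ℕ) + 1), g j := by
      symm
      refine Finset.sum_subset (fun j hj => ?_) (fun j hj hj2 => ?_)
      · rw [Finset.mem_range] at hj ⊢
        omega
      · rw [Finset.mem_range] at hj
        rw [Finset.mem_range] at hj2
        simp only [g]
        rw [dif_pos hj, hzero ⟨j, hj⟩ (by show (l : ℕ) < j; omega), zero_mul]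
    have h4 : g l = c l * iter T B v l i := by
      simp [g]
    have h5 : ∑ j ∈ Finset.range (l : ℕ),
        (if h : j < m then -c ⟨j, h⟩ else 0) * iter T B v j i =
          -∑ j ∈ Finset.range (l : ℕ), g j := by
      rw [← Finset.sum_neg_distrib]
      refine Finset.sum_congr rfl fun j hj => ?_
      have hjm : j < m := lt_trans (Finset.mem_range.1 hj) l.2
      simp only [g]
      rw [dif_pos hjm, dif_pos hjm]
      ring
    rw [h2, h3, Finset.sum_range_succ, h4] at h1
    rw [h5]
    linear_combination h1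
  have hall : ∀ s, InSat T B v l (iter T B v s) := fun s => inSat_iter hsat s
  have hM : Matrix.det (Matrix.of fun s i : Fin m =>
      if (s : ℕ) < (l : ℕ) then iter T B v s i else 0) = 0 := by
    refine Matrix.det_eq_zero_of_row_eq_zero l fun i => ?_
    simp
  obtain ⟨a, ha0, ha⟩ := Matrix.exists_mulVec_eq_zero_iff.2 hM
  refine ⟨a, ha0, fun s => ?_⟩
  have hlow : ∀ j, j < (l : ℕ) → ∑ i, a i * iter T B v j i = 0 := by
    intro j hj
    have h := congrFun ha ⟨j, lt_trans hj l.2⟩
    simp only [Matrix.mulVec, dotProduct, Matrix.of_apply, Pi.zero_apply] at h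
    rw [← h]
    refine Finset.sum_congr rfl fun i _ => ?_
    rw [if_pos hj, mul_comm]
  obtain ⟨d, hd, f, hf⟩ := hall s
  have h6 : d * ∑ i, a i * iter T B v s i = 0 := by
    rw [Finset.mul_sum]
    have h7 : ∀ i, d * (a i * iter T B v s i) =
        ∑ j ∈ Finset.range (l : ℕ), f j * (a i * iter T B v j i) := by
      intro i
      have h8 : d * (a i * iter T B v s i) = a i * (d * iter T B v s i) := by ring
      rw [h8, hf i, Finset.mul_sum]
      exact Finset.sum_congr rfl fun j _ => by ring
    rw [Finset.sum_congr rfl fun i _ => h7 i, Finset.sum_comm]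
    refine Finset.sum_eq_zero fun j hj => ?_
    rw [← Finset.mul_sum, hlow j (Finset.mem_range.1 hj), mul_zero]
  exact (mul_eq_zero.1 h6).resolve_left hd

end Pool.Agent.Lib.MP_bbe012_lc.PP
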