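import Pool.Agent.Lib.MP_bbe012_lc.PP.Base

/-!
# Formal solutions of linear differential systems at a regular point
-/

namespace Pool.Agent.Lib.MP_bbe012_lc.PP

open Polynomial

/-- For every initial value there is a power series solution of `T η_i' = - ∑ η_j B_{ji}`.

Proof. `T` is invertible in `ℚ⟦X⟧` (`PowerSeries.mul_inv_cancel`); put `G j i = - T⁻¹ * B j i`, so that we
need `η_i' = ∑_j η_j * G j i`, i.e. (`PowerSeries.coeff_derivative`, `PowerSeries.coeff_mul`)
`(k+1) c (k+1) i = ∑_j ∑_{(a,b) ∈ antidiagonal k} c a j * coeff b (G j i)` for the coefficients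
`c k i` of `η i`. Define `c : ℕ → Fin m → ℚ` by well founded recursion (`c 0 = lam`,
`c (k+1) i = (k+1)⁻¹ * ∑_j ∑ a : Fin (k+1), c a j * coeff (k - a) (G j i)`), and
`η i = PowerSeries.mk fun k => c k i`. -/
theorem exists_sol {m : ℕ} (T : PowerSeries ℚ) (hT : PowerSeries.constantCoeff T ≠ 0)
    (B : Fin m → Fin m → PowerSeries ℚ) (lam : Fin m → ℚ) :
    ∃ η : Fin m → PowerSeries ℚ, (∀ i, PowerSeries.constantCoeff (η i) = lam i) ∧
      ∀ i, T * PowerSeries.derivative ℚ (η i) = - ∑ j, η j * B j i := by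
  classical
  obtain ⟨G, hG⟩ : ∃ G : Fin m → Fin m → PowerSeries ℚ, ∀ j i, G j i = -(T⁻¹ * B j i) :=
    ⟨fun j i => -(T⁻¹ * B j i), fun _ _ => rfl⟩
  -- the recursion for the list of the first coefficients
  obtain ⟨c, hc0, hc⟩ : ∃ c : ℕ → Fin m → ℚ, (∀ i, c 0 i = lam i) ∧ ∀ (k : ℕ) (i : Fin m),
      ((k : ℚ) + 1) * c (k + 1) i =
        ∑ j, ∑ a ∈ Finset.range (k + 1), c a j * PowerSeries.coeff (k - a) (G j i) := by
    let F : ℕ → (ℕ → Fin m → ℚ) := fun n => Nat.rec (fun _ => lam)
      (fun k f => fun a => if a ≤ k then f a else fun i =>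
        ((k : ℚ) + 1)⁻¹ * ∑ j, ∑ a ∈ Finset.range (k + 1), f a j * PowerSeries.coeff (k - a) (G j i)) n
    have hF0 : ∀ a, F 0 a = lam := fun a => rfl
    have hFs : ∀ k a, F (k + 1) a = if a ≤ k then F k a else fun i =>
        ((k : ℚ) + 1)⁻¹ * ∑ j, ∑ a ∈ Finset.range (k + 1), F k a j *
          PowerSeries.coeff (k - a) (G j i) := fun k a => rfl
    have hst : ∀ n a, a ≤ n → F n a = F a a := by
      intro n
      induction n with
      | zero =>
        intro a ha
        obtain rfl : a = 0 := by omega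
        rfl
      | succ k ih =>
        intro a ha
        rcases Nat.lt_or_ge k a with h | h
        · obtain rfl : a = k + 1 := by omega
          rfl
        · rw [hFs, if_pos h, ih a h]
    refine ⟨fun k => F k k, fun i => rfl, fun k i => ?_⟩
    have h1 : ((k : ℚ) + 1) ≠ 0 := by positivity
    show ((k : ℚ) + 1) * F (k + 1) (k + 1) i = _
    rw [hFs, if_neg (by omega), ← mul_assoc, mul_inv_cancel₀ h1, one_mul]
    refine Finset.sum_congr rfl fun j _ => Finset.sum_congr rfl fun a ha => ?_
    rw [hst k a (by have := Finset.mem_range.1 ha; omega)]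
  refine ⟨fun i => PowerSeries.mk fun k => c k i, fun i => ?_, fun i => ?_⟩
  · rw [← PowerSeries.coeff_zero_eq_constantCoeff_apply, PowerSeries.coeff_mk, hc0]
  · have h1 : PowerSeries.derivative ℚ (PowerSeries.mk fun k => c k i) =
        ∑ j, (PowerSeries.mk fun k => c k j) * G j i := by
      ext k
      rw [PowerSeries.coeff_derivative, PowerSeries.coeff_mk, mul_comm,
        hc k i, map_sum]
      refine Finset.sum_congr rfl fun j _ => ?_
      rw [PowerSeries.coeff_mul, Finset.Nat.sum_antidiagonal_eq_sum_range_succ_mk]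
      refine Finset.sum_congr rfl fun a _ => ?_
      rw [PowerSeries.coeff_mk]
    rw [h1, Finset.mul_sum, ← Finset.sum_neg_distrib]
    refine Finset.sum_congr rfl fun j _ => ?_
    rw [hG, mul_neg, mul_neg, neg_inj, mul_left_comm, ← mul_assoc T, PowerSeries.mul_inv_cancel T hT,
      one_mul]

end Pool.Agent.Lib.MP_bbe012_lc.PP
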