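import Pool.Agent.Lib.MP_bbe012_lc.PP.Siegel

/-!
# Stage 2: Siegel's lemma with an explicit constant
-/

namespace Pool.Agent.Lib.MP_bbe012_lc.PP

open Polynomial

/-- The constant. -/
def CQ (r E C : ℕ) : ℕ := (2 ^ (r * E + 2) * C ^ (2 * (r * E) + 2 * E + 6)) ^ (r * E)

theorem one_le_CQ {r E C : ℕ} (hC : 1 ≤ C) : 1 ≤ CQ r E C := by
  exact Nat.one_le_pow _ _ (by positivity)

section

attribute [local instance] Matrix.seminormedAddCommGroup

/-- Siegel's lemma with an explicit bound of the entries. -/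
private theorem siegelC_aux {α β : Type*} [Fintype α] [Fintype β] (A : Matrix α β ℤ)
    (hn : Fintype.card α < Fintype.card β) (hm : 0 < Fintype.card α) (M : ℕ) (hM : 1 ≤ M)
    (hA : ∀ i j, |A i j| ≤ (M : ℤ)) (s : ℕ)
    (hs : Fintype.card α ≤ s * (Fintype.card β - Fintype.card α)) :
    ∃ t : β → ℤ, t ≠ 0 ∧ (∀ i, ∑ j, A i j * t j = 0) ∧
      ∀ j, |t j| ≤ ((Fintype.card β * M : ℕ) : ℤ) ^ s := by
  obtain ⟨t, ht0, ht1, ht2⟩ := Int.Matrix.exists_ne_zero_int_vec_norm_le A hn hm
  refine ⟨t, ht0, fun i => ?_, fun j => ?_⟩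
  · have := congrFun ht1 i
    rw [Matrix.mulVec, dotProduct] at this
    exact this
  · have hA' : ‖A‖ ≤ (M : ℝ) := by
      rw [Matrix.norm_le_iff (by positivity)]
      intro i j
      rw [Int.norm_eq_abs]
      exact_mod_cast hA i j
    have hM' : (1 : ℝ) ≤ (M : ℝ) := by exact_mod_cast hM
    have hmax : max 1 ‖A‖ ≤ (M : ℝ) := max_le hM' hA'
    have hcard : (1 : ℝ) ≤ (Fintype.card β : ℝ) := by
      have : 1 ≤ Fintype.card β := by omega
      exact_mod_cast this
    have hexp : ((Fintype.card α : ℝ) / ((Fintype.card β : ℝ) - (Fintype.card α : ℝ))) ≤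
        (s : ℝ) := by
      have hlt : (Fintype.card α : ℝ) < (Fintype.card β : ℝ) := by exact_mod_cast hn
      rw [div_le_iff₀ (by linarith)]
      have h1 : ((Fintype.card α : ℕ) : ℝ) ≤
          ((s * (Fintype.card β - Fintype.card α) : ℕ) : ℝ) := by exact_mod_cast hs
      rw [Nat.cast_mul, Nat.cast_sub hn.le] at h1
      exact h1
    have h1 : ‖t j‖ ≤ ((Fintype.card β : ℝ) * (M : ℝ)) ^ (s : ℝ) := by
      refine (norm_le_pi_norm t j).trans (ht2.trans ?_)
      have hbase : (1 : ℝ) ≤ (Fintype.card β : ℝ) * max 1 ‖A‖ :=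
        one_le_mul_of_one_le_of_one_le hcard (le_max_left _ _)
      refine (Real.rpow_le_rpow_of_exponent_le hbase hexp).trans ?_
      refine Real.rpow_le_rpow (by linarith) ?_ (by positivity)
      exact mul_le_mul_of_nonneg_left hmax (by positivity)
    rw [Real.rpow_natCast, Int.norm_eq_abs] at h1
    exact_mod_cast h1

end

/-- Coefficients of a product with a polynomial of small degree. -/
private theorem siegelC_coeff (D : ℕ) (t : Fin (D + 1) → ℤ) (Z : PowerSeries ℚ) (k : ℕ)
    (hk : D < k) :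
    PowerSeries.coeff k (((((Polynomial.ofFn (D + 1) t)).map (Int.castRingHom ℚ) : ℚ[X]) :
      PowerSeries ℚ) * Z) = ∑ l : Fin (D + 1), (t l : ℚ) * PowerSeries.coeff (k - l) Z := by
  rw [PowerSeries.coeff_mul]
  rw [Finset.Nat.sum_antidiagonal_eq_sum_range_succ
    (fun a b => PowerSeries.coeff a ((((Polynomial.ofFn (D + 1) t)).map (Int.castRingHom ℚ) :
      ℚ[X]) : PowerSeries ℚ) * PowerSeries.coeff b Z) k]
  rw [← Finset.sum_subset (Finset.range_subset_range.2 (show D + 1 ≤ k.succ by omega))]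
  · rw [Finset.sum_range]
    refine Finset.sum_congr rfl fun l _ => ?_
    rw [Polynomial.coeff_coe, Polynomial.coeff_map, Polynomial.ofFn_coeff_eq_val_of_lt _ l.2]
    rfl
  · intro a _ ha
    rw [Finset.mem_range, not_lt] at ha
    rw [Polynomial.coeff_coe, Polynomial.coeff_map, Polynomial.ofFn_coeff_eq_zero_of_ge _ ha,
      map_zero, zero_mul]

/-- Proof: copy the proof of `exists_q` in Siegel.lean (for `r = 0` the constant is `1`; the private lemmas
`siegel_aux` and `siegel_coeff` have to be copied, with other names). -/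
theorem exists_qC {r : ℕ} (Y : Fin (r + 1) → PowerSeries ℚ) (hY0 : Y 0 = 1) {C : ℕ} {d : ℕ → ℕ}
    (hY : GData Y C d) (E : ℕ) (hE : 1 ≤ E) (g : ℕ) (hg : 1 ≤ g) :
    ∃ q : ℤ[X], q ≠ 0 ∧ q.natDegree ≤ (r * E + 1) * g ∧ (∀ k, |q.coeff k| ≤ (CQ r E C : ℤ) ^ g) ∧
      ∀ (i : Fin (r + 1)) (k : ℕ), (r * E + 1) * g < k → k < (r * E + 1) * g + 1 + E * g →
        PowerSeries.coeff k (((q.map (Int.castRingHom ℚ) : ℚ[X]) : PowerSeries ℚ) * Y i) = 0 := by
  have hC1 : 1 ≤ C := hY.one_le
  rcases Nat.eq_zero_or_pos r with hr | hr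
  · subst hr
    have h0 : CQ 0 E C = 1 := by rw [CQ, Nat.zero_mul, pow_zero]
    rw [h0]
    refine ⟨1, one_ne_zero, ?_, ?_, ?_⟩
    · rw [natDegree_one]
      exact Nat.zero_le _
    · intro k
      rw [Nat.cast_one, one_pow, Polynomial.coeff_one]
      split_ifs <;> simp
    · intro i k hk _
      have hi : i = 0 := Fin.ext (by have := i.2; omega)
      rw [hi, hY0, Polynomial.map_one, Polynomial.coe_one, one_mul, PowerSeries.coeff_one,
        if_neg (by omega)]
  · rw [CQ]
    obtain ⟨D, hD⟩ : ∃ D, D = (r * E + 1) * g := ⟨_, rfl⟩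
    obtain ⟨K, hK⟩ : ∃ K, K = D + 1 + E * g := ⟨_, rfl⟩
    rw [← hD]
    have hden : ∀ (p : Fin r × Fin (E * g)) (l : Fin (D + 1)), ∃ z : ℤ,
        (d K : ℚ) * PowerSeries.coeff (D + 1 + p.2 - l) (Y p.1.succ) = z := by
      intro p l
      refine hY.den K _ _ ?_
      have := p.2.2
      omega
    choose A hA using hden
    have hAb : ∀ p l, |A p l| ≤ ((C ^ (2 * K + 2) : ℕ) : ℤ) := by
      intro p l
      have h1 : |(A p l : ℚ)| ≤ ((C ^ (2 * K + 2) : ℕ) : ℚ) := by
        rw [← hA, abs_mul, Nat.abs_cast]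
        have h2 : (d K : ℚ) ≤ (C : ℚ) ^ (K + 1) := by exact_mod_cast hY.dle K
        have h3 := hY.growth p.1.succ (D + 1 + p.2 - l)
        have h4 : (C : ℚ) ^ (D + 1 + (p.2 : ℕ) - (l : ℕ) + 1) ≤ (C : ℚ) ^ (K + 1) := by
          refine pow_le_pow_right₀ (by exact_mod_cast hC1) ?_
          have := p.2.2
          omega
        calc (d K : ℚ) * |PowerSeries.coeff (D + 1 + (p.2 : ℕ) - (l : ℕ)) (Y p.1.succ)|
            ≤ (C : ℚ) ^ (K + 1) * (C : ℚ) ^ (K + 1) :=
              mul_le_mul h2 (h3.trans h4) (abs_nonneg _) (by positivity)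
          _ = ((C ^ (2 * K + 2) : ℕ) : ℚ) := by
              rw [← pow_add]
              push_cast
              congr 1
              ring
      exact_mod_cast h1
    have hcα : Fintype.card (Fin r × Fin (E * g)) = r * (E * g) := by
      rw [Fintype.card_prod, Fintype.card_fin, Fintype.card_fin]
    have hcβ : Fintype.card (Fin (D + 1)) = D + 1 := Fintype.card_fin _
    have hD' : D = r * (E * g) + g := by rw [hD]; ring
    have hpos : 0 < r * (E * g) := by positivity
    obtain ⟨t, ht0, ht1, ht2⟩ := siegelC_aux (α := Fin r × Fin (E * g)) (β := Fin (D + 1)) A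
      (by rw [hcα, hcβ]; omega) (by rw [hcα]; exact hpos) (C ^ (2 * K + 2))
      (Nat.one_le_pow _ _ hC1) hAb (r * E) (by
        rw [hcα, hcβ]
        have h1 : D + 1 - r * (E * g) = g + 1 := by omega
        rw [h1]
        calc r * (E * g) = r * E * g := by ring
          _ ≤ r * E * (g + 1) := Nat.mul_le_mul_left _ (Nat.le_succ g))
    refine ⟨Polynomial.ofFn (D + 1) t, ?_, ?_, ?_, ?_⟩
    · intro h0
      apply ht0
      funext l
      have := Polynomial.ofFn_coeff_eq_val_of_lt t l.2
      rw [h0, Polynomial.coeff_zero] at this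
      exact this.symm
    · have := Polynomial.ofFn_natDegree_lt (n := D + 1) (by omega) t
      omega
    · intro k
      by_cases hk : k < D + 1
      · rw [Polynomial.ofFn_coeff_eq_val_of_lt t hk]
        refine (ht2 ⟨k, hk⟩).trans ?_
        rw [hcβ]
        have h1 : (D + 1) * C ^ (2 * K + 2) ≤
            (2 ^ (r * E + 2) * C ^ (2 * (r * E) + 2 * E + 6)) ^ g := by
          rw [mul_pow, ← pow_mul, ← pow_mul]
          refine Nat.mul_le_mul ?_ ?_
          · refine (Nat.lt_two_pow_self (n := D + 1)).le.trans ?_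
            refine Nat.pow_le_pow_right (by norm_num) ?_
            calc D + 1 = (r * E + 1) * g + 1 := by rw [hD]
              _ ≤ (r * E + 1) * g + g := by omega
              _ = (r * E + 2) * g := by ring
          · refine Nat.pow_le_pow_right hC1 ?_
            calc 2 * K + 2 = 2 * ((r * E + 1) * g) + 2 * (E * g) + 4 := by
                  rw [hK, hD]; ring
              _ ≤ 2 * ((r * E + 1) * g) + 2 * (E * g) + 4 * g := by omega
              _ = (2 * (r * E) + 2 * E + 6) * g := by ring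
        have h2 : ((D + 1) * C ^ (2 * K + 2)) ^ (r * E) ≤
            ((2 ^ (r * E + 2) * C ^ (2 * (r * E) + 2 * E + 6)) ^ (r * E)) ^ g := by
          calc ((D + 1) * C ^ (2 * K + 2)) ^ (r * E) ≤
              ((2 ^ (r * E + 2) * C ^ (2 * (r * E) + 2 * E + 6)) ^ g) ^ (r * E) :=
                Nat.pow_le_pow_left h1 _
            _ = _ := by rw [← pow_mul, ← pow_mul, Nat.mul_comm g (r * E)]
        exact_mod_cast h2
      · rw [Polynomial.ofFn_coeff_eq_zero_of_ge t (by omega), abs_zero]
        positivity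
    · intro i k hk hk'
      rw [← hK] at hk'
      refine Fin.cases ?_ (fun i' => ?_) i
      · rw [hY0, mul_one, Polynomial.coeff_coe, Polynomial.coeff_map,
          Polynomial.ofFn_coeff_eq_zero_of_ge t (by omega), map_zero]
      · rw [siegelC_coeff D t (Y i'.succ) k hk]
        have hkk : k - (D + 1) < E * g := by omega
        have h1 := ht1 (i', ⟨k - (D + 1), hkk⟩)
        have h2 : (∑ l, (A (i', ⟨k - (D + 1), hkk⟩) l : ℚ) * (t l : ℚ)) = 0 := by
          exact_mod_cast h1
        have h3 : (d K : ℚ) * ∑ l : Fin (D + 1), (t l : ℚ) *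
            PowerSeries.coeff (k - l) (Y i'.succ) = 0 := by
          rw [← h2, Finset.mul_sum]
          refine Finset.sum_congr rfl fun l _ => ?_
          rw [← hA]
          have h4 : D + 1 + ((⟨k - (D + 1), hkk⟩ : Fin (E * g)) : ℕ) - (l : ℕ) = k - l := by
            show D + 1 + (k - (D + 1)) - (l : ℕ) = k - l
            omega
          rw [h4]
          ring
        have h5 : (d K : ℚ) ≠ 0 := by
          have := hY.dpos K
          positivity
        exact (mul_eq_zero.1 h3).resolve_left h5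

end Pool.Agent.Lib.MP_bbe012_lc.PP
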