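import Pool.Agent.Lib.MP_bbe012_lc.PP.Mult

/-!
# Stage 2: a basis of the functions at a regular point
-/

namespace Pool.Agent.Lib.MP_bbe012_lc.PP

open Polynomial

private theorem coe_add' (p q : ℚ[X]) : ((p + q : ℚ[X]) : PowerSeries ℚ) = (p : PowerSeries ℚ) + (q : PowerSeries ℚ) :=
  Polynomial.coe_add p q

private theorem coe_sum' {ι : Type} (s : Finset ι) (p : ι → ℚ[X]) :
    ((∑ i ∈ s, p i : ℚ[X]) : PowerSeries ℚ) = ∑ i ∈ s, (p i : PowerSeries ℚ) :=
  map_sum (Polynomial.coeToPowerSeries.ringHom (R := ℚ)) p s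

private theorem coe_sub' (p q : ℚ[X]) : ((p - q : ℚ[X]) : PowerSeries ℚ) = (p : PowerSeries ℚ) - (q : PowerSeries ℚ) :=
  map_sub (Polynomial.coeToPowerSeries.ringHom (R := ℚ)) p q

private theorem coe_neg' (p : ℚ[X]) : ((-p : ℚ[X]) : PowerSeries ℚ) = -(p : PowerSeries ℚ) :=
  map_neg (Polynomial.coeToPowerSeries.ringHom (R := ℚ)) p

private theorem claim_k {r : ℕ} (T : ℚ[X]) (B : Fin (r + 1) → Fin (r + 1) → ℚ[X])
    (Y : Fin (r + 1) → PowerSeries ℚ)
    (hode : ∀ i, (T : PowerSeries ℚ) * PowerSeries.derivative ℚ (Y i) =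
      ∑ j, (B i j : PowerSeries ℚ) * Y j) {τ : ℚ} (hT : T.eval τ ≠ 0) (c : ℚ[X]) (hc : c.eval τ ≠ 0)
    (a : Fin (r + 1) → ℚ[X])
    (h : ((X - C τ : ℚ[X]) : PowerSeries ℚ) * ∑ i, (a i : PowerSeries ℚ) * Y i = (c : PowerSeries ℚ)) (k : ℕ) :
    ∃ (b : Fin (r + 1) → ℚ[X]) (c' : ℚ[X]), c'.eval τ ≠ 0 ∧
      (((X - C τ) ^ (k + 1) : ℚ[X]) : PowerSeries ℚ) * ∑ i, (b i : PowerSeries ℚ) * Y i = (c' : PowerSeries ℚ) := by
  induction k with
  | zero => exact ⟨a, c, hc, by rw [zero_add, pow_one]; exact h⟩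
  | succ k ih =>
    obtain ⟨b, c', hc', hb⟩ := ih
    refine ⟨fun j => T * derivative (b j) + ∑ i, b i * B i j,
      T * ((X - C τ) * derivative c') - ((k : ℚ[X]) + 1) * (T * c'), ?_, ?_⟩
    · have h1 : (T * ((X - C τ) * derivative c') - ((k : ℚ[X]) + 1) * (T * c')).eval τ =
          -(((k : ℚ) + 1) * (T.eval τ * c'.eval τ)) := by
        simp
      rw [h1]
      have h2 : ((k : ℚ) + 1) ≠ 0 := by positivity
      exact neg_ne_zero.2 (mul_ne_zero h2 (mul_ne_zero hT hc'))
    · have hTw : ∑ j, ((T * derivative (b j) + ∑ i, b i * B i j : ℚ[X]) : PowerSeries ℚ) * Y j =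
          (T : PowerSeries ℚ) * PowerSeries.derivative ℚ (∑ i, (b i : PowerSeries ℚ) * Y i) := by
        rw [map_sum, Finset.mul_sum]
        have e1 : ∀ i, (T : PowerSeries ℚ) * PowerSeries.derivative ℚ ((b i : PowerSeries ℚ) * Y i) =
            (T : PowerSeries ℚ) * (derivative (b i) : ℚ[X]) * Y i + ∑ j, (b i : PowerSeries ℚ) * ((B i j : PowerSeries ℚ) * Y j) := by
          intro i
          rw [← Finset.mul_sum, ← hode i, Derivation.leibniz, PowerSeries.derivative_coe]
          simp only [smul_eq_mul]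
          ring
        rw [Finset.sum_congr rfl fun i _ => e1 i, Finset.sum_add_distrib, Finset.sum_comm,
          ← Finset.sum_add_distrib]
        refine Finset.sum_congr rfl fun j _ => ?_
        rw [coe_add', coe_sum', Polynomial.coe_mul, add_mul, Finset.sum_mul]
        congr 1
        refine Finset.sum_congr rfl fun i _ => ?_
        rw [Polynomial.coe_mul]
        ring
      rw [hTw]
      have hd := congrArg (PowerSeries.derivative ℚ) hb
      rw [Derivation.leibniz, PowerSeries.derivative_coe, PowerSeries.derivative_coe] at hd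
      simp only [smul_eq_mul] at hd
      have hdp : derivative ((X - C τ) ^ (k + 1) : ℚ[X]) = ((k : ℚ[X]) + 1) * (X - C τ) ^ k := by
        rw [Polynomial.derivative_X_sub_C_pow]
        simp
      rw [hdp] at hd
      have e2 : ((((k : ℚ[X]) + 1) * (X - C τ) ^ k : ℚ[X]) : PowerSeries ℚ) * ((X - C τ : ℚ[X]) : PowerSeries ℚ) =
          (((k : ℚ[X]) + 1 : ℚ[X]) : PowerSeries ℚ) * (((X - C τ) ^ (k + 1) : ℚ[X]) : PowerSeries ℚ) := by
        rw [← Polynomial.coe_mul, ← Polynomial.coe_mul, mul_assoc, ← pow_succ]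
      have e3 : (((X - C τ) ^ (k + 1 + 1) : ℚ[X]) : PowerSeries ℚ) =
          (((X - C τ) ^ (k + 1) : ℚ[X]) : PowerSeries ℚ) * ((X - C τ : ℚ[X]) : PowerSeries ℚ) := by
        rw [← Polynomial.coe_mul, ← pow_succ]
      rw [coe_sub', Polynomial.coe_mul, Polynomial.coe_mul, Polynomial.coe_mul, Polynomial.coe_mul, e3]
      generalize hw : ∑ i, (b i : PowerSeries ℚ) * Y i = w at hb hd ⊢
      generalize PowerSeries.derivative ℚ w = w' at hd ⊢
      generalize (((X - C τ) ^ (k + 1) : ℚ[X]) : PowerSeries ℚ) = A at *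
      generalize ((X - C τ : ℚ[X]) : PowerSeries ℚ) = x at *
      generalize ((((k : ℚ[X]) + 1) * (X - C τ) ^ k : ℚ[X]) : PowerSeries ℚ) = z at *
      generalize (((k : ℚ[X]) + 1 : ℚ[X]) : PowerSeries ℚ) = n at *
      generalize ((derivative c' : ℚ[X]) : PowerSeries ℚ) = dc at *
      rw [← hd, ← hb]
      linear_combination (-(T : PowerSeries ℚ) * w) * e2

/-- At a point with `T(τ) ≠ 0` the function `1` is not divisible by `X - τ` in the module generated by the `Y i`.

Proof. Let `Λ` be the set of the `∑ i, (b i) * Y i`, `b i ∈ ℚ[X]`. Claim: for all `k ≥ 1` there are `w ∈ Λ` and `c ∈ ℚ[X]` with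
`c.eval τ ≠ 0` and `(X - τ) ^ k * w = c`. `k = 1`: hypothesis. Step: differentiate, multiply by `T * (X - τ)`:
`k T (X - τ) ^ k w + (X - τ) ^ (k + 1) T w' = T (X - τ) c'`, so
`(X - τ) ^ (k + 1) (T w') = T (X - τ) c' - k T c` (use `(X - τ) ^ k w = c`), `T w' ∈ Λ` by `hode` (Leibniz), and the value at `τ` of the right
side is `- k T(τ) c(τ) ≠ 0`.
Now let `d, e, ρ, c` be as in `exists_sub` (Mult.lean) for `f = coeToPowerSeries.ringHom` and `g = Y`. Then
`ρ * 1 = ∑ l, (c 0 l) * e l` (`Y 0 = 1`), and for every `k` with `w`, `c'` as in the claim, `ρ * w = ∑ l, (b l) * e l`, so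
`∑ l, c' (c 0 l) e l = c' ρ = ρ (X - τ) ^ k w = ∑ l, (X - τ) ^ k (b l) e l`, hence `c' * c 0 l = (X - τ) ^ k * b l` and
`(X - τ) ^ k ∣ c 0 l` (`IsCoprime`), for all `k`, so `c 0 l = 0` (degree), so `ρ = 0`, a contradiction. -/
theorem prim_one {r : ℕ} (T : ℚ[X]) (B : Fin (r + 1) → Fin (r + 1) → ℚ[X])
    (Y : Fin (r + 1) → PowerSeries ℚ) (hY0 : Y 0 = 1)
    (hode : ∀ i, (T : PowerSeries ℚ) * PowerSeries.derivative ℚ (Y i) =
      ∑ j, (B i j : PowerSeries ℚ) * Y j) {τ : ℚ} (hT : T.eval τ ≠ 0) (c : ℚ[X]) (hc : c.eval τ ≠ 0)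
    (a : Fin (r + 1) → ℚ[X])
    (h : ((X - C τ : ℚ[X]) : PowerSeries ℚ) * ∑ i, (a i : PowerSeries ℚ) * Y i = (c : PowerSeries ℚ)) :
    False := by
  obtain ⟨d, e, ρ, p, hρ, hp, hind⟩ := exists_sub (Polynomial.coeToPowerSeries.ringHom (R := ℚ)) Y
  have hp' : ∀ k, (ρ : PowerSeries ℚ) * Y k = ∑ l, (p k l : PowerSeries ℚ) * e l := hp
  have hind' : ∀ q : Fin d → ℚ[X], ∑ l, (q l : PowerSeries ℚ) * e l = 0 → q = 0 := hind
  have hkey : ∀ (k : ℕ) (l : Fin d), (X - C τ) ^ (k + 1) ∣ p 0 l := by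
    intro k l
    obtain ⟨b, c', hc', hb⟩ := claim_k T B Y hode hT c hc a h k
    have h1 : (ρ : PowerSeries ℚ) * ∑ i, (b i : PowerSeries ℚ) * Y i =
        ∑ l, ((∑ i, b i * p i l : ℚ[X]) : PowerSeries ℚ) * e l := by
      rw [Finset.mul_sum]
      have e1 : ∀ i, (ρ : PowerSeries ℚ) * ((b i : PowerSeries ℚ) * Y i) =
          ∑ l, (b i : PowerSeries ℚ) * ((p i l : PowerSeries ℚ) * e l) := by
        intro i
        rw [← Finset.mul_sum, ← hp' i]
        ring
      rw [Finset.sum_congr rfl fun i _ => e1 i, Finset.sum_comm]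
      refine Finset.sum_congr rfl fun l _ => ?_
      rw [coe_sum', Finset.sum_mul]
      refine Finset.sum_congr rfl fun i _ => ?_
      rw [Polynomial.coe_mul]
      ring
    have h2 : (ρ : PowerSeries ℚ) = ∑ l, (p 0 l : PowerSeries ℚ) * e l := by
      rw [← hp' 0, hY0, mul_one]
    have h3 := hind' (fun l => c' * p 0 l - (X - C τ) ^ (k + 1) * ∑ i, b i * p i l) (by
      have e2 : ∀ l, ((c' * p 0 l - (X - C τ) ^ (k + 1) * ∑ i, b i * p i l : ℚ[X]) : PowerSeries ℚ) * e l =
          (c' : PowerSeries ℚ) * ((p 0 l : PowerSeries ℚ) * e l) -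
            (((X - C τ) ^ (k + 1) : ℚ[X]) : PowerSeries ℚ) * (((∑ i, b i * p i l : ℚ[X]) : PowerSeries ℚ) * e l) := by
        intro l
        rw [coe_sub', Polynomial.coe_mul, Polynomial.coe_mul]
        ring
      rw [Finset.sum_congr rfl fun l _ => e2 l, Finset.sum_sub_distrib, ← Finset.mul_sum,
        ← Finset.mul_sum, ← h2, ← h1, ← hb]
      ring)
    have h4 : c' * p 0 l - (X - C τ) ^ (k + 1) * ∑ i, b i * p i l = 0 := congrFun h3 l
    have h5 : (X - C τ) ^ (k + 1) ∣ c' * p 0 l := ⟨_, sub_eq_zero.1 h4⟩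
    have h6 : IsCoprime (X - C τ) c' := by
      rw [(Polynomial.irreducible_X_sub_C τ).coprime_iff_not_dvd, Polynomial.dvd_iff_isRoot]
      exact hc'
    exact (h6.pow_left).dvd_of_dvd_mul_left h5
  have hzero : ∀ l, p 0 l = 0 := by
    intro l
    by_contra hne
    have h1 := Polynomial.natDegree_le_of_dvd (hkey (p 0 l).natDegree l) hne
    rw [Polynomial.natDegree_pow, Polynomial.natDegree_X_sub_C] at h1
    omega
  apply hρ
  have h2 : (ρ : PowerSeries ℚ) = 0 := by
    have h3 := hp' 0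
    rw [hY0, mul_one] at h3
    rw [h3]
    refine Finset.sum_eq_zero fun l _ => ?_
    rw [hzero l, Polynomial.coe_zero, zero_mul]
  rw [← Polynomial.coe_zero] at h2
  exact Polynomial.coe_injective ℚ h2

private theorem divide_out {r : ℕ} (Y : Fin (r + 1) → PowerSeries ℚ) (τ : ℚ) (S : Finset (Fin (r + 1))) (j₀ : Fin (r + 1))
    (hj₀ : j₀ ∈ S) (n : ℕ) : ∀ a : Fin (r + 1) → ℚ[X], ∑ j ∈ S, (a j : PowerSeries ℚ) * Y j = 0 → a j₀ ≠ 0 →
    (a j₀).natDegree < n →
    ∃ b : Fin (r + 1) → ℚ[X], ∑ j ∈ S, (b j : PowerSeries ℚ) * Y j = 0 ∧ ∃ j ∈ S, (b j).eval τ ≠ 0 := by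
  induction n with
  | zero => intro a _ _ h; exact absurd h (Nat.not_lt_zero _)
  | succ n ih =>
    intro a ha h0 hn
    by_cases hex : ∃ j ∈ S, (a j).eval τ ≠ 0
    · exact ⟨a, ha, hex⟩
    · have hall : ∀ j ∈ S, (a j).eval τ = 0 := by
        intro j hj
        by_contra hne
        exact hex ⟨j, hj, hne⟩
      have hb : ∀ j, ∃ q : ℚ[X], j ∈ S → a j = (X - C τ) * q := by
        intro j
        by_cases hj : j ∈ S
        · obtain ⟨q, hq⟩ := Polynomial.dvd_iff_isRoot.2 (hall j hj)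
          exact ⟨q, fun _ => hq⟩
        · exact ⟨0, fun h => absurd h hj⟩
      choose q hq using hb
      have h1 : ∑ j ∈ S, (q j : PowerSeries ℚ) * Y j = 0 := by
        have h2 : ((X - C τ : ℚ[X]) : PowerSeries ℚ) * ∑ j ∈ S, (q j : PowerSeries ℚ) * Y j = 0 := by
          rw [← ha, Finset.mul_sum]
          refine Finset.sum_congr rfl fun j hj => ?_
          rw [hq j hj, Polynomial.coe_mul, mul_assoc]
        rcases mul_eq_zero.1 h2 with h3 | h3
        · exfalso
          rw [← Polynomial.coe_zero] at h3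
          exact Polynomial.X_sub_C_ne_zero τ (Polynomial.coe_injective ℚ h3)
        · exact h3
      have h4 : q j₀ ≠ 0 := by
        intro h5
        apply h0
        rw [hq j₀ hj₀, h5, mul_zero]
      refine ih q h1 h4 ?_
      have h6 : (a j₀).natDegree = 1 + (q j₀).natDegree := by
        rw [hq j₀ hj₀, Polynomial.natDegree_mul (Polynomial.X_sub_C_ne_zero τ) h4,
          Polynomial.natDegree_X_sub_C]
      omega

/-- A basis adapted to `τ`, containing `Y 0 = 1`.

Proof. Consider the finsets `S` of indices with `0 ∈ S` such that there are `ρ` with `ρ.eval τ ≠ 0` and polynomials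
`P i j` (`j ∈ S`) with `ρ * Y i = ∑ j ∈ S, P i j * Y j` for all `i` (e.g. `S = univ`, `ρ = 1`), and take one with the smallest number
of elements. Claim: the `Y j`, `j ∈ S`, are linearly independent over `ℚ[X]`. Otherwise there is a relation
`∑ j ∈ S, a j * Y j = 0`, not all `a j = 0`; dividing by a power of `X - τ` (the power series ring is a domain and
`X - τ ≠ 0`; take the largest power dividing all `a j`, e.g. by induction on a degree) we may assume `(a j).eval τ ≠ 0` for some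
`j ∈ S`. If `j ≠ 0`, then `S.erase j` also works with `ρ * a j` instead of `ρ`, a contradiction to minimality. If `(a j).eval τ = 0` for all
`j ≠ 0`, then `(a 0).eval τ ≠ 0` and `a 0 = - ∑_{j ≠ 0} a j * Y j` is `X - τ` times an element of the module (`dvd_iff_isRoot`), a
contradiction to `prim_one`. Finally enumerate `S` with `0` first: `J 0 = 0`. -/
theorem exists_local_basis {r : ℕ} (T : ℚ[X]) (B : Fin (r + 1) → Fin (r + 1) → ℚ[X])
    (Y : Fin (r + 1) → PowerSeries ℚ) (hY0 : Y 0 = 1)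
    (hode : ∀ i, (T : PowerSeries ℚ) * PowerSeries.derivative ℚ (Y i) =
      ∑ j, (B i j : PowerSeries ℚ) * Y j) {τ : ℚ} (hT : T.eval τ ≠ 0) :
    ∃ (m : ℕ) (J : Fin (m + 1) → Fin (r + 1)) (ρ : ℚ[X]) (P : Fin (r + 1) → Fin (m + 1) → ℚ[X]),
      m ≤ r ∧ J 0 = 0 ∧ ρ.eval τ ≠ 0 ∧ Indep (fun j => Y (J j)) ∧
      ∀ i, (ρ : PowerSeries ℚ) * Y i = ∑ j, (P i j : PowerSeries ℚ) * Y (J j) := by
  classical
  let Q : Finset (Fin (r + 1)) → Prop := fun S => (0 : Fin (r + 1)) ∈ S ∧
    ∃ (ρ : ℚ[X]) (P : Fin (r + 1) → Fin (r + 1) → ℚ[X]), ρ.eval τ ≠ 0 ∧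
      ∀ i, (ρ : PowerSeries ℚ) * Y i = ∑ j ∈ S, (P i j : PowerSeries ℚ) * Y j
  have hne : (Finset.univ.filter Q).Nonempty := by
    refine ⟨Finset.univ, Finset.mem_filter.2 ⟨Finset.mem_univ _, Finset.mem_univ _, 1,
      fun i j => if i = j then 1 else 0, ?_, ?_⟩⟩
    · rw [Polynomial.eval_one]; exact one_ne_zero
    · intro i
      rw [Finset.sum_eq_single i]
      · beta_reduce
        rw [if_pos rfl]
      · intro j _ hj
        beta_reduce
        rw [if_neg (Ne.symm hj), Polynomial.coe_zero, zero_mul]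
      · intro hh
        exact absurd (Finset.mem_univ _) hh
  obtain ⟨S, hS, hmin⟩ := Finset.exists_min_image (Finset.univ.filter Q) Finset.card hne
  obtain ⟨h0S, ρ, P, hρ, hP⟩ := (Finset.mem_filter.1 hS).2
  have hind : ∀ a : Fin (r + 1) → ℚ[X], ∑ j ∈ S, (a j : PowerSeries ℚ) * Y j = 0 → ∀ j ∈ S, a j = 0 := by
    intro a ha j₀ hj₀
    by_contra haj
    obtain ⟨b, hb, j, hj, hbj⟩ := divide_out Y τ S j₀ hj₀ ((a j₀).natDegree + 1) a ha haj (Nat.lt_succ_self _)
    by_cases hcase : ∃ j ∈ S, j ≠ 0 ∧ (b j).eval τ ≠ 0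
    · obtain ⟨j, hj, hj0, hbj⟩ := hcase
      have hmem : S.erase j ∈ Finset.univ.filter Q := by
        refine Finset.mem_filter.2 ⟨Finset.mem_univ _, Finset.mem_erase.2 ⟨Ne.symm hj0, h0S⟩, ρ * b j,
          fun i l => b j * P i l - P i j * b l, ?_, ?_⟩
        · rw [Polynomial.eval_mul]
          exact mul_ne_zero hρ hbj
        · intro i
          have e1 : ∑ l ∈ S, ((b j * P i l - P i j * b l : ℚ[X]) : PowerSeries ℚ) * Y l =
              (b j : PowerSeries ℚ) * ((ρ : PowerSeries ℚ) * Y i) := by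
            rw [hP i]
            have e2 : ∀ l, ((b j * P i l - P i j * b l : ℚ[X]) : PowerSeries ℚ) * Y l =
                (b j : PowerSeries ℚ) * ((P i l : PowerSeries ℚ) * Y l) -
                  (P i j : PowerSeries ℚ) * ((b l : PowerSeries ℚ) * Y l) := by
              intro l
              rw [coe_sub', Polynomial.coe_mul, Polynomial.coe_mul]
              ring
            rw [Finset.sum_congr rfl fun l _ => e2 l, Finset.sum_sub_distrib, ← Finset.mul_sum,
              ← Finset.mul_sum, hb, mul_zero, sub_zero]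
          rw [← Finset.add_sum_erase S _ hj] at e1
          have e3 : ((b j * P i j - P i j * b j : ℚ[X]) : PowerSeries ℚ) * Y j = 0 := by
            rw [mul_comm (b j) (P i j), sub_self, Polynomial.coe_zero, zero_mul]
          rw [e3, zero_add] at e1
          rw [e1, Polynomial.coe_mul]
          ring
      have h1 := hmin _ hmem
      have h2 := Finset.card_erase_lt_of_mem hj
      omega
    · have hall : ∀ l ∈ S, l ≠ 0 → (b l).eval τ = 0 := by
        intro l hl hl0
        by_contra hne'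
        exact hcase ⟨l, hl, hl0, hne'⟩
      have hj0 : j = 0 := by
        by_contra hh
        exact hbj (hall j hj hh)
      rw [hj0] at hbj
      have hq : ∀ l, ∃ q : ℚ[X], l ∈ S.erase 0 → b l = (X - C τ) * q := by
        intro l
        by_cases hl : l ∈ S.erase 0
        · obtain ⟨q, hq⟩ := Polynomial.dvd_iff_isRoot.2 (hall l (Finset.mem_of_mem_erase hl) (Finset.ne_of_mem_erase hl))
          exact ⟨q, fun _ => hq⟩
        · exact ⟨0, fun h => absurd h hl⟩
      choose q hq using hq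
      refine prim_one T B Y hY0 hode hT (b 0) hbj (fun l => if l ∈ S.erase 0 then -q l else 0) ?_
      have e1 : ∑ l, ((if l ∈ S.erase 0 then -q l else 0 : ℚ[X]) : PowerSeries ℚ) * Y l =
          ∑ l ∈ S.erase 0, -((q l : PowerSeries ℚ) * Y l) := by
        rw [← Finset.sum_subset (Finset.subset_univ (S.erase 0))]
        · refine Finset.sum_congr rfl fun l hl => ?_
          rw [if_pos hl, coe_neg', neg_mul]
        · intro l _ hl
          rw [if_neg hl, Polynomial.coe_zero, zero_mul]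
      rw [e1, Finset.sum_neg_distrib, mul_neg]
      rw [← Finset.add_sum_erase S _ h0S, hY0, mul_one] at hb
      have e4 : ((X - C τ : ℚ[X]) : PowerSeries ℚ) * ∑ l ∈ S.erase 0, (q l : PowerSeries ℚ) * Y l =
          ∑ l ∈ S.erase 0, (b l : PowerSeries ℚ) * Y l := by
        rw [Finset.mul_sum]
        refine Finset.sum_congr rfl fun l hl => ?_
        rw [hq l hl, Polynomial.coe_mul, mul_assoc]
      rw [e4]
      exact (eq_neg_of_add_eq_zero_left hb).symm
  let E := (S.erase 0).equivFin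
  let J : Fin ((S.erase 0).card + 1) → Fin (r + 1) := Fin.cons 0 (fun k => (E.symm k : Fin (r + 1)))
  have hJ0 : J 0 = 0 := rfl
  have hJs : ∀ k, J (Fin.succ k) = (E.symm k : Fin (r + 1)) := fun k => rfl
  have hsum : ∀ f : Fin (r + 1) → PowerSeries ℚ, ∑ k, f (J k) = ∑ j ∈ S, f j := by
    intro f
    rw [Fin.sum_univ_succ, hJ0, ← Finset.add_sum_erase S f h0S]
    congr 1
    have e1 : ∑ k, f (J (Fin.succ k)) = ∑ k, (fun x : {x // x ∈ S.erase 0} => f x) (E.symm k) :=
      Finset.sum_congr rfl fun k _ => by rw [hJs k]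
    rw [e1, Equiv.sum_comp E.symm (fun x : {x // x ∈ S.erase 0} => f x)]
    exact Finset.sum_coe_sort (S.erase 0) f
  have hJS : ∀ k, J k ∈ S := by
    intro k
    refine Fin.cases ?_ (fun k => ?_) k
    · rw [hJ0]; exact h0S
    · rw [hJs]
      exact Finset.mem_of_mem_erase (E.symm k).2
  have hJinj : Function.Injective J := by
    intro k l hkl
    revert hkl
    refine Fin.cases ?_ (fun k => ?_) k
    · refine Fin.cases ?_ (fun l => ?_) l
      · intro _; rfl
      · intro hkl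
        rw [hJ0, hJs] at hkl
        exact absurd hkl.symm (Finset.ne_of_mem_erase (E.symm l).2)
    · refine Fin.cases ?_ (fun l => ?_) l
      · intro hkl
        rw [hJ0, hJs] at hkl
        exact absurd hkl (Finset.ne_of_mem_erase (E.symm k).2)
      · intro hkl
        rw [hJs, hJs] at hkl
        have h1 := E.symm.injective (Subtype.ext hkl)
        rw [h1]
  have hcard : (S.erase 0).card ≤ r := by
    have h1 : S.card ≤ r + 1 := (Finset.card_le_univ S).trans (le_of_eq (Fintype.card_fin _))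
    rw [Finset.card_erase_of_mem h0S]
    omega
  refine ⟨(S.erase 0).card, J, ρ, fun i k => P i (J k), hcard, hJ0, hρ, ?_, ?_⟩
  · intro a ha
    have h1 : ∑ j ∈ S, ((Function.extend J a 0 j : ℚ[X]) : PowerSeries ℚ) * Y j = 0 := by
      rw [← hsum (fun j => ((Function.extend J a 0 j : ℚ[X]) : PowerSeries ℚ) * Y j), ← ha]
      refine Finset.sum_congr rfl fun k _ => ?_
      beta_reduce
      rw [hJinj.extend_apply]
    have h2 := hind _ h1
    ext1 k
    have h3 := h2 (J k) (hJS k)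
    rw [hJinj.extend_apply] at h3
    exact h3
  · intro i
    rw [hP i]
    exact (hsum (fun j => ((P i j : ℚ[X]) : PowerSeries ℚ) * Y j)).symm

end Pool.Agent.Lib.MP_bbe012_lc.PP
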