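import Pool.Agent.Lib.MP_bbe012_lc.PP.Base

/-!
# Stage 2: comparison of the system of all functions with the system of a basis
-/

namespace Pool.Agent.Lib.MP_bbe012_lc.PP

open Polynomial

/-- The matrix of the system satisfied by the `Y (J k)`. -/
noncomputable def BJ {r m : ℕ} (B : Fin (r + 1) → Fin (r + 1) → ℚ[X]) (J : Fin (m + 1) → Fin (r + 1))
    (P : Fin (r + 1) → Fin (m + 1) → ℚ[X]) (k l : Fin (m + 1)) : ℚ[X] := ∑ i, B (J k) i * P i l

private theorem UC_coe_sum {m : ℕ} (f : Fin m → ℚ[X]) :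
    ((∑ j, f j : ℚ[X]) : PowerSeries ℚ) = ∑ j, (f j : PowerSeries ℚ) :=
  map_sum Polynomial.coeToPowerSeries.ringHom f Finset.univ

/-- `∑ l, (∑ j, b j * p j l) * y l = ∑ j, b j * ∑ l, p j l * y l` -/
private theorem UC_swap {R : Type*} [CommRing R] {m n : ℕ} (b : Fin n → R) (p : Fin n → Fin m → R)
    (y : Fin m → R) : ∑ l, (∑ j, b j * p j l) * y l = ∑ j, b j * ∑ l, p j l * y l := by
  have h1 : ∀ l, (∑ j, b j * p j l) * y l = ∑ j, b j * (p j l * y l) := by
    intro l
    rw [Finset.sum_mul]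
    exact Finset.sum_congr rfl fun j _ => mul_assoc _ _ _
  rw [Finset.sum_congr rfl fun l _ => h1 l, Finset.sum_comm]
  exact Finset.sum_congr rfl fun j _ => (Finset.mul_sum _ _ _).symm

/-- Proof: multiply `hode (J k)` by `ρ` and use `hP`. -/
theorem ode_sub {r m : ℕ} {T : ℚ[X]} {B : Fin (r + 1) → Fin (r + 1) → ℚ[X]}
    {Y : Fin (r + 1) → PowerSeries ℚ} {J : Fin (m + 1) → Fin (r + 1)} {ρ : ℚ[X]}
    {P : Fin (r + 1) → Fin (m + 1) → ℚ[X]}
    (hode : ∀ i, (T : PowerSeries ℚ) * PowerSeries.derivative ℚ (Y i) =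
      ∑ j, (B i j : PowerSeries ℚ) * Y j)
    (hP : ∀ i, (ρ : PowerSeries ℚ) * Y i = ∑ j, (P i j : PowerSeries ℚ) * Y (J j)) (k : Fin (m + 1)) :
    ((ρ * T : ℚ[X]) : PowerSeries ℚ) * PowerSeries.derivative ℚ (Y (J k)) =
      ∑ l, (BJ B J P k l : PowerSeries ℚ) * Y (J l) := by
  have h1 : ∀ l, ((BJ B J P k l : ℚ[X]) : PowerSeries ℚ) =
      ∑ j, (B (J k) j : PowerSeries ℚ) * (P j l : PowerSeries ℚ) := by
    intro l
    rw [BJ, UC_coe_sum]
    exact Finset.sum_congr rfl fun j _ => Polynomial.coe_mul _ _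
  rw [Finset.sum_congr rfl fun l _ => by rw [h1 l]]
  rw [UC_swap (fun j => (B (J k) j : PowerSeries ℚ)) (fun j l => (P j l : PowerSeries ℚ))
    (fun l => Y (J l)), Polynomial.coe_mul, mul_assoc, hode, Finset.mul_sum]
  refine Finset.sum_congr rfl fun j _ => ?_
  rw [← hP j]
  ring

/-- Proof: differentiate `hP i`, multiply by `ρ * T`:
`T ρ' (ρ Y i) + ρ ∑ j, B i j (ρ Y j) = ρ T ∑ k, P i k' Y (J k) + ∑ k, P i k (ρ T Y (J k)')`
(`hode`, `ode_sub`, `PowerSeries.derivative_coe`); replace the `ρ Y j` by `hP`, and compare coefficients of the independent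
`Y (J l)`. -/
theorem compat {r m : ℕ} {T : ℚ[X]} {B : Fin (r + 1) → Fin (r + 1) → ℚ[X]}
    {Y : Fin (r + 1) → PowerSeries ℚ} {J : Fin (m + 1) → Fin (r + 1)} {ρ : ℚ[X]}
    {P : Fin (r + 1) → Fin (m + 1) → ℚ[X]}
    (hode : ∀ i, (T : PowerSeries ℚ) * PowerSeries.derivative ℚ (Y i) =
      ∑ j, (B i j : PowerSeries ℚ) * Y j)
    (hP : ∀ i, (ρ : PowerSeries ℚ) * Y i = ∑ j, (P i j : PowerSeries ℚ) * Y (J j))
    (hI : Indep (fun j => Y (J j))) (i : Fin (r + 1)) (l : Fin (m + 1)) :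
    ρ * (T * derivative (P i l)) - derivative ρ * (T * P i l) =
      ρ * (∑ j, B i j * P j l) - ∑ k, P i k * BJ B J P k l := by
  have hcoe : ∀ l, (((T * derivative ρ * P i l + ρ * (∑ j, B i j * P j l) -
      ρ * T * derivative (P i l) - ∑ k, P i k * BJ B J P k l : ℚ[X])) : PowerSeries ℚ) =
      (T : PowerSeries ℚ) * (derivative ρ : ℚ[X]) * (P i l : PowerSeries ℚ) +
        (ρ : PowerSeries ℚ) * (∑ j, (B i j : PowerSeries ℚ) * (P j l : PowerSeries ℚ)) -
        (ρ : PowerSeries ℚ) * (T : PowerSeries ℚ) * ((derivative (P i l) : ℚ[X]) : PowerSeries ℚ) -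
        ∑ k, (P i k : PowerSeries ℚ) * (BJ B J P k l : PowerSeries ℚ) := by
    intro l
    rw [Polynomial.coe_sub, Polynomial.coe_sub, Polynomial.coe_add, Polynomial.coe_mul,
      Polynomial.coe_mul, Polynomial.coe_mul, Polynomial.coe_mul, Polynomial.coe_mul, UC_coe_sum,
      UC_coe_sum, Finset.sum_congr rfl fun j _ => Polynomial.coe_mul (B i j) (P j l),
      Finset.sum_congr rfl fun k _ => Polynomial.coe_mul (P i k) (BJ B J P k l)]
  have hz := hI (fun l => T * derivative ρ * P i l + ρ * (∑ j, B i j * P j l) -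
      ρ * T * derivative (P i l) - ∑ k, P i k * BJ B J P k l) (by
    have e1 : ∑ l, (T : PowerSeries ℚ) * (derivative ρ : ℚ[X]) * (P i l : PowerSeries ℚ) * Y (J l) =
        (T : PowerSeries ℚ) * (derivative ρ : ℚ[X]) * ((ρ : PowerSeries ℚ) * Y i) := by
      rw [hP i, Finset.mul_sum]
      exact Finset.sum_congr rfl fun l _ => mul_assoc _ _ _
    have e2 : ∑ l, (ρ : PowerSeries ℚ) * (∑ j, (B i j : PowerSeries ℚ) * (P j l : PowerSeries ℚ)) *
        Y (J l) = (ρ : PowerSeries ℚ) * ((ρ : PowerSeries ℚ) * ((T : PowerSeries ℚ) *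
          PowerSeries.derivative ℚ (Y i))) := by
      have h1 : ∑ l, (ρ : PowerSeries ℚ) * (∑ j, (B i j : PowerSeries ℚ) * (P j l : PowerSeries ℚ)) *
          Y (J l) = (ρ : PowerSeries ℚ) * ∑ l, (∑ j, (B i j : PowerSeries ℚ) *
            (P j l : PowerSeries ℚ)) * Y (J l) := by
        rw [Finset.mul_sum]
        exact Finset.sum_congr rfl fun l _ => mul_assoc _ _ _
      rw [h1, UC_swap (fun j => (B i j : PowerSeries ℚ)) (fun j l => (P j l : PowerSeries ℚ))
        (fun l => Y (J l)), hode i, Finset.mul_sum (s := Finset.univ) (a := (ρ : PowerSeries ℚ))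
          (f := fun j => (B i j : PowerSeries ℚ) * Y j)]
      congr 1
      refine Finset.sum_congr rfl fun j _ => ?_
      rw [← hP j]
      ring
    have e4 : ∑ l, (∑ k, (P i k : PowerSeries ℚ) * (BJ B J P k l : PowerSeries ℚ)) * Y (J l) =
        ∑ k, (P i k : PowerSeries ℚ) * (((ρ : PowerSeries ℚ) * (T : PowerSeries ℚ)) *
          PowerSeries.derivative ℚ (Y (J k))) := by
      rw [UC_swap (fun k => (P i k : PowerSeries ℚ)) (fun k l => (BJ B J P k l : PowerSeries ℚ))
        (fun l => Y (J l))]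
      refine Finset.sum_congr rfl fun k _ => ?_
      rw [← ode_sub hode hP k, Polynomial.coe_mul]
    have hd : (ρ : PowerSeries ℚ) * PowerSeries.derivative ℚ (Y i) +
        Y i * ((derivative ρ : ℚ[X]) : PowerSeries ℚ) =
        ∑ l, ((P i l : PowerSeries ℚ) * PowerSeries.derivative ℚ (Y (J l)) +
          ((derivative (P i l) : ℚ[X]) : PowerSeries ℚ) * Y (J l)) := by
      have h1 := congrArg (PowerSeries.derivative ℚ) (hP i)
      rw [map_sum, Derivation.leibniz, smul_eq_mul, smul_eq_mul, PowerSeries.derivative_coe] at h1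
      rw [h1]
      refine Finset.sum_congr rfl fun l _ => ?_
      rw [Derivation.leibniz, smul_eq_mul, smul_eq_mul, PowerSeries.derivative_coe]
      ring
    have hd' : ∑ k, (P i k : PowerSeries ℚ) * (((ρ : PowerSeries ℚ) * (T : PowerSeries ℚ)) *
          PowerSeries.derivative ℚ (Y (J k))) +
        ∑ l, (ρ : PowerSeries ℚ) * (T : PowerSeries ℚ) *
          ((derivative (P i l) : ℚ[X]) : PowerSeries ℚ) * Y (J l) =
        ((ρ : PowerSeries ℚ) * (T : PowerSeries ℚ)) *
          ((ρ : PowerSeries ℚ) * PowerSeries.derivative ℚ (Y i) +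
            Y i * ((derivative ρ : ℚ[X]) : PowerSeries ℚ)) := by
      rw [hd, Finset.mul_sum, ← Finset.sum_add_distrib]
      refine Finset.sum_congr rfl fun l _ => ?_
      ring
    have hterm : ∀ l, ((fun l => T * derivative ρ * P i l + ρ * (∑ j, B i j * P j l) -
        ρ * T * derivative (P i l) - ∑ k, P i k * BJ B J P k l) l : PowerSeries ℚ) * Y (J l) =
        (T : PowerSeries ℚ) * (derivative ρ : ℚ[X]) * (P i l : PowerSeries ℚ) * Y (J l) +
          (ρ : PowerSeries ℚ) * (∑ j, (B i j : PowerSeries ℚ) * (P j l : PowerSeries ℚ)) * Y (J l) -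
          (ρ : PowerSeries ℚ) * (T : PowerSeries ℚ) *
            ((derivative (P i l) : ℚ[X]) : PowerSeries ℚ) * Y (J l) -
          (∑ k, (P i k : PowerSeries ℚ) * (BJ B J P k l : PowerSeries ℚ)) * Y (J l) := by
      intro l
      show (((T * derivative ρ * P i l + ρ * (∑ j, B i j * P j l) -
        ρ * T * derivative (P i l) - ∑ k, P i k * BJ B J P k l : ℚ[X])) : PowerSeries ℚ) * Y (J l) = _
      rw [hcoe l]
      ring
    rw [Finset.sum_congr rfl fun l _ => hterm l, Finset.sum_sub_distrib, Finset.sum_sub_distrib,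
      Finset.sum_add_distrib, e1, e2, e4]
    linear_combination -hd')
  have hzl := congrFun hz l
  have hzl' : T * derivative ρ * P i l + ρ * (∑ j, B i j * P j l) -
      ρ * T * derivative (P i l) - ∑ k, P i k * BJ B J P k l = 0 := hzl
  linear_combination -hzl'

/-- Proof. Induction on `s`. Write `w_s = iter T B w s`, `u_s = iter (ρ * T) (BJ B J P) u s`, `ρ ^ (s + 1) w_s = P u_s`. Derivative:
`(s + 1) ρ ^ s ρ' w_s + ρ ^ (s + 1) w_s' = P' u_s + P u_s'`. By `iter_succ`
`(s + 1) ρ ^ (s + 2) w_(s+1) = ρ ^ (s + 2) (T w_s' - B w_s - s T' w_s)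
 = ρ T (P' u_s + P u_s') - (s + 1) ρ' T P u_s - ρ B P u_s - s ρ T' P u_s`, and
`(s + 1) P u_(s+1) = P ((ρ T) u_s' - BJ u_s - s (ρ T)' u_s)`; the difference vanishes by `compat`
(`ρ T P' - ρ' T P = ρ B P - P BJ`, `(ρ T)' = ρ' T + ρ T'`). Cancel `s + 1 ≠ 0`. -/
theorem iter_compare {r m : ℕ} {T : ℚ[X]} {B : Fin (r + 1) → Fin (r + 1) → ℚ[X]}
    {Y : Fin (r + 1) → PowerSeries ℚ} {J : Fin (m + 1) → Fin (r + 1)} {ρ : ℚ[X]}
    {P : Fin (r + 1) → Fin (m + 1) → ℚ[X]}
    (hode : ∀ i, (T : PowerSeries ℚ) * PowerSeries.derivative ℚ (Y i) =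
      ∑ j, (B i j : PowerSeries ℚ) * Y j)
    (hP : ∀ i, (ρ : PowerSeries ℚ) * Y i = ∑ j, (P i j : PowerSeries ℚ) * Y (J j))
    (hI : Indep (fun j => Y (J j))) {w : Fin (r + 1) → ℚ[X]} {u : Fin (m + 1) → ℚ[X]}
    (hw : ∀ i, ρ * w i = ∑ l, P i l * u l) (s : ℕ) (i : Fin (r + 1)) :
    ρ ^ (s + 1) * iter T B w s i = ∑ l, P i l * iter (ρ * T) (BJ B J P) u s l := by
  induction s generalizing i with
  | zero =>
    rw [iter_zero, iter_zero, zero_add, pow_one]
    exact hw i
  | succ s ih =>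
    have hIH := ih i
    have hB : ρ ^ (s + 1) * ∑ j, B i j * iter T B w s j =
        ∑ l, (∑ j, B i j * P j l) * iter (ρ * T) (BJ B J P) u s l := by
      rw [UC_swap (fun j => B i j) P (iter (ρ * T) (BJ B J P) u s), Finset.mul_sum]
      refine Finset.sum_congr rfl fun j _ => ?_
      rw [← ih j]
      ring
    have hS4 : ∑ l, (∑ k, P i k * BJ B J P k l) * iter (ρ * T) (BJ B J P) u s l =
        ∑ l, P i l * ∑ k, BJ B J P l k * iter (ρ * T) (BJ B J P) u s k :=
      UC_swap (fun k => P i k) (BJ B J P) (iter (ρ * T) (BJ B J P) u s)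
    have hcomp : ρ * T * (∑ l, derivative (P i l) * iter (ρ * T) (BJ B J P) u s l) -
        derivative ρ * T * (∑ l, P i l * iter (ρ * T) (BJ B J P) u s l) =
        ρ * (∑ l, (∑ j, B i j * P j l) * iter (ρ * T) (BJ B J P) u s l) -
          ∑ l, (∑ k, P i k * BJ B J P k l) * iter (ρ * T) (BJ B J P) u s l := by
      rw [Finset.mul_sum, Finset.mul_sum, Finset.mul_sum, ← Finset.sum_sub_distrib,
        ← Finset.sum_sub_distrib]
      refine Finset.sum_congr rfl fun l _ => ?_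
      linear_combination (iter (ρ * T) (BJ B J P) u s l) * compat hode hP hI i l
    have hd : ((s : ℚ[X]) + 1) * ρ ^ s * derivative ρ * iter T B w s i +
        ρ ^ (s + 1) * derivative (iter T B w s i) =
        (∑ l, derivative (P i l) * iter (ρ * T) (BJ B J P) u s l) +
          ∑ l, P i l * derivative (iter (ρ * T) (BJ B J P) u s l) := by
      have h1 := congrArg derivative hIH
      rw [derivative_mul, derivative_pow_succ, derivative_sum,
        Finset.sum_congr rfl fun l _ => derivative_mul, Finset.sum_add_distrib] at h1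
      rw [← h1]
      congr 1
      have h2 : (C ((s : ℚ) + 1) : ℚ[X]) = (s : ℚ[X]) + 1 := by simp
      rw [h2]
    have hW := iter_succ T B w s i
    have hU : ((s : ℚ[X]) + 1) * (∑ l, P i l * iter (ρ * T) (BJ B J P) u (s + 1) l) +
        (s : ℚ[X]) * (derivative ρ * T + ρ * derivative T) *
          (∑ l, P i l * iter (ρ * T) (BJ B J P) u s l) =
        ρ * T * (∑ l, P i l * derivative (iter (ρ * T) (BJ B J P) u s l)) -
          ∑ l, P i l * ∑ k, BJ B J P l k * iter (ρ * T) (BJ B J P) u s k := by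
      rw [Finset.mul_sum, Finset.mul_sum, Finset.mul_sum, ← Finset.sum_add_distrib,
        ← Finset.sum_sub_distrib]
      refine Finset.sum_congr rfl fun l _ => ?_
      have h1 := iter_succ (ρ * T) (BJ B J P) u s l
      rw [derivative_mul] at h1
      linear_combination (P i l) * h1
    have hs : ((s : ℚ[X]) + 1) ≠ 0 := by
      have h4 : ((s : ℚ[X]) + 1) = C (s + 1 : ℚ) := by simp
      rw [h4]
      exact C_ne_zero.2 (by positivity)
    apply mul_left_cancel₀ hs
    rw [← hS4] at hU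
    linear_combination ρ ^ (s + 2) * hW + ρ * T * hd - ρ * hB +
      (-(s : ℚ[X]) * ρ * derivative T - ((s : ℚ[X]) + 1) * derivative ρ * T) * hIH - hU + hcomp

end Pool.Agent.Lib.MP_bbe012_lc.PP
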