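import Pool.Agent.Lib.MP_bbe012_lc.PP.MainA
import Pool.Agent.Lib.MP_bbe012_lc.PP.UA
import Pool.Agent.Lib.MP_bbe012_lc.PP.UB
import Pool.Agent.Lib.MP_bbe012_lc.PP.UC

/-!
# Stage 2: relations between values come from relations between functions, uniformly

The data which are not controlled (the basis `J`, `ρ`, `P`, the relation) enter only through constants which do not
matter when `g` tends to infinity.
-/

namespace Pool.Agent.Lib.MP_bbe012_lc.PP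

open Polynomial

private theorem ud_int (p : ℚ[X]) (n D0 : ℕ) (hp : p.natDegree ≤ n)
    (h : ∀ k, ∃ z : ℤ, (D0 : ℚ) * p.coeff k = z) (τ : ℚ) :
    ∃ z : ℤ, (D0 : ℚ) * (τ.den : ℚ) ^ n * p.eval τ = z := by
  choose z hz using h
  refine ⟨∑ k ∈ Finset.range (n + 1), z k * τ.num ^ k * (τ.den : ℤ) ^ (n - k), ?_⟩
  rw [eval_eq_sum_range' (Nat.lt_succ_of_le hp), Finset.mul_sum]
  push_cast
  refine Finset.sum_congr rfl fun k hk => ?_
  have hk' : k ≤ n := Nat.lt_succ_iff.1 (Finset.mem_range.1 hk)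
  have h1 : (τ.den : ℚ) ^ n * τ ^ k = (τ.num : ℚ) ^ k * (τ.den : ℚ) ^ (n - k) := by
    have h2 : (τ.den : ℚ) ^ n = (τ.den : ℚ) ^ k * (τ.den : ℚ) ^ (n - k) := by
      rw [← pow_add, Nat.add_sub_cancel' hk']
    have h3 : τ * (τ.den : ℚ) = τ.num := Rat.mul_den_eq_num τ
    rw [h2, ← h3, mul_pow]
    ring
  rw [← hz k]
  linear_combination ((D0 : ℚ) * p.coeff k) * h1

private theorem ud_P0 {r m : ℕ} (Y : Fin (r + 1) → PowerSeries ℚ) (hY0 : Y 0 = 1)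
    (J : Fin (m + 1) → Fin (r + 1)) (hJ0 : J 0 = 0) (R : ℚ[X])
    (P : Fin (r + 1) → Fin (m + 1) → ℚ[X])
    (hP : ∀ i, (R : PowerSeries ℚ) * Y i = ∑ j, (P i j : PowerSeries ℚ) * Y (J j))
    (hI : Indep (fun j => Y (J j))) : ∀ j, P 0 j = if j = 0 then R else 0 := by
  have h1 := hP 0
  have h2 : ∑ j, ((P 0 j - (if j = 0 then R else 0) : ℚ[X]) : PowerSeries ℚ) * Y (J j) = 0 := by
    have h3 : ∀ j : Fin (m + 1), ((P 0 j - (if j = 0 then R else 0) : ℚ[X]) : PowerSeries ℚ) * Y (J j) =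
        (P 0 j : PowerSeries ℚ) * Y (J j) - (if j = 0 then (R : PowerSeries ℚ) * Y (J j) else 0) := by
      intro j
      by_cases hj : j = 0
      · rw [if_pos hj, if_pos hj, Polynomial.coe_sub, sub_mul]
      · rw [if_neg hj, if_neg hj, sub_zero, sub_zero]
    rw [Finset.sum_congr rfl fun j _ => h3 j, Finset.sum_sub_distrib, ← h1, Finset.sum_ite_eq']
    rw [if_pos (Finset.mem_univ _), hJ0, sub_self]
  have h4 := hI (fun j => P 0 j - (if j = 0 then R else 0)) h2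
  intro j
  have h5 := congrFun h4 j
  exact sub_eq_zero.1 h5

/-- The estimates for one value of `g`, with a basis `J`. Notation: `D = (m (4 (e + 1)) + 1) g`, `K = D + 1 + 4 (e + 1) g`,
`T = TZ.map`, `R = ρ.map` (`Int.castRingHom ℚ`).

Proof (adapt `MainA_step` in MainA.lean). Take `q` from `exists_qC` for the family `Y (J ·)` and `E = 4 (e + 1)`;
`v l = PowerSeries.trunc (D + 1) (q * Y (J l))`, so `v 0 = q`, degrees `≤ D`, `X ^ K ∣ v 0 * Y (J l) - v l`;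
`u l = R * v l`, `w i = ∑ l, P i l * v l`: `R * w i = ∑ l, P i l * u l`, degrees of `u` and `w` at most `D + c₁`,
`w 0 = R * q` (by independence `P 0 0 = R`, `P 0 l = 0` for `l ≠ 0`, from `hP 0` and `hY0`), and
`X ^ K ∣ w 0 * Y i - w i` (as `w 0 * Y i = q * (R * Y i) = ∑ l, P i l * (q * Y (J l))`),
`X ^ K ∣ u 0 * Y (J l) - u l`. By `hdet` (for `D + c₁`, `u`) the determinant of the `iter (R * T) (BJ B J P) u s` is not `0`; `not_dvd_det`
for this system (it needs `BJ B J P 0 l = 0`, which follows from `hB0` and `hJ0`) with `k = S + 1 - m`,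
`S = g + (m + 1) * (c₁ + m * eJ) + m ^ 2 + m`, and `exists_ne` for `lam l = ∑ i, z i * (P i l).eval τ` give `s ≤ S ≤ 2 g` with
`∑ l, lam l * (iter (R * T) (BJ B J P) u s l).eval τ ≠ 0`, so by `iter_compare` evaluated at `τ` (`R(τ) ≠ 0`)
`Λ = ∑ i, z i * (iter T B w s i).eval τ ≠ 0`. Lower and upper bounds of `Λ` as in `MainA_step`, with `ρ * q` instead of `q`,
`w` instead of `v` and `D + c₁` instead of `D` (`den_iter`, `abs_rem_le`, `natDegree_iter`; they need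
`(D + c₁) + s (e + 1) < K`, true since `s ≤ 2 g` and `c₁ ≤ g`), and `l1 (ρ * q) ≤ l1 ρ * l1 q` (`l1_mul_le`). -/
theorem u_step {r m : ℕ} (TZ : ℤ[X]) (B : Fin (r + 1) → Fin (r + 1) → ℚ[X])
    (Y : Fin (r + 1) → PowerSeries ℚ) (hY0 : Y 0 = 1) {C : ℕ} {d : ℕ → ℕ} (hY : GData Y C d)
    (hB0 : ∀ j, B 0 j = 0)
    (hode : ∀ i, ((TZ.map (Int.castRingHom ℚ) : ℚ[X]) : PowerSeries ℚ) *
      PowerSeries.derivative ℚ (Y i) = ∑ j, (B i j : PowerSeries ℚ) * Y j)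
    (e : ℕ) (hTe : (TZ.map (Int.castRingHom ℚ)).natDegree ≤ e) (hBe : ∀ i j, (B i j).natDegree ≤ e)
    (J : Fin (m + 1) → Fin (r + 1)) (hJ0 : J 0 = 0) (ρ : ℤ[X])
    (P : Fin (r + 1) → Fin (m + 1) → ℚ[X])
    (hP : ∀ i, ((ρ.map (Int.castRingHom ℚ) : ℚ[X]) : PowerSeries ℚ) * Y i =
      ∑ j, (P i j : PowerSeries ℚ) * Y (J j))
    (hI : Indep (fun j => Y (J j))) (c₀ c₁ eJ : ℕ) (hρd : (ρ.map (Int.castRingHom ℚ)).natDegree ≤ c₁)
    (hPd : ∀ i j, (P i j).natDegree ≤ c₁)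
    (hTJ : (ρ.map (Int.castRingHom ℚ) * TZ.map (Int.castRingHom ℚ)).natDegree ≤ eJ)
    (hBJ : ∀ k l, (BJ B J P k l).natDegree ≤ eJ)
    (hdet : ∀ (D K : ℕ) (v : Fin (m + 1) → ℚ[X]), v 0 ≠ 0 → (v 0).natDegree ≤ D → D + c₀ ≤ K →
      (∀ i, (PowerSeries.X : PowerSeries ℚ) ^ K ∣ (v 0 : PowerSeries ℚ) * Y (J i) - (v i : PowerSeries ℚ)) →
      Matrix.det (Matrix.of fun s i : Fin (m + 1) =>
        iter (ρ.map (Int.castRingHom ℚ) * TZ.map (Int.castRingHom ℚ)) (BJ B J P) v s i) ≠ 0)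
    (g : ℕ) (hg : 1 + c₀ + c₁ + ((m + 1) * (c₁ + m * eJ) + m ^ 2 + m) ≤ g)
    (τ : ℚ) (hτ0 : τ ≠ 0) (hTτ : (TZ.map (Int.castRingHom ℚ)).eval τ ≠ 0)
    (hρτ : (ρ.map (Int.castRingHom ℚ)).eval τ ≠ 0) (hτC : (C : ℝ) * |(τ : ℝ)| ≤ 1 / 2)
    (z : Fin (r + 1) → ℤ) (hz : (fun l => ∑ i, (z i : ℚ) * (P i l).eval τ) ≠ 0)
    (hrel : ∑ i, (z i : ℝ) * ev τ (Y i) = 0) :
    ∃ (s K D : ℕ) (q : ℤ[X]), D = (m * (4 * (e + 1)) + 1) * g ∧ K = D + 1 + (4 * (e + 1)) * g ∧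
      s ≤ 2 * g ∧ (∀ k, |q.coeff k| ≤ (CQ m (4 * (e + 1)) C : ℤ) ^ g) ∧ q.natDegree ≤ D ∧
      (1 : ℝ) ≤ (C : ℝ) ^ (K + 1) * (τ.den : ℝ) ^ (D + c₁ + s * e) * ((∑ i, |(z i : ℝ)|) *
        (2 * C * ((l1 TZ : ℝ) ^ s * (2 ^ (D + c₁) * ((l1 ρ : ℝ) * (l1 q : ℝ)))) *
          ((C : ℝ) * |(τ : ℝ)|) ^ (K - s))) := by
  have hg1 : 1 ≤ g := by omega
  have hYJ0 : Y (J 0) = 1 := by rw [hJ0, hY0]
  have hYJ : GData (fun j => Y (J j)) C d :=
    ⟨hY.one_le, fun i k => hY.growth (J i) k, hY.dpos, hY.dle, fun K i k hk => hY.den K (J i) k hk⟩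
  obtain ⟨q, hq0, hqD, hqc, hqv⟩ := exists_qC (fun j => Y (J j)) hYJ0 hYJ (4 * (e + 1)) (by omega) g hg1
  obtain ⟨E, hE⟩ : ∃ E, E = 4 * (e + 1) := ⟨_, rfl⟩
  rw [← hE] at hqD hqv hqc ⊢
  obtain ⟨D, hD⟩ : ∃ D, D = (m * E + 1) * g := ⟨_, rfl⟩
  obtain ⟨K, hK⟩ : ∃ K, K = D + 1 + E * g := ⟨_, rfl⟩
  rw [← hD] at hqD hqv ⊢
  rw [← hK] at hqv
  obtain ⟨T, hT⟩ : ∃ T, T = TZ.map (Int.castRingHom ℚ) := ⟨_, rfl⟩
  obtain ⟨R, hR⟩ : ∃ R, R = ρ.map (Int.castRingHom ℚ) := ⟨_, rfl⟩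
  have hgE : g ≤ E * g := Nat.le_mul_of_pos_left g (by omega)
  have hP0 := ud_P0 Y hY0 J hJ0 _ P hP hI
  obtain ⟨v, hv⟩ : ∃ v : Fin (m + 1) → ℚ[X], v = fun i =>
    PowerSeries.trunc (D + 1) (((q.map (Int.castRingHom ℚ) : ℚ[X]) : PowerSeries ℚ) * Y (J i)) := ⟨_, rfl⟩
  have hqm : (q.map (Int.castRingHom ℚ)).natDegree ≤ D := le_trans natDegree_map_le hqD
  have hv0 : v 0 = q.map (Int.castRingHom ℚ) := by
    rw [hv]
    simp only
    rw [hYJ0, mul_one]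
    exact PowerSeries.trunc_coe_eq_self (Nat.lt_succ_of_le hqm)
  have hvD : ∀ i, (v i).natDegree ≤ D := by
    intro i
    rw [hv]
    exact Nat.lt_succ_iff.1 (PowerSeries.natDegree_trunc_lt _ _)
  have hvK : ∀ i, (PowerSeries.X : PowerSeries ℚ) ^ K ∣
      (v 0 : PowerSeries ℚ) * Y (J i) - (v i : PowerSeries ℚ) := by
    intro i
    rw [PowerSeries.X_pow_dvd_iff]
    intro k hk
    rw [map_sub, hv0, Polynomial.coeff_coe, hv]
    simp only
    rw [PowerSeries.coeff_trunc]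
    by_cases h1 : k < D + 1
    · rw [if_pos h1, sub_self]
    · rw [if_neg h1, sub_zero]
      exact hqv i k (by omega) hk
  have hv0' : v 0 ≠ 0 := by
    rw [hv0]
    intro h1
    apply hq0
    exact (Polynomial.map_eq_zero_iff (RingHom.injective_int (Int.castRingHom ℚ))).1 h1
  have hR0 : ρ.map (Int.castRingHom ℚ) ≠ 0 := by
    intro h1
    apply hρτ
    rw [h1, eval_zero]
  -- the vectors `u` and `w`
  obtain ⟨u, hu⟩ : ∃ u : Fin (m + 1) → ℚ[X], u = fun l => ρ.map (Int.castRingHom ℚ) * v l := ⟨_, rfl⟩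
  obtain ⟨w, hw⟩ : ∃ w : Fin (r + 1) → ℚ[X], w = fun i => ∑ l, P i l * v l := ⟨_, rfl⟩
  have huw : ∀ i, ρ.map (Int.castRingHom ℚ) * w i = ∑ l, P i l * u l := by
    intro i
    rw [hw, hu]
    simp only
    rw [Finset.mul_sum]
    refine Finset.sum_congr rfl fun l _ => ?_
    ring
  have hw0 : w 0 = (ρ * q).map (Int.castRingHom ℚ) := by
    rw [hw]
    simp only
    have h1 : ∀ l, P 0 l * v l = if l = 0 then ρ.map (Int.castRingHom ℚ) * v l else 0 := by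
      intro l
      rw [hP0 l]
      by_cases hl : l = 0
      · rw [if_pos hl, if_pos hl]
      · rw [if_neg hl, if_neg hl, zero_mul]
    rw [Finset.sum_congr rfl fun l _ => h1 l, Finset.sum_ite_eq', if_pos (Finset.mem_univ _), hv0,
      Polynomial.map_mul]
  have hwD : ∀ i, (w i).natDegree ≤ D + c₁ := by
    intro i
    rw [hw]
    refine natDegree_sum_le_of_forall_le _ _ fun l _ => ?_
    refine natDegree_mul_le.trans ?_
    have h1 := hPd i l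
    have h2 := hvD l
    omega
  have hwK : ∀ i, (PowerSeries.X : PowerSeries ℚ) ^ K ∣
      (w 0 : PowerSeries ℚ) * Y i - (w i : PowerSeries ℚ) := by
    intro i
    have h1 : (w 0 : PowerSeries ℚ) * Y i - (w i : PowerSeries ℚ) =
        ∑ l, (P i l : PowerSeries ℚ) * ((v 0 : PowerSeries ℚ) * Y (J l) - (v l : PowerSeries ℚ)) := by
      have h2 : (w 0 : PowerSeries ℚ) * Y i = (v 0 : PowerSeries ℚ) *
          (((ρ.map (Int.castRingHom ℚ) : ℚ[X]) : PowerSeries ℚ) * Y i) := by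
        rw [hw0, Polynomial.map_mul, Polynomial.coe_mul, hv0]
        ring
      have h3 : (w i : PowerSeries ℚ) = ∑ l, (P i l : PowerSeries ℚ) * (v l : PowerSeries ℚ) := by
        rw [hw]
        simp only
        have h4 := map_sum (Polynomial.coeToPowerSeries.ringHom (R := ℚ)) (fun l => P i l * v l)
          Finset.univ
        rw [Polynomial.coeToPowerSeries.ringHom_apply] at h4
        rw [h4]
        refine Finset.sum_congr rfl fun l _ => ?_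
        rw [Polynomial.coeToPowerSeries.ringHom_apply, Polynomial.coe_mul]
      rw [h2, hP i, h3, Finset.mul_sum, ← Finset.sum_sub_distrib]
      refine Finset.sum_congr rfl fun l _ => ?_
      ring
    rw [h1]
    exact Finset.dvd_sum fun l _ => Dvd.dvd.mul_left (hvK l) _
  have huD : ∀ l, (u l).natDegree ≤ D + c₁ := by
    intro l
    rw [hu]
    refine natDegree_mul_le.trans ?_
    have h2 := hvD l
    omega
  have huK : ∀ l, (PowerSeries.X : PowerSeries ℚ) ^ K ∣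
      (u 0 : PowerSeries ℚ) * Y (J l) - (u l : PowerSeries ℚ) := by
    intro l
    have h1 : (u 0 : PowerSeries ℚ) * Y (J l) - (u l : PowerSeries ℚ) =
        ((ρ.map (Int.castRingHom ℚ) : ℚ[X]) : PowerSeries ℚ) *
          ((v 0 : PowerSeries ℚ) * Y (J l) - (v l : PowerSeries ℚ)) := by
      rw [hu]
      simp only
      rw [Polynomial.coe_mul, Polynomial.coe_mul]
      ring
    rw [h1]
    exact Dvd.dvd.mul_left (hvK l) _
  have hu0 : u 0 ≠ 0 := by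
    rw [hu]
    exact mul_ne_zero hR0 hv0'
  have hΔ := hdet (D + c₁) K u hu0 (huD 0) (by omega) huK
  have hm : m ≤ g := by
    have h1 : m ≤ (m + 1) * (c₁ + m * eJ) + m ^ 2 + m := Nat.le_add_left m _
    omega
  have hKm : m ≤ K := by omega
  obtain ⟨S, hS⟩ : ∃ S, S = g + ((m + 1) * (c₁ + m * eJ) + m ^ 2 + m) := ⟨_, rfl⟩
  have hSm : m ≤ S + 1 := by omega
  have hnum : (m + 1) * ((D + c₁) + m * eJ) + (m + 1) = m * (K - m) + (S + 1 - m) := by
    zify [hKm, hSm]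
    rw [hK, hS, hD]
    push_cast
    ring
  have hodeJ := ode_sub hode hP
  have hBJ0 : ∀ l, BJ B J P 0 l = 0 := by
    intro l
    unfold BJ
    refine Finset.sum_eq_zero fun i _ => ?_
    rw [hJ0, hB0, zero_mul]
  have hnd := not_dvd_det (ρ.map (Int.castRingHom ℚ) * TZ.map (Int.castRingHom ℚ)) (BJ B J P)
    (fun j => Y (J j)) hYJ0 hBJ0 hodeJ u K eJ (D + c₁) huK hTJ hBJ huD hΔ hτ0
    (k := S + 1 - m) (by omega)
  have hRT : (ρ.map (Int.castRingHom ℚ) * TZ.map (Int.castRingHom ℚ)).eval τ ≠ 0 := by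
    rw [eval_mul]
    exact mul_ne_zero hρτ hTτ
  obtain ⟨s, hsS, hΛ'⟩ := exists_ne (ρ.map (Int.castRingHom ℚ) * TZ.map (Int.castRingHom ℚ))
    (BJ B J P) u hRT (S := S) (by omega) hnd hz
  have hs2 : s ≤ 2 * g := by omega
  obtain ⟨Λ, hΛd⟩ : ∃ Λ : ℚ, Λ = ∑ i, (z i : ℚ) *
    (iter (TZ.map (Int.castRingHom ℚ)) B w s i).eval τ := ⟨_, rfl⟩
  have hΛ : Λ ≠ 0 := by
    intro h1
    apply hΛ'
    have h2 : ((ρ.map (Int.castRingHom ℚ)).eval τ) ^ (s + 1) * Λ =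
        ∑ l, (∑ i, (z i : ℚ) * (P i l).eval τ) *
          (iter (ρ.map (Int.castRingHom ℚ) * TZ.map (Int.castRingHom ℚ)) (BJ B J P) u s l).eval τ := by
      have h3 : ∀ i, ((ρ.map (Int.castRingHom ℚ)).eval τ) ^ (s + 1) *
          (iter (TZ.map (Int.castRingHom ℚ)) B w s i).eval τ = ∑ l, (P i l).eval τ *
          (iter (ρ.map (Int.castRingHom ℚ) * TZ.map (Int.castRingHom ℚ)) (BJ B J P) u s l).eval τ := by
        intro i
        have h4 := congrArg (eval τ) (iter_compare hode hP hI huw s i)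
        rw [eval_mul, eval_pow, eval_finset_sum] at h4
        rw [h4]
        refine Finset.sum_congr rfl fun l _ => ?_
        rw [eval_mul]
      rw [hΛd, Finset.mul_sum]
      have h5 : ∀ i, ((ρ.map (Int.castRingHom ℚ)).eval τ) ^ (s + 1) * ((z i : ℚ) *
          (iter (TZ.map (Int.castRingHom ℚ)) B w s i).eval τ) = ∑ l, (z i : ℚ) * (P i l).eval τ *
          (iter (ρ.map (Int.castRingHom ℚ) * TZ.map (Int.castRingHom ℚ)) (BJ B J P) u s l).eval τ := by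
        intro i
        rw [mul_left_comm, h3 i, Finset.mul_sum]
        refine Finset.sum_congr rfl fun l _ => ?_
        ring
      rw [Finset.sum_congr rfl fun i _ => h5 i, Finset.sum_comm]
      refine Finset.sum_congr rfl fun l _ => ?_
      rw [Finset.sum_mul]
    rw [h1, mul_zero] at h2
    exact h2.symm
  have hse : s * (e + 1) + 2 * g ≤ E * g := by
    calc s * (e + 1) + 2 * g ≤ (2 * g) * (e + 1) + (2 * g) * (e + 1) :=
          Nat.add_le_add (Nat.mul_le_mul_right _ hs2) (Nat.le_mul_of_pos_right _ (by omega))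
      _ = E * g := by
          rw [hE]
          ring
  have hc₁g : c₁ ≤ g := by omega
  have hsK : D + c₁ + s * (e + 1) < K := by omega
  refine ⟨s, K, D, q, rfl, hK, hs2, hqc, hqD, ?_⟩
  -- the lower bound
  have hint : ∀ i, ∃ w' : ℤ, (d K : ℚ) * (τ.den : ℚ) ^ (D + c₁ + s * e) *
      (iter (TZ.map (Int.castRingHom ℚ)) B w s i).eval τ = w' := by
    intro i
    refine ud_int _ _ _ (natDegree_iter _ B w e (D + c₁) hTe hBe hwD s i) ?_ τ
    intro k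
    exact den_iter TZ (ρ * q) B Y hY hB0 hode w hw0 K e (D + c₁) hwK hTe hBe hwD s hsK i k
  choose w' hw' using hint
  have hdK : 0 < d K := hY.dpos K
  have hden : 0 < τ.den := τ.den_pos
  have hwΛ : (d K : ℚ) * (τ.den : ℚ) ^ (D + c₁ + s * e) * Λ = ((∑ i, z i * w' i : ℤ) : ℚ) := by
    rw [hΛd, Finset.mul_sum]
    push_cast
    refine Finset.sum_congr rfl fun i _ => ?_
    rw [← hw' i]
    ring
  have hpos : (0 : ℚ) < (d K : ℚ) * (τ.den : ℚ) ^ (D + c₁ + s * e) := by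
    have h1 : (0 : ℚ) < d K := by exact_mod_cast hdK
    have h2 : (0 : ℚ) < τ.den := by exact_mod_cast hden
    positivity
  have hw0' : (∑ i, z i * w' i : ℤ) ≠ 0 := by
    intro h1
    rw [h1, Int.cast_zero] at hwΛ
    rcases mul_eq_zero.1 hwΛ with h2 | h2
    · exact hpos.ne' h2
    · exact hΛ h2
  have hlow : (1 : ℝ) ≤ (d K : ℝ) * (τ.den : ℝ) ^ (D + c₁ + s * e) * |(Λ : ℝ)| := by
    have h1 : (1 : ℤ) ≤ |∑ i, z i * w' i| := Int.one_le_abs hw0'
    have h2 : (1 : ℚ) ≤ |(d K : ℚ) * (τ.den : ℚ) ^ (D + c₁ + s * e) * Λ| := by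
      rw [hwΛ, ← Int.cast_abs]
      exact_mod_cast h1
    rw [abs_mul, abs_of_pos hpos] at h2
    have h3 : (((1 : ℚ)) : ℝ) ≤
        (((d K : ℚ) * (τ.den : ℚ) ^ (D + c₁ + s * e) * |Λ| : ℚ) : ℝ) := by
      exact_mod_cast h2
    push_cast at h3
    exact h3
  have hl1 : ((l1 (ρ * q) : ℤ) : ℝ) ≤ (l1 ρ : ℝ) * (l1 q : ℝ) := by
    have h1 := l1_mul_le ρ q
    exact_mod_cast h1
  have hl1T : (0 : ℝ) ≤ (l1 TZ : ℝ) := by
    have h1 : (0 : ℤ) ≤ l1 TZ := Finset.sum_nonneg fun _ _ => abs_nonneg _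
    exact_mod_cast h1
  -- the upper bound
  have hup : |(Λ : ℝ)| ≤ (∑ i, |(z i : ℝ)|) *
      (2 * C * ((l1 TZ : ℝ) ^ s * (2 ^ (D + c₁) * ((l1 ρ : ℝ) * (l1 q : ℝ)))) *
        ((C : ℝ) * |(τ : ℝ)|) ^ (K - s)) := by
    have h1 : (Λ : ℝ) = - ∑ i, (z i : ℝ) *
        ((((iter (TZ.map (Int.castRingHom ℚ)) B w s 0).eval τ : ℚ) : ℝ) * ev τ (Y i) -
          (((iter (TZ.map (Int.castRingHom ℚ)) B w s i).eval τ : ℚ) : ℝ)) := by
      have h2 : ∑ i, (z i : ℝ) *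
        ((((iter (TZ.map (Int.castRingHom ℚ)) B w s 0).eval τ : ℚ) : ℝ) * ev τ (Y i) -
          (((iter (TZ.map (Int.castRingHom ℚ)) B w s i).eval τ : ℚ) : ℝ)) =
          (((iter (TZ.map (Int.castRingHom ℚ)) B w s 0).eval τ : ℚ) : ℝ) *
            (∑ i, (z i : ℝ) * ev τ (Y i)) -
          ∑ i, (z i : ℝ) * (((iter (TZ.map (Int.castRingHom ℚ)) B w s i).eval τ : ℚ) : ℝ) := by
        rw [Finset.mul_sum, ← Finset.sum_sub_distrib]
        exact Finset.sum_congr rfl fun i _ => by ring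
      rw [h2, hrel, mul_zero, zero_sub, neg_neg, hΛd]
      push_cast
      rfl
    rw [h1, abs_neg, Finset.sum_mul]
    refine le_trans (Finset.abs_sum_le_sum_abs _ _) (Finset.sum_le_sum fun i _ => ?_)
    rw [abs_mul]
    refine mul_le_mul_of_nonneg_left (le_trans (abs_rem_le TZ (ρ * q) B Y hY hB0 hode w hw0 K e
      (D + c₁) hwK hTe hBe hwD s hsK i τ hτC) ?_) (abs_nonneg _)
    refine mul_le_mul_of_nonneg_right ?_ (by positivity)
    refine mul_le_mul_of_nonneg_left ?_ (by positivity)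
    refine mul_le_mul_of_nonneg_left ?_ (pow_nonneg hl1T s)
    exact mul_le_mul_of_nonneg_left hl1 (by positivity)
  have hdC : (d K : ℝ) ≤ (C : ℝ) ^ (K + 1) := by exact_mod_cast hY.dle K
  calc (1 : ℝ) ≤ (d K : ℝ) * (τ.den : ℝ) ^ (D + c₁ + s * e) * |(Λ : ℝ)| := hlow
    _ ≤ (C : ℝ) ^ (K + 1) * (τ.den : ℝ) ^ (D + c₁ + s * e) * ((∑ i, |(z i : ℝ)|) *
        (2 * C * ((l1 TZ : ℝ) ^ s * (2 ^ (D + c₁) * ((l1 ρ : ℝ) * (l1 q : ℝ)))) *
          ((C : ℝ) * |(τ : ℝ)|) ^ (K - s))) := by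
      refine mul_le_mul ?_ hup (abs_nonneg _) (by positivity)
      exact mul_le_mul_of_nonneg_right hdC (by positivity)

end Pool.Agent.Lib.MP_bbe012_lc.PP
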