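import Pool.Agent.Lib.MP_bbe012_lc.Chain

/-!
# Stage 2: modules of minimal growth over the Weyl algebra are finitely generated
-/

namespace Pool.Agent.Lib.MP_bbe012_lc.PP

open Module Pool.Agent.Lib.MP_bbe012_lc

variable {𝕜 V : Type*} [Field 𝕜] [CharZero 𝕜] [AddCommGroup V] [Module 𝕜 V]

/-- A bounded number of strict steps in an ascending chain.

Proof: the same as the proof of `Weyl.chain` (Chain.lean), which is for descending chains: if `P k < P (k + 1)` for all `k < s`,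
choose `e k ∈ P (k + 1)`, `e k ∉ P k`, in `Γ j` for all `k < s`. `Weyl.subquotient` (`A = P (k + 1)`, `B = P k`) and `Weyl.bernstein` give
`N ^ n ≤ finrank (subFil (P (k + 1)) (P k) Γ (j + 2 * (n * (2 * N))))`, and by `finrank_subFil` the sum over `k < s` of these dimensions
is at most `finrank (Γ (j + 2 * (n * (2 * N)))) ≤ C * (j + 4 n N + 1) ^ n`, for all `N`; so `s ≤ C (4 n + 1) ^ n` as in `Weyl.chain`. -/
theorem Weyl.chain_up {n : ℕ} {X D : Fin n → V →ₗ[𝕜] V} {Γ : ℕ → Submodule 𝕜 V} {C : ℕ}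
    (hW : Weyl n X D Γ C) (P : ℕ → Submodule 𝕜 V) (hP : ∀ k, P k ≤ P (k + 1))
    (hX : ∀ k i, ∀ v ∈ P k, X i v ∈ P k) (hD : ∀ k i, ∀ v ∈ P k, D i v ∈ P k) :
    ∃ k, P (k + 1) ≤ P k := by
  by_contra hcon
  push Not at hcon
  have hex : ∀ k, ∃ e, e ∈ P (k + 1) ∧ e ∉ P k := fun k => by
    have := hcon k
    rw [SetLike.not_le_iff_exists] at this
    exact this
  choose e he1 he2 using hex
  choose lev hlev using fun k => hW.exh (e k)
  set r := C * (4 * n + 1) ^ n + 1 with hr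
  set j0 := (Finset.range r).sup lev with hj0
  set M := j0 + 1 with hM
  set j2 := j0 + 2 * (n * (2 * M)) with hj2
  have hfin := hW.fin j2
  have h1 : ∀ k < r, M ^ n + finrank 𝕜 (P k ⊓ Γ j2 : Submodule 𝕜 V) ≤
      finrank 𝕜 (P (k + 1) ⊓ Γ j2 : Submodule 𝕜 V) := by
    intro k hk
    have hWk := hW.subquotient (hP k) (hX (k + 1)) (hD (k + 1)) (hX k) (hD k)
    have hek : e k ∈ Γ j0 := hW.mono (Finset.le_sup (f := lev) (Finset.mem_range.mpr hk)) (hlev k)
    have h2 := hWk.bernstein (j := j0)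
      (e := ((P k).submoduleOf (P (k + 1))).mkQ ⟨e k, he1 k⟩)
      ⟨⟨e k, he1 k⟩, hek, rfl⟩ (by
        rw [Submodule.mkQ_apply, Ne, Submodule.Quotient.mk_eq_zero]
        exact fun h => he2 k h) M
    have h3 := finrank_subFil (hP k) (Γ := Γ) j2
    rw [← hj2] at h2
    omega
  have h2 : ∀ k ≤ r, k * M ^ n + finrank 𝕜 (P 0 ⊓ Γ j2 : Submodule 𝕜 V) ≤
      finrank 𝕜 (P k ⊓ Γ j2 : Submodule 𝕜 V) := by
    intro k
    induction k with
    | zero => intro _; simp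
    | succ k ih =>
      intro hk
      have h3 := ih (by omega)
      have h4 := h1 k (by omega)
      have h5 : (k + 1) * M ^ n = k * M ^ n + M ^ n := by ring
      omega
  have h3 := h2 r le_rfl
  have h4 : finrank 𝕜 (P r ⊓ Γ j2 : Submodule 𝕜 V) ≤ finrank 𝕜 (Γ j2) :=
    Submodule.finrank_mono inf_le_right
  have h5 := hW.growth j2
  have h6 : (j2 + 1) ^ n = (4 * n + 1) ^ n * M ^ n := by
    rw [← mul_pow]; congr 1; rw [hj2, hM]; ring
  rw [h6] at h5
  have h7 : r * M ^ n ≤ (C * (4 * n + 1) ^ n) * M ^ n := by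
    calc r * M ^ n ≤ C * ((4 * n + 1) ^ n * M ^ n) := by omega
      _ = _ := by ring
  have h8 : 0 < M ^ n := Nat.pow_pos (Nat.succ_pos _)
  have h9 := Nat.le_of_mul_le_mul_right h7 h8
  omega

/-- Finite generation.

Proof. For a finite set `S` let `gen S` be the infimum of the submodules which are stable under the `X i` and `D i` and contain `S`. If no
finite set works, then for every finite `S` there is `v ∉ gen S`; this gives a sequence `v 0, v 1, ...` with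
`v k ∉ gen {v 0, ..., v (k - 1)}` (recursion on lists or finsets), so `P k = gen {v 0, ..., v (k - 1)}` contradicts `Weyl.chain_up`. -/
theorem Weyl.finite_gen {n : ℕ} {X D : Fin n → V →ₗ[𝕜] V} {Γ : ℕ → Submodule 𝕜 V} {C : ℕ}
    (hW : Weyl n X D Γ C) :
    ∃ S : Finset V, ∀ P : Submodule 𝕜 V, (∀ i, ∀ v ∈ P, X i v ∈ P) → (∀ i, ∀ v ∈ P, D i v ∈ P) →
      (∀ v ∈ S, v ∈ P) → P = ⊤ := by
  classical
  by_contra hcon
  push Not at hcon
  obtain ⟨gen, hgen⟩ : ∃ gen : Finset V → Submodule 𝕜 V, gen = fun S => sInf {P : Submodule 𝕜 V |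
      (∀ i, ∀ v ∈ P, X i v ∈ P) ∧ (∀ i, ∀ v ∈ P, D i v ∈ P) ∧ ∀ v ∈ S, v ∈ P} := ⟨_, rfl⟩
  have hmem : ∀ (S : Finset V) (w : V), w ∈ gen S ↔ ∀ P : Submodule 𝕜 V,
      ((∀ i, ∀ v ∈ P, X i v ∈ P) ∧ (∀ i, ∀ v ∈ P, D i v ∈ P) ∧ ∀ v ∈ S, v ∈ P) → w ∈ P := by
    intro S w
    rw [hgen]
    exact Submodule.mem_sInf
  have hex : ∀ S : Finset V, ∃ w, w ∉ gen S := by
    intro S
    obtain ⟨P, h1, h2, h3, h4⟩ := hcon S
    obtain ⟨w, hw⟩ : ∃ w, w ∉ P := by
      by_contra hc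
      push Not at hc
      exact h4 (Submodule.eq_top_iff'.2 hc)
    exact ⟨w, fun h => hw ((hmem S w).1 h P ⟨h1, h2, h3⟩)⟩
  choose f hf using hex
  obtain ⟨S, hS0, hS⟩ : ∃ S : ℕ → Finset V, S 0 = ∅ ∧ ∀ k, S (k + 1) = insert (f (S k)) (S k) :=
    ⟨fun k => Nat.rec ∅ (fun _ T => insert (f T) T) k, rfl, fun k => rfl⟩
  obtain ⟨k, hk⟩ := Weyl.chain_up hW (fun k => gen (S k))
    (by
      intro k w hw
      refine (hmem _ _).2 fun P hP => (hmem _ _).1 hw P ⟨hP.1, hP.2.1, fun v hv => hP.2.2 v ?_⟩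
      rw [hS k]
      exact Finset.mem_insert_of_mem hv)
    (by
      intro k i v hv
      exact (hmem _ _).2 fun P hP => hP.1 i v ((hmem _ _).1 hv P hP))
    (by
      intro k i v hv
      exact (hmem _ _).2 fun P hP => hP.2.1 i v ((hmem _ _).1 hv P hP))
  refine hf (S k) (hk ((hmem _ _).2 fun P hP => hP.2.2 _ ?_))
  rw [hS k]
  exact Finset.mem_insert_self _ _

end Pool.Agent.Lib.MP_bbe012_lc.PP
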