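import Pool.Agent.Lib.MP_bbe012_lc.PP.Sat
import Pool.Agent.Lib.MP_bbe012_lc.PP.Forms
import Pool.Agent.Lib.MP_bbe012_lc.PP.OrderBd

/-!
# The zero estimate
-/

namespace Pool.Agent.Lib.MP_bbe012_lc.PP

open Polynomial

/-- The determinant of the iterated derivatives of a good approximation does not vanish.

Proof. Let `c₁` be the constant of `bounded_forms T hT B` and `c'` the constant of `order_bound Y hY c₁`;
take `c = c'`. Suppose the determinant is zero. By `exists_killer` and `bounded_forms` there is `a ≠ 0`, of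
degree `≤ c₁`, with `∑ a i * v i = 0`. Then `(v 0) * ∑ a_i Y_i = ∑ a_i ((v 0) Y_i - v_i)` is divisible by
`X ^ K`. `∑ a_i Y_i` is not divisible by `X ^ c'`; so `v 0` is divisible by `X ^ (K - c' + 1)` (in a power series
ring over a field: if `X ^ K ∣ f * g` and `¬ X ^ c' ∣ g` then `X ^ (K + 1 - c') ∣ f`; use `PowerSeries.order`
(`order_mul`, `X_pow_dvd_iff`/`PowerSeries.le_order_iff..`) or write `g = X ^ j * u` with `u` a unit, `j < c'`). Since
`D < K + 1 - c'`, the polynomial `v 0` of degree `≤ D` has all coefficients zero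
(`PowerSeries.X_pow_dvd_iff`, `Polynomial.coeff_coe`): contradiction. -/
theorem det_iter_ne_zero {r : ℕ} (T : ℚ[X]) (hT : T ≠ 0) (B : Fin (r + 1) → Fin (r + 1) → ℚ[X])
    (Y : Fin (r + 1) → PowerSeries ℚ) (hY : Indep Y) :
    ∃ c : ℕ, ∀ (D K : ℕ) (v : Fin (r + 1) → ℚ[X]), v 0 ≠ 0 → (v 0).natDegree ≤ D → D + c ≤ K →
      (∀ i, (PowerSeries.X : PowerSeries ℚ) ^ K ∣ (v 0 : PowerSeries ℚ) * Y i - (v i : PowerSeries ℚ)) →
      Matrix.det (Matrix.of fun s i : Fin (r + 1) => iter T B v s i) ≠ 0 := by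
  obtain ⟨c₁, hc₁⟩ := bounded_forms T hT B
  obtain ⟨c', hc'⟩ := order_bound Y hY c₁
  refine ⟨c', fun D K v hv0 hdeg hDK hdvd hdet => ?_⟩
  obtain ⟨a, ha0, hadeg, hav⟩ := hc₁ v (exists_killer T B v hdet)
  have hng := hc' a ha0 hadeg
  set g : PowerSeries ℚ := ∑ i, (a i : PowerSeries ℚ) * Y i with hg
  have hav' : ∑ i, (a i : PowerSeries ℚ) * (v i : PowerSeries ℚ) = 0 := by
    have h1 := congrArg (Polynomial.coeToPowerSeries.ringHom : ℚ[X] →+* PowerSeries ℚ) hav
    rw [map_sum, map_zero] at h1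
    refine Eq.trans (Finset.sum_congr rfl fun i _ => ?_) h1
    rw [map_mul]
    rfl
  have hfg : (PowerSeries.X : PowerSeries ℚ) ^ K ∣ (v 0 : PowerSeries ℚ) * g := by
    have h1 : (v 0 : PowerSeries ℚ) * g =
        ∑ i, (a i : PowerSeries ℚ) * ((v 0 : PowerSeries ℚ) * Y i - (v i : PowerSeries ℚ)) := by
      have h2 : ∑ i, (a i : PowerSeries ℚ) * ((v 0 : PowerSeries ℚ) * Y i - (v i : PowerSeries ℚ)) =
          (v 0 : PowerSeries ℚ) * g - ∑ i, (a i : PowerSeries ℚ) * (v i : PowerSeries ℚ) := by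
        rw [hg, Finset.mul_sum, ← Finset.sum_sub_distrib]
        refine Finset.sum_congr rfl fun i _ => ?_
        ring
      rw [h2, hav', sub_zero]
    rw [h1]
    exact Finset.dvd_sum fun i _ => Dvd.dvd.mul_left (hdvd i) _
  have hX : Prime (PowerSeries.X : PowerSeries ℚ) := PowerSeries.X_prime
  rw [pow_dvd_iff_le_emultiplicity, emultiplicity_mul hX] at hfg
  rw [pow_dvd_iff_le_emultiplicity, not_le] at hng
  have hf : (PowerSeries.X : PowerSeries ℚ) ^ (D + 1) ∣ (v 0 : PowerSeries ℚ) := by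
    rw [pow_dvd_iff_le_emultiplicity]
    by_contra hcon
    rw [not_le] at hcon
    obtain ⟨x, hx⟩ := ENat.ne_top_iff_exists.1 (ne_top_of_lt hcon)
    obtain ⟨y, hy⟩ := ENat.ne_top_iff_exists.1 (ne_top_of_lt hng)
    rw [← hx] at hfg hcon
    rw [← hy] at hfg hng
    have e1 : K ≤ x + y := by exact_mod_cast hfg
    have e2 : x < D + 1 := by exact_mod_cast hcon
    have e3 : y < c' := by exact_mod_cast hng
    omega
  apply hv0
  rw [PowerSeries.X_pow_dvd_iff] at hf
  ext n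
  rw [Polynomial.coeff_zero]
  by_cases hn : n < D + 1
  · have h1 := hf n hn
    rw [Polynomial.coeff_coe] at h1
    exact h1
  · exact Polynomial.coeff_eq_zero_of_natDegree_lt (by omega)

end Pool.Agent.Lib.MP_bbe012_lc.PP
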